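import Mathlib

/-! Finite `p`-groups: basic facts for the classification of the groups with `|Aut_c| = |γ₂|^d`. -/

set_option autoImplicit false

namespace Pool.Agent.Q89.AC

open Subgroup
open scoped commutatorElement

/-- class-preserving automorphisms -/
def CP {G : Type} [Group G] (α : MulAut G) : Prop := ∀ g, IsConj g (α g)

/-- the family generates the group -/
def Gen {G : Type} [Group G] {d : ℕ} (x : Fin d → G) : Prop := closure (Set.range x) = ⊤

/-- all assignments with values in the cosets of `γ₂` extend -/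
def P (G : Type) [Group G] (d : ℕ) : Prop :=
  ∀ x : Fin d → G, Gen x → ∀ c : Fin d → G, (∀ i, c i ∈ commutator G) →
    ∃ α : MulAut G, CP α ∧ ∀ i, α (x i) = c i * x i

/-- all generating families of length `d` are minimal -/
def Min (G : Type) [Group G] (d : ℕ) : Prop :=
  ∀ x : Fin d → G, Gen x → ∀ j, closure (x '' {j}ᶜ) ≠ ⊤

section basic

variable {G : Type} [Group G]

theorem comm_mem (g h : G) : ⁅g, h⁆ ∈ commutator G :=
  commutator_mem_commutator (mem_top g) (mem_top h)

theorem comm_of_conj {g h : G} (hc : IsConj g h) : h * g⁻¹ ∈ commutator G := by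
  obtain ⟨c, hc⟩ := isConj_iff.1 hc
  rw [← hc]
  exact comm_mem c g

theorem conj_eq (g x : G) : g * x * g⁻¹ = ⁅g, x⁆ * x := by
  rw [commutatorElement_def]; group

theorem hom_ext_gen {d : ℕ} {x : Fin d → G} (hx : Gen x) {α β : MulAut G}
    (h : ∀ i, α (x i) = β (x i)) : α = β := by
  have h1 : (α : G ≃* G).toMonoidHom = (β : G ≃* G).toMonoidHom := by
    apply MonoidHom.eq_of_eqOn_dense hx
    rintro _ ⟨i, rfl⟩
    exact h i
  ext g
  exact DFunLike.congr_fun h1 g

theorem exists_gen [Group.FG G] : ∃ x : Fin (Group.rank G) → G, Gen x := by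
  obtain ⟨S, hS, hc⟩ := Group.rank_spec G
  let e : Fin (Group.rank G) ≃ S := (finCongr hS.symm).trans S.equivFin.symm
  refine ⟨fun i => (e i : G), ?_⟩
  have : Set.range (fun i => (e i : G)) = (S : Set G) := by
    ext g
    constructor
    · rintro ⟨i, rfl⟩; exact (e i).2
    · intro hg; exact ⟨e.symm ⟨g, hg⟩, by simp⟩
  rw [Gen, this, hc]

theorem min_rank [Group.FG G] : Min G (Group.rank G) := by
  classical
  intro x hx j hj
  set S : Finset G := (Finset.univ.erase j).image x with hS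
  have h1 : (S : Set G) = x '' {j}ᶜ := by
    rw [hS]; push_cast; congr 1; ext i; simp
  have h2 := Group.rank_le (S := S) (by rw [h1]; exact hj)
  have h3 : S.card ≤ (Finset.univ.erase j).card := Finset.card_image_le
  have h4 : (Finset.univ.erase j).card < (Finset.univ : Finset (Fin (Group.rank G))).card :=
    Finset.card_erase_lt_of_mem (Finset.mem_univ j)
  rw [Finset.card_univ, Fintype.card_fin] at h4
  omega

theorem card_iff [Finite G] :
    Nat.card {α : MulAut G // CP α} = Nat.card (commutator G) ^ Group.rank G ↔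
      P G (Group.rank G) := by
  set d := Group.rank G with hd
  let F : (x : Fin d → G) → {α : MulAut G // CP α} → (Fin d → commutator G) :=
    fun x α i => ⟨α.1 (x i) * (x i)⁻¹, comm_of_conj (α.2 (x i))⟩
  have hinj : ∀ x, Gen x → Function.Injective (F x) := by
    intro x hx α β h
    apply Subtype.ext
    apply hom_ext_gen hx
    intro i
    have h1 := congrArg Subtype.val (congrFun h i)
    exact mul_right_cancel h1
  have hcard : Nat.card (Fin d → commutator G) = Nat.card (commutator G) ^ d := by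
    rw [Nat.card_fun, Nat.card_fin]
  have hsurj : ∀ x, Function.Surjective (F x) ↔ ∀ c : Fin d → G, (∀ i, c i ∈ commutator G) →
      ∃ α : MulAut G, CP α ∧ ∀ i, α (x i) = c i * x i := by
    intro x
    constructor
    · intro h c hc
      obtain ⟨α, hα⟩ := h fun i => ⟨c i, hc i⟩
      refine ⟨α.1, α.2, fun i => ?_⟩
      have h1 : α.1 (x i) * (x i)⁻¹ = c i := congrArg Subtype.val (congrFun hα i)
      rw [← h1]; group
    · intro h c
      obtain ⟨α, hα, h1⟩ := h (fun i => c i) fun i => (c i).2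
      refine ⟨⟨α, hα⟩, ?_⟩
      funext i
      apply Subtype.ext
      show α (x i) * (x i)⁻¹ = c i
      rw [h1]; group
  constructor
  · intro h x hx
    rw [← hsurj]
    exact ((hinj x hx).bijective_of_nat_card_le (by rw [hcard, h])).2
  · intro h
    obtain ⟨x, hx⟩ := exists_gen (G := G)
    have h1 : Function.Bijective (F x) := ⟨hinj x hx, (hsurj x).2 (h x hx)⟩
    rw [Nat.card_eq_of_bijective _ h1, hcard]

/-- a subgroup contained in its commutator with the group is trivial -/
theorem nil_bot [Group.IsNilpotent G] {B : Subgroup G} (h : B ≤ ⁅B, (⊤ : Subgroup G)⁆) :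
    B = ⊥ := by
  obtain ⟨n, hn⟩ := Subgroup.nilpotent_iff_lowerCentralSeries.1 (inferInstance : Group.IsNilpotent G)
  have h1 : ∀ k, B ≤ (⊤ : Subgroup G).lowerCentralSeries k := by
    intro k
    induction k with
    | zero => exact le_top
    | succ k ih =>
      rw [Subgroup.lowerCentralSeries_succ]
      exact h.trans (commutator_mono ih le_rfl)
  exact le_bot_iff.1 (hn ▸ h1 n)

theorem map_top_mk (N : Subgroup G) [N.Normal] : (⊤ : Subgroup G).map (QuotientGroup.mk' N) = ⊤ :=
  Subgroup.map_top_of_surjective _ (QuotientGroup.mk'_surjective N)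

theorem map_comm_mk (N : Subgroup G) [N.Normal] :
    (commutator G).map (QuotientGroup.mk' N) = commutator (G ⧸ N) := by
  rw [commutator_def, commutator_def, map_commutator, map_top_mk]

theorem nil_le [Group.IsNilpotent G] {B N : Subgroup G} [N.Normal]
    (h : B ≤ ⁅B, (⊤ : Subgroup G)⁆ ⊔ N) : B ≤ N := by
  have h1 : B.map (QuotientGroup.mk' N) ≤ ⁅B.map (QuotientGroup.mk' N), ⊤⁆ := by
    have h2 := Subgroup.map_mono (f := QuotientGroup.mk' N) h
    rw [Subgroup.map_sup, map_commutator, map_top_mk] at h2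
    have h3 : N.map (QuotientGroup.mk' N) = ⊥ := by
      rw [Subgroup.map_eq_bot_iff, QuotientGroup.ker_mk']
    rwa [h3, sup_bot_eq] at h2
  have h2 := nil_bot h1
  rw [Subgroup.map_eq_bot_iff, QuotientGroup.ker_mk'] at h2
  exact h2

/-- conjugation by generators -/
theorem conj_set [Finite G] {s : Set G} (hs : closure s = ⊤) {T : Set G}
    (h : ∀ g ∈ s, ∀ a ∈ T, g * a * g⁻¹ ∈ T) (g a : G) (ha : a ∈ T) : g * a * g⁻¹ ∈ T := by
  let M : Submonoid G :=
    { carrier := {g | ∀ a ∈ T, g * a * g⁻¹ ∈ T}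
      one_mem' := fun a ha => by simpa using ha
      mul_mem' := fun {g h} hg hh a ha => by
        have : g * h * a * (g * h)⁻¹ = g * (h * a * h⁻¹) * g⁻¹ := by group
        rw [Set.mem_ofPred_eq] at *
        rw [this]
        exact hg _ (hh a ha) }
  let K : Subgroup G :=
    { M with
      inv_mem' := fun {g} hg => by
        have h1 : g⁻¹ = g ^ (orderOf g - 1) := by
          have h2 : 0 < orderOf g := orderOf_pos g
          rw [inv_eq_iff_mul_eq_one, ← pow_succ']
          rw [Nat.sub_add_cancel h2]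
          exact pow_orderOf_eq_one g
        show g⁻¹ ∈ M
        rw [h1]
        exact M.pow_mem hg _ }
  have h1 : closure s ≤ K := (closure_le K).2 h
  have h2 : g ∈ K := h1 (hs ▸ mem_top g)
  exact h2 a ha

/-- a commutator with a fixed element, central values -/
theorem comm_hom_of_central {c : G} (h : ∀ g : G, ⁅g, c⁆ ∈ center G) :
    ∀ v ∈ commutator G, ⁅v, c⁆ = 1 := by
  have key : ∀ a b : G, a * b * c * (a * b)⁻¹ = ⁅b, c⁆ * ⁅a, c⁆ * c := by
    intro a b
    have h2 : a * ⁅b, c⁆ = ⁅b, c⁆ * a := mem_center_iff.1 (h b) a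
    calc a * b * c * (a * b)⁻¹ = a * (b * c * b⁻¹) * a⁻¹ := by group
      _ = a * ⁅b, c⁆ * (c * a⁻¹) := by rw [conj_eq]; group
      _ = ⁅b, c⁆ * (a * c * a⁻¹) := by rw [h2]; group
      _ = ⁅b, c⁆ * ⁅a, c⁆ * c := by rw [conj_eq]; group
  have hle : commutator G ≤ centralizer {c} := by
    rw [commutator_def, commutator_le]
    intro a _ b _
    rw [mem_centralizer_singleton_iff]
    have h1 := key a⁻¹ b⁻¹
    have h2 := key b⁻¹ a⁻¹
    have h3 : ⁅b⁻¹, c⁆ * ⁅a⁻¹, c⁆ = ⁅a⁻¹, c⁆ * ⁅b⁻¹, c⁆ := mem_center_iff.1 (h a⁻¹) _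
    rw [h3, ← h2] at h1
    have h4 : a * b * a⁻¹ * b⁻¹ * c * (a * b * a⁻¹ * b⁻¹)⁻¹ = c := by
      have h5 : a * b * a⁻¹ * b⁻¹ * c * (a * b * a⁻¹ * b⁻¹)⁻¹ =
          a * b * (a⁻¹ * b⁻¹ * c * (a⁻¹ * b⁻¹)⁻¹) * (a * b)⁻¹ := by group
      rw [h5, h1]; group
    rw [commutatorElement_def]
    exact mul_inv_eq_iff_eq_mul.1 h4
  intro v hv
  exact commutatorElement_eq_one_iff_mul_comm.2 (mem_centralizer_singleton_iff.1 (hle hv))

end basic

section pgroup

variable {G : Type} [Group G] [Finite G] {p : ℕ} [Fact p.Prime]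

theorem coatom_normal (hG : IsPGroup p G) {M : Subgroup G} (hM : IsCoatom M) : M.Normal := by
  have : Group.IsNilpotent G := hG.isNilpotent
  exact NormalizerCondition.normal_of_coatom M Group.normalizerCondition_of_isNilpotent hM

theorem coatom_index (hG : IsPGroup p G) {M : Subgroup G} (hM : IsCoatom M) : M.index = p := by
  obtain ⟨n, hn⟩ := IsPGroup.iff_card.1 hG
  obtain ⟨m, hm⟩ := IsPGroup.iff_card.1 (hG.to_subgroup M)
  have hp : p.Prime := Fact.out
  have h1 := M.card_mul_index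
  have hlt : m < n := by
    by_contra hle
    have h2 : Nat.card G ≤ Nat.card M := by
      rw [hn, hm]; exact Nat.pow_le_pow_right hp.pos (by omega)
    exact hM.1 (Subgroup.eq_top_of_card_eq M (le_antisymm (Subgroup.card_le_card_group M) h2))
  have hdvd : p ^ (m + 1) ∣ Nat.card G := by rw [hn]; exact pow_dvd_pow _ (by omega)
  obtain ⟨K, hK, hMK⟩ := Sylow.exists_subgroup_card_pow_succ hdvd hm
  have hne : M ≠ K := by
    intro h; subst h
    rw [hm] at hK
    have := Nat.pow_right_injective hp.two_le hK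
    omega
  have hK1 : K = ⊤ := hM.2 K (lt_of_le_of_ne hMK hne)
  rw [hK1, Subgroup.card_top] at hK
  rw [hm, hK, pow_succ] at h1
  exact Nat.eq_of_mul_eq_mul_left (pow_pos hp.pos m) h1

theorem exists_char (hG : IsPGroup p G) {M : Subgroup G} (hM : IsCoatom M) :
    ∃ χ : G →* Multiplicative (ZMod p), χ.ker = M := by
  have := coatom_normal hG hM
  have h1 : Nat.card (G ⧸ M) = p := coatom_index hG hM
  have h2 : Nat.card (Multiplicative (ZMod p)) = p := by simp
  let e : (G ⧸ M) ≃* Multiplicative (ZMod p) := mulEquivOfPrimeCardEq h1 h2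
  refine ⟨e.toMonoidHom.comp (QuotientGroup.mk' M), ?_⟩
  ext g
  rw [MonoidHom.mem_ker, MonoidHom.comp_apply]
  show e ((QuotientGroup.mk' M) g) = 1 ↔ _
  rw [map_eq_one_iff _ e.injective]
  exact QuotientGroup.eq_one_iff g

omit [Finite G] in
theorem mem_frattini {g : G} : g ∈ frattini G ↔ ∀ M : Subgroup G, IsCoatom M → g ∈ M := by
  simp only [frattini, Order.radical, Subgroup.mem_iInf, Set.mem_ofPred_eq]

theorem comm_le_frattini (hG : IsPGroup p G) : commutator G ≤ frattini G := by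
  intro g hg
  rw [mem_frattini]
  intro M hM
  obtain ⟨χ, hχ⟩ := exists_char hG hM
  rw [← hχ]
  exact Abelianization.commutator_subset_ker χ hg

theorem pow_mem_frattini (hG : IsPGroup p G) (g : G) : g ^ p ∈ frattini G := by
  rw [mem_frattini]
  intro M hM
  obtain ⟨χ, hχ⟩ := exists_char hG hM
  rw [← hχ, MonoidHom.mem_ker, map_pow]
  have h1 : p • (Multiplicative.toAdd (χ g)) = 0 := by simp
  exact h1

theorem gen_of_sup {K N : Subgroup G} (hN : N ≤ frattini G) (h : K ⊔ N = ⊤) : K = ⊤ :=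
  frattini_nongenerating (top_le_iff.1 (h ▸ sup_le_sup_left hN K))

theorem lift_gen {N : Subgroup G} [N.Normal] (hN : N ≤ frattini G) {s : Set G}
    (h : closure (QuotientGroup.mk' N '' s) = ⊤) : closure s = ⊤ := by
  apply gen_of_sup hN
  rw [← MonoidHom.map_closure] at h
  have h1 := congrArg (Subgroup.comap (QuotientGroup.mk' N)) h
  rwa [Subgroup.comap_map_eq, QuotientGroup.ker_mk', Subgroup.comap_top] at h1

omit [Finite G] in
/-- if `x ^ n ∈ E`, `x ^ p ∈ E` and `p ∤ n` then `x ∈ E` -/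
theorem mem_of_pow {E : Subgroup G} {x : G} {n : ℤ} (h1 : x ^ n ∈ E) (h2 : x ^ p ∈ E)
    (h3 : ¬ (p : ℤ) ∣ n) : x ∈ E := by
  have hp : p.Prime := Fact.out
  have h4 : IsCoprime (p : ℤ) n := by
    rw [Int.isCoprime_iff_gcd_eq_one]
    have h5 : Nat.Coprime p n.natAbs := (Nat.Prime.coprime_iff_not_dvd hp).2 (by
      rwa [← Int.natCast_dvd])
    simpa [Int.gcd] using h5
  obtain ⟨a, b, hab⟩ := h4
  have h5 : x = (x ^ (p : ℤ)) ^ a * (x ^ n) ^ b := by
    rw [← zpow_mul, ← zpow_mul, ← zpow_add]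
    have : (p : ℤ) * a + n * b = 1 := by rw [← hab]; ring
    rw [this, zpow_one]
  rw [h5]
  exact E.mul_mem (E.zpow_mem (by rw [zpow_natCast]; exact h2) _) (E.zpow_mem h1 _)

theorem exchange (hG : IsPGroup p G) {d : ℕ} {x : Fin d → G} (hx : Gen x) {w : G}
    (hw : w ∉ frattini G) : ∃ j, Gen (Function.update x j w) := by
  classical
  let H : ℕ → Subgroup G := fun k => closure (x '' {i | i.val < k}) ⊔ frattini G
  have hex : ∃ k, w ∈ H k := by
    refine ⟨d, ?_⟩
    have h1 : x '' {i : Fin d | i.val < d} = Set.range x := by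
      rw [← Set.image_univ]; congr 1; ext i; simp
    show w ∈ closure (x '' {i : Fin d | i.val < d}) ⊔ frattini G
    rw [h1, hx, top_sup_eq]
    trivial
  have hk := Nat.find_spec hex
  set k := Nat.find hex with hkdef
  have hk0 : k ≠ 0 := by
    intro h0
    rw [h0] at hk
    have h1 : x '' {i : Fin d | i.val < 0} = ∅ := by
      ext g; simp
    have h2 : w ∈ closure (x '' {i : Fin d | i.val < 0}) ⊔ frattini G := hk
    rw [h1, Subgroup.closure_empty, bot_sup_eq] at h2
    exact hw h2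
  obtain ⟨m, hm⟩ := Nat.exists_eq_succ_of_ne_zero hk0
  have hnot : w ∉ H m := Nat.find_min hex (by rw [← hkdef, hm]; exact Nat.lt_succ_self m)
  have hmd : m < d := by
    by_contra hle
    apply hnot
    have h1 : x '' {i : Fin d | i.val < m} = Set.range x := by
      rw [← Set.image_univ]; congr 1; ext i; simp; omega
    show w ∈ closure (x '' {i : Fin d | i.val < m}) ⊔ frattini G
    rw [h1, hx, top_sup_eq]
    trivial
  set j : Fin d := ⟨m, hmd⟩ with hj
  have hΓ : commutator G ≤ H m := (comm_le_frattini hG).trans le_sup_right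
  have hnorm : (H m).Normal := Subgroup.Normal.of_commutator_le _ hΓ
  have hsub : H k ≤ zpowers (x j) ⊔ H m := by
    refine sup_le ?_ (le_sup_right.trans le_sup_right)
    rw [closure_le]
    rintro _ ⟨i, hi, rfl⟩
    rw [Set.mem_ofPred_eq, hm] at hi
    by_cases hij : i = j
    · rw [hij]; exact mem_sup_left (mem_zpowers _)
    · have : i.val < m := by
        have h1 : i.val ≠ m := fun h => hij (Fin.ext h)
        omega
      exact mem_sup_right (mem_sup_left (subset_closure ⟨i, this, rfl⟩))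
  obtain ⟨a, ha, b, hb, hab⟩ := mem_sup_of_normal_right.1 (hsub hk)
  obtain ⟨n, rfl⟩ := mem_zpowers_iff.1 ha
  have hpn : ¬ (p : ℤ) ∣ n := by
    rintro ⟨q, rfl⟩
    apply hnot
    rw [← hab, zpow_mul, zpow_natCast]
    exact (H m).mul_mem (zpow_mem (mem_sup_right (pow_mem_frattini hG _)) _) hb
  refine ⟨j, ?_⟩
  apply gen_of_sup (N := frattini G) le_rfl
  set E := closure (Set.range (Function.update x j w)) ⊔ frattini G with hE
  have hmem : ∀ i, i ≠ j → x i ∈ E := fun i hi =>
    mem_sup_left (subset_closure ⟨i, Function.update_of_ne hi _ _⟩)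
  have hDE : H m ≤ E := by
    refine sup_le ?_ le_sup_right
    rw [closure_le]
    rintro _ ⟨i, hi, rfl⟩
    apply hmem
    intro h
    rw [h, Set.mem_ofPred_eq, hj] at hi
    exact lt_irrefl _ hi
  have hwE : w ∈ E := mem_sup_left (subset_closure ⟨j, Function.update_self _ _ _⟩)
  have hxn : x j ^ n ∈ E := by
    have : x j ^ n = w * b⁻¹ := by rw [← hab]; group
    rw [this]
    exact E.mul_mem hwE (E.inv_mem (hDE hb))
  have hxj : x j ∈ E := mem_of_pow hxn (mem_sup_right (pow_mem_frattini hG _)) hpn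
  rw [← top_le_iff, ← hx, closure_le]
  rintro _ ⟨i, rfl⟩
  by_cases hij : i = j
  · rw [hij]; exact hxj
  · exact hmem i hij

theorem exists_dual (hG : IsPGroup p G) {d : ℕ} (hmin : Min G d) {x : Fin d → G} (hx : Gen x)
    (j : Fin d) : ∃ χ : G →* Multiplicative (ZMod p), (∀ g ∈ frattini G, χ g = 1) ∧
      (∀ i, i ≠ j → χ (x i) = 1) ∧ χ (x j) ≠ 1 := by
  obtain ⟨M, hM, hle⟩ := (eq_top_or_exists_le_coatom (closure (x '' {j}ᶜ))).resolve_left (hmin x hx j)
  obtain ⟨χ, hχ⟩ := exists_char hG hM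
  refine ⟨χ, fun g hg => ?_, fun i hi => ?_, fun h => ?_⟩
  · rw [← MonoidHom.mem_ker, hχ]
    exact mem_frattini.1 hg M hM
  · rw [← MonoidHom.mem_ker, hχ]
    exact hle (subset_closure ⟨i, hi, rfl⟩)
  · rw [← MonoidHom.mem_ker, hχ] at h
    apply hM.1
    rw [← top_le_iff, ← hx, closure_le]
    rintro _ ⟨i, rfl⟩
    by_cases hij : i = j
    · rw [hij]; exact h
    · exact hle (subset_closure ⟨i, hij, rfl⟩)

/-- conjugates of the elements outside of the Frattini subgroup -/
theorem conj_all (hG : IsPGroup p G) {d : ℕ} (hP : P G d) {x : Fin d → G} (hx : Gen x) {w : G}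
    (hw : w ∉ frattini G) {c : G} (hc : c ∈ commutator G) : ∃ g, g * w * g⁻¹ = c * w := by
  obtain ⟨j, hj⟩ := exchange hG hx hw
  obtain ⟨α, hα, h1⟩ := hP _ hj (fun _ => c) fun _ => hc
  have h2 := hα w
  have h3 := h1 j
  rw [Function.update_self] at h3
  rw [h3] at h2
  exact isConj_iff.1 h2

end pgroup

section quotient

variable {G : Type} [Group G] [Finite G] {p : ℕ} [Fact p.Prime]

theorem P_quot (hG : IsPGroup p G) {d : ℕ} (hP : P G d) (N : Subgroup G) [N.Normal]
    (hN : N ≤ commutator G) : P (G ⧸ N) d := by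
  intro x hx c hc
  choose y hy using fun i => QuotientGroup.mk'_surjective N (x i)
  have hyx : QuotientGroup.mk' N '' Set.range y = Set.range x := by
    rw [← Set.range_comp]; congr 1; funext i; exact hy i
  have hgy : Gen y := lift_gen (hN.trans (comm_le_frattini hG)) (by rw [hyx]; exact hx)
  have hc' : ∀ i, ∃ e ∈ commutator G, QuotientGroup.mk' N e = c i := by
    intro i
    have := hc i
    rw [← map_comm_mk] at this
    exact this
  choose e he hec using hc'
  obtain ⟨α, hα, h1⟩ := hP y hgy e he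
  have hmap : N.map (α : G ≃* G).toMonoidHom = N := by
    apply le_antisymm
    · rintro _ ⟨n, hn, rfl⟩
      obtain ⟨g, hg⟩ := isConj_iff.1 (hα n)
      show α n ∈ N
      rw [← hg]
      exact (inferInstance : N.Normal).conj_mem n hn g
    · intro n hn
      have h2 := hα (α.symm n)
      have h3 : α (α.symm n) = n := α.apply_symm_apply n
      rw [h3] at h2
      obtain ⟨g, hg⟩ := isConj_iff.1 h2.symm
      exact ⟨α.symm n, by rw [SetLike.mem_coe, ← hg]; exact (inferInstance : N.Normal).conj_mem n hn g, h3⟩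
  let β : MulAut (G ⧸ N) := QuotientGroup.congr N N α hmap
  have hβ : ∀ g : G, β (QuotientGroup.mk' N g) = QuotientGroup.mk' N (α g) := fun g => rfl
  refine ⟨β, ?_, ?_⟩
  · intro g
    obtain ⟨g, rfl⟩ := QuotientGroup.mk'_surjective N g
    rw [hβ]
    exact (QuotientGroup.mk' N).map_isConj (hα g)
  · intro i
    rw [← hy i, hβ, h1, map_mul, hec]

theorem Min_quot (hG : IsPGroup p G) {d : ℕ} (hM : Min G d) (N : Subgroup G) [N.Normal]
    (hN : N ≤ commutator G) : Min (G ⧸ N) d := by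
  intro x hx j hj
  choose y hy using fun i => QuotientGroup.mk'_surjective N (x i)
  have hyx : QuotientGroup.mk' N '' Set.range y = Set.range x := by
    rw [← Set.range_comp]; congr 1; funext i; exact hy i
  have hgy : Gen y := lift_gen (hN.trans (comm_le_frattini hG)) (by rw [hyx]; exact hx)
  apply hM y hgy j
  apply lift_gen (hN.trans (comm_le_frattini hG))
  rw [← Set.image_comp]
  convert hj using 2
  apply Set.image_congr
  intro i _
  exact hy i

end quotient

section series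

/-- `γ₃` -/
abbrev g3 (G : Type) [Group G] : Subgroup G := ⁅commutator G, (⊤ : Subgroup G)⁆

/-- `γ₄` -/
abbrev g4 (G : Type) [Group G] : Subgroup G := ⁅g3 G, (⊤ : Subgroup G)⁆

/-- `γ₅` -/
abbrev g5 (G : Type) [Group G] : Subgroup G := ⁅g4 G, (⊤ : Subgroup G)⁆

variable {G : Type} [Group G]

theorem g3_le : g3 G ≤ commutator G := commutator_mono le_top le_rfl

theorem g4_le : g4 G ≤ g3 G := commutator_mono g3_le le_rfl

theorem g5_le : g5 G ≤ g4 G := commutator_mono g4_le le_rfl

theorem map_g3 (N : Subgroup G) [N.Normal] :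
    (g3 G).map (QuotientGroup.mk' N) = g3 (G ⧸ N) := by
  rw [map_commutator, map_top_mk, map_comm_mk]

theorem map_g4 (N : Subgroup G) [N.Normal] :
    (g4 G).map (QuotientGroup.mk' N) = g4 (G ⧸ N) := by
  rw [map_commutator, map_top_mk, map_g3]

theorem map_g5 (N : Subgroup G) [N.Normal] :
    (g5 G).map (QuotientGroup.mk' N) = g5 (G ⧸ N) := by
  rw [map_commutator, map_top_mk, map_g4]

theorem comm_mem' {B : Subgroup G} {g b : G} (hb : b ∈ B) : ⁅g, b⁆ ∈ ⁅B, (⊤ : Subgroup G)⁆ := by
  rw [← commutatorElement_inv]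
  exact inv_mem (commutator_mem_commutator hb (mem_top g))

theorem normal_between {A B N : Subgroup G} (hAB : ⁅B, (⊤ : Subgroup G)⁆ ≤ A) (h1 : A ≤ N)
    (h2 : N ≤ B) : N.Normal := by
  refine ⟨fun n hn g => ?_⟩
  rw [conj_eq]
  exact N.mul_mem (h1 (hAB (comm_mem' (h2 hn)))) hn

/-- a normal subgroup `N` between `A` and `B` of index `p` in `B` -/
theorem exists_N [Finite G] {p : ℕ} [Fact p.Prime] (hG : IsPGroup p G) {A B : Subgroup G}
    (hAB : ⁅B, (⊤ : Subgroup G)⁆ ≤ A) (hlt : A < B) :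
    ∃ N : Subgroup G, N.Normal ∧ A ≤ N ∧ N ≤ B ∧ ∃ t ∈ B, t ∉ N ∧ t ^ p ∈ N ∧
      B ≤ zpowers t ⊔ N := by
  classical
  obtain ⟨N, hAN, hN⟩ := (Set.toFinite {N : Subgroup G | A ≤ N ∧ N < B}).exists_le_maximal
    (a := A) ⟨le_rfl, hlt⟩
  obtain ⟨-, hNB⟩ := hN.prop
  have hnorm : N.Normal := normal_between hAB hAN hNB.le
  refine ⟨N, hnorm, hAN, hNB.le, ?_⟩
  obtain ⟨b, hb, hbN⟩ := SetLike.exists_of_lt hNB
  have hex : ∃ k, b ^ p ^ k ∈ N := by
    obtain ⟨k, hk⟩ := hG b
    exact ⟨k, by rw [hk]; exact N.one_mem⟩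
  have hk := Nat.find_spec hex
  have hk0 : Nat.find hex ≠ 0 := by
    intro h0
    rw [h0, pow_zero, pow_one] at hk
    exact hbN hk
  obtain ⟨m, hm⟩ := Nat.exists_eq_succ_of_ne_zero hk0
  have hnot : b ^ p ^ m ∉ N := Nat.find_min hex (by rw [hm]; exact Nat.lt_succ_self m)
  refine ⟨b ^ p ^ m, B.pow_mem hb _, hnot, ?_, ?_⟩
  · rw [hm] at hk
    rw [← pow_mul, ← pow_succ]
    exact hk
  · by_contra hle
    have h1 : zpowers (b ^ p ^ m) ⊔ N < B := by
      refine lt_of_le_of_ne (sup_le ?_ hNB.le) fun h => hle h.ge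
      rw [zpowers_le]
      exact B.pow_mem hb _
    have h2 := hN.le_of_ge ⟨hAN.trans le_sup_right, h1⟩ le_sup_right
    exact hnot (h2 (mem_sup_left (mem_zpowers _)))

/-- the same with a prescribed element outside of `N` if `B / A` has exponent `p` -/
theorem exists_N' [Finite G] {p : ℕ} [Fact p.Prime] {A B : Subgroup G}
    (hAB : ⁅B, (⊤ : Subgroup G)⁆ ≤ A) (hle : A ≤ B) (hexp : ∀ b ∈ B, b ^ p ∈ A) {t : G}
    (ht : t ∈ B) (htA : t ∉ A) :
    ∃ N : Subgroup G, N.Normal ∧ A ≤ N ∧ N ≤ B ∧ t ∉ N ∧ B ≤ zpowers t ⊔ N := by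
  classical
  obtain ⟨N, hAN, hN⟩ := (Set.toFinite {N : Subgroup G | A ≤ N ∧ N ≤ B ∧ t ∉ N}).exists_le_maximal
    (a := A) ⟨le_rfl, hle, htA⟩
  obtain ⟨-, hNB, htN⟩ := hN.prop
  have hnorm : N.Normal := normal_between hAB hAN hNB
  refine ⟨N, hnorm, hAN, hNB, htN, fun b hb => ?_⟩
  by_cases hbN : b ∈ N
  · exact mem_sup_right hbN
  have h1 : t ∈ zpowers b ⊔ N := by
    by_contra h1
    have h2 := hN.le_of_ge ⟨hAN.trans le_sup_right, sup_le (by rwa [zpowers_le]) hNB, h1⟩
      le_sup_right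
    exact hbN (h2 (mem_sup_left (mem_zpowers _)))
  obtain ⟨a, ha, n, hn, han⟩ := mem_sup_of_normal_right.1 h1
  obtain ⟨k, rfl⟩ := mem_zpowers_iff.1 ha
  have hpk : ¬ (p : ℤ) ∣ k := by
    rintro ⟨q, rfl⟩
    apply htN
    rw [← han, zpow_mul, zpow_natCast]
    exact N.mul_mem (zpow_mem (hAN (hexp b hb)) _) hn
  refine mem_of_pow (p := p) (n := k) ?_ (mem_sup_right (hAN (hexp b hb))) hpk
  have h2 : b ^ k = t * n⁻¹ := by rw [← han]; group
  rw [h2]
  exact mul_mem (mem_sup_left (mem_zpowers _)) (mem_sup_right (inv_mem hn))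

theorem map_eq_zpowers {N B : Subgroup G} [N.Normal] {t : G} (ht : t ∈ B)
    (hB : B ≤ zpowers t ⊔ N) : B.map (QuotientGroup.mk' N) = zpowers (QuotientGroup.mk' N t) := by
  apply le_antisymm
  · rintro _ ⟨b, hb, rfl⟩
    obtain ⟨a, ha, n, hn, han⟩ := mem_sup_of_normal_right.1 (hB hb)
    obtain ⟨k, rfl⟩ := mem_zpowers_iff.1 ha
    have h1 : QuotientGroup.mk' N n = 1 := (QuotientGroup.eq_one_iff n).2 hn
    rw [← han, map_mul, h1, mul_one, map_zpow]
    exact zpow_mem (mem_zpowers _) _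
  · rw [zpowers_le]
    exact ⟨t, ht, rfl⟩

theorem mk_central {N B : Subgroup G} [N.Normal] (hB : ⁅B, (⊤ : Subgroup G)⁆ ≤ N) {t : G}
    (ht : t ∈ B) : QuotientGroup.mk' N t ∈ center (G ⧸ N) := by
  rw [mem_center_iff]
  intro g
  obtain ⟨g, rfl⟩ := QuotientGroup.mk'_surjective N g
  rw [← commutatorElement_eq_one_iff_mul_comm, ← map_commutatorElement]
  exact (QuotientGroup.eq_one_iff _).2 (hB (comm_mem' ht))

end series

end Pool.Agent.Q89.AC
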