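import Pool.Agent.Q89.AC1

/-! Groups of class at least three with the property `P` have two generators. -/

set_option autoImplicit false

namespace Pool.Agent.Q89.AC

open Subgroup
open scoped commutatorElement

/-- the subgroup of the elements `g` such that `⁅a, g⁆` commutes with `w` -/
theorem commute_all {H : Type} [Group H] [Finite H] {a w : H} {s : Set H} (hs : closure s = ⊤)
    (hcen : ∀ v ∈ commutator H, ∀ g : H, ⁅g, v⁆ ∈ center H)
    (h : ∀ g ∈ s, ⁅a, g⁆ * w = w * ⁅a, g⁆) (g : H) : ⁅a, g⁆ * w = w * ⁅a, g⁆ := by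
  have hmul : ∀ g g' : H, ⁅a, g⁆ * w = w * ⁅a, g⁆ → ⁅a, g'⁆ * w = w * ⁅a, g'⁆ →
      ⁅a, g * g'⁆ * w = w * ⁅a, g * g'⁆ := by
    intro g g' h1 h2
    have e : ⁅a, g * g'⁆ = ⁅a, g⁆ * (⁅g, ⁅a, g'⁆⁆ * ⁅a, g'⁆) := by
      rw [← conj_eq]; simp only [commutatorElement_def]; group
    have h3 : ⁅g, ⁅a, g'⁆⁆ * w = w * ⁅g, ⁅a, g'⁆⁆ :=
      ((mem_center_iff.1 (hcen _ (comm_mem a g') g)) w).symm
    rw [e]
    calc ⁅a, g⁆ * (⁅g, ⁅a, g'⁆⁆ * ⁅a, g'⁆) * w = ⁅a, g⁆ * ⁅g, ⁅a, g'⁆⁆ * (⁅a, g'⁆ * w) := by group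
      _ = ⁅a, g⁆ * (⁅g, ⁅a, g'⁆⁆ * w) * ⁅a, g'⁆ := by rw [h2]; group
      _ = (⁅a, g⁆ * w) * ⁅g, ⁅a, g'⁆⁆ * ⁅a, g'⁆ := by rw [h3]; group
      _ = w * (⁅a, g⁆ * (⁅g, ⁅a, g'⁆⁆ * ⁅a, g'⁆)) := by rw [h1]; group
  let M : Submonoid H :=
    { carrier := {g | ⁅a, g⁆ * w = w * ⁅a, g⁆}
      one_mem' := by simp
      mul_mem' := fun {g g'} h1 h2 => hmul g g' h1 h2 }
  let K : Subgroup H :=
    { M with
      inv_mem' := fun {g} hg => by
        have h1 : g⁻¹ = g ^ (orderOf g - 1) := by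
          have h2 : 0 < orderOf g := orderOf_pos g
          rw [inv_eq_iff_mul_eq_one, ← pow_succ']
          rw [Nat.sub_add_cancel h2]
          exact pow_orderOf_eq_one g
        show g⁻¹ ∈ M
        rw [h1]
        exact M.pow_mem hg _ }
  have h1 : closure s ≤ K := (closure_le K).2 h
  exact h1 (hs ▸ mem_top g)

theorem conj_gen {H : Type} [Group H] {d : ℕ} (hP : P H d) {x : Fin d → H} (hx : Gen x) (i : Fin d)
    {c : H} (hc : c ∈ commutator H) : ∃ g : H, ⁅g, x i⁆ = c := by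
  obtain ⟨α, hα, h1⟩ := hP _ hx (fun _ => c) fun _ => hc
  have h2 := hα (x i)
  rw [h1 i] at h2
  obtain ⟨g, hg⟩ := isConj_iff.1 h2
  rw [conj_eq] at hg
  exact ⟨g, mul_right_cancel hg⟩

theorem gen_small {H : Type} [Group H] {d : ℕ} (hd : d ≤ 1) {x : Fin d → H} (hx : Gen x) :
    commutator H = ⊥ := by
  have h0 : ∀ i j : Fin d, i = j := fun i j => by
    apply Fin.ext; omega
  have h1 : closure (Set.range x) ≤ centralizer (Set.range x) := by
    rw [closure_le]
    rintro _ ⟨i, rfl⟩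
    rw [SetLike.mem_coe, mem_centralizer_iff]
    rintro _ ⟨j, rfl⟩
    rw [h0 i j]
  rw [show closure (Set.range x) = ⊤ from hx] at h1
  have h2 : closure (Set.range x) ≤ center H := by
    rw [closure_le]
    rintro _ ⟨i, rfl⟩
    rw [SetLike.mem_coe, mem_center_iff]
    intro g
    exact ((mem_centralizer_iff.1 (h1 (mem_top g))) _ ⟨i, rfl⟩).symm
  rw [show closure (Set.range x) = ⊤ from hx] at h2
  rw [commutator_def, eq_bot_iff, commutator_le]
  intro a _ b _
  rw [mem_bot, commutatorElement_eq_one_iff_mul_comm]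
  exact (mem_center_iff.1 (h2 (mem_top b)) a)

section

variable {H : Type} [Group H] [Finite H] {p : ℕ} [Fact p.Prime]

/-- an element outside of the Frattini subgroup which centralises `γ₂` -/
theorem exists_w {d : ℕ} (hH : IsPGroup p H) (hP : P H d) (hM : Min H d) (hd : 2 ≤ d)
    {t : H} (ht : orderOf t = p) (hc : t ∈ center H) (hg : g3 H = zpowers t)
    {x : Fin d → H} (hx : Gen x) :
    ∃ w : H, w ∉ frattini H ∧ ∀ v ∈ commutator H, v * w = w * v := by
  classical
  have hp : p.Prime := Fact.out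
  have hcard : Nat.card (zpowers t) = p := by rw [Nat.card_zpowers, ht]
  let e : zpowers t ≃* Multiplicative (ZMod p) :=
    mulEquivOfPrimeCardEq (p := p) hcard (by simp)
  let L : H → ZMod p := fun a => if h : a ∈ zpowers t then (e ⟨a, h⟩).toAdd else 0
  have hL : ∀ a (h : a ∈ zpowers t), L a = (e ⟨a, h⟩).toAdd := fun a h => dif_pos h
  have hLmul : ∀ a ∈ zpowers t, ∀ b ∈ zpowers t, L (a * b) = L a + L b := by
    intro a ha b hb
    rw [hL a ha, hL b hb, hL _ (mul_mem ha hb), ← toAdd_mul, ← map_mul]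
    rfl
  have hL0 : ∀ a ∈ zpowers t, L a = 0 → a = 1 := by
    intro a ha h
    rw [hL a ha] at h
    have h1 : e ⟨a, ha⟩ = 1 := h
    have h2 := (map_eq_one_iff _ e.injective).1 h1
    exact congrArg Subtype.val h2
  have hL1 : L 1 = 0 := by
    have := hLmul 1 (one_mem _) 1 (one_mem _)
    rw [mul_one] at this
    simpa using this
  have hz : ∀ a ∈ zpowers t, a ∈ center H := by
    intro a ha
    exact (zpowers_le.2 hc) ha
  have hcom : ∀ v ∈ commutator H, ∀ g : H, ⁅g, v⁆ ∈ zpowers t := by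
    intro v hv g
    rw [← hg]
    exact comm_mem' hv
  have hcen : ∀ v ∈ commutator H, ∀ g : H, ⁅g, v⁆ ∈ center H := fun v hv g => hz _ (hcom v hv g)
  let E : (v : H) → v ∈ commutator H → (H →* Multiplicative (ZMod p)) := fun v hv =>
    MonoidHom.mk' (fun g => Multiplicative.ofAdd (L ⁅g, v⁆)) (by
      intro a b
      rw [← ofAdd_add, ← hLmul _ (hcom v hv a) _ (hcom v hv b)]
      congr 2
      have h1 : ⁅a * b, v⁆ = a * ⁅b, v⁆ * a⁻¹ * ⁅a, v⁆ := by
        simp only [commutatorElement_def]; group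
      have h2 : a * ⁅b, v⁆ = ⁅b, v⁆ * a := mem_center_iff.1 (hcen v hv b) a
      have h3 : ⁅a, v⁆ * ⁅b, v⁆ = ⁅b, v⁆ * ⁅a, v⁆ := (mem_center_iff.1 (hcen v hv b) _)
      rw [h1, h2, h3]; group)
  have hE : ∀ v hv g, E v hv g = Multiplicative.ofAdd (L ⁅g, v⁆) := fun v hv g => rfl
  have h0d : 0 < d := by omega
  let i0 : Fin d := ⟨0, h0d⟩
  let M : Matrix (Fin d) (Fin d) (ZMod p) := Matrix.of fun i j => L ⁅x j, ⁅x i0, x i⁆⁆
  have hdet : M.det = 0 := by
    apply Matrix.det_eq_zero_of_row_eq_zero i0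
    intro j
    show L ⁅x j, ⁅x i0, x i0⁆⁆ = 0
    rw [commutatorElement_self, commutatorElement_one_right, hL1]
  obtain ⟨n, hn0, hn⟩ := Matrix.exists_mulVec_eq_zero_iff.2 hdet
  set w : H := (List.ofFn fun j => x j ^ (n j).val).prod with hw
  have hhom : ∀ χ : H →* Multiplicative (ZMod p), (χ w).toAdd = ∑ j, n j * (χ (x j)).toAdd := by
    intro χ
    rw [hw, map_list_prod, List.map_ofFn, List.prod_ofFn, toAdd_prod]
    apply Finset.sum_congr rfl
    intro j _
    simp only [Function.comp_apply, map_pow, toAdd_pow, nsmul_eq_mul, ZMod.natCast_val,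
      ZMod.cast_id', id_eq]
  refine ⟨w, ?_, ?_⟩
  · intro hwΦ
    obtain ⟨j, hj⟩ := Function.ne_iff.1 hn0
    obtain ⟨χ, h1, h2, h3⟩ := exists_dual hH hM hx j
    have h4 := hhom χ
    rw [h1 w hwΦ, Finset.sum_eq_single j] at h4
    · have h5 : n j * (χ (x j)).toAdd = 0 := h4.symm
      rcases mul_eq_zero.1 h5 with h6 | h6
      · exact hj h6
      · exact h3 h6
    · intro i _ hi
      rw [h2 i hi]
      simp
    · intro h; exact absurd (Finset.mem_univ _) h
  · have hwx : ∀ i, ⁅w, ⁅x i0, x i⁆⁆ = 1 := by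
      intro i
      have hv := comm_mem (x i0) (x i)
      apply hL0 _ (hcom _ hv w)
      have h1 := hhom (E _ hv)
      rw [hE _ hv] at h1
      have h2 : L ⁅w, ⁅x i0, x i⁆⁆ = ∑ j, n j * L ⁅x j, ⁅x i0, x i⁆⁆ := h1
      rw [h2]
      have h3 := congrFun hn i
      simp only [Matrix.mulVec, dotProduct, Pi.zero_apply] at h3
      rw [← h3]
      apply Finset.sum_congr rfl
      intro j _
      rw [mul_comm]
      rfl
    intro v hv
    obtain ⟨g, hg1⟩ := conj_gen hP hx i0 (inv_mem hv)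
    have h1 := commute_all (a := x i0) (w := w) hx hcen (by
      rintro _ ⟨i, rfl⟩
      exact (commutatorElement_eq_one_iff_mul_comm.1 (hwx i)).symm) g
    have h2 : ⁅x i0, g⁆ = v := by
      rw [← commutatorElement_inv, hg1, inv_inv]
    rwa [h2] at h1

/-- the case of a central `γ₃` of order `p` -/
theorem step2_core {d : ℕ} (hH : IsPGroup p H) (hP : P H d) (hM : Min H d) (hd : 3 ≤ d)
    {t : H} (ht : orderOf t = p) (hc : t ∈ center H) (hg : g3 H = zpowers t)
    {x : Fin d → H} (hx : Gen x) : False := by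
  classical
  obtain ⟨w, hwΦ, hw⟩ := exists_w hH hP hM (by omega) ht hc hg hx
  have hp : p.Prime := Fact.out
  have hz : ∀ a ∈ zpowers t, a ∈ center H := by
    intro a ha
    exact (zpowers_le.2 hc) ha
  have hcen : ∀ v ∈ commutator H, ∀ g : H, ⁅g, v⁆ ∈ center H := fun v hv g =>
    hz _ (by rw [← hg]; exact comm_mem' hv)
  have hab : ∀ v ∈ commutator H, ∀ v' ∈ commutator H, v' * v = v * v' := fun v hv v' hv' =>
    commutatorElement_eq_one_iff_mul_comm.1 (comm_hom_of_central (hcen v hv) v' hv')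
  obtain ⟨j0, hj0⟩ := exchange hH hx hwΦ
  set y := Function.update x j0 w with hy
  have hyj : y j0 = w := Function.update_self _ _ _
  -- a noncentral element of `γ₂`
  have hex : ∃ v ∈ commutator H, ∃ g : H, ⁅g, v⁆ ≠ 1 := by
    by_contra hcon
    push Not at hcon
    have h1 : g3 H = ⊥ := by
      rw [eq_bot_iff, commutator_le]
      intro v hv g _
      rw [mem_bot, ← commutatorElement_inv, hcon v hv g, inv_one]
    rw [hg, zpowers_eq_bot] at h1
    rw [h1, orderOf_one] at ht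
    exact hp.one_lt.ne ht
  obtain ⟨v, hv, g, hgv⟩ := hex
  have hi1 : ∃ i1, ⁅y i1, v⁆ ≠ 1 := by
    by_contra hcon
    push Not at hcon
    apply hgv
    have h1 : closure (Set.range y) ≤ centralizer {v} := by
      rw [closure_le]
      rintro _ ⟨i, rfl⟩
      rw [SetLike.mem_coe, mem_centralizer_singleton_iff]
      exact commutatorElement_eq_one_iff_mul_comm.1 (hcon i)
    have h2 := h1 (hj0 ▸ mem_top g : g ∈ closure (Set.range y))
    exact commutatorElement_eq_one_iff_mul_comm.2 (mem_centralizer_singleton_iff.1 h2)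
  obtain ⟨i1, hi1⟩ := hi1
  have hij : i1 ≠ j0 := by
    intro h
    rw [h, hyj] at hi1
    exact hi1 (commutatorElement_eq_one_iff_mul_comm.2 (hw v hv).symm)
  obtain ⟨k, hk1, hk2⟩ : ∃ k : Fin d, k ≠ j0 ∧ k ≠ i1 := by
    have h1 : ({j0, i1} : Finset (Fin d)).card < Fintype.card (Fin d) := by
      rw [Fintype.card_fin]
      exact lt_of_le_of_lt (Finset.card_le_two) (by omega)
    obtain ⟨k, hk⟩ := Finset.exists_mem_notMem_of_card_lt_card
      (s := ({j0, i1} : Finset (Fin d))) (t := Finset.univ) (by rw [Finset.card_univ]; exact h1)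
    simp only [Finset.mem_univ, Finset.mem_insert, Finset.mem_singleton, not_or, true_and] at hk
    exact ⟨k, hk.1, hk.2⟩
  obtain ⟨α, hα, h1⟩ := hP y hj0 (Function.update 1 k v) (by
    intro i
    by_cases h : i = k
    · rw [h, Function.update_self]; exact hv
    · rw [Function.update_of_ne h]; exact one_mem _)
  have hαy : ∀ i, i ≠ k → α (y i) = y i := by
    intro i hi
    rw [h1 i, Function.update_of_ne hi, Pi.one_apply, one_mul]
  have hαk : α (y k) = v * y k := by rw [h1 k, Function.update_self]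
  have hαw : α w = w := by rw [← hyj]; exact hαy j0 (Ne.symm hk1)
  have hfix : ∀ v' ∈ commutator H, α v' = v' := by
    intro v' hv'
    obtain ⟨g, hg1⟩ := conj_all hH hP hx hwΦ hv'
    have h2 := congrArg α hg1
    rw [map_mul, map_mul, map_inv, map_mul, hαw] at h2
    have hc' : α g * g⁻¹ ∈ commutator H := comm_of_conj (hα g)
    set c := α g * g⁻¹ with hcdef
    have h3 : α g = c * g := by rw [hcdef]; group
    have h4 : α v' * w = v' * w := by
      rw [← h2, h3]
      calc c * g * w * (c * g)⁻¹ = c * (g * w * g⁻¹) * c⁻¹ := by group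
        _ = (c * v') * w * c⁻¹ := by rw [hg1]; group
        _ = v' * (c * w) * c⁻¹ := by rw [hab v' hv' c hc']; group
        _ = v' * w := by rw [hw c hc']; group
    exact mul_right_cancel h4
  have h2 := hfix _ (comm_mem (y i1) (y k))
  rw [map_commutatorElement, hαy i1 (Ne.symm hk2), hαk] at h2
  have h3 : ⁅y i1, v * y k⁆ = ⁅y i1, v⁆ * (v * ⁅y i1, y k⁆ * v⁻¹) := by
    simp only [commutatorElement_def]; group
  rw [h3, hab _ (comm_mem _ _) v hv] at h2
  have h4 : ⁅y i1, v⁆ * ⁅y i1, y k⁆ = ⁅y i1, y k⁆ := by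
    calc ⁅y i1, v⁆ * ⁅y i1, y k⁆ = ⁅y i1, v⁆ * (⁅y i1, y k⁆ * v * v⁻¹) := by group
      _ = ⁅y i1, y k⁆ := h2
  exact hi1 (mul_eq_right.1 h4)

end

theorem step2 {G : Type} [Group G] [Finite G] {p : ℕ} [Fact p.Prime] (hG : IsPGroup p G) {d : ℕ}
    (hP : P G d) (hM : Min G d) {x : Fin d → G} (hx : Gen x) (h3 : g3 G ≠ ⊥) : d = 2 := by
  have hnil : Group.IsNilpotent G := hG.isNilpotent
  by_contra hd2
  by_cases hd : d ≤ 1
  · apply h3
    rw [eq_bot_iff]
    exact g3_le.trans (gen_small hd hx).le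
  have hd3 : 3 ≤ d := by omega
  have hlt : g4 G < g3 G := lt_of_le_of_ne g4_le fun h => h3 (nil_bot h.ge)
  obtain ⟨N, hN, h4N, hN3, t, ht3, htN, htp, hle⟩ := exists_N hG (A := g4 G) (B := g3 G) le_rfl hlt
  have hNc : N ≤ commutator G := hN3.trans g3_le
  have hord : orderOf (QuotientGroup.mk' N t) = p := by
    apply orderOf_eq_prime
    · rw [← map_pow]; exact (QuotientGroup.eq_one_iff _).2 htp
    · intro h; exact htN ((QuotientGroup.eq_one_iff _).1 h)
  have hQ : IsPGroup p (G ⧸ N) := hG.to_quotient N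
  have hgx : Gen (fun i => QuotientGroup.mk' N (x i)) := by
    have h1 : Set.range (fun i => QuotientGroup.mk' N (x i)) = QuotientGroup.mk' N '' Set.range x :=
      Set.range_comp _ _
    rw [Gen, h1, ← MonoidHom.map_closure, show closure (Set.range x) = ⊤ from hx, map_top_mk]
  exact step2_core hQ (P_quot hG hP N hNc) (Min_quot hG hM N hNc) hd3 hord
    (mk_central h4N ht3) (by rw [← map_g3, map_eq_zpowers ht3 hle]) hgx

end Pool.Agent.Q89.AC
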