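import Pool.Agent.Q89.AC2

/-! Two generators: `γ₂` is cyclic for odd `p`. -/

set_option autoImplicit false

namespace Pool.Agent.Q89.AC

open Subgroup
open scoped commutatorElement

section gen

variable {G : Type} [Group G]

/-- two generators -/
def Gen2 (x y : G) : Prop := closure {x, y} = ⊤

theorem P.two (hP : P G 2) {x y : G} (h : Gen2 x y) {c₁ c₂ : G} (h1 : c₁ ∈ commutator G)
    (h2 : c₂ ∈ commutator G) : ∃ α : MulAut G, CP α ∧ α x = c₁ * x ∧ α y = c₂ * y := by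
  have hr : Set.range ![x, y] = {x, y} := by
    simp [Matrix.range_cons]
    exact Set.pair_comm y x
  obtain ⟨α, hα, h3⟩ := hP ![x, y] (by rw [Gen, hr]; exact h) ![c₁, c₂] (by
    intro i; fin_cases i <;> simp [h1, h2])
  exact ⟨α, hα, h3 0, h3 1⟩

theorem P.conj (hP : P G 2) {x y : G} (h : Gen2 x y) {c : G} (hc : c ∈ commutator G) :
    ∃ g, g * x * g⁻¹ = c * x := by
  obtain ⟨α, hα, h1, -⟩ := hP.two h hc (one_mem _)
  have h2 := hα x
  rw [h1] at h2
  exact isConj_iff.1 h2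

theorem mk_comm_iff {D : Subgroup G} [D.Normal] (a b : G) :
    QuotientGroup.mk' D a * QuotientGroup.mk' D b = QuotientGroup.mk' D b * QuotientGroup.mk' D a ↔
      ⁅a, b⁆ ∈ D := by
  rw [← commutatorElement_eq_one_iff_mul_comm, ← map_commutatorElement]
  exact QuotientGroup.eq_one_iff _

/-- an element which commutes with the generators modulo `D` -/
theorem comm_all_mod {s : Set G} (hs : closure s = ⊤) {D : Subgroup G} [D.Normal] {b : G}
    (h : ∀ a ∈ s, ⁅a, b⁆ ∈ D) (g : G) : ⁅g, b⁆ ∈ D := by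
  have h1 : closure s ≤ (centralizer {QuotientGroup.mk' D b}).comap (QuotientGroup.mk' D) := by
    rw [closure_le]
    intro a ha
    rw [SetLike.mem_coe, mem_comap, mem_centralizer_singleton_iff, mk_comm_iff]
    exact h a ha
  have h2 := h1 (hs ▸ mem_top g)
  rw [mem_comap, mem_centralizer_singleton_iff, mk_comm_iff] at h2
  exact h2

theorem comm_inv_mem {D : Subgroup G} {a b : G} (h : ⁅a, b⁆ ∈ D) : ⁅b, a⁆ ∈ D := by
  rw [← commutatorElement_inv]; exact inv_mem h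

theorem comm_le_of_gens {s : Set G} (hs : closure s = ⊤) {D : Subgroup G} [D.Normal]
    (h : ∀ a ∈ s, ∀ b ∈ s, ⁅a, b⁆ ∈ D) : commutator G ≤ D := by
  rw [commutator_def, commutator_le]
  intro a _ b _
  apply comm_inv_mem
  apply comm_all_mod hs
  intro c hc
  apply comm_inv_mem
  exact comm_all_mod hs (fun e he => h e he c hc) a

theorem gam_le {x y : G} (h : Gen2 x y) : commutator G ≤ zpowers ⁅y, x⁆ ⊔ g3 G := by
  have hn : (zpowers ⁅y, x⁆ ⊔ g3 G).Normal := by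
    apply normal_between (A := g3 G) (B := commutator G) le_rfl le_sup_right
    exact sup_le (by rw [zpowers_le]; exact comm_mem y x) g3_le
  apply comm_le_of_gens h
  have h1 : ⁅y, x⁆ ∈ zpowers ⁅y, x⁆ ⊔ g3 G := mem_sup_left (mem_zpowers _)
  rintro a (rfl | rfl) b (rfl | rfl)
  · rw [commutatorElement_self]; exact one_mem _
  · exact comm_inv_mem h1
  · exact h1
  · rw [commutatorElement_self]; exact one_mem _

theorem g3_le_of {x y : G} (h : Gen2 x y) {D : Subgroup G} [D.Normal] (h4 : g4 G ≤ D)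
    (h1 : ⁅x, ⁅y, x⁆⁆ ∈ D) (h2 : ⁅y, ⁅y, x⁆⁆ ∈ D) : g3 G ≤ D := by
  rw [commutator_le]
  intro v hv g _
  obtain ⟨a, ha, c, hc, hac⟩ := mem_sup_of_normal_right.1 (gam_le h hv)
  obtain ⟨k, rfl⟩ := mem_zpowers_iff.1 ha
  have hz : QuotientGroup.mk' D ⁅y, x⁆ ∈ center (G ⧸ D) := by
    rw [mem_center_iff]
    intro g
    obtain ⟨g, rfl⟩ := QuotientGroup.mk'_surjective D g
    rw [mk_comm_iff]
    apply comm_all_mod h
    rintro a (rfl | rfl)
    · exact h1
    · exact h2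
  have hc' : QuotientGroup.mk' D c ∈ center (G ⧸ D) := mk_central h4 hc
  have hv' : QuotientGroup.mk' D v ∈ center (G ⧸ D) := by
    rw [← hac, map_mul, map_zpow]
    exact mul_mem (zpow_mem hz k) hc'
  apply comm_inv_mem
  rw [← mk_comm_iff]
  exact mem_center_iff.1 hv' _

theorem mem_of_mk {N K : Subgroup G} [N.Normal] (hNK : N ≤ K) {g : G}
    (h : QuotientGroup.mk' N g ∈ K.map (QuotientGroup.mk' N)) : g ∈ K := by
  have h1 : g ∈ (K.map (QuotientGroup.mk' N)).comap (QuotientGroup.mk' N) := h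
  rwa [Subgroup.comap_map_eq, QuotientGroup.ker_mk', sup_eq_left.2 hNK] at h1

theorem mk_eq_one {N : Subgroup G} [N.Normal] {g : G} : QuotientGroup.mk' N g = 1 ↔ g ∈ N :=
  QuotientGroup.eq_one_iff g

/-- powers prime to `p` -/
theorem mem_of_pow' {p : ℕ} [Fact p.Prime] (hG : IsPGroup p G) {E : Subgroup G} {x : G} {n : ℤ}
    (h1 : x ^ n ∈ E) (h3 : ¬ (p : ℤ) ∣ n) : x ∈ E := by
  have hp : p.Prime := Fact.out
  obtain ⟨m, hm⟩ := hG x
  have h4 : IsCoprime (p : ℤ) n := by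
    rw [Int.isCoprime_iff_gcd_eq_one]
    have h5 : Nat.Coprime p n.natAbs := (Nat.Prime.coprime_iff_not_dvd hp).2 (by
      rwa [← Int.natCast_dvd])
    simpa [Int.gcd] using h5
  obtain ⟨a, b, hab⟩ := h4.pow_left (m := m)
  have h5 : x = (x ^ ((p : ℤ) ^ m)) ^ a * (x ^ n) ^ b := by
    rw [← zpow_mul, ← zpow_mul, ← zpow_add]
    have : (p : ℤ) ^ m * a + n * b = 1 := by rw [← hab]; ring
    rw [this, zpow_one]
  have h6 : x ^ ((p : ℤ) ^ m) = 1 := by
    rw [← Int.natCast_pow, zpow_natCast, hm]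
  rw [h5, h6, one_zpow, one_mul]
  exact E.zpow_mem h1 _

/-- the group of order `p` is generated by each of its nontrivial elements -/
theorem zp_gen {p : ℕ} [Fact p.Prime] {t s : G} (ht : orderOf t = p) (hs : s ∈ zpowers t)
    (h1 : s ≠ 1) : zpowers s = zpowers t ∧ orderOf s = p := by
  have hp : p.Prime := Fact.out
  obtain ⟨k, rfl⟩ := mem_zpowers_iff.1 hs
  have htp : t ^ p = 1 := by rw [← ht]; exact pow_orderOf_eq_one t
  have hpk : ¬ (p : ℤ) ∣ k := by
    rintro ⟨q, rfl⟩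
    apply h1
    rw [zpow_mul, zpow_natCast, htp, one_zpow]
  refine ⟨le_antisymm ?_ ?_, ?_⟩
  · rw [zpowers_le]; exact hs
  · rw [zpowers_le]
    exact mem_of_pow (p := p) (mem_zpowers _) (by rw [htp]; exact one_mem _) hpk
  · apply orderOf_eq_prime _ h1
    rw [← zpow_natCast, ← zpow_mul, mul_comm, zpow_mul, zpow_natCast, htp, one_zpow]

end gen

section core

variable {H : Type} [Group H] {p : ℕ} [Fact p.Prime]


theorem inv_mul_cancel_right_of (a y : H) (n : ℤ) : a * y ^ (-n) * y ^ n = a := by group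

/-- the generators can be chosen such that `x` centralises `γ₂` -/
theorem adapted {t : H} (ht : orderOf t = p) (hc : t ∈ center H) (hg : g3 H = zpowers t)
    {x₀ y₀ : H} (h0 : Gen2 x₀ y₀) :
    ∃ x y : H, Gen2 x y ∧ ⁅x, ⁅y, x⁆⁆ = 1 ∧ ⁅y, ⁅y, x⁆⁆ ≠ 1 := by
  have hp : p.Prime := Fact.out
  have hz : ∀ a ∈ zpowers t, a ∈ center H := fun a ha => (zpowers_le.2 hc) ha
  have hcom : ∀ v ∈ commutator H, ∀ g : H, ⁅g, v⁆ ∈ zpowers t := by
    intro v hv g
    rw [← hg]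
    exact comm_mem' hv
  have hmul : ∀ v ∈ commutator H, ∀ a b : H, ⁅a * b, v⁆ = ⁅a, v⁆ * ⁅b, v⁆ := by
    intro v hv a b
    have h1 : ⁅a * b, v⁆ = a * ⁅b, v⁆ * a⁻¹ * ⁅a, v⁆ := by
      simp only [commutatorElement_def]; group
    have h2 : a * ⁅b, v⁆ = ⁅b, v⁆ * a := mem_center_iff.1 (hz _ (hcom v hv b)) a
    have h3 : ⁅a, v⁆ * ⁅b, v⁆ = ⁅b, v⁆ * ⁅a, v⁆ := (mem_center_iff.1 (hz _ (hcom v hv b)) _)
    rw [h1, h2, h3]; group
  -- the case in which `y` does not centralise `γ₂`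
  have key : ∀ x y : H, Gen2 x y → ⁅y, ⁅y, x⁆⁆ ≠ 1 →
      ∃ x y : H, Gen2 x y ∧ ⁅x, ⁅y, x⁆⁆ = 1 ∧ ⁅y, ⁅y, x⁆⁆ ≠ 1 := by
    intro x y h hy
    set z := ⁅y, x⁆ with hzdef
    have hzm : z ∈ commutator H := comm_mem y x
    obtain ⟨h1, h2⟩ := zp_gen ht (hcom z hzm y) hy
    obtain ⟨n, hn⟩ := mem_zpowers_iff.1 (h1 ▸ hcom z hzm x : ⁅x, z⁆ ∈ zpowers ⁅y, z⁆)
    let E : H →* H := MonoidHom.mk' (fun g => ⁅g, z⁆) (hmul z hzm)
    have hE : ∀ g, E g = ⁅g, z⁆ := fun g => rfl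
    refine ⟨x * y ^ (-n), y, ?_, ?_, ?_⟩
    · rw [Gen2, ← top_le_iff, ← (h : closure {x, y} = ⊤), closure_le]
      have hy' : y ∈ closure ({x * y ^ (-n), y} : Set H) := subset_closure (by simp)
      have hx' : x * y ^ (-n) ∈ closure ({x * y ^ (-n), y} : Set H) := subset_closure (by simp)
      rintro a (rfl | rfl)
      · have h5 := mul_mem hx' (zpow_mem hy' n)
        rwa [inv_mul_cancel_right_of a y n] at h5
      · exact hy'
    · have h3 : ⁅y, x * y ^ (-n)⁆ = z := by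
        rw [hzdef]; simp only [commutatorElement_def]; group
      rw [h3, ← hE, map_mul, map_zpow, hE, hE, ← hn, ← zpow_add, add_neg_cancel, zpow_zero]
    · have h3 : ⁅y, x * y ^ (-n)⁆ = z := by
        rw [hzdef]; simp only [commutatorElement_def]; group
      rw [h3]; exact hy
  by_cases hy : ⁅y₀, ⁅y₀, x₀⁆⁆ = 1
  · have h0' : Gen2 y₀ x₀ := by rw [Gen2, Set.pair_comm]; exact h0
    apply key y₀ x₀ h0'
    intro hx
    have hx1 : ⁅x₀, ⁅y₀, x₀⁆⁆ = 1 := by
      rw [commutatorElement_eq_one_iff_mul_comm] at hx ⊢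
      rw [← commutatorElement_inv] at hx
      have h1 : Commute x₀ (⁅y₀, x₀⁆)⁻¹ := hx
      exact (Commute.inv_right_iff.1 h1)
    have hc3 : g3 H ≤ ⊥ := by
      rw [commutator_le]
      intro v hv g _
      have hh := comm_mem y₀ x₀
      -- `z` is central, so is `v`
      have hzc : ∀ g : H, ⁅g, ⁅y₀, x₀⁆⁆ = 1 := by
        intro g
        have := comm_all_mod (D := (⊥ : Subgroup H)) h0 (b := ⁅y₀, x₀⁆) (by
          rintro a (rfl | rfl)
          · rw [hx1]; exact one_mem _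
          · rw [hy]; exact one_mem _) g
        exact mem_bot.1 this
      obtain ⟨a, ha, c, hc', hac⟩ := mem_sup_of_normal_right.1 (gam_le h0 hv)
      have ha' : a ∈ center H := by
        have : ⁅y₀, x₀⁆ ∈ center H := mem_center_iff.2 fun g =>
          commutatorElement_eq_one_iff_mul_comm.1 (hzc g)
        exact (zpowers_le.2 this) ha
      have hc'' : c ∈ center H := hz c (hg ▸ hc')
      have hv' : v ∈ center H := hac ▸ mul_mem ha' hc''
      rw [mem_bot, commutatorElement_eq_one_iff_mul_comm]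
      exact (mem_center_iff.1 hv' g).symm
    rw [hg, le_bot_iff, zpowers_eq_bot] at hc3
    rw [hc3, orderOf_one] at ht
    exact hp.one_lt.ne ht
  · exact key x₀ y₀ h0 hy

/-- the conjugates of `x` -/
theorem conj_form [Finite H] (hP : P H 2) {x y : H} (h : Gen2 x y) (hx : ⁅x, ⁅y, x⁆⁆ = 1)
    (hyc : ⁅y, ⁅y, x⁆⁆ ∈ center H) :
    ∃ j : ℕ, ⁅y, ⁅y, x⁆⁆ = ⁅y, ⁅y, x⁆⁆ ^ (j.choose 2) * ⁅y, x⁆ ^ j := by
  set z := ⁅y, x⁆ with hz
  set t := ⁅y, z⁆ with ht
  have hct : ∀ g, g * t = t * g := fun g => mem_center_iff.1 hyc g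
  have hxz : x * z = z * x := commutatorElement_eq_one_iff_mul_comm.1 hx
  have hyz : y * z * y⁻¹ = t * z := conj_eq y z
  have hyx : y * x * y⁻¹ = z * x := conj_eq y x
  let T : Set H := {a | ∃ j : ℕ, a = t ^ (j.choose 2) * z ^ j * x}
  have hT : ∀ g ∈ ({x, y} : Set H), ∀ a ∈ T, g * a * g⁻¹ ∈ T := by
    rintro g (rfl | rfl) a ⟨j, rfl⟩
    · refine ⟨j, ?_⟩
      have h1 : Commute g (t ^ (j.choose 2)) := Commute.pow_right (hct g) _
      have h2 : Commute g (z ^ j) := Commute.pow_right hxz _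
      have h3 : g * (t ^ (j.choose 2) * z ^ j * g) = t ^ (j.choose 2) * z ^ j * g * g :=
        ((h1.mul_right h2).mul_right (Commute.refl g))
      rw [h3]; group
    · refine ⟨j + 1, ?_⟩
      have h1 : g * t ^ (j.choose 2) * g⁻¹ = t ^ (j.choose 2) := by
        rw [(Commute.pow_right (hct g) (j.choose 2) : Commute g _).eq]; group
      have h2 : g * z ^ j * g⁻¹ = t ^ j * z ^ j := by
        rw [← conj_pow, hyz]
        exact Commute.mul_pow (hct z).symm j
      have h3 : g * (t ^ (j.choose 2) * z ^ j * x) * g⁻¹ =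
          (g * t ^ (j.choose 2) * g⁻¹) * (g * z ^ j * g⁻¹) * (g * x * g⁻¹) := by group
      rw [h3, h1, h2, hyx]
      have h4 : (j + 1).choose 2 = j.choose 2 + j := by
        rw [Nat.choose_succ_succ' j 1, Nat.choose_one_right]; ring
      rw [h4, pow_add, pow_succ z j]
      group
  obtain ⟨g, hg⟩ := hP.conj h (comm_mem y z)
  have h1 := conj_set h hT g x ⟨0, by simp⟩
  rw [hg] at h1
  obtain ⟨j, hj⟩ := h1
  exact ⟨j, mul_right_cancel hj⟩

end core

end Pool.Agent.Q89.AC
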