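import Pool.Agent.Q89.AC3

/-! Two generators: the first claims. -/

set_option autoImplicit false

namespace Pool.Agent.Q89.AC

open Subgroup
open scoped commutatorElement

theorem tri (j : ℕ) : j.choose 2 * 2 + j = j * j := by
  induction j with
  | zero => rfl
  | succ j ih =>
    have h : (j + 1).choose 2 = j.choose 2 + j := by
      rw [Nat.choose_succ_succ' j 1, Nat.choose_one_right]; ring
    rw [h]; nlinarith

theorem gen2_map {G : Type} [Group G] (N : Subgroup G) [N.Normal] {x y : G} (h : Gen2 x y) :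
    Gen2 (QuotientGroup.mk' N x) (QuotientGroup.mk' N y) := by
  have h1 : ({QuotientGroup.mk' N x, QuotientGroup.mk' N y} : Set (G ⧸ N)) =
      QuotientGroup.mk' N '' {x, y} := by
    rw [Set.image_pair]
  rw [Gen2, h1, ← MonoidHom.map_closure, show closure {x, y} = ⊤ from h, map_top_mk]

theorem gam_bot {H : Type} [Group H] [Group.IsNilpotent H] (h : commutator H ≤ g3 H) :
    commutator H = ⊥ := nil_bot h

section claims

variable {G : Type} [Group G] [Finite G]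

theorem claim1 {p : ℕ} [Fact p.Prime] (hG : IsPGroup p G) (hP : P G 2) {x₀ y₀ : G}
    (h0 : Gen2 x₀ y₀) (hcyc : ¬ IsCyclic (commutator G)) :
    p = 2 ∧ ∀ v ∈ commutator G, v ^ 2 ∈ g3 G := by
  have hp : p.Prime := Fact.out
  have hnil : Group.IsNilpotent G := hG.isNilpotent
  have hΓ : IsPGroup p (commutator G) := hG.to_subgroup _
  let W : Subgroup G := (frattini (commutator G)).map (commutator G).subtype
  have hWn : W.Normal := ConjAct.normal_of_characteristic_of_normal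
  have hWpow : ∀ v ∈ commutator G, v ^ p ∈ W := fun v hv =>
    ⟨(⟨v, hv⟩ : commutator G) ^ p, pow_mem_frattini hΓ _, rfl⟩
  have hWc : ∀ z ∈ commutator G, ¬ (commutator G ≤ zpowers z ⊔ W) := by
    intro z hz hle
    apply hcyc
    have h1 : zpowers (⟨z, hz⟩ : commutator G) ⊔ frattini (commutator G) = ⊤ := by
      rw [eq_top_iff]
      intro v _
      obtain ⟨a, ha, b, hb, hab⟩ := mem_sup_of_normal_right.1 (hle v.2)
      obtain ⟨k, rfl⟩ := mem_zpowers_iff.1 ha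
      obtain ⟨b', hb', rfl⟩ := hb
      have h2 : v = (⟨z, hz⟩ : commutator G) ^ k * b' := by
        apply Subtype.ext
        rw [← hab]; rfl
      rw [h2]
      exact mul_mem (mem_sup_left (zpow_mem (mem_zpowers _) k)) (mem_sup_right hb')
    have h2 := frattini_nongenerating h1
    exact isCyclic_iff_exists_zpowers_eq_top.2 ⟨_, h2⟩
  have h3W : ¬ g3 G ≤ W := fun h =>
    hWc _ (comm_mem y₀ x₀) ((gam_le h0).trans (sup_le_sup_left h _))
  have hlt : g4 G ⊔ (W ⊓ g3 G) < g3 G := by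
    refine lt_of_le_of_ne (sup_le g4_le inf_le_right) fun h => h3W ?_
    have h1 : g3 G ≤ W ⊓ g3 G := nil_le (B := g3 G) (N := W ⊓ g3 G) h.ge
    exact h1.trans inf_le_left
  obtain ⟨N, hN, hAN, hN3, t, ht3, htN, htp, hle⟩ := exists_N hG (B := g3 G)
    (le_sup_left : g4 G ≤ g4 G ⊔ (W ⊓ g3 G)) hlt
  have h4N : g4 G ≤ N := le_sup_left.trans hAN
  have hWN : ∀ v ∈ W, v ∈ g3 G → v ∈ N := fun v h1 h2 => hAN (mem_sup_right ⟨h1, h2⟩)
  have hNc : N ≤ commutator G := hN3.trans g3_le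
  have hQ : IsPGroup p (G ⧸ N) := hG.to_quotient N
  have hnilQ : Group.IsNilpotent (G ⧸ N) := hQ.isNilpotent
  have hPQ : P (G ⧸ N) 2 := P_quot hG hP N hNc
  set π := QuotientGroup.mk' N with hπ
  have hord : orderOf (π t) = p := by
    apply orderOf_eq_prime
    · rw [← map_pow]; exact mk_eq_one.2 htp
    · intro h; exact htN (mk_eq_one.1 h)
  have hcen : π t ∈ center (G ⧸ N) := mk_central h4N ht3
  have hg3 : g3 (G ⧸ N) = zpowers (π t) := by rw [← map_g3, map_eq_zpowers ht3 hle]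
  obtain ⟨X, Y, hXY, h1, h2⟩ := adapted hord hcen hg3 (gen2_map N h0)
  have hZm := comm_mem Y X
  have hTm : ⁅Y, ⁅Y, X⁆⁆ ∈ g3 (G ⧸ N) := comm_mem' hZm
  obtain ⟨h3, h4⟩ := zp_gen hord (hg3 ▸ hTm) h2
  have hTc : ⁅Y, ⁅Y, X⁆⁆ ∈ center (G ⧸ N) := by
    have := hg3 ▸ hTm
    exact (zpowers_le.2 hcen) this
  obtain ⟨j, hj⟩ := conj_form hPQ hXY h1 hTc
  have hgam := gam_le hXY
  set Z := ⁅Y, X⁆ with hZ
  set T := ⁅Y, Z⁆ with hT
  have star : ∀ k : ℤ, Z ^ k ∈ g3 (G ⧸ N) → Z ^ k = 1 := by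
    intro k hk
    obtain ⟨z, hz, hzZ⟩ : ∃ z ∈ commutator G, π z = Z := by
      rw [← map_comm_mk] at hZm
      exact hZm
    have hk3 : z ^ k ∈ g3 G := mem_of_mk hN3 (by rw [map_zpow, map_g3]; rw [← hzZ] at hk; exact hk)
    by_cases hpk : (p : ℤ) ∣ k
    · obtain ⟨q, rfl⟩ := hpk
      have h5 : z ^ ((p : ℤ) * q) ∈ N := hWN _ (by
        rw [zpow_mul, zpow_natCast]
        exact zpow_mem (hWpow z hz) q) hk3
      rw [← hzZ, ← map_zpow]
      exact mk_eq_one.2 h5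
    · exfalso
      have h5 : z ∈ g3 G := mem_of_pow' hG hk3 hpk
      have h6 : Z ∈ g3 (G ⧸ N) := by
        rw [← map_g3, ← hzZ]
        exact ⟨z, h5, rfl⟩
      have h7 : commutator (G ⧸ N) ≤ g3 (G ⧸ N) :=
        hgam.trans (sup_le (by rwa [zpowers_le]) le_rfl)
      have h8 := gam_bot h7
      rw [h8, mem_bot] at hZm
      apply h2
      rw [hT, hZm, commutatorElement_one_right]
  have hZ1 : Z ≠ 1 := by
    intro h
    apply h2
    rw [hT, h, commutatorElement_one_right]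
  have hZj : Z ^ j = 1 := by
    have h5 : Z ^ (j : ℤ) ∈ g3 (G ⧸ N) := by
      rw [zpow_natCast]
      have h6 : Z ^ j = (T ^ (j.choose 2))⁻¹ * T := by
        rw [eq_inv_mul_iff_mul_eq]; exact hj.symm
      rw [h6]
      exact mul_mem (inv_mem (pow_mem hTm _)) hTm
    have := star j h5
    rwa [zpow_natCast] at this
  have hmod : j.choose 2 ≡ 1 [MOD p] := by
    rw [← h4, ← pow_eq_pow_iff_modEq, pow_one]
    rw [hZj, mul_one] at hj
    exact hj.symm
  obtain ⟨m, hm⟩ := IsPGroup.iff_orderOf.1 hQ Z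
  have hm0 : m ≠ 0 := by
    rintro rfl
    rw [pow_zero, orderOf_eq_one_iff] at hm
    exact hZ1 hm
  have hdj : p ^ m ∣ j := by rw [← hm]; exact orderOf_dvd_of_pow_eq_one hZj
  have hpj : p ∣ j := (dvd_pow_self p hm0).trans hdj
  have htri := tri j
  have hp2 : p = 2 := by
    by_contra hne
    have h5 : p ∣ j.choose 2 * 2 := by
      have h6 : p ∣ j.choose 2 * 2 + j := by rw [htri]; exact Dvd.dvd.mul_left hpj j
      exact (Nat.dvd_add_iff_left hpj).2 h6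
    have h6 : Nat.Coprime p 2 := (Nat.coprime_primes hp Nat.prime_two).2 hne
    have h7 : p ∣ j.choose 2 := h6.dvd_of_dvd_mul_right h5
    have h8 : p ∣ 1 := (Nat.ModEq.dvd_iff hmod (dvd_refl p)).1 h7
    exact hp.one_lt.ne' (Nat.dvd_one.1 h8)
  subst hp2
  refine ⟨rfl, ?_⟩
  have hm1 : m = 1 := by
    by_contra hne
    have h5 : 4 ∣ j := (pow_dvd_pow 2 (by omega : 2 ≤ m)).trans hdj
    obtain ⟨q, rfl⟩ := h5
    have h6 : (4 * q).choose 2 = 2 * (4 * q * q - q) := by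
      have h7 : q ≤ 4 * q * q := by nlinarith [Nat.zero_le q, Nat.le_mul_self q]
      have h8 : (4 * q).choose 2 * 2 + 4 * q = 4 * (4 * q * q) := by rw [htri]; ring
      omega
    rw [h6] at hmod
    have h7 := hmod
    unfold Nat.ModEq at h7
    omega
  have hZ2 : Z ^ 2 = 1 := by
    have : orderOf Z = 2 := by rw [hm, hm1]; norm_num
    rw [← this]; exact pow_orderOf_eq_one Z
  intro v hv
  apply mem_of_mk hN3
  have hπv : π v ∈ commutator (G ⧸ N) := by rw [← map_comm_mk]; exact ⟨v, hv, rfl⟩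
  obtain ⟨a, ha, s, hs, has⟩ := mem_sup_of_normal_right.1 (hgam hπv)
  obtain ⟨k, rfl⟩ := mem_zpowers_iff.1 ha
  have hsc : s ∈ center (G ⧸ N) := (zpowers_le.2 hcen) (hg3 ▸ hs)
  have h5 : (Z ^ k * s) ^ 2 = s ^ 2 := by
    have h6 : Commute (Z ^ k) s := mem_center_iff.1 hsc _
    rw [h6.mul_pow, ← zpow_natCast (Z ^ k), ← zpow_mul, mul_comm k, zpow_mul, zpow_natCast, hZ2,
      one_zpow, one_mul]
  rw [map_pow, map_g3, ← hπ, ← has, h5]
  exact pow_mem hs 2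

/-- the core of the case of a cyclic quotient of order four -/
theorem z4core (hP : P G 2) {x₀ y₀ : G} (h0 : Gen2 x₀ y₀) {t : G}
    (ht : orderOf t = 2) (hc : t ∈ center G) (hg : g3 G = zpowers t)
    (hsq : ∀ v ∈ commutator G, v ^ 2 ∈ g3 G) (hex : ∃ v ∈ commutator G, v ^ 2 ≠ 1) : False := by
  have : Fact (Nat.Prime 2) := ⟨Nat.prime_two⟩
  obtain ⟨x, y, h, h1, h2⟩ := adapted ht hc hg h0
  have hzm := comm_mem y x
  have hsm : ⁅y, ⁅y, x⁆⁆ ∈ g3 G := comm_mem' hzm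
  obtain ⟨h3, h4⟩ := zp_gen ht (hg ▸ hsm) h2
  have hsc : ⁅y, ⁅y, x⁆⁆ ∈ center G := (zpowers_le.2 hc) (hg ▸ hsm)
  obtain ⟨j, hj⟩ := conj_form hP h h1 hsc
  have hgam := gam_le h
  set z := ⁅y, x⁆ with hz
  set s := ⁅y, z⁆ with hs
  have hs2 : s ^ 2 = 1 := by rw [← h4]; exact pow_orderOf_eq_one s
  have hpar : ∀ a ∈ g3 G, a = 1 ∨ a = s := by
    intro a ha
    rw [hg, ← h3] at ha
    obtain ⟨k, rfl⟩ := mem_zpowers_iff.1 ha
    rcases Int.even_or_odd' k with ⟨q, rfl | rfl⟩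
    · left
      rw [zpow_mul, zpow_ofNat, hs2, one_zpow]
    · right
      rw [zpow_add, zpow_mul, zpow_ofNat, hs2, one_zpow, one_mul, zpow_one]
  have hz2 : z ^ 2 = s := by
    rcases hpar _ (hsq z hzm) with h5 | h5
    · exfalso
      obtain ⟨v, hv, hv2⟩ := hex
      apply hv2
      obtain ⟨a, ha, c, hc', hac⟩ := mem_sup_of_normal_right.1 (hgam hv)
      obtain ⟨k, rfl⟩ := mem_zpowers_iff.1 ha
      have hcc : c ∈ center G := (zpowers_le.2 hc) (hg ▸ hc')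
      have h6 : Commute (z ^ k) c := mem_center_iff.1 hcc _
      have h7 : c ^ 2 = 1 := by
        rcases hpar c hc' with h8 | h8
        · rw [h8, one_pow]
        · rw [h8, hs2]
      rw [← hac, h6.mul_pow, ← zpow_natCast (z ^ k), ← zpow_mul, mul_comm k, zpow_mul, zpow_natCast,
        h5, one_zpow, one_mul, h7]
    · exact h5
  have htri := tri j
  rcases Nat.even_or_odd' j with ⟨m, rfl | rfl⟩
  · have h5 : (2 * m).choose 2 + m = 2 * (m * m) := by nlinarith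
    rw [pow_mul z, hz2, ← pow_add, h5, pow_mul, hs2, one_pow] at hj
    exact h2 hj
  · have h5 : z ∈ center G := by
      have h6 : z ^ (2 * m + 1) = (s ^ (2 * m + 1).choose 2)⁻¹ * s := by
        rw [eq_inv_mul_iff_mul_eq]; exact hj.symm
      rw [pow_succ, pow_mul, hz2] at h6
      have h7 : z = (s ^ m)⁻¹ * ((s ^ (2 * m + 1).choose 2)⁻¹ * s) := by
        rw [← h6]; group
      rw [h7]
      exact mul_mem (inv_mem (pow_mem hsc _)) (mul_mem (inv_mem (pow_mem hsc _)) hsc)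
    apply h2
    rw [hs]
    exact commutatorElement_eq_one_iff_mul_comm.2 (mem_center_iff.1 h5 y)

theorem cyclic2 (hG : IsPGroup 2 G) (hP : P G 2) {x₀ y₀ : G} (h0 : Gen2 x₀ y₀)
    (hcyc : IsCyclic (commutator G)) : ∀ v ∈ g3 G, ∃ w ∈ commutator G, v = w ^ 4 := by
  have : Fact (Nat.Prime 2) := ⟨Nat.prime_two⟩
  by_contra hcon
  push Not at hcon
  obtain ⟨v, hv, hvw⟩ := hcon
  obtain ⟨⟨z, hz⟩, hzg⟩ := isCyclic_iff_exists_zpowers_eq_top.1 hcyc
  have hzg' : ∀ w ∈ commutator G, ∃ k : ℤ, z ^ k = w := by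
    intro w hw
    have h1 : (⟨w, hw⟩ : commutator G) ∈ zpowers (⟨z, hz⟩ : commutator G) := by
      rw [hzg]; exact mem_top _
    obtain ⟨k, hk⟩ := mem_zpowers_iff.1 h1
    exact ⟨k, congrArg Subtype.val hk⟩
  have hN : (zpowers (z ^ 4)).Normal := by
    refine ⟨fun n hn g => ?_⟩
    obtain ⟨k, rfl⟩ := mem_zpowers_iff.1 hn
    obtain ⟨a, ha⟩ := hzg' (g * z * g⁻¹) ((inferInstance : (commutator G).Normal).conj_mem z hz g)
    rw [← conj_zpow, ← conj_pow, ← ha]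
    have e : (z ^ a) ^ 4 = (z ^ 4) ^ a := by
      rw [← zpow_natCast (z ^ a) 4, ← zpow_natCast z 4, ← zpow_mul, ← zpow_mul, mul_comm]
    rw [e]
    exact zpow_mem (zpow_mem (mem_zpowers _) _) _
  set N := zpowers (z ^ 4) with hNdef
  have hNc : N ≤ commutator G := by rw [hNdef, zpowers_le]; exact pow_mem hz 4
  have hQ : IsPGroup 2 (G ⧸ N) := hG.to_quotient N
  have hnilQ : Group.IsNilpotent (G ⧸ N) := hQ.isNilpotent
  have hPQ : P (G ⧸ N) 2 := P_quot hG hP N hNc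
  set π := QuotientGroup.mk' N with hπ
  set Z := π z with hZdef
  have hZm : Z ∈ commutator (G ⧸ N) := by rw [← map_comm_mk]; exact ⟨z, hz, rfl⟩
  have hZ4 : (Z ^ 2) ^ 2 = 1 := by
    rw [← pow_mul, hZdef, ← map_pow]; exact mk_eq_one.2 (mem_zpowers _)
  have hZg : ∀ w ∈ commutator (G ⧸ N), ∃ k : ℤ, Z ^ k = w := by
    intro w hw
    rw [← map_comm_mk] at hw
    obtain ⟨w, hw, rfl⟩ := hw
    obtain ⟨k, rfl⟩ := hzg' w hw
    exact ⟨k, (map_zpow _ _ _).symm⟩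
  have hv1 : π v ≠ 1 := by
    intro h
    obtain ⟨k, hk⟩ := mem_zpowers_iff.1 (mk_eq_one.1 h : v ∈ N)
    apply hvw (z ^ k) (zpow_mem hz k)
    rw [← hk, ← zpow_natCast z 4, ← zpow_natCast (z ^ k) 4, ← zpow_mul, ← zpow_mul, mul_comm]
  have hv3 : π v ∈ g3 (G ⧸ N) := by rw [← map_g3]; exact ⟨v, hv, rfl⟩
  have hpar : ∀ a ∈ g3 (G ⧸ N), a = 1 ∨ a = Z ^ 2 := by
    intro a ha
    obtain ⟨k, rfl⟩ := hZg a (g3_le ha)
    by_cases hk : (2 : ℤ) ∣ k
    · obtain ⟨q, rfl⟩ := hk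
      rw [zpow_mul, zpow_ofNat]
      rcases Int.even_or_odd' q with ⟨q, rfl | rfl⟩
      · left; rw [zpow_mul, zpow_ofNat, hZ4, one_zpow]
      · right; rw [zpow_add, zpow_mul, zpow_ofNat (Z ^ 2), hZ4, one_zpow, one_mul, zpow_one]
    · exfalso
      have h1 : Z ∈ g3 (G ⧸ N) := mem_of_pow' hQ ha (by exact_mod_cast hk)
      have h2 : commutator (G ⧸ N) ≤ g3 (G ⧸ N) := by
        intro w hw
        obtain ⟨k, rfl⟩ := hZg w hw
        exact zpow_mem h1 k
      have h3 := gam_bot h2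
      have h4 := g3_le hv3
      rw [h3, mem_bot] at h4
      exact hv1 h4
  have hZ2v : π v = Z ^ 2 := (hpar _ hv3).resolve_left hv1
  have hZ21 : Z ^ 2 ≠ 1 := hZ2v ▸ hv1
  have hord : orderOf (Z ^ 2) = 2 := orderOf_eq_prime hZ4 hZ21
  have hg : g3 (G ⧸ N) = zpowers (Z ^ 2) := by
    apply le_antisymm
    · intro a ha
      rcases hpar a ha with h | h
      · rw [h]; exact one_mem _
      · rw [h]; exact mem_zpowers _
    · rw [zpowers_le, ← hZ2v]; exact hv3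
  have h4b : g4 (G ⧸ N) = ⊥ := by
    rw [eq_bot_iff]
    intro a ha
    rcases hpar a (g4_le ha) with h | h
    · exact mem_bot.2 h
    · exfalso
      have h1 : g3 (G ⧸ N) ≤ g4 (G ⧸ N) := by
        rw [hg, zpowers_le, ← h]; exact ha
      have h2 := nil_bot h1
      rw [h2, mem_bot] at hv3
      exact hv1 hv3
  have hcen : Z ^ 2 ∈ center (G ⧸ N) := by
    rw [mem_center_iff]
    intro g
    have h1 : ⁅g, Z ^ 2⁆ ∈ g4 (G ⧸ N) := comm_mem' (hZ2v ▸ hv3)
    rw [h4b, mem_bot] at h1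
    exact commutatorElement_eq_one_iff_mul_comm.1 h1
  refine z4core hPQ (gen2_map N h0) hord hcen hg ?_ ⟨Z, hZm, hZ21⟩
  intro w hw
  obtain ⟨k, rfl⟩ := hZg w hw
  rw [hg, ← zpow_natCast (Z ^ k), ← zpow_mul, mul_comm k, zpow_mul, zpow_natCast]
  exact zpow_mem (mem_zpowers _) k

/-- central elements of order dividing `2` -/
def cen2 (H : Type) [Group H] : Subgroup H where
  carrier := {b | b ∈ center H ∧ b ^ 2 = 1}
  one_mem' := ⟨one_mem _, one_pow 2⟩
  mul_mem' := fun {a b} ha hb => ⟨mul_mem ha.1 hb.1, by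
    have : Commute a b := mem_center_iff.1 hb.1 a
    rw [this.mul_pow, ha.2, hb.2, one_mul]⟩
  inv_mem' := fun {a} ha => ⟨inv_mem ha.1, by rw [inv_pow, ha.2, inv_one]⟩

theorem exp_g3 (hsq : ∀ v ∈ commutator G, v ^ 2 ∈ g3 G) : ∀ b ∈ g3 G, b ^ 2 ∈ g4 G := by
  intro b hb
  have h1 : g3 (G ⧸ g4 G) ≤ cen2 (G ⧸ g4 G) := by
    have hc : ∀ a ∈ g3 (G ⧸ g4 G), a ∈ center (G ⧸ g4 G) := by
      intro a ha
      rw [← map_g3] at ha
      obtain ⟨a, ha, rfl⟩ := ha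
      exact mk_central le_rfl ha
    rw [commutator_le]
    intro v hv g _
    have h2 : ⁅v, g⁆ ∈ g3 (G ⧸ g4 G) := commutator_mem_commutator hv (mem_top g)
    refine ⟨hc _ h2, ?_⟩
    have h3 : v ^ 2 ∈ center (G ⧸ g4 G) := by
      rw [← map_comm_mk] at hv
      obtain ⟨v, hv, rfl⟩ := hv
      rw [← map_pow]
      exact mk_central le_rfl (hsq v hv)
    have h4 : ⁅v ^ 2, g⁆ = v * ⁅v, g⁆ * v⁻¹ * ⁅v, g⁆ := by
      rw [pow_two]; simp only [commutatorElement_def]; group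
    have h5 : v * ⁅v, g⁆ = ⁅v, g⁆ * v := mem_center_iff.1 (hc _ h2) v
    have h6 : ⁅v ^ 2, g⁆ = 1 :=
      commutatorElement_eq_one_iff_mul_comm.2 (mem_center_iff.1 h3 g).symm
    rw [h4, h5] at h6
    rw [pow_two]
    calc ⁅v, g⁆ * ⁅v, g⁆ = ⁅v, g⁆ * v * v⁻¹ * ⁅v, g⁆ := by group
      _ = 1 := h6
  have h2 : QuotientGroup.mk' (g4 G) b ∈ g3 (G ⧸ g4 G) := by rw [← map_g3]; exact ⟨b, hb, rfl⟩
  have h3 := (h1 h2).2
  rw [← map_pow] at h3
  exact mk_eq_one.1 h3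

theorem claim2 (hG : IsPGroup 2 G) (hP : P G 2) {x₀ y₀ : G} (h0 : Gen2 x₀ y₀)
    (hsq : ∀ v ∈ commutator G, v ^ 2 ∈ g3 G) : ∀ v ∈ commutator G, v ^ 2 ∈ g4 G := by
  have : Fact (Nat.Prime 2) := ⟨Nat.prime_two⟩
  by_contra hcon
  push Not at hcon
  obtain ⟨v, hv, hv4⟩ := hcon
  obtain ⟨N, hN, h4N, hN3, htN, hle⟩ := exists_N' (p := 2) (A := g4 G) (B := g3 G) le_rfl g4_le
    (exp_g3 hsq) (hsq v hv) hv4
  have hNc : N ≤ commutator G := hN3.trans g3_le
  have hPQ : P (G ⧸ N) 2 := P_quot hG hP N hNc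
  have hord : orderOf (QuotientGroup.mk' N (v ^ 2)) = 2 := by
    apply orderOf_eq_prime
    · rw [← map_pow]; exact mk_eq_one.2 (h4N (exp_g3 hsq _ (hsq v hv)))
    · intro h; exact htN (mk_eq_one.1 h)
  refine z4core hPQ (gen2_map N h0) hord (mk_central h4N (hsq v hv))
    (by rw [← map_g3, map_eq_zpowers (hsq v hv) hle]) ?_ ?_
  · intro w hw
    rw [← map_comm_mk] at hw
    obtain ⟨w, hw, rfl⟩ := hw
    rw [← map_pow, ← map_g3]
    exact ⟨_, hsq w hw, rfl⟩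
  · refine ⟨QuotientGroup.mk' N v, by rw [← map_comm_mk]; exact ⟨v, hv, rfl⟩, ?_⟩
    rw [← map_pow]
    intro h
    exact htN (mk_eq_one.1 h)

end claims

end Pool.Agent.Q89.AC
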