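import Pool.Agent.Q89.AC4

/-! Two generators, `p = 2`: the class is at most three if `γ₂` is not cyclic. -/

set_option autoImplicit false

namespace Pool.Agent.Q89.AC

open Subgroup
open scoped commutatorElement

section four

variable {H : Type} [Group H]

/-- four commuting elements -/
structure Comm4 (t z u v : H) : Prop where
  ct : ∀ g, Commute g t
  zu : Commute z u
  zv : Commute z v
  uv : Commute u v

/-- monomials -/
def F (t z u v : H) (a b c e : ℕ) : H := (t ^ a * z ^ b) * (u ^ c * v ^ e)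

variable {t z u v : H}

theorem F_mul (h : Comm4 t z u v) (a b c e a' b' c' e' : ℕ) :
    F t z u v a b c e * F t z u v a' b' c' e' =
      F t z u v (a + a') (b + b') (c + c') (e + e') := by
  unfold F
  have h1 : Commute (u ^ c * v ^ e) (t ^ a' * z ^ b') := by
    apply Commute.mul_left
    · exact ((h.ct _).pow_right a').mul_right (h.zu.symm.pow_pow c b')
    · exact ((h.ct _).pow_right a').mul_right (h.zv.symm.pow_pow e b')
  have h2 : Commute (z ^ b) (t ^ a') := (h.ct _).pow_right a'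
  have h3 : Commute (v ^ e) (u ^ c') := h.uv.symm.pow_pow e c'
  rw [h1.mul_mul_mul_comm, h2.mul_mul_mul_comm, h3.mul_mul_mul_comm]
  simp only [pow_add]

theorem F_zero : F t z u v 0 0 0 0 = 1 := by simp [F]

theorem F_pow (h : Comm4 t z u v) (a b c e n : ℕ) :
    F t z u v a b c e ^ n = F t z u v (n * a) (n * b) (n * c) (n * e) := by
  induction n with
  | zero => simp [F_zero]
  | succ n ih =>
    rw [pow_succ, ih, F_mul h]
    congr 1 <;> ring

theorem F_t : F t z u v 1 0 0 0 = t := by simp [F]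
theorem F_z : F t z u v 0 1 0 0 = z := by simp [F]
theorem F_u : F t z u v 0 0 1 0 = u := by simp [F]
theorem F_v : F t z u v 0 0 0 1 = v := by simp [F]

/-- the relations -/
structure Rel (x y z u v t : H) (A B C ζ : ℕ) : Prop where
  gen : Gen2 x y
  yx : y * x * y⁻¹ = z * x
  xz : x * z * x⁻¹ = u * z
  yz : y * z * y⁻¹ = v * z
  xu : x * u * x⁻¹ = t ^ A * u
  yu : y * u * y⁻¹ = t ^ B * u
  xv : x * v * x⁻¹ = t ^ B * v
  yv : y * v * y⁻¹ = t ^ C * v
  c4 : Comm4 t z u v
  z2 : z ^ 2 = t ^ ζ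
  u2 : u ^ 2 = 1
  v2 : v ^ 2 = 1
  t2 : t ^ 2 = 1
  t1 : t ≠ 1
  tm : t ∈ commutator H
  um : u ∈ commutator H
  vm : v ∈ commutator H

variable {x y : H} {A B C ζ : ℕ}

theorem Rel.conj_x (R : Rel x y z u v t A B C ζ) (a b c e : ℕ) :
    x * F t z u v a b c e * x⁻¹ = F t z u v (a + A * c + B * e) b (c + b) e := by
  have h := R.c4
  have h1 : x * F t z u v a b c e * x⁻¹ =
      (x * t * x⁻¹) ^ a * (x * z * x⁻¹) ^ b * ((x * u * x⁻¹) ^ c * (x * v * x⁻¹) ^ e) := by
    rw [conj_pow, conj_pow, conj_pow, conj_pow]; unfold F; group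
  have h2 : x * t * x⁻¹ = F t z u v 1 0 0 0 := by
    rw [F_t, (h.ct x).eq]; group
  have h3 : x * z * x⁻¹ = F t z u v 0 1 1 0 := by
    rw [R.xz, ← h.zu.eq]; simp [F]
  have h4 : x * u * x⁻¹ = F t z u v A 0 1 0 := by
    rw [R.xu]; simp [F]
  have h5 : x * v * x⁻¹ = F t z u v B 0 0 1 := by
    rw [R.xv]; simp [F]
  rw [h1, h2, h3, h4, h5, F_pow h, F_pow h, F_pow h, F_pow h, F_mul h, F_mul h, F_mul h]
  congr 1 <;> ring

theorem Rel.conj_y (R : Rel x y z u v t A B C ζ) (a b c e : ℕ) :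
    y * F t z u v a b c e * y⁻¹ = F t z u v (a + B * c + C * e) b c (e + b) := by
  have h := R.c4
  have h1 : y * F t z u v a b c e * y⁻¹ =
      (y * t * y⁻¹) ^ a * (y * z * y⁻¹) ^ b * ((y * u * y⁻¹) ^ c * (y * v * y⁻¹) ^ e) := by
    rw [conj_pow, conj_pow, conj_pow, conj_pow]; unfold F; group
  have h2 : y * t * y⁻¹ = F t z u v 1 0 0 0 := by
    rw [F_t, (h.ct y).eq]; group
  have h3 : y * z * y⁻¹ = F t z u v 0 1 0 1 := by
    rw [R.yz, ← h.zv.eq]; simp [F]
  have h4 : y * u * y⁻¹ = F t z u v B 0 1 0 := by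
    rw [R.yu]; simp [F]
  have h5 : y * v * y⁻¹ = F t z u v C 0 0 1 := by
    rw [R.yv]; simp [F]
  rw [h1, h2, h3, h4, h5, F_pow h, F_pow h, F_pow h, F_pow h, F_mul h, F_mul h, F_mul h]
  congr 1 <;> ring

theorem even_of_pow {t : H} (t2 : t ^ 2 = 1) (t1 : t ≠ 1) {n : ℕ} (h : t ^ n = 1) : ∃ m, n = 2 * m := by
  rcases Nat.even_or_odd' n with ⟨m, rfl | rfl⟩
  · exact ⟨m, rfl⟩
  · rw [pow_succ, pow_mul, t2, one_pow, one_mul] at h
    exact absurd h t1

theorem pow_even {t : H} (t2 : t ^ 2 = 1) (m : ℕ) : t ^ (2 * m) = 1 := by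
  rw [pow_mul, t2, one_pow]

variable [Finite H]

/-- case `A = B = 0`, `C = 1` -/
theorem K1a (hP : P H 2) (R : Rel x y z u v t 0 0 1 ζ) : u = t := by
  have h := R.c4
  let T : Set H := {a | ∃ j k : ℕ, a = F t z u v (j.choose 3) j k (j.choose 2) * x}
  have hT : ∀ g ∈ ({x, y} : Set H), ∀ a ∈ T, g * a * g⁻¹ ∈ T := by
    rintro g hg a ⟨j, k, rfl⟩
    have h0 : g * (F t z u v (j.choose 3) j k (j.choose 2) * x) * g⁻¹ =
        (g * F t z u v (j.choose 3) j k (j.choose 2) * g⁻¹) * (g * x * g⁻¹) := by group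
    rcases hg with rfl | rfl
    · refine ⟨j, k + j, ?_⟩
      rw [h0, R.conj_x]
      have h1 : g * g * g⁻¹ = g := by group
      rw [h1]; congr 2; ring
    · refine ⟨j + 1, k, ?_⟩
      rw [h0, R.conj_y, R.yx]
      nth_rewrite 2 [← F_z (t := t) (z := z) (u := u) (v := v)]
      rw [← mul_assoc, F_mul h, Nat.choose_succ_succ' j 2, Nat.choose_succ_succ' j 1,
        Nat.choose_one_right]
      congr 2 <;> ring
  obtain ⟨g, hg⟩ := hP.conj R.gen R.tm
  have h1 := conj_set R.gen hT g x ⟨0, 0, by simp [F]⟩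
  rw [hg] at h1
  obtain ⟨j, k, hj⟩ := h1
  have hj := mul_right_cancel hj
  have h2 : y * t * y⁻¹ = t := by rw [(h.ct y).eq]; group
  have h3 := R.conj_y (j.choose 3) j k (j.choose 2)
  rw [← hj, h2] at h3
  have h4 : F t z u v (j.choose 3 + 0 * k + 1 * j.choose 2) j k (j.choose 2 + j) =
      F t z u v (j.choose 3) j k (j.choose 2) * F t z u v (j.choose 2) 0 0 j := by
    rw [F_mul h]; congr 1 <;> ring
  rw [h4, ← hj] at h3
  have h5 : F t z u v (j.choose 2) 0 0 j = 1 := mul_eq_left.1 h3.symm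
  have h6 : t ^ (j.choose 2) * v ^ j = 1 := by
    rw [← h5]; simp [F]
  have htri := tri j
  rcases Nat.even_or_odd' j with ⟨m, hm | hm⟩
  · rw [hm, pow_even R.v2, mul_one, ← hm] at h6
    obtain ⟨m', hm'⟩ := even_of_pow R.t2 R.t1 h6
    have h7 : ∃ q, m = 2 * q := by
      rw [hm, ← hm, hm'] at htri
      rcases Nat.even_or_odd' m with ⟨q, hq | hq⟩
      · exact ⟨q, hq⟩
      · exfalso
        rw [hm, hq] at htri
        have : 2 * m' * 2 + 2 * (2 * q + 1) = 4 * ((2 * q + 1) * (2 * q + 1)) := by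
          rw [htri]; ring
        have h8 : (2 * q + 1) * (2 * q + 1) = 2 * (2 * q * q + 2 * q) + 1 := by ring
        omega
    obtain ⟨q, hq⟩ := h7
    have h8 : ∃ r, j.choose 3 = 2 * r := by
      have h9 := Nat.choose_succ_right_eq j 2
      rw [hm'] at h9
      have h10 : j.choose 3 * 3 = 2 * (m' * (j - 2)) := by rw [h9]; ring
      exact ⟨m' * (j - 2) - j.choose 3, by omega⟩
    obtain ⟨r, hr⟩ := h8
    have h9 : z ^ j = 1 := by
      rw [hm, hq, pow_mul, R.z2, ← pow_mul, mul_comm, mul_assoc, pow_even R.t2]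
    have h10 : t = u ^ k := by
      rw [hr, hm'] at hj
      rw [hj]
      simp [F, pow_even R.t2, pow_even R.v2, h9]
    rcases Nat.even_or_odd' k with ⟨l, hl | hl⟩
    · rw [hl, pow_even R.u2] at h10
      exact absurd h10 R.t1
    · rw [hl, pow_succ, pow_even R.u2, one_mul] at h10
      exact h10.symm
  · exfalso
    rw [hm, pow_succ v, pow_even R.v2, one_mul] at h6
    have h7 : v = (t ^ ((2 * m + 1).choose 2))⁻¹ := (inv_eq_of_mul_eq_one_right h6).symm
    have h8 : y * v * y⁻¹ = v := by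
      have : Commute y v := by rw [h7]; exact ((h.ct y).pow_right _).inv_right
      rw [this.eq]; group
    have h9 := R.yv
    rw [h8, pow_one] at h9
    exact R.t1 (mul_eq_right.1 h9.symm)

theorem K1 (hP : P H 2) (R : Rel x y z u v t 0 0 1 ζ) : False := by
  have h := R.c4
  have hu := K1a hP R
  have hyt : y * t * y⁻¹ = t := by rw [(h.ct y).eq]; group
  have hxt : x * t * x⁻¹ = t := by rw [(h.ct x).eq]; group
  have hv2 : v * v = 1 := by rw [← pow_two]; exact R.v2
  have ht2 : t * t = 1 := by rw [← pow_two]; exact R.t2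
  have hyv : y * v * y⁻¹ = t * v := by rw [R.yv, pow_one]
  have hxv : x * v * x⁻¹ = v := by rw [R.xv, pow_zero, one_mul]
  have hxz : x * z * x⁻¹ = t * z := by rw [R.xz, hu]
  have e1 : x * y ^ 2 * z * (x * y ^ 2)⁻¹ = x * (y * (y * z * y⁻¹) * y⁻¹) * x⁻¹ := by
    rw [pow_two]; group
  have e2 : y * (v * z) * y⁻¹ = t * z := by
    calc y * (v * z) * y⁻¹ = (y * v * y⁻¹) * (y * z * y⁻¹) := by group
      _ = t * v * (v * z) := by rw [hyv, R.yz]
      _ = t * (v * v) * z := by group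
      _ = t * z := by rw [hv2, mul_one]
  have e3 : x * (t * z) * x⁻¹ = z := by
    calc x * (t * z) * x⁻¹ = (x * t * x⁻¹) * (x * z * x⁻¹) := by group
      _ = t * (t * z) := by rw [hxt, hxz]
      _ = (t * t) * z := by group
      _ = z := by rw [ht2, one_mul]
  have e4 : x * y ^ 2 * v * (x * y ^ 2)⁻¹ = x * (y * (y * v * y⁻¹) * y⁻¹) * x⁻¹ := by
    rw [pow_two]; group
  have e5 : y * (t * v) * y⁻¹ = v := by
    calc y * (t * v) * y⁻¹ = (y * t * y⁻¹) * (y * v * y⁻¹) := by group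
      _ = t * (t * v) := by rw [hyt, hyv]
      _ = (t * t) * v := by group
      _ = v := by rw [ht2, one_mul]
  have R' : Rel (x * y ^ 2) y z 1 v t 0 0 1 ζ :=
    { gen := by
        rw [Gen2, ← top_le_iff, ← (R.gen : closure {x, y} = ⊤), closure_le]
        have hy' : y ∈ closure ({x * y ^ 2, y} : Set H) := subset_closure (by simp)
        have hx' : x * y ^ 2 ∈ closure ({x * y ^ 2, y} : Set H) := subset_closure (by simp)
        have hx'' := mul_mem hx' (inv_mem (pow_mem hy' 2))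
        rw [mul_inv_cancel_right] at hx''
        rintro a (rfl | rfl)
        · exact hx''
        · exact hy'
      yx := by
        calc y * (x * y ^ 2) * y⁻¹ = (y * x * y⁻¹) * y ^ 2 := by rw [pow_two]; group
          _ = z * (x * y ^ 2) := by rw [R.yx, mul_assoc]
      xz := by rw [e1, R.yz, e2, e3, one_mul]
      yz := R.yz
      xu := by simp
      yu := by simp
      xv := by rw [e4, hyv, e5, hxv, pow_zero, one_mul]
      yv := R.yv
      c4 := ⟨h.ct, Commute.one_right _, h.zv, Commute.one_left _⟩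
      z2 := R.z2
      u2 := one_pow 2
      v2 := R.v2
      t2 := R.t2
      t1 := R.t1
      tm := R.tm
      um := one_mem _
      vm := R.vm }
  exact R.t1 (K1a hP R').symm

/-- case `A = 0`, `B = 1` -/
theorem K23 (hP : P H 2) {γ : ℕ} (hγ : γ = 0 ∨ γ = 1) (R : Rel x y z u v t 0 1 γ ζ) : False := by
  have h := R.c4
  obtain ⟨α, hα, h1, h2⟩ := hP.two R.gen (one_mem _) R.vm
  rw [one_mul] at h1
  have hz : z = y * x * y⁻¹ * x⁻¹ := by rw [R.yx]; group
  have hti : t⁻¹ = t := inv_eq_of_mul_eq_one_left (by rw [← pow_two]; exact R.t2)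
  have hαz : α z = t * z := by
    rw [hz, map_mul, map_mul, map_mul, map_inv, map_inv, h1, h2, ← hz]
    calc v * y * x * (v * y)⁻¹ * x⁻¹ = v * (y * x * y⁻¹) * (v⁻¹ * x⁻¹) := by group
      _ = v * z * (x * v * x⁻¹)⁻¹ := by rw [R.yx]; group
      _ = v * z * (t * v)⁻¹ := by rw [R.xv, pow_one]
      _ = z * v * (t * v)⁻¹ := by rw [h.zv.eq]
      _ = z * t⁻¹ := by group
      _ = t * z := by rw [hti, (h.ct z).eq]
  set g := x ^ (2 * γ) * z with hg
  have hαg : α g = t * g := by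
    rw [hg, map_mul, map_pow, h1, hαz, ← mul_assoc, (h.ct _).eq, mul_assoc]
  have hgx : x * g * x⁻¹ = F t z u v 0 0 1 0 * g := by
    have hux : Commute x u := by
      have := R.xu
      rw [pow_zero, one_mul] at this
      exact mul_inv_eq_iff_eq_mul.1 this
    rw [F_u, hg]
    calc x * (x ^ (2 * γ) * z) * x⁻¹ = x ^ (2 * γ) * (x * z * x⁻¹) := by
          rw [← mul_assoc x, ← pow_succ', pow_succ]; group
      _ = x ^ (2 * γ) * u * z := by rw [R.xz, mul_assoc]
      _ = u * (x ^ (2 * γ) * z) := by rw [(hux.pow_left (2 * γ)).eq, mul_assoc]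
  have hgy : y * g * y⁻¹ = F t z u v (γ * ζ) 0 γ 1 * g := by
    rcases hγ with rfl | rfl
    · rw [hg]
      simp only [mul_zero, pow_zero, one_mul, zero_mul, F_v]
      exact R.yz
    · have hux : Commute x u := by
        have := R.xu
        rw [pow_zero, one_mul] at this
        exact mul_inv_eq_iff_eq_mul.1 this
      have hxv : x * v = t * v * x := by
        have := R.xv
        rw [pow_one] at this
        exact mul_inv_eq_iff_eq_mul.1 this
      have hx2v : x ^ 2 * v = v * x ^ 2 := by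
        calc x ^ 2 * v = x * (x * v) := by rw [pow_two]; group
          _ = x * t * v * x := by rw [hxv]; group
          _ = t * (x * v) * x := by rw [(h.ct x).eq]; group
          _ = (t * t) * v * x ^ 2 := by rw [hxv, pow_two]; group
          _ = v * x ^ 2 := by rw [← pow_two t, R.t2, one_mul]
      have hxz' : x * z = u * z * x := mul_inv_eq_iff_eq_mul.1 R.xz
      have e1 : y * x ^ 2 * y⁻¹ = t ^ ζ * u * x ^ 2 := by
        calc y * x ^ 2 * y⁻¹ = (y * x * y⁻¹) * (y * x * y⁻¹) := by rw [pow_two]; group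
          _ = z * (x * z) * x := by rw [R.yx]; group
          _ = z * u * z * x ^ 2 := by rw [hxz', pow_two]; group
          _ = u * (z * z) * x ^ 2 := by rw [h.zu.eq]; group
          _ = u * t ^ ζ * x ^ 2 := by rw [← pow_two z, R.z2]
          _ = t ^ ζ * u * x ^ 2 := by rw [((h.ct u).pow_right ζ).eq]
      rw [hg, mul_one]
      calc y * (x ^ 2 * z) * y⁻¹ = (y * x ^ 2 * y⁻¹) * (y * z * y⁻¹) := by group
        _ = t ^ ζ * u * (x ^ 2 * v) * z := by rw [e1, R.yz]; group
        _ = t ^ ζ * u * v * (x ^ 2 * z) := by rw [hx2v]; group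
        _ = F t z u v (1 * ζ) 0 1 1 * (x ^ 2 * z) := by simp [F, mul_assoc]
  let T : Set H := {a | ∃ i j : ℕ, a = F t z u v (i * j + γ * ζ * j) 0 (i + γ * j) j * g}
  have hT2 : ∀ a k c e : ℕ, F t z u v (a + 2 * k) 0 c e = F t z u v a 0 c e := by
    intro a k c e
    unfold F
    rw [pow_add, pow_even R.t2, mul_one]
  have hT : ∀ w ∈ ({x, y} : Set H), ∀ a ∈ T, w * a * w⁻¹ ∈ T := by
    rintro w hw a ⟨i, j, rfl⟩
    have h0 : w * (F t z u v (i * j + γ * ζ * j) 0 (i + γ * j) j * g) * w⁻¹ =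
        (w * F t z u v (i * j + γ * ζ * j) 0 (i + γ * j) j * w⁻¹) * (w * g * w⁻¹) := by group
    rcases hw with rfl | rfl
    · refine ⟨i + 1, j, ?_⟩
      rw [h0, R.conj_x, hgx, ← mul_assoc, F_mul h]
      congr 2 <;> ring
    · refine ⟨i, j + 1, ?_⟩
      rw [h0, R.conj_y, hgy, ← mul_assoc, F_mul h]
      have e : i * j + γ * ζ * j + 1 * (i + γ * j) + γ * j + γ * ζ =
          (i * (j + 1) + γ * ζ * (j + 1)) + 2 * (γ * j) := by ring
      rw [e, hT2]
      congr 2 <;> ring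
  have h3 := hα g
  rw [hαg] at h3
  obtain ⟨w, hw⟩ := isConj_iff.1 h3
  have h4 := conj_set R.gen hT w g ⟨0, 0, by simp [F]⟩
  rw [hw] at h4
  obtain ⟨i, j, hij⟩ := h4
  have hij := mul_right_cancel hij
  have hyt : y * t * y⁻¹ = t := by rw [(h.ct y).eq]; group
  have hxt : x * t * x⁻¹ = t := by rw [(h.ct x).eq]; group
  have h5 := R.conj_x (i * j + γ * ζ * j) 0 (i + γ * j) j
  rw [← hij, hxt] at h5
  have h6 : F t z u v (i * j + γ * ζ * j + 0 * (i + γ * j) + 1 * j) 0 (i + γ * j + 0) j =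
      F t z u v (i * j + γ * ζ * j) 0 (i + γ * j) j * F t z u v j 0 0 0 := by
    rw [F_mul h]; congr 1 <;> ring
  rw [h6, ← hij] at h5
  have h7 : F t z u v j 0 0 0 = 1 := mul_eq_left.1 h5.symm
  have h7' : t ^ j = 1 := by rw [← h7]; simp [F]
  obtain ⟨j', hj'⟩ := even_of_pow R.t2 R.t1 h7'
  have h8 := R.conj_y (i * j + γ * ζ * j) 0 (i + γ * j) j
  rw [← hij, hyt] at h8
  have h9 : F t z u v (i * j + γ * ζ * j + 1 * (i + γ * j) + γ * j) 0 (i + γ * j) (j + 0) =
      F t z u v (i * j + γ * ζ * j) 0 (i + γ * j) j * F t z u v (i + 2 * (γ * j)) 0 0 0 := by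
    rw [F_mul h]; congr 1 <;> ring
  rw [h9, ← hij, hT2] at h8
  have h10 : F t z u v i 0 0 0 = 1 := mul_eq_left.1 h8.symm
  have h10' : t ^ i = 1 := by rw [← h10]; simp [F]
  obtain ⟨i', hi'⟩ := even_of_pow R.t2 R.t1 h10'
  apply R.t1
  rw [hij]
  have e1 : i * j + γ * ζ * j = 2 * (i' * j + γ * ζ * j') := by
    rw [hi', hj']; ring
  have e2 : i + γ * j = 2 * (i' + γ * j') := by rw [hi', hj']; ring
  rw [e1, e2]
  nth_rewrite 2 [hj']
  unfold F
  rw [pow_even R.t2, pow_even R.u2, pow_even R.v2]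
  simp

end four

end Pool.Agent.Q89.AC
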