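import Pool.Agent.Q89.AC5

/-! Two generators, `p = 2`: end of the proof that the class is at most three. -/

set_option autoImplicit false

namespace Pool.Agent.Q89.AC

open Subgroup
open scoped commutatorElement

section rel

variable {H : Type} [Group H] {t z u v x y : H} {A B C ζ : ℕ}

theorem Rel.swap (R : Rel x y z u v t A B C ζ) : Rel y x z⁻¹ v u t C B A ζ := by
  have h := R.c4
  have hui : u⁻¹ = u := inv_eq_of_mul_eq_one_left (by rw [← pow_two]; exact R.u2)
  have hvi : v⁻¹ = v := inv_eq_of_mul_eq_one_left (by rw [← pow_two]; exact R.v2)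
  have hti : t⁻¹ = t := inv_eq_of_mul_eq_one_left (by rw [← pow_two]; exact R.t2)
  have hz : z = y * x * y⁻¹ * x⁻¹ := by rw [R.yx]; group
  exact
    { gen := by rw [Gen2, Set.pair_comm]; exact R.gen
      yx := by rw [hz]; group
      xz := by rw [← conj_inv, R.yz, mul_inv_rev, hvi, h.zv.inv_left.eq]
      yz := by rw [← conj_inv, R.xz, mul_inv_rev, hui, h.zu.inv_left.eq]
      xu := R.yv
      yu := R.xv
      xv := R.yu
      yv := R.xu
      c4 := ⟨h.ct, h.zv.inv_left, h.zu.inv_left, h.uv.symm⟩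
      z2 := by rw [inv_pow, R.z2, ← inv_pow, hti]
      u2 := R.v2
      v2 := R.u2
      t2 := R.t2
      t1 := R.t1
      tm := R.tm
      um := R.vm
      vm := R.um }

theorem F_shift (t2 : t ^ 2 = 1) (a k b c e : ℕ) :
    F t z u v (a + 2 * k) b c e = F t z u v a b c e := by
  unfold F
  rw [pow_add, pow_even t2, mul_one]

theorem Rel.mix (R : Rel x y z u v t 1 B 1 ζ) :
    Rel (x * y) y z (F t z u v B 0 1 1) v t 0 (B + 1) 1 ζ := by
  have h := R.c4
  have hconj : ∀ w : H, x * y * w * (x * y)⁻¹ = x * (y * w * y⁻¹) * x⁻¹ := by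
    intro w; group
  exact
    { gen := by
        rw [Gen2, ← top_le_iff, ← (R.gen : closure {x, y} = ⊤), closure_le]
        have hy' : y ∈ closure ({x * y, y} : Set H) := subset_closure (by simp)
        have hx' : x * y ∈ closure ({x * y, y} : Set H) := subset_closure (by simp)
        have hx'' := mul_mem hx' (inv_mem hy')
        rw [mul_inv_cancel_right] at hx''
        rintro a (rfl | rfl)
        · exact hx''
        · exact hy'
      yx := by
        calc y * (x * y) * y⁻¹ = (y * x * y⁻¹) * y := by group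
          _ = z * (x * y) := by rw [R.yx, mul_assoc]
      xz := by
        have e1 : x * (y * F t z u v 0 1 0 0 * y⁻¹) * x⁻¹ =
            F t z u v B 0 1 1 * F t z u v 0 1 0 0 := by
          rw [R.conj_y, R.conj_x, F_mul h]
          congr 1; ring
        rw [F_z] at e1
        rw [hconj, e1]
      yz := R.yz
      xu := by
        have e1 : x * (y * F t z u v B 0 1 1 * y⁻¹) * x⁻¹ = F t z u v B 0 1 1 := by
          rw [R.conj_y, R.conj_x, ← F_shift R.t2 B (B + 1)]
          congr 1; ring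
        rw [hconj, e1, pow_zero, one_mul]
      yu := by
        have e : t ^ (B + 1) = F t z u v (B + 1) 0 0 0 := by simp [F]
        rw [R.conj_y, e, F_mul h]
        congr 1; ring
      xv := by
        rw [hconj]
        have e : v = F t z u v 0 0 0 1 := F_v.symm
        have e' : t ^ (B + 1) * v = F t z u v (1 + B) 0 0 1 := by simp [F, add_comm]
        rw [e']
        nth_rewrite 1 [e]
        rw [R.conj_y, R.conj_x]
        congr 1; ring
      yv := R.yv
      c4 := ⟨h.ct, by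
        unfold F
        exact (((h.ct z).pow_right B).mul_right (Commute.pow_right (Commute.refl z) 0)).mul_right
          ((h.zu.pow_right 1).mul_right (h.zv.pow_right 1)), h.zv, by
        unfold F
        exact ((((h.ct v).symm.pow_left B)).mul_left (h.zv.pow_left 0)).mul_left
          ((h.uv.pow_left 1).mul_left (Commute.pow_left (Commute.refl v) 1))⟩
      z2 := R.z2
      u2 := by
        rw [F_pow h]
        unfold F
        rw [pow_even R.t2, pow_even R.u2, pow_even R.v2]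
        simp
      v2 := R.v2
      t2 := R.t2
      t1 := R.t1
      tm := R.tm
      um := by
        unfold F
        rw [pow_zero, mul_one]
        exact mul_mem (pow_mem R.tm _) (mul_mem (pow_mem R.um _) (pow_mem R.vm _))
      vm := R.vm }

theorem pow_mod {t : H} (t2 : t ^ 2 = 1) (n : ℕ) : t ^ (n % 2) = t ^ n := by
  conv_rhs => rw [← Nat.div_add_mod n 2, pow_add, pow_even t2, one_mul]

theorem Rel.red (R : Rel x y z u v t A B C ζ) : Rel x y z u v t (A % 2) (B % 2) (C % 2) ζ :=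
  { R with
    xu := by rw [pow_mod R.t2]; exact R.xu
    yu := by rw [pow_mod R.t2]; exact R.yu
    xv := by rw [pow_mod R.t2]; exact R.xv
    yv := by rw [pow_mod R.t2]; exact R.yv }

variable [Finite H]

theorem no_rel (hP : P H 2) (hno : ∀ x y z u v ζ, ¬ Rel x y z u v t 0 0 0 ζ)
    (R : Rel x y z u v t A B C ζ) : False := by
  have core : ∀ x y z u v B C ζ, B < 2 → C < 2 → Rel x y z u v t 0 B C ζ → False := by
    intro x y z u v B C ζ hB hC R
    rcases (by omega : B = 0 ∨ B = 1) with rfl | rfl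
    · rcases (by omega : C = 0 ∨ C = 1) with rfl | rfl
      · exact hno _ _ _ _ _ _ R
      · exact K1 hP R
    · exact K23 hP (by omega) R
  have R := R.red
  have hA : A % 2 < 2 := Nat.mod_lt _ (by norm_num)
  have hB : B % 2 < 2 := Nat.mod_lt _ (by norm_num)
  have hC : C % 2 < 2 := Nat.mod_lt _ (by norm_num)
  generalize A % 2 = A at *
  generalize B % 2 = B at *
  generalize C % 2 = C at *
  rcases (by omega : A = 0 ∨ A = 1) with rfl | rfl
  · exact core _ _ _ _ _ _ _ _ hB hC R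
  · rcases (by omega : C = 0 ∨ C = 1) with rfl | rfl
    · exact core _ _ _ _ _ _ _ _ hB (by norm_num) R.swap
    · exact core _ _ _ _ _ _ _ _ (Nat.mod_lt _ (by norm_num)) (Nat.mod_lt _ (by norm_num)) R.mix.red

theorem no_zero (hg : g4 H = zpowers t) (x y z u v : H) (ζ : ℕ) : ¬ Rel x y z u v t 0 0 0 ζ := by
  intro R
  have h := R.c4
  have hz : z = ⁅y, x⁆ := by rw [commutatorElement_def, R.yx]; group
  have hxz : ⁅x, z⁆ = u := by rw [commutatorElement_def, R.xz]; group
  have hyz : ⁅y, z⁆ = v := by rw [commutatorElement_def, R.yz]; group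
  have hgen : ∀ w : H, x * w * x⁻¹ = t ^ 0 * w → y * w * y⁻¹ = t ^ 0 * w → w ∈ center H := by
    intro w h1 h2
    rw [pow_zero, one_mul] at h1 h2
    rw [mem_center_iff]
    intro g
    have h3 := comm_all_mod (D := (⊥ : Subgroup H)) R.gen (b := w) (by
      rintro a (rfl | rfl)
      · rw [mem_bot, commutatorElement_def, h1, mul_inv_cancel]
      · rw [mem_bot, commutatorElement_def, h2, mul_inv_cancel]) g
    exact commutatorElement_eq_one_iff_mul_comm.1 (mem_bot.1 h3)
  have hu : u ∈ center H := hgen u R.xu R.yu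
  have hv : v ∈ center H := hgen v R.xv R.yv
  have ht : t ∈ center H := by
    rw [mem_center_iff]; exact fun g => (h.ct g).eq
  have h3 : g3 H ≤ center H := by
    apply g3_le_of R.gen
    · rw [hg, zpowers_le]; exact ht
    · rw [← hz, hxz]; exact hu
    · rw [← hz, hyz]; exact hv
  have h4 : g4 H ≤ ⊥ := by
    rw [commutator_le]
    intro w hw g _
    rw [mem_bot, commutatorElement_eq_one_iff_mul_comm]
    exact (mem_center_iff.1 (h3 hw) g).symm
  rw [hg, le_bot_iff, zpowers_eq_bot] at h4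
  exact R.t1 h4

theorem exists_rel {x y t : H} (h0 : Gen2 x y) (ht : orderOf t = 2) (hc : t ∈ center H)
    (hg : g4 H = zpowers t) (hsq : ∀ v ∈ commutator H, v ^ 2 ∈ g4 H) :
    ∃ A B C ζ, Rel x y ⁅y, x⁆ ⁅x, ⁅y, x⁆⁆ ⁅y, ⁅y, x⁆⁆ t A B C ζ := by
  have t2 : t ^ 2 = 1 := by rw [← ht]; exact pow_orderOf_eq_one t
  have t1 : t ≠ 1 := by
    rintro rfl
    rw [orderOf_one] at ht
    norm_num at ht
  have hct : ∀ a ∈ g4 H, a ∈ center H := by
    intro a ha
    rw [hg] at ha
    exact (zpowers_le.2 hc) ha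
  have hex : ∀ a ∈ g4 H, ∃ n : ℕ, a = t ^ n := by
    intro a ha
    rw [hg] at ha
    obtain ⟨k, rfl⟩ := mem_zpowers_iff.1 ha
    rcases Int.even_or_odd' k with ⟨q, rfl | rfl⟩
    · exact ⟨0, by rw [zpow_mul, zpow_ofNat, t2, one_zpow, pow_zero]⟩
    · exact ⟨1, by rw [zpow_add, zpow_mul, zpow_ofNat, t2, one_zpow, one_mul, zpow_one, pow_one]⟩
  have h3c : ∀ c ∈ g3 H, ∀ v ∈ commutator H, v * c = c * v := by
    intro c hc' v hv
    exact commutatorElement_eq_one_iff_mul_comm.1
      (comm_hom_of_central (fun g => hct _ (comm_mem' hc')) v hv)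
  have hab : ∀ a ∈ commutator H, ∀ b ∈ commutator H, Commute a b := by
    intro a ha b hb
    obtain ⟨a1, ha1, c, hc1, rfl⟩ := mem_sup_of_normal_right.1 (gam_le h0 ha)
    obtain ⟨k, rfl⟩ := mem_zpowers_iff.1 ha1
    obtain ⟨b1, hb1, e, he1, rfl⟩ := mem_sup_of_normal_right.1 (gam_le h0 hb)
    obtain ⟨l, rfl⟩ := mem_zpowers_iff.1 hb1
    have hzk : ∀ k : ℤ, ⁅y, x⁆ ^ k ∈ commutator H := fun k => zpow_mem (comm_mem y x) k
    apply Commute.mul_left
    · apply Commute.mul_right
      · exact (Commute.refl ⁅y, x⁆).zpow_zpow k l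
      · exact h3c e he1 _ (hzk k)
    · apply Commute.mul_right
      · exact (h3c c hc1 _ (hzk l)).symm
      · exact h3c e he1 _ (g3_le hc1)
  set z := ⁅y, x⁆ with hz
  have hzm : z ∈ commutator H := comm_mem y x
  set u := ⁅x, z⁆ with hu
  set v := ⁅y, z⁆ with hv
  have hum : u ∈ g3 H := comm_mem' hzm
  have hvm : v ∈ g3 H := comm_mem' hzm
  have hsq1 : ∀ g : H, ⁅g, z⁆ ^ 2 = 1 := by
    intro g
    have h1 : ⁅g, z ^ 2⁆ = 1 :=
      commutatorElement_eq_one_iff_mul_comm.2 (mem_center_iff.1 (hct _ (hsq z hzm)) g)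
    have h2 : ⁅g, z ^ 2⁆ = ⁅g, z⁆ * (z * ⁅g, z⁆ * z⁻¹) := by
      rw [pow_two]; simp only [commutatorElement_def]; group
    have h3 : z * ⁅g, z⁆ = ⁅g, z⁆ * z := (hab _ hzm _ (comm_mem g z)).eq
    rw [h2, h3, mul_inv_cancel_right] at h1
    rw [pow_two]; exact h1
  obtain ⟨A, hA⟩ := hex _ (comm_mem' (g := x) hum)
  obtain ⟨B, hB⟩ := hex _ (comm_mem' (g := y) hum)
  obtain ⟨C, hC⟩ := hex _ (comm_mem' (g := y) hvm)
  obtain ⟨ζ, hζ⟩ := hex _ (hsq z hzm)
  have hcc : ⁅x, v⁆ = ⁅y, u⁆ := by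
    have hcx : ⁅x, v⁆ ∈ center H := hct _ (comm_mem' hvm)
    have hcy : ⁅y, u⁆ ∈ center H := hct _ (comm_mem' hum)
    have e1 : x * (y * z * y⁻¹) * x⁻¹ = ⁅x, v⁆ * (v * (u * z)) := by
      calc x * (y * z * y⁻¹) * x⁻¹ = x * (v * z) * x⁻¹ := by rw [conj_eq y z]
        _ = (x * v * x⁻¹) * (x * z * x⁻¹) := by group
        _ = ⁅x, v⁆ * (v * (u * z)) := by rw [conj_eq x v, conj_eq x z, mul_assoc]
    have e2 : y * (x * z * x⁻¹) * y⁻¹ = ⁅y, u⁆ * (u * (v * z)) := by
      calc y * (x * z * x⁻¹) * y⁻¹ = y * (u * z) * y⁻¹ := by rw [conj_eq x z]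
        _ = (y * u * y⁻¹) * (y * z * y⁻¹) := by group
        _ = ⁅y, u⁆ * (u * (v * z)) := by rw [conj_eq y u, conj_eq y z, mul_assoc]
    have e3 : x * (y * z * y⁻¹) * x⁻¹ = y * (x * z * x⁻¹) * y⁻¹ := by
      have hw : Commute ⁅x⁻¹, y⁻¹⁆ z := hab _ (comm_mem _ _) _ hzm
      have e4 : x * (y * z * y⁻¹) * x⁻¹ =
          y * (x * (⁅x⁻¹, y⁻¹⁆ * z * ⁅x⁻¹, y⁻¹⁆⁻¹) * x⁻¹) * y⁻¹ := by
        simp only [commutatorElement_def]; group
      rw [e4, hw.eq, mul_inv_cancel_right]
    rw [e1, e2] at e3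
    have e5 : v * (u * z) = u * (v * z) := by
      rw [← mul_assoc, ← mul_assoc, (hab _ (g3_le hvm) _ (g3_le hum)).eq]
    rw [e5] at e3
    exact mul_right_cancel e3
  refine ⟨A, B, C, ζ, ?_⟩
  exact
    { gen := h0
      yx := conj_eq y x
      xz := conj_eq x z
      yz := conj_eq y z
      xu := by rw [conj_eq, hA]
      yu := by rw [conj_eq, hB]
      xv := by rw [conj_eq, hcc, hB]
      yv := by rw [conj_eq, hC]
      c4 := ⟨fun g => mem_center_iff.1 hc g, hab _ hzm _ (g3_le hum), hab _ hzm _ (g3_le hvm),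
        hab _ (g3_le hum) _ (g3_le hvm)⟩
      z2 := hζ
      u2 := hsq1 x
      v2 := hsq1 y
      t2 := t2
      t1 := t1
      tm := g3_le (g4_le (hg ▸ mem_zpowers t))
      um := g3_le hum
      vm := g3_le hvm }

end rel

section claim3

variable {G : Type} [Group G] [Finite G]

theorem claim3 (hG : IsPGroup 2 G) (hP : P G 2) {x₀ y₀ : G} (h0 : Gen2 x₀ y₀)
    (hsq : ∀ v ∈ commutator G, v ^ 2 ∈ g4 G) : g4 G = ⊥ := by
  have : Fact (Nat.Prime 2) := ⟨Nat.prime_two⟩
  have hnil : Group.IsNilpotent G := hG.isNilpotent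
  by_contra h4
  have hlt : g5 G < g4 G := lt_of_le_of_ne g5_le fun h => h4 (nil_bot h.ge)
  obtain ⟨N, hN, h5N, hN4, t, ht4, htN, htp, hle⟩ := exists_N hG (A := g5 G) (B := g4 G) le_rfl hlt
  have hNc : N ≤ commutator G := hN4.trans (g4_le.trans g3_le)
  have hPQ : P (G ⧸ N) 2 := P_quot hG hP N hNc
  have hord : orderOf (QuotientGroup.mk' N t) = 2 := by
    apply orderOf_eq_prime
    · rw [← map_pow]; exact mk_eq_one.2 htp
    · intro h; exact htN (mk_eq_one.1 h)
  have hg : g4 (G ⧸ N) = zpowers (QuotientGroup.mk' N t) := by rw [← map_g4, map_eq_zpowers ht4 hle]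
  obtain ⟨A, B, C, ζ, R⟩ := exists_rel (gen2_map N h0) hord (mk_central h5N ht4) hg (by
    intro w hw
    rw [← map_comm_mk] at hw
    obtain ⟨w, hw, rfl⟩ := hw
    rw [← map_pow, ← map_g4]
    exact ⟨_, hsq w hw, rfl⟩)
  exact no_rel hPQ (no_zero hg) R

end claim3

end Pool.Agent.Q89.AC
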