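import Pool.Agent.Q89.AC1

/-! Groups of class two: the sufficiency of the condition on the classes. -/

set_option autoImplicit false

namespace Pool.Agent.Q89.AC

open Subgroup
open scoped commutatorElement IsMulCommutative

/-- central automorphisms -/
theorem central_aut {G : Type} [Group G] [Finite G] (f : G →* center G)
    (h : ∀ g, IsConj g ((f g : G) * g)) : ∃ α : MulAut G, CP α ∧ ∀ g, α g = (f g : G) * g := by
  let a : G →* G := MonoidHom.mk' (fun g => (f g : G) * g) (by
    intro x y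
    have h1 : ∀ z : G, z * (f y : G) = (f y : G) * z := fun z => mem_center_iff.1 (f y).2 z
    calc (f (x * y) : G) * (x * y) = ((f x : G) * (f y : G)) * (x * y) := by
          rw [map_mul]; rfl
      _ = (f x : G) * ((f y : G) * x) * y := by group
      _ = (f x : G) * (x * (f y : G)) * y := by rw [h1 x]
      _ = (f x : G) * x * ((f y : G) * y) := by group)
  have ha : ∀ g, a g = (f g : G) * g := fun g => rfl
  have hinj : Function.Injective a := by
    rw [injective_iff_map_eq_one]
    intro g hg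
    have h1 := h g
    rw [← ha, hg] at h1
    exact isConj_one_left.1 h1
  have hbij : Function.Bijective a := ⟨hinj, Finite.injective_iff_surjective.1 hinj⟩
  exact ⟨MulEquiv.ofBijective a hbij, h, ha⟩

theorem dec {p : ℕ} [Fact p.Prime] {d : ℕ} {n : Fin d → ℤ} (hn : n ≠ 0) :
    ∃ (j : ℕ) (n' : Fin d → ℤ), (∀ i, n i = n' i * (p : ℤ) ^ j) ∧ ∃ i, ¬ (p : ℤ) ∣ n' i := by
  classical
  have hp : p.Prime := Fact.out
  have hex : ∃ k : ℕ, ¬ ∀ i, (p : ℤ) ^ k ∣ n i := by
    obtain ⟨i, hi⟩ := Function.ne_iff.1 hn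
    refine ⟨(n i).natAbs, fun h => ?_⟩
    have h1 := Int.natAbs_dvd_natAbs.2 (h i)
    rw [Int.natAbs_pow, Int.natAbs_natCast] at h1
    have h2 := Nat.le_of_dvd (Int.natAbs_pos.2 hi) h1
    have h3 := Nat.lt_pow_self (n := (n i).natAbs) hp.one_lt
    omega
  have hk := Nat.find_spec hex
  have hk0 : Nat.find hex ≠ 0 := by
    intro h0
    rw [h0] at hk
    exact hk fun i => by simp
  obtain ⟨j, hj⟩ := Nat.exists_eq_succ_of_ne_zero hk0
  have hmin : ∀ i, (p : ℤ) ^ j ∣ n i := by
    by_contra hcon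
    exact Nat.find_min hex (by rw [hj]; exact Nat.lt_succ_self j) hcon
  choose n' hn' using hmin
  refine ⟨j, n', fun i => by rw [hn' i, mul_comm], ?_⟩
  by_contra hcon
  push Not at hcon
  apply hk
  intro i
  rw [hj, pow_succ, hn' i]
  exact mul_dvd_mul_left _ (hcon i)

/-- the homomorphism given by the images of the standard generators -/
def ev (A : Type) [CommGroup A] {d : ℕ} (a : Fin d → A) : (Fin d → Multiplicative ℤ) →* A where
  toFun n := ∏ i, a i ^ (n i).toAdd
  map_one' := by simp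
  map_mul' m n := by simp only [Pi.mul_apply, toAdd_mul, zpow_add, Finset.prod_mul_distrib]

theorem A_P {G : Type} [Group G] [Finite G] {p : ℕ} [Fact p.Prime] (hG : IsPGroup p G) {d : ℕ}
    (hM : Min G d) (hcl : g3 G = ⊥)
    (hcon : ∀ x, x ∉ frattini G → ∀ c ∈ commutator G, IsConj x (c * x)) : P G d := by
  classical
  have hp : p.Prime := Fact.out
  intro x hx c hc
  have hcen : ∀ v ∈ commutator G, v ∈ center G := by
    intro v hv
    rw [mem_center_iff]
    intro g
    have h1 : ⁅g, v⁆ ∈ g3 G := comm_mem' hv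
    rw [hcl, mem_bot] at h1
    exact commutatorElement_eq_one_iff_mul_comm.1 h1
  -- the two homomorphisms
  let cz : Fin d → center G := fun i => ⟨c i, hcen _ (hc i)⟩
  let ψ : (Fin d → Multiplicative ℤ) →* Abelianization G :=
    ev (Abelianization G) fun i => Abelianization.of (x i)
  let φ : (Fin d → Multiplicative ℤ) →* center G := ev (center G) cz
  have hψ : ∀ n, ψ n = ∏ i, Abelianization.of (x i) ^ (n i).toAdd := fun n => rfl
  have hφ : ∀ n, φ n = ∏ i, (⟨c i, hcen _ (hc i)⟩ : center G) ^ (n i).toAdd := fun n => rfl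
  have hψs : ∀ i, ψ (Pi.mulSingle i (Multiplicative.ofAdd 1)) = Abelianization.of (x i) := by
    intro i
    rw [hψ, Finset.prod_eq_single i]
    · rw [Pi.mulSingle_eq_same]; simp
    · intro j _ hj
      rw [Pi.mulSingle_eq_of_ne hj]; simp
    · intro h; exact absurd (Finset.mem_univ _) h
  have hφs : ∀ i, φ (Pi.mulSingle i (Multiplicative.ofAdd 1)) = ⟨c i, hcen _ (hc i)⟩ := by
    intro i
    rw [hφ, Finset.prod_eq_single i]
    · rw [Pi.mulSingle_eq_same]; simp
    · intro j _ hj
      rw [Pi.mulSingle_eq_of_ne hj]; simp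
    · intro h; exact absurd (Finset.mem_univ _) h
  -- the elements
  let y : (Fin d → ℤ) → G := fun n => (List.ofFn fun i => x i ^ n i).prod
  have hof : ∀ {A : Type} [CommGroup A] (χ : G →* A) (n : Fin d → ℤ),
      χ (y n) = ∏ i, χ (x i) ^ n i := by
    intro A _ χ n
    show χ (List.ofFn fun i => x i ^ n i).prod = _
    rw [map_list_prod, List.map_ofFn, List.prod_ofFn]
    apply Finset.prod_congr rfl
    intro i _
    simp
  have hpow : ∀ {A : Type} [CommGroup A] (a : Fin d → A) (n : Fin d → ℤ) (j : ℕ),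
      ∏ i, a i ^ (n i * (p : ℤ) ^ j) = (∏ i, a i ^ n i) ^ (p ^ j) := by
    intro A _ a n j
    rw [← Finset.prod_pow]
    apply Finset.prod_congr rfl
    intro i _
    rw [zpow_mul, ← Int.natCast_pow, zpow_natCast]
  have hyΦ : ∀ n : Fin d → ℤ, (∃ i, ¬ (p : ℤ) ∣ n i) → y n ∉ frattini G := by
    rintro n ⟨i, hi⟩ hmem
    obtain ⟨χ, h1, h2, h3⟩ := exists_dual hG hM hx i
    have h4 := hof χ n
    rw [h1 _ hmem, Finset.prod_eq_single i] at h4
    · have h5 : (n i : ZMod p) * (χ (x i)).toAdd = 0 := by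
        have h6 := congrArg Multiplicative.toAdd h4
        rw [toAdd_one, toAdd_zpow, zsmul_eq_mul] at h6
        exact h6.symm
      rcases mul_eq_zero.1 h5 with h6 | h6
      · exact hi ((ZMod.intCast_zmod_eq_zero_iff_dvd _ _).1 h6)
      · exact h3 h6
    · intro k _ hk
      rw [h2 k hk, one_zpow]
    · intro h; exact absurd (Finset.mem_univ _) h
  have hofG : ∀ g : G, Abelianization.of g = 1 ↔ g ∈ commutator G := by
    intro g
    rw [← MonoidHom.mem_ker, Abelianization.ker_of]
  have hsurj : Function.Surjective ψ := by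
    intro a
    obtain ⟨g, rfl⟩ := QuotientGroup.mk'_surjective _ a
    have h1 : closure (Set.range x) ≤ ψ.range.comap Abelianization.of := by
      rw [closure_le]
      rintro _ ⟨i, rfl⟩
      exact ⟨_, hψs i⟩
    exact h1 (hx ▸ mem_top g : g ∈ closure (Set.range x))
  have hker : ψ.ker ≤ φ.ker := by
    intro n hn
    rw [MonoidHom.mem_ker] at hn ⊢
    by_cases hn0 : (fun i => (n i).toAdd) = 0
    · rw [hφ]
      apply Finset.prod_eq_one
      intro i _
      have h1 : (n i).toAdd = 0 := congrFun hn0 i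
      rw [h1, zpow_zero]
    obtain ⟨j, n', h1, h2⟩ := dec (p := p) hn0
    have hw := hyΦ n' h2
    have h3 : (y n') ^ (p ^ j) ∈ commutator G := by
      rw [← hofG, map_pow, hof, ← hpow, ← hn, hψ]
      apply Finset.prod_congr rfl
      intro i _
      rw [← h1 i]
    rw [hφ]
    have h4 : ∏ i, (⟨c i, hcen _ (hc i)⟩ : center G) ^ (n i).toAdd =
        (∏ i, (⟨c i, hcen _ (hc i)⟩ : center G) ^ n' i) ^ (p ^ j) := by
      rw [← hpow]
      apply Finset.prod_congr rfl
      intro i _
      rw [← h1 i]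
    rw [h4]
    set cc := ∏ i, (⟨c i, hcen _ (hc i)⟩ : center G) ^ n' i with hcc
    have hccm : (cc : G) ∈ commutator G := by
      have h5 : cc ∈ (commutator G).subgroupOf (center G) := by
        apply Subgroup.prod_mem
        intro i _
        apply Subgroup.zpow_mem
        exact hc i
      exact h5
    obtain ⟨h, hh⟩ := isConj_iff.1 (hcon _ hw cc hccm)
    have h5 : h * (y n') ^ (p ^ j) * h⁻¹ = (cc : G) ^ (p ^ j) * (y n') ^ (p ^ j) := by
      rw [← conj_pow, hh]
      have hcm : Commute (cc : G) (y n') := (mem_center_iff.1 cc.2 _).symm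
      exact hcm.mul_pow _
    have h6 : h * (y n') ^ (p ^ j) * h⁻¹ = (y n') ^ (p ^ j) := by
      rw [mem_center_iff.1 (hcen _ h3) h]; group
    rw [h6] at h5
    apply Subtype.ext
    exact (mul_eq_right.1 h5.symm)
  let f : G →* center G := (ψ.liftOfSurjective hsurj ⟨φ, hker⟩).comp Abelianization.of
  have hfψ : ∀ g n, Abelianization.of g = ψ n → f g = φ n := by
    intro g n h
    show (ψ.liftOfSurjective hsurj ⟨φ, hker⟩) (Abelianization.of g) = φ n
    rw [h]
    exact MonoidHom.liftOfRightInverse_comp_apply _ _ _ _ _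
  have hfx : ∀ i, (f (x i) : G) = c i := by
    intro i
    rw [hfψ (x i) _ (hψs i).symm, hφs]
  have hfm : ∀ g, (f g : G) ∈ commutator G := by
    intro g
    have h1 : closure (Set.range x) ≤ ((commutator G).subgroupOf (center G)).comap f := by
      rw [closure_le]
      rintro _ ⟨i, rfl⟩
      show (f (x i) : G) ∈ commutator G
      rw [hfx]; exact hc i
    exact h1 (hx ▸ mem_top g : g ∈ closure (Set.range x))
  have hf1 : ∀ v ∈ commutator G, f v = 1 := by
    intro v hv
    rw [hfψ v 1 (by rw [map_one, hofG]; exact hv), map_one]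
  have hcp : ∀ g, IsConj g ((f g : G) * g) := by
    intro g
    obtain ⟨n, hn⟩ := hsurj (Abelianization.of g)
    by_cases hn0 : (fun i => (n i).toAdd) = 0
    · have h1 : n = 1 := by
        funext i
        exact congrFun hn0 i
      have e : (f g : G) = 1 := by rw [hfψ g n hn.symm, h1, map_one]; rfl
      rw [e, one_mul]
    obtain ⟨j, n', h1, h2⟩ := dec (p := p) hn0
    have hw := hyΦ n' h2
    set w := y n' with hwdef
    have h3 : Abelianization.of (w ^ (p ^ j)) = Abelianization.of g := by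
      rw [map_pow, hof, ← hpow, ← hn, hψ]
      apply Finset.prod_congr rfl
      intro i _
      rw [← h1 i]
    have h4 : g * (w ^ (p ^ j))⁻¹ ∈ commutator G := by
      rw [← hofG, map_mul, map_inv, h3, mul_inv_cancel]
    obtain ⟨s, hs⟩ : ∃ s, s = g * (w ^ (p ^ j))⁻¹ := ⟨_, rfl⟩
    rw [← hs] at h4
    have hg : g = s * w ^ (p ^ j) := by rw [hs]; group
    have hfg : f g = f w ^ (p ^ j) := by
      rw [hg, map_mul, hf1 s h4, one_mul, map_pow]
    obtain ⟨h, hh⟩ := isConj_iff.1 (hcon w hw (f w) (hfm w))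
    rw [isConj_iff]
    refine ⟨h, ?_⟩
    have h5 : h * w ^ (p ^ j) * h⁻¹ = (f w : G) ^ (p ^ j) * w ^ (p ^ j) := by
      rw [← conj_pow, hh]
      have hcm : Commute (f w : G) w := (mem_center_iff.1 (f w).2 _).symm
      exact hcm.mul_pow _
    have h6 : h * s = s * h := mem_center_iff.1 (hcen s h4) h
    have h7 : s * (f w : G) ^ (p ^ j) = (f w : G) ^ (p ^ j) * s :=
      (mem_center_iff.1 (hcen s h4) _).symm
    rw [hfg]
    show h * g * h⁻¹ = (f w : G) ^ (p ^ j) * g
    calc h * g * h⁻¹ = h * s * w ^ (p ^ j) * h⁻¹ := by rw [hg]; group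
      _ = s * (h * w ^ (p ^ j) * h⁻¹) := by rw [h6]; group
      _ = s * (f w : G) ^ (p ^ j) * w ^ (p ^ j) := by rw [h5, mul_assoc]
      _ = (f w : G) ^ (p ^ j) * g := by rw [h7, mul_assoc, ← hg]
  obtain ⟨α, hα, h1⟩ := central_aut f hcp
  exact ⟨α, hα, fun i => by rw [h1, hfx]⟩

end Pool.Agent.Q89.AC
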