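import Pool.Agent.Q89.AC6
import Pool.Agent.Q89.AC7

/-! The sufficiency of the conditions for two generators. -/

set_option autoImplicit false

namespace Pool.Agent.Q89.AC

open Subgroup Finset
open scoped commutatorElement

/-! ### number theory -/

/-- `1 + a + ... + a^(n-1)` -/
def sm (a : ℤ) (n : ℕ) : ℤ := ∑ i ∈ range n, a ^ i

theorem sm_succ (a : ℤ) (n : ℕ) : sm a (n + 1) = a * sm a n + 1 := by
  unfold sm
  rw [sum_range_succ', mul_sum]
  simp [pow_succ']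

theorem sm_mul (a : ℤ) (n : ℕ) : (a - 1) * sm a n = a ^ n - 1 := by
  unfold sm
  rw [mul_comm]
  exact geom_sum_mul a n

theorem sm_one (n : ℕ) : sm 1 n = n := by simp [sm]

theorem sm_prime {p : ℕ} (hp : p.Prime) {b : ℤ} (h1 : (p : ℤ) ∣ b - 1) (h2 : p = 2 → (4 : ℤ) ∣ b - 1) :
    ∃ t : ℤ, sm b p = p * t ∧ ¬ (p : ℤ) ∣ t := by
  rcases hp.eq_two_or_odd' with rfl | hodd
  · obtain ⟨w, hw⟩ := h2 rfl
    have hb : b = 1 + 4 * w := by linarith
    refine ⟨1 + 2 * w, ?_, ?_⟩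
    · simp [sm, sum_range_succ, hb]; ring
    · omega
  · obtain ⟨w, hw⟩ := h1
    have hb : b = 1 + p * w := by linarith
    have h3 := odd_sq_dvd_geom_sum₂_sub (R := ℤ) (p := p) (a := 1) (b := w) hodd
    simp only [one_pow, mul_one] at h3
    rw [← hb] at h3
    obtain ⟨q, hq⟩ := h3
    have hp0 : (p : ℤ) ≠ 0 := by exact_mod_cast hp.ne_zero
    refine ⟨1 + p * q, ?_, ?_⟩
    · unfold sm
      linear_combination hq
    · rintro ⟨r, hr⟩
      have h4 : (p : ℤ) ∣ 1 := ⟨r - q, by linear_combination hr⟩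
      have h5 : p ∣ 1 := by exact_mod_cast h4
      exact hp.one_lt.ne' (Nat.dvd_one.1 h5)

theorem dvd_pow_sub_one {m a : ℤ} (h : m ∣ a - 1) (n : ℕ) : m ∣ a ^ n - 1 := by
  rw [← sm_mul]; exact Dvd.dvd.mul_right h _

theorem sm_mod {m a : ℤ} (h : m ∣ a - 1) (n : ℕ) : m ∣ sm a n - n := by
  unfold sm
  have : (∑ i ∈ range n, a ^ i) - (n : ℤ) = ∑ i ∈ range n, (a ^ i - 1) := by
    rw [sum_sub_distrib]; simp
  rw [this]
  exact dvd_sum fun i _ => dvd_pow_sub_one h i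

theorem nt {p : ℕ} (hp : p.Prime) {a : ℤ} (h1 : (p : ℤ) ∣ a - 1) (h2 : p = 2 → (4 : ℤ) ∣ a - 1) :
    ∀ m n : ℕ, (p : ℤ) ^ m ∣ sm a n → p ^ m ∣ n := by
  intro m
  induction m with
  | zero => intro n _; simp
  | succ m ih =>
    intro n hn
    by_cases ha : a = 1
    · rw [ha, sm_one] at hn
      exact_mod_cast hn
    have hpn : (p : ℤ) ∣ n := by
      have h3 : (p : ℤ) ∣ sm a n := (dvd_pow_self _ (Nat.succ_ne_zero m)).trans hn
      have h4 := dvd_sub h3 (sm_mod h1 n)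
      simpa using h4
    obtain ⟨n', rfl⟩ : p ∣ n := by exact_mod_cast hpn
    obtain ⟨t, ht, htp⟩ := sm_prime hp (dvd_pow_sub_one h1 n') fun h => dvd_pow_sub_one (h2 h) n'
    have h5 : sm a (p * n') = sm a n' * sm (a ^ n') p := by
      have h6 : (a - 1) * sm a (p * n') = (a - 1) * (sm a n' * sm (a ^ n') p) := by
        rw [← mul_assoc, sm_mul, sm_mul, sm_mul, ← pow_mul, mul_comm p]
      exact mul_left_cancel₀ (sub_ne_zero.2 ha) h6
    rw [h5, ht, pow_succ] at hn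
    have hp0 : (p : ℤ) ≠ 0 := by exact_mod_cast hp.ne_zero
    have h6 : (p : ℤ) ^ m ∣ sm a n' * t := by
      obtain ⟨r, hr⟩ := hn
      refine ⟨r, mul_right_cancel₀ hp0 ?_⟩
      linear_combination hr
    have h7 : IsCoprime ((p : ℤ) ^ m) t := by
      apply IsCoprime.pow_left
      exact (Prime.coprime_iff_not_dvd (Nat.prime_iff_prime_int.1 hp)).2 htp
    have h8 := ih n' (h7.dvd_of_dvd_mul_right h6)
    rw [pow_succ, mul_comm]
    exact Nat.mul_dvd_mul_left p h8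

/-! ### cyclic commutator subgroup -/

section cyc

variable {G : Type} [Group G] [Finite G] {p : ℕ} [Fact p.Prime]

omit [Finite G] in
theorem P_of_two (h : ∀ x y : G, Gen2 x y → ∀ c₁ ∈ commutator G, ∀ c₂ ∈ commutator G,
    ∃ α : MulAut G, CP α ∧ α x = c₁ * x ∧ α y = c₂ * y) : P G 2 := by
  intro x hx c hc
  have hr : Set.range x = {x 0, x 1} := by
    ext g
    constructor
    · rintro ⟨i, rfl⟩; fin_cases i <;> simp
    · rintro (rfl | rfl)
      · exact ⟨0, rfl⟩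
      · exact ⟨1, rfl⟩
  obtain ⟨α, hα, h1, h2⟩ := h (x 0) (x 1) (by rw [Gen2, ← hr]; exact hx) (c 0) (hc 0) (c 1) (hc 1)
  refine ⟨α, hα, fun i => ?_⟩
  fin_cases i
  · exact h1
  · exact h2

theorem B0 (hG : IsPGroup p G) {x y : G} (h : Gen2 x y) (hcyc : IsCyclic (commutator G))
    (h4 : p = 2 → ∀ v ∈ g3 G, ∃ w ∈ commutator G, v = w ^ 4) {c : G} (hc : c ∈ commutator G) :
    ∃ k : ℕ, y ^ k * x * (y ^ k)⁻¹ = c * x := by
  have hp : p.Prime := Fact.out
  have hnil : Group.IsNilpotent G := hG.isNilpotent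
  by_cases hΓ : commutator G = ⊥
  · rw [hΓ, mem_bot] at hc
    exact ⟨0, by rw [hc]; simp⟩
  obtain ⟨⟨e, he⟩, heg⟩ := isCyclic_iff_exists_zpowers_eq_top.1 hcyc
  have heg' : ∀ w ∈ commutator G, ∃ k : ℤ, e ^ k = w := by
    intro w hw
    have h1 : (⟨w, hw⟩ : commutator G) ∈ zpowers (⟨e, he⟩ : commutator G) := by
      rw [heg]; exact mem_top _
    obtain ⟨k, hk⟩ := mem_zpowers_iff.1 h1
    exact ⟨k, congrArg Subtype.val hk⟩
  have h3 : ∀ k : ℤ, e ^ k ∈ g3 G → (p : ℤ) ∣ k := by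
    intro k hk
    by_contra hpk
    have h5 : e ∈ g3 G := mem_of_pow' hG hk hpk
    apply hΓ
    apply gam_bot
    intro w hw
    obtain ⟨k, rfl⟩ := heg' w hw
    exact zpow_mem h5 k
  set z := ⁅y, x⁆ with hz
  have hzm : z ∈ commutator G := comm_mem y x
  obtain ⟨k, hk⟩ := heg' z hzm
  have hpk : ¬ (p : ℤ) ∣ k := by
    rintro ⟨q, rfl⟩
    have h5 : commutator G ≤ zpowers (e ^ p) := by
      refine (gam_le h).trans (sup_le ?_ ?_)
      · rw [zpowers_le, ← hz, ← hk, zpow_mul, zpow_natCast]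
        exact zpow_mem (mem_zpowers _) q
      · intro w hw
        obtain ⟨l, rfl⟩ := heg' w (g3_le hw)
        obtain ⟨l, rfl⟩ := h3 l hw
        rw [zpow_mul, zpow_natCast]
        exact zpow_mem (mem_zpowers _) l
    obtain ⟨q, hq⟩ := mem_zpowers_iff.1 (h5 he)
    have h6 : e ^ ((p : ℤ) * q - 1) = 1 := by
      rw [zpow_sub, zpow_mul, zpow_natCast, hq, zpow_one, mul_inv_cancel]
    have h7 : e ∈ (⊥ : Subgroup G) := by
      apply mem_of_pow' hG (n := (p : ℤ) * q - 1)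
      · rw [h6]; exact one_mem _
      · rintro ⟨r, hr⟩
        have h8 : (p : ℤ) ∣ 1 := ⟨q - r, by linear_combination -hr⟩
        have h9 : p ∣ 1 := by exact_mod_cast h8
        exact hp.one_lt.ne' (Nat.dvd_one.1 h9)
    apply hΓ
    rw [eq_bot_iff]
    intro w hw
    obtain ⟨k, rfl⟩ := heg' w hw
    exact zpow_mem h7 k
  have hez : e ∈ zpowers z := by
    apply mem_of_pow' hG (n := k) _ hpk
    rw [hk]; exact mem_zpowers z
  have hzg : ∀ w ∈ commutator G, ∃ k : ℤ, z ^ k = w := by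
    intro w hw
    obtain ⟨k, rfl⟩ := heg' w hw
    exact mem_zpowers_iff.1 (zpow_mem hez k)
  -- the action of `y`
  obtain ⟨b, hb⟩ : ∃ b : ℤ, ⁅y, z⁆ = z ^ b ∧ (p : ℤ) ∣ b ∧ (p = 2 → (4 : ℤ) ∣ b) := by
    have hyz : ⁅y, z⁆ ∈ g3 G := comm_mem' hzm
    by_cases hp2 : p = 2
    · obtain ⟨w, hw, hw4⟩ := h4 hp2 _ hyz
      obtain ⟨l, rfl⟩ := hzg w hw
      refine ⟨4 * l, ?_, ?_, fun _ => ⟨l, rfl⟩⟩
      · rw [hw4, mul_comm, zpow_mul, zpow_ofNat]
      · rw [hp2]; exact ⟨2 * l, by push_cast; ring⟩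
    · obtain ⟨l, hl⟩ := hzg _ (g3_le hyz)
      refine ⟨l, hl.symm, ?_, fun h => absurd h hp2⟩
      by_contra hpl
      have h5 : z ∈ g3 G := mem_of_pow' hG (n := l) (by rw [hl]; exact hyz) hpl
      apply hΓ
      apply gam_bot
      intro w hw
      obtain ⟨k, rfl⟩ := hzg w hw
      exact zpow_mem h5 k
  obtain ⟨hb1, hb2, hb3⟩ := hb
  obtain ⟨a, ha⟩ : ∃ a : ℤ, a = b + 1 := ⟨_, rfl⟩
  have hyz : y * z * y⁻¹ = z ^ a := by
    rw [conj_eq, hb1, ha, zpow_add, zpow_one]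
  have ha1 : (p : ℤ) ∣ a - 1 := by rw [ha]; simpa using hb2
  have ha2 : p = 2 → (4 : ℤ) ∣ a - 1 := by
    intro h; rw [ha]; simpa using hb3 h
  have hform : ∀ k : ℕ, y ^ k * x * (y ^ k)⁻¹ = z ^ (sm a k) * x := by
    intro k
    induction k with
    | zero => simp [sm]
    | succ k ih =>
      calc y ^ (k + 1) * x * (y ^ (k + 1))⁻¹ = y * (y ^ k * x * (y ^ k)⁻¹) * y⁻¹ := by
            rw [pow_succ']; group
        _ = (y * z ^ (sm a k) * y⁻¹) * (y * x * y⁻¹) := by rw [ih]; group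
        _ = (z ^ a) ^ (sm a k) * (z * x) := by rw [← conj_zpow, hyz, conj_eq y x]
        _ = z ^ (sm a (k + 1)) * x := by
            rw [sm_succ, zpow_add, zpow_mul, zpow_one, mul_assoc]
  -- injectivity
  obtain ⟨m, hm⟩ := IsPGroup.iff_orderOf.1 hG z
  have hcop : IsCoprime ((p : ℤ) ^ m) a := by
    apply IsCoprime.pow_left
    obtain ⟨q, hq⟩ := ha1
    exact ⟨-q, 1, by linear_combination hq⟩
  have hinj : Function.Injective (fun k : Fin (p ^ m) =>
      (⟨z ^ (sm a k), zpow_mem hzm _⟩ : commutator G)) := by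
    have key : ∀ k l : ℕ, k < l → l < p ^ m → z ^ (sm a k) ≠ z ^ (sm a l) := by
      intro k l hkl hl heq
      have h5 : z ^ (sm a l - sm a k) = 1 := by rw [zpow_sub, heq, mul_inv_cancel]
      have h6 : ((p : ℤ) ^ m) ∣ sm a l - sm a k := by
        rw [← Int.natCast_pow, ← hm]
        exact orderOf_dvd_iff_zpow_eq_one.2 h5
      have h7 : sm a l - sm a k = a ^ k * sm a (l - k) := by
        obtain ⟨r, rfl⟩ := Nat.exists_eq_add_of_lt hkl
        have e : k + r + 1 - k = r + 1 := by omega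
        rw [e]
        unfold sm
        rw [add_assoc, sum_range_add, mul_sum]
        have : ∑ x ∈ range (r + 1), a ^ (k + x) = ∑ i ∈ range (r + 1), a ^ k * a ^ i :=
          sum_congr rfl fun i _ => pow_add a k i
        rw [this]; ring
      rw [h7] at h6
      have h8 := nt hp ha1 ha2 m (l - k) ((hcop.pow_right (n := k)).dvd_of_dvd_mul_left h6)
      have h9 := Nat.le_of_dvd (by omega) h8
      omega
    intro k l hkl
    have h5 : z ^ (sm a k) = z ^ (sm a l) := congrArg Subtype.val hkl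
    apply Fin.ext
    rcases lt_trichotomy k.val l.val with h6 | h6 | h6
    · exact absurd h5 (key _ _ h6 l.2)
    · exact h6
    · exact absurd h5.symm (key _ _ h6 k.2)
  have hcard : Nat.card (commutator G) = p ^ m := by
    have h5 : commutator G = zpowers z := by
      apply le_antisymm
      · intro w hw
        exact mem_zpowers_iff.2 (hzg w hw)
      · rw [zpowers_le]; exact hzm
    rw [h5, Nat.card_zpowers, hm]
  have hbij := hinj.bijective_of_nat_card_le (by rw [hcard]; simp)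
  obtain ⟨k, hk⟩ := hbij.2 ⟨c, hc⟩
  refine ⟨k, ?_⟩
  rw [hform]
  have h5 : z ^ (sm a k) = c := congrArg Subtype.val hk
  rw [h5]

theorem gen2_conj {x y x' : G} (h : Gen2 x y) (g : G) (hx : g * x * g⁻¹ = x') (hy : g * y * g⁻¹ = y) :
    Gen2 x' y := by
  have h1 : (closure {x, y}).map (MulAut.conj g).toMonoidHom = closure {x', y} := by
    have e1 : (MulAut.conj g).toMonoidHom x = x' := hx
    have e2 : (MulAut.conj g).toMonoidHom y = y := hy
    rw [MonoidHom.map_closure, Set.image_pair, e1, e2]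
  rw [Gen2, ← h1, show closure {x, y} = ⊤ from h]
  exact Subgroup.map_top_of_surjective _ (MulAut.conj g).surjective

theorem B_P (hG : IsPGroup p G) (hcyc : IsCyclic (commutator G))
    (h4 : p = 2 → ∀ v ∈ g3 G, ∃ w ∈ commutator G, v = w ^ 4) : P G 2 := by
  apply P_of_two
  intro x y h c₁ hc₁ c₂ hc₂
  obtain ⟨k, hk⟩ := B0 hG h hcyc h4 hc₁
  have hyk : y ^ k * y * (y ^ k)⁻¹ = y := by
    rw [← pow_succ, pow_succ']; group
  have h' : Gen2 (c₁ * x) y := gen2_conj h (y ^ k) hk hyk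
  obtain ⟨l, hl⟩ := B0 hG (x := y) (y := c₁ * x) (by rw [Gen2, Set.pair_comm]; exact h') hcyc h4 hc₂
  refine ⟨MulAut.conj ((c₁ * x) ^ l * y ^ k), fun g => ?_, ?_, ?_⟩
  · exact isConj_iff.2 ⟨_, rfl⟩
  · show (c₁ * x) ^ l * y ^ k * x * ((c₁ * x) ^ l * y ^ k)⁻¹ = c₁ * x
    calc (c₁ * x) ^ l * y ^ k * x * ((c₁ * x) ^ l * y ^ k)⁻¹ =
        (c₁ * x) ^ l * (y ^ k * x * (y ^ k)⁻¹) * ((c₁ * x) ^ l)⁻¹ := by group
      _ = (c₁ * x) ^ l * (c₁ * x) * ((c₁ * x) ^ l)⁻¹ := by rw [hk]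
      _ = c₁ * x := by rw [← pow_succ, pow_succ']; group
  · show (c₁ * x) ^ l * y ^ k * y * ((c₁ * x) ^ l * y ^ k)⁻¹ = c₂ * y
    calc (c₁ * x) ^ l * y ^ k * y * ((c₁ * x) ^ l * y ^ k)⁻¹ =
        (c₁ * x) ^ l * (y ^ k * y * (y ^ k)⁻¹) * ((c₁ * x) ^ l)⁻¹ := by group
      _ = c₂ * y := by rw [hyk, hl]

end cyc

/-! ### exponent two -/

section exp2

variable {G : Type} [Group G] [Finite G]

/-- the group of order two acts -/
def tau (t : G) (a : Multiplicative (ZMod 2)) : G := if a = 1 then 1 else t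

omit [Finite G] in
theorem tau_mul {t : G} (t2 : t ^ 2 = 1) (a b : Multiplicative (ZMod 2)) :
    tau t (a * b) = tau t a * tau t b := by
  have key : ∀ a : Multiplicative (ZMod 2), a = 1 ∨ a = Multiplicative.ofAdd 1 := by decide
  have h1 : (Multiplicative.ofAdd 1 : Multiplicative (ZMod 2)) ≠ 1 := by decide
  have h2 : (Multiplicative.ofAdd 1 * Multiplicative.ofAdd 1 : Multiplicative (ZMod 2)) = 1 := by
    decide
  rcases key a with rfl | rfl <;> rcases key b with rfl | rfl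
  · simp [tau]
  · simp [tau]
  · simp [tau]
  · rw [h2]
    simp only [tau, if_true, if_neg h1]
    rw [← pow_two, t2]

/-- the elements of `γ₃` are commutators with `x` -/
theorem g3_comm (hG : IsPGroup 2 G) (h4 : g4 G = ⊥) (hsq : ∀ v ∈ commutator G, v ^ 2 = 1) {x y : G}
    (h : Gen2 x y) {s : G} (hs : s ∈ g3 G) : ∃ k : G, ⁅k, x⁆ = s := by
  have hc3 : ∀ a ∈ g3 G, a ∈ center G := by
    intro a ha
    rw [mem_center_iff]
    intro g
    have h1 : ⁅g, a⁆ ∈ g4 G := comm_mem' ha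
    rw [h4, mem_bot] at h1
    exact commutatorElement_eq_one_iff_mul_comm.1 h1
  have hmul : ∀ k l : G, ⁅l, x⁆ ∈ g3 G → ⁅k * l, x⁆ = ⁅l, x⁆ * ⁅k, x⁆ := by
    intro k l hl
    have h1 : ⁅k * l, x⁆ = k * ⁅l, x⁆ * k⁻¹ * ⁅k, x⁆ := by
      simp only [commutatorElement_def]; group
    rw [h1, mem_center_iff.1 (hc3 _ hl) k]; group
  have hinv : ∀ k : G, ⁅k, x⁆ ∈ g3 G → ⁅k⁻¹, x⁆ = ⁅k, x⁆⁻¹ := by
    intro k hk
    have h2 : ⁅k⁻¹ * k, x⁆ = ⁅k, x⁆ * ⁅k⁻¹, x⁆ := hmul _ _ hk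
    rw [inv_mul_cancel, commutatorElement_one_left] at h2
    exact (inv_eq_of_mul_eq_one_right h2.symm).symm
  let D : Subgroup G :=
    { carrier := {s | s ∈ g3 G ∧ ∃ k : G, ⁅k, x⁆ = s}
      one_mem' := ⟨one_mem _, 1, commutatorElement_one_left x⟩
      mul_mem' := by
        rintro a b ⟨ha, k, rfl⟩ ⟨hb, l, rfl⟩
        exact ⟨mul_mem ha hb, l * k, hmul l k ha⟩
      inv_mem' := by
        rintro a ⟨ha, k, rfl⟩
        exact ⟨inv_mem ha, k⁻¹, hinv k ha⟩ }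
  have hDn : D.Normal := normal_between (A := ⊥) (B := g3 G) h4.le bot_le fun a ha => ha.1
  have hzm := comm_mem y x
  have h3D : g3 G ≤ D := by
    apply g3_le_of h
    · rw [h4]; exact bot_le
    · have h1 : ⁅x, ⁅y, x⁆⁆ ∈ g3 G := comm_mem' hzm
      have h2 : ⁅⁅y, x⁆, x⁆ ∈ g3 G := comm_inv_mem h1
      have h5 : (⁅⁅y, x⁆, x⁆ : G) ∈ D := ⟨h2, _, rfl⟩
      rw [← commutatorElement_inv]
      exact inv_mem h5
    · refine ⟨comm_mem' hzm, y * y, ?_⟩
      have h1 : ⁅y * y, x⁆ = ⁅y, ⁅y, x⁆⁆ * (⁅y, x⁆ * ⁅y, x⁆) := by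
        simp only [commutatorElement_def]; group
      rw [h1, ← pow_two ⁅y, x⁆, hsq _ hzm, mul_one]
  exact (h3D hs).2

theorem C_P (hG : IsPGroup 2 G) (hM : Min G 2) (h4 : g4 G = ⊥)
    (hsq : ∀ v ∈ commutator G, v ^ 2 = 1) : P G 2 := by
  have : Fact (Nat.Prime 2) := ⟨Nat.prime_two⟩
  apply P_of_two
  intro x y h c₁ hc₁ c₂ hc₂
  have hc3 : ∀ a ∈ g3 G, a ∈ center G := by
    intro a ha
    rw [mem_center_iff]
    intro g
    have h1 : ⁅g, a⁆ ∈ g4 G := comm_mem' ha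
    rw [h4, mem_bot] at h1
    exact commutatorElement_eq_one_iff_mul_comm.1 h1
  set z := ⁅y, x⁆ with hz
  have hzm : z ∈ commutator G := comm_mem y x
  have hzi : z⁻¹ = z := inv_eq_of_mul_eq_one_left (by rw [← pow_two]; exact hsq z hzm)
  have hxy : ⁅x, y⁆ = z := by rw [← commutatorElement_inv, ← hz, hzi]
  -- every element of `γ₂` is in `γ₃` or in `γ₃ z`
  have hcl : ∀ c ∈ commutator G, c ∈ g3 G ∨ c * z⁻¹ ∈ g3 G := by
    intro c hc
    obtain ⟨a, ha, s, hs, rfl⟩ := mem_sup_of_normal_right.1 (gam_le h hc)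
    obtain ⟨k, rfl⟩ := mem_zpowers_iff.1 ha
    rw [← hz]
    rcases Int.even_or_odd' k with ⟨q, rfl | rfl⟩
    · left
      rw [zpow_mul, zpow_ofNat, hsq z hzm, one_zpow, one_mul]; exact hs
    · right
      rw [zpow_add, zpow_mul, zpow_ofNat, hsq z hzm, one_zpow, one_mul, zpow_one,
        mem_center_iff.1 (hc3 s hs) z, mul_inv_cancel_right]
      exact hs
  -- the inner part
  obtain ⟨k, hk1, hk2⟩ : ∃ k : G, c₁ * ⁅k, x⁆⁻¹ ∈ g3 G ∧ c₂ * ⁅k, y⁆⁻¹ ∈ g3 G := by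
    rcases hcl c₁ hc₁ with h1 | h1 <;> rcases hcl c₂ hc₂ with h2 | h2
    · exact ⟨1, by simpa using h1, by simpa using h2⟩
    · refine ⟨x, by simpa using h1, ?_⟩
      rw [hxy]; exact h2
    · refine ⟨y, h1, by simpa using h2⟩
    · refine ⟨x * y, ?_, ?_⟩
      · have e : ⁅x * y, x⁆ = ⁅x, z⁆ * z := by
          rw [hz]; simp only [commutatorElement_def]; group
        rw [e, mul_inv_rev, ← mul_assoc]
        exact mul_mem h1 (inv_mem (comm_mem' hzm))
      · have e : ⁅x * y, y⁆ = z := by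
          rw [← hxy]; simp only [commutatorElement_def]; group
        rw [e]; exact h2
  set t₁ := c₁ * ⁅k, x⁆⁻¹ with ht₁
  set t₂ := c₂ * ⁅k, y⁆⁻¹ with ht₂
  have hr : Set.range ![x, y] = {x, y} := by
    simp [Matrix.range_cons]
    exact Set.pair_comm y x
  have hgen : Gen ![x, y] := by rw [Gen, hr]; exact h
  obtain ⟨χ₁, a1, a2, a3⟩ := exists_dual hG hM hgen 0
  obtain ⟨χ₂, b1, b2, b3⟩ := exists_dual hG hM hgen 1
  have a2 : χ₁ y = 1 := a2 1 (by decide)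
  have b2 : χ₂ x = 1 := b2 0 (by decide)
  have a3 : χ₁ x ≠ 1 := a3
  have b3 : χ₂ y ≠ 1 := b3
  have ht1 : t₁ ^ 2 = 1 := hsq _ (g3_le hk1)
  have ht2 : t₂ ^ 2 = 1 := hsq _ (g3_le hk2)
  have htau : ∀ t ∈ g3 G, ∀ a, tau t a ∈ g3 G := by
    intro t ht a
    unfold tau
    split_ifs
    · exact one_mem _
    · exact ht
  let f : G →* center G := MonoidHom.mk'
    (fun g => ⟨tau t₁ (χ₁ g) * tau t₂ (χ₂ g),
      mul_mem (hc3 _ (htau _ hk1 _)) (hc3 _ (htau _ hk2 _))⟩) (by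
    intro a b
    apply Subtype.ext
    show tau t₁ (χ₁ (a * b)) * tau t₂ (χ₂ (a * b)) =
      (tau t₁ (χ₁ a) * tau t₂ (χ₂ a)) * (tau t₁ (χ₁ b) * tau t₂ (χ₂ b))
    rw [map_mul, map_mul, tau_mul ht1, tau_mul ht2]
    have hcm : Commute (tau t₂ (χ₂ a)) (tau t₁ (χ₁ b)) := mem_center_iff.1 (hc3 _ (htau _ hk1 _)) _
    rw [hcm.mul_mul_mul_comm])
  have hf : ∀ g, (f g : G) = tau t₁ (χ₁ g) * tau t₂ (χ₂ g) := fun g => rfl
  have hf3 : ∀ g, (f g : G) ∈ g3 G := fun g => mul_mem (htau _ hk1 _) (htau _ hk2 _)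
  have hcp : ∀ g, IsConj g ((f g : G) * g) := by
    intro g
    by_cases hg : g ∈ frattini G
    · have e : (f g : G) = 1 := by
        rw [hf, a1 g hg, b1 g hg]; simp [tau]
      rw [e, one_mul]
    · obtain ⟨j, hj⟩ := exchange hG hgen hg
      obtain ⟨w, hw⟩ : ∃ w, Gen2 g w := by
        fin_cases j
        · refine ⟨y, ?_⟩
          have e : Set.range (Function.update ![x, y] (0 : Fin 2) g) = {g, y} := by
            ext a
            constructor
            · rintro ⟨i, rfl⟩; fin_cases i <;> simp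
            · rintro (rfl | rfl)
              · exact ⟨0, by simp⟩
              · exact ⟨1, by simp⟩
          rw [Gen2, ← e]; exact hj
        · refine ⟨x, ?_⟩
          have e : Set.range (Function.update ![x, y] (1 : Fin 2) g) = {g, x} := by
            ext a
            constructor
            · rintro ⟨i, rfl⟩; fin_cases i <;> simp
            · rintro (rfl | rfl)
              · exact ⟨1, by simp⟩
              · exact ⟨0, by simp⟩
          rw [Gen2, ← e]; exact hj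
      obtain ⟨l, hl⟩ := g3_comm hG h4 hsq hw (hf3 g)
      rw [isConj_iff]
      exact ⟨l, by rw [conj_eq, hl]⟩
  obtain ⟨β, hβ, hβf⟩ := central_aut f hcp
  refine ⟨MulAut.conj k * β, fun g => ?_, ?_, ?_⟩
  · exact (hβ g).trans (isConj_iff.2 ⟨k, rfl⟩)
  · show k * β x * k⁻¹ = c₁ * x
    rw [hβf, hf, b2]
    have e1 : tau t₁ (χ₁ x) = t₁ := if_neg a3
    have e2 : tau t₂ (1 : Multiplicative (ZMod 2)) = 1 := if_pos rfl
    rw [e1, e2, mul_one]
    calc k * (t₁ * x) * k⁻¹ = (k * t₁) * x * k⁻¹ := by group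
      _ = t₁ * (k * x * k⁻¹) := by rw [mem_center_iff.1 (hc3 _ hk1) k]; group
      _ = c₁ * x := by rw [conj_eq k x, ht₁]; group
  · show k * β y * k⁻¹ = c₂ * y
    rw [hβf, hf, a2]
    have e1 : tau t₂ (χ₂ y) = t₂ := if_neg b3
    have e2 : tau t₁ (1 : Multiplicative (ZMod 2)) = 1 := if_pos rfl
    rw [e1, e2, one_mul]
    calc k * (t₂ * y) * k⁻¹ = (k * t₂) * y * k⁻¹ := by group
      _ = t₂ * (k * y * k⁻¹) := by rw [mem_center_iff.1 (hc3 _ hk2) k]; group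
      _ = c₂ * y := by rw [conj_eq k y, ht₂]; group

end exp2

end Pool.Agent.Q89.AC
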