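import Mathlib

set_option autoImplicit false

/-!
The matrices `A = [[1+t, 0], [1, 1]]` and `B = [[1, t], [0, 1+t]]` over `R⟦t⟧` satisfy
`[A^n, B^n]^d ≠ 1` for `n > d`.
-/

namespace Pool.Agent.Q89.AffAut1

open Polynomial Matrix

variable {R : Type} [CommRing R]

/-- `μ_n = ((1 + t)^n - 1) / t` -/
noncomputable def mu (R : Type) [CommRing R] : ℕ → R[X]
  | 0 => 0
  | n + 1 => (1 + X) * mu R n + 1

lemma X_mul_mu (n : ℕ) : X * mu R n = (1 + X) ^ n - 1 := by
  induction n with
  | zero => simp [mu]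
  | succ n ih =>
    rw [mu, mul_add, mul_left_comm, ih]
    ring

/-- first matrix -/
noncomputable def AA (R : Type) [CommRing R] : Matrix (Fin 2) (Fin 2) R[X] := !![1 + X, 0; 1, 1]
/-- second matrix -/
noncomputable def BB (R : Type) [CommRing R] : Matrix (Fin 2) (Fin 2) R[X] := !![1, X; 0, 1 + X]

lemma AA_pow (n : ℕ) : (AA R) ^ n = !![(1 + X) ^ n, 0; mu R n, 1] := by
  induction n with
  | zero => apply Matrix.ext; intro i j; fin_cases i <;> fin_cases j <;> simp [mu]
  | succ n ih =>
    rw [pow_succ', ih, AA]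
    apply Matrix.ext
    intro i j
    fin_cases i <;> fin_cases j <;> simp [Matrix.mul_apply, Fin.sum_univ_two, mu, pow_succ']
    have := X_mul_mu (R := R) n
    linear_combination -this

lemma BB_pow (n : ℕ) : (BB R) ^ n = !![1, X * mu R n; 0, (1 + X) ^ n] := by
  induction n with
  | zero => apply Matrix.ext; intro i j; fin_cases i <;> fin_cases j <;> simp [mu]
  | succ n ih =>
    rw [pow_succ, ih, BB]
    apply Matrix.ext
    intro i j
    fin_cases i <;> fin_cases j <;> simp [Matrix.mul_apply, Fin.sum_univ_two, mu, pow_succ]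
    ring

/-- the rescaled commutator -/
noncomputable def CC (R : Type) [CommRing R] (n : ℕ) : Matrix (Fin 2) (Fin 2) R[X] :=
  (AA R) ^ n * (BB R) ^ n * ((AA R) ^ n).adjugate * ((BB R) ^ n).adjugate

lemma CC_map (n : ℕ) {S : Type} [CommRing S] (f : R[X] →+* S) (hf : f ((1 + X) ^ n) = 0) :
    (CC R n).map f = !![0, 0; 0, f (mu R n) + f (mu R n) ^ 2] := by
  have h1 : f (X * mu R n) = -1 := by
    rw [X_mul_mu, map_sub, hf, map_one, zero_sub]
  have hA : ((AA R) ^ n).map f = !![0, 0; f (mu R n), 1] := by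
    rw [AA_pow]
    ext i j
    fin_cases i <;> fin_cases j <;> simp [Matrix.map_apply, hf]
  have hB : ((BB R) ^ n).map f = !![1, -1; 0, 0] := by
    rw [BB_pow]
    ext i j
    fin_cases i <;> fin_cases j <;> simp [Matrix.map_apply]
    · simpa using h1
    · simpa using hf
  have hA' : (((AA R) ^ n).adjugate).map f = !![1, 0; -f (mu R n), 0] := by
    have := (RingHom.map_adjugate f ((AA R) ^ n))
    rw [RingHom.mapMatrix_apply, RingHom.mapMatrix_apply, hA] at this
    rw [this, Matrix.adjugate_fin_two_of]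
    simp
  have hB' : (((BB R) ^ n).adjugate).map f = !![0, 1; 0, 1] := by
    have := (RingHom.map_adjugate f ((BB R) ^ n))
    rw [RingHom.mapMatrix_apply, RingHom.mapMatrix_apply, hB] at this
    rw [this, Matrix.adjugate_fin_two_of]
    simp
  rw [CC, Matrix.map_mul, Matrix.map_mul, Matrix.map_mul, hA, hB, hA', hB']
  ext i j
  fin_cases i <;> fin_cases j <;> simp [Matrix.mul_apply, Fin.sum_univ_two]
  ring

lemma diag_pow {S : Type} [CommRing S] (c : S) (d : ℕ) (hd : 0 < d) :
    (!![0, 0; 0, c] : Matrix (Fin 2) (Fin 2) S) ^ d = !![0, 0; 0, c ^ d] := by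
  induction d with
  | zero => omega
  | succ d ih =>
    rcases Nat.eq_zero_or_pos d with h | h
    · subst h; simp
    · rw [pow_succ, ih h]
      ext i j
      fin_cases i <;> fin_cases j <;> simp [Matrix.mul_apply, Fin.sum_univ_two, pow_succ]

theorem CC_pow_ne [Nontrivial R] {n d : ℕ} (hd : 0 < d) (hn : d < n) :
    (CC R n) ^ d ≠ ((1 + X : R[X]) ^ n) ^ (2 * d) • (1 : Matrix (Fin 2) (Fin 2) R[X]) := by
  intro h
  set l : R[X] := (1 + X) ^ n with hl
  let f : R[X] →+* R[X] ⧸ Ideal.span {l} := Ideal.Quotient.mk _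
  have hf : f l = 0 := Ideal.Quotient.eq_zero_iff_mem.2 (Ideal.mem_span_singleton_self l)
  have h0 : (RingHom.mapMatrix (m := Fin 2) f (CC R n)) ^ d =
      RingHom.mapMatrix (m := Fin 2) f (l ^ (2 * d) • (1 : Matrix (Fin 2) (Fin 2) R[X])) := by
    rw [← map_pow, h]
  rw [RingHom.mapMatrix_apply, CC_map n f hf, diag_pow _ d hd, RingHom.mapMatrix_apply] at h0
  have h1 := congrFun (congrFun h0 1) 1
  simp only [Matrix.map_apply, Matrix.smul_apply, Matrix.one_apply_eq,
    smul_eq_mul, mul_one, map_pow, hf] at h1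
  rw [zero_pow (by omega)] at h1
  have h2 : (f (mu R n) + f (mu R n) ^ 2) ^ d = 0 := by simpa using h1
  have h3 : f ((X - 1) ^ d) = 0 := by
    have h4 : f X * f (mu R n) = -1 := by
      rw [← map_mul, X_mul_mu, map_sub, hf, map_one, zero_sub]
    have h5 : f X ^ 2 * (f (mu R n) + f (mu R n) ^ 2) = -(f (X - 1)) := by
      rw [map_sub, map_one]
      linear_combination (f X + f X * f (mu R n) - 1) * h4
    have h6 : (-(f (X - 1))) ^ d = 0 := by
      rw [← h5, mul_pow, h2, mul_zero]
    rw [map_pow]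
    calc f (X - 1) ^ d = ((-1) * (-(f (X - 1)))) ^ d := by congr 1; ring
      _ = (-1) ^ d * (-(f (X - 1))) ^ d := mul_pow _ _ _
      _ = 0 := by rw [h6, mul_zero]
  have h8 : l ∣ (X - 1) ^ d := by
    rw [← Ideal.mem_span_singleton]
    exact Ideal.Quotient.eq_zero_iff_mem.1 h3
  have hm1 : (1 + X : R[X]).Monic := by
    have := monic_X_add_C (1 : R)
    rwa [C_1, add_comm] at this
  have hm2 : (X - 1 : R[X]).Monic := by
    have := monic_X_sub_C (1 : R)
    rwa [C_1] at this
  have hd1 : (1 + X : R[X]).natDegree = 1 := by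
    have := natDegree_X_add_C (1 : R)
    rwa [C_1, add_comm] at this
  have hd2 : (X - 1 : R[X]).natDegree = 1 := by
    have := natDegree_X_sub_C (1 : R)
    rwa [C_1] at this
  refine (hm1.pow n).not_dvd_of_natDegree_lt (hm2.pow d).ne_zero ?_ h8
  rw [hm1.natDegree_pow, hm2.natDegree_pow, hd1, hd2]
  omega

end Pool.Agent.Q89.AffAut1
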