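import Pool.Agent.Q89.AffAut1

set_option autoImplicit false

/-!
The action of `GL₂(R⟦t⟧)` on sequences.
-/

namespace Pool.Agent.Q89.AffAut2

open Polynomial Matrix Pool.Agent.Q89.AffAut1

variable {R : Type} [CommRing R]

/-- the embedding of polynomials in power series -/
noncomputable def iot (R : Type) [CommRing R] : R[X] →+* PowerSeries R :=
  Polynomial.coeToPowerSeries.ringHom

lemma iot_inj : Function.Injective (iot R) := by
  intro a b h
  have : (a : PowerSeries R) = b := h
  exact Polynomial.coe_injective R this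

lemma iot_X : iot R X = PowerSeries.X := by
  show ((X : R[X]) : PowerSeries R) = _
  exact Polynomial.coe_X

lemma unit1 : IsUnit (iot R (1 + X)) := by
  rw [map_add, map_one, iot_X, PowerSeries.isUnit_iff_constantCoeff]
  simp

lemma det_AA : (AA R).det = 1 + X := by
  simp [AA, Matrix.det_fin_two]

lemma det_BB : (BB R).det = 1 + X := by
  simp [BB, Matrix.det_fin_two]

lemma unitAA : IsUnit ((iot R).mapMatrix (AA R)) := by
  rw [Matrix.isUnit_iff_isUnit_det, ← RingHom.map_det, det_AA]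
  exact unit1

lemma unitBB : IsUnit ((iot R).mapMatrix (BB R)) := by
  rw [Matrix.isUnit_iff_isUnit_det, ← RingHom.map_det, det_BB]
  exact unit1

/-- first matrix as a unit -/
noncomputable def uA (R : Type) [CommRing R] : (Matrix (Fin 2) (Fin 2) (PowerSeries R))ˣ :=
  (unitAA (R := R)).unit
/-- second matrix as a unit -/
noncomputable def uB (R : Type) [CommRing R] : (Matrix (Fin 2) (Fin 2) (PowerSeries R))ˣ :=
  (unitBB (R := R)).unit

lemma uA_val : ((uA R : (Matrix (Fin 2) (Fin 2) (PowerSeries R))ˣ) :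
    Matrix (Fin 2) (Fin 2) (PowerSeries R)) = (iot R).mapMatrix (AA R) := rfl
lemma uB_val : ((uB R : (Matrix (Fin 2) (Fin 2) (PowerSeries R))ˣ) :
    Matrix (Fin 2) (Fin 2) (PowerSeries R)) = (iot R).mapMatrix (BB R) := rfl

lemma adj_unit {S : Type} [CommRing S] (P : (Matrix (Fin 2) (Fin 2) S)ˣ) :
    (P : Matrix (Fin 2) (Fin 2) S).adjugate = (P : Matrix (Fin 2) (Fin 2) S).det • (P⁻¹).1 := by
  have h := Matrix.mul_adjugate (P : Matrix (Fin 2) (Fin 2) S)
  calc (P : Matrix (Fin 2) (Fin 2) S).adjugate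
      = (P⁻¹).1 * (P.1 * (P : Matrix (Fin 2) (Fin 2) S).adjugate) := by
        rw [← mul_assoc, Units.inv_mul, one_mul]
    _ = _ := by rw [h, mul_smul_comm, mul_one]

theorem comm_pow_ne [Nontrivial R] {n d : ℕ} (hd : 0 < d) (hn : d < n) :
    ((uA R) ^ n * (uB R) ^ n * ((uA R) ^ n)⁻¹ * ((uB R) ^ n)⁻¹) ^ d ≠ 1 := by
  intro h
  have hA : (((uA R) ^ n : (Matrix (Fin 2) (Fin 2) (PowerSeries R))ˣ) :
      Matrix (Fin 2) (Fin 2) (PowerSeries R)) = (iot R).mapMatrix ((AA R) ^ n) := by
    rw [Units.val_pow_eq_pow_val, uA_val, map_pow]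
  have hB : (((uB R) ^ n : (Matrix (Fin 2) (Fin 2) (PowerSeries R))ˣ) :
      Matrix (Fin 2) (Fin 2) (PowerSeries R)) = (iot R).mapMatrix ((BB R) ^ n) := by
    rw [Units.val_pow_eq_pow_val, uB_val, map_pow]
  have hdA : (((uA R) ^ n : (Matrix (Fin 2) (Fin 2) (PowerSeries R))ˣ) :
      Matrix (Fin 2) (Fin 2) (PowerSeries R)).det = iot R ((1 + X) ^ n) := by
    rw [hA, ← RingHom.map_det, Matrix.det_pow, det_AA]
  have hdB : (((uB R) ^ n : (Matrix (Fin 2) (Fin 2) (PowerSeries R))ˣ) :
      Matrix (Fin 2) (Fin 2) (PowerSeries R)).det = iot R ((1 + X) ^ n) := by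
    rw [hB, ← RingHom.map_det, Matrix.det_pow, det_BB]
  have h1 : (iot R).mapMatrix (CC R n) = (iot R ((1 + X) ^ n)) ^ 2 •
      (((uA R) ^ n * (uB R) ^ n * ((uA R) ^ n)⁻¹ * ((uB R) ^ n)⁻¹ :
        (Matrix (Fin 2) (Fin 2) (PowerSeries R))ˣ) :
      Matrix (Fin 2) (Fin 2) (PowerSeries R)) := by
    have hCC : CC R n =
        (AA R) ^ n * (BB R) ^ n * ((AA R) ^ n).adjugate * ((BB R) ^ n).adjugate := rfl
    rw [hCC, map_mul, map_mul, map_mul]
    have e1 : (iot R).mapMatrix (((AA R) ^ n).adjugate) =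
        iot R ((1 + X) ^ n) • (((uA R) ^ n)⁻¹).1 := by
      rw [← hdA, ← adj_unit, hA]
      exact RingHom.map_adjugate (iot R) _
    have e2 : (iot R).mapMatrix (((BB R) ^ n).adjugate) =
        iot R ((1 + X) ^ n) • (((uB R) ^ n)⁻¹).1 := by
      rw [← hdB, ← adj_unit, hB]
      exact RingHom.map_adjugate (iot R) _
    rw [e1, e2, ← hA, ← hB, mul_smul_comm, mul_smul_comm, smul_mul_assoc, smul_smul, ← pow_two]
    rfl
  apply CC_pow_ne (R := R) hd hn
  have hinj : Function.Injective ((iot R).mapMatrix (m := Fin 2)) := by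
    intro P Q hPQ
    apply Matrix.ext
    intro i j
    exact iot_inj (congrFun (congrFun hPQ i) j)
  apply hinj
  rw [map_pow, h1, _root_.smul_pow, ← pow_mul, ← Units.val_pow_eq_pow_val, h, Units.val_one]
  apply Matrix.ext
  intro i j
  rw [RingHom.mapMatrix_apply, Matrix.map_apply, Matrix.smul_apply, Matrix.smul_apply,
    smul_eq_mul, smul_eq_mul, map_mul, map_pow]
  have h2 : (iot R) ((1 : Matrix (Fin 2) (Fin 2) R[X]) i j) =
      (1 : Matrix (Fin 2) (Fin 2) (PowerSeries R)) i j := by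
    by_cases hij : i = j
    · subst hij; rw [Matrix.one_apply_eq, Matrix.one_apply_eq, map_one]
    · rw [Matrix.one_apply_ne hij, Matrix.one_apply_ne hij, map_zero]
  rw [h2, map_pow, map_pow]

/-- sequences as pairs of power series -/
noncomputable def ee (R : Type) [CommRing R] : (ℕ → R) ≃ (Fin 2 → PowerSeries R) where
  toFun x := ![PowerSeries.mk fun i => x (2 * i), PowerSeries.mk fun i => x (2 * i + 1)]
  invFun F := fun j => if j % 2 = 0 then PowerSeries.coeff (j / 2) (F 0)
    else PowerSeries.coeff (j / 2) (F 1)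
  left_inv := by
    intro x
    funext j
    by_cases h : j % 2 = 0
    · simp only [h, if_true]
      show PowerSeries.coeff (j / 2) (PowerSeries.mk fun i => x (2 * i)) = x j
      rw [PowerSeries.coeff_mk]
      congr 1; omega
    · simp only [h, if_false]
      show PowerSeries.coeff (j / 2) (PowerSeries.mk fun i => x (2 * i + 1)) = x j
      rw [PowerSeries.coeff_mk]
      congr 1; omega
  right_inv := by
    intro F
    funext i
    fin_cases i
    · ext n
      simp
    · ext n
      have h2 : (2 * n + 1) / 2 = n := by omega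
      simp [h2]

/-- the action of matrices on sequences -/
noncomputable def psi (R : Type) [CommRing R] :
    (Matrix (Fin 2) (Fin 2) (PowerSeries R))ˣ →* Equiv.Perm (ℕ → R) where
  toFun P :=
    { toFun := fun x => (ee R).symm (P.1 *ᵥ (ee R x))
      invFun := fun x => (ee R).symm ((P⁻¹).1 *ᵥ (ee R x))
      left_inv := by
        intro x
        simp only [Equiv.apply_symm_apply, Matrix.mulVec_mulVec, Units.inv_mul, Matrix.one_mulVec,
          Equiv.symm_apply_apply]
      right_inv := by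
        intro x
        simp only [Equiv.apply_symm_apply, Matrix.mulVec_mulVec, Units.mul_inv, Matrix.one_mulVec,
          Equiv.symm_apply_apply] }
  map_one' := by
    apply Equiv.ext
    intro x
    show (ee R).symm ((1 : Matrix _ _ _) *ᵥ (ee R x)) = x
    rw [Matrix.one_mulVec, Equiv.symm_apply_apply]
  map_mul' := by
    intro P Q
    apply Equiv.ext
    intro x
    show (ee R).symm ((P.1 * Q.1) *ᵥ (ee R x)) =
      (ee R).symm (P.1 *ᵥ (ee R ((ee R).symm (Q.1 *ᵥ (ee R x)))))
    rw [Equiv.apply_symm_apply, Matrix.mulVec_mulVec]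

lemma psi_apply (P : (Matrix (Fin 2) (Fin 2) (PowerSeries R))ˣ) (x : ℕ → R) :
    psi R P x = (ee R).symm (P.1 *ᵥ (ee R x)) := rfl

lemma psi_inj : Function.Injective (psi R) := by
  rw [injective_iff_map_eq_one]
  intro P h
  apply Units.ext
  have h1 : ∀ F, P.1 *ᵥ F = F := by
    intro F
    have h2 := congrArg (fun g : Equiv.Perm (ℕ → R) => g ((ee R).symm F)) h
    simp only [psi_apply, Equiv.Perm.one_apply, Equiv.apply_symm_apply] at h2
    exact (ee R).symm.injective h2
  apply Matrix.ext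
  intro i j
  have h3 := congrFun (h1 (Pi.single j 1)) i
  rw [Matrix.mulVec_single_one] at h3
  rw [Units.val_one, Matrix.one_apply]
  rw [Pi.single_apply] at h3
  exact h3

/-- the first transformation -/
def fM (x : ℕ → R) (j : ℕ) : R :=
  if j % 2 = 1 then x j + x (j - 1) else if j = 0 then x 0 else x j + x (j - 2)

/-- the second transformation -/
def fN (x : ℕ → R) (j : ℕ) : R :=
  if j % 2 = 1 then (if j = 1 then x 1 else x j + x (j - 2))
  else if j = 0 then x 0 else x j + x (j - 1)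

lemma psi_uA (x : ℕ → R) : psi R (uA R) x = fM x := by
  rw [psi_apply, uA_val]
  funext j
  have e0 : ((iot R).mapMatrix (AA R) *ᵥ (ee R x)) 0 =
      (1 + PowerSeries.X) * PowerSeries.mk (fun i => x (2 * i)) := by
    simp [AA, ee, Matrix.mulVec, dotProduct, Fin.sum_univ_two, iot_X]
  have e1 : ((iot R).mapMatrix (AA R) *ᵥ (ee R x)) 1 =
      PowerSeries.mk (fun i => x (2 * i)) + PowerSeries.mk (fun i => x (2 * i + 1)) := by
    simp [AA, ee, Matrix.mulVec, dotProduct, Fin.sum_univ_two]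
  show (if j % 2 = 0 then PowerSeries.coeff (j / 2) (((iot R).mapMatrix (AA R) *ᵥ (ee R x)) 0)
    else PowerSeries.coeff (j / 2) (((iot R).mapMatrix (AA R) *ᵥ (ee R x)) 1)) = fM x j
  rw [e0, e1, fM]
  by_cases h : j % 2 = 0
  · rw [if_pos h, if_neg (by omega), add_mul, one_mul]
    by_cases h0 : j = 0
    · subst h0
      simp
    · rw [if_neg h0]
      obtain ⟨k, hk⟩ : ∃ k, j = 2 * (k + 1) := ⟨j / 2 - 1, by omega⟩
      have h1 : j / 2 = k + 1 := by omega
      rw [h1, map_add, PowerSeries.coeff_succ_X_mul, PowerSeries.coeff_mk, PowerSeries.coeff_mk]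
      congr 2 <;> omega
  · rw [if_neg h, if_pos (by omega), map_add, PowerSeries.coeff_mk, PowerSeries.coeff_mk, add_comm]
    congr 2 <;> omega

lemma psi_uB (x : ℕ → R) : psi R (uB R) x = fN x := by
  rw [psi_apply, uB_val]
  funext j
  have e0 : ((iot R).mapMatrix (BB R) *ᵥ (ee R x)) 0 =
      PowerSeries.mk (fun i => x (2 * i)) +
        PowerSeries.X * PowerSeries.mk (fun i => x (2 * i + 1)) := by
    simp [BB, ee, Matrix.mulVec, dotProduct, Fin.sum_univ_two, iot_X]
  have e1 : ((iot R).mapMatrix (BB R) *ᵥ (ee R x)) 1 =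
      (1 + PowerSeries.X) * PowerSeries.mk (fun i => x (2 * i + 1)) := by
    simp [BB, ee, Matrix.mulVec, dotProduct, Fin.sum_univ_two, iot_X]
  show (if j % 2 = 0 then PowerSeries.coeff (j / 2) (((iot R).mapMatrix (BB R) *ᵥ (ee R x)) 0)
    else PowerSeries.coeff (j / 2) (((iot R).mapMatrix (BB R) *ᵥ (ee R x)) 1)) = fN x j
  rw [e0, e1, fN]
  by_cases h : j % 2 = 0
  · rw [if_pos h, if_neg (by omega)]
    by_cases h0 : j = 0
    · subst h0
      simp
    · rw [if_neg h0]
      obtain ⟨k, hk⟩ : ∃ k, j = 2 * (k + 1) := ⟨j / 2 - 1, by omega⟩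
      have h1 : j / 2 = k + 1 := by omega
      rw [h1, map_add, PowerSeries.coeff_succ_X_mul, PowerSeries.coeff_mk, PowerSeries.coeff_mk]
      congr 2 <;> omega
  · rw [if_neg h, if_pos (by omega), add_mul, one_mul]
    by_cases h0 : j = 1
    · subst h0
      simp
    · rw [if_neg h0]
      obtain ⟨k, hk⟩ : ∃ k, j = 2 * (k + 1) + 1 := ⟨j / 2 - 1, by omega⟩
      have h1 : j / 2 = k + 1 := by omega
      rw [h1, map_add, PowerSeries.coeff_succ_X_mul, PowerSeries.coeff_mk, PowerSeries.coeff_mk]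
      congr 2 <;> omega

end Pool.Agent.Q89.AffAut2
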