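import Pool.Agent.Q89.WA5d

set_option autoImplicit false

/-!
A finitely generated branch group `K = K ≀ A₅` and its maximal subgroups containing all finitary
elements.
-/

namespace Pool.Agent.Q89.Br

open scoped commutatorElement
open Pool.Agent.Q89.WA5

/-- `A₅` -/
abbrev A : Subgroup (Equiv.Perm (Fin 5)) := alternatingGroup (Fin 5)

/-- rooted automorphisms -/
def rt : Equiv.Perm (Fin 5) →* P where
  toFun σ := mk σ 1
  map_one' := mk_one
  map_mul' σ τ := by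
    rw [mk_mul]
    refine congrArg (mk _) (funext fun x => ?_)
    simp

lemma rt_apply (σ : Equiv.Perm (Fin 5)) : rt σ = mk σ 1 := rfl

/-- directed automorphisms -/
def bF (y : Fin 5) (a : Equiv.Perm (Fin 5)) : List (Fin 5) → List (Fin 5)
  | [] => []
  | x :: w => if x = 0 then 0 :: bF y a w else if x = y then y :: rt a w else x :: w

lemma bF_mul (y : Fin 5) (a a' : Equiv.Perm (Fin 5)) (w : List (Fin 5)) :
    bF y (a * a') w = bF y a (bF y a' w) := by
  induction w with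
  | nil => rfl
  | cons x w ih =>
    by_cases h0 : x = 0
    · subst h0
      simp only [bF, if_true, ih]
    · by_cases h1 : x = y
      · subst h1
        simp only [bF, h0, if_false, if_true, map_mul, Equiv.Perm.mul_apply]
      · simp only [bF, h0, h1, if_false]

lemma bF_one (y : Fin 5) (w : List (Fin 5)) : bF y 1 w = w := by
  induction w with
  | nil => rfl
  | cons x w ih =>
    by_cases h0 : x = 0
    · subst h0
      simp only [bF, if_true, ih]
    · by_cases h1 : x = y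
      · subst h1
        simp only [bF, h0, if_false, if_true, map_one, Equiv.Perm.one_apply]
      · simp only [bF, h0, h1, if_false]

/-- the directed automorphism `b y a = (b y a, 1, ..., a, ..., 1)`, with `a` at the letter `y` -/
def b (y : Fin 5) : Equiv.Perm (Fin 5) →* P where
  toFun a :=
    { toFun := bF y a
      invFun := bF y a⁻¹
      left_inv := by intro w; rw [← bF_mul, inv_mul_cancel, bF_one]
      right_inv := by intro w; rw [← bF_mul, mul_inv_cancel, bF_one] }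
  map_one' := by ext1 w; exact bF_one y w
  map_mul' a a' := by ext1 w; exact bF_mul y a a' w

lemma b_mk (y : Fin 5) (a : Equiv.Perm (Fin 5)) :
    b y a = mk 1 (fun x => if x = 0 then b y a else if x = y then rt a else 1) := by
  apply ext_mk
  · rfl
  · intro x w
    show bF y a (x :: w) = _
    by_cases h0 : x = 0
    · subst h0
      simp only [bF, if_true]
      rfl
    · by_cases h1 : x = y
      · subst h1
        simp only [bF, h0, if_false, if_true]
        rfl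
      · simp only [bF, h0, h1, if_false]
        rfl

lemma b_io {y : Fin 5} (hy : y ≠ 0) (a : Equiv.Perm (Fin 5)) :
    b y a = io 0 (b y a) * io y (rt a) := by
  rw [b_mk]
  conv_rhs => rw [← b_mk, io, io, MonoidHom.comp_apply, MonoidHom.comp_apply, ← map_mul,
    mk1_apply]
  refine congrArg (mk 1) (funext fun x => ?_)
  by_cases h0 : x = 0
  · subst h0
    simp [Pi.mulSingle_eq_of_ne hy.symm]
  · by_cases h1 : x = y
    · subst h1
      simp [h0]
    · simp [h0, h1]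

lemma b_zero (a : Equiv.Perm (Fin 5)) : b 0 a = 1 := by
  ext1 w
  show bF 0 a w = w
  induction w with
  | nil => rfl
  | cons x w ih =>
    by_cases h0 : x = 0
    · subst h0
      simp only [bF, if_true, ih]
    · simp only [bF, h0, if_false]

/-- `L ≀ A₅` -/
def wr (L : Subgroup P) : Subgroup P where
  carrier := {g | ∃ σ ∈ A, ∃ h : Fin 5 → P, (∀ x, h x ∈ L) ∧ g = mk σ h}
  one_mem' := ⟨1, A.one_mem, 1, fun _ => L.one_mem, mk_one.symm⟩
  mul_mem' := by
    rintro _ _ ⟨σ, hσ, h, hh, rfl⟩ ⟨τ, hτ, k, hk, rfl⟩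
    exact ⟨_, A.mul_mem hσ hτ, _, fun x => L.mul_mem (hh _) (hk _), mk_mul _ _ _ _⟩
  inv_mem' := by
    rintro _ ⟨σ, hσ, h, hh, rfl⟩
    exact ⟨_, A.inv_mem hσ, _, fun x => L.inv_mem (hh _), mk_inv _ _⟩

lemma mem_wr {L : Subgroup P} {g : P} :
    g ∈ wr L ↔ ∃ σ ∈ A, ∃ h : Fin 5 → P, (∀ x, h x ∈ L) ∧ g = mk σ h := Iff.rfl

lemma mk_mem_wr {L : Subgroup P} {σ : Equiv.Perm (Fin 5)} {h : Fin 5 → P} :
    mk σ h ∈ wr L ↔ σ ∈ A ∧ ∀ x, h x ∈ L := by
  constructor
  · rintro ⟨τ, hτ, k, hk, e⟩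
    obtain ⟨rfl, rfl⟩ := mk_inj e
    exact ⟨hτ, hk⟩
  · rintro ⟨h1, h2⟩
    exact ⟨_, h1, _, h2, rfl⟩

lemma wr_mono {L L' : Subgroup P} (h : L ≤ L') : wr L ≤ wr L' := by
  rintro _ ⟨σ, hσ, k, hk, rfl⟩
  exact ⟨σ, hσ, k, fun x => h (hk x), rfl⟩

lemma io_mem_wr {L : Subgroup P} {i : Fin 5} {g : P} : io i g ∈ wr L ↔ g ∈ L := by
  rw [io_apply, mk_mem_wr]
  constructor
  · rintro ⟨-, h⟩
    have := h i
    rwa [Pi.mulSingle_eq_same] at this
  · intro h
    refine ⟨A.one_mem, fun x => ?_⟩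
    by_cases hx : x = i
    · subst hx
      rwa [Pi.mulSingle_eq_same]
    · rw [Pi.mulSingle_eq_of_ne hx]
      exact L.one_mem

lemma wr_le {L L' : Subgroup P} : wr L ≤ wr L' ↔ L ≤ L' := by
  constructor
  · intro h g hg
    exact (io_mem_wr (i := 0)).1 (h (io_mem_wr.2 hg))
  · exact wr_mono

lemma wr_inj {L L' : Subgroup P} (h : wr L = wr L') : L = L' :=
  le_antisymm (wr_le.1 h.le) (wr_le.1 h.ge)

lemma rt_mem_wr {L : Subgroup P} {a : Equiv.Perm (Fin 5)} (ha : a ∈ A) : rt a ∈ wr L :=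
  mk_mem_wr.2 ⟨ha, fun _ => L.one_mem⟩

/-- conjugating `io` by a rooted automorphism -/
lemma conj_rt (c : Equiv.Perm (Fin 5)) (i : Fin 5) (g : P) :
    rt c * io i g * (rt c)⁻¹ = io (c i) g := by
  rw [rt_apply, conj_io]
  simp

/-- an even permutation taking `i` to `j` -/
lemma exists_even (i j : Fin 5) : ∃ c ∈ A, c i = j := by
  have h : ∀ j : Fin 5, ∃ σ ∈ A, σ 0 = j := by
    intro j
    fin_cases j
    · exact ⟨1, alt_mem _ (by decide), by decide⟩
    · exact ⟨y1, alt_mem _ (by decide), by decide⟩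
    · exact ⟨al, alt_mem _ (by decide), by decide⟩
    · exact ⟨y2, alt_mem _ (by decide), by decide⟩
    · exact ⟨ph, alt_mem _ (by decide), by decide⟩
  obtain ⟨c, hc, h1⟩ := h i
  obtain ⟨d, hd, h2⟩ := h j
  refine ⟨d * c⁻¹, A.mul_mem hd (A.inv_mem hc), ?_⟩
  have h3 : c⁻¹ (c 0) = 0 := c.symm_apply_apply 0
  rw [Equiv.Perm.mul_apply, ← h1, h3, h2]

lemma comm3 {i j l : Fin 5} (hij : i ≠ j) (hil : i ≠ l) (hjl : j ≠ l) (x y x' y' : P) :
    ⁅io i x * io j y, io i x' * io l y'⁆ = io i ⁅x, x'⁆ := by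
  simp only [io, MonoidHom.comp_apply]
  rw [← map_mul, ← map_mul, ← map_commutatorElement]
  refine congrArg mk1 (funext fun z => ?_)
  by_cases h1 : z = i
  · subst h1
    simp [commutatorElement_def, Pi.mulSingle_eq_of_ne hij, Pi.mulSingle_eq_of_ne hil]
  · by_cases h2 : z = j
    · subst h2
      simp [commutatorElement_def, Pi.mulSingle_eq_of_ne h1, Pi.mulSingle_eq_of_ne hjl]
    · simp [commutatorElement_def, Pi.mulSingle_eq_of_ne h1, Pi.mulSingle_eq_of_ne h2]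

lemma comm4 {i j l m : Fin 5} (h1 : i ≠ l) (h2 : i ≠ m) (h3 : j ≠ l) (h4 : j ≠ m)
    (x y x' y' : P) : ⁅io i x * io j y, io l x' * io m y'⁆ = 1 := by
  simp only [io, MonoidHom.comp_apply]
  rw [← map_mul, ← map_mul, ← map_commutatorElement, ← map_one mk1]
  refine congrArg mk1 (funext fun z => ?_)
  by_cases h5 : z = i
  · subst h5
    simp [commutatorElement_def, Pi.mulSingle_eq_of_ne h1, Pi.mulSingle_eq_of_ne h2]
  · by_cases h6 : z = j
    · subst h6
      simp [commutatorElement_def, Pi.mulSingle_eq_of_ne h3, Pi.mulSingle_eq_of_ne h4]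
    · simp [commutatorElement_def, Pi.mulSingle_eq_of_ne h5, Pi.mulSingle_eq_of_ne h6]

/-- a subgroup containing commutators of `A₅` contains `A₅` -/
lemma A_le_of_comm {Q : Subgroup (Equiv.Perm (Fin 5))}
    (h : ∀ a ∈ A, ∀ a' ∈ A, ⁅a, a'⁆ ∈ Q) : A ≤ Q := by
  apply gen_A5
  · have h4 : ⁅x1, y1⁆ = ta := by decide
    rw [← h4]
    exact h _ (alt_mem _ (by decide)) _ (alt_mem _ (by decide))
  · have h4 : ⁅x2, y2⁆ = al := by decide
    rw [← h4]
    exact h _ (alt_mem _ (by decide)) _ (alt_mem _ (by decide))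

/-- the generators -/
def gens : Set P := {g | ∃ a ∈ A, g = rt a} ∪ {g | ∃ y, ∃ a ∈ A, g = b y a}

lemma gens_fin : gens.Finite := by
  apply Set.Finite.union
  · refine (Set.finite_range (fun a : Equiv.Perm (Fin 5) => rt a)).subset ?_
    rintro g ⟨a, -, rfl⟩
    exact ⟨a, rfl⟩
  · refine (Set.finite_range (fun z : Fin 5 × Equiv.Perm (Fin 5) => b z.1 z.2)).subset ?_
    rintro g ⟨y, a, -, rfl⟩
    exact ⟨(y, a), rfl⟩

/-- the group -/
def K : Subgroup P := Subgroup.closure gens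

lemma rt_mem {a : Equiv.Perm (Fin 5)} (ha : a ∈ A) : rt a ∈ K :=
  Subgroup.subset_closure (Or.inl ⟨a, ha, rfl⟩)
lemma b_mem {a : Equiv.Perm (Fin 5)} (y : Fin 5) (ha : a ∈ A) : b y a ∈ K :=
  Subgroup.subset_closure (Or.inr ⟨y, a, ha, rfl⟩)

lemma K_le {H : Subgroup P} (h1 : ∀ a ∈ A, rt a ∈ H) (h2 : ∀ y, y ≠ 0 → ∀ a ∈ A, b y a ∈ H) :
    K ≤ H := by
  rw [K, Subgroup.closure_le]
  rintro g (⟨a, ha, rfl⟩ | ⟨y, a, ha, rfl⟩)
  · exact h1 a ha
  · by_cases hy : y = 0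
    · subst hy
      rw [b_zero]
      exact H.one_mem
    · exact h2 y hy a ha

lemma K_le_wr : K ≤ wr K := by
  apply K_le
  · intro a ha
    exact rt_mem_wr ha
  · intro y hy a ha
    rw [b_mk, mk_mem_wr]
    refine ⟨A.one_mem, fun x => ?_⟩
    by_cases h0 : x = 0
    · rw [if_pos h0]
      exact b_mem y ha
    · by_cases h1 : x = y
      · rw [if_neg h0, if_pos h1]
        exact rt_mem ha
      · rw [if_neg h0, if_neg h1]
        exact K.one_mem

/-- every element of the group is a section at `0` of an element fixing `0` -/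
lemma self_rep {k : P} (hk : k ∈ K) : ∃ (s : Equiv.Perm (Fin 5)) (h : Fin 5 → P),
    mk s h ∈ K ∧ s 0 = 0 ∧ h 0 = k := by
  rw [K] at hk
  induction hk using Subgroup.closure_induction with
  | mem g hg =>
    rcases hg with ⟨a, ha, rfl⟩ | ⟨y, a, ha, rfl⟩
    · have h1 : rt (Equiv.swap 1 0 * Equiv.swap 0 2) * b 1 a *
          (rt (Equiv.swap 1 0 * Equiv.swap 0 2))⁻¹ ∈ K := by
        refine K.mul_mem (K.mul_mem (rt_mem ?_) (b_mem 1 ha)) (K.inv_mem (rt_mem ?_)) <;>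
        exact alt_mem _ (by decide)
      rw [rt_apply, b_mk, conj_mk1] at h1
      refine ⟨_, _, h1, rfl, ?_⟩
      have e1 : (Equiv.swap 1 0 * Equiv.swap 0 2 : Equiv.Perm (Fin 5))⁻¹ 0 = 1 := by decide
      rw [e1]
      simp
    · refine ⟨1, fun x => if x = 0 then b y a else if x = y then rt a else 1, ?_, rfl, by simp⟩
      rw [← b_mk]
      exact b_mem y ha
  | one => exact ⟨1, 1, by rw [mk_one]; exact K.one_mem, rfl, rfl⟩
  | mul g h _ _ ig ih =>
    obtain ⟨s, k, h1, h2, rfl⟩ := ig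
    obtain ⟨s', k', h1', h2', rfl⟩ := ih
    refine ⟨s * s', fun x => k (s' x) * k' x, ?_, ?_, ?_⟩
    · rw [← mk_mul]
      exact K.mul_mem h1 h1'
    · rw [Equiv.Perm.mul_apply, h2', h2]
    · show k (s' 0) * k' 0 = _
      rw [h2']
  | inv g _ ig =>
    obtain ⟨s, k, h1, h2, rfl⟩ := ig
    have h3 : s⁻¹ 0 = 0 := by rw [Equiv.Perm.inv_eq_iff_eq, h2]
    refine ⟨s⁻¹, fun x => (k (s⁻¹ x))⁻¹, ?_, h3, ?_⟩
    · rw [← mk_inv]
      exact K.inv_mem h1
    · show (k (s⁻¹ 0))⁻¹ = _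
      rw [h3]

lemma ioK_rt {a : Equiv.Perm (Fin 5)} (ha : a ∈ A) : io 0 (rt a) ∈ K := by
  have h : A ≤ K.comap ((io 0).comp rt) := by
    apply A_le_of_comm
    intro a ha a' ha'
    show io 0 (rt ⁅a, a'⁆) ∈ K
    have hb1 := b_io (y := 1) (by decide) a
    have hb2 := b_io (y := 1) (by decide) a'
    have hc : (Equiv.swap 1 0 * Equiv.swap 0 2 : Equiv.Perm (Fin 5)) ∈ A := alt_mem _ (by decide)
    have hd : (Equiv.swap 1 0 * Equiv.swap 0 3 : Equiv.Perm (Fin 5)) ∈ A := alt_mem _ (by decide)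
    have m1 := K.mul_mem (K.mul_mem (rt_mem hc) (b_mem 1 ha)) (K.inv_mem (rt_mem hc))
    have m2 := K.mul_mem (K.mul_mem (rt_mem hd) (b_mem 1 ha')) (K.inv_mem (rt_mem hd))
    have e1 : rt (Equiv.swap 1 0 * Equiv.swap 0 2) * b 1 a *
          (rt (Equiv.swap 1 0 * Equiv.swap 0 2))⁻¹ = io 0 (rt a) * io 2 (b 1 a) := by
      conv_lhs => rw [hb1]
      have : rt (Equiv.swap 1 0 * Equiv.swap 0 2) * (io 0 (b 1 a) * io 1 (rt a)) *
          (rt (Equiv.swap 1 0 * Equiv.swap 0 2))⁻¹ =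
          (rt (Equiv.swap 1 0 * Equiv.swap 0 2) * io 0 (b 1 a) *
          (rt (Equiv.swap 1 0 * Equiv.swap 0 2))⁻¹) *
          (rt (Equiv.swap 1 0 * Equiv.swap 0 2) * io 1 (rt a) *
          (rt (Equiv.swap 1 0 * Equiv.swap 0 2))⁻¹) := by group
      rw [this, conj_rt, conj_rt]
      have f1 : (Equiv.swap 1 0 * Equiv.swap 0 2 : Equiv.Perm (Fin 5)) 0 = 2 := by decide
      have f2 : (Equiv.swap 1 0 * Equiv.swap 0 2 : Equiv.Perm (Fin 5)) 1 = 0 := by decide
      rw [f1, f2]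
      have h5 := comm4 (i := 2) (j := 2) (l := 0) (m := 0) (by decide) (by decide) (by decide)
        (by decide) (b 1 a) 1 (rt a) 1
      rw [map_one, map_one, mul_one, mul_one, commutatorElement_eq_one_iff_mul_comm] at h5
      exact h5
    have e2 : rt (Equiv.swap 1 0 * Equiv.swap 0 3) * b 1 a' *
          (rt (Equiv.swap 1 0 * Equiv.swap 0 3))⁻¹ = io 0 (rt a') * io 3 (b 1 a') := by
      conv_lhs => rw [hb2]
      have : rt (Equiv.swap 1 0 * Equiv.swap 0 3) * (io 0 (b 1 a') * io 1 (rt a')) *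
          (rt (Equiv.swap 1 0 * Equiv.swap 0 3))⁻¹ =
          (rt (Equiv.swap 1 0 * Equiv.swap 0 3) * io 0 (b 1 a') *
          (rt (Equiv.swap 1 0 * Equiv.swap 0 3))⁻¹) *
          (rt (Equiv.swap 1 0 * Equiv.swap 0 3) * io 1 (rt a') *
          (rt (Equiv.swap 1 0 * Equiv.swap 0 3))⁻¹) := by group
      rw [this, conj_rt, conj_rt]
      have f1 : (Equiv.swap 1 0 * Equiv.swap 0 3 : Equiv.Perm (Fin 5)) 0 = 3 := by decide
      have f2 : (Equiv.swap 1 0 * Equiv.swap 0 3 : Equiv.Perm (Fin 5)) 1 = 0 := by decide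
      rw [f1, f2]
      have h5 := comm4 (i := 3) (j := 3) (l := 0) (m := 0) (by decide) (by decide) (by decide)
        (by decide) (b 1 a') 1 (rt a') 1
      rw [map_one, map_one, mul_one, mul_one, commutatorElement_eq_one_iff_mul_comm] at h5
      exact h5
    rw [e1] at m1
    rw [e2] at m2
    have m3 := K.mul_mem (K.mul_mem (K.mul_mem m1 m2) (K.inv_mem m1)) (K.inv_mem m2)
    rw [← commutatorElement_def, comm3 (by decide) (by decide) (by decide),
      ← map_commutatorElement] at m3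
    exact m3
  exact h ha

lemma conj_b {c : Equiv.Perm (Fin 5)} {y : Fin 5} (hy : y ≠ 0) (a : Equiv.Perm (Fin 5)) :
    rt c * b y a * (rt c)⁻¹ = io (c 0) (b y a) * io (c y) (rt a) := by
  conv_lhs => rw [b_io hy]
  have : rt c * (io 0 (b y a) * io y (rt a)) * (rt c)⁻¹ =
      (rt c * io 0 (b y a) * (rt c)⁻¹) * (rt c * io y (rt a) * (rt c)⁻¹) := by group
  rw [this, conj_rt, conj_rt]

lemma ne_aux1 : ∀ y : Fin 5, y ≠ 0 →
    (Equiv.swap 1 2 * Equiv.swap 3 4 : Equiv.Perm (Fin 5)) y ≠ 0 := by decide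
lemma ne_aux2 : ∀ y : Fin 5, y ≠ 0 →
    y ≠ (Equiv.swap 1 2 * Equiv.swap 3 4 : Equiv.Perm (Fin 5)) y := by decide

lemma ioK_b {y : Fin 5} (hy : y ≠ 0) {a : Equiv.Perm (Fin 5)} (ha : a ∈ A) :
    io 0 (b y a) ∈ K := by
  have h : A ≤ K.comap ((io 0).comp (b y)) := by
    apply A_le_of_comm
    intro a ha a' ha'
    show io 0 (b y ⁅a, a'⁆) ∈ K
    have hc : (Equiv.swap 1 2 * Equiv.swap 3 4 : Equiv.Perm (Fin 5)) ∈ A := alt_mem _ (by decide)
    have m1 := b_mem y ha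
    have m2 := K.mul_mem (K.mul_mem (rt_mem hc) (b_mem y ha')) (K.inv_mem (rt_mem hc))
    have f1 : (Equiv.swap 1 2 * Equiv.swap 3 4 : Equiv.Perm (Fin 5)) 0 = 0 := by decide
    have f2 : (Equiv.swap 1 2 * Equiv.swap 3 4 : Equiv.Perm (Fin 5)) y ≠ 0 := ne_aux1 y hy
    have f3 : y ≠ (Equiv.swap 1 2 * Equiv.swap 3 4 : Equiv.Perm (Fin 5)) y := ne_aux2 y hy
    rw [conj_b hy, f1] at m2
    have m3 := K.mul_mem (K.mul_mem (K.mul_mem m1 m2) (K.inv_mem m1)) (K.inv_mem m2)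
    rw [← commutatorElement_def] at m3
    conv at m3 => rw [b_io hy a]
    rw [comm3 hy.symm f2.symm f3, ← map_commutatorElement] at m3
    exact m3
  exact h ha

lemma ioK {k : P} (hk : k ∈ K) (i : Fin 5) : io i k ∈ K := by
  have h : K ≤ K.comap (io 0) := K_le (fun a ha => ioK_rt ha) (fun y hy a ha => ioK_b hy ha)
  obtain ⟨c, hc, h1⟩ := exists_even 0 i
  have h2 := K.mul_mem (K.mul_mem (rt_mem hc) (h hk)) (K.inv_mem (rt_mem hc))
  rw [conj_rt, h1] at h2
  exact h2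

lemma mk1_io (e : Fin 5 → P) :
    mk 1 e = io 0 (e 0) * io 1 (e 1) * io 2 (e 2) * io 3 (e 3) * io 4 (e 4) := by
  simp only [io, MonoidHom.comp_apply]
  rw [← map_mul, ← map_mul, ← map_mul, ← map_mul, ← mk1_apply]
  refine congrArg mk1 (funext fun i => ?_)
  fin_cases i <;> simp

lemma wr_le_of {L H : Subgroup P} (h1 : ∀ a ∈ A, rt a ∈ H) (h2 : ∀ k ∈ L, ∀ i, io i k ∈ H) :
    wr L ≤ H := by
  rintro _ ⟨σ, hσ, h, hh, rfl⟩
  have e : mk σ h = rt σ * mk 1 h := by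
    rw [rt_apply, mk_mul]
    refine congr (congrArg mk (by simp)) (funext fun x => ?_)
    simp
  rw [e, mk1_io]
  exact H.mul_mem (h1 _ hσ) (H.mul_mem (H.mul_mem (H.mul_mem (H.mul_mem (h2 _ (hh _) _)
    (h2 _ (hh _) _)) (h2 _ (hh _) _)) (h2 _ (hh _) _)) (h2 _ (hh _) _))

theorem wr_K : wr K = K :=
  le_antisymm (wr_le_of (fun _ ha => rt_mem ha) (fun _ hk i => ioK hk i)) K_le_wr

/-- the normal closure of the rooted automorphisms is everything -/
lemma K_le_normal {N : Subgroup P} (h1 : ∀ a ∈ A, rt a ∈ N)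
    (h2 : ∀ k ∈ K, ∀ n ∈ N, k * n * k⁻¹ ∈ N) : K ≤ N := by
  apply K_le h1
  intro y hy a ha
  have h : A ≤ N.comap (b y) := by
    apply A_le_of_comm
    intro a' ha' a ha
    show b y ⁅a', a⁆ ∈ N
    obtain ⟨c, hc, f1, f2, f3⟩ : ∃ c ∈ A, c 0 ≠ 0 ∧ c 0 ≠ y ∧ c y ≠ 0 ∧ c y ≠ y := by
      have : ∀ y : Fin 5, y ≠ 0 → ∃ c ∈ A, c 0 ≠ 0 ∧ c 0 ≠ y ∧ c y ≠ 0 ∧ c y ≠ y := by
        intro y hy
        fin_cases y
        · exact absurd rfl hy
        · exact ⟨al, alt_mem _ (by decide), by decide⟩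
        · exact ⟨Equiv.swap 0 1 * Equiv.swap 2 3, alt_mem _ (by decide), by decide⟩
        · exact ⟨Equiv.swap 0 1 * Equiv.swap 2 3, alt_mem _ (by decide), by decide⟩
        · exact ⟨Equiv.swap 0 1 * Equiv.swap 4 2, alt_mem _ (by decide), by decide⟩
      exact this y hy
    obtain ⟨f3, f4⟩ := f3
    set β := b y a with hβ
    set β' := b y a' with hβ'
    set γ := rt c * β * (rt c)⁻¹ with hγ
    have hcomm : β' * γ = γ * β' := by
      rw [hγ, hβ, hβ', conj_b hy, b_io hy a', ← commutatorElement_eq_one_iff_mul_comm]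
      exact comm4 f1.symm f3.symm f2.symm f4.symm _ _ _ _
    have hn : β * γ⁻¹ ∈ N := by
      have h3 := N.mul_mem (h2 β (b_mem y ha) (rt c) (h1 c hc)) (N.inv_mem (h1 c hc))
      have h4 : β * rt c * β⁻¹ * (rt c)⁻¹ = β * γ⁻¹ := by rw [hγ]; group
      rw [h4] at h3
      exact h3
    have h5 : b y ⁅a', a⁆ = (β' * (β * γ⁻¹) * β'⁻¹) * (β * γ⁻¹)⁻¹ := by
      rw [map_commutatorElement, ← hβ, ← hβ', commutatorElement_def]
      have h6 : β' * (β * γ⁻¹) * β'⁻¹ * (β * γ⁻¹)⁻¹ = β' * β * (γ⁻¹ * β'⁻¹ * γ) * β⁻¹ := by group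
      have h7 : γ⁻¹ * β'⁻¹ * γ = β'⁻¹ := by
        have : γ * β'⁻¹ = β'⁻¹ * γ := by
          rw [eq_inv_mul_iff_mul_eq, ← mul_assoc, hcomm]; group
        rw [mul_assoc, ← this]; group
      rw [h6, h7]
    rw [h5]
    exact N.mul_mem (h2 β' (b_mem y ha') _ hn) (N.inv_mem hn)
  exact h ha

end Pool.Agent.Q89.Br
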