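import Pool.Agent.Q89.Br1

set_option autoImplicit false

/-!
Maximal subgroups of `K` containing all finitary elements.
-/

namespace Pool.Agent.Q89.Br

open scoped commutatorElement
open Pool.Agent.Q89.WA5

/-- finitary elements of depth at most `n` -/
def F : ℕ → Subgroup P
  | 0 => ⊥
  | n + 1 => wr (F n)

/-- maximal subgroups of `K` containing all finitary elements -/
def Good (H : Subgroup P) : Prop :=
  (H < K ∧ ∀ H', H < H' → H' ≤ K → H' = K) ∧ ∀ n, F n ≤ H

lemma rt_mem_F {a : Equiv.Perm (Fin 5)} (ha : a ∈ A) : rt a ∈ F 1 := rt_mem_wr ha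

/-- A maximal subgroup containing the finitary elements is of the form `L ≀ A₅`. -/
lemma good_wr {H : Subgroup P} (hH : Good H) : ∃ L, Good L ∧ H = wr L := by
  obtain ⟨⟨hlt, hmax⟩, hF⟩ := hH
  have hr : ∀ a ∈ A, rt a ∈ H := fun a ha => hF 1 (rt_mem_F ha)
  let L : Subgroup P := (H.comap mk1).map (Pi.evalMonoidHom (fun _ : Fin 5 => P) 0)
  have memL : ∀ k, k ∈ L ↔ ∃ h : Fin 5 → P, mk 1 h ∈ H ∧ h 0 = k := by
    intro k
    exact Iff.rfl
  have hLK : L ≤ K := by
    intro k hk
    obtain ⟨h, h1, rfl⟩ := (memL k).1 hk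
    have h2 := K_le_wr (hlt.le h1)
    exact (mk_mem_wr.1 h2).2 0
  have h1 : H ≤ wr L := by
    intro g hg
    obtain ⟨σ, hσ, h, hh, rfl⟩ := K_le_wr (hlt.le hg)
    have h2 : mk 1 h ∈ H := by
      have h3 := H.mul_mem (H.inv_mem (hr σ hσ)) hg
      have h4 : (rt σ)⁻¹ * mk σ h = mk 1 h := by
        rw [← map_inv, rt_apply, mk_mul]
        refine congr (congrArg mk (by simp)) (funext fun x => ?_)
        simp
      rw [h4] at h3
      exact h3
    rw [mk_mem_wr]
    refine ⟨hσ, fun x => ?_⟩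
    obtain ⟨c, hc, hcx⟩ := exists_even x 0
    have h5 := H.mul_mem (H.mul_mem (hr c hc) h2) (H.inv_mem (hr c hc))
    rw [rt_apply, conj_mk1] at h5
    rw [memL]
    refine ⟨_, h5, ?_⟩
    have h6 : c⁻¹ 0 = x := by rw [← hcx]; exact c.symm_apply_apply x
    rw [h6]
    simp
  have hLne : L ≠ K := by
    intro hL
    have hN : K ≤ H.comap (io 0) := by
      apply K_le_normal
      · intro a ha
        have h2 : io 0 (rt a) ∈ F 2 := io_mem_wr.2 (rt_mem_F ha)
        exact hF 2 h2
      · intro k hk n hn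
        rw [← hL] at hk
        obtain ⟨h, h2, rfl⟩ := (memL k).1 hk
        have h3 := H.mul_mem (H.mul_mem h2 hn) (H.inv_mem h2)
        rw [conj_io] at h3
        exact h3
    have hK : wr K ≤ H := by
      apply wr_le_of hr
      intro k hk i
      obtain ⟨c, hc, hc0⟩ := exists_even 0 i
      have h5 := H.mul_mem (H.mul_mem (hr c hc) (hN hk)) (H.inv_mem (hr c hc))
      rw [conj_rt, hc0] at h5
      exact h5
    rw [wr_K] at hK
    exact absurd hK (not_le_of_gt hlt)
  have hwL : wr L ≤ K := by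
    rw [← wr_K]
    exact wr_mono hLK
  have hHL : H = wr L := by
    by_contra hne
    have h2 := hmax (wr L) (lt_of_le_of_ne h1 hne) hwL
    rw [← wr_K] at h2
    exact hLne (wr_inj h2)
  refine ⟨L, ⟨⟨lt_of_le_of_ne hLK hLne, ?_⟩, ?_⟩, hHL⟩
  · intro L' h2 h3
    have h4 : H < wr L' := by
      rw [hHL]
      refine lt_of_le_of_ne (wr_mono h2.le) ?_
      intro h5
      exact h2.ne (wr_inj h5)
    have h5 := hmax (wr L') h4 (by rw [← wr_K]; exact wr_mono h3)
    rw [← wr_K] at h5
    exact wr_inj h5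
  · intro n
    have h2 := hF (n + 1)
    rw [hHL] at h2
    exact wr_le.1 h2

/-- trivial section -/
def Triv (k : P) (w : List (Fin 5)) : Prop := ∀ u, k (w ++ u) = k w ++ u

lemma triv_nil {k : P} (h0 : k [] = []) (h : Triv k []) : k = 1 := by
  ext1 u
  have := h u
  rw [h0] at this
  simpa using this

lemma triv_cons {σ : Equiv.Perm (Fin 5)} {h : Fin 5 → P} {x : Fin 5} {w : List (Fin 5)}
    (ht : Triv (mk σ h) (x :: w)) : Triv (h x) w := by
  intro u
  have h1 := ht u
  rw [List.cons_append, mk_cons, mk_cons, List.cons_append, List.cons.injEq] at h1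
  exact h1.2

lemma K_nil {k : P} (hk : k ∈ K) : k [] = [] := by
  obtain ⟨σ, _, h, _, rfl⟩ := K_le_wr hk
  rfl

/-- The malnormality of good subgroups. -/
lemma good_malnormal (w : List (Fin 5)) : ∀ (H : Subgroup P), Good H → ∀ k ∈ K, Triv k w →
    (∀ n, ∀ f ∈ F n, k * f * k⁻¹ ∈ H) → k ∈ H := by
  induction w with
  | nil =>
    intro H hH k hk ht _
    rw [triv_nil (K_nil hk) ht]
    exact H.one_mem
  | cons x w ih =>
    intro H hH k hk ht hf
    obtain ⟨L, hL, rfl⟩ := good_wr hH
    obtain ⟨σ, hσ, h, hh, rfl⟩ := K_le_wr hk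
    have hx : h x ∈ L := by
      apply ih L hL (h x) (hh x) (triv_cons ht)
      intro n f hfn
      have h1 := hf (n + 1) (io x f) (io_mem_wr.2 hfn)
      rw [conj_io] at h1
      exact io_mem_wr.1 h1
    rw [mk_mem_wr]
    refine ⟨hσ, fun y => ?_⟩
    obtain ⟨c, hc, hcx⟩ := exists_even x y
    have h1 := hf 1 (rt c) (rt_mem_F hc)
    rw [rt_apply, mk_inv, mk_mul, mk_mul, mk_mem_wr] at h1
    have h2 := h1.2 (σ x)
    have h3 : σ⁻¹ (σ x) = x := σ.symm_apply_apply x
    simp only [h3, Pi.one_apply, mul_one, hcx] at h2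
    have h4 := L.mul_mem h2 hx
    rw [inv_mul_cancel_right] at h4
    exact h4

/-- many trivial sections -/
def Sp (k : P) : Prop := ∀ v, ∃ u, Triv k (v ++ u)

lemma sp_mul {k l : P} (hk : Sp k) (hl : Sp l) : Sp (k * l) := by
  intro v
  obtain ⟨u, hu⟩ := hl v
  obtain ⟨u', hu'⟩ := hk (l (v ++ u))
  refine ⟨u ++ u', fun t => ?_⟩
  rw [Equiv.Perm.mul_apply, Equiv.Perm.mul_apply]
  have e1 : v ++ (u ++ u') ++ t = (v ++ u) ++ (u' ++ t) := by simp
  have e2 : v ++ (u ++ u') = (v ++ u) ++ u' := by simp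
  rw [e1, e2, hu, hu, ← List.append_assoc, hu']

lemma triv_rt {a : Equiv.Perm (Fin 5)} {x : Fin 5} {v : List (Fin 5)} : Triv (rt a) (x :: v) := by
  intro u
  rfl

lemma sp_rt (a : Equiv.Perm (Fin 5)) : Sp (rt a) := by
  intro v
  cases v with
  | nil => exact ⟨[0], triv_rt⟩
  | cons x v => exact ⟨[], triv_rt⟩

lemma sp_b (y : Fin 5) (a : Equiv.Perm (Fin 5)) : Sp (b y a) := by
  intro v
  induction v with
  | nil =>
    by_cases h : y = 1
    · refine ⟨[2], fun u => ?_⟩
      subst h
      rfl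
    · refine ⟨[1], fun u => ?_⟩
      show bF y a (1 :: u) = bF y a [1] ++ u
      have h1 : ¬ (1 : Fin 5) = y := fun e => h e.symm
      simp only [bF, h1, if_false, one_ne_zero, List.cons_append, List.nil_append]
  | cons x v ih =>
    by_cases h0 : x = 0
    · subst h0
      obtain ⟨u, hu⟩ := ih
      refine ⟨u, fun t => ?_⟩
      have := hu t
      show bF y a (0 :: (v ++ u) ++ t) = bF y a (0 :: (v ++ u)) ++ t
      simp only [List.cons_append, bF, if_true]
      congr 1
    · by_cases h1 : x = y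
      · subst h1
        obtain ⟨u, hu⟩ := sp_rt a v
        refine ⟨u, fun t => ?_⟩
        have := hu t
        show bF x a (x :: (v ++ u) ++ t) = bF x a (x :: (v ++ u)) ++ t
        simp only [List.cons_append, bF, if_true, h0, if_false]
        congr 1
      · refine ⟨[], fun t => ?_⟩
        show bF y a (x :: (v ++ []) ++ t) = bF y a (x :: (v ++ [])) ++ t
        simp only [List.cons_append, bF, h0, h1, if_false]

lemma sp_K {k : P} (hk : k ∈ K) : Sp k ∧ Sp k⁻¹ := by
  rw [K] at hk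
  induction hk using Subgroup.closure_induction with
  | mem g hg =>
    rcases hg with ⟨a, ha, rfl⟩ | ⟨y, a, ha, rfl⟩
    · rw [← map_inv]
      exact ⟨sp_rt _, sp_rt _⟩
    · rw [← map_inv]
      exact ⟨sp_b _ _, sp_b _ _⟩
  | one =>
    rw [inv_one]
    exact ⟨fun v => ⟨[], fun u => rfl⟩, fun v => ⟨[], fun u => rfl⟩⟩
  | mul g h _ _ ig ih =>
    rw [mul_inv_rev]
    exact ⟨sp_mul ig.1 ih.1, sp_mul ih.2 ig.2⟩
  | inv g _ ig =>
    rw [inv_inv]
    exact ⟨ig.2, ig.1⟩

theorem malnormal {H : Subgroup P} (hH : Good H) {k : P} (hk : k ∈ K)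
    (hf : ∀ n, ∀ f ∈ F n, k * f * k⁻¹ ∈ H) : k ∈ H := by
  obtain ⟨u, hu⟩ := (sp_K hk).1 []
  exact good_malnormal _ H hH k hk hu hf

/-- infinite index -/
lemma many_cosets (m : ℕ) : ∀ H, Good H → ∃ e : Fin m → P, (∀ i, e i ∈ K) ∧
    ∀ i j, i ≠ j → (e i)⁻¹ * e j ∉ H := by
  induction m with
  | zero => exact fun H _ => ⟨fun i => i.elim0, fun i => i.elim0, fun i => i.elim0⟩
  | succ m ih =>
    intro H hH
    obtain ⟨L, hL, rfl⟩ := good_wr hH
    obtain ⟨e, he1, he2⟩ := ih L hL
    obtain ⟨t, ht1, ht2⟩ := SetLike.exists_of_lt hL.1.1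
    have key1 : ∀ k, (io 1 t)⁻¹ * io 0 k ∉ wr L := by
      intro k h
      rw [← map_inv, io, io, MonoidHom.comp_apply, MonoidHom.comp_apply, ← map_mul, mk1_apply,
        mk_mem_wr] at h
      have h2 := h.2 1
      apply ht2
      rw [← L.inv_mem_iff]
      simpa using h2
    refine ⟨Fin.cons (io 1 t) (fun i => io 0 (e i)), ?_, ?_⟩
    · intro i
      refine Fin.cases ?_ (fun i => ?_) i
      · exact ioK ht1 1
      · exact ioK (he1 i) 0
    · intro i j
      refine Fin.cases ?_ (fun i => ?_) i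
      · refine Fin.cases ?_ (fun j => ?_) j
        · intro h; exact absurd rfl h
        · intro _
          exact key1 _
      · refine Fin.cases ?_ (fun j => ?_) j
        · intro _ h
          apply key1 (e i)
          have h2 := (wr L).inv_mem h
          rw [mul_inv_rev, inv_inv] at h2
          exact h2
        · intro hij h
          apply he2 i j (fun e => hij (by rw [e]))
          simp only [Fin.cons_succ] at h
          rw [← map_inv, ← map_mul] at h
          exact io_mem_wr.1 h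

theorem good_index {H : Subgroup P} (hH : Good H) : H.relIndex K = 0 := by
  by_contra hne
  have hfin : (H.subgroupOf K).FiniteIndex := ⟨hne⟩
  have : Finite (K ⧸ H.subgroupOf K) := inferInstance
  obtain ⟨e, he1, he2⟩ := many_cosets (Nat.card (K ⧸ H.subgroupOf K) + 1) H hH
  have hinj : Function.Injective (fun i : Fin (Nat.card (K ⧸ H.subgroupOf K) + 1) =>
      (QuotientGroup.mk (⟨e i, he1 i⟩ : K) : K ⧸ H.subgroupOf K)) := by
    intro i j hij
    by_contra hn
    apply he2 i j hn
    have h2 := QuotientGroup.eq.1 hij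
    exact h2
  have := Nat.card_le_card_of_injective _ hinj
  rw [Nat.card_eq_fintype_card, Fintype.card_fin] at this
  omega

end Pool.Agent.Q89.Br
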