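import Pool.Agent.Q89.Br2

set_option autoImplicit false

/-!
A maximal subgroup of `K` which contains the finitary elements and `b 1 a`, `b 3 a`, and an
involution normalising `K` which exchanges `b 1` and `b 2`, and `b 3` and `b 4`.
-/

namespace Pool.Agent.Q89.Br

open scoped commutatorElement
open Pool.Agent.Q89.WA5

/-- the word `0 0 ⋯ 0` -/
abbrev z (m : ℕ) : List (Fin 5) := List.replicate m 0

/-- a property of germs -/
def Z (k : P) : Prop := ∀ v, ∃ n v', ∀ m, k (v ++ z (n + m)) = v' ++ z m ∧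
  ∀ w, k (v ++ (z (n + m) ++ 2 :: w)) = v' ++ (z m ++ 2 :: w)

lemma Z_one : Z 1 := by
  intro v
  refine ⟨0, v, fun m => ?_⟩
  rw [zero_add]
  exact ⟨rfl, fun w => rfl⟩

lemma Z_mul {k l : P} (hk : Z k) (hl : Z l) : Z (k * l) := by
  intro v
  obtain ⟨n, v', h⟩ := hl v
  obtain ⟨n', v'', h'⟩ := hk v'
  refine ⟨n + n', v'', fun m => ?_⟩
  rw [add_assoc, Equiv.Perm.mul_apply, (h (n' + m)).1, (h' m).1]
  refine ⟨rfl, fun w => ?_⟩
  rw [Equiv.Perm.mul_apply, (h (n' + m)).2, (h' m).2]

lemma Z_mk {σ : Equiv.Perm (Fin 5)} {h : Fin 5 → P} (hh : ∀ x, Z (h x)) : Z (mk σ h) := by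
  intro v
  cases v with
  | nil =>
    obtain ⟨n, v', h1⟩ := hh 0 []
    refine ⟨n + 1, σ 0 :: v', fun m => ?_⟩
    have e : z (n + 1 + m) = 0 :: z (n + m) := by
      rw [show n + 1 + m = (n + m) + 1 from by omega]
      rfl
    rw [e]
    constructor
    · show σ 0 :: h 0 ([] ++ z (n + m)) = _
      rw [(h1 m).1]
      rfl
    · intro w
      show σ 0 :: h 0 ([] ++ (z (n + m) ++ 2 :: w)) = _
      rw [(h1 m).2]
      rfl
  | cons x v =>
    obtain ⟨n, v', h1⟩ := hh x v
    refine ⟨n, σ x :: v', fun m => ?_⟩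
    constructor
    · show σ x :: h x (v ++ z (n + m)) = _
      rw [(h1 m).1]
      rfl
    · intro w
      show σ x :: h x (v ++ (z (n + m) ++ 2 :: w)) = _
      rw [(h1 m).2]
      rfl

lemma Z_F (n : ℕ) : ∀ k ∈ F n, Z k := by
  induction n with
  | zero =>
    intro k hk
    rw [Subgroup.mem_bot.1 hk]
    exact Z_one
  | succ n ih =>
    rintro _ ⟨σ, _, h, hh, rfl⟩
    exact Z_mk fun x => ih _ (hh x)

lemma bF_z (y : Fin 5) (a : Equiv.Perm (Fin 5)) (m : ℕ) : bF y a (z m) = z m := by
  induction m with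
  | zero => rfl
  | succ m ih =>
    show bF y a (0 :: z m) = 0 :: z m
    simp only [bF, if_true, ih]

lemma bF_z2 {y : Fin 5} (hy : y ≠ 2) (a : Equiv.Perm (Fin 5)) (m : ℕ) (w : List (Fin 5)) :
    bF y a (z m ++ 2 :: w) = z m ++ 2 :: w := by
  induction m with
  | zero =>
    have h1 : ¬ (2 : Fin 5) = 0 := by decide
    show bF y a (2 :: w) = 2 :: w
    simp only [bF, h1, hy.symm, if_false]
  | succ m ih =>
    show bF y a (0 :: (z m ++ 2 :: w)) = 0 :: (z m ++ 2 :: w)
    simp only [bF, if_true, ih]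

lemma bF_z22 (a : Equiv.Perm (Fin 5)) (m : ℕ) (w : List (Fin 5)) :
    bF 2 a (z m ++ 2 :: w) = z m ++ 2 :: rt a w := by
  induction m with
  | zero =>
    have h1 : ¬ (2 : Fin 5) = 0 := by decide
    show bF 2 a (2 :: w) = 2 :: rt a w
    simp only [bF, h1, if_false, if_true]
  | succ m ih =>
    show bF 2 a (0 :: (z m ++ 2 :: w)) = 0 :: (z m ++ 2 :: rt a w)
    simp only [bF, if_true, ih]

lemma Z_rt (a : Equiv.Perm (Fin 5)) : Z (rt a) := Z_mk fun _ => Z_one

lemma Z_b {y : Fin 5} (hy : y ≠ 2) (a : Equiv.Perm (Fin 5)) : Z (b y a) := by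
  intro v
  induction v with
  | nil =>
    refine ⟨0, [], fun m => ⟨?_, fun w => ?_⟩⟩
    · rw [zero_add]
      exact bF_z y a m
    · rw [zero_add]
      exact bF_z2 hy a m w
  | cons x v ih =>
    by_cases h0 : x = 0
    · subst h0
      obtain ⟨n, v', h1⟩ := ih
      refine ⟨n, 0 :: v', fun m => ⟨?_, fun w => ?_⟩⟩
      · have h2 := (h1 m).1
        show bF y a (0 :: (v ++ z (n + m))) = 0 :: (v' ++ z m)
        simp only [bF, if_true]
        exact congrArg _ h2
      · have h2 := (h1 m).2 w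
        show bF y a (0 :: (v ++ (z (n + m) ++ 2 :: w))) = 0 :: (v' ++ (z m ++ 2 :: w))
        simp only [bF, if_true]
        exact congrArg _ h2
    · by_cases h1 : x = y
      · subst h1
        obtain ⟨n, v', h1⟩ := Z_rt a v
        refine ⟨n, x :: v', fun m => ⟨?_, fun w => ?_⟩⟩
        · have h2 := (h1 m).1
          show bF x a (x :: (v ++ z (n + m))) = x :: (v' ++ z m)
          simp only [bF, if_true, h0, if_false]
          exact congrArg _ h2
        · have h2 := (h1 m).2 w
          show bF x a (x :: (v ++ (z (n + m) ++ 2 :: w))) = x :: (v' ++ (z m ++ 2 :: w))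
          simp only [bF, if_true, h0, if_false]
          exact congrArg _ h2
      · refine ⟨0, x :: v, fun m => ⟨?_, fun w => ?_⟩⟩
        · show bF y a (x :: (v ++ z (0 + m))) = x :: (v ++ z m)
          simp only [bF, h0, h1, if_false, zero_add]
        · show bF y a (x :: (v ++ (z (0 + m) ++ 2 :: w))) = x :: (v ++ (z m ++ 2 :: w))
          simp only [bF, h0, h1, if_false, zero_add]

/-- a proper subgroup -/
def C0 : Subgroup P :=
  Subgroup.closure ({g | ∃ n, g ∈ F n} ∪ {g | ∃ y, y ≠ 2 ∧ y ≠ 4 ∧ ∃ a ∈ A, g = b y a})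

lemma F_le_K (n : ℕ) : F n ≤ K := by
  induction n with
  | zero => exact bot_le
  | succ n ih =>
    rw [← wr_K]
    exact wr_mono ih

lemma F_le_C0 (n : ℕ) : F n ≤ C0 := fun _ hg => Subgroup.subset_closure (Or.inl ⟨n, hg⟩)

lemma C0_le_K : C0 ≤ K := by
  rw [C0, Subgroup.closure_le]
  rintro g (⟨n, hn⟩ | ⟨y, _, _, a, ha, rfl⟩)
  · exact F_le_K n hn
  · exact b_mem y ha

lemma Z_C0 {k : P} (hk : k ∈ C0) : Z k ∧ Z k⁻¹ := by
  rw [C0] at hk
  induction hk using Subgroup.closure_induction with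
  | mem g hg =>
    rcases hg with ⟨n, hn⟩ | ⟨y, hy, _, a, ha, rfl⟩
    · exact ⟨Z_F n _ hn, Z_F n _ ((F n).inv_mem hn)⟩
    · rw [← map_inv]
      exact ⟨Z_b hy _, Z_b hy _⟩
  | one =>
    rw [inv_one]
    exact ⟨Z_one, Z_one⟩
  | mul g h _ _ ig ih =>
    rw [mul_inv_rev]
    exact ⟨Z_mul ig.1 ih.1, Z_mul ih.2 ig.2⟩
  | inv g _ ig =>
    rw [inv_inv]
    exact ⟨ig.2, ig.1⟩

lemma C0_lt_K : C0 < K := by
  refine lt_of_le_of_ne C0_le_K ?_
  intro h
  have h1 : b 2 ta ∈ C0 := by
    rw [h]
    exact b_mem 2 (alt_mem _ (by decide))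
  obtain ⟨n, v', h2⟩ := (Z_C0 h1).1 []
  have h3 := (h2 0).1
  have h4 := (h2 0).2 [2]
  have h5 : b 2 ta ([] ++ z (n + 0)) = z (n + 0) := bF_z 2 ta _
  have h6 : b 2 ta ([] ++ (z (n + 0) ++ 2 :: [2])) = z (n + 0) ++ 2 :: rt ta [2] := bF_z22 ta _ _
  rw [h5] at h3
  rw [h6] at h4
  have h7 : v' = z (n + 0) := by
    rw [h3]; simp
  rw [h7] at h4
  have h8 : z 0 = [] := rfl
  rw [h8, List.nil_append] at h4
  have h9 := List.append_cancel_left h4
  have h10 : rt ta [2] = [3] := rfl
  rw [h10] at h9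
  revert h9
  decide

theorem exists_good : ∃ H, Good H ∧ C0 ≤ H := by
  have key := zorn_le_nonempty₀ {J : Subgroup P | J < K} ?_ C0 C0_lt_K
  · obtain ⟨H, h1, h2⟩ := key
    refine ⟨H, ⟨⟨h2.1, ?_⟩, fun n => (F_le_C0 n).trans h1⟩, h1⟩
    intro H' h3 h4
    by_contra h5
    have h6 := h2.2 (y := H') (lt_of_le_of_ne h4 h5) h3.le
    exact absurd h6 (not_le_of_gt h3)
  · intro c hc hchain y hy
    refine ⟨sSup c, ?_, fun J hJ => le_sSup hJ⟩
    show sSup c < K
    refine lt_of_le_of_ne (sSup_le fun J hJ => (hc hJ).le) ?_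
    intro he
    have hdir : DirectedOn (· ≤ ·) c := hchain.directedOn
    have h1 : ∀ T : Set P, T.Finite → T ⊆ gens → ∃ J ∈ c, T ⊆ J := by
      intro T hT
      induction T, hT using Set.Finite.induction_on with
      | empty => exact fun _ => ⟨y, hy, Set.empty_subset _⟩
      | insert _ _ ih =>
        rename_i a S _ _
        intro hS
        obtain ⟨J, hJ, hJS⟩ := ih ((Set.subset_insert _ _).trans hS)
        have h2 : a ∈ sSup c := by
          rw [he]
          exact Subgroup.subset_closure (hS (Set.mem_insert _ _))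
        obtain ⟨J', hJ', h3⟩ := (Subgroup.mem_sSup_of_directedOn ⟨y, hy⟩ hdir).1 h2
        obtain ⟨J'', hJ'', h4, h5⟩ := hdir J hJ J' hJ'
        exact ⟨J'', hJ'', Set.insert_subset (h5 h3) (hJS.trans h4)⟩
    obtain ⟨J, hJ, h2⟩ := h1 gens gens_fin subset_rfl
    have h3 : K ≤ J := by
      rw [K, Subgroup.closure_le]
      exact h2
    exact absurd h3 (not_le_of_gt (hc hJ))

/-- the local permutation of the involution -/
def tt : Equiv.Perm (Fin 5) := Equiv.swap 1 2 * Equiv.swap 3 4

lemma tt_tt (x : Fin 5) : tt (tt x) = x := by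
  revert x; decide

lemma tt_mul : tt * tt = 1 := by decide
lemma tt_inv : tt⁻¹ = tt := by decide

/-- the involution -/
def g : P where
  toFun := List.map tt
  invFun := List.map tt
  left_inv := by
    intro w
    simp [List.map_map, Function.comp_def, tt_tt]
  right_inv := by
    intro w
    simp [List.map_map, Function.comp_def, tt_tt]

lemma g_cons (x : Fin 5) (w : List (Fin 5)) : g (x :: w) = tt x :: g w := rfl

lemma g_mk : g = mk tt (fun _ => g) := by
  apply ext_mk
  · rfl
  · intro x w; rfl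

lemma g_inv : g⁻¹ = g := rfl

lemma g_g : g * g = 1 := by
  have : g * g⁻¹ = 1 := mul_inv_cancel g
  rwa [g_inv] at this

lemma conj_g_mk (σ : Equiv.Perm (Fin 5)) (h : Fin 5 → P) :
    g * mk σ h * g = mk (tt * σ * tt) (fun x => g * h (tt x) * g) := by
  apply ext_mk
  · rfl
  · intro x w; rfl

lemma tt_A {σ : Equiv.Perm (Fin 5)} (h : σ ∈ A) : tt * σ * tt ∈ A :=
  A.mul_mem (A.mul_mem (alt_mem tt (by decide)) h) (alt_mem tt (by decide))

lemma conj_g_rt (a : Equiv.Perm (Fin 5)) : g * rt a * g = rt (tt * a * tt) := by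
  rw [rt_apply, conj_g_mk]
  refine congrArg (mk _) (funext fun x => ?_)
  simp [g_g]

lemma conj_g_b (y : Fin 5) (a : Equiv.Perm (Fin 5)) :
    g * b y a * g = b (tt y) (tt * a * tt) := by
  ext1 w
  show g (bF y a (g w)) = bF (tt y) (tt * a * tt) w
  induction w with
  | nil => rfl
  | cons x w ih =>
    rw [g_cons]
    by_cases h0 : x = 0
    · subst h0
      have h1 : tt 0 = 0 := by decide
      rw [h1]
      simp only [bF, if_true]
      rw [g_cons, ih, h1]
    · have h1 : tt x ≠ 0 := by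
        intro h
        apply h0
        rw [← tt_tt x, h]
        decide
      by_cases h2 : x = tt y
      · subst h2
        rw [tt_tt] at h1 ⊢
        simp only [bF, h1, h0, if_false, if_true]
        rw [g_cons]
        have h3 := congrArg (fun k : P => k w) (conj_g_rt a)
        exact congrArg _ h3
      · have h3 : tt x ≠ y := by
          intro h
          apply h2
          rw [← h, tt_tt]
        simp only [bF, h0, h1, h2, h3, if_false]
        rw [g_cons, tt_tt]
        have h4 := congrArg (fun k : P => k w) g_g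
        exact congrArg _ h4

/-- conjugation by `g` -/
def cg (H : Subgroup P) : Subgroup P := H.comap (MulAut.conj g).toMonoidHom

lemma mem_cg {H : Subgroup P} {x : P} : x ∈ cg H ↔ g * x * g ∈ H := by
  show g * x * g⁻¹ ∈ H ↔ _
  rw [g_inv]

lemma cg_cg (H : Subgroup P) : cg (cg H) = H := by
  ext x
  rw [mem_cg, mem_cg]
  have : g * (g * x * g) * g = (g * g) * x * (g * g) := by group
  rw [this, g_g, one_mul, mul_one]

lemma cg_mono {H H' : Subgroup P} (h : H ≤ H') : cg H ≤ cg H' := fun x hx => h hx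

lemma K_le_cg : K ≤ cg K := by
  apply K_le
  · intro a ha
    rw [mem_cg, conj_g_rt]
    exact rt_mem (tt_A ha)
  · intro y _ a ha
    rw [mem_cg, conj_g_b]
    exact b_mem _ (tt_A ha)

lemma cg_K : cg K = K := by
  apply le_antisymm _ K_le_cg
  have := cg_mono K_le_cg
  rwa [cg_cg] at this

lemma conj_g_K {k : P} (hk : k ∈ K) : g * k * g ∈ K := mem_cg.1 (K_le_cg hk)

lemma conj_g_F (n : ℕ) : ∀ f ∈ F n, g * f * g ∈ F n := by
  induction n with
  | zero =>
    intro f hf
    rw [Subgroup.mem_bot.1 hf, mul_one, g_g]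
    exact (F 0).one_mem
  | succ n ih =>
    rintro _ ⟨σ, hσ, h, hh, rfl⟩
    rw [conj_g_mk]
    exact mk_mem_wr.2 ⟨tt_A hσ, fun x => ih _ (hh _)⟩

lemma good_cg {H : Subgroup P} (hH : Good H) : Good (cg H) := by
  obtain ⟨⟨h1, h2⟩, h3⟩ := hH
  refine ⟨⟨?_, ?_⟩, ?_⟩
  · refine lt_of_le_of_ne ?_ ?_
    · rw [← cg_K]
      exact cg_mono h1.le
    · intro h
      have h4 := congrArg cg h
      rw [cg_cg, cg_K] at h4
      exact h1.ne h4
  · intro H' h4 h5
    have h6 : H < cg H' := by
      refine lt_of_le_of_ne ?_ ?_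
      · have := cg_mono h4.le
        rwa [cg_cg] at this
      · intro h
        apply h4.ne
        rw [h, cg_cg]
    have h7 := h2 (cg H') h6 (by rw [← cg_K]; exact cg_mono h5)
    rw [← cg_cg H', h7, cg_K]
  · intro n f hf
    rw [mem_cg]
    exact h3 n (conj_g_F n f hf)

/-- the group `G = K ⋊ ⟨g⟩` -/
def G : Subgroup P where
  carrier := {x | x ∈ K ∨ g * x ∈ K}
  one_mem' := Or.inl K.one_mem
  mul_mem' := by
    rintro x y (hx | hx) (hy | hy)
    · exact Or.inl (K.mul_mem hx hy)
    · right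
      have := K.mul_mem (conj_g_K hx) hy
      have e : g * x * g * (g * y) = g * x * (g * g) * y := by group
      rw [e, g_g, mul_one] at this
      rw [← mul_assoc]
      exact this
    · right
      rw [← mul_assoc]
      exact K.mul_mem hx hy
    · left
      have := K.mul_mem (conj_g_K hx) hy
      have e : g * (g * x) * g * (g * y) = (g * g) * x * (g * g) * y := by group
      rw [e, g_g, mul_one, one_mul] at this
      exact this
  inv_mem' := by
    rintro x (hx | hx)
    · exact Or.inl (K.inv_mem hx)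
    · right
      have := conj_g_K (K.inv_mem hx)
      have e : g * (g * x)⁻¹ * g = g * x⁻¹ * (g⁻¹ * g) := by group
      rw [e, inv_mul_cancel, mul_one] at this
      exact this

lemma mem_G {x : P} : x ∈ G ↔ x ∈ K ∨ g * x ∈ K := Iff.rfl

lemma K_le_G : K ≤ G := fun _ hx => Or.inl hx

lemma g_mem : g ∈ G := by
  rw [mem_G, g_g]
  exact Or.inr K.one_mem

lemma G_eq : G = Subgroup.closure (insert g gens) := by
  apply le_antisymm
  · have hK : K ≤ Subgroup.closure (insert g gens) :=
      Subgroup.closure_mono (Set.subset_insert _ _)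
    rintro x (hx | hx)
    · exact hK hx
    · have h1 : g ∈ Subgroup.closure (insert g gens) :=
        Subgroup.subset_closure (Set.mem_insert _ _)
      have h2 := (Subgroup.closure (insert g gens)).mul_mem h1 (hK hx)
      rw [← mul_assoc, g_g, one_mul] at h2
      exact h2
  · rw [Subgroup.closure_le]
    rintro x (rfl | hx)
    · exact g_mem
    · exact K_le_G (Subgroup.subset_closure hx)

theorem G_fg : G.FG := by
  rw [Subgroup.fg_iff]
  exact ⟨_, G_eq.symm, gens_fin.insert g⟩

theorem K_index : K.relIndex G ≠ 0 := by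
  have hf : Finite (G ⧸ K.subgroupOf G) := by
    apply Finite.of_surjective (fun i : Bool =>
      (QuotientGroup.mk (if i then (1 : G) else ⟨g, g_mem⟩) : G ⧸ K.subgroupOf G))
    intro q
    obtain ⟨x, rfl⟩ := QuotientGroup.mk_surjective q
    rcases x.2 with hx | hx
    · refine ⟨true, ?_⟩
      simp only [if_true]
      rw [QuotientGroup.eq]
      rw [Subgroup.mem_subgroupOf]
      simpa using hx
    · refine ⟨false, ?_⟩
      simp only [Bool.false_eq_true, if_false]
      rw [QuotientGroup.eq]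
      rw [Subgroup.mem_subgroupOf]
      show g⁻¹ * (x : P) ∈ K
      rw [g_inv]
      exact hx
  have : (K.subgroupOf G).FiniteIndex := Subgroup.finiteIndex_of_finite_quotient
  exact this.index_ne_zero

/-- A maximal subgroup of `G` containing a good subgroup which contains `C0` contains `K`. -/
theorem max_above {H : Subgroup P} (hH : Good H) (hC : C0 ≤ H) (M : Subgroup P) (hM : H ≤ M)
    (h1 : M < G) (h2 : ∀ N, M < N → N ≤ G → N = G) : K ≤ M := by
  by_contra hKM
  have hinf : M ⊓ K = H := by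
    by_contra hne
    have h3 : H < M ⊓ K := lt_of_le_of_ne (le_inf hM hH.1.1.le) (fun e => hne e.symm)
    have h4 := hH.1.2 _ h3 inf_le_right
    exact hKM (h4 ▸ inf_le_left)
  have hMK : M ≤ K := by
    intro m hm
    rcases h1.le hm with hmK | hmK
    · exact hmK
    · exfalso
      -- `k = g m`
      have hmk : m = g * (g * m) := by rw [← mul_assoc, g_g, one_mul]
      have h5 : g * m ∈ cg H := by
        apply malnormal (good_cg hH) hmK
        intro n f hf
        rw [mem_cg]
        have h6 : g * (g * m * f * (g * m)⁻¹) * g = (g * g) * m * f * m⁻¹ * (g⁻¹ * g) := by group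
        rw [h6, g_g, inv_mul_cancel, mul_one, one_mul, ← hinf]
        have hfH : f ∈ H := hH.2 n hf
        refine ⟨M.mul_mem (M.mul_mem hm (hM hfH)) (M.inv_mem hm), ?_⟩
        have h7 := conj_g_K (K.mul_mem (K.mul_mem hmK (F_le_K n hf)) (K.inv_mem hmK))
        rw [h6, g_g, inv_mul_cancel, mul_one, one_mul] at h7
        exact h7
      rw [mem_cg] at h5
      have h6 : g * (g * m) * g = (g * g) * m * g := by group
      rw [h6, g_g, one_mul] at h5
      have hgM : g ∈ M := by
        have := M.mul_mem (M.inv_mem hm) (hM h5)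
        rwa [inv_mul_cancel_left] at this
      -- `g` normalises `H`
      have hnorm : ∀ x ∈ H, g * x * g ∈ H := by
        intro x hx
        rw [← hinf]
        exact ⟨M.mul_mem (M.mul_mem hgM (hM hx)) hgM, conj_g_K (hH.1.1.le hx)⟩
      have hKH : K ≤ H := by
        apply K_le
        · intro a ha
          exact hH.2 1 (rt_mem_F ha)
        · intro y hy a ha
          by_cases h24 : y ≠ 2 ∧ y ≠ 4
          · exact hC (Subgroup.subset_closure (Or.inr ⟨y, h24.1, h24.2, a, ha, rfl⟩))
          · have h8 : ∀ y : Fin 5, ¬ (y ≠ 2 ∧ y ≠ 4) → tt y ≠ 2 ∧ tt y ≠ 4 := by decide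
            have h9 : b (tt y) (tt * a * tt) ∈ H :=
              hC (Subgroup.subset_closure
                (Or.inr ⟨_, (h8 y h24).1, (h8 y h24).2, _, tt_A ha, rfl⟩))
            have h10 := hnorm _ h9
            rw [conj_g_b, tt_tt] at h10
            have h11 : tt * (tt * a * tt) * tt = (tt * tt) * a * (tt * tt) := by group
            rw [h11, tt_mul, one_mul, mul_one] at h10
            exact h10
      exact absurd hKH (not_le_of_gt hH.1.1)
  have hMH : M = H := by
    rw [← hinf]
    exact (inf_eq_left.2 hMK).symm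
  have h3 := h2 K (by rw [hMH]; exact hH.1.1) K_le_G
  -- then `g ∈ K`
  have hgK : g ∈ K := by rw [h3]; exact g_mem
  obtain ⟨u, hu⟩ := (sp_K hgK).1 []
  have h4 := hu [1]
  have h5 : g ([] ++ u ++ [1]) = g ([] ++ u) ++ [2] := by
    show List.map tt ([] ++ u ++ [1]) = List.map tt ([] ++ u) ++ [2]
    rw [List.map_append]
    rfl
  rw [h5] at h4
  have h6 := List.append_cancel_left h4
  revert h6
  decide

end Pool.Agent.Q89.Br
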