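import Mathlib

/-!
Automorphisms of the free group on `n` letters: the IA-automorphisms, the conjugating generators and
the commutator generators, and the identities between them used for the normal closure.
-/

namespace Pool.Agent.Q89.Ch

set_option linter.unusedSimpArgs false
set_option linter.unusedVariables false
set_option linter.unusedSectionVars false

/-- The free group of rank `n`, with basis `x i = FreeGroup.of i`. -/
abbrev F (n : ℕ) : Type := FreeGroup (Fin n)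

variable {n : ℕ}

/-- The endomorphism with `x i ↦ w` and `x m ↦ x m` for `m ≠ i`. -/
def rep (i : Fin n) (w : F n) : F n →* F n :=
  FreeGroup.lift (Function.update (FreeGroup.of : Fin n → F n) i w)

theorem rep_self (i : Fin n) (w : F n) : rep i w (FreeGroup.of i) = w := by
  simp [rep]

theorem rep_ne {i m : Fin n} (w : F n) (h : m ≠ i) :
    rep i w (FreeGroup.of m) = FreeGroup.of m := by
  simp [rep, Function.update_of_ne h]

theorem hom_ext2 {f g : F n →* F n} (h : ∀ m, f (FreeGroup.of m) = g (FreeGroup.of m)) : f = g :=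
  FreeGroup.ext_hom f g h

theorem aut_ext {f g : MulAut (F n)} (h : ∀ m, f (FreeGroup.of m) = g (FreeGroup.of m)) :
    f = g := by
  have : f.toMonoidHom = g.toMonoidHom := hom_ext2 (fun m => h m)
  ext w
  exact congrArg (fun φ : F n →* F n => φ w) this

/-- The automorphism with `x i ↦ w` and `x m ↦ x m` for `m ≠ i`, whose inverse has `x i ↦ w'`. -/
def mkAut (i : Fin n) (w w' : F n) (h1 : rep i w w' = FreeGroup.of i)
    (h2 : rep i w' w = FreeGroup.of i) : MulAut (F n) where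
  toFun := rep i w
  invFun := rep i w'
  left_inv := by
    intro g
    have : (rep i w').comp (rep i w) = MonoidHom.id _ := by
      apply hom_ext2
      intro m
      by_cases hm : m = i
      · subst hm; simp [rep_self, h2]
      · simp [rep_ne _ hm]
    exact congrArg (fun φ : F n →* F n => φ g) this
  right_inv := by
    intro g
    have : (rep i w).comp (rep i w') = MonoidHom.id _ := by
      apply hom_ext2
      intro m
      by_cases hm : m = i
      · subst hm; simp [rep_self, h1]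
      · simp [rep_ne _ hm]
    exact congrArg (fun φ : F n →* F n => φ g) this
  map_mul' := map_mul _

theorem mkAut_self (i : Fin n) (w w' : F n) (h1) (h2) :
    mkAut i w w' h1 h2 (FreeGroup.of i) = w := rep_self i w

theorem mkAut_ne {i m : Fin n} (w w' : F n) (h1) (h2) (h : m ≠ i) :
    mkAut i w w' h1 h2 (FreeGroup.of m) = FreeGroup.of m := rep_ne w h

/-- `K_ij`: `x_i ↦ x_j x_i x_j⁻¹`. -/
def K2 (i j : Fin n) (h : j ≠ i) : MulAut (F n) :=
  mkAut i (FreeGroup.of j * FreeGroup.of i * (FreeGroup.of j)⁻¹)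
    ((FreeGroup.of j)⁻¹ * FreeGroup.of i * FreeGroup.of j)
    (by simp [rep_self, rep_ne _ h, mul_assoc]) (by simp [rep_self, rep_ne _ h, mul_assoc])

/-- `K_ijk`: `x_i ↦ x_i [x_j, x_k]`. -/
def K3 (i j k : Fin n) (hj : j ≠ i) (hk : k ≠ i) : MulAut (F n) :=
  mkAut i (FreeGroup.of i * (FreeGroup.of j * FreeGroup.of k * (FreeGroup.of j)⁻¹ * (FreeGroup.of k)⁻¹))
    (FreeGroup.of i * (FreeGroup.of k * FreeGroup.of j * (FreeGroup.of k)⁻¹ * (FreeGroup.of j)⁻¹))
    (by simp [rep_self, rep_ne _ hj, rep_ne _ hk, mul_assoc])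
    (by simp [rep_self, rep_ne _ hj, rep_ne _ hk, mul_assoc])

/-- `R_ij`: `x_i ↦ x_i x_j`. -/
def R (i j : Fin n) (h : j ≠ i) : MulAut (F n) :=
  mkAut i (FreeGroup.of i * FreeGroup.of j)
    (FreeGroup.of i * (FreeGroup.of j)⁻¹)
    (by simp [rep_self, rep_ne _ h, mul_assoc]) (by simp [rep_self, rep_ne _ h, mul_assoc])

theorem K2_self (i j : Fin n) (h : j ≠ i) :
    K2 i j h (FreeGroup.of i) = FreeGroup.of j * FreeGroup.of i * (FreeGroup.of j)⁻¹ :=
  mkAut_self _ _ _ _ _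

theorem K2_ne (i j : Fin n) (h : j ≠ i) {m : Fin n} (hm : m ≠ i) :
    K2 i j h (FreeGroup.of m) = FreeGroup.of m :=
  mkAut_ne _ _ _ _ hm

theorem K3_self (i j k : Fin n) (hj : j ≠ i) (hk : k ≠ i) :
    K3 i j k hj hk (FreeGroup.of i) = FreeGroup.of i *
      (FreeGroup.of j * FreeGroup.of k * (FreeGroup.of j)⁻¹ * (FreeGroup.of k)⁻¹) :=
  mkAut_self _ _ _ _ _

theorem K3_ne (i j k : Fin n) (hj : j ≠ i) (hk : k ≠ i) {m : Fin n} (hm : m ≠ i) :
    K3 i j k hj hk (FreeGroup.of m) = FreeGroup.of m :=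
  mkAut_ne _ _ _ _ hm

theorem R_self (i j : Fin n) (h : j ≠ i) :
    R i j h (FreeGroup.of i) = FreeGroup.of i * FreeGroup.of j :=
  mkAut_self _ _ _ _ _

theorem R_ne (i j : Fin n) (h : j ≠ i) {m : Fin n} (hm : m ≠ i) :
    R i j h (FreeGroup.of m) = FreeGroup.of m :=
  mkAut_ne _ _ _ _ hm

section identities

variable (x y z : Fin n) (yx : y ≠ x) (zx : z ≠ x) (zy : z ≠ y)

set_option maxHeartbeats 4000000

/-- Extensionality on the three letters. -/
theorem aut_ext3 (f g : MulAut (F n)) (hx : f (FreeGroup.of x) = g (FreeGroup.of x))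
    (hy : f (FreeGroup.of y) = g (FreeGroup.of y)) (hz : f (FreeGroup.of z) = g (FreeGroup.of z))
    (h : ∀ m, m ≠ x → m ≠ y → m ≠ z → f (FreeGroup.of m) = g (FreeGroup.of m)) : f = g := by
  apply aut_ext
  intro m
  by_cases h1 : m = x
  · rw [h1, hx]
  by_cases h2 : m = y
  · rw [h2, hy]
  by_cases h3 : m = z
  · rw [h3, hz]
  exact h m h1 h2 h3


end identities


theorem mkAut_inv (i : Fin n) (w w' : F n) (h1) (h2) :
    (mkAut i w w' h1 h2)⁻¹ = mkAut i w' w h2 h1 := rfl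

theorem K2i_self (i j : Fin n) (h : j ≠ i) :
    (K2 i j h)⁻¹ (FreeGroup.of i) = (FreeGroup.of j)⁻¹ * FreeGroup.of i * FreeGroup.of j := by
  rw [K2, mkAut_inv]
  exact mkAut_self _ _ _ _ _

theorem K2i_ne (i j : Fin n) (h : j ≠ i) {m : Fin n} (hm : m ≠ i) :
    (K2 i j h)⁻¹ (FreeGroup.of m) = FreeGroup.of m := by
  rw [K2, mkAut_inv]
  exact mkAut_ne _ _ _ _ hm

theorem K3i_self (i j k : Fin n) (hj : j ≠ i) (hk : k ≠ i) :
    (K3 i j k hj hk)⁻¹ (FreeGroup.of i) = FreeGroup.of i *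
      (FreeGroup.of k * FreeGroup.of j * (FreeGroup.of k)⁻¹ * (FreeGroup.of j)⁻¹) := by
  rw [K3, mkAut_inv]
  exact mkAut_self _ _ _ _ _

theorem K3i_ne (i j k : Fin n) (hj : j ≠ i) (hk : k ≠ i) {m : Fin n} (hm : m ≠ i) :
    (K3 i j k hj hk)⁻¹ (FreeGroup.of m) = FreeGroup.of m := by
  rw [K3, mkAut_inv]
  exact mkAut_ne _ _ _ _ hm

section ids

variable (x y z : Fin n) (yx : y ≠ x) (xy : x ≠ y) (zx : z ≠ x) (xz : x ≠ z) (zy : z ≠ y)
    (yz : y ≠ z)

include yx xy zx xz zy yz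

theorem r21_K12 : R y x xy * K2 x y yx = K2 x y yx * K2 y x xy * R y x xy := by
  apply aut_ext3 x y z
  iterate 3 simp [MulAut.mul_apply, K2_self, K2_ne, K3_self, K3_ne, R_self, R_ne, yx, zx, zy, xy,
      xz, yz, mul_assoc]
  intro m h1 h2 h3
  simp [MulAut.mul_apply, K2_ne, K3_ne, R_ne, h1, h2, h3]

theorem r21_K13 : R y x xy * K2 x z zx = K3 y x z xy zy * K2 x z zx * R y x xy := by
  apply aut_ext3 x y z
  iterate 3 simp [MulAut.mul_apply, K2_self, K2_ne, K3_self, K3_ne, R_self, R_ne, yx, zx, zy, xy,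
      xz, yz, mul_assoc]
  intro m h1 h2 h3
  simp [MulAut.mul_apply, K2_ne, K3_ne, R_ne, h1, h2, h3]

theorem r21_A : K2 x y yx * K3 x y z yx zx * K2 y z zy * K2 y x xy * R y x xy =
    K3 y x z xy zy * K2 x z zx * K2 x y yx * K2 y x xy * R y x xy * K3 x y z yx zx := by
  apply aut_ext3 x y z
  iterate 3 simp [MulAut.mul_apply, K2_self, K2_ne, K3_self, K3_ne, R_self, R_ne, yx, zx, zy, xy,
      xz, yz, mul_assoc]
  intro m h1 h2 h3
  simp [MulAut.mul_apply, K2_ne, K3_ne, R_ne, h1, h2, h3]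

theorem r31_K12 : R z x xz * K2 x y yx = K3 z x y xz yz * K2 x y yx * R z x xz := by
  apply aut_ext3 x y z
  iterate 3 simp [MulAut.mul_apply, K2_self, K2_ne, K3_self, K3_ne, R_self, R_ne, yx, zx, zy, xy,
      xz, yz, mul_assoc]
  intro m h1 h2 h3
  simp [MulAut.mul_apply, K2_ne, K3_ne, R_ne, h1, h2, h3]

theorem r31_K13 : R z x xz * K2 x z zx = K2 x z zx * K2 z x xz * R z x xz := by
  apply aut_ext3 x y z
  iterate 3 simp [MulAut.mul_apply, K2_self, K2_ne, K3_self, K3_ne, R_self, R_ne, yx, zx, zy, xy,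
      xz, yz, mul_assoc]
  intro m h1 h2 h3
  simp [MulAut.mul_apply, K2_ne, K3_ne, R_ne, h1, h2, h3]

theorem r31_K21 : R z x xz * K2 y x xy = K2 y x xy * R z x xz := by
  apply aut_ext3 x y z
  iterate 3 simp [MulAut.mul_apply, K2_self, K2_ne, K3_self, K3_ne, R_self, R_ne, yx, zx, zy, xy,
      xz, yz, mul_assoc]
  intro m h1 h2 h3
  simp [MulAut.mul_apply, K2_ne, K3_ne, R_ne, h1, h2, h3]

theorem r31_K23 : R z x xz * K2 y z zy = K2 y x xy * K2 y z zy * R z x xz := by
  apply aut_ext3 x y z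
  iterate 3 simp [MulAut.mul_apply, K2_self, K2_ne, K3_self, K3_ne, R_self, R_ne, yx, zx, zy, xy,
      xz, yz, mul_assoc]
  intro m h1 h2 h3
  simp [MulAut.mul_apply, K2_ne, K3_ne, R_ne, h1, h2, h3]

theorem r31_B : R z x xz * K3 y x z xy zy = K3 y x z xy zy * R z x xz := by
  apply aut_ext3 x y z
  iterate 3 simp [MulAut.mul_apply, K2_self, K2_ne, K3_self, K3_ne, R_self, R_ne, yx, zx, zy, xy,
      xz, yz, mul_assoc]
  intro m h1 h2 h3
  simp [MulAut.mul_apply, K2_ne, K3_ne, R_ne, h1, h2, h3]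

theorem r31_A : K2 z y yz * K2 z x xz * R z x xz * K3 x y z yx zx =
    K3 x y z yx zx * (K2 x z zx)⁻¹ * K3 z x y xz yz * K2 x y yx * K2 x z zx * K2 z x xz *
      R z x xz := by
  apply aut_ext3 x y z
  · simp only [MulAut.mul_apply, K2_self, K2_ne, K3_self, K3_ne, R_self, R_ne, yx, zx, zy, xy,
      xz, yz, K2i_self, K2i_ne, map_mul, map_inv, ne_eq, not_false_eq_true]
    try group
  · simp only [MulAut.mul_apply, K2_self, K2_ne, K3_self, K3_ne, R_self, R_ne, yx, zx, zy, xy,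
      xz, yz, K2i_self, K2i_ne, map_mul, map_inv, ne_eq, not_false_eq_true]
    try group
  · simp only [MulAut.mul_apply, K2_self, K2_ne, K3_self, K3_ne, R_self, R_ne, yx, zx, zy, xy,
      xz, yz, K2i_self, K2i_ne, map_mul, map_inv, ne_eq, not_false_eq_true]
    try group
  intro m h1 h2 h3
  simp only [MulAut.mul_apply, K2_ne, K3_ne, R_ne, h1, h2, h3, K2i_ne, ne_eq,
    not_false_eq_true]

theorem rel0 : K3 x y z yx zx * ((K2 x z zx)⁻¹ * (K2 x y yx)⁻¹ * K2 x z zx * K2 x y yx) =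
    (K2 x z zx)⁻¹ * (K2 x y yx)⁻¹ * K2 x z zx * K2 x y yx * K3 x y z yx zx := by
  apply aut_ext3 x y z
  · simp only [MulAut.mul_apply, K2_self, K2_ne, K3_self, K3_ne, R_self, R_ne, yx, zx, zy, xy,
      xz, yz, K2i_self, K2i_ne, map_mul, map_inv, ne_eq, not_false_eq_true]
    try group
  · simp only [MulAut.mul_apply, K2_self, K2_ne, K3_self, K3_ne, R_self, R_ne, yx, zx, zy, xy,
      xz, yz, K2i_self, K2i_ne, map_mul, map_inv, ne_eq, not_false_eq_true]
    try group
  · simp only [MulAut.mul_apply, K2_self, K2_ne, K3_self, K3_ne, R_self, R_ne, yx, zx, zy, xy,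
      xz, yz, K2i_self, K2i_ne, map_mul, map_inv, ne_eq, not_false_eq_true]
    try group
  intro m h1 h2 h3
  simp only [MulAut.mul_apply, K2_ne, K3_ne, R_ne, h1, h2, h3, K2i_ne, ne_eq,
    not_false_eq_true]

end ids

end Pool.Agent.Q89.Ch
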