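import Pool.Agent.Q89.Ch1

/-!
The relation between the commutator generators modulo the normal closure of the conjugating
generators, in an abstract group and in the group of IA-automorphisms.
-/

set_option linter.unusedSimpArgs false
set_option linter.unusedVariables false
set_option linter.unusedSectionVars false

namespace Pool.Agent.Q89.Ch

open scoped commutatorElement

/-- The abstract form of the relation: conjugation by `R3 * R2`. -/
theorem abstract_rel {G : Type*} [Group G] {A B C K12 K13 K21 K23 K31 K32 R2 R3 : G}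
    (a1 : R2 * K12 = K12 * K21 * R2) (a2 : R2 * K13 = B * K13 * R2)
    (a3 : K12 * A * K23 * K21 * R2 = B * K13 * K12 * K21 * R2 * A)
    (b1 : R3 * K12 = C * K12 * R3) (b2 : R3 * K13 = K13 * K31 * R3)
    (b3 : R3 * K21 = K21 * R3) (b4 : R3 * K23 = K21 * K23 * R3) (b5 : R3 * B = B * R3)
    (b6 : K32 * K31 * R3 * A = A * K13⁻¹ * C * K12 * K13 * K31 * R3)
    (c : A * (K13⁻¹ * K12⁻¹ * K13 * K12) = K13⁻¹ * K12⁻¹ * K13 * K12 * A) :
    (K21⁻¹ * (C * K12)⁻¹ * (K13 * K31)⁻¹ * B⁻¹ * (C * K12) *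
        (K31⁻¹ * K32⁻¹ * A * K13⁻¹ * C * K12 * K13 * K31) * (K21 * K23) * K21) *
      ((B * K13 * K31)⁻¹ * (C * K12 * K21)⁻¹ * (B * K13 * K31) * (C * K12 * K21)) =
    ((B * K13 * K31)⁻¹ * (C * K12 * K21)⁻¹ * (B * K13 * K31) * (C * K12 * K21)) *
      (K21⁻¹ * (C * K12)⁻¹ * (K13 * K31)⁻¹ * B⁻¹ * (C * K12) *
        (K31⁻¹ * K32⁻¹ * A * K13⁻¹ * C * K12 * K13 * K31) * (K21 * K23) * K21) := by
  have A1 : MulAut.conj R2 K12 = K12 * K21 := by
    rw [MulAut.conj_apply, a1]; group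
  have A2 : MulAut.conj R2 K13 = B * K13 := by
    rw [MulAut.conj_apply, a2]; group
  have A3 : MulAut.conj R2 A = K21⁻¹ * K12⁻¹ * K13⁻¹ * B⁻¹ * K12 * A * K23 * K21 := by
    rw [MulAut.conj_apply]
    have h : R2 * A = (B * K13 * K12 * K21)⁻¹ * (K12 * A * K23 * K21 * R2) := by
      rw [a3]; group
    rw [h]; group
  have B1 : MulAut.conj R3 K12 = C * K12 := by
    rw [MulAut.conj_apply, b1]; group
  have B2 : MulAut.conj R3 K13 = K13 * K31 := by
    rw [MulAut.conj_apply, b2]; group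
  have B3 : MulAut.conj R3 K21 = K21 := by
    rw [MulAut.conj_apply, b3]; group
  have B4 : MulAut.conj R3 K23 = K21 * K23 := by
    rw [MulAut.conj_apply, b4]; group
  have B5 : MulAut.conj R3 B = B := by
    rw [MulAut.conj_apply, b5]; group
  have B6 : MulAut.conj R3 A = K31⁻¹ * K32⁻¹ * A * K13⁻¹ * C * K12 * K13 * K31 := by
    rw [MulAut.conj_apply]
    have h : R3 * A = (K32 * K31)⁻¹ * (A * K13⁻¹ * C * K12 * K13 * K31 * R3) := by
      rw [← b6]; group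
    rw [h]; group
  have e := congrArg (fun g => MulAut.conj R3 (MulAut.conj R2 g)) c
  simp only [map_mul, map_inv, A1, A2, A3, B1, B2, B3, B4, B5, B6] at e
  simp only [mul_inv_rev, mul_assoc] at e ⊢
  exact e

/-- The relation that survives when the conjugating generators are killed. -/
theorem killed_rel {Q : Type*} [Group Q] {A B C : Q}
    (h : (C⁻¹ * B⁻¹ * C * A * C) * (B⁻¹ * C⁻¹ * B * C) =
      (B⁻¹ * C⁻¹ * B * C) * (C⁻¹ * B⁻¹ * C * A * C)) :
    ⁅B⁻¹ * A * C, ⁅B⁻¹, C⁻¹⁆⁆ = 1 := by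
  have e : C⁻¹ * B⁻¹ * C * A * C = (B⁻¹ * C⁻¹ * B * C)⁻¹ * (B⁻¹ * A * C) := by group
  rw [e] at h
  rw [commutatorElement_eq_one_iff_mul_comm]
  have e2 : (⁅B⁻¹, C⁻¹⁆ : Q) = B⁻¹ * C⁻¹ * B * C := by
    rw [commutatorElement_def]; group
  rw [e2]
  have h3 : (B⁻¹ * C⁻¹ * B * C) * ((B⁻¹ * C⁻¹ * B * C)⁻¹ * (B⁻¹ * A * C) *
      (B⁻¹ * C⁻¹ * B * C)) = (B⁻¹ * C⁻¹ * B * C) * ((B⁻¹ * C⁻¹ * B * C) *
      ((B⁻¹ * C⁻¹ * B * C)⁻¹ * (B⁻¹ * A * C))) := by rw [h]
  calc B⁻¹ * A * C * (B⁻¹ * C⁻¹ * B * C) = (B⁻¹ * C⁻¹ * B * C) * ((B⁻¹ * C⁻¹ * B * C)⁻¹ *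
        (B⁻¹ * A * C) * (B⁻¹ * C⁻¹ * B * C)) := by group
    _ = _ := h3
    _ = _ := by group

/-- `IA(F(n))`: the automorphisms of the free group of rank `n` inducing the identity on the
abelianization. -/
def IA (n : ℕ) : Subgroup (MulAut (F n)) where
  carrier := {f | ∀ w : F n, Abelianization.of (f w) = Abelianization.of w}
  one_mem' := fun w => rfl
  mul_mem' := by
    intro f g hf hg w
    rw [MulAut.mul_apply, hf, hg]
  inv_mem' := by
    intro f hf w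
    have := hf (f⁻¹ w)
    rw [MulAut.apply_inv_self] at this
    exact this.symm

theorem mem_IA_iff {n : ℕ} (f : MulAut (F n)) :
    f ∈ IA n ↔ ∀ w : F n, Abelianization.of (f w) = Abelianization.of w := Iff.rfl

theorem mem_IA {n : ℕ} (f : MulAut (F n))
    (h : ∀ m, Abelianization.of (f (FreeGroup.of m)) = Abelianization.of (FreeGroup.of m)) :
    f ∈ IA n := by
  intro w
  have : (Abelianization.of).comp f.toMonoidHom = (Abelianization.of : F n →* _) := by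
    apply FreeGroup.ext_hom
    intro m
    exact h m
  exact congrArg (fun φ : F n →* _ => φ w) this

theorem K2_mem {n : ℕ} (i j : Fin n) (h : j ≠ i) : K2 i j h ∈ IA n := by
  apply mem_IA
  intro m
  by_cases hm : m = i
  · subst hm
    rw [K2_self, map_mul, map_mul, map_inv, mul_comm, inv_mul_cancel_left]
  · rw [K2_ne _ _ _ hm]

theorem K3_mem {n : ℕ} (i j k : Fin n) (hj : j ≠ i) (hk : k ≠ i) : K3 i j k hj hk ∈ IA n := by
  apply mem_IA
  intro m
  by_cases hm : m = i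
  · subst hm
    rw [K3_self]
    simp only [map_mul, map_inv]
    have e : ∀ a b c : Abelianization (F n), a * (b * c * b⁻¹ * c⁻¹) = a := by
      intro a b c
      rw [mul_comm b c, mul_inv_cancel_right, mul_inv_cancel, mul_one]
    exact e _ _ _
  · rw [K3_ne _ _ _ _ _ hm]

/-- `f = K_ij` for some distinct `i`, `j`: `f (x_i) = x_j x_i x_j⁻¹` and `f` fixes the other
generators. -/
def IsConj {n : ℕ} (f : MulAut (F n)) : Prop :=
  ∃ i j : Fin n, i ≠ j ∧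
    f (FreeGroup.of i) = FreeGroup.of j * FreeGroup.of i * (FreeGroup.of j)⁻¹ ∧
    ∀ m, m ≠ i → f (FreeGroup.of m) = FreeGroup.of m

/-- `f = K_ijk` for some `i`, `j`, `k` with `j < k` and `i ≠ j`, `i ≠ k`:
`f (x_i) = x_i [x_j, x_k]` with `[a, b] = a b a⁻¹ b⁻¹`, and `f` fixes the other generators. -/
def IsComm {n : ℕ} (f : MulAut (F n)) : Prop :=
  ∃ i j k : Fin n, i ≠ j ∧ j < k ∧ k ≠ i ∧
    f (FreeGroup.of i) = FreeGroup.of i *
      (FreeGroup.of j * FreeGroup.of k * (FreeGroup.of j)⁻¹ * (FreeGroup.of k)⁻¹) ∧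
    ∀ m, m ≠ i → f (FreeGroup.of m) = FreeGroup.of m

/-- `C(n)`, as a subgroup of `IA(F(n))`. -/
def CC (n : ℕ) : Subgroup (IA n) := Subgroup.closure {f | IsConj (f : MulAut (F n))}

/-- `T(n)`, as a subgroup of `IA(F(n))`. -/
def TT (n : ℕ) : Subgroup (IA n) := Subgroup.closure {f | IsComm (f : MulAut (F n))}

/-- The normal closure of `C(n)` in `IA(F(n))`. -/
def CCbar (n : ℕ) : Subgroup (IA n) := Subgroup.normalClosure (CC n : Set (IA n))

instance (n : ℕ) : (CCbar n).Normal := Subgroup.normalClosure_normal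

/-- `K_ij` as an IA-automorphism. -/
def k2 {n : ℕ} (i j : Fin n) (h : j ≠ i) : IA n := ⟨K2 i j h, K2_mem i j h⟩

/-- `K_ijk` as an IA-automorphism. -/
def k3 {n : ℕ} (i j k : Fin n) (hj : j ≠ i) (hk : k ≠ i) : IA n :=
  ⟨K3 i j k hj hk, K3_mem i j k hj hk⟩

theorem k2_mem {n : ℕ} (i j : Fin n) (h : j ≠ i) : k2 i j h ∈ CCbar n := by
  apply Subgroup.subset_normalClosure
  apply Subgroup.subset_closure
  exact ⟨i, j, h.symm, K2_self i j h, fun m hm => K2_ne i j h hm⟩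

theorem k3_mem {n : ℕ} (i j k : Fin n) (hj : j ≠ i) (hk : k ≠ i) (hjk : j < k) :
    k3 i j k hj hk ∈ TT n := by
  apply Subgroup.subset_closure
  exact ⟨i, j, k, hj.symm, hjk, hk, K3_self i j k hj hk, fun m hm => K3_ne i j k hj hk hm⟩

section rel

variable {n : ℕ} (x y z : Fin n) (yx : y ≠ x) (xy : x ≠ y) (zx : z ≠ x) (xz : x ≠ z) (zy : z ≠ y)
    (yz : y ≠ z)

/-- The element `[K213⁻¹ K123 K312, [K213⁻¹, K312⁻¹]]` (with `x, y, z` for `1, 2, 3`). -/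
def W : IA n :=
  ⁅(k3 y x z xy zy)⁻¹ * k3 x y z yx zx * k3 z x y xz yz,
    ⁅(k3 y x z xy zy)⁻¹, (k3 z x y xz yz)⁻¹⁆⁆

theorem W_mem_CCbar : W x y z yx xy zx xz zy yz ∈ CCbar n := by
  rw [← QuotientGroup.eq_one_iff]
  have h0 := abstract_rel (r21_K12 x y z yx xy zx xz zy yz) (r21_K13 x y z yx xy zx xz zy yz)
    (r21_A x y z yx xy zx xz zy yz) (r31_K12 x y z yx xy zx xz zy yz)
    (r31_K13 x y z yx xy zx xz zy yz) (r31_K21 x y z yx xy zx xz zy yz)
    (r31_K23 x y z yx xy zx xz zy yz) (r31_B x y z yx xy zx xz zy yz)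
    (r31_A x y z yx xy zx xz zy yz) (rel0 x y z yx xy zx xz zy yz)
  have h1 : ((k2 y x xy)⁻¹ * (k3 z x y xz yz * k2 x y yx)⁻¹ * (k2 x z zx * k2 z x xz)⁻¹ *
        (k3 y x z xy zy)⁻¹ * (k3 z x y xz yz * k2 x y yx) *
        ((k2 z x xz)⁻¹ * (k2 z y yz)⁻¹ * k3 x y z yx zx * (k2 x z zx)⁻¹ * k3 z x y xz yz *
          k2 x y yx * k2 x z zx * k2 z x xz) * (k2 y x xy * k2 y z zy) * k2 y x xy) *
      ((k3 y x z xy zy * k2 x z zx * k2 z x xz)⁻¹ * (k3 z x y xz yz * k2 x y yx * k2 y x xy)⁻¹ *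
        (k3 y x z xy zy * k2 x z zx * k2 z x xz) * (k3 z x y xz yz * k2 x y yx * k2 y x xy)) =
    ((k3 y x z xy zy * k2 x z zx * k2 z x xz)⁻¹ * (k3 z x y xz yz * k2 x y yx * k2 y x xy)⁻¹ *
        (k3 y x z xy zy * k2 x z zx * k2 z x xz) * (k3 z x y xz yz * k2 x y yx * k2 y x xy)) *
      ((k2 y x xy)⁻¹ * (k3 z x y xz yz * k2 x y yx)⁻¹ * (k2 x z zx * k2 z x xz)⁻¹ *
        (k3 y x z xy zy)⁻¹ * (k3 z x y xz yz * k2 x y yx) *
        ((k2 z x xz)⁻¹ * (k2 z y yz)⁻¹ * k3 x y z yx zx * (k2 x z zx)⁻¹ * k3 z x y xz yz *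
          k2 x y yx * k2 x z zx * k2 z x xz) * (k2 y x xy * k2 y z zy) * k2 y x xy) :=
    Subtype.ext h0
  have hk : ∀ (i j : Fin n) (h : j ≠ i), ((k2 i j h : IA n) : IA n ⧸ CCbar n) = 1 := by
    intro i j h
    rw [QuotientGroup.eq_one_iff]
    exact k2_mem i j h
  have h2 := congrArg (fun g : IA n => (g : IA n ⧸ CCbar n)) h1
  simp only [QuotientGroup.mk_mul, QuotientGroup.mk_inv, hk, mul_one, one_mul, inv_one] at h2
  have h3 := killed_rel (A := ((k3 x y z yx zx : IA n) : IA n ⧸ CCbar n))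
    (B := ((k3 y x z xy zy : IA n) : IA n ⧸ CCbar n))
    (C := ((k3 z x y xz yz : IA n) : IA n ⧸ CCbar n)) h2
  rw [W]
  exact h3

theorem W_mem_TT (hyz : y < z) (hxz : x < z) (hxy : x < y) :
    W x y z yx xy zx xz zy yz ∈ TT n := by
  have ha := k3_mem x y z yx zx hyz
  have hb := k3_mem y x z xy zy hxz
  have hc := k3_mem z x y xz yz hxy
  rw [W, commutatorElement_def, commutatorElement_def]
  have hd : (k3 y x z xy zy)⁻¹ * (k3 z x y xz yz)⁻¹ * ((k3 y x z xy zy)⁻¹)⁻¹ *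
      ((k3 z x y xz yz)⁻¹)⁻¹ ∈ TT n :=
    mul_mem (mul_mem (mul_mem (inv_mem hb) (inv_mem hc)) (inv_mem (inv_mem hb)))
      (inv_mem (inv_mem hc))
  have he := mul_mem (mul_mem (inv_mem hb) ha) hc
  exact mul_mem (mul_mem (mul_mem he hd) (inv_mem he)) (inv_mem hd)

end rel

end Pool.Agent.Q89.Ch
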