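import Pool.Agent.Q89.Ch2

/-!
Non-triviality of the element `W`, by its action on homomorphisms to the symmetric group on three
letters.
-/

set_option linter.unusedSimpArgs false
set_option linter.unusedVariables false
set_option linter.unusedSectionVars false

namespace Pool.Agent.Q89.Ch

open scoped commutatorElement

section fns

variable {G : Type*} [Group G]

def fA (t : G × G × G) : G × G × G :=
  (t.1 * (t.2.1 * t.2.2 * t.2.1⁻¹ * t.2.2⁻¹), t.2.1, t.2.2)

def fB (t : G × G × G) : G × G × G :=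
  (t.1, t.2.1 * (t.1 * t.2.2 * t.1⁻¹ * t.2.2⁻¹), t.2.2)

def fBi (t : G × G × G) : G × G × G :=
  (t.1, t.2.1 * (t.2.2 * t.1 * t.2.2⁻¹ * t.1⁻¹), t.2.2)

def fC (t : G × G × G) : G × G × G :=
  (t.1, t.2.1, t.2.2 * (t.1 * t.2.1 * t.1⁻¹ * t.2.1⁻¹))

def fCi (t : G × G × G) : G × G × G :=
  (t.1, t.2.1, t.2.2 * (t.2.1 * t.1 * t.2.1⁻¹ * t.1⁻¹))

end fns

/-- triples of permutations of three letters -/
abbrev P3 : Type := Equiv.Perm (Fin 3) × Equiv.Perm (Fin 3) × Equiv.Perm (Fin 3)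

abbrev s01 : Equiv.Perm (Fin 3) := Equiv.swap 0 1
abbrev s12 : Equiv.Perm (Fin 3) := Equiv.swap 1 2
abbrev s02 : Equiv.Perm (Fin 3) := Equiv.swap 0 2
abbrev c3 : Equiv.Perm (Fin 3) := Equiv.swap 0 1 * Equiv.swap 1 2
abbrev d3 : Equiv.Perm (Fin 3) := Equiv.swap 1 2 * Equiv.swap 0 1

theorem e1 : fBi ((s12, 1, s01) : P3) = (s12, d3, s01) := by decide

theorem e2 : fA ((s12, d3, s01) : P3) = (s02, d3, s01) := by decide

theorem e3 : fC ((s02, d3, s01) : P3) = (s02, d3, s02) := by decide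

theorem e4 : fBi ((s02, d3, s02) : P3) = (s02, d3, s02) := by decide

theorem e5 : fCi ((s02, d3, s02) : P3) = (s02, d3, s01) := by decide

theorem e6 : fB ((s02, d3, s01) : P3) = (s02, c3, s01) := by decide

theorem e7 : fC ((s02, c3, s01) : P3) = (s02, c3, s12) := by decide

theorem e8 : fCi ((s12, d3, s01) : P3) = (s12, d3, s12) := by decide

theorem e9 : fB ((s12, d3, s12) : P3) = (s12, d3, s12) := by decide

theorem e10 : fC ((s12, d3, s12) : P3) = (s12, d3, s01) := by decide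

theorem e11 : fBi ((s12, d3, s01) : P3) = (s12, c3, s01) := by decide

theorem e12 : fA ((s12, c3, s01) : P3) = (s01, c3, s01) := by decide

theorem e13 : fC ((s01, c3, s01) : P3) = (s01, c3, s12) := by decide

section nontriv

variable {n : ℕ} (x y z : Fin n) (yx : y ≠ x) (xy : x ≠ y) (zx : z ≠ x) (xz : x ≠ z) (zy : z ≠ y)
    (yz : y ≠ z) {G : Type*} [Group G]

/-- the values of a homomorphism at the three letters -/
def vals (ρ : F n →* G) : G × G × G :=
  (ρ (FreeGroup.of x), ρ (FreeGroup.of y), ρ (FreeGroup.of z))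

include yx xy zx xz zy yz

theorem vals_A (ρ : F n →* G) :
    vals x y z (ρ.comp (K3 x y z yx zx).toMonoidHom) = fA (vals x y z ρ) := by
  have h : ∀ w, (ρ.comp (K3 x y z yx zx).toMonoidHom) w = ρ (K3 x y z yx zx w) := fun w => rfl
  simp only [vals, fA, h, K3_self, K3_ne, map_mul, map_inv, xy, yx, xz, zx, yz, zy, ne_eq,
    not_false_eq_true]

theorem vals_B (ρ : F n →* G) :
    vals x y z (ρ.comp (K3 y x z xy zy).toMonoidHom) = fB (vals x y z ρ) := by
  have h : ∀ w, (ρ.comp (K3 y x z xy zy).toMonoidHom) w = ρ (K3 y x z xy zy w) := fun w => rfl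
  simp only [vals, fB, h, K3_self, K3_ne, map_mul, map_inv, xy, yx, xz, zx, yz, zy, ne_eq,
    not_false_eq_true]

theorem vals_Bi (ρ : F n →* G) :
    vals x y z (ρ.comp ((K3 y x z xy zy)⁻¹ : MulAut (F n)).toMonoidHom) = fBi (vals x y z ρ) := by
  have h : ∀ w, (ρ.comp ((K3 y x z xy zy)⁻¹ : MulAut (F n)).toMonoidHom) w =
    ρ ((K3 y x z xy zy)⁻¹ w) := fun w => rfl
  simp only [vals, fBi, h, K3i_self, K3i_ne, map_mul, map_inv, xy, yx, xz, zx, yz, zy, ne_eq,
    not_false_eq_true]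

theorem vals_C (ρ : F n →* G) :
    vals x y z (ρ.comp (K3 z x y xz yz).toMonoidHom) = fC (vals x y z ρ) := by
  have h : ∀ w, (ρ.comp (K3 z x y xz yz).toMonoidHom) w = ρ (K3 z x y xz yz w) := fun w => rfl
  simp only [vals, fC, h, K3_self, K3_ne, map_mul, map_inv, xy, yx, xz, zx, yz, zy, ne_eq,
    not_false_eq_true]

theorem vals_Ci (ρ : F n →* G) :
    vals x y z (ρ.comp ((K3 z x y xz yz)⁻¹ : MulAut (F n)).toMonoidHom) = fCi (vals x y z ρ) := by
  have h : ∀ w, (ρ.comp ((K3 z x y xz yz)⁻¹ : MulAut (F n)).toMonoidHom) w =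
    ρ ((K3 z x y xz yz)⁻¹ w) := fun w => rfl
  simp only [vals, fCi, h, K3i_self, K3i_ne, map_mul, map_inv, xy, yx, xz, zx, yz, zy, ne_eq,
    not_false_eq_true]

theorem comp_mul (ρ : F n →* G) (f g : MulAut (F n)) :
    ρ.comp (f * g).toMonoidHom = (ρ.comp f.toMonoidHom).comp g.toMonoidHom := rfl

theorem vals_left (ρ : F n →* G) :
    vals x y z (ρ.comp (((K3 y x z xy zy)⁻¹ * K3 x y z yx zx * K3 z x y xz yz) *
      ((K3 y x z xy zy)⁻¹ * (K3 z x y xz yz)⁻¹ * K3 y x z xy zy * K3 z x y xz yz) :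
        MulAut (F n)).toMonoidHom) =
    fC (fB (fCi (fBi (fC (fA (fBi (vals x y z ρ))))))) := by
  simp only [comp_mul x y z yx xy zx xz zy yz]
  rw [vals_C x y z yx xy zx xz zy yz, vals_B x y z yx xy zx xz zy yz,
    vals_Ci x y z yx xy zx xz zy yz, vals_Bi x y z yx xy zx xz zy yz,
    vals_C x y z yx xy zx xz zy yz, vals_A x y z yx xy zx xz zy yz,
    vals_Bi x y z yx xy zx xz zy yz]

theorem vals_right (ρ : F n →* G) :
    vals x y z (ρ.comp (((K3 y x z xy zy)⁻¹ * (K3 z x y xz yz)⁻¹ * K3 y x z xy zy *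
      K3 z x y xz yz) * ((K3 y x z xy zy)⁻¹ * K3 x y z yx zx * K3 z x y xz yz) :
        MulAut (F n)).toMonoidHom) =
    fC (fA (fBi (fC (fB (fCi (fBi (vals x y z ρ))))))) := by
  simp only [comp_mul x y z yx xy zx xz zy yz]
  rw [vals_C x y z yx xy zx xz zy yz, vals_A x y z yx xy zx xz zy yz,
    vals_Bi x y z yx xy zx xz zy yz, vals_C x y z yx xy zx xz zy yz,
    vals_B x y z yx xy zx xz zy yz, vals_Ci x y z yx xy zx xz zy yz,
    vals_Bi x y z yx xy zx xz zy yz]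

theorem W_ne_one : W x y z yx xy zx xz zy yz ≠ 1 := by
  intro hW
  rw [W, commutatorElement_eq_one_iff_mul_comm, commutatorElement_def, inv_inv, inv_inv] at hW
  have h0 := congrArg (Subtype.val) hW
  have h1 : ((K3 y x z xy zy)⁻¹ * K3 x y z yx zx * K3 z x y xz yz) *
      ((K3 y x z xy zy)⁻¹ * (K3 z x y xz yz)⁻¹ * K3 y x z xy zy * K3 z x y xz yz) =
      ((K3 y x z xy zy)⁻¹ * (K3 z x y xz yz)⁻¹ * K3 y x z xy zy * K3 z x y xz yz) *
      ((K3 y x z xy zy)⁻¹ * K3 x y z yx zx * K3 z x y xz yz) := h0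
  let ρ : F n →* Equiv.Perm (Fin 3) := FreeGroup.lift (fun m => if m = x then Equiv.swap 1 2 else
    if m = z then Equiv.swap 0 1 else 1)
  have hρ : vals x y z ρ = (Equiv.swap 1 2, 1, Equiv.swap 0 1) := by
    simp [vals, ρ, xy, xz, zy, yx, yz, zx]
  have h2 := vals_left x y z yx xy zx xz zy yz ρ
  have h3 := vals_right x y z yx xy zx xz zy yz ρ
  rw [h1, h3, hρ, e1, e2, e3, e4, e5, e6, e7, e8, e9, e10, e11, e12, e13] at h2
  exact absurd h2 (by decide)

end nontriv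

/-- For every `n ≥ 3` the normal closure of `C(n)` in `IA(F(n))` meets `T(n)` non-trivially. -/
theorem main (n : ℕ) (hn : 3 ≤ n) : CCbar n ⊓ TT n ≠ ⊥ := by
  intro h
  let x : Fin n := ⟨0, by omega⟩
  let y : Fin n := ⟨1, by omega⟩
  let z : Fin n := ⟨2, by omega⟩
  have hxy : x < y := by simp [x, y]
  have hyz : y < z := by simp [y, z]
  have hxz : x < z := hxy.trans hyz
  have h1 : W x y z hxy.ne' hxy.ne hxz.ne' hxz.ne hyz.ne' hyz.ne ∈ CCbar n ⊓ TT n :=
    ⟨W_mem_CCbar x y z _ _ _ _ _ _, W_mem_TT x y z _ _ _ _ _ _ hyz hxz hxy⟩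
  rw [h, Subgroup.mem_bot] at h1
  exact W_ne_one x y z _ _ _ _ _ _ h1

end Pool.Agent.Q89.Ch
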