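import Mathlib
import Pool.Agent.Helper180.FreeMetric

set_option autoImplicit false

/-!
# Auto-fixed and endo-fixed closures in `ℤᵐ × F₂` that are not finitely generated

For `u = [x, y]` the subgroup `H = 1 × ⟨u, xux⁻¹, x²ux⁻², yuy⁻¹, y²uy⁻²⟩` of `ℤᵐ × F₂`, `m ≥ 1`,
has both closures equal to `1 × [F₂, F₂]`, which is not finitely generated.
-/

namespace Pool.Agent.Q89.FixedClosures

/-- The auto-fixed closure of `H`: the elements fixed by all automorphisms of `G` that fix every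
element of `H`. -/
def autoClosure {G : Type} [Group G] (H : Subgroup G) : Subgroup G where
  carrier := {g | ∀ φ : G ≃* G, (∀ h ∈ H, φ h = h) → φ g = g}
  one_mem' := fun φ _ => map_one φ
  mul_mem' := by
    intro a b ha hb φ hφ
    rw [map_mul, ha φ hφ, hb φ hφ]
  inv_mem' := by
    intro a ha φ hφ
    rw [map_inv, ha φ hφ]

/-- The endo-fixed closure of `H`: the elements fixed by all endomorphisms of `G` that fix every
element of `H`. -/
def endoClosure {G : Type} [Group G] (H : Subgroup G) : Subgroup G where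
  carrier := {g | ∀ φ : G →* G, (∀ h ∈ H, φ h = h) → φ g = g}
  one_mem' := fun φ _ => map_one φ
  mul_mem' := by
    intro a b ha hb φ hφ
    rw [map_mul, ha φ hφ, hb φ hφ]
  inv_mem' := by
    intro a ha φ hφ
    rw [map_inv, ha φ hφ]

/-- the free group of rank two -/
abbrev F : Type := FreeGroup (Fin 2)

/-- the group `ℤᵐ × F₂` -/
abbrev GG (m : ℕ) : Type := Multiplicative (Fin m → ℤ) × F

/-- first generator -/
def x : F := FreeGroup.of 0
/-- second generator -/
def y : F := FreeGroup.of 1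
/-- the commutator -/
def u : F := x * y * x⁻¹ * y⁻¹

lemma ncx : u * (x * u * x⁻¹) ≠ (x * u * x⁻¹) * u := by decide
lemma ncy : u * (y * u * y⁻¹) ≠ (y * u * y⁻¹) * u := by decide
lemma ncxy : x * y ≠ y * x := by decide

lemma key {z a : F} (hz : u * (z * u * z⁻¹) ≠ (z * u * z⁻¹) * u)
    (h1 : a * u * a⁻¹ = z * u * z⁻¹) (h2 : a * a * u * (a * a)⁻¹ = z * z * u * (z * z)⁻¹) :
    a = z := by
  by_contra hne
  set g := z⁻¹ * a with hg
  have hg1 : g ≠ 1 := by
    intro h
    apply hne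
    rw [hg, inv_mul_eq_one] at h
    exact h.symm
  have ha : a = z * g := by rw [hg]; group
  rw [ha] at h1 h2
  have c1 : u * g = g * u := by
    have h3 : z * (g * u * g⁻¹) * z⁻¹ = z * u * z⁻¹ := by
      rw [← h1]; group
    have h4 : g * u * g⁻¹ = u := by simpa using h3
    exact (mul_inv_eq_iff_eq_mul.1 h4).symm
  have c2 : (z * u * z⁻¹) * g = g * (z * u * z⁻¹) := by
    have h3 : z * z * ((z⁻¹ * g * z * g) * u * (z⁻¹ * g * z * g)⁻¹) * (z * z)⁻¹ =
        z * z * u * (z * z)⁻¹ := by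
      rw [← h2]; group
    have h4 : (z⁻¹ * g * z * g) * u * (z⁻¹ * g * z * g)⁻¹ = u := by
      have h5 := mul_right_cancel h3
      exact mul_left_cancel h5
    have h5 : (z⁻¹ * g * z) * (g * u * g⁻¹) * (z⁻¹ * g * z)⁻¹ = u := by
      refine Eq.trans ?_ h4
      group
    have h6 : g * u * g⁻¹ = u := by rw [← c1]; group
    rw [h6, mul_inv_eq_iff_eq_mul] at h5
    have h7 : z * (z⁻¹ * g * z * u) * z⁻¹ = z * (u * (z⁻¹ * g * z)) * z⁻¹ := by rw [h5]
    have h8 : g * (z * u * z⁻¹) = (z * u * z⁻¹) * g := by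
      calc g * (z * u * z⁻¹) = z * (z⁻¹ * g * z * u) * z⁻¹ := by group
        _ = z * (u * (z⁻¹ * g * z)) * z⁻¹ := h7
        _ = _ := by group
    exact h8.symm
  exact hz (Pool.Agent.Helper180.FreeMetric.comm_trans hg1 c1 c2)

/-- the exponent sum of the first generator -/
def ex : F →* Multiplicative ℤ := FreeGroup.lift ![Multiplicative.ofAdd 1, 1]
/-- the exponent sum of the second generator -/
def ey : F →* Multiplicative ℤ := FreeGroup.lift ![1, Multiplicative.ofAdd 1]

lemma ex_x : ex x = Multiplicative.ofAdd 1 := by simp [ex, x]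
lemma ex_y : ex y = 1 := by simp [ex, y]
lemma ey_x : ey x = 1 := by simp [ey, x]
lemma ey_y : ey y = Multiplicative.ofAdd 1 := by simp [ey, y]

/-- the elements with both exponent sums zero (the derived subgroup) -/
def K : Subgroup F := ex.ker ⊓ ey.ker

lemma mem_K {w : F} : w ∈ K ↔ ex w = 1 ∧ ey w = 1 := Iff.rfl

lemma hom_ext {A : Type} [Group A] {f g : F →* A} (hx : f x = g x) (hy : f y = g y) : f = g := by
  apply FreeGroup.ext_hom
  intro i
  fin_cases i
  · exact hx
  · exact hy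

lemma hom_formula {A : Type} [CommGroup A] (θ : F →* A) (w : F) :
    θ w = θ x ^ (ex w).toAdd * θ y ^ (ey w).toAdd := by
  have h : θ = (zpowersHom A (θ x)).comp ex * (zpowersHom A (θ y)).comp ey := by
    apply hom_ext
    · simp [ex_x, ey_x]
    · simp [ex_y, ey_y]
  conv_lhs => rw [h]
  simp

/-- affine maps of the rationals -/
@[ext] structure AQ where
  u : ℚˣ
  v : ℚ

namespace AQ

instance : Mul AQ := ⟨fun x y => ⟨x.u * y.u, x.u * y.v + x.v⟩⟩
instance : One AQ := ⟨⟨1, 0⟩⟩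
instance : Inv AQ := ⟨fun x => ⟨x.u⁻¹, -((x.u⁻¹ : ℚˣ) * x.v)⟩⟩

@[simp] lemma mul_u (x y : AQ) : (x * y).u = x.u * y.u := rfl
@[simp] lemma mul_v (x y : AQ) : (x * y).v = x.u * y.v + x.v := rfl
@[simp] lemma one_u : (1 : AQ).u = 1 := rfl
@[simp] lemma one_v : (1 : AQ).v = 0 := rfl
@[simp] lemma inv_u (x : AQ) : (x⁻¹).u = x.u⁻¹ := rfl
@[simp] lemma inv_v (x : AQ) : (x⁻¹).v = -((x.u⁻¹ : ℚˣ) * x.v) := rfl

instance : Group AQ :=
  Group.ofLeftAxioms
    (by intro x y z; ext <;> simp [mul_assoc, mul_add, add_assoc])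
    (by intro x; ext <;> simp)
    (by intro x; ext <;> simp)

/-- the linear part -/
def uHom : AQ →* ℚˣ where
  toFun := AQ.u
  map_one' := rfl
  map_mul' _ _ := rfl

/-- the unit two -/
def tw : ℚˣ := Units.mk0 2 (by norm_num)

lemma pow_tw (n : ℕ) : (⟨tw, 0⟩ : AQ) ^ n = ⟨tw ^ n, 0⟩ := by
  induction n with
  | zero => rw [pow_zero]; ext <;> simp
  | succ n ih => rw [pow_succ, ih]; ext <;> simp [pow_succ]

/-- the action of the free group on the rationals -/
def rho : F →* AQ := FreeGroup.lift ![⟨tw, 0⟩, ⟨1, 1⟩]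

lemma rho_x : rho x = ⟨tw, 0⟩ := by simp [rho, x]
lemma rho_y : rho y = ⟨1, 1⟩ := by simp [rho, y]

lemma rho_u {w : F} (h : ex w = 1) : (rho w).u = 1 := by
  have h1 := hom_formula (uHom.comp rho) w
  have h2 : uHom (rho y) = 1 := by rw [rho_y]; rfl
  rw [MonoidHom.comp_apply, MonoidHom.comp_apply, MonoidHom.comp_apply, h, h2] at h1
  have h3 : uHom (rho w) = 1 := by simpa using h1
  exact h3

/-- the test elements -/
def tst (n : ℕ) : F := (x ^ n)⁻¹ * y * x ^ n * y⁻¹

lemma tst_mem (n : ℕ) : tst n ∈ K := by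
  rw [mem_K]
  constructor
  · simp only [tst, map_mul, map_inv, map_pow, ex_x, ex_y]
    simp
  · simp only [tst, map_mul, map_inv, map_pow, ey_x, ey_y]
    simp

lemma tst_v (n : ℕ) : (rho (tst n)).v = (2 ^ n)⁻¹ - 1 := by
  simp only [tst, map_mul, map_inv, map_pow, rho_x, rho_y, pow_tw, mul_v, mul_u, inv_u, inv_v]
  simp [tw]
  ring

end AQ

open AQ in
lemma K_not_fg : ¬ K.FG := by
  rintro ⟨S, hS⟩
  set N : ℕ := ∏ w ∈ S, (rho w).v.den with hN
  have hNpos : 0 < N := Finset.prod_pos (fun w _ => (rho w).v.den_pos)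
  have key : ∀ w ∈ Subgroup.closure (S : Set F), ∃ z : ℤ, (N : ℚ) * (rho w).v = z := by
    intro w hw
    induction hw using Subgroup.closure_induction with
    | mem w hw =>
      obtain ⟨k, hk⟩ := Finset.dvd_prod_of_mem (fun w => (rho w).v.den) hw
      refine ⟨k * (rho w).v.num, ?_⟩
      have h1 : (N : ℚ) = (rho w).v.den * k := by
        rw [hN]
        exact_mod_cast hk
      rw [h1]
      push_cast
      have h2 : (rho w).v * (rho w).v.den = (rho w).v.num := Rat.mul_den_eq_num _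
      rw [← h2]
      ring
    | one => exact ⟨0, by simp⟩
    | mul a b ha hb iha ihb =>
      obtain ⟨z1, h1⟩ := iha
      obtain ⟨z2, h2⟩ := ihb
      rw [hS, mem_K] at ha
      refine ⟨z1 + z2, ?_⟩
      rw [map_mul, mul_v, rho_u ha.1]
      push_cast
      rw [← h1, ← h2]
      simp
      ring
    | inv a ha iha =>
      obtain ⟨z1, h1⟩ := iha
      rw [hS, mem_K] at ha
      refine ⟨-z1, ?_⟩
      rw [map_inv, inv_v, rho_u ha.1]
      push_cast
      rw [← h1]
      simp
  obtain ⟨z, hz⟩ := key (tst N) (by rw [hS]; exact tst_mem N)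
  rw [tst_v] at hz
  have h1 : (N : ℤ) = 2 ^ N * (z + N) := by
    have h2 : (2 : ℚ) ^ N ≠ 0 := by positivity
    have h3 : (N : ℚ) = 2 ^ N * (z + N) := by
      rw [← hz]
      field_simp
      ring
    exact_mod_cast h3
  have h2 : ((2 ^ N : ℕ) : ℤ) ∣ (N : ℤ) := ⟨z + N, by push_cast; exact h1⟩
  have h3 := Nat.le_of_dvd hNpos (Int.natCast_dvd_natCast.1 h2)
  exact absurd h3 (not_le.2 Nat.lt_two_pow_self)

lemma fg_map {A B : Type} [Group A] [Group B] {P : Subgroup A} (h : P.FG) (e : A →* B) :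
    (P.map e).FG := by
  classical
  obtain ⟨S, hS⟩ := h
  refine ⟨S.image e, ?_⟩
  rw [Finset.coe_image, ← MonoidHom.map_closure, hS]

/-- the generators of the subgroup -/
def gens : Set F :=
  {u, x * u * x⁻¹, x * x * u * (x * x)⁻¹, y * u * y⁻¹, y * y * u * (y * y)⁻¹}

/-- the subgroup -/
def H (m : ℕ) : Subgroup (GG m) :=
  (Subgroup.closure gens).map (MonoidHom.inr (Multiplicative (Fin m → ℤ)) F)

lemma H_fg (m : ℕ) : (H m).FG := by
  apply fg_map
  have hf : gens.Finite := by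
    unfold gens
    exact Set.toFinite _
  refine ⟨hf.toFinset, ?_⟩
  rw [Set.Finite.coe_toFinset]

lemma gens_K : Subgroup.closure gens ≤ K := by
  rw [Subgroup.closure_le]
  have hu : u ∈ K := by
    rw [mem_K]
    constructor
    · simp [u]
    · simp [u]
  have hconj : ∀ g : F, g * u * g⁻¹ ∈ K := by
    intro g
    rw [mem_K] at hu ⊢
    constructor
    · rw [map_mul, map_mul, map_inv, hu.1]; simp
    · rw [map_mul, map_mul, map_inv, hu.2]; simp
  intro w hw
  simp only [gens, Set.mem_insert_iff, Set.mem_singleton_iff] at hw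
  rcases hw with rfl | rfl | rfl | rfl | rfl
  · exact hu
  · exact hconj _
  · exact hconj _
  · exact hconj _
  · exact hconj _

lemma center_trivial {c : F} (hx : c * x = x * c) (hy : c * y = y * c) : c = 1 := by
  by_contra h
  exact ncxy (Pool.Agent.Helper180.FreeMetric.comm_trans h hx.symm hy.symm)

/-- an endomorphism fixing `H` induces the identity on the second factor -/
lemma fix_snd {m : ℕ} (Ψ : GG m →* GG m) (h : ∀ g ∈ H m, Ψ g = g) (w : F) :
    Ψ (1, w) = (Multiplicative.ofAdd 0 * (Ψ (1, w)).1, w) := by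
  have hg : ∀ s ∈ gens, (Ψ (1, s)).2 = s := by
    intro s hs
    rw [h (1, s) ⟨s, Subgroup.subset_closure hs, rfl⟩]
  let φ : F →* F := ((MonoidHom.snd _ _).comp Ψ).comp (MonoidHom.inr _ _)
  have hφ : ∀ s ∈ gens, φ s = s := hg
  have hu := hφ u (by simp [gens])
  have h1 := hφ (x * u * x⁻¹) (by simp [gens])
  have h2 := hφ (x * x * u * (x * x)⁻¹) (by simp [gens])
  have h3 := hφ (y * u * y⁻¹) (by simp [gens])
  have h4 := hφ (y * y * u * (y * y)⁻¹) (by simp [gens])
  rw [map_mul, map_mul, map_inv, hu] at h1 h3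
  rw [map_mul, map_mul, map_inv, map_mul, hu] at h2 h4
  have hx : φ x = x := key ncx h1 h2
  have hy : φ y = y := key ncy h3 h4
  have hid : φ = MonoidHom.id F := hom_ext hx hy
  have h5 : (Ψ (1, w)).2 = w := by
    have := congrArg (fun f : F →* F => f w) hid
    exact this
  ext
  · simp
  · exact h5

lemma le_endo (m : ℕ) : (⊥ : Subgroup (Multiplicative (Fin m → ℤ))).prod K ≤
    endoClosure (H m) := by
  rintro ⟨a, w⟩ ⟨ha, hw⟩ Ψ hΨ
  have ha' : a = 1 := ha
  subst ha'
  have h1 := fix_snd Ψ hΨ w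
  let θ : F →* Multiplicative (Fin m → ℤ) := ((MonoidHom.fst _ _).comp Ψ).comp (MonoidHom.inr _ _)
  have h2 : θ w = 1 := by
    have hw' : ex w = 1 ∧ ey w = 1 := hw
    rw [hom_formula θ w, hw'.1, hw'.2]
    simp
  have h3 : (Ψ (1, w)).1 = 1 := h2
  rw [h1, h3]
  rfl

lemma endo_le_auto {G : Type} [Group G] (H : Subgroup G) : endoClosure H ≤ autoClosure H := by
  intro g hg φ hφ
  exact hg φ.toMonoidHom hφ

/-- the shear -/
def shear {m : ℕ} (P : F →* Multiplicative (Fin m → ℤ)) : GG m ≃* GG m where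
  toFun g := (g.1 * P g.2, g.2)
  invFun g := (g.1 * (P g.2)⁻¹, g.2)
  left_inv := by
    rintro ⟨a, w⟩
    simp
  right_inv := by
    rintro ⟨a, w⟩
    simp
  map_mul' := by
    rintro ⟨a, w⟩ ⟨b, z⟩
    ext
    · simp; ring
    · simp

lemma auto_le {m : ℕ} (hm : 1 ≤ m) : autoClosure (H m) ≤
    (⊥ : Subgroup (Multiplicative (Fin m → ℤ))).prod K := by
  rintro ⟨a, w⟩ h
  have hH : ∀ g ∈ H m, g.1 = 1 ∧ g.2 ∈ K := by
    rintro g ⟨s, hs, rfl⟩
    exact ⟨rfl, gens_K hs⟩
  have ha : a = 1 := by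
    have h1 := h ((MulEquiv.inv _).prodCongr (MulEquiv.refl F)) (by
      intro g hg
      obtain ⟨g1, g2⟩ := g
      have e1 : g1 = 1 := (hH _ hg).1
      subst e1
      show ((1 : Multiplicative (Fin m → ℤ))⁻¹, g2) = (1, g2)
      rw [inv_one])
    have h2 : a⁻¹ = a := congrArg Prod.fst h1
    have h3 : -(Multiplicative.toAdd a) = Multiplicative.toAdd a := h2
    apply Multiplicative.toAdd.injective
    funext i
    have h4 := congrFun h3 i
    simp only [Pi.neg_apply] at h4
    show Multiplicative.toAdd a i = 0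
    omega
  subst ha
  have hP : ∀ P : F →* Multiplicative (Fin m → ℤ), P w = 1 := by
    intro P
    have h1 := h (shear P) (by
      rintro ⟨g1, g2⟩ hg
      obtain ⟨e1, e2⟩ := hH _ hg
      have e1' : g1 = 1 := e1
      subst e1'
      have : P g2 = 1 := by
        have hw' : ex g2 = 1 ∧ ey g2 = 1 := e2
        rw [hom_formula P g2, hw'.1, hw'.2]
        simp
      show (1 * P g2, g2) = (1, g2)
      rw [this, mul_one])
    have h2 : 1 * P w = 1 := congrArg Prod.fst h1
    simpa using h2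
  refine ⟨rfl, ?_⟩
  have hz : ∀ z : Multiplicative ℤ,
      (zpowersHom (Multiplicative (Fin m → ℤ)) (Multiplicative.ofAdd (fun _ => 1))) z = 1 →
      z = 1 := by
    intro z hz
    have h1 := congrFun (congrArg Multiplicative.toAdd hz) ⟨0, hm⟩
    apply Multiplicative.toAdd.injective
    simpa using h1
  exact ⟨hz _ (hP ((zpowersHom _ (Multiplicative.ofAdd (fun _ => 1))).comp ex)),
    hz _ (hP ((zpowersHom _ (Multiplicative.ofAdd (fun _ => 1))).comp ey))⟩

lemma auto_eq {m : ℕ} (hm : 1 ≤ m) :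
    autoClosure (H m) = (⊥ : Subgroup (Multiplicative (Fin m → ℤ))).prod K :=
  le_antisymm (auto_le hm) ((le_endo m).trans (endo_le_auto _))

lemma endo_eq {m : ℕ} (hm : 1 ≤ m) :
    endoClosure (H m) = (⊥ : Subgroup (Multiplicative (Fin m → ℤ))).prod K :=
  le_antisymm ((endo_le_auto _).trans (auto_le hm)) (le_endo m)

lemma not_fg (m : ℕ) : ¬ ((⊥ : Subgroup (Multiplicative (Fin m → ℤ))).prod K).FG := by
  intro h
  apply K_not_fg
  have h4 : ((⊥ : Subgroup (Multiplicative (Fin m → ℤ))).prod K).map (MonoidHom.snd _ _) = K := by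
    ext w
    constructor
    · rintro ⟨g, hg, rfl⟩
      exact hg.2
    · intro hw
      exact ⟨(1, w), ⟨Subgroup.one_mem _, hw⟩, rfl⟩
  rw [← h4]
  exact fg_map h _

end Pool.Agent.Q89.FixedClosures
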