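import Mathlib

set_option autoImplicit false

/-!
# The Grigorchuk group: words, sections and a finite certificate

The certificate (`ST`, `TT`) is a finite-state strategy which builds, from two words `V xs`, `V ys`
(products of blocks `a x`), a word in the generators with the two first-level sections `V xs`, `V ys`
(up to a bounded error) whose weighted length is at most `(87 |V xs| + 140 |V ys|) / 60 + C`, and also at
most `(140 |V xs| + 87 |V ys|) / 60 + C`.
-/

namespace Pool.Agent.Q89.GD

/-- the four generators -/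
inductive L | a | b | c | d
  deriving DecidableEq

open L

/-- the four maps on words -/
def act : L → List Bool → List Bool
  | _, [] => []
  | a, x :: w => (!x) :: w
  | b, false :: w => false :: act a w
  | b, true :: w => true :: act c w
  | c, false :: w => false :: act a w
  | c, true :: w => true :: act d w
  | d, false :: w => false :: w
  | d, true :: w => true :: act b w

theorem act_act (x : L) (u : List Bool) : act x (act x u) = u := by
  induction u generalizing x with
  | nil => cases x <;> rfl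
  | cons z u ih => cases x <;> cases z <;> simp [act, ih]

/-- the generators as permutations -/
def gen (x : L) : Equiv.Perm (List Bool) := ⟨act x, act x, act_act x, act_act x⟩

@[simp] theorem gen_apply (x : L) (u : List Bool) : gen x u = act x u := rfl

theorem gen_mul_self (x : L) : gen x * gen x = 1 := by
  ext1 u; exact act_act x u

/-- the value of a word -/
def ev (w : List L) : Equiv.Perm (List Bool) := (w.map gen).prod

@[simp] theorem ev_nil : ev [] = 1 := rfl
@[simp] theorem ev_cons (x : L) (w : List L) : ev (x :: w) = gen x * ev w := by simp [ev]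
@[simp] theorem ev_append (w v : List L) : ev (w ++ v) = ev w * ev v := by simp [ev]

theorem ev_reverse (w : List L) : ev w.reverse = (ev w)⁻¹ := by
  induction w with
  | nil => simp
  | cons x w ih =>
    have : (gen x)⁻¹ = gen x := inv_eq_of_mul_eq_one_right (gen_mul_self x)
    simp [ih, this]

/-- does the letter act at the root -/
def isa : L → Bool
  | a => true
  | _ => false

/-- the action of a word at the root -/
def sw : List L → Bool
  | [] => false
  | x :: w => xor (isa x) (sw w)

/-- the sections of a letter -/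
def secL : L → Bool → List L
  | a, _ => []
  | b, false => [a]
  | b, true => [c]
  | c, false => [a]
  | c, true => [d]
  | d, false => []
  | d, true => [b]

/-- the sections of a word -/
def sec (z : Bool) : List L → List L
  | [] => []
  | x :: w => secL x (xor z (sw w)) ++ sec z w

theorem sw_append (w v : List L) : sw (w ++ v) = xor (sw w) (sw v) := by
  induction w with
  | nil => simp [sw]
  | cons x w ih => simp [sw, ih]

theorem sec_append (z : Bool) (w v : List L) :
    sec z (w ++ v) = sec (xor z (sw v)) w ++ sec z v := by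
  induction w with
  | nil => simp [sec]
  | cons x w ih =>
    have : xor (xor z (sw v)) (sw w) = xor z (xor (sw w) (sw v)) := by
      cases z <;> cases sw v <;> cases sw w <;> rfl
    simp [sec, ih, sw_append, this]

theorem gen_cons (x : L) (z : Bool) (u : List Bool) :
    gen x (z :: u) = (xor z (isa x)) :: ev (secL x z) u := by
  cases x <;> cases z <;> simp [act, isa, secL]

theorem ev_cons_apply (w : List L) (z : Bool) (u : List Bool) :
    ev w (z :: u) = (xor z (sw w)) :: ev (sec z w) u := by
  induction w with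
  | nil => simp [sw, sec]
  | cons x w ih =>
    rw [ev_cons, Equiv.Perm.mul_apply, ih, gen_cons]
    simp only [sw, sec, ev_append, Equiv.Perm.mul_apply, List.cons.injEq, and_true]
    cases z <;> cases sw w <;> cases isa x <;> rfl

@[simp] theorem ev_nil_apply (w : List L) : ev w [] = [] := by
  induction w with
  | nil => rfl
  | cons x w ih => rw [ev_cons, Equiv.Perm.mul_apply, ih]; cases x <;> rfl

/-- a word acts trivially iff it fixes the first level and its sections act trivially -/
theorem ev_eq_one {w : List L} (h : sw w = false) (h0 : ev (sec false w) = 1)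
    (h1 : ev (sec true w) = 1) : ev w = 1 := by
  ext1 u
  cases u with
  | nil => simp
  | cons z u =>
    rw [ev_cons_apply, h]
    cases z <;> simp [h0, h1]

theorem ev_ext {w v : List L} (h : sw w = sw v) (h0 : ev (sec false w) = ev (sec false v))
    (h1 : ev (sec true w) = ev (sec true v)) : ev w = ev v := by
  ext1 u
  cases u with
  | nil => simp
  | cons z u =>
    rw [ev_cons_apply, ev_cons_apply, h]
    cases z <;> simp [h0, h1]

theorem sec_ext {w v : List L} (h : ev w = ev v) (z : Bool) :
    sw w = sw v ∧ ev (sec z w) = ev (sec z v) := by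
  have key : ∀ z u, (xor z (sw w)) :: ev (sec z w) u = (xor z (sw v)) :: ev (sec z v) u := by
    intro z u
    rw [← ev_cons_apply, ← ev_cons_apply, h]
  refine ⟨?_, ?_⟩
  · have := key false []
    simpa using this
  · ext1 u
    have := key z u
    simp only [List.cons.injEq] at this
    exact this.2

/-- `b c = d` and so on -/
theorem bcd (u : List Bool) : act b (act c u) = act d u ∧ act c (act d u) = act b u ∧
    act d (act b u) = act c u := by
  induction u with
  | nil => simp [act]
  | cons z u ih =>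
    cases z <;> simp [act, act_act, ih]

/-- multiply a reduced word by a letter -/
def push : L → List L → List L
  | a, a :: l => l
  | b, b :: l => l
  | c, c :: l => l
  | d, d :: l => l
  | b, c :: l => d :: l
  | b, d :: l => c :: l
  | c, b :: l => d :: l
  | c, d :: l => b :: l
  | d, b :: l => c :: l
  | d, c :: l => b :: l
  | x, l => x :: l

theorem gen_bc : gen b * gen c = gen d := by ext1 u; exact (bcd u).1
theorem gen_cd : gen c * gen d = gen b := by ext1 u; exact (bcd u).2.1
theorem gen_db : gen d * gen b = gen c := by ext1 u; exact (bcd u).2.2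
theorem gen_inv (x : L) : (gen x)⁻¹ = gen x := inv_eq_of_mul_eq_one_right (gen_mul_self x)
theorem gen_cb : gen c * gen b = gen d := by
  rw [← gen_inv c, ← gen_inv b, ← mul_inv_rev, gen_bc, gen_inv]
theorem gen_dc : gen d * gen c = gen b := by
  rw [← gen_inv c, ← gen_inv d, ← mul_inv_rev, gen_cd, gen_inv]
theorem gen_bd : gen b * gen d = gen c := by
  rw [← gen_inv d, ← gen_inv b, ← mul_inv_rev, gen_db, gen_inv]

theorem ev_push (x : L) (l : List L) : ev (push x l) = gen x * ev l := by
  rcases l with _ | ⟨y, l⟩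
  · cases x <;> rfl
  · cases x <;> cases y <;>
      simp only [push, ev_cons, ← mul_assoc, gen_mul_self, gen_bc, gen_cd, gen_db, gen_cb, gen_dc,
        gen_bd, one_mul]

/-- reduce a word -/
def red : List L → List L
  | [] => []
  | x :: w => push x (red w)

theorem ev_red (w : List L) : ev (red w) = ev w := by
  induction w with
  | nil => rfl
  | cons x w ih => rw [red, ev_push, ih, ev_cons]

/-- a sufficient test for triviality -/
def triv : ℕ → List L → Bool
  | 0, w => (red w).isEmpty
  | n + 1, w => (red w).isEmpty ||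
      (!sw (red w) && triv n (sec false (red w)) && triv n (sec true (red w)))

theorem triv_sound (n : ℕ) : ∀ w : List L, triv n w = true → ev w = 1 := by
  induction n with
  | zero =>
    intro w h
    rw [← ev_red w]
    simp only [triv, List.isEmpty_iff] at h
    rw [h]; rfl
  | succ n ih =>
    intro w h
    rw [← ev_red w]
    simp only [triv, Bool.or_eq_true, List.isEmpty_iff, Bool.and_eq_true, Bool.not_eq_true'] at h
    rcases h with h | ⟨⟨h1, h2⟩, h3⟩
    · rw [h]; rfl
    · exact ev_eq_one h1 (ih _ h2) (ih _ h3)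

/-- weights of the letters -/
def wt : L → ℕ
  | a => 3
  | b => 5
  | c => 4
  | d => 3

/-- the weighted length of a word -/
def WT (w : List L) : ℕ := (w.map wt).sum

@[simp] theorem WT_nil : WT [] = 0 := rfl
@[simp] theorem WT_cons (x : L) (w : List L) : WT (x :: w) = wt x + WT w := by simp [WT]
@[simp] theorem WT_append (w v : List L) : WT (w ++ v) = WT w + WT v := by simp [WT]

/-- the letters other than `a` -/
inductive X | b | c | d
  deriving DecidableEq

/-- inclusion -/
def X.l : X → L
  | X.b => L.b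
  | X.c => L.c
  | X.d => L.d

/-- index -/
def X.i : X → ℕ
  | X.b => 0
  | X.c => 1
  | X.d => 2

/-- the word made of the blocks `a x` -/
def V : List X → List L
  | [] => []
  | x :: xs => a :: x.l :: V xs

theorem V_append (xs ys : List X) : V (xs ++ ys) = V xs ++ V ys := by
  induction xs with
  | nil => rfl
  | cons x xs ih => simp [V, ih]

/-- weight of a block -/
def nx (x : X) : ℕ := 3 + wt x.l

/-- the weight of a list of blocks -/
def N (xs : List X) : ℕ := (xs.map nx).sum

@[simp] theorem N_nil : N [] = 0 := rfl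
@[simp] theorem N_cons (x : X) (xs : List X) : N (x :: xs) = nx x + N xs := by simp [N]
theorem N_append (xs ys : List X) : N (xs ++ ys) = N xs + N ys := by simp [N]
theorem WT_V (xs : List X) : WT (V xs) = N xs := by
  induction xs with
  | nil => rfl
  | cons x xs ih => simp [V, ih, nx, wt, add_assoc]

def ST : List (List L × List L × ℕ) :=
  [([], [], 19),
   ([], [b], 79),
   ([], [c], 0),
   ([a], [b, a], 317),
   ([a], [c, a], 118),
   ([a], [d, a], 58),
   ([b], [d], 150),
   ([b], [a, d], 0),
   ([b], [d, a], 724),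
   ([c], [d], 604),
   ([d], [], 0),
   ([d], [c], 386),
   ([d], [c, a], 270),
   ([d], [d, a], 210),
   ([a, d], [b], 0),
   ([a, d], [d], 0),
   ([a, d], [a, c], 0),
   ([b, a], [a], 175),
   ([b, a], [d], 461),
   ([b, a], [d, a], 832),
   ([c, a], [a], 0),
   ([c, a], [c], 188),
   ([c, a], [d, a], 370),
   ([d, a], [a], 0),
   ([d, a], [a, c], 196),
   ([d, a], [b, a], 974),
   ([d, a], [c, a], 588),
   ([d, a], [d, a], 310)]

def TT : List (List (ℕ × List L)) :=
  [[(14, [c, a, d, a, c, a, c, a]), (4, [c, a, d, a, c]), (19, []), (20, [a, c, a, d, a, c, a]), (26, [c, a, d, a, c]), (27, [c, a, d, a, c]), (25, []), (26, []), (27, [])],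
   [(3, [c, a, d, a, b]), (4, [c, a, d, a, b]), (19, [d]), (20, [d, a, c, a, d, a, c, a]), (26, [c, a, d, a, b]), (22, [d]), (25, [d]), (26, [d]), (27, [d])],
   [(10, [b, a, b, a, d]), (11, [b, a, b, a]), (8, [b]), (1, [b, a, b, a]), (12, [b, a, d, a]), (13, [b, a, d, a]), (1, [b, a, c, a]), (12, [b]), (13, [b])],
   [(1, [a, c, a, d, a, b, a]), (12, [a, b, a, d]), (13, [a, b, a, d]), (21, [a, c, a, d, a, c, a, c]), (11, [a, c, a, d, a, b, a]), (8, [a, c, a, d]), (10, [a, c, a, d, a, c, a, d]), (11, [a, c, a, d, a, c, a]), (8, [a, b, a, d])],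
   [(25, [a, b, a, b]), (26, [a, b, a, b]), (27, [a, b, a, b]), (14, [a, b, a, b, a, c, a]), (4, [a, b, a, b]), (15, [a, b, a, b, a, c, a]), (14, [a, c, a, b, a, c, a]), (4, [a, c, a, b]), (5, [a, c, a, b])],
   [(25, [a, b, a, c]), (26, [a, b, a, c]), (22, [a, c, a, c]), (3, [a, b, a, c]), (4, [a, b, a, c]), (5, [a, b, a, c]), (3, [a, c, a, c]), (4, [a, c, a, c]), (5, [a, c, a, c])],
   [(10, [a, d, a, c, a, b, a, d]), (11, [a, d, a, c, a, b, a]), (8, [a, d, a, c]), (1, [a, d, a, c, a, b, a]), (12, [a, d, a, c, a, d, a]), (13, [a, d, a, c, a, d, a]), (1, [a, d, a, c, a, c, a]), (12, [a, d, a, c]), (13, [a, d, a, c])],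
   [(18, [a, d, a, d]), (6, [a, d, a, b]), (6, [a, d, a, c]), (21, [a, d, a]), (9, [a, d, a, b]), (9, [a, d, a, c]), (10, [a, d, a, b]), (11, [a, d, a, c]), (11, [a, d, a, b])],
   [(26, [a, d, a, c, a, b, a, c]), (20, [a, b, a, c, a, c, a, b, a, c, a]), (20, [a, d, a, c, a, c, a, c]), (4, [a, d, a, c, a, b, a, c]), (3, [a, d, a, c, a, b, a, c]), (7, [a, d, a, c, a, c, a]), (4, [a, d, a, c, a, c, a, c]), (3, [a, d, a, c, a, c, a, c]), (7, [a, d, a, c, a, b, a])],
   [(26, [a, b, a, c, a, b, a, c]), (20, [a, d, a, c, a, c, a, b, a, c, a]), (20, [a, b, a, c, a, c, a, c]), (4, [a, b, a, c, a, b, a, c]), (3, [a, b, a, c, a, b, a, c]), (7, [a, b, a, c, a, c, a]), (15, [a, d, a, c, a, c, a, b]), (14, [a, d, a, c, a, c, a, c]), (7, [a, b, a, c, a, b, a])],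
   [(6, [a, c, a, b]), (18, [a, c, a, d]), (18, [a, c, a]), (9, [a, c, a, b]), (21, [a, c, a]), (21, [a, c, a, d]), (11, [a, c, a, c]), (10, [a, c, a, b]), (10, [a, c, a, c])],
   [(22, [b, a, c, a, b, a, c, a]), (20, [b, a, c, a, b, a, c, a]), (20, [b, a, c, a, c, a, c, a]), (4, [d, a, c, a, c, a, b, a, c]), (17, [b, a, c, a, b, a, c, a]), (7, [d, a, c, a, c, a, c, a]), (15, [b, a, c, a, b]), (14, [b, a, c, a, c]), (14, [b, a, c, a, b])],
   [(10, [a, c, a, b, a, b, a, d]), (11, [a, c, a, b, a, b, a]), (8, [a, c, a, b]), (1, [a, c, a, b, a, b, a]), (12, [a, c, a, b, a, d, a]), (13, [a, c, a, b, a, d, a]), (1, [a, c, a, b, a, c, a]), (12, [a, c, a, b]), (13, [a, c, a, b])],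
   [(10, [a, c, a, c, a, b, a, d]), (11, [a, c, a, c, a, b, a]), (8, [a, c, a, c]), (1, [a, c, a, c, a, b, a]), (12, [a, c, a, c, a, d, a]), (13, [a, c, a, c, a, d, a]), (1, [a, c, a, c, a, c, a]), (12, [a, c, a, c]), (13, [a, c, a, c])],
   [(0, [d, a, b, a, d]), (12, [a, d, a, d]), (13, [a, d, a, d]), (10, [d, a, b, a, d]), (9, [d, a, c, a, d]), (9, [d, a, c, a]), (10, [d, a, c, a, d]), (11, [d, a, c, a]), (11, [d, a, c, a, d])],
   [(25, [a, d, a, c]), (26, [a, d, a, c]), (22, [c]), (3, [a, d, a, c]), (4, [a, d, a, c]), (19, [c]), (3, [c]), (4, [c]), (5, [c])],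
   [(9, []), (21, [b]), (21, [c]), (6, []), (18, [c]), (18, [b]), (2, [d]), (0, []), (1, [])],
   [(18, [b, a, d, a]), (6, [c, a, d, a, b]), (6, [c, a, d, a, c]), (21, [c, a, d, a]), (9, [c, a, d, a, b]), (9, [c, a, d, a, c]), (10, [c, a, d, a, b]), (11, [c, a, d, a, c]), (11, [c, a, d, a, b])],
   [(17, [c, a, c, a, d, a, b, a]), (4, [c, a, d, a, c, a, d, a, c]), (19, [c, a, d, a]), (20, [c, a, c, a, d, a, b, a]), (22, [c, a, c, a, d, a, b, a]), (22, [c, a, d, a]), (25, [c, a, d, a]), (26, [c, a, d, a]), (27, [c, a, d, a])],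
   [(20, [c, a, b, a, c, a, c, a, b, a, c, a]), (26, [c, a, d, a, c, a, b, a, c]), (27, [c, a, d, a, c, a, b, a, c]), (3, [c, a, d, a, c, a, b, a, c]), (4, [c, a, d, a, c, a, b, a, c]), (5, [c, a, d, a, c, a, b, a, c]), (3, [c, a, d, a, c, a, c, a, c]), (4, [c, a, d, a, c, a, c, a, c]), (5, [c, a, d, a, c, a, c, a, c])],
   [(19, [b, a, b, a]), (7, [b, a, b, a, c]), (7, [c, a, b, a, c]), (22, [b, a, b, a]), (20, [b, a, b, a]), (20, [c, a, b, a]), (26, [c, a, b, a]), (23, [b, a, b, a]), (23, [c, a, b, a])],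
   [(6, [b, a, b, a, b]), (18, [b, a, b, a, d]), (18, [b, a, b, a]), (9, [b, a, b, a, b]), (21, [b, a, b, a]), (21, [b, a, b, a, d]), (11, [b, a, b, a, c]), (10, [b, a, b, a, b]), (10, [b, a, b, a, c])],
   [(11, [c, a, b, a, c, a, b, a]), (10, [c, a, b, a, c, a, b, a, d]), (10, [c, a, b, a, c, a, b, a]), (12, [c, a, b, a, c, a, d, a]), (1, [c, a, b, a, c, a, b, a]), (0, [c, a, b, a, c, a, b, a]), (12, [c, a, b, a, c]), (1, [c, a, b, a, c, a, c, a]), (24, [c, a, b, a, d])],
   [(19, [b, a, c, a]), (17, [b, a, c, a]), (17, [c, a, c, a]), (22, [b, a, c, a]), (20, [b, a, c, a]), (20, [c, a, c, a]), (26, [c, a, c, a]), (23, [b, a, c, a]), (23, [c, a, c, a])],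
   [(17, [c, a, c, a]), (19, [c, a, c, a]), (19, [b, a, c, a]), (20, [c, a, c, a]), (22, [c, a, c, a]), (22, [b, a, c, a]), (23, [c, a, c, a]), (27, [c, a, c, a]), (26, [c, a, c, a])],
   [(4, [a, c, a, b, a, c, a, c, a, b, a, c]), (7, [a, c, a, d, a, c, a, b, a, c, a, c]), (7, [a, c, a, b, a, c, a, c, a, c, a]), (22, [a, c, a, d, a, c, a, b, a, c, a]), (20, [a, c, a, d, a, c, a, b, a, c, a]), (20, [a, c, a, d, a, c, a, c, a, c, a]), (16, [a, c, a, d, a, c, a, d, a, c, a, b]), (23, [a, c, a, d, a, c, a, b, a, c, a]), (23, [a, c, a, d, a, c, a, c, a, c, a])],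
   [(9, [a, c, a, b, a, c, a, b]), (21, [a, c, a, b, a, c, a]), (21, [a, c, a, b, a, c, a, d]), (6, [a, c, a, b, a, c, a, b]), (18, [a, c, a, b, a, c, a, d]), (18, [a, c, a, b, a, c, a]), (2, [a, c, a, b, a, c, a, c]), (0, [a, c, a, b, a, c, a, b]), (0, [a, c, a, b, a, c, a, c])],
   [(11, [c, a, c, a, c, a, b, a]), (21, [a, c, a, c, a, c, a]), (21, [a, c, a, c, a, c, a, d]), (12, [c, a, c, a, c, a, d, a]), (1, [c, a, c, a, c, a, b, a]), (0, [c, a, c, a, c, a, b, a]), (12, [c, a, c, a, c]), (1, [a, c, a, c, a, c, a, c]), (24, [c, a, c, a, d])]]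

def P (i : ℕ) : List L := (ST.getD i ([], [], 0)).1
def Q (i : ℕ) : List L := (ST.getD i ([], [], 0)).2.1
def ph (i : ℕ) : ℕ := (ST.getD i ([], [], 0)).2.2
def T (i : ℕ) (x y : X) : ℕ × List L := ((TT.getD i []).getD (3 * x.i + y.i) (0, []))

/-- the check of one transition -/
def ok (i : ℕ) (x y : X) : Bool :=
  decide ((T i x y).1 < 28) && !sw (T i x y).2 &&
  triv 6 (P i ++ (sec false (T i x y).2 ++ ((P (T i x y).1).reverse ++ [x.l, a]))) &&
  triv 6 (Q i ++ (sec true (T i x y).2 ++ ((Q (T i x y).1).reverse ++ [y.l, a]))) &&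
  decide (60 * WT (T i x y).2 + ph (T i x y).1 ≤ ph i + (87 * nx x + 140 * nx y)) &&
  decide (60 * WT (T i x y).2 + ph (T i x y).1 ≤ ph i + (140 * nx x + 87 * nx y))

theorem ok_all : ((List.range 28).all fun i => [X.b, X.c, X.d].all fun x =>
    [X.b, X.c, X.d].all fun y => ok i x y) = true := by
  decide +kernel

theorem ok_true (i : ℕ) (hi : i < 28) (x y : X) : ok i x y = true := by
  have h := ok_all
  rw [List.all_eq_true] at h
  have h1 := h i (List.mem_range.2 hi)
  rw [List.all_eq_true] at h1
  have h2 := h1 x (by cases x <;> simp)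
  rw [List.all_eq_true] at h2
  exact h2 y (by cases y <;> simp)

end Pool.Agent.Q89.GD
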