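import Pool.Agent.Q89.GD1

set_option autoImplicit false

/-!
# The Grigorchuk group: lengths of elements with given first-level sections
-/

namespace Pool.Agent.Q89.GD

open L

theorem solve4 {p s q : Equiv.Perm (List Bool)} {x : L}
    (h : p * (s * (q⁻¹ * (gen x * (gen a * 1)))) = 1) : p * s = gen a * gen x * q := by
  have h1 : p * s = (q⁻¹ * (gen x * (gen a * 1)))⁻¹ := by
    rw [eq_inv_iff_mul_eq_one, mul_assoc]; exact h
  rw [h1]
  simp only [mul_one, mul_inv_rev, inv_inv, gen_inv]

/-- one step of the strategy -/
theorem step (i : ℕ) (hi : i < 28) (x y : X) :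
    (T i x y).1 < 28 ∧ sw (T i x y).2 = false ∧
      ev (P i) * ev (sec false (T i x y).2) = gen a * gen x.l * ev (P (T i x y).1) ∧
      ev (Q i) * ev (sec true (T i x y).2) = gen a * gen y.l * ev (Q (T i x y).1) ∧
      60 * WT (T i x y).2 + ph (T i x y).1 ≤ ph i + (87 * nx x + 140 * nx y) := by
  have h := ok_true i hi x y
  unfold ok at h
  simp only [Bool.and_eq_true, decide_eq_true_eq, Bool.not_eq_true'] at h
  obtain ⟨⟨⟨⟨⟨h1, h2⟩, h3⟩, h4⟩, h5⟩, -⟩ := h
  have h3' := triv_sound _ _ h3
  have h4' := triv_sound _ _ h4
  simp only [ev_append, ev_cons, ev_nil, ev_reverse] at h3' h4'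
  exact ⟨h1, h2, solve4 h3', solve4 h4', h5⟩

/-- **Simulation.** -/
theorem sim (xs : List X) : ∀ (ys : List X), xs.length = ys.length → ∀ i < 28,
    ∃ s : List L, ∃ j < 28, sw s = false ∧
      ev (P i) * ev (sec false s) = ev (V xs) * ev (P j) ∧
      ev (Q i) * ev (sec true s) = ev (V ys) * ev (Q j) ∧
      60 * WT s + ph j ≤ ph i + (87 * N xs + 140 * N ys) := by
  induction xs with
  | nil =>
    intro ys hl i hi
    have : ys = [] := List.length_eq_zero_iff.1 hl.symm
    subst this
    exact ⟨[], i, hi, rfl, by simp [sec, V], by simp [sec, V], by simp⟩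
  | cons x xs ih =>
    intro ys hl i hi
    rcases ys with _ | ⟨y, ys⟩
    · simp at hl
    obtain ⟨h1, h2, h3, h4, h5⟩ := step i hi x y
    obtain ⟨s, j, hj, g2, g3, g4, g5⟩ := ih ys (by simpa using hl) _ h1
    refine ⟨(T i x y).2 ++ s, j, hj, by rw [sw_append, h2, g2]; rfl, ?_, ?_, ?_⟩
    · rw [sec_append, g2, Bool.xor_false, ev_append, ← mul_assoc, h3, mul_assoc, g3]
      simp only [V, ev_cons, mul_assoc]
    · rw [sec_append, g2, Bool.xor_false, ev_append, ← mul_assoc, h4, mul_assoc, g4]
      simp only [V, ev_cons, mul_assoc]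
    · rw [WT_append, N_cons, N_cons]
      omega

/-- lifting a letter to the section at `1` -/
def lf : L → List L
  | a => [a, c, a]
  | b => [d]
  | c => [b]
  | d => [c]

/-- lifting a word to the section at `1` -/
def lift : List L → List L
  | [] => []
  | x :: w => lf x ++ lift w

/-- the section at `0` of the lift -/
def mu : List L → List L
  | [] => []
  | a :: w => d :: mu w
  | b :: w => mu w
  | c :: w => a :: mu w
  | d :: w => a :: mu w

theorem sw_lift (w : List L) : sw (lift w) = false := by
  induction w with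
  | nil => rfl
  | cons x w ih => rw [lift, sw_append, ih]; cases x <;> rfl

theorem sec_lift_true (w : List L) : sec true (lift w) = w := by
  induction w with
  | nil => rfl
  | cons x w ih => rw [lift, sec_append, ih, sw_lift]; cases x <;> rfl

theorem sec_lift_false (w : List L) : sec false (lift w) = mu w := by
  induction w with
  | nil => rfl
  | cons x w ih => rw [lift, sec_append, ih, sw_lift]; cases x <;> rfl

theorem lift_append (w v : List L) : lift (w ++ v) = lift w ++ lift v := by
  induction w with
  | nil => rfl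
  | cons x w ih => simp [lift, ih]

theorem WT_lift_V (xs : List X) : 3 * WT (lift (V xs)) ≤ 7 * N xs := by
  induction xs with
  | nil => simp [V, lift]
  | cons x xs ih =>
    simp only [V, lift, WT_append, N_cons]
    cases x <;> simp [X.l, lf, wt, nx] <;> omega

/-- the eight elements of `⟨a, d⟩` -/
def D8 : List (List L) := [[], [a], [d], [a, d], [d, a], [a, d, a], [d, a, d], [a, d, a, d]]

theorem D8_closed : (D8.all fun t => [a, d].all fun x => D8.any fun t' =>
    triv 6 (x :: (t ++ t'.reverse))) = true := by decide +kernel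

theorem D8_mul {t : List L} (ht : t ∈ D8) {x : L} (hx : x = a ∨ x = d) :
    ∃ t' ∈ D8, ev (x :: t) = ev t' := by
  have h := D8_closed
  rw [List.all_eq_true] at h
  have h1 := h t ht
  rw [List.all_eq_true] at h1
  have h2 := h1 x (by rcases hx with rfl | rfl <;> simp)
  rw [List.any_eq_true] at h2
  obtain ⟨t', ht', h3⟩ := h2
  refine ⟨t', ht', ?_⟩
  have h4 := triv_sound _ _ h3
  simp only [ev_cons, ev_append, ev_reverse] at h4
  rw [← mul_assoc, mul_eq_one_iff_eq_inv, inv_inv] at h4
  rw [ev_cons]
  exact h4

theorem mu_D8 (w : List L) : ∃ t ∈ D8, ev (mu w) = ev t := by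
  induction w with
  | nil => exact ⟨[], by simp [D8], rfl⟩
  | cons x w ih =>
    obtain ⟨t, ht, h⟩ := ih
    cases x
    · obtain ⟨t', ht', h'⟩ := D8_mul ht (x := d) (Or.inr rfl)
      exact ⟨t', ht', by rw [mu, ev_cons, h, ← ev_cons, h']⟩
    · exact ⟨t, ht, by rw [mu, h]⟩
    · obtain ⟨t', ht', h'⟩ := D8_mul ht (x := a) (Or.inl rfl)
      exact ⟨t', ht', by rw [mu, ev_cons, h, ← ev_cons, h']⟩
    · obtain ⟨t', ht', h'⟩ := D8_mul ht (x := a) (Or.inl rfl)
      exact ⟨t', ht', by rw [mu, ev_cons, h, ← ev_cons, h']⟩

/-! ### Normal form -/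

/-- the word of a prefix (`none` is the empty prefix) -/
def pw : Option X → List L
  | none => []
  | some x => [x.l]

/-- block word of a prefix -/
def pb : Option X → List X
  | none => []
  | some X.b => [X.d, X.d, X.d, X.c]
  | some X.c => [X.d, X.d, X.d, X.b]
  | some X.d => [X.d, X.d, X.d, X.c, X.d, X.d, X.d, X.b]

theorem pb_check : ([none, some X.b, some X.c, some X.d].all fun o =>
    triv 6 (V (pb o) ++ (pw o).reverse)) = true := by decide +kernel

theorem ev_pb (o : Option X) : ev (V (pb o)) = ev (pw o) := by
  have h := pb_check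
  rw [List.all_eq_true] at h
  have h1 := triv_sound _ _ (h o (by rcases o with _ | x; · simp
                                     · cases x <;> simp))
  rw [ev_append, ev_reverse, mul_inv_eq_one] at h1
  exact h1

/-- the word `a^e` -/
def ea : Bool → List L
  | false => []
  | true => [a]

/-- every word has a normal form `x₀ (a x₁) ⋯ (a x_k) a^e` of no larger weight -/
theorem normal (w : List L) : ∃ (o : Option X) (xs : List X) (e : Bool),
    ev w = ev (pw o) * ev (V xs) * ev (ea e) ∧ WT (pw o) + N xs + WT (ea e) ≤ WT w := by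
  induction w with
  | nil => exact ⟨none, [], false, by simp [pw, V, ea], by simp [pw, ea]⟩
  | cons x w ih =>
    obtain ⟨o, xs, e, h1, h2⟩ := ih
    have key : ∀ (o' : Option X) (xs' : List X) (e' : Bool),
        gen x * (ev (pw o) * ev (V xs) * ev (ea e)) = ev (pw o') * ev (V xs') * ev (ea e') →
        WT (pw o') + N xs' + WT (ea e') ≤ wt x + (WT (pw o) + N xs + WT (ea e)) →
        ∃ (o : Option X) (xs : List X) (e : Bool),
          ev (x :: w) = ev (pw o) * ev (V xs) * ev (ea e) ∧
            WT (pw o) + N xs + WT (ea e) ≤ WT (x :: w) := by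
      intro o' xs' e' g1 g2
      exact ⟨o', xs', e', by rw [ev_cons, h1, g1], by rw [WT_cons]; omega⟩
    have hm : ∀ g : Equiv.Perm (List Bool), gen x * (gen x * g) = g := fun g => by
      rw [← mul_assoc, gen_mul_self, one_mul]
    cases x with
    | a =>
      rcases o with _ | y
      · rcases xs with _ | ⟨y, ys⟩
        · cases e
          · exact key none [] true (by simp [pw, V, ea]) (by simp [pw, ea])
          · exact key none [] false (by simp [pw, V, ea, gen_mul_self]) (by simp [pw, ea])
        · refine key (some y) ys e ?_ ?_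
          · simp only [pw, V, ev_cons, ev_nil, one_mul, mul_one, mul_assoc, hm]
          · simp only [pw, WT_nil, WT_cons, N_cons, nx]; omega
      · refine key none (y :: xs) e ?_ ?_
        · simp only [pw, V, ev_cons, ev_nil, one_mul, mul_one, mul_assoc]
        · simp only [pw, WT_nil, WT_cons, N_cons, nx, wt]; omega
    | b =>
      rcases o with _ | y
      · refine key (some X.b) xs e ?_ ?_
        · simp only [pw, X.l, ev_cons, ev_nil, one_mul, mul_one, mul_assoc]
        · simp only [pw, X.l, WT_nil, WT_cons]; omega
      · cases y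
        · refine key none xs e ?_ ?_
          · simp only [pw, X.l, ev_cons, ev_nil, one_mul, mul_one, mul_assoc, hm]
          · simp only [pw, X.l, WT_nil, WT_cons]; omega
        · refine key (some X.d) xs e ?_ ?_
          · simp only [pw, X.l, ev_cons, ev_nil, mul_one, ← mul_assoc, gen_bc]
          · simp only [pw, X.l, WT_nil, WT_cons, wt]; omega
        · refine key (some X.c) xs e ?_ ?_
          · simp only [pw, X.l, ev_cons, ev_nil, mul_one, ← mul_assoc, gen_bd]
          · simp only [pw, X.l, WT_nil, WT_cons, wt]; omega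
    | c =>
      rcases o with _ | y
      · refine key (some X.c) xs e ?_ ?_
        · simp only [pw, X.l, ev_cons, ev_nil, one_mul, mul_one, mul_assoc]
        · simp only [pw, X.l, WT_nil, WT_cons]; omega
      · cases y
        · refine key (some X.d) xs e ?_ ?_
          · simp only [pw, X.l, ev_cons, ev_nil, mul_one, ← mul_assoc, gen_cb]
          · simp only [pw, X.l, WT_nil, WT_cons, wt]; omega
        · refine key none xs e ?_ ?_
          · simp only [pw, X.l, ev_cons, ev_nil, one_mul, mul_one, mul_assoc, hm]
          · simp only [pw, X.l, WT_nil, WT_cons]; omega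
        · refine key (some X.b) xs e ?_ ?_
          · simp only [pw, X.l, ev_cons, ev_nil, mul_one, ← mul_assoc, gen_cd]
          · simp only [pw, X.l, WT_nil, WT_cons, wt]; omega
    | d =>
      rcases o with _ | y
      · refine key (some X.d) xs e ?_ ?_
        · simp only [pw, X.l, ev_cons, ev_nil, one_mul, mul_one, mul_assoc]
        · simp only [pw, X.l, WT_nil, WT_cons]; omega
      · cases y
        · refine key (some X.c) xs e ?_ ?_
          · simp only [pw, X.l, ev_cons, ev_nil, mul_one, ← mul_assoc, gen_db]
          · simp only [pw, X.l, WT_nil, WT_cons, wt]; omega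
        · refine key (some X.b) xs e ?_ ?_
          · simp only [pw, X.l, ev_cons, ev_nil, mul_one, ← mul_assoc, gen_dc]
          · simp only [pw, X.l, WT_nil, WT_cons, wt]; omega
        · refine key none xs e ?_ ?_
          · simp only [pw, X.l, ev_cons, ev_nil, one_mul, mul_one, mul_assoc, hm]
          · simp only [pw, X.l, WT_nil, WT_cons]; omega

theorem N_pb (o : Option X) : N (pb o) ≤ 58 := by
  rcases o with _ | x
  · simp [pb]
  · cases x <;> simp [pb, nx, wt, X.l]

/-- every word equals a block word, times `a^e`, of weight at most 58 more -/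
theorem blocks (w : List L) : ∃ (xs : List X) (e : Bool),
    ev w = ev (V xs) * ev (ea e) ∧ N xs ≤ WT w + 58 := by
  obtain ⟨o, xs, e, h1, h2⟩ := normal w
  refine ⟨pb o ++ xs, e, ?_, ?_⟩
  · rw [V_append, ev_append, ev_pb, h1]
  · rw [N_append]
    have := N_pb o
    omega

end Pool.Agent.Q89.GD
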