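import Pool.Agent.Q89.GD2

set_option autoImplicit false

/-!
# The Grigorchuk group: the main inequality
-/

namespace Pool.Agent.Q89.GD

open L

theorem list_bound {α : Type} (p : ℕ → α → Prop) (hp : ∀ m n x, m ≤ n → p m x → p n x)
    (l : List α) (h : ∀ x ∈ l, ∃ n, p n x) : ∃ n, ∀ x ∈ l, p n x := by
  induction l with
  | nil => exact ⟨0, by simp⟩
  | cons x l ih =>
    obtain ⟨n, hn⟩ := ih (fun y hy => h y (List.mem_cons_of_mem _ hy))
    obtain ⟨m, hm⟩ := h x List.mem_cons_self
    refine ⟨m + n, ?_⟩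
    intro y hy
    rcases List.mem_cons.1 hy with rfl | hy
    · exact hp _ _ _ (Nat.le_add_right _ _) hm
    · exact hp _ _ _ (Nat.le_add_left _ _) (hn y hy)

/-- elements with first-level sections in given finite sets have bounded length -/
theorem finite_bound (R0 R1 : List (List L)) : ∃ C : ℕ, ∀ k : List L, sw k = false →
    (∃ r ∈ R0, ev (sec false k) = ev r) → (∃ r ∈ R1, ev (sec true k) = ev r) →
    ∃ k', ev k' = ev k ∧ WT k' ≤ C := by
  have h := list_bound (fun C (rr : List L × List L) => ∀ k : List L, sw k = false →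
    ev (sec false k) = ev rr.1 → ev (sec true k) = ev rr.2 → ∃ k', ev k' = ev k ∧ WT k' ≤ C)
    (by
      intro m n x hmn h k h1 h2 h3
      obtain ⟨k', h4, h5⟩ := h k h1 h2 h3
      exact ⟨k', h4, h5.trans hmn⟩)
    (R0 ×ˢ R1) (by
      intro x _
      by_cases hk : ∃ k : List L, sw k = false ∧ ev (sec false k) = ev x.1 ∧
          ev (sec true k) = ev x.2
      · obtain ⟨k0, g1, g2, g3⟩ := hk
        refine ⟨WT k0, fun k h1 h2 h3 => ⟨k0, ?_, le_refl _⟩⟩
        exact ev_ext (g1.trans h1.symm) (g2.trans h2.symm) (g3.trans h3.symm)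
      · exact ⟨0, fun k h1 h2 h3 => absurd ⟨k, h1, h2, h3⟩ hk⟩)
  obtain ⟨C, hC⟩ := h
  refine ⟨C, ?_⟩
  rintro k h1 ⟨r0, hr0, h2⟩ ⟨r1, hr1, h3⟩
  exact hC (r0, r1) (by rw [List.mem_product]; exact ⟨hr0, hr1⟩) k h1 h2 h3

theorem sec_reverse {s : List L} (h : sw s = false) :
    sw s.reverse = false ∧ ∀ z, ev (sec z s.reverse) = (ev (sec z s))⁻¹ := by
  have h1 : ev (s.reverse ++ s) = ev [] := by rw [ev_append, ev_reverse]; simp
  refine ⟨?_, fun z => ?_⟩
  · have := (sec_ext h1 false).1
    rw [sw_append, h] at this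
    simpa [sw] using this
  · have := (sec_ext h1 z).2
    rw [sec_append, h, Bool.xor_false, ev_append] at this
    exact mul_eq_one_iff_eq_inv.1 (by simpa [sec] using this)

/-- the possible residues at `0` -/
def R0 : List (List L) :=
  (List.range 28).flatMap fun j => D8.flatMap fun t =>
    [(P j ++ t).reverse ++ ea false, (P j ++ t).reverse ++ ea true]

theorem Q_check : ((List.range 28).all fun j =>
    decide (WT (lift (Q j).reverse) ≤ 20)) = true := by decide +kernel

theorem Q_le (j : ℕ) (hj : j < 28) : WT (lift (Q j).reverse) ≤ 20 := by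
  have h := Q_check
  rw [List.all_eq_true] at h
  simpa using h j (List.mem_range.2 hj)

theorem P_zero : P 0 = [] := rfl
theorem Q_zero : Q 0 = [] := rfl

theorem main1 : ∃ C : ℕ, ∀ (w : List L) (xs0 xs1 : List X) (e0 e1 : Bool),
    sw w = false → ev (sec false w) = ev (V xs0) * ev (ea e0) →
    ev (sec true w) = ev (V xs1) * ev (ea e1) → xs0.length ≤ xs1.length →
    ∃ w', ev w' = ev w ∧ 60 * WT w' ≤ 87 * N xs0 + 140 * N xs1 + C := by
  obtain ⟨C1, hC1⟩ := finite_bound R0 [ea false, ea true]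
  refine ⟨ph 0 + 60 * 20 + 60 * C1, ?_⟩
  intro w xs0 xs1 e0 e1 hw h0 h1 hl
  obtain ⟨s, j, hj, g1, g2, g3, g4⟩ := sim xs0 (xs1.take xs0.length)
    (by rw [List.length_take, min_eq_left hl]) 0 (by norm_num)
  have hV : ev (V xs1) = ev (V (xs1.take xs0.length)) * ev (V (xs1.drop xs0.length)) := by
    rw [← ev_append, ← V_append, List.take_append_drop]
  have hN : N xs1 = N (xs1.take xs0.length) + N (xs1.drop xs0.length) := by
    rw [← N_append, List.take_append_drop]
  generalize hys : xs1.take xs0.length = ys at *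
  generalize hzs : xs1.drop xs0.length = zs at *
  rw [P_zero, ev_nil, one_mul] at g2
  rw [Q_zero, ev_nil, one_mul] at g3
  set u := lift ((Q j).reverse ++ V zs) with hu
  have su : sw u = false := sw_lift _
  have s'w : sw (s ++ u) = false := by rw [sw_append, g1, su]; rfl
  obtain ⟨t, ht, htm⟩ := mu_D8 ((Q j).reverse ++ V zs)
  have k0 : ev (sec false (s ++ u)) = ev (V xs0) * (ev (P j) * ev t) := by
    rw [sec_append, su, Bool.xor_false, ev_append, g2, hu, sec_lift_false, htm, mul_assoc]
  have k1 : ev (sec true (s ++ u)) = ev (V xs1) := by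
    rw [sec_append, su, Bool.xor_false, ev_append, g3, hu, sec_lift_true, ev_append, ev_reverse,
      hV]
    group
  obtain ⟨r1, r2⟩ := sec_reverse s'w
  obtain ⟨k', hk1, hk2⟩ := hC1 ((s ++ u).reverse ++ w) (by rw [sw_append, r1, hw]; rfl)
    ⟨(P j ++ t).reverse ++ ea e0, by
        unfold R0
        rw [List.mem_flatMap]
        refine ⟨j, List.mem_range.2 hj, ?_⟩
        rw [List.mem_flatMap]
        refine ⟨t, ht, ?_⟩
        cases e0 <;> simp, by
        rw [sec_append, hw, Bool.xor_false, ev_append, r2, k0, h0, ev_append, ev_reverse, ev_append]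
        group⟩
    ⟨ea e1, by cases e1 <;> simp, by
        rw [sec_append, hw, Bool.xor_false, ev_append, r2, k1, h1]
        group⟩
  refine ⟨(s ++ u) ++ k', ?_, ?_⟩
  · rw [ev_append, hk1, ev_append ((s ++ u).reverse), ev_reverse]
    group
  · have e1 := WT_lift_V zs
    have e2 := Q_le j hj
    rw [WT_append, WT_append, hu, lift_append, WT_append]
    omega

/-- **Main inequality.** If both first-level sections of an element have weighted length at most
`n`, then the element has weighted length at most `(227 n + C) / 60`. -/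
theorem main2 : ∃ C : ℕ, ∀ (w v0 v1 : List L) (n : ℕ),
    ev (sec false w) = ev v0 → ev (sec true w) = ev v1 → WT v0 ≤ n → WT v1 ≤ n →
    ∃ w', ev w' = ev w ∧ 60 * WT w' ≤ 227 * n + C := by
  obtain ⟨C, hC⟩ := main1
  have key : ∀ (w v0 v1 : List L) (n : ℕ), sw w = false →
      ev (sec false w) = ev v0 → ev (sec true w) = ev v1 → WT v0 ≤ n → WT v1 ≤ n →
      ∃ w', ev w' = ev w ∧ 60 * WT w' ≤ 227 * n + (C + 14000) := by
    intro w v0 v1 n hw h0 h1 n0 n1
    obtain ⟨xs0, e0, a1, a2⟩ := blocks v0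
    obtain ⟨xs1, e1, b1, b2⟩ := blocks v1
    rcases le_total xs0.length xs1.length with hl | hl
    · obtain ⟨w', g1, g2⟩ := hC w xs0 xs1 e0 e1 hw (h0.trans a1) (h1.trans b1) hl
      exact ⟨w', g1, by omega⟩
    · have hsw : sw ([a] ++ (w ++ [a])) = false := by
        rw [sw_append, sw_append, hw]; rfl
      have hsec : ∀ z, sec z ([a] ++ (w ++ [a])) = sec (!z) w := by
        intro z
        rw [sec_append, sec_append]
        cases z <;> simp [sec, secL, sw, isa]
      obtain ⟨w', g1, g2⟩ := hC ([a] ++ (w ++ [a])) xs1 xs0 e1 e0 hsw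
        (by rw [hsec]; exact h1.trans b1) (by rw [hsec]; exact h0.trans a1) hl
      refine ⟨[a] ++ (w' ++ [a]), ?_, ?_⟩
      · rw [ev_append, ev_append, g1, ev_append, ev_append]
        simp only [ev_cons, ev_nil, mul_one]
        rw [← mul_assoc, ← mul_assoc, gen_mul_self, one_mul, mul_assoc, gen_mul_self, mul_one]
      · rw [WT_append, WT_append]
        simp only [WT_cons, WT_nil, wt]
        omega
  refine ⟨C + 15000, ?_⟩
  intro w v0 v1 n h0 h1 n0 n1
  rcases Bool.eq_false_or_eq_true (sw w) with hw | hw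
  · have hsec : ∀ z, sec z (w ++ [a]) = sec (!z) w := by
      intro z
      rw [sec_append]
      cases z <;> simp [sec, secL, sw, isa]
    obtain ⟨w', g1, g2⟩ := key (w ++ [a]) v1 v0 n (by rw [sw_append, hw]; rfl)
      (by rw [hsec]; exact h1) (by rw [hsec]; exact h0) n1 n0
    refine ⟨w' ++ [a], ?_, ?_⟩
    · rw [ev_append, g1, ev_append]
      simp only [ev_cons, ev_nil, mul_one]
      rw [mul_assoc, gen_mul_self, mul_one]
    · rw [WT_append]
      simp only [WT_cons, WT_nil, wt]
      omega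
  · obtain ⟨w', g1, g2⟩ := key w v0 v1 n hw h0 h1 n0 n1
    refine ⟨w', g1, g2.trans ?_⟩
    exact Nat.add_le_add_left (Nat.add_le_add_left (by norm_num) C) _

end Pool.Agent.Q89.GD
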