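import Pool.Agent.Q89.GD3

set_option autoImplicit false

/-!
# The Grigorchuk group: iterated sections and the depth recursion
-/

namespace Pool.Agent.Q89.GD

open L

/-- iterated section words -/
def secs : List Bool → List L → List L
  | [], w => w
  | z :: u, w => secs u (sec z w)

theorem ev_length (w : List L) (u : List Bool) : (ev w u).length = u.length := by
  induction u generalizing w with
  | nil => simp
  | cons z u ih => rw [ev_cons_apply]; simp [ih]

theorem drop_secs (u : List Bool) : ∀ (w : List L) (v : List Bool),
    (ev w (u ++ v)).drop u.length = ev (secs u w) v := by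
  induction u with
  | nil => intro w v; rfl
  | cons z u ih =>
    intro w v
    rw [List.cons_append, ev_cons_apply, List.length_cons, List.drop_succ_cons, ih]
    rfl

theorem secs_append (u : List Bool) : ∀ (p q : List L),
    secs u (p ++ q) = secs (ev q u) p ++ secs u q := by
  induction u with
  | nil => intro p q; simp [secs]
  | cons z u ih =>
    intro p q
    rw [ev_cons_apply]
    simp only [secs]
    rw [sec_append, ih]

theorem secs_length (u : List Bool) : ∀ (p : List L), p.length ≤ 1 → (secs u p).length ≤ 1 := by
  induction u with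
  | nil => intro p hp; exact hp
  | cons z u ih =>
    intro p hp
    apply ih
    rcases p with _ | ⟨x, p⟩
    · simp [sec]
    · have : p = [] := by
        rw [List.length_cons] at hp
        exact List.length_eq_zero_iff.1 (by omega)
      subst this
      cases x <;> cases z <;> simp [sec, secL, sw]

/-- trivial or a generator -/
def Nuc (g : Equiv.Perm (List Bool)) : Prop := g = 1 ∨ ∃ x : L, g = gen x

theorem nuc_of_length {p : List L} (hp : p.length ≤ 1) : Nuc (ev p) := by
  rcases p with _ | ⟨x, p⟩
  · left; rfl
  · have : p = [] := by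
      rw [List.length_cons] at hp
      exact List.length_eq_zero_iff.1 (by omega)
    subst this
    right; exact ⟨x, by simp⟩

theorem exists_of_nuc {g : Equiv.Perm (List Bool)} (h : Nuc g) :
    ∃ p : List L, p.length ≤ 1 ∧ ev p = g := by
  rcases h with rfl | ⟨x, rfl⟩
  · exact ⟨[], by simp, rfl⟩
  · exact ⟨[x], by simp, by simp⟩

theorem nuc_two (p q : List L) (hp : p.length ≤ 1) (hq : q.length ≤ 1) (z : Bool) :
    Nuc (ev (sec z (p ++ q))) := by
  rw [← ev_red]
  apply nuc_of_length
  rcases p with _ | ⟨x, p⟩
  · rcases q with _ | ⟨y, q⟩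
    · simp [sec, red]
    · have : q = [] := by
        rw [List.length_cons] at hq
        exact List.length_eq_zero_iff.1 (by omega)
      subst this
      cases y <;> cases z <;> decide
  · have : p = [] := by
      rw [List.length_cons] at hp
      exact List.length_eq_zero_iff.1 (by omega)
    subst this
    rcases q with _ | ⟨y, q⟩
    · cases x <;> cases z <;> decide
    · have : q = [] := by
        rw [List.length_cons] at hq
        exact List.length_eq_zero_iff.1 (by omega)
      subst this
      cases x <;> cases y <;> cases z <;> decide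

/-- all sections at level `n` are in the nucleus -/
def Lv (n : ℕ) (w : List L) : Prop := ∀ u : List Bool, u.length = n → Nuc (ev (secs u w))

theorem secs_snoc (u : List Bool) (z : Bool) : ∀ w : List L,
    secs (u ++ [z]) w = sec z (secs u w) := by
  induction u with
  | nil => intro w; rfl
  | cons y u ih => intro w; simp only [List.cons_append, secs]; exact ih _

theorem exists_Lv (w : List L) : ∃ n, Lv n w := by
  induction w with
  | nil =>
    refine ⟨0, fun u hu => ?_⟩
    have : u = [] := List.length_eq_zero_iff.1 hu
    subst this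
    left; rfl
  | cons x w ih =>
    obtain ⟨n, hn⟩ := ih
    refine ⟨n + 1, fun u hu => ?_⟩
    have hne : u ≠ [] := by rintro rfl; simp at hu
    obtain ⟨v, z, rfl⟩ : ∃ v z, u = v ++ [z] :=
      ⟨u.dropLast, u.getLast hne, (List.dropLast_append_getLast hne).symm⟩
    have hv : v.length = n := by simpa using hu
    rw [secs_snoc]
    have h1 : secs v (x :: w) = secs (ev w v) [x] ++ secs v w := secs_append v [x] w
    obtain ⟨q, hq, hq2⟩ := exists_of_nuc (hn v hv)
    have h2 : ev (sec z (secs v (x :: w))) = ev (sec z (secs (ev w v) [x] ++ q)) := by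
      apply (sec_ext _ z).2
      rw [h1, ev_append, ev_append, hq2]
    rw [h2]
    exact nuc_two _ _ (secs_length _ _ (by simp)) hq z

/-- the depth recursion -/
theorem depth_bound : ∃ C : ℝ, 0 ≤ C ∧ ∀ (n : ℕ) (w : List L), Lv n w →
    ∃ w', ev w' = ev w ∧ (WT w' : ℝ) + C ≤ (5 + C) * (227 / 60) ^ n := by
  obtain ⟨C0, hC0⟩ := main2
  refine ⟨(C0 : ℝ) / 60, by positivity, ?_⟩
  set C : ℝ := (C0 : ℝ) / 60 with hC
  have hCp : 0 ≤ C := by positivity
  intro n
  induction n with
  | zero =>
    intro w hw
    obtain ⟨p, hp, hp2⟩ := exists_of_nuc (hw [] rfl)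
    refine ⟨p, hp2, ?_⟩
    have : WT p ≤ 5 := by
      rcases p with _ | ⟨x, p⟩
      · simp
      · have : p = [] := by
          rw [List.length_cons] at hp
          exact List.length_eq_zero_iff.1 (by omega)
        subst this
        cases x <;> simp [wt]
    have h5 : (WT p : ℝ) ≤ 5 := by exact_mod_cast this
    rw [pow_zero, mul_one]
    linarith
  | succ n ih =>
    intro w hw
    have hz : ∀ z, Lv n (sec z w) := by
      intro z u hu
      exact hw (z :: u) (by simp [hu])
    obtain ⟨v0, g0, b0⟩ := ih _ (hz false)
    obtain ⟨v1, g1, b1⟩ := ih _ (hz true)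
    obtain ⟨w', k1, k2⟩ := hC0 w v0 v1 (max (WT v0) (WT v1)) g0.symm g1.symm (le_max_left _ _)
      (le_max_right _ _)
    refine ⟨w', k1, ?_⟩
    have hmax : ((max (WT v0) (WT v1) : ℕ) : ℝ) + C ≤ (5 + C) * (227 / 60) ^ n := by
      rcases le_total (WT v0) (WT v1) with h | h
      · rw [max_eq_right h]; exact b1
      · rw [max_eq_left h]; exact b0
    have k3 : 60 * (WT w' : ℝ) ≤ 227 * ((max (WT v0) (WT v1) : ℕ) : ℝ) + C0 := by exact_mod_cast k2
    have hC60 : (C0 : ℝ) = 60 * C := by rw [hC]; ring
    rw [pow_succ]
    nlinarith

end Pool.Agent.Q89.GD
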