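import Mathlib

set_option autoImplicit false

/-!
Contracting groups whose boundary Schreier graphs have prescribed growth: generators, contraction,
and connectivity.
-/

namespace Pool.Agent.Q89.Gr

/-- the sequence `x w` -/
def cons {X : Type} (x : X) (w : ℕ → X) : ℕ → X
  | 0 => x
  | n + 1 => w n

/-- the sequence `v w` -/
def app {X : Type} : List X → (ℕ → X) → (ℕ → X)
  | [], w => w
  | x :: v, w => cons x (app v w)

variable {X I : Type}

lemma cons_eta (w : ℕ → X) : cons (w 0) (fun n => w (n + 1)) = w := by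
  funext n
  cases n <;> rfl

lemma cons_inj {x y : X} {v w : ℕ → X} (h : cons x v = cons y w) : x = y ∧ v = w := by
  refine ⟨congrFun h 0, ?_⟩
  funext n
  exact congrFun h (n + 1)

/-- the automorphism with root permutation `σ` and sections `h` -/
def mk (σ : Equiv.Perm X) (h : X → Equiv.Perm (ℕ → X)) : Equiv.Perm (ℕ → X) where
  toFun w := cons (σ (w 0)) (h (w 0) (fun n => w (n + 1)))
  invFun w := cons (σ⁻¹ (w 0)) ((h (σ⁻¹ (w 0)))⁻¹ (fun n => w (n + 1)))
  left_inv := by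
    intro w
    show cons (σ⁻¹ (σ (w 0))) ((h (σ⁻¹ (σ (w 0))))⁻¹ (h (w 0) (fun n => w (n + 1)))) = w
    have h1 : σ⁻¹ (σ (w 0)) = w 0 := σ.symm_apply_apply _
    rw [h1]
    have h2 : (h (w 0))⁻¹ (h (w 0) (fun n => w (n + 1))) = fun n => w (n + 1) :=
      (h (w 0)).symm_apply_apply _
    rw [h2]
    exact cons_eta w
  right_inv := by
    intro w
    show cons (σ (σ⁻¹ (w 0))) (h (σ⁻¹ (w 0)) ((h (σ⁻¹ (w 0)))⁻¹ (fun n => w (n + 1)))) = w
    have h1 : σ (σ⁻¹ (w 0)) = w 0 := σ.apply_symm_apply _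
    rw [h1]
    have h2 : h (σ⁻¹ (w 0)) ((h (σ⁻¹ (w 0)))⁻¹ (fun n => w (n + 1))) = fun n => w (n + 1) :=
      (h (σ⁻¹ (w 0))).apply_symm_apply _
    rw [h2]
    exact cons_eta w

lemma mk_cons (σ : Equiv.Perm X) (h : X → Equiv.Perm (ℕ → X)) (x : X) (w : ℕ → X) :
    mk σ h (cons x w) = cons (σ x) (h x w) := rfl

/-- rooted automorphisms -/
def rt (σ : Equiv.Perm X) : Equiv.Perm (ℕ → X) := mk σ (fun _ => 1)

lemma rt_cons (σ : Equiv.Perm X) (x : X) (w : ℕ → X) : rt σ (cons x w) = cons (σ x) w := rfl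

lemma ext_cons {g h : Equiv.Perm (ℕ → X)} (H : ∀ x w, g (cons x w) = h (cons x w)) : g = h := by
  ext1 w
  rw [← cons_eta w]
  exact H _ _

lemma rt_mul (σ σ' : Equiv.Perm X) : rt σ * rt σ' = rt (σ * σ') := by
  apply ext_cons
  intro x w
  rfl

lemma rt_one : rt (1 : Equiv.Perm X) = 1 := by
  apply ext_cons
  intro x w
  rfl

lemma rt_inv (σ : Equiv.Perm X) : (rt σ)⁻¹ = rt σ⁻¹ := by
  rw [inv_eq_iff_mul_eq_one, rt_mul, mul_inv_cancel, rt_one]

/-- The data: letters have types; every type has a special letter `o` and an active letter `a`. -/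
structure Dat (X I : Type) where
  /-- the type of a letter -/
  ty : X → I
  /-- the special letter -/
  o : I → X
  /-- the active letter -/
  a : I → X
  ho : ∀ i, ty (o i) = i
  ha : ∀ i, ty (a i) = i
  hne : ∀ i, a i ≠ o i

variable (D : Dat X I)

/-- the letter at position `n` is changed by the directed automorphism -/
def Act (w : ℕ → X) : ℕ → Prop
  | 0 => False
  | n + 1 => (∀ i < n, w i = D.o (D.ty (w i))) ∧ w n = D.a (D.ty (w n))

open Classical in
/-- directed automorphism, as a map -/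
noncomputable def bF (σ : Equiv.Perm X) (w : ℕ → X) : ℕ → X :=
  fun n => if Act D w n then σ (w n) else w n

lemma act_unique {w : ℕ → X} {n m : ℕ} (h1 : Act D w n) (h2 : Act D w m) (h : n < m) : False := by
  cases n with
  | zero => exact h1
  | succ n =>
    cases m with
    | zero => exact h2
    | succ m =>
      have h3 := h2.1 n (by omega)
      have h4 := h1.2
      rw [h3] at h4
      rw [D.ho] at h4
      exact D.hne _ h4.symm

lemma bF_lt {σ : Equiv.Perm X} {w : ℕ → X} {n : ℕ} (h1 : Act D w n) {m : ℕ} (h : m < n) :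
    bF D σ w m = w m := by
  unfold bF
  rw [if_neg]
  intro h2
  exact act_unique D h2 h1 h

lemma act_congr {w w' : ℕ → X} {n : ℕ} (h : ∀ m < n, w m = w' m) (h1 : Act D w n) :
    Act D w' n := by
  cases n with
  | zero => exact h1
  | succ n =>
    refine ⟨fun i hi => ?_, ?_⟩
    · rw [← h i (by omega)]
      exact h1.1 i hi
    · rw [← h n (by omega)]
      exact h1.2

lemma act_bF (σ : Equiv.Perm X) (w : ℕ → X) (n : ℕ) : Act D (bF D σ w) n ↔ Act D w n := by
  constructor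
  · intro h1
    by_contra h2
    by_cases h3 : ∃ m < n, Act D w m
    · obtain ⟨m, hm, h3⟩ := h3
      have h4 : Act D (bF D σ w) m := act_congr D (fun i hi => (bF_lt D h3 hi).symm) h3
      exact act_unique D h4 h1 hm
    · apply h2
      refine act_congr D (fun m hm => ?_) h1
      unfold bF
      rw [if_neg]
      intro h4
      exact h3 ⟨m, hm, h4⟩
  · intro h1
    exact act_congr D (fun i hi => (bF_lt D h1 hi).symm) h1

lemma bF_mul (σ σ' : Equiv.Perm X) (w : ℕ → X) : bF D σ (bF D σ' w) = bF D (σ * σ') w := by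
  funext n
  show (open Classical in if Act D (bF D σ' w) n then σ (bF D σ' w n) else bF D σ' w n) = _
  rw [show (Act D (bF D σ' w) n) = (Act D w n) from propext (act_bF D σ' w n)]
  unfold bF
  by_cases h : Act D w n
  · simp [h]
  · simp [h]

lemma bF_one (w : ℕ → X) : bF D 1 w = w := by
  funext n
  unfold bF
  simp

/-- directed automorphisms -/
noncomputable def b (σ : Equiv.Perm X) : Equiv.Perm (ℕ → X) where
  toFun := bF D σ
  invFun := bF D σ⁻¹
  left_inv w := by rw [bF_mul, inv_mul_cancel, bF_one]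
  right_inv w := by rw [bF_mul, mul_inv_cancel, bF_one]

lemma b_mul (σ σ' : Equiv.Perm X) : b D σ * b D σ' = b D (σ * σ') := by
  ext1 w
  exact bF_mul D σ σ' w

lemma b_one : b D 1 = 1 := by
  ext1 w
  exact bF_one D w

lemma b_inv (σ : Equiv.Perm X) : (b D σ)⁻¹ = b D σ⁻¹ := by
  rw [inv_eq_iff_mul_eq_one, b_mul, mul_inv_cancel, b_one]

/-- `b` at a special letter -/
lemma b_o (σ : Equiv.Perm X) {x : X} (hx : x = D.o (D.ty x)) (w : ℕ → X) :
    b D σ (cons x w) = cons x (b D σ w) := by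
  funext n
  show (open Classical in if Act D (cons x w) n then σ (cons x w n) else cons x w n) = _
  cases n with
  | zero =>
    have : ¬ Act D (cons x w) 0 := fun h => h
    rw [if_neg this]
    rfl
  | succ n =>
    show _ = bF D σ w n
    unfold bF
    have : Act D (cons x w) (n + 1) ↔ Act D w n := by
      cases n with
      | zero =>
        constructor
        · intro h
          have h2 : x = D.a (D.ty x) := h.2
          rw [hx, D.ho] at h2
          exact absurd h2.symm (D.hne _)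
        · intro h
          exact absurd h id
      | succ n =>
        constructor
        · intro h
          exact ⟨fun i hi => h.1 (i + 1) (by omega), h.2⟩
        · intro h
          refine ⟨fun i hi => ?_, h.2⟩
          cases i with
          | zero => exact hx
          | succ i => exact h.1 i (by omega)
    rw [show (Act D (cons x w) (n + 1)) = (Act D w n) from propext this]
    rfl

/-- `b` at an active letter -/
lemma b_a (σ : Equiv.Perm X) {x : X} (hx : x = D.a (D.ty x)) (w : ℕ → X) :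
    b D σ (cons x w) = cons x (rt σ w) := by
  funext n
  show (open Classical in if Act D (cons x w) n then σ (cons x w n) else cons x w n) = _
  have h1 : Act D (cons x w) 1 := ⟨fun i hi => absurd hi (Nat.not_lt_zero i), hx⟩
  cases n with
  | zero =>
    have : ¬ Act D (cons x w) 0 := fun h => h
    rw [if_neg this]
    rfl
  | succ n =>
    cases n with
    | zero =>
      rw [if_pos h1]
      rfl
    | succ n =>
      rw [if_neg (fun h => act_unique D h1 h (by omega))]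
      rfl

/-- `b` at the other letters -/
lemma b_other (σ : Equiv.Perm X) {x : X} (h1 : x ≠ D.o (D.ty x)) (h2 : x ≠ D.a (D.ty x))
    (w : ℕ → X) : b D σ (cons x w) = cons x w := by
  funext n
  show (open Classical in if Act D (cons x w) n then σ (cons x w n) else cons x w n) = _
  rw [if_neg]
  intro h
  cases n with
  | zero => exact h
  | succ n =>
    cases n with
    | zero => exact h2 h.2
    | succ n => exact h1 (h.1 0 (by omega))

/-- the type-preserving permutations -/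
def TP : Set (Equiv.Perm X) := {σ | ∀ x, D.ty (σ x) = D.ty x}

lemma TP_mul {σ σ' : Equiv.Perm X} (h : σ ∈ TP D) (h' : σ' ∈ TP D) : σ * σ' ∈ TP D :=
  fun x => by rw [Equiv.Perm.mul_apply, h, h']

lemma TP_inv {σ : Equiv.Perm X} (h : σ ∈ TP D) : σ⁻¹ ∈ TP D := by
  intro x
  have h1 := h (σ⁻¹ x)
  have h2 : σ (σ⁻¹ x) = x := σ.apply_symm_apply x
  rw [h2] at h1
  exact h1.symm

lemma TP_one : (1 : Equiv.Perm X) ∈ TP D := fun _ => rfl

/-- the generators -/
def S0 : Set (Equiv.Perm (ℕ → X)) :=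
  {g | ∃ σ ∈ TP D, g = rt σ} ∪ {g | ∃ σ ∈ TP D, g = b D σ}

lemma S0_fin [Finite X] : (S0 D).Finite := by
  apply Set.Finite.union
  · refine (Set.finite_range (fun σ : Equiv.Perm X => rt σ)).subset ?_
    rintro g ⟨σ, -, rfl⟩
    exact ⟨σ, rfl⟩
  · refine (Set.finite_range (fun σ : Equiv.Perm X => b D σ)).subset ?_
    rintro g ⟨σ, -, rfl⟩
    exact ⟨σ, rfl⟩

lemma one_S0 : (1 : Equiv.Perm (ℕ → X)) ∈ S0 D := Or.inl ⟨1, TP_one D, rt_one.symm⟩

lemma inv_S0 {g : Equiv.Perm (ℕ → X)} (h : g ∈ S0 D) : g⁻¹ ∈ S0 D := by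
  rcases h with ⟨σ, hσ, rfl⟩ | ⟨σ, hσ, rfl⟩
  · exact Or.inl ⟨_, TP_inv D hσ, rt_inv σ⟩
  · exact Or.inr ⟨_, TP_inv D hσ, b_inv D σ⟩

/-- products of `n` generators -/
def Wd (n : ℕ) : Set (Equiv.Perm (ℕ → X)) :=
  {g | ∃ l : List (Equiv.Perm (ℕ → X)), l.length = n ∧ (∀ s ∈ l, s ∈ S0 D) ∧ l.prod = g}

lemma Wd_one_mem : (1 : Equiv.Perm (ℕ → X)) ∈ Wd D 0 := ⟨[], rfl, by simp, rfl⟩

lemma Wd_of {g : Equiv.Perm (ℕ → X)} (h : g ∈ S0 D) : g ∈ Wd D 1 :=
  ⟨[g], rfl, by simpa using h, by simp⟩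

lemma of_Wd {g : Equiv.Perm (ℕ → X)} (h : g ∈ Wd D 1) : g ∈ S0 D := by
  obtain ⟨l, hl, h1, rfl⟩ := h
  obtain ⟨s, rfl⟩ := List.length_eq_one_iff.1 hl
  simpa using h1

lemma Wd_mul {g h : Equiv.Perm (ℕ → X)} {n m : ℕ} (hg : g ∈ Wd D n) (hh : h ∈ Wd D m) :
    g * h ∈ Wd D (n + m) := by
  obtain ⟨l, rfl, h1, rfl⟩ := hg
  obtain ⟨l', rfl, h1', rfl⟩ := hh
  refine ⟨l ++ l', List.length_append, ?_, List.prod_append⟩
  intro s hs
  rcases List.mem_append.1 hs with h | h
  · exact h1 s h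
  · exact h1' s h

lemma Wd_mono {n m : ℕ} (h : n ≤ m) : Wd D n ⊆ Wd D m := by
  intro g hg
  obtain ⟨k, rfl⟩ := Nat.exists_eq_add_of_le h
  clear h
  induction k with
  | zero => exact hg
  | succ k ih =>
    have := Wd_mul D ih (Wd_of D (one_S0 D))
    rwa [mul_one] at this

lemma Wd_inv {g : Equiv.Perm (ℕ → X)} {n : ℕ} (hg : g ∈ Wd D n) : g⁻¹ ∈ Wd D n := by
  obtain ⟨l, rfl, h1, rfl⟩ := hg
  refine ⟨(l.map (fun s => s⁻¹)).reverse, by simp, ?_, (List.prod_inv_reverse l).symm⟩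
  intro s hs
  rw [List.mem_reverse, List.mem_map] at hs
  obtain ⟨t, ht, rfl⟩ := hs
  exact inv_S0 D (h1 t ht)

/-- alternating products -/
def Al : Bool → ℕ → Equiv.Perm (ℕ → X) → Prop
  | _, 0, g => g = 1
  | true, n + 1, g => ∃ σ ∈ TP D, ∃ g', Al false n g' ∧ g = rt σ * g'
  | false, n + 1, g => ∃ σ ∈ TP D, ∃ g', Al true n g' ∧ g = b D σ * g'

lemma Al_succ (n : ℕ) : ∀ (c : Bool) (g : Equiv.Perm (ℕ → X)), Al D c n g → Al D c (n + 1) g := by
  induction n with
  | zero =>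
    intro c g h
    cases c with
    | true => exact ⟨1, TP_one D, 1, rfl, by rw [rt_one, one_mul]; exact h⟩
    | false => exact ⟨1, TP_one D, 1, rfl, by rw [b_one, one_mul]; exact h⟩
  | succ n ih =>
    intro c g h
    cases c with
    | true =>
      obtain ⟨σ, hσ, g', h1, h2⟩ := h
      exact ⟨σ, hσ, g', ih _ _ h1, h2⟩
    | false =>
      obtain ⟨σ, hσ, g', h1, h2⟩ := h
      exact ⟨σ, hσ, g', ih _ _ h1, h2⟩

lemma Al_rt {n : ℕ} {c : Bool} {g : Equiv.Perm (ℕ → X)} (h : Al D c n g) {σ : Equiv.Perm X}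
    (hσ : σ ∈ TP D) : Al D true (n + 1) (rt σ * g) := by
  cases c with
  | false => exact ⟨σ, hσ, g, h, rfl⟩
  | true =>
    cases n with
    | zero => exact ⟨σ, hσ, g, h, rfl⟩
    | succ n =>
      obtain ⟨σ', hσ', g', h1, rfl⟩ := h
      rw [← mul_assoc, rt_mul]
      exact Al_succ D _ _ _ ⟨_, TP_mul D hσ hσ', g', h1, rfl⟩

lemma Al_b {n : ℕ} {c : Bool} {g : Equiv.Perm (ℕ → X)} (h : Al D c n g) {σ : Equiv.Perm X}
    (hσ : σ ∈ TP D) : Al D false (n + 1) (b D σ * g) := by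
  cases c with
  | true => exact ⟨σ, hσ, g, h, rfl⟩
  | false =>
    cases n with
    | zero => exact ⟨σ, hσ, g, h, rfl⟩
    | succ n =>
      obtain ⟨σ', hσ', g', h1, rfl⟩ := h
      rw [← mul_assoc, b_mul]
      exact Al_succ D _ _ _ ⟨_, TP_mul D hσ hσ', g', h1, rfl⟩

lemma Al_of_Wd {n : ℕ} {g : Equiv.Perm (ℕ → X)} (h : g ∈ Wd D n) : ∃ c, Al D c n g := by
  obtain ⟨l, rfl, h1, rfl⟩ := h
  induction l with
  | nil => exact ⟨true, rfl⟩
  | cons s l ih =>
    obtain ⟨c, hc⟩ := ih (fun t ht => h1 t (List.mem_cons_of_mem _ ht))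
    rw [List.prod_cons, List.length_cons]
    rcases h1 s List.mem_cons_self with ⟨σ, hσ, rfl⟩ | ⟨σ, hσ, rfl⟩
    · exact ⟨true, Al_rt D hc hσ⟩
    · exact ⟨false, Al_b D hc hσ⟩

lemma b_sec {σ : Equiv.Perm X} (hσ : σ ∈ TP D) (x : X) :
    ∃ s ∈ S0 D, ∀ w, b D σ (cons x w) = cons x (s w) := by
  by_cases h1 : x = D.o (D.ty x)
  · exact ⟨b D σ, Or.inr ⟨σ, hσ, rfl⟩, b_o D σ h1⟩
  · by_cases h2 : x = D.a (D.ty x)
    · exact ⟨rt σ, Or.inl ⟨σ, hσ, rfl⟩, b_a D σ h2⟩
    · exact ⟨1, one_S0 D, b_other D σ h1 h2⟩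

lemma Al_sec (n : ℕ) : ∀ (c : Bool) (g : Equiv.Perm (ℕ → X)), Al D c n g → ∀ x, ∃ y, ∃ h,
    D.ty y = D.ty x ∧ h ∈ Wd D (if c then n / 2 else (n + 1) / 2) ∧
      ∀ w, g (cons x w) = cons y (h w) := by
  induction n with
  | zero =>
    intro c g hg x
    have : g = 1 := by cases c <;> exact hg
    subst this
    exact ⟨x, 1, rfl, Wd_mono D (Nat.zero_le _) (Wd_one_mem D), fun w => rfl⟩
  | succ n ih =>
    intro c g hg x
    cases c with
    | true =>
      obtain ⟨σ, hσ, g', h1, rfl⟩ := hg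
      obtain ⟨y, h, hy, hh, hw⟩ := ih _ _ h1 x
      refine ⟨σ y, h, by rw [hσ, hy], hh, fun w => ?_⟩
      rw [Equiv.Perm.mul_apply, hw, rt_cons]
    | false =>
      obtain ⟨σ, hσ, g', h1, rfl⟩ := hg
      obtain ⟨y, h, hy, hh, hw⟩ := ih _ _ h1 x
      obtain ⟨s, hs, hsw⟩ := b_sec D hσ y
      refine ⟨y, s * h, hy, ?_, fun w => ?_⟩
      · have h3 := Wd_mul D (Wd_of D hs) hh
        have h4 : 1 + n / 2 = (n + 1 + 1) / 2 := by omega
        simp only [if_true] at h3
        rw [h4] at h3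
        exact h3
      · rw [Equiv.Perm.mul_apply, hw, hsw]
        rfl

/-- sections of a product of `n` generators are products of `(n + 1) / 2` generators -/
lemma Wd_sec {n : ℕ} {g : Equiv.Perm (ℕ → X)} (hg : g ∈ Wd D n) (x : X) : ∃ y, ∃ h,
    D.ty y = D.ty x ∧ h ∈ Wd D ((n + 1) / 2) ∧ ∀ w, g (cons x w) = cons y (h w) := by
  obtain ⟨c, hc⟩ := Al_of_Wd D hg
  obtain ⟨y, h, h1, h2, h3⟩ := Al_sec D n c g hc x
  refine ⟨y, h, h1, Wd_mono D ?_ h2, h3⟩
  cases c
  · simp
  · simp only [if_true]; omega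

/-- iterated: lengths -/
def fl : ℕ → ℕ → ℕ
  | 0, n => n
  | k + 1, n => fl k ((n + 1) / 2)

lemma Wd_secs (v : List X) : ∀ {n : ℕ} {g : Equiv.Perm (ℕ → X)}, g ∈ Wd D n → ∃ u : List X,
    ∃ h, u.map D.ty = v.map D.ty ∧ h ∈ Wd D (fl v.length n) ∧
      ∀ w, g (app v w) = app u (h w) := by
  induction v with
  | nil =>
    intro n g hg
    exact ⟨[], g, rfl, hg, fun w => rfl⟩
  | cons x v ih =>
    intro n g hg
    obtain ⟨y, h, h1, h2, h3⟩ := Wd_sec D hg x
    obtain ⟨u, k, h4, h5, h6⟩ := ih h2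
    refine ⟨y :: u, k, by rw [List.map_cons, List.map_cons, h1, h4], h5, fun w => ?_⟩
    show g (cons x (app v w)) = cons y (app u (k w))
    rw [h3, h6]

lemma fl_le {k : ℕ} : ∀ {n : ℕ}, n ≤ 2 ^ k + 1 → fl k n ≤ 2 := by
  induction k with
  | zero => intro n hn; simpa [fl] using hn
  | succ k ih =>
    intro n hn
    apply ih
    rw [pow_succ] at hn
    omega

lemma fl_one {k : ℕ} : ∀ {n : ℕ}, n ≤ k + 1 → fl k n ≤ 1 := by
  induction k with
  | zero => intro n hn; simpa [fl] using hn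
  | succ k ih =>
    intro n hn
    apply ih
    omega

end Pool.Agent.Q89.Gr
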