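import Pool.Agent.Q89.Gr1

set_option autoImplicit false

/-!
Balls in the boundary Schreier graphs: upper and lower bounds.
-/

namespace Pool.Agent.Q89.Gr

variable {X I : Type} (D : Dat X I)

lemma app_append (u v : List X) (w : ℕ → X) : app (u ++ v) w = app u (app v w) := by
  induction u with
  | nil => rfl
  | cons x u ih => show cons x (app (u ++ v) w) = cons x (app u (app v w)); rw [ih]

/-- words consisting of special letters -/
def Spec (v : List X) : Prop := ∀ x ∈ v, x = D.o (D.ty x)

lemma b_spec (σ : Equiv.Perm X) (v : List X) (hv : Spec D v) (i : I) (w : ℕ → X) :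
    b D σ (app v (cons (D.a i) w)) = app v (cons (D.a i) (rt σ w)) := by
  induction v with
  | nil =>
    apply b_a
    rw [D.ha]
  | cons x v ih =>
    show b D σ (cons x (app v (cons (D.a i) w))) = cons x (app v (cons (D.a i) (rt σ w)))
    rw [b_o D σ (hv x List.mem_cons_self), ih (fun y hy => hv y (List.mem_cons_of_mem _ hy))]

/-- swap of two letters of the same type -/
lemma exists_swap [DecidableEq X] {x y : X} (h : D.ty x = D.ty y) : ∃ σ ∈ TP D, σ x = y := by
  refine ⟨Equiv.swap x y, fun z => ?_, Equiv.swap_apply_left x y⟩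
  by_cases h1 : z = x
  · subst h1
    rw [Equiv.swap_apply_left, h]
  · by_cases h2 : z = y
    · subst h2
      rw [Equiv.swap_apply_right, h]
    · rw [Equiv.swap_apply_of_ne_of_ne h1 h2]

/-- changing the letter after a special prefix -/
lemma change [DecidableEq X] (n : ℕ) : ∀ v : List X, v.length = n → Spec D v → ∀ x y : X,
    D.ty x = D.ty y → ∀ w, ∃ g ∈ Wd D (2 ^ (n + 1) - 1), g (app v (cons x w)) =
      app v (cons y w) := by
  induction n with
  | zero =>
    intro v hv _ x y hxy w
    rw [List.length_eq_zero_iff] at hv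
    subst hv
    obtain ⟨σ, hσ, h1⟩ := exists_swap D hxy
    refine ⟨rt σ, Wd_of D (Or.inl ⟨σ, hσ, rfl⟩), ?_⟩
    show rt σ (cons x w) = cons y w
    rw [rt_cons, h1]
  | succ n ih =>
    intro v hv hs x y hxy w
    rcases List.eq_nil_or_concat v with rfl | ⟨v', s, hvs⟩
    · simp at hv
    · rw [List.concat_eq_append] at hvs
      subst hvs
      have hv' : v'.length = n := by simpa using hv
      have hs' : Spec D v' := fun z hz => hs z (List.mem_append_left _ hz)
      have hss : s = D.o (D.ty s) := hs s (by simp)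
      have e1 : ∀ u : ℕ → X, app (v' ++ [s]) u = app v' (cons s u) := by
        intro u
        rw [app_append]
        rfl
      obtain ⟨σ, hσ, h1⟩ := exists_swap D hxy
      obtain ⟨g1, hg1, h2⟩ := ih v' hv' hs' s (D.a (D.ty s)) (by rw [D.ha]) (cons x w)
      obtain ⟨g2, hg2, h3⟩ := ih v' hv' hs' (D.a (D.ty s)) s (by rw [D.ha]) (cons y w)
      refine ⟨g2 * (b D σ * g1), ?_, ?_⟩
      · have h4 := Wd_mul D hg2 (Wd_mul D (Wd_of D (Or.inr ⟨σ, hσ, rfl⟩)) hg1)
        have h5 : 2 ^ (n + 1) - 1 + (1 + (2 ^ (n + 1) - 1)) = 2 ^ (n + 1 + 1) - 1 := by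
          have : 1 ≤ 2 ^ (n + 1) := Nat.one_le_two_pow
          rw [pow_succ 2 (n + 1)]
          omega
        rw [h5] at h4
        exact h4
      · rw [Equiv.Perm.mul_apply, Equiv.Perm.mul_apply, e1, e1, h2, b_spec D σ v' hs', rt_cons,
          h1, h3]

/-- the special word of the same types -/
def sp (v : List X) : List X := v.map (fun x => D.o (D.ty x))

lemma spec_sp (v : List X) : Spec D (sp D v) := by
  intro x hx
  obtain ⟨y, _, rfl⟩ := List.mem_map.1 hx
  rw [D.ho]

lemma to_sp [DecidableEq X] (n : ℕ) : ∀ v : List X, v.length = n → ∀ w, ∃ g ∈ Wd D (2 ^ (n + 1)),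
    g (app v w) = app (sp D v) w := by
  induction n with
  | zero =>
    intro v hv w
    rw [List.length_eq_zero_iff] at hv
    subst hv
    exact ⟨1, Wd_mono D (Nat.zero_le _) (Wd_one_mem D), rfl⟩
  | succ n ih =>
    intro v hv w
    rcases List.eq_nil_or_concat v with rfl | ⟨v', s, hvs⟩
    · simp at hv
    · rw [List.concat_eq_append] at hvs
      subst hvs
      have hv' : v'.length = n := by simpa using hv
      obtain ⟨g1, hg1, h1⟩ := ih v' hv' (cons s w)
      obtain ⟨g2, hg2, h2⟩ := change D n (sp D v') (by rw [sp, List.length_map, hv'])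
        (spec_sp D v') s (D.o (D.ty s)) (by rw [D.ho]) w
      refine ⟨g2 * g1, ?_, ?_⟩
      · have h4 := Wd_mul D hg2 hg1
        refine Wd_mono D ?_ h4
        have : 1 ≤ 2 ^ (n + 1) := Nat.one_le_two_pow
        rw [pow_succ 2 (n + 1)]
        omega
      · have e1 : app (v' ++ [s]) w = app v' (cons s w) := by
          rw [app_append]
          rfl
        have e2 : app (sp D (v' ++ [s])) w = app (sp D v') (cons (D.o (D.ty s)) w) := by
          rw [sp, List.map_append, app_append]
          rfl
        rw [Equiv.Perm.mul_apply, e1, e2, h1, h2]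

lemma connect [DecidableEq X] {u v : List X} (h : u.map D.ty = v.map D.ty) (w : ℕ → X) :
    ∃ g ∈ Wd D (2 ^ (v.length + 2)), g (app v w) = app u w := by
  have hl : u.length = v.length := by
    have := congrArg List.length h
    simpa using this
  obtain ⟨g1, hg1, h1⟩ := to_sp D v.length v rfl w
  obtain ⟨g2, hg2, h2⟩ := to_sp D v.length u hl w
  have hsp : sp D u = sp D v := by
    have := congrArg (List.map D.o) h
    rw [List.map_map, List.map_map] at this
    exact this
  refine ⟨g2⁻¹ * g1, ?_, ?_⟩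
  · have h4 := Wd_mul D (Wd_inv D hg2) hg1
    refine Wd_mono D (le_of_eq ?_) h4
    rw [pow_succ 2 (v.length + 1)]
    omega
  · rw [Equiv.Perm.mul_apply, h1, ← hsp, ← h2]
    exact g2.symm_apply_apply _

/-- the words of given types -/
def words (t : List I) : Set (List X) := {u | u.map D.ty = t}

/-- number of letters of a given type -/
noncomputable def num (i : I) : ℕ := {x : X | D.ty x = i}.ncard

lemma words_cons (i : I) (t : List I) :
    words D (i :: t) = (fun z : X × List X => z.1 :: z.2) '' ({x : X | D.ty x = i} ×ˢ words D t) := by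
  ext u
  constructor
  · intro hu
    cases u with
    | nil => exact absurd hu (by simp [words])
    | cons x u =>
      have hu' : D.ty x :: u.map D.ty = i :: t := hu
      rw [List.cons.injEq] at hu'
      exact ⟨(x, u), ⟨hu'.1, hu'.2⟩, rfl⟩
  · rintro ⟨⟨x, u⟩, ⟨h1, h2⟩, rfl⟩
    show (x :: u).map D.ty = i :: t
    rw [List.map_cons]
    have h1' : D.ty x = i := h1
    have h2' : u.map D.ty = t := h2
    rw [h1', h2']

lemma words_fin [Finite X] (t : List I) : (words D t).Finite ∧
    (words D t).ncard = (t.map (num D)).prod := by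
  induction t with
  | nil =>
    have : words D [] = {[]} := by
      ext u
      simp [words]
    rw [this]
    simp
  | cons i t ih =>
    rw [words_cons]
    constructor
    · exact ((Set.toFinite _).prod ih.1).image _
    · rw [Set.ncard_image_of_injective, Set.ncard_prod, ih.2, List.map_cons, List.prod_cons]
      · rfl
      · rintro ⟨x, u⟩ ⟨y, v⟩ h
        simp only [List.cons.injEq] at h
        exact Prod.ext h.1 h.2

lemma app_inj (u : List X) : ∀ (v : List X) (w w' : ℕ → X), u.length = v.length →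
    app u w = app v w' → u = v ∧ w = w' := by
  induction u with
  | nil =>
    intro v w w' hl h
    have : v = [] := List.length_eq_zero_iff.1 hl.symm
    subst this
    exact ⟨rfl, h⟩
  | cons x u ih =>
    intro v w w' hl h
    cases v with
    | nil => simp at hl
    | cons y v =>
      obtain ⟨h1, h2⟩ := cons_inj h
      obtain ⟨h3, h4⟩ := ih v w w' (by simpa using hl) h2
      exact ⟨by rw [h1, h3], h4⟩

/-- the ball -/
def ball (ξ : ℕ → X) (n : ℕ) : Set (ℕ → X) := {η | ∃ g ∈ Wd D n, g ξ = η}

/-- the prefix of length `n` -/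
def pre (ξ : ℕ → X) : ℕ → List X
  | 0 => []
  | n + 1 => ξ 0 :: pre (fun i => ξ (i + 1)) n

lemma pre_length (n : ℕ) : ∀ ξ : ℕ → X, (pre ξ n).length = n := by
  induction n with
  | zero => intro ξ; rfl
  | succ n ih => intro ξ; show (pre _ n).length + 1 = n + 1; rw [ih]

lemma app_pre (n : ℕ) : ∀ ξ : ℕ → X, ξ = app (pre ξ n) (fun i => ξ (i + n)) := by
  induction n with
  | zero => intro ξ; rfl
  | succ n ih =>
    intro ξ
    have h1 := ih (fun i => ξ (i + 1))
    show ξ = cons (ξ 0) (app (pre (fun i => ξ (i + 1)) n) _)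
    have h2 : (fun i => ξ (i + (n + 1))) = fun i => (fun i => ξ (i + 1)) (i + n) := rfl
    rw [h2, ← h1]
    exact (cons_eta ξ).symm

lemma ball_lower [DecidableEq X] [Finite X] (ξ : ℕ → X) (n : ℕ) (hfin : (ball D ξ (2 ^ (n + 2))).Finite) :
    (((pre ξ n).map D.ty).map (num D)).prod ≤ (ball D ξ (2 ^ (n + 2))).ncard := by
  rw [← (words_fin D _).2]
  set w := fun i => ξ (i + n) with hw
  have h1 : (fun u => app u w) '' words D ((pre ξ n).map D.ty) ⊆ ball D ξ (2 ^ (n + 2)) := by
    rintro _ ⟨u, hu, rfl⟩
    obtain ⟨g, hg, h1⟩ := connect D (u := u) (v := pre ξ n) hu w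
    rw [pre_length] at hg
    refine ⟨g, hg, ?_⟩
    conv_lhs => rw [app_pre n ξ]
    exact h1
  have h2 := Set.ncard_le_ncard h1 hfin
  rw [Set.ncard_image_of_injOn] at h2
  · exact h2
  · intro u hu v hv huv
    have hl : u.length = v.length := by
      have h3 : u.map D.ty = v.map D.ty := by
        have h4 : u.map D.ty = _ := hu
        have h5 : v.map D.ty = _ := hv
        rw [h4, h5]
      have := congrArg List.length h3
      simpa using this
    exact (app_inj u v w w hl huv).1

lemma ball_sub (ξ : ℕ → X) (n r : ℕ) (hr : r ≤ 2 ^ n + 1) : ball D ξ r ⊆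
    (fun z : List X × Equiv.Perm (ℕ → X) => app z.1 (z.2 (fun i => ξ (i + n)))) ''
      (words D ((pre ξ n).map D.ty) ×ˢ Wd D 2) := by
  rintro _ ⟨g, hg, rfl⟩
  obtain ⟨u, h, h1, h2, h3⟩ := Wd_secs D (pre ξ n) hg
  rw [pre_length] at h2
  refine ⟨(u, h), ⟨h1, Wd_mono D (fl_le hr) h2⟩, ?_⟩
  show app u (h _) = g ξ
  conv_rhs => rw [app_pre n ξ]
  rw [h3]

lemma Wd_fin [Finite X] (n : ℕ) : (Wd D n).Finite := by
  induction n with
  | zero =>
    refine (Set.finite_singleton (1 : Equiv.Perm (ℕ → X))).subset ?_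
    rintro g ⟨l, hl, -, rfl⟩
    rw [List.length_eq_zero_iff] at hl
    subst hl
    rfl
  | succ n ih =>
    refine (((S0_fin D).prod ih).image (fun z => z.1 * z.2)).subset ?_
    rintro g ⟨l, hl, h1, rfl⟩
    cases l with
    | nil => simp at hl
    | cons s l =>
      refine ⟨(s, l.prod), ⟨h1 s List.mem_cons_self, l, by simpa using hl,
        fun t ht => h1 t (List.mem_cons_of_mem _ ht), rfl⟩, by simp⟩

lemma ball_upper [Finite X] (ξ : ℕ → X) (n r : ℕ) (hr : r ≤ 2 ^ n + 1) : (ball D ξ r).Finite ∧
    (ball D ξ r).ncard ≤ (((pre ξ n).map D.ty).map (num D)).prod * (Wd D 2).ncard := by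
  have hf : (words D ((pre ξ n).map D.ty) ×ˢ Wd D 2).Finite :=
    (words_fin D _).1.prod (Wd_fin D 2)
  constructor
  · exact (hf.image _).subset (ball_sub D ξ n r hr)
  · refine (Set.ncard_le_ncard (ball_sub D ξ n r hr) (hf.image _)).trans ?_
    refine (Set.ncard_image_le hf).trans ?_
    rw [Set.ncard_prod, (words_fin D _).2]

end Pool.Agent.Q89.Gr
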