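import Pool.Agent.Q89.Gr2

set_option autoImplicit false

/-!
The growth degree of the boundary Schreier graph can be any real number `d ≥ 1`.
-/

namespace Pool.Agent.Q89.Gr

open Filter

/-- the letters: two of type `true`, `m + 2` of type `false` -/
abbrev Xm (m : ℕ) : Type := Bool ⊕ Fin (m + 2)

/-- the data -/
def Dm (m : ℕ) : Dat (Xm m) Bool where
  ty := Sum.elim (fun _ => true) (fun _ => false)
  o := fun i => if i then Sum.inl false else Sum.inr 0
  a := fun i => if i then Sum.inl true else Sum.inr 1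
  ho := by intro i; cases i <;> rfl
  ha := by intro i; cases i <;> rfl
  hne := by
    intro i
    cases i
    · intro h
      simp at h
    · intro h
      simp at h

lemma num_true (m : ℕ) : num (Dm m) true = 2 := by
  unfold num
  have : {x : Xm m | (Dm m).ty x = true} = Set.range (Sum.inl : Bool → Xm m) := by
    ext x
    cases x with
    | inl x => simp [Dm]
    | inr x => simp [Dm]
  rw [this, ← Set.image_univ, Set.ncard_image_of_injective _ Sum.inl_injective, Set.ncard_univ]
  simp

lemma num_false (m : ℕ) : num (Dm m) false = m + 2 := by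
  unfold num
  have : {x : Xm m | (Dm m).ty x = false} = Set.range (Sum.inr : Fin (m + 2) → Xm m) := by
    ext x
    cases x with
    | inl x => simp [Dm]
    | inr x => simp [Dm]
  rw [this, ← Set.image_univ, Set.ncard_image_of_injective _ Sum.inr_injective, Set.ncard_univ]
  simp

open Classical in
/-- partial sums of the exponents -/
noncomputable def E (d : ℝ) (k : ℕ) : ℕ → ℕ
  | 0 => 0
  | n + 1 => E d k n + if d * n ≤ E d k n then 1 else k

lemma E_bound {d : ℝ} {k : ℕ} (h1 : 1 ≤ d) (h2 : d ≤ k) (n : ℕ) : |(E d k n : ℝ) - d * n| ≤ k := by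
  induction n with
  | zero => simp [E]
  | succ n ih =>
    rw [abs_le] at ih ⊢
    by_cases h : d * n ≤ E d k n
    · simp only [E, if_pos h]
      push_cast
      constructor <;> nlinarith [ih.1, ih.2]
    · simp only [E, if_neg h]
      push_cast
      have h' : (E d k n : ℝ) < d * n := not_le.1 h
      constructor <;> nlinarith [ih.1, ih.2]

open Classical in
/-- the sequence -/
noncomputable def xi (d : ℝ) (k m : ℕ) : ℕ → Xm m :=
  fun n => if d * n ≤ E d k n then Sum.inl false else Sum.inr 0

lemma pre_succ {X : Type} (n : ℕ) : ∀ ξ : ℕ → X, pre ξ (n + 1) = pre ξ n ++ [ξ n] := by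
  induction n with
  | zero => intro ξ; rfl
  | succ n ih =>
    intro ξ
    show ξ 0 :: pre (fun i => ξ (i + 1)) (n + 1) = ξ 0 :: (pre (fun i => ξ (i + 1)) n ++ [ξ (n + 1)])
    rw [ih]

lemma prod_xi {d : ℝ} {k m : ℕ} (hkm : 2 ^ k = m + 2) (n : ℕ) :
    (((pre (xi d k m) n).map (Dm m).ty).map (num (Dm m))).prod = 2 ^ E d k n := by
  induction n with
  | zero => rfl
  | succ n ih =>
    rw [pre_succ, List.map_append, List.map_append, List.prod_append, ih]
    by_cases h : d * n ≤ E d k n
    · have h1 : xi d k m n = Sum.inl false := by simp only [xi, if_pos h]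
      rw [h1]
      have h2 : (Dm m).ty (Sum.inl false) = true := rfl
      simp only [List.map_cons, List.map_nil, List.prod_singleton, h2, num_true, E, if_pos h]
      rw [pow_succ]
    · have h1 : xi d k m n = Sum.inr 0 := by simp only [xi, if_neg h]
      rw [h1]
      have h2 : (Dm m).ty (Sum.inr 0) = false := rfl
      simp only [List.map_cons, List.map_nil, List.prod_singleton, h2, num_false, E, if_neg h]
      rw [pow_add, hkm]

/-- the analytic part -/
lemma tendsto_of_bounds {γ : ℕ → ℕ} {e : ℕ → ℕ} {d K C : ℝ} (hmono : Monotone γ)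
    (hC : 1 ≤ C) (hd : 0 ≤ d) (hK : 0 ≤ K)
    (hE : ∀ n, |(e n : ℝ) - d * n| ≤ K) (hlow : ∀ n, (2 : ℝ) ^ e n ≤ γ (2 ^ (n + 2)))
    (hup : ∀ n, (γ (2 ^ n) : ℝ) ≤ 2 ^ e n * C) :
    Tendsto (fun r : ℕ => Real.log (γ r) / Real.log r) atTop (nhds d) := by
  have hl2 : 0 < Real.log 2 := Real.log_pos (by norm_num)
  -- the bound
  set M : ℝ := 3 * d + K + Real.log C / Real.log 2 with hM
  have hlC : 0 ≤ Real.log C := Real.log_nonneg hC
  have hlC2 : 0 ≤ Real.log C / Real.log 2 := div_nonneg hlC hl2.le
  have key : ∀ r : ℕ, 4 ≤ r → |Real.log (γ r) / Real.log r - d| ≤ M / (Nat.log 2 r : ℕ) := by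
    intro r hr
    have hr0 : r ≠ 0 := by omega
    obtain ⟨n, hn⟩ : ∃ n, Nat.log 2 r = n + 2 := by
      have : 2 ≤ Nat.log 2 r := by
        apply Nat.le_log_of_pow_le (by norm_num)
        norm_num
        exact hr
      exact ⟨Nat.log 2 r - 2, by omega⟩
    have h1 : 2 ^ (n + 2) ≤ r := by
      rw [← hn]
      exact Nat.pow_log_le_self 2 hr0
    have h2 : r ≤ 2 ^ (n + 3) := by
      have := Nat.lt_pow_succ_log_self (b := 2) (by norm_num) r
      rw [hn] at this
      exact this.le
    rw [hn]
    have hrR : (2 : ℝ) ^ (n + 2) ≤ r := by exact_mod_cast h1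
    have hrR2 : (r : ℝ) ≤ 2 ^ (n + 3) := by exact_mod_cast h2
    have hrpos : (0 : ℝ) < r := lt_of_lt_of_le (by positivity) hrR
    have hlr1 : ((n : ℝ) + 2) * Real.log 2 ≤ Real.log r := by
      have := Real.log_le_log (by positivity) hrR
      rw [Real.log_pow] at this
      push_cast at this
      exact this
    have hlr2 : Real.log r ≤ ((n : ℝ) + 3) * Real.log 2 := by
      have := Real.log_le_log hrpos hrR2
      rw [Real.log_pow] at this
      push_cast at this
      exact this
    have hg1 : (2 : ℝ) ^ e n ≤ γ r := (hlow n).trans (by exact_mod_cast hmono h1)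
    have hg2 : (γ r : ℝ) ≤ 2 ^ e (n + 3) * C :=
      le_trans (by exact_mod_cast hmono h2) (hup (n + 3))
    have hgpos : (0 : ℝ) < γ r := lt_of_lt_of_le (by positivity) hg1
    have hlg1 : (e n : ℝ) * Real.log 2 ≤ Real.log (γ r) := by
      have := Real.log_le_log (by positivity) hg1
      rwa [Real.log_pow] at this
    have hlg2 : Real.log (γ r) ≤ (e (n + 3) : ℝ) * Real.log 2 + Real.log C := by
      have := Real.log_le_log hgpos hg2
      rwa [Real.log_mul (by positivity) (by linarith), Real.log_pow] at this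
    have hlrpos : 0 < Real.log r := lt_of_lt_of_le (by positivity) hlr1
    have hE1 := abs_le.1 (hE n)
    have hE2 := abs_le.1 (hE (n + 3))
    push_cast at hE2
    have hn0 : (0 : ℝ) ≤ n := Nat.cast_nonneg n
    have hMn : M / ((n + 2 : ℕ) : ℝ) = M / ((n : ℝ) + 2) := by push_cast; rfl
    rw [hMn, abs_le]
    have hM0 : 0 ≤ M := by rw [hM]; linarith
    constructor
    · rw [neg_le_sub_iff_le_add, ← sub_le_iff_le_add, le_div_iff₀ hlrpos]
      -- (d - M/(n+2)) * log r ≤ log γ
      have h5 : (d - M / ((n : ℝ) + 2)) * Real.log r ≤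
          d * (((n : ℝ) + 3) * Real.log 2) - M * Real.log 2 := by
        have h6 : d * Real.log r ≤ d * (((n : ℝ) + 3) * Real.log 2) :=
          mul_le_mul_of_nonneg_left hlr2 hd
        have h7 : M * Real.log 2 ≤ M / ((n : ℝ) + 2) * Real.log r := by
          have h8 : M / ((n : ℝ) + 2) * (((n : ℝ) + 2) * Real.log 2) = M * Real.log 2 := by
            field_simp
          rw [← h8]
          exact mul_le_mul_of_nonneg_left hlr1 (by positivity)
        linarith [sub_mul d (M / ((n : ℝ) + 2)) (Real.log r)]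
      have h9 : d * (((n : ℝ) + 3) * Real.log 2) - M * Real.log 2 ≤ (e n : ℝ) * Real.log 2 := by
        have h10 : M * Real.log 2 = (3 * d + K) * Real.log 2 + Real.log C := by
          rw [hM]
          field_simp
        rw [h10]
        have h11 : (d * n - K) * Real.log 2 ≤ (e n : ℝ) * Real.log 2 :=
          mul_le_mul_of_nonneg_right (by linarith [hE1.1]) hl2.le
        linarith
      linarith
    · rw [sub_le_iff_le_add, div_le_iff₀ hlrpos]
      have h5 : d * (((n : ℝ) + 2) * Real.log 2) + M * Real.log 2 ≤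
          (M / ((n : ℝ) + 2) + d) * Real.log r := by
        have h6 : d * (((n : ℝ) + 2) * Real.log 2) ≤ d * Real.log r :=
          mul_le_mul_of_nonneg_left hlr1 hd
        have h7 : M * Real.log 2 ≤ M / ((n : ℝ) + 2) * Real.log r := by
          have h8 : M / ((n : ℝ) + 2) * (((n : ℝ) + 2) * Real.log 2) = M * Real.log 2 := by
            field_simp
          rw [← h8]
          exact mul_le_mul_of_nonneg_left hlr1 (by positivity)
        linarith [add_mul (M / ((n : ℝ) + 2)) d (Real.log r)]
      have h9 : (e (n + 3) : ℝ) * Real.log 2 + Real.log C ≤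
          d * (((n : ℝ) + 2) * Real.log 2) + M * Real.log 2 := by
        have h10 : M * Real.log 2 = (3 * d + K) * Real.log 2 + Real.log C := by
          rw [hM]
          field_simp
        rw [h10]
        have h11 : (e (n + 3) : ℝ) * Real.log 2 ≤ (d * (n + 3) + K) * Real.log 2 :=
          mul_le_mul_of_nonneg_right (by linarith [hE2.2]) hl2.le
        have h12 : 0 ≤ d * Real.log 2 := by positivity
        linarith
      linarith
  have hlog : Tendsto (fun r : ℕ => M / ((Nat.log 2 r : ℕ) : ℝ)) atTop (nhds 0) := by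
    apply Tendsto.const_div_atTop
    apply tendsto_natCast_atTop_atTop.comp
    rw [tendsto_atTop]
    intro b
    filter_upwards [eventually_ge_atTop (2 ^ b)] with r hr
    exact Nat.le_log_of_pow_le (by norm_num) hr
  rw [tendsto_iff_norm_sub_tendsto_zero]
  refine squeeze_zero' (Eventually.of_forall fun r => norm_nonneg _) ?_ hlog
  filter_upwards [eventually_ge_atTop 4] with r hr
  rw [Real.norm_eq_abs]
  exact key r hr

theorem main {d : ℝ} (h1 : 1 ≤ d) : ∃ (m : ℕ) (ξ : ℕ → Xm m),
    Tendsto (fun r : ℕ => Real.log ((ball (Dm m) ξ r).ncard) / Real.log r) atTop (nhds d) := by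
  obtain ⟨k, hk⟩ := exists_nat_ge d
  have hk1 : 1 ≤ k := by
    have : (1 : ℝ) ≤ k := h1.trans hk
    exact_mod_cast this
  obtain ⟨m, hm⟩ : ∃ m, 2 ^ k = m + 2 := by
    have : 2 ^ 1 ≤ 2 ^ k := Nat.pow_le_pow_right (by norm_num) hk1
    exact ⟨2 ^ k - 2, by omega⟩
  refine ⟨m, xi d k m, ?_⟩
  have hfin : ∀ r, (ball (Dm m) (xi d k m) r).Finite := by
    intro r
    exact (ball_upper (Dm m) (xi d k m) r r (by have := Nat.lt_two_pow_self (n := r); omega)).1
  apply tendsto_of_bounds (e := E d k) (K := k) (C := (Wd (Dm m) 2).ncard)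
  · intro r s hrs
    apply Set.ncard_le_ncard _ (hfin s)
    rintro _ ⟨g, hg, rfl⟩
    exact ⟨g, Wd_mono _ hrs hg, rfl⟩
  · have : 0 < (Wd (Dm m) 2).ncard := by
      rw [Set.ncard_pos (Wd_fin _ 2)]
      exact ⟨1, Wd_mono _ (Nat.zero_le _) (Wd_one_mem _)⟩
    exact_mod_cast this
  · linarith
  · exact Nat.cast_nonneg k
  · exact E_bound h1 hk
  · intro n
    have := ball_lower (Dm m) (xi d k m) n (hfin _)
    rw [prod_xi hm] at this
    exact_mod_cast this
  · intro n
    have := (ball_upper (Dm m) (xi d k m) n (2 ^ n) (by omega)).2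
    rw [prod_xi hm] at this
    exact_mod_cast this

end Pool.Agent.Q89.Gr
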