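import Pool.Agent.Q89.WR2

/-!
Finite invertible automata, their groups, and automata whose group is a direct product of a fixed
group and a cyclic group.
-/

set_option linter.unusedSimpArgs false
set_option linter.unusedVariables false
set_option linter.unusedSectionVars false

namespace Pool.Agent.Q89.IS

open Equiv Pool.Agent.Helper599.Core Pool.Agent.Q89.WR

/-- An invertible automaton with states `S` over the alphabet `X`: the transition map and, for each
state, the permutation of the alphabet which is its output map. -/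
structure Atm (S X : Type) where
  next : S → X → S
  out : S → Perm X

namespace Atm

variable {S X : Type} (A : Atm S X)

/-- The action of a state on words: `s (x w) = out s x · (next s x) (w)`. -/
def actF : S → List X → List X
  | _, [] => []
  | s, x :: w => A.out s x :: actF (A.next s x) w

/-- The inverse of the action of a state. -/
def invF : S → List X → List X
  | _, [] => []
  | s, x :: w => (A.out s)⁻¹ x :: invF (A.next s ((A.out s)⁻¹ x)) w

theorem inv_act (s : S) (w : List X) : A.invF s (A.actF s w) = w := by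
  induction w generalizing s with
  | nil => rfl
  | cons x w ih =>
    simp only [actF, invF, inv_app, ih]

theorem act_inv (s : S) (w : List X) : A.actF s (A.invF s w) = w := by
  induction w generalizing s with
  | nil => rfl
  | cons x w ih =>
    simp only [actF, invF, app_inv, ih]

/-- The permutation of the set of words given by a state. -/
def gen (s : S) : Perm (List X) := ⟨A.actF s, A.invF s, A.inv_act s, A.act_inv s⟩

/-- The group generated by the automaton. -/
def grp : Subgroup (Perm (List X)) := Subgroup.closure (Set.range A.gen)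

theorem gen_nil (s : S) : A.gen s [] = [] := rfl

theorem gen_sec (s : S) (x : X) : Sec1 (A.gen s) x (A.out s x) (A.gen (A.next s x)) := fun _ => rfl

theorem gen_unique (γ : S → Perm (List X)) (h0 : ∀ s, γ s [] = [])
    (h : ∀ s x, Sec1 (γ s) x (A.out s x) (γ (A.next s x))) (s : S) : A.gen s = γ s := by
  apply Equiv.ext
  intro w
  induction w generalizing s with
  | nil => rw [h0, A.gen_nil]
  | cons x w ih => rw [h s x w, A.gen_sec s x w, ih]

end Atm

section sum

variable {S X E : Type}

/-- The automaton obtained from an automaton `A` with a state `i0` by adding letters `E` on which the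
old states act trivially and a state acting on `E` only. -/
def addE (A : Atm S X) (i0 : S) (ρ : Perm E) (σ : E → Option S) : Atm (S ⊕ Unit) (X ⊕ E) where
  next s x := match s, x with
    | .inl s, .inl x => .inl (A.next s x)
    | .inl _, .inr _ => .inl i0
    | .inr _, .inl _ => .inl i0
    | .inr _, .inr j => match σ j with
      | some s => .inl s
      | none => .inr ()
  out s := match s with
    | .inl s => Equiv.sumCongr (A.out s) (Equiv.refl E)
    | .inr _ => Equiv.sumCongr (Equiv.refl X) ρ

variable (A : Atm S X) (i0 : S) (hi : A.gen i0 = 1) (ρ : Perm E) (σ : E → Option S)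

include hi in
theorem addE_gen_inl (s : S) : (addE A i0 ρ σ).gen (.inl s) = ext (A.gen s) := by
  apply Equiv.ext
  intro w
  induction w generalizing s with
  | nil =>
    rw [Atm.gen_nil, ext_apply]
    simp [pre, post, Atm.gen_nil]
  | cons x w ih =>
    rw [(addE A i0 ρ σ).gen_sec (.inl s) x w]
    rcases x with x | j
    · have h1 := ext_sec1 (B := E) (A.gen_sec s x) w
      rw [h1]
      change Sum.inl (A.out s x) :: (addE A i0 ρ σ).gen (.inl (A.next s x)) w = _
      rw [ih]
    · have h1 := ext_sec1_inr (B := E) (A.gen_nil s) j w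
      rw [h1]
      change Sum.inr j :: (addE A i0 ρ σ).gen (.inl i0) w = _
      rw [ih, hi, map_one]

/-- the new permutation -/
def zE : Perm (List (X ⊕ E)) := (addE A i0 ρ σ).gen (.inr ())

include hi in
theorem zE_inl (x : X) : Sec1 (zE A i0 ρ σ) (.inl x) (.inl x) 1 := by
  have h := (addE A i0 ρ σ).gen_sec (.inr ()) (.inl x)
  have h2 : (addE A i0 ρ σ).gen ((addE A i0 ρ σ).next (.inr ()) (.inl x)) = 1 := by
    change (addE A i0 ρ σ).gen (.inl i0) = 1
    rw [addE_gen_inl A i0 hi, hi, map_one]
  rw [h2] at h
  exact h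

include hi in
theorem zE_inr_some (j : E) (s : S) (hs : σ j = some s) :
    Sec1 (zE A i0 ρ σ) (.inr j) (.inr (ρ j)) (ext (A.gen s)) := by
  have h := (addE A i0 ρ σ).gen_sec (.inr ()) (.inr j)
  have h2 : (addE A i0 ρ σ).gen ((addE A i0 ρ σ).next (.inr ()) (.inr j)) = ext (A.gen s) := by
    have : (addE A i0 ρ σ).next (.inr ()) (.inr j) = .inl s := by
      simp only [addE, hs]
    rw [this, addE_gen_inl A i0 hi]
  rw [h2] at h
  exact h

theorem zE_inr_none (j : E) (hs : σ j = none) :
    Sec1 (zE A i0 ρ σ) (.inr j) (.inr (ρ j)) (zE A i0 ρ σ) := by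
  have h := (addE A i0 ρ σ).gen_sec (.inr ()) (.inr j)
  have h2 : (addE A i0 ρ σ).next (.inr ()) (.inr j) = .inr () := by
    simp only [addE, hs]
  rw [h2] at h
  exact h

theorem zE_nil : zE A i0 ρ σ [] = [] := rfl

/-- elements acting on words beginning with a new letter only -/
def Hn (X E : Type) : Subgroup (Perm (List (X ⊕ E))) where
  carrier := {f | ∀ w : List (X ⊕ E), (∀ j u, w ≠ .inr j :: u) → f w = w}
  one_mem' := fun w _ => rfl
  mul_mem' := by
    intro f g hf hg w hw
    rw [Perm.mul_apply, hg w hw, hf w hw]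
  inv_mem' := by
    intro f hf w hw
    rw [Perm.inv_eq_iff_eq, hf w hw]

include hi in
theorem zE_mem : zE A i0 ρ σ ∈ Hn X E := by
  intro w hw
  rcases w with _ | ⟨x | j, u⟩
  · rfl
  · exact zE_inl A i0 hi ρ σ x u
  · exact absurd rfl (hw j u)

theorem ext_inr (f : Perm (List X)) (h0 : f [] = []) (j : E) (u : List (X ⊕ E)) :
    (ext f : Perm (List (X ⊕ E))) (.inr j :: u) = .inr j :: u := ext_sec1_inr h0 j u

/-- permutations fixing the empty word -/
def Fx (X : Type) : Subgroup (Perm (List X)) where
  carrier := {f | f [] = []}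
  one_mem' := rfl
  mul_mem' := by
    intro f g hf hg
    change f (g []) = []
    rw [show g [] = [] from hg, show f [] = [] from hf]
  inv_mem' := by
    intro f hf
    change f⁻¹ [] = []
    rw [Perm.inv_eq_iff_eq]
    exact (show f [] = [] from hf).symm

theorem commute_ext (f : Perm (List X)) (h0 : f ∈ Fx X) (h : Perm (List (X ⊕ E)))
    (hh : h ∈ Hn X E) : Commute (ext f : Perm (List (X ⊕ E))) h := by
  have h0' : f [] = [] := h0
  -- images of words under `ext f` keep the type
  have key : ∀ w : List (X ⊕ E), (∀ j u, w ≠ .inr j :: u) →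
      ∀ j u, (ext f : Perm (List (X ⊕ E))) w ≠ .inr j :: u := by
    intro w hw j u he
    have h1 := ext_inr (E := E) f h0' j u
    have h2 := (ext f : Perm (List (X ⊕ E))).injective (he.trans h1.symm)
    exact hw j u h2
  have key2 : ∀ (j : E) (u : List (X ⊕ E)), ∃ j' u', h (.inr j :: u) = .inr j' :: u' := by
    intro j u
    by_contra hcon
    push Not at hcon
    have h1 := hh (h (.inr j :: u)) (fun j' u' => hcon j' u')
    have h2 := h.injective h1
    exact hcon j u h2
  apply Equiv.ext
  intro w
  rw [Perm.mul_apply, Perm.mul_apply]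
  by_cases hw : ∀ j u, w ≠ .inr j :: u
  · rw [hh w hw, hh _ (key w hw)]
  · push Not at hw
    obtain ⟨j, u, rfl⟩ := hw
    obtain ⟨j', u', h1⟩ := key2 j u
    rw [h1, ext_inr f h0', ext_inr f h0', h1]

theorem gen_mem_Fx (s : S) : A.gen s ∈ Fx X := A.gen_nil s

theorem grp_le_Fx : A.grp ≤ Fx X := by
  unfold Atm.grp
  rw [Subgroup.closure_le]
  rintro _ ⟨s, rfl⟩
  exact gen_mem_Fx A s

include hi in
theorem zpow_mem_Hn (h : Subgroup.zpowers (zE A i0 ρ σ)) : (h : Perm (List (X ⊕ E))) ∈ Hn X E := by
  have : Subgroup.zpowers (zE A i0 ρ σ) ≤ Hn X E := by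
    rw [Subgroup.zpowers_le]
    exact zE_mem A i0 hi ρ σ
  exact this h.2

/-- the homomorphism from the direct product -/
noncomputable def phi (hi : A.gen i0 = 1) :
    A.grp × Subgroup.zpowers (zE A i0 ρ σ) →* Perm (List (X ⊕ E)) :=
  MonoidHom.noncommCoprod (ext.comp A.grp.subtype) (Subgroup.zpowers (zE A i0 ρ σ)).subtype
    (fun g h => commute_ext (E := E) (g : Perm (List X)) (grp_le_Fx A g.2)
      (h : Perm (List (X ⊕ E))) (zpow_mem_Hn A i0 hi ρ σ h))

theorem phi_apply (g : A.grp) (h : Subgroup.zpowers (zE A i0 ρ σ)) :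
    phi A i0 ρ σ hi (g, h) = ext (g : Perm (List X)) * (h : Perm (List (X ⊕ E))) := rfl

theorem phi_injective : Function.Injective (phi A i0 ρ σ hi) := by
  rw [injective_iff_map_eq_one]
  rintro ⟨g, h⟩ hgh
  rw [phi_apply] at hgh
  have hh := zpow_mem_Hn A i0 hi ρ σ h
  have hg : (g : Perm (List X)) = 1 := by
    apply Equiv.ext
    intro u
    have hu : ∀ (j : E) (v : List (X ⊕ E)), u.map Sum.inl ≠ Sum.inr j :: v := by
      intro j v he
      cases u with
      | nil => simp at he
      | cons a u => simp at he
    have h1 := congrArg (fun f : Perm (List (X ⊕ E)) => f (u.map Sum.inl)) hgh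
    simp only [Perm.mul_apply, Perm.one_apply] at h1
    rw [hh _ hu, ext_apply] at h1
    have h2 : pre (u.map (Sum.inl : X → X ⊕ E)) = u := by
      have := pre_append u ([] : List (X ⊕ E))
      simpa [post] using this
    have h3 : post (u.map (Sum.inl : X → X ⊕ E)) = [] := by
      have := post_append u ([] : List (X ⊕ E))
      simpa [post] using this
    rw [h2, h3, List.append_nil] at h1
    exact List.map_injective_iff.2 Sum.inl_injective h1
  rw [hg, map_one, one_mul] at hgh
  ext1
  · exact Subtype.ext hg
  · exact Subtype.ext hgh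

theorem phi_range : (phi A i0 ρ σ hi).range = (addE A i0 ρ σ).grp := by
  apply le_antisymm
  · rintro _ ⟨⟨g, h⟩, rfl⟩
    rw [phi_apply]
    apply mul_mem
    · have h1 : A.grp ≤ (addE A i0 ρ σ).grp.comap ext := by
        unfold Atm.grp
        rw [Subgroup.closure_le]
        rintro _ ⟨s, rfl⟩
        change ext (A.gen s) ∈ Subgroup.closure _
        rw [← addE_gen_inl A i0 hi ρ σ s]
        exact Subgroup.subset_closure ⟨_, rfl⟩
      exact h1 g.2
    · have h1 : Subgroup.zpowers (zE A i0 ρ σ) ≤ (addE A i0 ρ σ).grp := by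
        rw [Subgroup.zpowers_le]
        exact Subgroup.subset_closure ⟨.inr (), rfl⟩
      exact h1 h.2
  · refine (Subgroup.closure_le _).2 ?_
    rintro _ ⟨s, rfl⟩
    rcases s with s | u
    · rw [addE_gen_inl A i0 hi]
      refine ⟨(⟨A.gen s, Subgroup.subset_closure ⟨s, rfl⟩⟩, 1), ?_⟩
      rw [phi_apply]
      simp
    · refine ⟨(1, ⟨zE A i0 ρ σ, Subgroup.mem_zpowers _⟩), ?_⟩
      rw [phi_apply]
      simp only [OneMemClass.coe_one, map_one, one_mul]
      rfl

/-- the group of the larger automaton is a direct product -/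
noncomputable def equivProd :
    A.grp × Subgroup.zpowers (zE A i0 ρ σ) ≃* (addE A i0 ρ σ).grp :=
  (MonoidHom.ofInjective (phi_injective A i0 hi ρ σ)).trans
    (MulEquiv.subgroupCongr (phi_range A i0 hi ρ σ))

end sum

/-! ### Counting homomorphisms -/

section hom

theorem finite_hom {G P : Type} [Group G] [Group P] [Finite P] (T : Set G) (hT : T.Finite)
    (hgen : Subgroup.closure T = ⊤) : Finite (G →* P) := by
  have := hT.to_subtype
  refine Finite.of_injective (fun f : G →* P => fun t : T => f t) ?_
  intro f g h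
  have h1 : ∀ t ∈ T, f t = g t := fun t ht => congrFun h ⟨t, ht⟩
  exact MonoidHom.eq_of_eqOn_dense hgen h1

/-- homomorphisms from a product to a commutative group -/
def homProd (G H P : Type) [Group G] [Group H] [CommGroup P] :
    (G × H →* P) ≃ (G →* P) × (H →* P) where
  toFun f := (f.comp (MonoidHom.inl G H), f.comp (MonoidHom.inr G H))
  invFun p := MonoidHom.coprod p.1 p.2
  left_inv f := by
    ext x
    simp [MonoidHom.coprod_apply, ← map_mul]
  right_inv p := by
    ext x <;> simp

theorem not_iso {G H : Type} [Group G] [Group H] (T : Set G) (hT : T.Finite)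
    (hgen : Subgroup.closure T = ⊤) (z : H) (hz : ∀ h : H, h ∈ Subgroup.zpowers z) (m : ℕ)
    (hm : 0 < m) (hzm : z ^ m = 1) : ¬ Nonempty (G × H ≃* G × Multiplicative ℤ) := by
  rintro ⟨e⟩
  obtain ⟨p, hmp, hp⟩ := Nat.exists_infinite_primes (m + 1)
  have hpf : Fact p.Prime := ⟨hp⟩
  let P : Type := Multiplicative (ZMod p)
  have hfin : Finite (G →* P) := finite_hom T hT hgen
  have e1 : (G × H →* P) ≃ (G × Multiplicative ℤ →* P) :=
    { toFun := fun f => f.comp e.symm.toMonoidHom
      invFun := fun f => f.comp e.toMonoidHom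
      left_inv := fun f => by ext x; simp
      right_inv := fun f => by ext x; simp }
  have e2 : (G →* P) × (H →* P) ≃ (G →* P) × (Multiplicative ℤ →* P) :=
    ((homProd G H P).symm.trans e1).trans (homProd G (Multiplicative ℤ) P)
  have hH : ∀ f : H →* P, f = 1 := by
    intro f
    have h1 : f z ^ m = 1 := by rw [← map_pow, hzm, map_one]
    have h2 : f z ^ p = 1 := by
      have : Nat.card P = p := by
        change Nat.card (Multiplicative (ZMod p)) = p
        rw [Nat.card_congr Multiplicative.toAdd, Nat.card_zmod]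
      have h3 := pow_card_eq_one' (x := f z)
      rwa [this] at h3
    have h3 : f z = 1 := by
      have hc : Nat.Coprime m p := by
        rw [Nat.coprime_comm, Nat.Prime.coprime_iff_not_dvd hp]
        intro hd
        have := Nat.le_of_dvd hm hd
        omega
      have h4 := orderOf_dvd_of_pow_eq_one h1
      have h5 := orderOf_dvd_of_pow_eq_one h2
      have h6 : orderOf (f z) ∣ 1 := hc.gcd_eq_one ▸ Nat.dvd_gcd h4 h5
      exact orderOf_eq_one_iff.1 (Nat.dvd_one.1 h6)
    ext h
    obtain ⟨k, rfl⟩ := hz h
    simp [map_zpow, h3]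
  have c1 : Nat.card (H →* P) = 1 := by
    have : Subsingleton (H →* P) := ⟨fun a b => (hH a).trans (hH b).symm⟩
    rw [Nat.card_eq_one_iff_unique]
    exact ⟨this, ⟨1⟩⟩
  have c2 : Nat.card (Multiplicative ℤ →* P) = p := by
    have e3 : P ≃ (Multiplicative ℤ →* P) := zpowersHom P
    rw [← Nat.card_congr e3]
    change Nat.card (Multiplicative (ZMod p)) = p
    rw [Nat.card_congr Multiplicative.toAdd, Nat.card_zmod]
  have c3 := Nat.card_congr e2
  rw [Nat.card_prod, Nat.card_prod, c1, c2, mul_one] at c3
  have c4 : 0 < Nat.card (G →* P) := Nat.card_pos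
  have c5 := hp.two_le
  nlinarith

end hom

end Pool.Agent.Q89.IS
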