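import Pool.Agent.Q89.WR3

/-!
The wreath recursions with one word depending on a number, and the equivalence of contraction with
halting.
-/

set_option linter.unusedSimpArgs false
set_option linter.unusedVariables false
set_option linter.unusedSectionVars false

namespace Pool.Agent.Q89.WR

open Equiv Pool.Agent.Helper599.Core

section rec

variable {Q : Type} (M : Sys Q Bool)

/-- the fixed generators -/
abbrev S0 (Q : Type) : Type := Bool ⊕ Option Q

/-- the fixed permutations -/
noncomputable def gam0 : S0 Q → Perm (List (XX M))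
  | .inl j => tau M (Pi.single j 1)
  | .inr k => kap M k

/-- group word for a multiple of a unit vector -/
def zw (j : Bool) (k : ℤ) : List (S0 Q × Bool) :=
  List.replicate k.natAbs (.inl j, decide (0 ≤ k))

/-- group word for a translation -/
def tw (a : Bool → ℤ) : List (S0 Q × Bool) := zw true (a true) ++ zw false (a false)

theorem tau_single_nat (j : Bool) (n : ℕ) :
    tau M (Pi.single j (n : ℤ)) = tau M (Pi.single j 1) ^ n := by
  induction n with
  | zero => simp [tau_zero]
  | succ n ih =>
    rw [pow_succ, ← ih, ← tau_add]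
    congr 1
    funext i
    by_cases h : i = j
    · subst h; simp
    · simp [Pi.single_eq_of_ne h]

theorem val_zw (j : Bool) (k : ℤ) : val (gam0 M) (zw j k) = tau M (Pi.single j k) := by
  unfold zw
  rcases le_or_gt 0 k with h | h
  · have hd : decide (0 ≤ k) = true := by simp [h]
    rw [hd, val_replicate]
    obtain ⟨n, rfl⟩ := Int.eq_ofNat_of_zero_le h
    rw [Int.natAbs_natCast]
    exact (tau_single_nat M j n).symm
  · have hd : decide (0 ≤ k) = false := by simp [h]
    rw [hd, val_replicate_false]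
    obtain ⟨n, hn⟩ := Int.eq_ofNat_of_zero_le (show 0 ≤ -k by omega)
    have hk : k = -(n : ℤ) := by omega
    subst hk
    rw [Int.natAbs_neg, Int.natAbs_natCast, inv_pow]
    have h1 := tau_single_nat M j n
    change (tau M (Pi.single j 1) ^ n)⁻¹ = _
    rw [← h1, ← tau_neg]
    congr 1
    funext i
    by_cases h : i = j
    · subst h; simp
    · simp [Pi.single_eq_of_ne h]

theorem val_tw (a : Bool → ℤ) : val (gam0 M) (tw a) = tau M a := by
  rw [tw, val_append, val_zw, val_zw, ← tau_add]
  congr 1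
  funext i
  cases i <;> simp

theorem sec0 (s : S0 Q) (x : XX M) :
    ∃ (y : XX M) (L : List (S0 Q × Bool)), Sec1 (gam0 M s) x y (val (gam0 M) L) := by
  cases s with
  | inl j =>
    rcases x with ⟨q, r, c, i⟩ | b
    · have h := sec_tau_inl M (Pi.single j 1) q r c i
      exact ⟨_, tw (fun j' => M.rho q r c j' * (((i j' : ℕ) + (Pi.single j 1 : Bool → ℤ) j') /
        M.B)), by rw [val_tw]; exact h⟩
    · exact ⟨_, [], sec_tau_inr M _ b⟩
  | inr k =>
    obtain ⟨y, g, h1, h2⟩ := sec_kap M k x
    rcases h2 with ⟨k', rfl⟩ | ⟨a, _, rfl⟩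
    · refine ⟨y, [(.inr k', true)], ?_⟩
      have : val (gam0 M) [((.inr k' : S0 Q), true)] = kap M k' := by simp [val, gam0]
      rw [this]
      exact h1
    · refine ⟨y, tw a, ?_⟩
      rw [val_tw]
      exact h1

/-- images of letters -/
noncomputable def out0 (s : S0 Q) (x : XX M) : XX M := (sec0 M s x).choose

/-- sections -/
noncomputable def wd0 (s : S0 Q) (x : XX M) : List (S0 Q × Bool) := (sec0 M s x).choose_spec.choose

theorem sec0_spec (s : S0 Q) (x : XX M) :
    Sec1 (gam0 M s) x (out0 M s x) (val (gam0 M) (wd0 M s x)) :=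
  (sec0 M s x).choose_spec.choose_spec

theorem out0_injective (s : S0 Q) : Function.Injective (out0 M s) := by
  intro x x' h
  have h1 := sec0_spec M s x
  have h2 := sec0_spec M s x'
  rw [← h] at h2
  set g := val (gam0 M) (wd0 M s x)
  set g' := val (gam0 M) (wd0 M s x')
  have h3 := h1 []
  have h4 := h2 (g'⁻¹ (g []))
  rw [app_inv] at h4
  have h5 := (gam0 M s).injective (h3.trans h4.symm)
  exact (List.cons.inj h5).1

variable [Finite Q]

/-- permutation of the letters -/
noncomputable def perm0 (s : S0 Q) : Perm (XX M) :=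
  Equiv.ofBijective (out0 M s) (Finite.injective_iff_bijective.1 (out0_injective M s))

theorem perm0_spec (s : S0 Q) (x : XX M) :
    Sec1 (gam0 M s) x (perm0 M s x) (val (gam0 M) (wd0 M s x)) := sec0_spec M s x

/-- all generators -/
abbrev S1 (Q : Type) : Type := S0 Q ⊕ Unit

/-- inclusion of words -/
def inc (L : List (S0 Q × Bool)) : List (S1 Q × Bool) := L.map (fun p => (.inl p.1, p.2))

/-- the word depending on the number -/
def wN (q0 : Q) (N : ℕ) : List (S1 Q × Bool) :=
  (.inl (.inr none), true) :: (List.replicate N (.inl (.inl true), false) ++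
    (.inl (.inr (some q0)), true) :: List.replicate N (.inl (.inl true), true))

/-- the recursion -/
noncomputable def RN (q0 : Q) (N : ℕ) : Rec (S1 Q) (XX M) where
  perm s := match s with
    | .inl s => perm0 M s
    | .inr _ => 1
  word s x := match s with
    | .inl s => inc (wd0 M s x)
    | .inr _ => match x with
      | .inl _ => []
      | .inr true => [(.inr (), true)]
      | .inr false => wN q0 N

/-- initial counters -/
def iniN (N : ℕ) : Bool → ℕ := fun j => if j then N else 0

/-- the value of the word -/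
noncomputable def wv (q0 : Q) (N : ℕ) : Perm (List (XX M)) :=
  ext (M.W (some q0) (Sys.zz (iniN N)))

/-- the permutations -/
noncomputable def gamN (q0 : Q) (N : ℕ) : S1 Q → Perm (List (XX M))
  | .inl s => gam0 M s
  | .inr _ => Z (wv M q0 N)

theorem val_inc (q0 : Q) (N : ℕ) (L : List (S0 Q × Bool)) :
    val (gamN M q0 N) (inc L) = val (gam0 M) L := by
  induction L with
  | nil => rfl
  | cons l L ih =>
    have : inc (l :: L) = (.inl l.1, l.2) :: inc L := rfl
    rw [this, val, val, ih]
    rfl

theorem iniN_eq (N : ℕ) : Sys.zz (iniN N) = Pi.single true (N : ℤ) := by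
  funext j
  cases j <;> simp [Sys.zz, iniN]

theorem val_wN (q0 : Q) (N : ℕ) : val (gamN M q0 N) (wN q0 N) = wv M q0 N := by
  unfold wN
  rw [val, val_append, val, val_replicate, val_replicate_false]
  simp only [gamN, gam0, if_true]
  have h1 := tau_single_nat M true N
  have h2 : (tau M (Pi.single true (1 : ℤ)))⁻¹ ^ N = (tau M (Pi.single true (N : ℤ)))⁻¹ := by
    rw [h1, inv_pow]
  rw [h2, ← h1, wv, Sys.W, Sys.A, map_mul, map_mul, map_mul, map_inv, iniN_eq]
  simp only [kap, tau, mul_assoc]

theorem realN (q0 : Q) (N : ℕ) : Real (RN M q0 N) (gamN M q0 N) where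
  nil s := by
    rcases s with (j | k) | u
    · change ext (M.TP _) [] = []
      rw [ext_apply]
      simp [pre, post, M.TP_apply, M.T_nil]
    · cases k with
      | none =>
        change ext M.VP [] = []
        rw [ext_apply]
        simp [pre, post, M.VP_apply, M.V_nil]
      | some q =>
        change ext (M.UP (some q)) [] = []
        rw [ext_apply]
        simp [pre, post, M.UP_apply, M.U_nil]
    · rfl
  cons s x := by
    rcases s with s | u
    · change Sec1 (gam0 M s) x (perm0 M s x) (val (gamN M q0 N) (inc (wd0 M s x)))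
      rw [val_inc]
      exact perm0_spec M s x
    · rcases x with a | b
      · exact Z_sec_inl _ a
      · cases b
        · change Sec1 (Z (wv M q0 N)) (.inr false) (.inr false) (val (gamN M q0 N) (wN q0 N))
          rw [val_wN]
          exact Z_sec_false _
        · change Sec1 (Z (wv M q0 N)) (.inr true) (.inr true)
            (val (gamN M q0 N) [(.inr (), true)])
          have : val (gamN M q0 N) [((.inr () : S1 Q), true)] = Z (wv M q0 N) := by
            simp [val, gamN]
          rw [this]
          exact Z_sec_true _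

/-- type of a letter -/
def ty : XX M → Option Bool
  | .inl _ => none
  | .inr b => some b

/-- properties of the sections -/
def Tp (w : Perm (List (XX M))) : Option Bool → Perm (List (XX M)) → Prop
  | none, g => ∃ r, Fm M r g
  | some true, g => ∃ e : ℤ, g = Z (w ^ e)
  | some false, g => ∃ e : ℤ, g = w ^ e

theorem Tp.mul {w : Perm (List (XX M))} {t : Option Bool} {f g : Perm (List (XX M))}
    (hf : Tp M w t f) (hg : Tp M w t g) : Tp M w t (f * g) := by
  rcases t with _ | _ | _
  · obtain ⟨r, hr⟩ := hf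
    obtain ⟨s, hs⟩ := hg
    exact ⟨r + s, hr.mul M hs⟩
  · obtain ⟨a, rfl⟩ := hf
    obtain ⟨b, rfl⟩ := hg
    exact ⟨a + b, (zpow_add w a b).symm⟩
  · obtain ⟨a, rfl⟩ := hf
    obtain ⟨b, rfl⟩ := hg
    exact ⟨a + b, by rw [zpow_add, map_mul]⟩

theorem Tp.inv {w : Perm (List (XX M))} {t : Option Bool} {f : Perm (List (XX M))}
    (hf : Tp M w t f) : Tp M w t f⁻¹ := by
  rcases t with _ | _ | _
  · obtain ⟨r, hr⟩ := hf
    exact ⟨r, hr.inv M⟩
  · obtain ⟨a, rfl⟩ := hf
    exact ⟨-a, (zpow_neg w a).symm⟩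
  · obtain ⟨a, rfl⟩ := hf
    exact ⟨-a, by rw [zpow_neg, map_inv]⟩

theorem Tp.one (w : Perm (List (XX M))) (t : Option Bool) : Tp M w t 1 := by
  rcases t with _ | _ | _
  · exact ⟨0, 0, (tau_zero M).symm⟩
  · exact ⟨0, (zpow_zero w).symm⟩
  · exact ⟨0, by rw [zpow_zero, map_one]⟩

theorem gam0_inr (s : S0 Q) (b : Bool) : Sec1 (gam0 M s) (.inr b) (.inr b) 1 := by
  cases s with
  | inl j => exact sec_tau_inr M _ b
  | inr k => exact sec_kap_inr M k b

theorem gam0_Fm (s : S0 Q) : Fm M 1 (gam0 M s) := by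
  cases s with
  | inl j => exact Or.inl (Fm_tau M _)
  | inr k => exact Fm_kap M k

theorem letter_ty (hB : 2 ≤ M.B) (q0 : Q) (N : ℕ) (s : S1 Q) (x : XX M) :
    ty M ((RN M q0 N).perm s x) = ty M x ∧
      Tp M (wv M q0 N) (ty M x) (val (gamN M q0 N) ((RN M q0 N).word s x)) := by
  rcases s with s | u
  · have h1 := perm0_spec M s x
    have h2 : val (gamN M q0 N) ((RN M q0 N).word (.inl s) x) = val (gam0 M) (wd0 M s x) :=
      val_inc M q0 N _
    rw [h2]
    change ty M (perm0 M s x) = ty M x ∧ _
    rcases x with a | b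
    · constructor
      · cases hy : perm0 M s (.inl a) with
        | inl a' => rfl
        | inr b =>
          exfalso
          have h3 := sec0_spec M s (.inr b)
          obtain ⟨e1, _⟩ := h3.unique (gam0_inr M s b)
          have h4 : out0 M s (.inl a) = out0 M s (.inr b) := by
            rw [e1]; exact hy
          have := out0_injective M s h4
          simp at this
      · obtain ⟨y, g, h3, h4⟩ := Fm.closed M hB 1 _ (gam0_Fm M s) (.inl a)
        obtain ⟨_, e⟩ := h3.unique h1
        rw [← e]
        exact ⟨1, h4⟩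
    · obtain ⟨e1, e2⟩ := h1.unique (gam0_inr M s b)
      rw [e1, e2]
      exact ⟨rfl, Tp.one M _ _⟩
  · refine ⟨rfl, ?_⟩
    rcases x with a | b
    · exact Tp.one M _ _
    · cases b
      · change Tp M (wv M q0 N) (some false) (val (gamN M q0 N) (wN q0 N))
        rw [val_wN]
        exact ⟨1, (zpow_one _).symm⟩
      · change Tp M (wv M q0 N) (some true) (val (gamN M q0 N) [(.inr (), true)])
        have : val (gamN M q0 N) [((.inr () : S1 Q), true)] = Z (wv M q0 N) := by
          simp [val, gamN]
        rw [this]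
        exact ⟨1, by rw [zpow_one]⟩

theorem word_ty (hB : 2 ≤ M.B) (q0 : Q) (N : ℕ) (L : List (S1 Q × Bool)) (x : XX M) :
    ty M ((RN M q0 N).wPerm L x) = ty M x ∧
      Tp M (wv M q0 N) (ty M x) (val (gamN M q0 N) ((RN M q0 N).wSec L x)) := by
  induction L with
  | nil => exact ⟨rfl, Tp.one M _ _⟩
  | cons l L ih =>
    obtain ⟨ih1, ih2⟩ := ih
    obtain ⟨s, b⟩ := l
    cases b
    · have h1 := letter_ty M hB q0 N s
        (((RN M q0 N).perm s)⁻¹ ((RN M q0 N).wPerm L x))
      rw [app_inv, ih1] at h1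
      simp only [Rec.wPerm, Rec.wSec, Rec.lPerm, Rec.lSec, Bool.false_eq_true, if_false,
        val_append, val_inv, Perm.mul_apply]
      refine ⟨h1.1.symm, ?_⟩
      have h2 := h1.2
      rw [← h1.1] at h2
      exact h2.inv.mul M ih2
    · have h1 := letter_ty M hB q0 N s ((RN M q0 N).wPerm L x)
      rw [ih1] at h1
      simp only [Rec.wPerm, Rec.wSec, Rec.lPerm, Rec.lSec, if_true, val_append, Perm.mul_apply]
      exact ⟨h1.1, h1.2.mul M ih2⟩

theorem w_Fm (q0 : Q) (N : ℕ) (e : ℤ) : ∃ r, Fm M r (wv M q0 N ^ e) := by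
  have h1 : Fm M 2 (wv M q0 N) := by
    have h : wv M q0 N = kap M none * ((tau M (Sys.zz (iniN N)))⁻¹ * kap M (some q0) *
        tau M (Sys.zz (iniN N))) := by
      rw [wv, Sys.W, Sys.A, map_mul, map_mul, map_mul, map_inv]
      rfl
    rw [h, ← tau_neg]
    exact (Fm_kap M none).mul M (((Fm_tau M _).mul M (Fm_kap M (some q0))).mul M (Fm_tau M _))
  have h2 : ∀ n : ℕ, ∃ r, Fm M r (wv M q0 N ^ n) := by
    intro n
    induction n with
    | zero => exact ⟨0, 0, by rw [pow_zero, tau_zero]⟩
    | succ n ih =>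
      obtain ⟨r, hr⟩ := ih
      exact ⟨r + 2, by rw [pow_succ]; exact hr.mul M h1⟩
  rcases le_or_gt 0 e with he | he
  · obtain ⟨n, rfl⟩ := Int.eq_ofNat_of_zero_le he
    obtain ⟨r, hr⟩ := h2 n
    exact ⟨r, by simpa using hr⟩
  · obtain ⟨n, hn⟩ := Int.eq_ofNat_of_zero_le (show 0 ≤ -e by omega)
    obtain ⟨r, hr⟩ := h2 n
    refine ⟨r, ?_⟩
    have : e = -(n : ℤ) := by omega
    rw [this, zpow_neg, zpow_natCast]
    exact hr.inv M

theorem contracting_of_halts (hB : 2 ≤ M.B) (hl : 0 < M.l) (q0 : Q) (N : ℕ)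
    (h : M.Halts (some q0) (iniN N)) : (RN M q0 N).Contracting := by
  obtain ⟨m, hm, hW⟩ := M.finite_of_halts h
  have hwm : wv M q0 N ^ m = 1 := by
    rw [wv, ← map_pow, hW, map_one]
  refine (realN M q0 N).contracting (PP_closed M (wv M q0 N) hB (w_Fm M q0 N))
    (PP_finite M (wv M q0 N) hB hl (w_Fm M q0 N) m hm hwm) ?_
  intro L
  apply Lv.one_of (PP_closed M (wv M q0 N) hB (w_Fm M q0 N))
  intro x
  refine ⟨_, _, (realN M q0 N).sec1 L x, ?_⟩
  obtain ⟨_, h2⟩ := word_ty M hB q0 N L x
  rcases hx : ty M x with _ | _ | _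
  · rw [hx] at h2
    obtain ⟨r, hr⟩ := h2
    obtain ⟨n, hn⟩ := G0_ev M hB hl r _ hr
    exact ⟨n, hn.mono (fun f hf => Or.inl hf)⟩
  · rw [hx] at h2
    obtain ⟨e, he⟩ := h2
    exact ⟨0, Or.inr (Or.inl ⟨e, by rw [he]; exact IsSec.refl _⟩)⟩
  · rw [hx] at h2
    obtain ⟨e, he⟩ := h2
    exact ⟨0, Or.inr (Or.inr ⟨e, he⟩)⟩

theorem sec_replicate (q0 : Q) (N : ℕ) (e : ℕ) (n : ℕ) (L : List (S1 Q × Bool))
    (hL : val (gamN M q0 N) L = Z (wv M q0 N ^ e)) :
    val (gamN M q0 N) ((RN M q0 N).sec L (List.replicate n (.inr true))) =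
      Z (wv M q0 N ^ e) := by
  induction n generalizing L with
  | zero => exact hL
  | succ n ih =>
    rw [List.replicate_succ]
    apply ih
    have h1 := (realN M q0 N).sec1 L (.inr true)
    rw [hL] at h1
    exact (h1.unique (Z_sec_true _)).2

theorem halts_of_contracting (hl : 0 < M.l) (q0 : Q) (N : ℕ)
    (h : (RN M q0 N).Contracting) : M.Halts (some q0) (iniN N) := by
  classical
  obtain ⟨F, hF⟩ := h
  have key : ∀ e : ℕ, Z (wv M q0 N ^ e) ∈ F.image (val (gamN M q0 N)) := by
    intro e
    have hL : val (gamN M q0 N) (List.replicate e ((.inr () : S1 Q), true)) =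
        Z (wv M q0 N ^ e) := by
      rw [val_replicate, map_pow]
      rfl
    obtain ⟨n, hn⟩ := hF (List.replicate e ((.inr () : S1 Q), true))
    obtain ⟨K, hK, hact⟩ := hn (List.replicate n (.inr true)) (by simp)
    rw [(realN M q0 N).act_eq, (realN M q0 N).act_eq, sec_replicate M q0 N e n _ hL] at hact
    rw [DFunLike.coe_fn_eq.1 hact]
    exact Finset.mem_image_of_mem _ hK
  have hninj : ¬ Function.Injective (fun e : ℕ => Z (wv M q0 N ^ e)) := by
    intro hinj
    have h1 : (Set.range (fun e : ℕ => Z (wv M q0 N ^ e))).Finite := by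
      refine (Finset.finite_toSet (F.image (val (gamN M q0 N)))).subset ?_
      rintro _ ⟨e, rfl⟩
      exact key e
    exact Set.infinite_range_of_injective hinj h1
  unfold Function.Injective at hninj
  push Not at hninj
  obtain ⟨a, b, hab, hne⟩ := hninj
  have main : ∀ a b : ℕ, a < b → Z (wv M q0 N ^ a) = Z (wv M q0 N ^ b) →
      M.Halts (some q0) (iniN N) := by
    intro a b hlt hab
    have h1 : Z (wv M q0 N ^ (b - a)) = 1 := by
      have h2 : b = a + (b - a) := by omega
      rw [h2, pow_add, map_mul] at hab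
      exact (mul_eq_left.1 hab.symm)
    have h3 := Z_inj _ h1
    rw [wv, ← map_pow] at h3
    have h4 := ext_inj _ h3
    exact M.halts_of_finite hl (b - a) (some q0) (iniN N) (by omega) h4
  rcases lt_or_gt_of_ne hne with hlt | hlt
  · exact main a b hlt hab
  · exact main b a hlt hab.symm

end rec

end Pool.Agent.Q89.WR
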