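import Pool.Agent.Q89.IS1
import Pool.Agent.Q89.WR4

/-!
The automata with group `G0 × ⟨z⟩`, where `z` has finite order if and only if the machine stops.
-/

set_option linter.unusedSimpArgs false
set_option linter.unusedVariables false
set_option linter.unusedSectionVars false

namespace Pool.Agent.Q89.IS

open Equiv Pool.Agent.Helper599.Core Pool.Agent.Q89.WR

/-- residues as letters -/
def fk (N k : ℕ) : Fin (2 * N + 2) := ⟨k % (2 * N + 2), Nat.mod_lt _ (by omega)⟩

theorem fk_zero (N : ℕ) : fk N 0 = 0 := rfl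

theorem fk_full (N : ℕ) : fk N (2 * N + 2) = 0 := by
  apply Fin.ext
  simp [fk]

theorem fk_val (N : ℕ) (j : Fin (2 * N + 2)) : fk N j = j := by
  apply Fin.ext
  simp only [fk]
  exact Nat.mod_eq_of_lt j.2

theorem rot_fk (N k : ℕ) : finRotate (2 * N + 2) (fk N k) = fk N (k + 1) := by
  rw [finRotate_apply]
  apply Fin.ext
  simp [fk, Fin.val_add, Nat.add_mod]

section st

variable {Q : Type} (M : Sys Q Bool)

/-- the states of the fixed automaton -/
abbrev St (Q : Type) : Type := {a : Bool → ℤ // Sm 1 a} ⊕ (Unit ⊕ Option Q)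

/-- their permutations -/
noncomputable def g0 : St Q → Perm (List M.X)
  | .inl a => M.TP a
  | .inr (.inl _) => M.VP
  | .inr (.inr o) => M.UP o

theorem sec_g0 (hB : 2 ≤ M.B) (s : St Q) (x : M.X) :
    ∃ y s', Sec1 (g0 M s) x y (g0 M s') := by
  obtain ⟨q, r, c, i⟩ := x
  have one : g0 M (.inr (.inr none)) = 1 := M.UP_none
  rcases s with a | u | o
  · have h : Sm 1 (fun j => M.rho q r c j * (((i j : ℕ) + a.1 j) / M.B)) :=
      rho_div_small M hB a.2 q r c i
    exact ⟨_, .inl ⟨_, h⟩, fun _ => rfl⟩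
  · by_cases hi : ∀ j, (i j : ℕ) = 0
    · by_cases hc : (c : ℕ) = 0
      · refine ⟨(q, r, M.neg c, i), .inr (.inl ()), ?_⟩
        intro w
        change M.V _ = _ :: M.V w
        simp only [Sys.V, if_pos hi, if_pos hc]
      · refine ⟨(q, r, M.neg c, i), .inl ⟨M.sig q r c, sig_small M q r c⟩, ?_⟩
        intro w
        change M.V _ = _ :: M.T _ w
        simp only [Sys.V, if_pos hi, if_neg hc]
    · refine ⟨(q, r, c, i), .inr (.inr none), ?_⟩
      rw [one]
      intro w
      change M.V _ = _ :: w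
      simp only [Sys.V, if_neg hi]
  · cases o with
    | none =>
      refine ⟨(q, r, c, i), .inr (.inr none), ?_⟩
      rw [one]
      exact Sec1.one _
    | some q' =>
      by_cases hi : q = q' ∧ i = r
      · by_cases hc : (c : ℕ) = M.l
        · refine ⟨(q, r, c.rev, i), .inr (.inr (M.nxt q r)), ?_⟩
          intro w
          change M.U _ _ = _ :: M.U _ w
          simp only [Sys.U, if_pos hi, if_pos hc]
        · refine ⟨(q, r, c.rev, i), .inr (.inr none), ?_⟩
          rw [one]
          intro w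
          change M.U _ _ = _ :: w
          simp only [Sys.U, if_pos hi, if_neg hc]
      · refine ⟨(q, r, c, i), .inr (.inr none), ?_⟩
        rw [one]
        intro w
        change M.U _ _ = _ :: w
        simp only [Sys.U, if_neg hi]

theorem Sec1_inj {X : Type} {f : Perm (List X)} {out : X → X} {g : X → Perm (List X)}
    (h : ∀ x, Sec1 f x (out x) (g x)) : Function.Injective out := by
  intro x x' he
  have h1 := h x
  have h2 := h x'
  rw [← he] at h2
  have h3 := h1 []
  have h4 := h2 ((g x')⁻¹ (g x []))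
  rw [app_inv] at h4
  have h5 := f.injective (h3.trans h4.symm)
  exact (List.cons.inj h5).1

variable [Finite Q] (hB : 2 ≤ M.B)

/-- The fixed automaton. -/
noncomputable def A0 : Atm (St Q) M.X where
  next s x := (sec_g0 M hB s x).choose_spec.choose
  out s := Equiv.ofBijective (fun x => (sec_g0 M hB s x).choose)
    (Finite.injective_iff_bijective.1 (Sec1_inj (f := g0 M s)
      (g := fun x => g0 M (sec_g0 M hB s x).choose_spec.choose)
      (fun x => (sec_g0 M hB s x).choose_spec.choose_spec)))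

theorem A0_gen (s : St Q) : (A0 M hB).gen s = g0 M s := by
  apply Atm.gen_unique
  · intro s
    rcases s with a | u | o
    · rfl
    · rfl
    · exact M.U_nil o
  · intro s x
    exact (sec_g0 M hB s x).choose_spec.choose_spec

/-- the identity state -/
abbrev i0 (Q : Type) : St Q := .inr (.inr none)

theorem A0_i0 : (A0 M hB).gen (i0 Q) = 1 := by
  rw [A0_gen]; exact M.UP_none

/-- small unit vectors -/
def e1 : {a : Bool → ℤ // Sm 1 a} := ⟨Pi.single true 1, by
  intro j; cases j <;> simp⟩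

/-- negative small unit vector -/
def e2 : {a : Bool → ℤ // Sm 1 a} := ⟨-Pi.single true 1, by
  intro j; cases j <;> simp⟩

/-- the sequence of states -/
def sq (q0 : Q) (N k : ℕ) : St Q :=
  if k < N then .inl e1 else if k = N then .inr (.inr (some q0))
    else if k ≤ 2 * N then .inl e2 else .inr (.inl ())

/-- partial products -/
noncomputable def Pk (q0 : Q) (N : ℕ) : ℕ → Perm (List M.X)
  | 0 => 1
  | k + 1 => g0 M (sq q0 N k) * Pk q0 N k

theorem Pk_1 (q0 : Q) (N k : ℕ) (hk : k ≤ N) : Pk M q0 N k = M.TP (Pi.single true 1) ^ k := by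
  induction k with
  | zero => rfl
  | succ k ih =>
    rw [Pk, ih (by omega), pow_succ']
    have : sq q0 N k = .inl e1 := by unfold sq; rw [if_pos (by omega)]
    rw [this]
    rfl

theorem Pk_2 (q0 : Q) (N k : ℕ) (hk : k ≤ N) : Pk M q0 N (N + 1 + k) =
    M.TP (-Pi.single true 1) ^ k * M.UP (some q0) * M.TP (Pi.single true 1) ^ N := by
  induction k with
  | zero =>
    rw [Nat.add_zero, Pk, Pk_1 M q0 N N le_rfl, pow_zero, one_mul]
    have : sq q0 N N = .inr (.inr (some q0)) := by
      unfold sq; rw [if_neg (by omega), if_pos rfl]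
    rw [this]
    rfl
  | succ k ih =>
    rw [← Nat.add_assoc, Pk, ih (by omega), pow_succ']
    have : sq q0 N (N + 1 + k) = .inl e2 := by
      unfold sq; rw [if_neg (by omega), if_neg (by omega), if_pos (by omega)]
    rw [this]
    change M.TP (-Pi.single true 1) * _ = _
    group

theorem TP_single (n : ℕ) : M.TP (Pi.single true (n : ℤ)) = M.TP (Pi.single true 1) ^ n := by
  induction n with
  | zero => simp [M.TP_zero]
  | succ n ih =>
    rw [pow_succ, ← ih, ← M.TP_add]
    congr 1
    funext i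
    cases i <;> simp

theorem Pk_last (q0 : Q) (N : ℕ) :
    Pk M q0 N (2 * N + 2) = M.W (some q0) (Sys.zz (iniN N)) := by
  have h1 : 2 * N + 2 = (N + 1 + N) + 1 := by ring
  rw [h1, Pk, Pk_2 M q0 N N le_rfl]
  have : sq q0 N (N + 1 + N) = .inr (.inl ()) := by
    unfold sq; rw [if_neg (by omega), if_neg (by omega), if_neg (by omega)]
  rw [this, Sys.W, Sys.A, iniN_eq, TP_single, M.TP_neg, inv_pow]
  rfl

/-- the automaton depending on the number -/
noncomputable def AN (q0 : Q) (N : ℕ) : Atm (St Q ⊕ Unit) (M.X ⊕ Fin (2 * N + 2)) :=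
  addE (A0 M hB) (i0 Q) (finRotate (2 * N + 2)) (fun j => some (sq q0 N j))

/-- its new permutation -/
noncomputable def zN (q0 : Q) (N : ℕ) : Perm (List (M.X ⊕ Fin (2 * N + 2))) :=
  zE (A0 M hB) (i0 Q) (finRotate (2 * N + 2)) (fun j => some (sq q0 N j))

theorem zN_pow (q0 : Q) (N k : ℕ) (hk : k ≤ 2 * N + 2) :
    Sec1 (zN M hB q0 N ^ k) (.inr 0) (.inr (fk N k)) (ext (Pk M q0 N k)) := by
  induction k with
  | zero =>
    rw [pow_zero, fk_zero, Pk, map_one]
    exact Sec1.one _
  | succ k ih =>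
    rw [pow_succ', Pk, map_mul]
    refine Sec1.mul ?_ (ih (by omega))
    have h1 := zE_inr_some (A0 M hB) (i0 Q) (A0_i0 M hB) (finRotate (2 * N + 2))
      (fun j => some (sq q0 N j)) (fk N k) (sq q0 N k) (by
        simp only [fk]
        rw [Nat.mod_eq_of_lt (by omega)])
    rw [A0_gen, rot_fk] at h1
    exact h1

theorem zN_full (q0 : Q) (N : ℕ) :
    Sec1 (zN M hB q0 N ^ (2 * N + 2)) (.inr 0) (.inr 0)
      (ext (M.W (some q0) (Sys.zz (iniN N)))) := by
  have h := zN_pow M hB q0 N (2 * N + 2) le_rfl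
  rw [Pk_last, fk_full] at h
  exact h

theorem Sec1.pow {X : Type} {f g : Perm (List X)} {x : X} (h : Sec1 f x x g) (m : ℕ) :
    Sec1 (f ^ m) x x (g ^ m) := by
  induction m with
  | zero => exact Sec1.one x
  | succ m ih => rw [pow_succ, pow_succ]; exact ih.mul h

theorem finite_W_of_z (q0 : Q) (N m : ℕ) (hm : zN M hB q0 N ^ m = 1) :
    M.W (some q0) (Sys.zz (iniN N)) ^ m = 1 := by
  have h1 := Sec1.pow (zN_full M hB q0 N) m
  rw [← pow_mul, mul_comm (2 * N + 2) m, pow_mul, hm, one_pow, ← map_pow] at h1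
  exact ext_inj _ (h1.unique (Sec1.one _)).2

theorem finite_z_of_W (q0 : Q) (N m : ℕ)
    (hm : M.W (some q0) (Sys.zz (iniN N)) ^ m = 1) :
    zN M hB q0 N ^ ((2 * N + 2) * m) = 1 := by
  have h1 := Sec1.pow (zN_full M hB q0 N) m
  rw [← pow_mul, ← map_pow, hm, map_one] at h1
  apply Equiv.ext
  intro w
  rw [Perm.one_apply]
  by_cases hw : ∀ j u, w ≠ .inr j :: u
  · have h2 : zN M hB q0 N ^ ((2 * N + 2) * m) ∈ Hn M.X (Fin (2 * N + 2)) :=
      pow_mem (zE_mem (A0 M hB) (i0 Q) (A0_i0 M hB) _ _) _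
    exact h2 w hw
  · push Not at hw
    obtain ⟨j, u, rfl⟩ := hw
    have h3 := zN_pow M hB q0 N (j : ℕ) (by omega)
    rw [fk_val] at h3
    have h5 := h3 ((ext (Pk M q0 N j))⁻¹ u)
    rw [app_inv] at h5
    rw [← h5, ← Perm.mul_apply, ← pow_add, add_comm ((2 * N + 2) * m) (j : ℕ), pow_add,
      Perm.mul_apply, h1]
    rfl

/-- the fixed comparison automaton -/
noncomputable def BB : Atm (St Q ⊕ Unit) (M.X ⊕ Bool) :=
  addE (A0 M hB) (i0 Q) Equiv.boolNot (fun b => if b then none else some (i0 Q))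

/-- its new permutation -/
noncomputable def zB : Perm (List (M.X ⊕ Bool)) :=
  zE (A0 M hB) (i0 Q) Equiv.boolNot (fun b => if b then none else some (i0 Q))

theorem zB_false : Sec1 (zB M hB) (.inr false) (.inr true) 1 := by
  have h1 := zE_inr_some (A0 M hB) (i0 Q) (A0_i0 M hB) Equiv.boolNot
    (fun b => if b then none else some (i0 Q)) false (i0 Q) rfl
  rw [A0_i0, map_one] at h1
  exact h1

theorem zB_true : Sec1 (zB M hB) (.inr true) (.inr false) (zB M hB) :=
  zE_inr_none (A0 M hB) (i0 Q) Equiv.boolNot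
    (fun b => if b then none else some (i0 Q)) true rfl

theorem zB_sq : Sec1 (zB M hB ^ 2) (.inr false) (.inr false) (zB M hB) := by
  rw [pow_two]
  have := (zB_true M hB).mul (zB_false M hB)
  rwa [mul_one] at this

theorem zB_infinite (m : ℕ) (hm : zB M hB ^ m = 1) : m = 0 := by
  induction m using Nat.strong_induction_on with
  | _ m ih =>
    rcases Nat.even_or_odd' m with ⟨k, rfl | rfl⟩
    · have h1 := Sec1.pow (zB_sq M hB) k
      rw [← pow_mul, hm] at h1
      have h2 := (h1.unique (Sec1.one _)).2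
      by_contra hne
      have := ih k (by omega) h2
      omega
    · exfalso
      have h1 := Sec1.pow (zB_sq M hB) k
      rw [← pow_mul] at h1
      have h2 := (zB_false M hB).mul h1
      rw [← pow_succ', hm] at h2
      have h3 := (h2.unique (Sec1.one _)).1
      simp at h3

theorem zpowers_equiv {G : Type} [Group G] (z : G) (hz : ∀ m : ℕ, z ^ m = 1 → m = 0) :
    Nonempty (Subgroup.zpowers z ≃* Multiplicative ℤ) := by
  have hinj : Function.Injective (zpowersHom G z) := by
    rw [injective_iff_map_eq_one]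
    intro a ha
    rw [zpowersHom_apply] at ha
    have h1 : z ^ (Multiplicative.toAdd a).natAbs = 1 := by
      rcases Int.natAbs_eq (Multiplicative.toAdd a) with h | h
      · rw [h, zpow_natCast] at ha; exact ha
      · rw [h, zpow_neg, zpow_natCast, inv_eq_one] at ha; exact ha
    have h2 := hz _ h1
    have h3 : Multiplicative.toAdd a = 0 := Int.natAbs_eq_zero.1 h2
    exact h3
  exact ⟨((MonoidHom.ofInjective hinj).trans
    (MulEquiv.subgroupCongr (Subgroup.range_zpowersHom z))).symm⟩

theorem iso_of_not_halts (hl : 0 < M.l) (q0 : Q) (N : ℕ)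
    (h : ¬ M.Halts (some q0) (iniN N)) : Nonempty ((AN M hB q0 N).grp ≃* (BB M hB).grp) := by
  have h1 : ∀ m : ℕ, zN M hB q0 N ^ m = 1 → m = 0 := by
    intro m hm
    by_contra hne
    exact h (M.halts_of_finite hl m (some q0) (iniN N) (Nat.pos_of_ne_zero hne)
      (finite_W_of_z M hB q0 N m hm))
  obtain ⟨e1⟩ := zpowers_equiv _ h1
  obtain ⟨e2⟩ := zpowers_equiv _ (zB_infinite M hB)
  have a1 := equivProd (A0 M hB) (i0 Q) (A0_i0 M hB) (finRotate (2 * N + 2))
    (fun j => some (sq q0 N j))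
  have a2 := equivProd (A0 M hB) (i0 Q) (A0_i0 M hB) Equiv.boolNot
    (fun b => if b then none else some (i0 Q))
  exact ⟨(a1.symm.trans (MulEquiv.prodCongr (MulEquiv.refl _) (e1.trans e2.symm))).trans a2⟩

theorem not_iso_of_halts (q0 : Q) (N : ℕ)
    (h : M.Halts (some q0) (iniN N)) : ¬ Nonempty ((AN M hB q0 N).grp ≃* (BB M hB).grp) := by
  rintro ⟨e⟩
  obtain ⟨m, hm, hW⟩ := M.finite_of_halts h
  have hz := finite_z_of_W M hB q0 N m hW
  obtain ⟨e2⟩ := zpowers_equiv _ (zB_infinite M hB)
  have a1 := equivProd (A0 M hB) (i0 Q) (A0_i0 M hB) (finRotate (2 * N + 2))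
    (fun j => some (sq q0 N j))
  have a2 := equivProd (A0 M hB) (i0 Q) (A0_i0 M hB) Equiv.boolNot
    (fun b => if b then none else some (i0 Q))
  have e3 := ((a1.trans e).trans a2.symm).trans
    (MulEquiv.prodCongr (MulEquiv.refl _) e2)
  have hfin : Finite {a : Bool → ℤ // Sm 1 a} := (Sm_finite 1).to_subtype
  have hgen : Subgroup.closure (Set.range fun s : St Q =>
      (⟨(A0 M hB).gen s, Subgroup.subset_closure ⟨s, rfl⟩⟩ : (A0 M hB).grp)) = ⊤ := by
    rw [eq_top_iff]
    rintro ⟨g, hg⟩ -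
    have h1 : g ∈ (Subgroup.closure (Set.range fun s : St Q =>
      (⟨(A0 M hB).gen s, Subgroup.subset_closure ⟨s, rfl⟩⟩ : (A0 M hB).grp))).map
        (A0 M hB).grp.subtype := by
      rw [MonoidHom.map_closure]
      have h2 : ((A0 M hB).grp.subtype '' (Set.range fun s : St Q =>
        (⟨(A0 M hB).gen s, Subgroup.subset_closure ⟨s, rfl⟩⟩ : (A0 M hB).grp))) =
          Set.range (A0 M hB).gen := by
        rw [← Set.range_comp]
        rfl
      rw [h2]
      exact hg
    obtain ⟨g', hg', he⟩ := h1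
    have : g' = ⟨g, hg⟩ := Subtype.ext he
    rwa [this] at hg'
  refine not_iso (G := (A0 M hB).grp) (H := Subgroup.zpowers (zN M hB q0 N)) _
    (Set.finite_range _) hgen ⟨zN M hB q0 N, Subgroup.mem_zpowers _⟩ ?_
    ((2 * N + 2) * m) (by positivity) ?_ ⟨e3⟩
  · rintro ⟨g, hg⟩
    obtain ⟨k, hk⟩ := hg
    exact ⟨k, Subtype.ext hk⟩
  · exact Subtype.ext hz

end st

end Pool.Agent.Q89.IS
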