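import Pool.Agent.Q89.WR4
import Pool.Agent.Helper599.Source2

/-!
Relabelling generators and letters, coding by tables, and the undecidability of contraction.
-/

set_option linter.unusedSimpArgs false
set_option linter.unusedVariables false
set_option linter.unusedSectionVars false

namespace Pool.Agent.Q89.WR

open Equiv Pool.Agent.Helper599.Core

section map

variable {S S' X X' : Type}

/-- relabelling of words -/
def mapW (e : S ≃ S') (L : List (S × Bool)) : List (S' × Bool) := L.map fun p => (e p.1, p.2)

/-- relabelling -/
def Rec.map (R : Rec S X) (e : S ≃ S') (f : X ≃ X') : Rec S' X' where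
  perm s := f.permCongr (R.perm (e.symm s))
  word s x := mapW e (R.word (e.symm s) (f.symm x))

theorem mapW_append (e : S ≃ S') (L K : List (S × Bool)) :
    mapW e (L ++ K) = mapW e L ++ mapW e K := List.map_append

theorem mapW_invWord (e : S ≃ S') (L : List (S × Bool)) :
    mapW e (invWord L) = invWord (mapW e L) := by
  unfold mapW invWord
  rw [List.map_reverse, List.map_map, List.map_map]
  rfl

theorem mapW_symm (e : S ≃ S') (L : List (S' × Bool)) : mapW e (mapW e.symm L) = L := by
  unfold mapW
  rw [List.map_map]
  have : ((fun p : S × Bool => (e p.1, p.2)) ∘ fun p : S' × Bool => (e.symm p.1, p.2)) = id := by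
    funext p; simp
  rw [this, List.map_id]

variable (R : Rec S X) (e : S ≃ S') (f : X ≃ X')

theorem permCongr_inv (p : Perm X) : (f.permCongr p)⁻¹ = f.permCongr p⁻¹ := by
  ext x; simp [Equiv.permCongr]; rfl

theorem lPerm_map (l : S × Bool) : (R.map e f).lPerm (e l.1, l.2) = f.permCongr (R.lPerm l) := by
  obtain ⟨s, b⟩ := l
  cases b
  · simp only [Rec.lPerm, Rec.map, Equiv.symm_apply_apply, Bool.false_eq_true, if_false]
    exact permCongr_inv f _
  · simp only [Rec.lPerm, Rec.map, Equiv.symm_apply_apply, if_true]

theorem lSec_map (l : S × Bool) (x : X) :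
    (R.map e f).lSec (e l.1, l.2) (f x) = mapW e (R.lSec l x) := by
  obtain ⟨s, b⟩ := l
  cases b
  · simp only [Rec.lSec, Rec.map, Equiv.symm_apply_apply, Bool.false_eq_true, if_false,
      permCongr_inv]
    rw [mapW_invWord]
    congr 3
    simp [Equiv.permCongr]
  · simp only [Rec.lSec, Rec.map, Equiv.symm_apply_apply, if_true]

theorem wPerm_map (L : List (S × Bool)) :
    (R.map e f).wPerm (mapW e L) = f.permCongr (R.wPerm L) := by
  induction L with
  | nil =>
    change (1 : Perm X') = f.permCongr 1
    ext x; simp [Equiv.permCongr]
  | cons l L ih =>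
    change (R.map e f).lPerm (e l.1, l.2) * (R.map e f).wPerm (mapW e L) =
      f.permCongr (R.lPerm l * R.wPerm L)
    rw [ih, lPerm_map]
    ext x; simp [Equiv.permCongr]

theorem wSec_map (L : List (S × Bool)) (x : X) :
    (R.map e f).wSec (mapW e L) (f x) = mapW e (R.wSec L x) := by
  induction L with
  | nil => rfl
  | cons l L ih =>
    change (R.map e f).lSec (e l.1, l.2) ((R.map e f).wPerm (mapW e L) (f x)) ++
      (R.map e f).wSec (mapW e L) (f x) = mapW e (R.lSec l (R.wPerm L x) ++ R.wSec L x)
    rw [ih, mapW_append, wPerm_map]
    have : (f.permCongr (R.wPerm L)) (f x) = f (R.wPerm L x) := by simp [Equiv.permCongr]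
    rw [this, lSec_map]

theorem sec_map (L : List (S × Bool)) (v : List X) :
    (R.map e f).sec (mapW e L) (v.map f) = mapW e (R.sec L v) := by
  induction v generalizing L with
  | nil => rfl
  | cons x v ih =>
    change (R.map e f).sec ((R.map e f).wSec (mapW e L) (f x)) (v.map f) = _
    rw [wSec_map, ih]
    rfl

theorem act_map (L : List (S × Bool)) (v : List X) :
    (R.map e f).act (mapW e L) (v.map f) = (R.act L v).map f := by
  induction v generalizing L with
  | nil => rfl
  | cons x v ih =>
    change (R.map e f).wPerm (mapW e L) (f x) ::
      (R.map e f).act ((R.map e f).wSec (mapW e L) (f x)) (v.map f) = _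
    rw [wSec_map, ih, wPerm_map]
    have : (f.permCongr (R.wPerm L)) (f x) = f (R.wPerm L x) := by simp [Equiv.permCongr]
    rw [this]
    rfl

theorem map_symm_list (v : List X') : (v.map f.symm).map f = v := by
  rw [List.map_map]
  simp

theorem Rec.Contracting.map (h : R.Contracting) : (R.map e f).Contracting := by
  classical
  obtain ⟨N, hN⟩ := h
  refine ⟨N.image (mapW e), ?_⟩
  intro L
  obtain ⟨n, hn⟩ := hN (mapW e.symm L)
  refine ⟨n, fun v hv => ?_⟩
  obtain ⟨K, hK, h⟩ := hn (v.map f.symm) (by simpa using hv)
  refine ⟨mapW e K, Finset.mem_image_of_mem _ hK, ?_⟩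
  have h1 : (R.map e f).sec L v = mapW e (R.sec (mapW e.symm L) (v.map f.symm)) := by
    rw [← sec_map, mapW_symm, map_symm_list]
  rw [h1]
  funext u
  have h2 := act_map R e f (R.sec (mapW e.symm L) (v.map f.symm)) (u.map f.symm)
  have h3 := act_map R e f K (u.map f.symm)
  rw [map_symm_list] at h2 h3
  rw [h2, h3, h]

theorem Rec.map_map_symm : ((R.map e f).map e.symm f.symm) = R := by
  cases R with
  | mk perm word =>
    simp only [Rec.map, Equiv.symm_symm, Rec.mk.injEq]
    constructor
    · funext s
      ext x
      simp [Equiv.permCongr]
    · funext s x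
      have := mapW_symm e.symm (word s x)
      rw [Equiv.symm_symm] at this
      simp only [Equiv.symm_apply_apply]
      exact this

theorem contracting_map_iff : (R.map e f).Contracting ↔ R.Contracting := by
  constructor
  · intro h
    have := h.map (R := R.map e f) (e := e.symm) (f := f.symm)
    rwa [Rec.map_map_symm] at this
  · exact fun h => h.map R e f

end map

/-- The table of a wreath recursion on `m` generators over an alphabet with `d` letters: for every
generator `s` the list of the pairs consisting of the image of the letter `x` and of the section at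
`x`, for all letters `x`. -/
def Rec.table {m d : ℕ} (R : Rec (Fin m) (Fin d)) : List (List (ℕ × List (ℕ × Bool))) :=
  List.ofFn fun s => List.ofFn fun x =>
    ((R.perm s x : ℕ), (R.word s x).map fun p => ((p.1 : ℕ), p.2))

theorem primrec_replicate {β : Type} [Primcodable β] (b : β) :
    Primrec (fun n : ℕ => List.replicate n b) := by
  have h : Primrec (fun n : ℕ => (List.range n).map (fun _ => b)) :=
    Primrec.list_map Primrec.list_range (Primrec.const b).to₂
  refine h.of_eq ?_
  intro n
  rw [List.map_const', List.length_range]

section final

variable {Q : Type} [Finite Q] (M : Sys Q Bool)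

theorem iniN_eq_ini : iniN = Pool.Agent.Helper599.Source.ini := rfl

theorem table_primrec (q0 : Q) {m d : ℕ} (e : S1 Q ≃ Fin m) (f : XX M ≃ Fin d) :
    Primrec (fun N : ℕ => ((RN M q0 N).map e f).table) := by
  unfold Rec.table
  refine Primrec.list_ofFn fun s => Primrec.list_ofFn fun x => ?_
  refine Primrec.pair ?_ ?_
  · have : ∀ N : ℕ, ((((RN M q0 N).map e f).perm s x : Fin d) : ℕ) =
        ((((RN M q0 0).map e f).perm s x : Fin d) : ℕ) := by
      intro N
      rfl
    exact (Primrec.const _).of_eq fun N => (this N).symm
  · cases hs : e.symm s with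
    | inl s0 =>
      have : ∀ N : ℕ, ((((RN M q0 N).map e f).word s x).map fun p => ((p.1 : ℕ), p.2)) =
          ((mapW e (inc (wd0 M s0 (f.symm x)))).map fun p => ((p.1 : ℕ), p.2)) := by
        intro N
        simp only [Rec.map, RN, hs]
      exact (Primrec.const _).of_eq fun N => (this N).symm
    | inr u =>
      cases hx : f.symm x with
      | inl a =>
        have : ∀ N : ℕ, ((((RN M q0 N).map e f).word s x).map fun p => ((p.1 : ℕ), p.2)) =
            [] := by
          intro N
          simp only [Rec.map, RN, hs, hx, mapW, List.map_nil]
        exact (Primrec.const _).of_eq fun N => (this N).symm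
      | inr b =>
        cases b with
        | true =>
          have : ∀ N : ℕ, ((((RN M q0 N).map e f).word s x).map fun p => ((p.1 : ℕ), p.2)) =
              [((e (.inr ()) : ℕ), true)] := by
            intro N
            simp only [Rec.map, RN, hs, hx, mapW, List.map_nil, List.map_cons]
          exact (Primrec.const _).of_eq fun N => (this N).symm
        | false =>
          have : ∀ N : ℕ, ((((RN M q0 N).map e f).word s x).map fun p => ((p.1 : ℕ), p.2)) =
              ((e (.inl (.inr none)) : ℕ), true) ::
                (List.replicate N ((e (.inl (.inl true)) : ℕ), false) ++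
                ((e (.inl (.inr (some q0))) : ℕ), true) ::
                  List.replicate N ((e (.inl (.inl true)) : ℕ), true)) := by
            intro N
            simp only [Rec.map, RN, hs, hx, mapW, wN, List.map_cons, List.map_append,
              List.map_replicate]
          refine Primrec.of_eq ?_ fun N => (this N).symm
          refine Primrec.list_cons.comp (Primrec.const _) ?_
          refine Primrec.list_append.comp (primrec_replicate _) ?_
          exact Primrec.list_cons.comp (Primrec.const _) (primrec_replicate _)

end final

/-- No algorithm decides from the table of a wreath recursion whether the group it defines is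
contracting. -/
theorem not_decidable_contracting :
    ¬ ∃ f : ℕ × ℕ × List (List (ℕ × List (ℕ × Bool))) → Bool, Computable f ∧
      ∀ (m d : ℕ) (R : Rec (Fin m) (Fin d)), 2 ≤ d →
        (f (m, d, R.table) = true ↔ R.Contracting) := by
  rintro ⟨f, hf, hcor⟩
  obtain ⟨Q, hQ, M, q0, N, hB, hab, hN, hnc⟩ := Pool.Agent.Helper599.Source.exists_sys2
  apply hnc
  by_cases hl : 0 < M.l
  · have := Fintype.ofFinite (S1 Q)
    have := Fintype.ofFinite (XX M)
    let e : S1 Q ≃ Fin (Fintype.card (S1 Q)) := Fintype.equivFin _
    let g : XX M ≃ Fin (Fintype.card (XX M)) := Fintype.equivFin _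
    have hd : 2 ≤ Fintype.card (XX M) := by
      have h1 : Fintype.card Bool ≤ Fintype.card (XX M) :=
        Fintype.card_le_of_injective (fun b => (Sum.inr b : XX M)) Sum.inr_injective
      simpa using h1
    have key : ∀ n : ℕ, M.Halts (some q0) (Pool.Agent.Helper599.Source.ini (N n)) ↔
        f (Fintype.card (S1 Q), Fintype.card (XX M), ((RN M q0 (N n)).map e g).table) = true := by
      intro n
      rw [hcor _ _ _ hd, contracting_map_iff]
      exact ⟨contracting_of_halts M hB hl q0 (N n), halts_of_contracting M hl q0 (N n)⟩
    have hc : Computable (fun n => f (Fintype.card (S1 Q), Fintype.card (XX M),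
        ((RN M q0 (N n)).map e g).table)) := by
      refine hf.comp ?_
      have h1 : Computable (fun n : ℕ => ((Fintype.card (S1 Q)), (Fintype.card (XX M)),
          ((RN M q0 n).map e g).table)) :=
        (Primrec.pair (Primrec.const _) (Primrec.pair (Primrec.const _)
          (table_primrec M q0 e g))).to_comp
      exact h1.comp hN
    refine ComputablePred.computable_iff.2 ⟨_, hc, ?_⟩
    funext n
    rw [eq_iff_iff]
    exact key n
  · exfalso
    apply hnc
    have hall : ∀ n, M.Halts (some q0) (Pool.Agent.Helper599.Source.ini (N n)) := by
      intro n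
      apply Sys.Halts.step
      have h1 : M.nxt q0 (M.res (Pool.Agent.Helper599.Source.ini (N n))) = none := by
        by_contra hne
        have h2 := hab q0 _ hne true
        have h3 := M.ha q0 (M.res (Pool.Agent.Helper599.Source.ini (N n))) true
        omega
      rw [h1]
      exact Sys.Halts.stop _
    refine ComputablePred.computable_iff.2 ⟨fun _ => true, Computable.const true, ?_⟩
    funext n
    simp [hall n]

end Pool.Agent.Q89.WR
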