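import Pool.Agent.Q89.IS2
import Pool.Agent.Q89.WR5

/-!
Relabelling automata, coding them by tables, and the undecidability of the isomorphism problem.
-/

set_option linter.unusedSimpArgs false
set_option linter.unusedVariables false
set_option linter.unusedSectionVars false

namespace Pool.Agent.Q89.IS

open Equiv Pool.Agent.Helper599.Core Pool.Agent.Q89.WR

section map

variable {S S' X X' : Type}

/-- relabelling of an automaton -/
def Atm.map (A : Atm S X) (e : S ≃ S') (f : X ≃ X') : Atm S' X' where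
  next s x := e (A.next (e.symm s) (f.symm x))
  out s := f.permCongr (A.out (e.symm s))

variable (A : Atm S X) (e : S ≃ S') (f : X ≃ X')

theorem gen_map (s : S) : (A.map e f).gen (e s) =
    (Equiv.listEquivOfEquiv f).permCongrHom (A.gen s) := by
  apply Equiv.ext
  intro w
  induction w generalizing s with
  | nil => rfl
  | cons x w ih =>
    rw [(A.map e f).gen_sec (e s) x w]
    have h1 : (A.map e f).next (e s) x = e (A.next s (f.symm x)) := by
      simp only [Atm.map, Equiv.symm_apply_apply]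
    have h2 : (A.map e f).out (e s) x = f (A.out s (f.symm x)) := by
      simp only [Atm.map, Equiv.symm_apply_apply, Equiv.permCongr_apply]
    rw [h1, h2, ih]
    rfl

theorem grp_map : (A.map e f).grp =
    A.grp.map ((Equiv.listEquivOfEquiv f).permCongrHom : Perm (List X) →* Perm (List X')) := by
  unfold Atm.grp
  rw [MonoidHom.map_closure, ← Set.range_comp]
  congr 1
  ext g
  constructor
  · rintro ⟨s, rfl⟩
    refine ⟨e.symm s, ?_⟩
    have := gen_map A e f (e.symm s)
    rw [Equiv.apply_symm_apply] at this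
    exact this.symm
  · rintro ⟨s, rfl⟩
    exact ⟨e s, gen_map A e f s⟩

/-- relabelling does not change the group -/
noncomputable def grpEquiv : A.grp ≃* (A.map e f).grp :=
  (A.grp.equivMapOfInjective _ (Equiv.listEquivOfEquiv f).permCongrHom.injective).trans
    (MulEquiv.subgroupCongr (grp_map A e f).symm)

end map

/-- The table of an automaton with `m` states over an alphabet with `d` letters: for every state the
list of the pairs (next state, output letter), for all letters. -/
def Atm.table {m d : ℕ} (A : Atm (Fin m) (Fin d)) : List (List (ℕ × ℕ)) :=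
  List.ofFn fun s => List.ofFn fun x => ((A.next s x : ℕ), (A.out s x : ℕ))

theorem ofFn_add {α : Type} {m n : ℕ} (f : Fin (m + n) → α) :
    List.ofFn f = (List.ofFn fun i => f (Fin.castAdd n i)) ++
      List.ofFn fun j => f (Fin.natAdd m j) := by
  rw [← List.ofFn_fin_append]
  congr 1
  exact Fin.append_castAdd_natAdd.symm

theorem ofFn_nat {α : Type} (n : ℕ) (f : ℕ → α) :
    List.ofFn (fun i : Fin n => f i) = (List.range n).map f := by
  apply List.ext_getElem
  · simp
  · intro i h1 h2
    simp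

section final

variable {Q : Type} [Finite Q] (M : Sys Q Bool) (hB : 2 ≤ M.B)

/-- labels of the letters -/
noncomputable def lX {d : ℕ} (g : M.X ≃ Fin d) (N : ℕ) :
    M.X ⊕ Fin (2 * N + 2) ≃ Fin (d + (2 * N + 2)) :=
  (Equiv.sumCongr g (Equiv.refl _)).trans finSumFinEquiv

theorem lX_symm_castAdd {d : ℕ} (g : M.X ≃ Fin d) (N : ℕ) (i : Fin d) :
    (lX M g N).symm (Fin.castAdd _ i) = .inl (g.symm i) := by
  rw [Equiv.symm_apply_eq]
  simp [lX]

theorem lX_symm_natAdd {d : ℕ} (g : M.X ≃ Fin d) (N : ℕ) (j : Fin (2 * N + 2)) :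
    (lX M g N).symm (Fin.natAdd d j) = .inr j := by
  rw [Equiv.symm_apply_eq]
  simp [lX]

theorem lX_inl {d : ℕ} (g : M.X ≃ Fin d) (N : ℕ) (x : M.X) :
    ((lX M g N (.inl x) : Fin _) : ℕ) = g x := by
  simp [lX]

theorem lX_inr {d : ℕ} (g : M.X ≃ Fin d) (N : ℕ) (j : Fin (2 * N + 2)) :
    ((lX M g N (.inr j) : Fin _) : ℕ) = d + j := by
  simp [lX]

/-- rows of old states -/
noncomputable def rowI {m d : ℕ} (e : St Q ⊕ Unit ≃ Fin m) (g : M.X ≃ Fin d) (s : St Q) (N : ℕ) :
    List (ℕ × ℕ) :=
  (List.ofFn fun i : Fin d => ((e (.inl ((A0 M hB).next s (g.symm i))) : ℕ),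
    (g ((A0 M hB).out s (g.symm i)) : ℕ))) ++
  (List.range (2 * N + 2)).map fun j => ((e (.inl (i0 Q)) : ℕ), d + j)

/-- row of the new state -/
noncomputable def rowZ {m d : ℕ} (e : St Q ⊕ Unit ≃ Fin m) (q0 : Q) (N : ℕ) :
    List (ℕ × ℕ) :=
  (List.ofFn fun i : Fin d => ((e (.inl (i0 Q)) : ℕ), (i : ℕ))) ++
  (List.range (2 * N + 2)).map fun j => ((e (.inl (sq q0 N j)) : ℕ), d + (j + 1) % (2 * N + 2))

theorem row_eqI {m d : ℕ} (e : St Q ⊕ Unit ≃ Fin m) (g : M.X ≃ Fin d) (q0 : Q) (N : ℕ)
    (s : Fin m) (s0 : St Q) (hs : e.symm s = .inl s0) :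
    (List.ofFn fun x : Fin (d + (2 * N + 2)) =>
      ((((AN M hB q0 N).map e (lX M g N)).next s x : ℕ),
        (((AN M hB q0 N).map e (lX M g N)).out s x : ℕ))) = rowI M hB e g s0 N := by
  rw [ofFn_add, rowI]
  congr 1
  · congr 1
    funext i
    simp only [Atm.map, hs, lX_symm_castAdd, Equiv.permCongr_apply]
    have h1 : (AN M hB q0 N).next (.inl s0) (.inl (g.symm i)) =
        .inl ((A0 M hB).next s0 (g.symm i)) := rfl
    have h2 : (AN M hB q0 N).out (.inl s0) (.inl (g.symm i)) =
        .inl ((A0 M hB).out s0 (g.symm i)) := rfl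
    rw [h1, h2, lX_inl]
  · rw [← ofFn_nat]
    congr 1
    funext j
    simp only [Atm.map, hs, lX_symm_natAdd, Equiv.permCongr_apply]
    have h1 : (AN M hB q0 N).next (.inl s0) (.inr j) = .inl (i0 Q) := rfl
    have h2 : (AN M hB q0 N).out (.inl s0) (.inr j) = .inr j := rfl
    rw [h1, h2, lX_inr]

theorem row_eqZ {m d : ℕ} (e : St Q ⊕ Unit ≃ Fin m) (g : M.X ≃ Fin d) (q0 : Q) (N : ℕ)
    (s : Fin m) (hs : e.symm s = .inr ()) :
    (List.ofFn fun x : Fin (d + (2 * N + 2)) =>
      ((((AN M hB q0 N).map e (lX M g N)).next s x : ℕ),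
        (((AN M hB q0 N).map e (lX M g N)).out s x : ℕ))) = rowZ (d := d) e q0 N := by
  rw [ofFn_add, rowZ]
  congr 1
  · congr 1
    funext i
    simp only [Atm.map, hs, lX_symm_castAdd, Equiv.permCongr_apply]
    have h1 : (AN M hB q0 N).next (.inr ()) (.inl (g.symm i)) = .inl (i0 Q) := rfl
    have h2 : (AN M hB q0 N).out (.inr ()) (.inl (g.symm i)) = .inl (g.symm i) := rfl
    rw [h1, h2, lX_inl, Equiv.apply_symm_apply]
  · rw [← ofFn_nat]
    congr 1
    funext j
    simp only [Atm.map, hs, lX_symm_natAdd, Equiv.permCongr_apply]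
    have h1 : (AN M hB q0 N).next (.inr ()) (.inr j) = .inl (sq q0 N j) := rfl
    have h2 : (AN M hB q0 N).out (.inr ()) (.inr j) = .inr (finRotate (2 * N + 2) j) := rfl
    have h3 : ((finRotate (2 * N + 2) j : Fin _) : ℕ) = ((j : ℕ) + 1) % (2 * N + 2) := by
      have := rot_fk N (j : ℕ)
      rw [fk_val] at this
      rw [this]
      rfl
    rw [h1, h2, lX_inr, h3]

theorem rowI_primrec {m d : ℕ} (e : St Q ⊕ Unit ≃ Fin m) (g : M.X ≃ Fin d) (s : St Q) :
    Primrec (rowI M hB e g s) := by
  unfold rowI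
  refine Primrec.list_append.comp (Primrec.const _) ?_
  refine Primrec.list_map (Primrec.list_range.comp (Primrec.nat_add.comp
    (Primrec.nat_mul.comp (Primrec.const 2) Primrec.id) (Primrec.const 2))) ?_
  exact (Primrec.pair (Primrec.const _) (Primrec.nat_add.comp (Primrec.const d)
    Primrec.snd)).to₂

theorem sq_primrec {m : ℕ} (e : St Q ⊕ Unit ≃ Fin m) (q0 : Q) :
    Primrec₂ (fun N j : ℕ => ((e (.inl (sq q0 N j)) : Fin m) : ℕ)) := by
  have h : Primrec (fun p : ℕ × ℕ => if p.2 < p.1 then ((e (.inl (.inl e1)) : Fin m) : ℕ) else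
      if p.2 = p.1 then ((e (.inl (.inr (.inr (some q0)))) : Fin m) : ℕ) else
      if p.2 ≤ 2 * p.1 then ((e (.inl (.inl e2)) : Fin m) : ℕ) else
        ((e (.inl (.inr (.inl ()))) : Fin m) : ℕ)) := by
    refine Primrec.ite (Primrec.nat_lt.comp Primrec.snd Primrec.fst) (Primrec.const _) ?_
    refine Primrec.ite (Primrec.eq.comp Primrec.snd Primrec.fst) (Primrec.const _) ?_
    refine Primrec.ite (Primrec.nat_le.comp Primrec.snd
      (Primrec.nat_mul.comp (Primrec.const 2) Primrec.fst)) (Primrec.const _)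
      (Primrec.const _)
  refine h.of_eq ?_
  rintro ⟨N, j⟩
  simp only [sq]
  split_ifs <;> rfl

theorem rowZ_primrec {m d : ℕ} (e : St Q ⊕ Unit ≃ Fin m) (q0 : Q) :
    Primrec (rowZ (d := d) e q0) := by
  unfold rowZ
  refine Primrec.list_append.comp (Primrec.const _) ?_
  have h2 : Primrec (fun N : ℕ => 2 * N + 2) := Primrec.nat_add.comp
    (Primrec.nat_mul.comp (Primrec.const 2) Primrec.id) (Primrec.const 2)
  refine Primrec.list_map (Primrec.list_range.comp h2) ?_
  have h3 : Primrec (fun p : ℕ × ℕ => ((e (.inl (sq q0 p.1 p.2)) : Fin m) : ℕ)) :=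
    sq_primrec e q0
  have h4 : Primrec (fun p : ℕ × ℕ => d + (p.2 + 1) % (2 * p.1 + 2)) :=
    Primrec.nat_add.comp (Primrec.const d) (Primrec.nat_mod.comp
      (Primrec.succ.comp Primrec.snd) (h2.comp Primrec.fst))
  exact (Primrec.pair h3 h4).to₂

theorem table_primrec' {m d : ℕ} (e : St Q ⊕ Unit ≃ Fin m) (g : M.X ≃ Fin d) (q0 : Q) :
    Primrec (fun N : ℕ => ((AN M hB q0 N).map e (lX M g N)).table) := by
  unfold Atm.table
  refine Primrec.list_ofFn fun s => ?_
  cases hs : e.symm s with
  | inl s0 => exact (rowI_primrec M hB e g s0).of_eq fun N => (row_eqI M hB e g q0 N s s0 hs).symm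
  | inr u => exact (rowZ_primrec e q0).of_eq fun N => (row_eqZ M hB e g q0 N s hs).symm

end final

/-- For a fixed automaton `B` it is undecidable whether the group generated by an automaton is
isomorphic to the group generated by `B`. -/
theorem isomorphism_undecidable :
    ∃ (k c : ℕ) (B : Atm (Fin k) (Fin c)), 2 ≤ c ∧
      ¬ ∃ f : ℕ × ℕ × List (List (ℕ × ℕ)) → Bool, Computable f ∧
        ∀ (m d : ℕ) (A : Atm (Fin m) (Fin d)), 2 ≤ d →
          (f (m, d, A.table) = true ↔ Nonempty (A.grp ≃* B.grp)) := by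
  obtain ⟨Q, hQ, M, q0, N, hB, hab, hN, hnc⟩ := Pool.Agent.Helper599.Source.exists_sys2
  have hl : 0 < M.l := by
    by_contra hl
    apply hnc
    have hall : ∀ n, M.Halts (some q0) (Pool.Agent.Helper599.Source.ini (N n)) := by
      intro n
      apply Sys.Halts.step
      have h1 : M.nxt q0 (M.res (Pool.Agent.Helper599.Source.ini (N n))) = none := by
        by_contra hne
        have h2 := hab q0 _ hne true
        have h3 := M.ha q0 (M.res (Pool.Agent.Helper599.Source.ini (N n))) true
        omega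
      rw [h1]
      exact Sys.Halts.stop _
    refine ComputablePred.computable_iff.2 ⟨fun _ => true, Computable.const true, ?_⟩
    funext n
    simp [hall n]
  have hfin : Finite {a : Bool → ℤ // Sm 1 a} := (Sm_finite 1).to_subtype
  have := Fintype.ofFinite (St Q ⊕ Unit)
  have := Fintype.ofFinite M.X
  let e : St Q ⊕ Unit ≃ Fin (Fintype.card (St Q ⊕ Unit)) := Fintype.equivFin _
  let g : M.X ≃ Fin (Fintype.card M.X) := Fintype.equivFin _
  let gB : M.X ⊕ Bool ≃ Fin (Fintype.card (M.X ⊕ Bool)) := Fintype.equivFin _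
  refine ⟨_, _, (BB M hB).map e gB, ?_, ?_⟩
  · have h1 : Fintype.card Bool ≤ Fintype.card (M.X ⊕ Bool) :=
      Fintype.card_le_of_injective (fun b => (Sum.inr b : M.X ⊕ Bool)) Sum.inr_injective
    rwa [Fintype.card_bool] at h1
  rintro ⟨f, hf, hcor⟩
  apply hnc
  have key : ∀ n : ℕ, M.Halts (some q0) (Pool.Agent.Helper599.Source.ini (N n)) ↔
      f (Fintype.card (St Q ⊕ Unit), Fintype.card M.X + (2 * N n + 2),
        ((AN M hB q0 (N n)).map e (lX M g (N n))).table) = false := by
    intro n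
    rw [← Bool.not_eq_true, hcor _ _ _ (by omega)]
    constructor
    · intro h ⟨i⟩
      exact not_iso_of_halts M hB q0 (N n) h
        ⟨((grpEquiv _ e (lX M g (N n))).trans i).trans (grpEquiv _ e gB).symm⟩
    · intro h
      by_contra hh
      obtain ⟨i⟩ := iso_of_not_halts M hB hl q0 (N n) hh
      exact h ⟨((grpEquiv _ e (lX M g (N n))).symm.trans i).trans (grpEquiv _ e gB)⟩
  have hc : Computable (fun n => !(f (Fintype.card (St Q ⊕ Unit),
      Fintype.card M.X + (2 * N n + 2),
      ((AN M hB q0 (N n)).map e (lX M g (N n))).table))) := by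
    have h1 : Computable (fun n : ℕ => (Fintype.card (St Q ⊕ Unit),
        Fintype.card M.X + (2 * n + 2), ((AN M hB q0 n).map e (lX M g n)).table)) :=
      (Primrec.pair (Primrec.const _) (Primrec.pair (Primrec.nat_add.comp (Primrec.const _)
        (Primrec.nat_add.comp (Primrec.nat_mul.comp (Primrec.const 2) Primrec.id)
          (Primrec.const 2))) (table_primrec' M hB e g q0))).to_comp
    exact Primrec.not.to_comp.comp (hf.comp (h1.comp hN))
  refine ComputablePred.computable_iff.2 ⟨_, hc, ?_⟩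
  funext n
  rw [eq_iff_iff, key n]
  simp

end Pool.Agent.Q89.IS
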