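import Mathlib

/-!
# Mealy automata and the weakly reset property
-/

namespace Pool.Agent.Q89.MR

/-- A Mealy automaton with set of states `Q` over the alphabet `A`: the next state and the output
letter. -/
structure Mealy (Q A : Type) where
  next : Q → A → Q
  out : Q → A → A

namespace Mealy

variable {Q A : Type} (M : Mealy Q A)

/-- The state reached from `q` after reading the word `u`. -/
def run : Q → List A → Q
  | q, [] => q
  | q, a :: u => run (M.next q a) u

/-- The map on words computed from the state `q`. -/
def act : Q → List A → List A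
  | _, [] => []
  | q, a :: u => M.out q a :: act (M.next q a) u

/-- The set of reset words: the words sending all states to exactly one state. -/
def Syn : Set (List A) := {u | ∃ p, Set.range (fun q => M.run q u) = {p}}

/-- The automaton is weakly reset: it is synchronizing and there is a nonempty two-sided ideal of
reset words which is mapped to itself from every state. -/
def WeaklyReset : Prop :=
  M.Syn.Nonempty ∧ ∃ H : Set (List A), H.Nonempty ∧ H ⊆ M.Syn ∧
    (∀ u ∈ H, ∀ x y : List A, x ++ u ++ y ∈ H) ∧ ∀ q, ∀ u ∈ H, M.act q u ∈ H

theorem run_append (q : Q) (x u : List A) : M.run q (x ++ u) = M.run (M.run q x) u := by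
  induction x generalizing q with
  | nil => rfl
  | cons a x ih => simp only [List.cons_append, run]; exact ih _

theorem act_append (q : Q) (x u : List A) :
    M.act q (x ++ u) = M.act q x ++ M.act (M.run q x) u := by
  induction x generalizing q with
  | nil => rfl
  | cons a x ih => simp only [List.cons_append, act, run]; rw [ih]

/-- composition of the maps of a list of states -/
def actL : List Q → List A → List A
  | [], w => w
  | q :: L, w => actL L (M.act q w)

theorem actL_append (L K : List Q) (w : List A) :
    M.actL (L ++ K) w = M.actL K (M.actL L w) := by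
  induction L generalizing w with
  | nil => rfl
  | cons q L ih => simp only [List.cons_append, actL]; exact ih _

theorem actL_sec (L : List Q) (x : List A) :
    ∃ L' : List Q, ∀ u, M.actL L (x ++ u) = M.actL L x ++ M.actL L' u := by
  induction L generalizing x with
  | nil => exact ⟨[], fun u => rfl⟩
  | cons q L ih =>
    obtain ⟨L', h⟩ := ih (M.act q x)
    refine ⟨M.run q x :: L', fun u => ?_⟩
    simp only [actL]
    rw [act_append, h]

theorem syn_ideal {u : List A} (hu : u ∈ M.Syn) (x y : List A) : x ++ u ++ y ∈ M.Syn := by
  obtain ⟨p, hp⟩ := hu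
  have h1 : ∀ q, M.run q u = p := by
    intro q
    have : M.run q u ∈ Set.range (fun q => M.run q u) := ⟨q, rfl⟩
    rw [hp] at this
    exact this
  have h2 : Nonempty Q := by
    have : p ∈ Set.range (fun q => M.run q u) := by rw [hp]; rfl
    obtain ⟨q, _⟩ := this
    exact ⟨q⟩
  refine ⟨M.run p y, ?_⟩
  apply Set.eq_singleton_iff_nonempty_unique_mem.2
  refine ⟨Set.range_nonempty _, ?_⟩
  rintro _ ⟨q, rfl⟩
  change M.run q (x ++ u ++ y) = _
  rw [run_append, run_append, h1]

theorem weaklyReset_iff : M.WeaklyReset ↔ ∃ u, ∀ L, M.actL L u ∈ M.Syn := by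
  constructor
  · rintro ⟨-, H, ⟨u, hu⟩, hs, -, ha⟩
    refine ⟨u, fun L => hs ?_⟩
    induction L generalizing u with
    | nil => exact hu
    | cons q L ih => exact ih _ (ha q u hu)
  · rintro ⟨u, hu⟩
    refine ⟨⟨u, hu []⟩, {w | ∀ L, M.actL L w ∈ M.Syn}, ⟨u, hu⟩, fun w hw => hw [], ?_, ?_⟩
    · intro w hw x y L
      obtain ⟨L1, h1⟩ := M.actL_sec L (x ++ w)
      obtain ⟨L2, h2⟩ := M.actL_sec L x
      rw [h1, h2]
      exact M.syn_ideal (hw L2) _ _
    · intro q w hw L
      exact hw (q :: L)

/-- relabelling -/
def map {Q' A' : Type} (e : Q ≃ Q') (f : A ≃ A') : Mealy Q' A' where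
  next q a := e (M.next (e.symm q) (f.symm a))
  out q a := f (M.out (e.symm q) (f.symm a))

section map
variable {Q' A' : Type} (e : Q ≃ Q') (f : A ≃ A')

theorem run_map (q : Q) (u : List A) : (M.map e f).run (e q) (u.map f) = e (M.run q u) := by
  induction u generalizing q with
  | nil => rfl
  | cons a u ih =>
    simp only [List.map_cons, run]
    have : (M.map e f).next (e q) (f a) = e (M.next q a) := by simp [map]
    rw [this, ih]

theorem act_map (q : Q) (u : List A) :
    (M.map e f).act (e q) (u.map f) = (M.act q u).map f := by
  induction u generalizing q with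
  | nil => rfl
  | cons a u ih =>
    simp only [List.map_cons, act]
    have h1 : (M.map e f).next (e q) (f a) = e (M.next q a) := by simp [map]
    have h2 : (M.map e f).out (e q) (f a) = f (M.out q a) := by simp [map]
    rw [h1, h2, ih]

theorem actL_map (L : List Q) (u : List A) :
    (M.map e f).actL (L.map e) (u.map f) = (M.actL L u).map f := by
  induction L generalizing u with
  | nil => rfl
  | cons q L ih =>
    simp only [List.map_cons, actL]
    rw [act_map, ih]

theorem syn_map (u : List A) : u.map f ∈ (M.map e f).Syn ↔ u ∈ M.Syn := by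
  have h : Set.range (fun q => (M.map e f).run q (u.map f)) =
      e '' Set.range (fun q => M.run q u) := by
    ext p
    constructor
    · rintro ⟨q, rfl⟩
      refine ⟨M.run (e.symm q) u, ⟨_, rfl⟩, ?_⟩
      rw [← run_map, Equiv.apply_symm_apply]
    · rintro ⟨_, ⟨q, rfl⟩, rfl⟩
      exact ⟨e q, M.run_map e f q u⟩
  constructor
  · rintro ⟨p, hp⟩
    refine ⟨e.symm p, ?_⟩
    rw [h] at hp
    have := congrArg (fun s => e.symm '' s) hp
    simpa [Set.image_image] using this
  · rintro ⟨p, hp⟩
    refine ⟨e p, ?_⟩
    rw [h, hp, Set.image_singleton]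

theorem weaklyReset_map : (M.map e f).WeaklyReset ↔ M.WeaklyReset := by
  rw [weaklyReset_iff, weaklyReset_iff]
  constructor
  · rintro ⟨u, hu⟩
    refine ⟨u.map f.symm, fun L => ?_⟩
    rw [← M.syn_map e f, ← actL_map]
    have : (u.map f.symm).map f = u := by simp
    rw [this]
    exact hu _
  · rintro ⟨u, hu⟩
    refine ⟨u.map f, fun L => ?_⟩
    have : L = (L.map e.symm).map e := by simp
    rw [this, actL_map, syn_map]
    exact hu _

end map

/-- The table of an automaton with `m` states over an alphabet with `d` letters: for every state the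
list of the pairs (next state, output letter), for all letters. -/
def table {m d : ℕ} (A : Mealy (Fin m) (Fin d)) : List (List (ℕ × ℕ)) :=
  List.ofFn fun s => List.ofFn fun x => ((A.next s x : ℕ), (A.out s x : ℕ))

end Mealy

end Pool.Agent.Q89.MR
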