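import Pool.Agent.Q89.MR1
import Pool.Agent.Helper599.Source2

/-!
# A Mealy automaton simulating a counter machine
-/

namespace Pool.Agent.Q89.MR

open Pool.Agent.Helper599.Core
open Pool.Agent.Helper599.Source (ini)

/-- letters -/
inductive Lt (Q : Type) (B : ℕ) : Type
  | tri : Lt Q B
  | star : Lt Q B
  | cross : Lt Q B
  | blank : Lt Q B
  | cell (o : Option Q) (d : Bool → Fin B) : Lt Q B

/-- fixed modes -/
inductive Fx (Q : Type) (B l : ℕ) : Type
  | W (b : Bool) : Fx Q B l
  | K0 : Fx Q B l
  | H : Fx Q B l
  | K1 (o : Option Q) (q : Q) (r : Bool → Fin B) (c : Bool → Fin (l + 1)) : Fx Q B l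

section
variable {Q : Type} (M : Sys Q Bool) (q0 : Q) (N K : ℕ)

/-- modes -/
abbrev Md := Fx Q M.B M.l ⊕ Fin (K + 1)

variable {M K} in
/-- the flag -/
def flag : Md M K → Bool
  | .inl (.W b) => b
  | .inr _ => true
  | _ => false

variable {M K} in
/-- modes preserving the star -/
def acc : Md M K → Bool
  | .inl .H => true
  | .inl (.K1 none _ _ c) => decide (∀ j, (c j : ℕ) = 0)
  | .inr i => decide ((i : ℕ) = K)
  | _ => false

/-- carries -/
def car (a : ℕ) (d : Fin M.B) (c : Fin (M.l + 1)) : Fin (M.l + 1) :=
  ⟨min M.l ((a * d + c) / M.B), by omega⟩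

/-- digits -/
def dgt (a : ℕ) (d : Fin M.B) (c : Fin (M.l + 1)) : Fin M.B :=
  ⟨(a * d + c) % M.B, Nat.mod_lt _ M.hB⟩

/-- initial cells -/
def ucell (i : ℕ) : Lt Q M.B :=
  .cell (if i = 0 then some q0 else none) (M.res fun j => ini N j / M.B ^ i)

variable {K} in
/-- increment -/
def inc (i : Fin (K + 1)) : Fin (K + 1) := ⟨min K (i + 1), by omega⟩

/-- next mode -/
def nx : Md M K → Lt Q M.B → Md M K
  | m, .tri => if flag m then .inr 0 else .inl .K0
  | m, .cross => .inl (.W (flag m))
  | _, .star => .inl (.W false)
  | .inl (.W b), .blank => .inl (.W b)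
  | .inl .K0, .blank => .inl .K0
  | .inl .H, .blank => .inl .H
  | .inl (.K1 _ _ _ _), .blank => .inl (.W false)
  | .inr i, .blank => .inr (inc i)
  | .inl (.W b), .cell _ _ => .inl (.W b)
  | .inl .K0, .cell none _ => .inl (.W false)
  | .inl .K0, .cell (some q) d =>
      match M.nxt q d with
      | none => .inl .H
      | some q' => .inl (.K1 (some q') q d fun j =>
          ⟨M.b q d j, Nat.lt_succ_of_le (M.hb q d j)⟩)
  | .inl .H, .cell _ _ => .inl .H
  | .inl (.K1 _ _ _ _), .cell (some _) _ => .inl (.W false)
  | .inl (.K1 _ q r c), .cell none d =>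
      .inl (.K1 none q r fun j => car M (M.a q r j) (d j) (c j))
  | .inr i, .cell _ _ => .inr (inc i)

/-- output -/
def ou : Md M K → Lt Q M.B → Lt Q M.B
  | _, .tri => .tri
  | _, .cross => .cross
  | m, .star => if acc m then .star else .cross
  | .inr i, .blank => ucell M q0 N i
  | .inr i, .cell _ _ => ucell M q0 N i
  | .inl _, .blank => .blank
  | .inl .K0, .cell none d => .cell none d
  | .inl .K0, .cell (some q) d =>
      match M.nxt q d with
      | none => .cell (some q) d
      | some _ => .blank
  | .inl (.K1 _ _ _ _), .cell (some q') d => .cell (some q') d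
  | .inl (.K1 o1 q r c), .cell none d => .cell o1 fun j => dgt M (M.a q r j) (d j) (c j)
  | .inl (.W _), .cell o d => .cell o d
  | .inl .H, .cell o d => .cell o d

/-- second component -/
def bit (b : Bool) : Lt Q M.B → Bool
  | .star => false
  | _ => b

/-- the automaton -/
def mach : Mealy (Md M K × Bool) (Lt Q M.B) where
  next p x := (nx M K p.1 x, bit M p.2 x)
  out p x := ou M q0 N K p.1 x

variable {M} in
/-- stars -/
def isStar : Lt Q M.B → Bool
  | .star => true
  | _ => false

variable {M} in
/-- plain letters -/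
def plain : Lt Q M.B → Bool
  | .blank => true
  | .cell _ _ => true
  | _ => false

/-- blocks -/
def enc : ℕ → Option Q → (Bool → ℕ) → List (Lt Q M.B)
  | 0, _, _ => []
  | L + 1, o, n => .cell o (M.res n) :: enc L none fun j => n j / M.B

theorem ou_star (m : Md M K) (x : Lt Q M.B) (h : isStar (ou M q0 N K m x) = true) :
    isStar x = true := by
  rcases m with (b | _ | _ | ⟨o, q, r, c⟩) | i <;> rcases x with _ | _ | _ | _ | ⟨_ | q1, d⟩ <;>
    simp_all [ou, isStar, ucell]
  all_goals
    first
    | (cases h1 : M.nxt q1 d <;> simp_all <;> done)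
    | (revert h
       split <;> simp [isStar])

theorem act_count (p : Md M K × Bool) (w : List (Lt Q M.B)) :
    ((mach M q0 N K).act p w).countP isStar ≤ w.countP isStar := by
  induction w generalizing p with
  | nil => simp [Mealy.act]
  | cons x w ih =>
    simp only [Mealy.act, List.countP_cons]
    have h := ih ((mach M q0 N K).next p x)
    have h2 : (if isStar ((mach M q0 N K).out p x) = true then 1 else 0) ≤
        (if isStar x = true then 1 else 0) := by
      by_cases h3 : isStar ((mach M q0 N K).out p x) = true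
      · rw [if_pos h3, if_pos (ou_star M q0 N K p.1 x h3)]
      · rw [if_neg h3]; omega
    omega

theorem actL_count (L : List (Md M K × Bool)) (w : List (Lt Q M.B)) :
    ((mach M q0 N K).actL L w).countP isStar ≤ w.countP isStar := by
  induction L generalizing w with
  | nil => exact le_rfl
  | cons q L ih => exact (ih _).trans (act_count M q0 N K q w)

theorem run_bit (p : Md M K × Bool) (w : List (Lt Q M.B)) (hw : w.countP isStar = 0) :
    ((mach M q0 N K).run p w).2 = p.2 := by
  induction w generalizing p with
  | nil => rfl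
  | cons x w ih =>
    rw [List.countP_cons] at hw
    have h1 : isStar x = false := by
      by_contra h
      simp only [Bool.not_eq_false] at h
      rw [if_pos h] at hw
      omega
    rw [Mealy.run, ih _ (by omega)]
    change bit M p.2 x = p.2
    rcases x with _ | _ | _ | _ | _ <;> simp_all [bit, isStar]

theorem run_star (p p' : Md M K × Bool) (w : List (Lt Q M.B)) (hw : w.countP isStar ≠ 0) :
    (mach M q0 N K).run p w = (mach M q0 N K).run p' w := by
  induction w generalizing p p' with
  | nil => simp at hw
  | cons x w ih =>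
    rw [Mealy.run, Mealy.run]
    by_cases hx : isStar x = true
    · have h1 : ∀ p : Md M K × Bool, (mach M q0 N K).next p x = (.inl (.W false), false) := by
        intro p
        rcases x with _ | _ | _ | _ | _ <;> simp_all [isStar, mach, nx, bit]
      rw [h1, h1]
    · apply ih
      rw [List.countP_cons, if_neg hx] at hw
      exact hw

theorem mem_syn (w : List (Lt Q M.B)) : w ∈ (mach M q0 N K).Syn ↔ w.countP isStar ≠ 0 := by
  constructor
  · rintro ⟨p, hp⟩ h0
    have h1 : ∀ q, (mach M q0 N K).run q w = p := by
      intro q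
      have : (mach M q0 N K).run q w ∈ Set.range (fun q => (mach M q0 N K).run q w) := ⟨q, rfl⟩
      rw [hp] at this
      exact this
    have h2 := run_bit M q0 N K (.inl (.W false), false) w h0
    have h3 := run_bit M q0 N K (.inl (.W false), true) w h0
    rw [h1] at h2 h3
    rw [h2] at h3
    exact Bool.false_ne_true h3
  · intro h
    refine ⟨(mach M q0 N K).run (.inl (.W false), false) w, ?_⟩
    apply Set.eq_singleton_iff_nonempty_unique_mem.2
    refine ⟨⟨_, ⟨(.inl (.W false), false), rfl⟩⟩, ?_⟩
    rintro _ ⟨q, rfl⟩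
    exact run_star M q0 N K _ _ w h

/-! ### Passing a block -/

theorem enc_plain (L : ℕ) (o : Option Q) (n : Bool → ℕ) :
    ∀ x ∈ enc M L o n, plain x = true := by
  induction L generalizing o n with
  | zero => simp [enc]
  | succ L ih =>
    intro x hx
    rw [enc, List.mem_cons] at hx
    rcases hx with rfl | hx
    · rfl
    · exact ih _ _ x hx

theorem enc_length (L : ℕ) (o : Option Q) (n : Bool → ℕ) : (enc M L o n).length = L := by
  induction L generalizing o n with
  | zero => rfl
  | succ L ih => rw [enc, List.length_cons, ih]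

theorem car_val (a : ℕ) (ha : a ≤ M.l) (d : Fin M.B) (c : Fin (M.l + 1)) :
    ((car M a d c : Fin _) : ℕ) = (a * d + c) / M.B := by
  have hB := M.hB
  have h1 : (a * d + c) / M.B ≤ M.l := by
    apply Nat.le_of_lt_succ
    rw [Nat.div_lt_iff_lt_mul hB]
    have h2 := d.2
    have h3 := c.2
    obtain ⟨k, hk⟩ : ∃ k, M.B = k + 1 := ⟨M.B - 1, by omega⟩
    have h4 : a * (d : ℕ) ≤ M.l * k := Nat.mul_le_mul ha (by omega)
    have h5 : M.l.succ * M.B = M.l * k + M.l + k + 1 := by
      rw [hk, Nat.succ_eq_add_one]; ring
    omega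
  change min M.l ((a * d + c) / M.B) = _
  omega

theorem K1_pass (L : ℕ) (o : Option Q) (q : Q) (r : Bool → Fin M.B) (c : Bool → Fin (M.l + 1))
    (n : Bool → ℕ) (b : Bool) :
    (mach M q0 N K).act (.inl (.K1 o q r c), b) (enc M L none n) =
      enc M L o (fun j => M.a q r j * n j + c j) ∧
    ∃ c', (mach M q0 N K).run (.inl (.K1 o q r c), b) (enc M L none n) =
      (.inl (.K1 (if L = 0 then o else none) q r c'), b) ∧
      ((∀ j, M.a q r j * n j + c j < M.B ^ L) → ∀ j, ((c' j : Fin _) : ℕ) = 0) := by
  induction L generalizing o c n with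
  | zero =>
    refine ⟨rfl, c, ?_, ?_⟩
    · rw [if_pos rfl]; rfl
    · intro h j
      have := h j
      rw [pow_zero] at this
      omega
  | succ L ih =>
    have hB := M.hB
    set c1 : Bool → Fin (M.l + 1) := fun j => car M (M.a q r j) (M.res n j) (c j) with hc1
    obtain ⟨h1, c', h2, h3⟩ := ih none c1 (fun j => n j / M.B)
    have hval : ∀ j, M.a q r j * (n j / M.B) + (c1 j : ℕ) =
        (M.a q r j * n j + c j) / M.B := by
      intro j
      rw [hc1, car_val M _ (M.ha q r j)]
      change M.a q r j * (n j / M.B) + (M.a q r j * (n j % M.B) + c j) / M.B = _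
      have h4 : M.a q r j * n j + c j =
          (M.a q r j * (n j % M.B) + c j) + M.B * (M.a q r j * (n j / M.B)) := by
        have := Nat.mod_add_div (n j) M.B
        calc M.a q r j * n j + c j = M.a q r j * (n j % M.B + M.B * (n j / M.B)) + c j := by
              rw [this]
          _ = _ := by ring
      rw [h4, Nat.add_mul_div_left _ _ hB, add_comm]
    have hdig : (fun j => dgt M (M.a q r j) (M.res n j) (c j)) =
        M.res (fun j => M.a q r j * n j + c j) := by
      funext j
      apply Fin.ext
      change (M.a q r j * (n j % M.B) + c j) % M.B = (M.a q r j * n j + c j) % M.B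
      rw [Nat.add_mod, Nat.mul_mod, Nat.mod_mod, ← Nat.mul_mod, ← Nat.add_mod]
    have hnext : (mach M q0 N K).next (.inl (.K1 o q r c), b) (.cell none (M.res n)) =
        (.inl (.K1 none q r c1), b) := rfl
    refine ⟨?_, c', ?_, ?_⟩
    · rw [enc, Mealy.act, hnext, h1, enc]
      have : (mach M q0 N K).out (.inl (.K1 o q r c), b) (.cell none (M.res n)) =
          .cell o (fun j => dgt M (M.a q r j) (M.res n j) (c j)) := rfl
      rw [this, hdig]
      congr 2
      funext j
      exact hval j
    · rw [enc, Mealy.run, hnext, h2]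
      have : (if L = 0 then (none : Option Q) else none) = if L + 1 = 0 then o else none := by
        simp
      rw [this]
    · intro h j
      apply h3
      intro j
      rw [hval, Nat.div_lt_iff_lt_mul hB]
      have := h j
      rwa [pow_succ] at this

theorem K0_blank (i : ℕ) (b : Bool) :
    (mach M q0 N K).act (.inl .K0, b) (List.replicate i .blank) = List.replicate i .blank ∧
    (mach M q0 N K).run (.inl .K0, b) (List.replicate i .blank) = (.inl .K0, b) := by
  induction i with
  | zero => exact ⟨rfl, rfl⟩
  | succ i ih =>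
    rw [List.replicate_succ]
    have h1 : (mach M q0 N K).next (.inl .K0, b) .blank = (.inl .K0, b) := rfl
    have h2 : (mach M q0 N K).out (.inl .K0, b) .blank = .blank := rfl
    rw [Mealy.act, Mealy.run, h1, h2, ih.1, ih.2]
    exact ⟨rfl, rfl⟩

theorem H_pass (w : List (Lt Q M.B)) (hw : ∀ x ∈ w, plain x = true) (b : Bool) :
    (mach M q0 N K).act (.inl .H, b) w = w ∧
    (mach M q0 N K).run (.inl .H, b) w = (.inl .H, b) := by
  induction w with
  | nil => exact ⟨rfl, rfl⟩
  | cons x w ih =>
    obtain ⟨h1, h2⟩ := ih fun y hy => hw y (List.mem_cons_of_mem _ hy)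
    have hx := hw x List.mem_cons_self
    have h3 : (mach M q0 N K).next (.inl .H, b) x = (.inl .H, b) := by
      rcases x with _ | _ | _ | _ | _ <;> simp_all [plain, mach, nx, bit]
    have h4 : (mach M q0 N K).out (.inl .H, b) x = x := by
      rcases x with _ | _ | _ | _ | _ <;> simp_all [plain, mach, ou]
    rw [Mealy.act, Mealy.run, h3, h4, h1, h2]
    exact ⟨rfl, rfl⟩

theorem U_pass (hK : N < M.B ^ K) (hK1 : 1 ≤ K) (w : List (Lt Q M.B))
    (hw : ∀ x ∈ w, plain x = true) (i : Fin (K + 1)) (b : Bool) :
    (mach M q0 N K).act (.inr i, b) w = enc M w.length (if (i : ℕ) = 0 then some q0 else none)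
      (fun j => ini N j / M.B ^ (i : ℕ)) ∧
    (mach M q0 N K).run (.inr i, b) w = (.inr ⟨min K (i + w.length), by omega⟩, b) := by
  induction w generalizing i with
  | nil =>
    refine ⟨rfl, ?_⟩
    rw [Mealy.run]
    refine Prod.ext (congrArg Sum.inr (Fin.ext ?_)) rfl
    have := i.2
    simp only [List.length_nil, add_zero]
    omega
  | cons x w ih =>
    obtain ⟨h1, h2⟩ := ih (fun y hy => hw y (List.mem_cons_of_mem _ hy)) (inc i)
    have hx := hw x List.mem_cons_self
    have h3 : (mach M q0 N K).next (.inr i, b) x = (.inr (inc i), b) := by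
      rcases x with _ | _ | _ | _ | _ <;> simp_all [plain, mach, nx, bit]
    have h4 : (mach M q0 N K).out (.inr i, b) x = ucell M q0 N i := by
      rcases x with _ | _ | _ | _ | _ <;> simp_all [plain, mach, ou]
    have hi := i.2
    have h5 : ((inc i : Fin (K + 1)) : ℕ) = min K (i + 1) := rfl
    refine ⟨?_, ?_⟩
    · rw [Mealy.act, h3, h4, h1, List.length_cons, enc]
      have h6 : (if ((inc i : Fin (K + 1)) : ℕ) = 0 then some q0 else none) = (none : Option Q) := by
        rw [if_neg]; omega
      rw [h6]
      have h7 : (fun j => ini N j / M.B ^ ((inc i : Fin (K + 1)) : ℕ)) =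
          fun j => ini N j / M.B ^ (i : ℕ) / M.B := by
        funext j
        rw [Nat.div_div_eq_div_mul, ← pow_succ, h5]
        by_cases h8 : (i : ℕ) < K
        · rw [min_eq_right (by omega)]
        · have h9 : (i : ℕ) = K := by omega
          rw [min_eq_left (by omega), h9]
          have h10 : ini N j ≤ N := by unfold ini; split <;> omega
          have h11 : M.B ^ K ≤ M.B ^ (K + 1) := Nat.pow_le_pow_right M.hB (by omega)
          rw [Nat.div_eq_of_lt (by omega), Nat.div_eq_of_lt (by omega)]
      rw [h7]
      rfl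
    · rw [Mealy.run, h3, h2]
      refine Prod.ext (congrArg Sum.inr (Fin.ext ?_)) rfl
      simp only [List.length_cons, h5]
      omega

end

end Pool.Agent.Q89.MR
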