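import Pool.Agent.Q89.MR2

/-!
# The automaton is weakly reset if and only if the machine stops
-/

namespace Pool.Agent.Q89.MR

open Pool.Agent.Helper599.Core
open Pool.Agent.Helper599.Source (ini)

section
variable {Q : Type} (M : Sys Q Bool) (q0 : Q) (N K : ℕ)

/-- the computation fits into a block with `L` cells -/
inductive Fit : Option Q → (Bool → ℕ) → ℕ → Prop
  | stop (q : Q) (n : Bool → ℕ) (L : ℕ) : M.nxt q (M.res n) = none → Fit (some q) n (L + 1)
  | step (q q' : Q) (n : Bool → ℕ) (L : ℕ) : M.nxt q (M.res n) = some q' →
      (∀ j, M.nn q n j < M.B ^ (L + 1)) → Fit (some q') (M.nn q n) (L + 1) →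
      Fit (some q) n (L + 2)

theorem fit_exists (hB : 2 ≤ M.B) (o : Option Q) (n : Bool → ℕ) (h : M.Halts o n) (ho : o ≠ none) :
    ∃ L0, ∀ L, L0 ≤ L → Fit M o n L := by
  induction h with
  | stop n => exact absurd rfl ho
  | step q n h ih =>
    cases hn : M.nxt q (M.res n) with
    | none =>
      refine ⟨1, fun L hL => ?_⟩
      obtain ⟨L', rfl⟩ : ∃ L', L = L' + 1 := ⟨L - 1, by omega⟩
      exact Fit.stop q n L' hn
    | some q' =>
      rw [hn] at ih
      obtain ⟨L0, h0⟩ := ih (by simp)
      refine ⟨L0 + (M.nn q n true + M.nn q n false) + 2, fun L hL => ?_⟩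
      obtain ⟨L', rfl⟩ : ∃ L', L = L' + 2 := ⟨L - 2, by omega⟩
      refine Fit.step q q' n L' hn ?_ (h0 _ (by omega))
      intro j
      have h1 : M.nn q n j ≤ L' + 1 := by
        cases j <;> omega
      exact lt_of_le_of_lt h1 (Nat.lt_pow_self (by omega))

/-- good words -/
def Good (L0 : ℕ) (w : List (Lt Q M.B)) : Prop :=
  ∃ (x : Lt Q M.B) (i L : ℕ) (q : Q) (n : Bool → ℕ), (x = .star ∨ x = .cross) ∧ i + L = L0 ∧
    Fit M (some q) n L ∧
    w = x :: .tri :: (List.replicate i .blank ++ (enc M L (some q) n ++ [.star]))

theorem rep_plain (i : ℕ) (w : List (Lt Q M.B)) (hw : ∀ x ∈ w, plain x = true) :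
    ∀ x ∈ (List.replicate i .blank ++ w : List (Lt Q M.B)), plain x = true := by
  intro x hx
  rw [List.mem_append] at hx
  rcases hx with hx | hx
  · rw [List.eq_of_mem_replicate hx]; rfl
  · exact hw x hx

theorem next_first (p : Md M K × Bool) (x : Lt Q M.B) (hx : x = .star ∨ x = .cross) :
    ∃ f b, (mach M q0 N K).next p x = (.inl (.W f), b) ∧
      ((mach M q0 N K).out p x = .star ∨ (mach M q0 N K).out p x = .cross) := by
  rcases hx with rfl | rfl
  · refine ⟨false, false, ?_, ?_⟩
    · rcases p with ⟨(b | _ | _ | ⟨o, q, r, c⟩) | i, b'⟩ <;> rfl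
    · have : (mach M q0 N K).out p .star = if acc p.1 then .star else .cross := by
        rcases p with ⟨(b | _ | _ | ⟨o, q, r, c⟩) | i, b'⟩ <;> rfl
      rw [this]
      split
      · left; rfl
      · right; rfl
  · refine ⟨flag p.1, p.2, ?_, Or.inr ?_⟩
    · rcases p with ⟨(b | _ | _ | ⟨o, q, r, c⟩) | i, b'⟩ <;> rfl
    · rcases p with ⟨(b | _ | _ | ⟨o, q, r, c⟩) | i, b'⟩ <;> rfl

theorem out_star (m : Md M K) (b : Bool) :
    (mach M q0 N K).out (m, b) .star = if acc m then .star else .cross := by
  rcases m with (b | _ | _ | ⟨o, q, r, c⟩) | i <;> rfl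

theorem next_star (p : Md M K × Bool) :
    (mach M q0 N K).next p .star = (.inl (.W false), false) := by
  rcases p with ⟨(b | _ | _ | ⟨o, q, r, c⟩) | i, b'⟩ <;> rfl

theorem next_tri (p : Md M K × Bool) :
    (mach M q0 N K).next p .tri = (if flag p.1 then .inr 0 else .inl .K0, p.2) := by
  rcases p with ⟨(b | _ | _ | ⟨o, q, r, c⟩) | i, b'⟩ <;> rfl

theorem out_tri (p : Md M K × Bool) : (mach M q0 N K).out p .tri = .tri := by
  rcases p with ⟨(b | _ | _ | ⟨o, q, r, c⟩) | i, b'⟩ <;> rfl

theorem good_step (hK : N < M.B ^ K) (hK1 : 1 ≤ K) (L0 : ℕ) (hL0 : K ≤ L0)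
    (hfit : Fit M (some q0) (ini N) L0) (w : List (Lt Q M.B)) (hw : Good M L0 w)
    (p : Md M K × Bool) : Good M L0 ((mach M q0 N K).act p w) := by
  obtain ⟨x, i, L, q, n, hx, hiL, hf, rfl⟩ := hw
  obtain ⟨f, b, h1, h2⟩ := next_first M q0 N K p x hx
  rw [Mealy.act, Mealy.act, h1, next_tri, out_tri]
  cases f with
  | true =>
    refine ⟨_, 0, L0, q0, ini N, h2, by omega, hfit, ?_⟩
    have hpl : ∀ y ∈ (List.replicate i .blank ++ enc M L (some q) n : List (Lt Q M.B)),
        plain y = true := rep_plain M i _ (enc_plain M L _ n)
    have hlen : (List.replicate i .blank ++ enc M L (some q) n : List (Lt Q M.B)).length = L0 := by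
      rw [List.length_append, List.length_replicate, enc_length, hiL]
    obtain ⟨h3, h4⟩ := U_pass M q0 N K hK hK1 _ hpl 0 b
    have h5 : ((if flag (.inl (.W true) : Md M K) = true then .inr 0 else .inl .K0, b) :
        Md M K × Bool) = (.inr 0, b) := rfl
    change _ :: _ :: (mach M q0 N K).act
      ((if flag (.inl (.W true) : Md M K) = true then .inr 0 else .inl .K0, b)) _ = _
    obtain ⟨i', h4', hi'⟩ : ∃ i' : Fin (K + 1), (mach M q0 N K).run (.inr 0, b)
        (List.replicate i .blank ++ enc M L (some q) n) = (.inr i', b) ∧ (i' : ℕ) = K := by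
      refine ⟨_, h4, ?_⟩
      change min K (((0 : Fin (K + 1)) : ℕ) + _) = K
      rw [hlen, Fin.val_zero]
      omega
    rw [h5, ← List.append_assoc, Mealy.act_append, h3, h4', hlen]
    simp only [Fin.val_zero, if_true, pow_zero, Nat.div_one, List.replicate_zero, List.nil_append]
    rw [Mealy.act, out_star]
    have h6 : acc (.inr i' : Md M K) = true := by
      simp only [acc, decide_eq_true_eq]
      exact hi'
    rw [h6]
    rfl
  | false =>
    change Good M L0 (_ :: _ :: (mach M q0 N K).act (.inl .K0, b) _)
    rw [Mealy.act_append, (K0_blank M q0 N K i b).1, (K0_blank M q0 N K i b).2]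
    cases hf with
    | stop _ _ L' hn =>
      refine ⟨_, i, L' + 1, q, n, h2, hiL, Fit.stop q n L' hn, ?_⟩
      rw [enc, List.cons_append, Mealy.act]
      have h3 : (mach M q0 N K).next (.inl .K0, b) (.cell (some q) (M.res n)) =
          (.inl .H, b) := by
        simp [mach, nx, bit, hn]
      have h4 : (mach M q0 N K).out (.inl .K0, b) (.cell (some q) (M.res n)) =
          .cell (some q) (M.res n) := by
        simp [mach, ou, hn]
      obtain ⟨h5, h6⟩ := H_pass M q0 N K _ (enc_plain M L' none fun j => n j / M.B) b
      rw [h3, h4, Mealy.act_append, h5, h6, Mealy.act, out_star]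
      rfl
    | step _ q' _ L' hn hlt hf' =>
      refine ⟨_, i + 1, L' + 1, q', M.nn q n, h2, by omega, hf', ?_⟩
      rw [enc, List.cons_append, Mealy.act]
      have h3 : (mach M q0 N K).next (.inl .K0, b) (.cell (some q) (M.res n)) =
          (.inl (.K1 (some q') q (M.res n) fun j =>
            ⟨M.b q (M.res n) j, Nat.lt_succ_of_le (M.hb q (M.res n) j)⟩), b) := by
        simp [mach, nx, bit, hn]
      have h4 : (mach M q0 N K).out (.inl .K0, b) (.cell (some q) (M.res n)) =
          .blank := by
        simp [mach, ou, hn]
      obtain ⟨h5, c', h6, h7⟩ := K1_pass M q0 N K (L' + 1) (some q') q (M.res n)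
        (fun j => ⟨M.b q (M.res n) j, Nat.lt_succ_of_le (M.hb q (M.res n) j)⟩)
        (fun j => n j / M.B) b
      have h8 := h7 hlt
      rw [h3, h4, Mealy.act_append, h5, h6, Mealy.act, out_star]
      have h9 : acc (.inl (.K1 (if L' + 1 = 0 then some q' else none) q (M.res n) c') : Md M K) =
          true := by
        simp only [Nat.add_eq_zero_iff, one_ne_zero, and_false, if_false, acc, decide_eq_true_eq]
        exact h8
      rw [h9]
      have h10 : (List.replicate (i + 1) .blank : List (Lt Q M.B)) =
          List.replicate i .blank ++ [.blank] := List.replicate_succ'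
      rw [h10, List.append_assoc]
      rfl

theorem weaklyReset_of_halts (hB : 2 ≤ M.B) (hK : N < M.B ^ K) (hK1 : 1 ≤ K)
    (h : M.Halts (some q0) (ini N)) : (mach M q0 N K).WeaklyReset := by
  obtain ⟨L1, h1⟩ := fit_exists M hB _ _ h (by simp)
  rw [Mealy.weaklyReset_iff]
  have hfit := h1 (L1 + K) (by omega)
  refine ⟨.star :: .tri :: (List.replicate 0 .blank ++ (enc M (L1 + K) (some q0) (ini N) ++
    [.star])), fun L => ?_⟩
  have hgood : ∀ (L : List (Md M K × Bool)) (w : List (Lt Q M.B)), Good M (L1 + K) w →
      Good M (L1 + K) ((mach M q0 N K).actL L w) := by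
    intro L
    induction L with
    | nil => exact fun w hw => hw
    | cons p L ih =>
      intro w hw
      exact ih _ (good_step M q0 N K hK hK1 _ (by omega) hfit w hw p)
  obtain ⟨x, i, L', q, n, -, -, -, hw⟩ := hgood L _ ⟨.star, 0, L1 + K, q0, ini N, Or.inl rfl,
    by omega, hfit, rfl⟩
  rw [mem_syn, hw]
  simp only [List.countP_cons, List.countP_append, List.countP_nil]
  have : isStar (.star : Lt Q M.B) = true := rfl
  rw [this]
  simp

/-! ### Killing stars -/

theorem flag_nx (m : Md M K) (x : Lt Q M.B) (hx : isStar x = false) :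
    flag (nx M K m x) = flag m := by
  rcases x with _ | _ | _ | _ | ⟨_ | q1, d⟩
  · change flag (if flag m then .inr 0 else .inl .K0) = flag m
    cases hm : flag m <;> rfl
  · simp [isStar] at hx
  · rcases m with (b | _ | _ | ⟨o, q, r, c⟩) | i <;> rfl
  · rcases m with (b | _ | _ | ⟨o, q, r, c⟩) | i <;> rfl
  · rcases m with (b | _ | _ | ⟨o, q, r, c⟩) | i <;> rfl
  · rcases m with (b | _ | _ | ⟨o, q, r, c⟩) | i
    · rfl
    · cases hn : M.nxt q1 d <;> simp [nx, hn, flag]
    · rfl
    · rfl
    · rfl

theorem run_flag (p : Md M K × Bool) (w : List (Lt Q M.B)) (hw : w.countP isStar = 0) :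
    flag ((mach M q0 N K).run p w).1 = flag p.1 := by
  induction w generalizing p with
  | nil => rfl
  | cons x w ih =>
    rw [List.countP_cons] at hw
    have h1 : isStar x = false := by
      by_contra h
      simp only [Bool.not_eq_false] at h
      rw [if_pos h] at hw
      omega
    rw [Mealy.run, ih _ (by omega)]
    exact flag_nx M K p.1 x h1

theorem count_plain (w : List (Lt Q M.B)) (hw : ∀ x ∈ w, plain x = true) :
    w.countP isStar = 0 := by
  rw [List.countP_eq_zero]
  intro x hx h
  have := hw x hx
  rcases x with _ | _ | _ | _ | _ <;> simp_all [plain, isStar]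

theorem kill (L : ℕ) : ∀ (i : ℕ) (q : Q) (n : Bool → ℕ) (p1 v : List (Lt Q M.B)),
    p1.countP isStar = 0 → ¬ M.Halts (some q) n →
    ∃ Ls : List (Md M K × Bool), ((mach M q0 N K).actL Ls (p1 ++ .tri :: (List.replicate i .blank ++
      (enc M L (some q) n ++ .star :: v)))).countP isStar ≤ v.countP isStar := by
  induction L with
  | zero =>
    intro i q n p1 v hp1 hh
    refine ⟨[(.inl (.W false), false)], ?_⟩
    rw [Mealy.actL, Mealy.actL, Mealy.act_append, Mealy.act, out_tri, next_tri]
    have hf : flag ((mach M q0 N K).run (.inl (.W false), false) p1).1 = false := by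
      rw [run_flag M q0 N K _ _ hp1]; rfl
    rw [hf]
    simp only [Bool.false_eq_true, if_false]
    rw [Mealy.act_append, (K0_blank M q0 N K i _).1, (K0_blank M q0 N K i _).2, enc,
      List.nil_append, Mealy.act, out_star]
    have h1 := act_count M q0 N K (.inl (.W false), false) p1
    have h2 := act_count M q0 N K ((mach M q0 N K).next (.inl .K0,
      ((mach M q0 N K).run (.inl (.W false), false) p1).2) .star) v
    have h3 : acc (.inl .K0 : Md M K) = false := rfl
    have h4 : isStar (.tri : Lt Q M.B) = false := rfl
    have h5 : isStar (.cross : Lt Q M.B) = false := rfl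
    have h6 : (List.replicate i .blank : List (Lt Q M.B)).countP isStar = 0 :=
      count_plain M _ fun x hx => by rw [List.eq_of_mem_replicate hx]; rfl
    rw [h3]
    simp only [List.countP_append, List.countP_cons, h4, h5, h6, Bool.false_eq_true, if_false]
    omega
  | succ L ih =>
    intro i q n p1 v hp1 hh
    have hf : flag ((mach M q0 N K).run (.inl (.W false), false) p1).1 = false := by
      rw [run_flag M q0 N K _ _ hp1]; rfl
    cases hn : M.nxt q (M.res n) with
    | none =>
      exfalso
      apply hh
      apply Sys.Halts.step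
      rw [hn]
      exact Sys.Halts.stop _
    | some q' =>
      have hh' : ¬ M.Halts (some q') (M.nn q n) := by
        intro h
        apply hh
        apply Sys.Halts.step
        rw [hn]
        exact h
      set b := ((mach M q0 N K).run (.inl (.W false), false) p1).2 with hb
      have h3 : (mach M q0 N K).next (.inl .K0, b) (.cell (some q) (M.res n)) =
          (.inl (.K1 (some q') q (M.res n) fun j =>
            ⟨M.b q (M.res n) j, Nat.lt_succ_of_le (M.hb q (M.res n) j)⟩), b) := by
        simp [mach, nx, bit, hn]
      have h4 : (mach M q0 N K).out (.inl .K0, b) (.cell (some q) (M.res n)) =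
          .blank := by
        simp [mach, ou, hn]
      obtain ⟨h5, c', h6, -⟩ := K1_pass M q0 N K L (some q') q (M.res n)
        (fun j => ⟨M.b q (M.res n) j, Nat.lt_succ_of_le (M.hb q (M.res n) j)⟩)
        (fun j => n j / M.B) b
      have key : (mach M q0 N K).act (.inl (.W false), false) (p1 ++ .tri ::
          (List.replicate i .blank ++ (enc M (L + 1) (some q) n ++ .star :: v))) =
          (mach M q0 N K).act (.inl (.W false), false) p1 ++ .tri ::
          (List.replicate (i + 1) .blank ++ (enc M L (some q') (M.nn q n) ++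
            (if acc (.inl (.K1 (if L = 0 then some q' else none) q (M.res n) c') : Md M K) then
              .star else .cross) :: (mach M q0 N K).act (.inl (.W false), false) v)) := by
        rw [Mealy.act_append, Mealy.act, out_tri, next_tri, hf]
        simp only [Bool.false_eq_true, if_false]
        rw [← hb, Mealy.act_append, (K0_blank M q0 N K i _).1, (K0_blank M q0 N K i _).2, enc,
          List.cons_append, Mealy.act, h3, h4, Mealy.act_append, h5, h6, Mealy.act, out_star,
          next_star]
        have h10 : (List.replicate (i + 1) .blank : List (Lt Q M.B)) =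
            List.replicate i .blank ++ [.blank] := List.replicate_succ'
        rw [h10, List.append_assoc]
        rfl
      have e1 := act_count M q0 N K (.inl (.W false), false) p1
      have e2 := act_count M q0 N K (.inl (.W false), false) v
      by_cases hacc : acc (.inl (.K1 (if L = 0 then some q' else none) q (M.res n) c') :
          Md M K) = true
      · rw [if_pos hacc] at key
        obtain ⟨Ls, hLs⟩ := ih (i + 1) q' (M.nn q n)
          ((mach M q0 N K).act (.inl (.W false), false) p1)
          ((mach M q0 N K).act (.inl (.W false), false) v) (by omega) hh'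
        refine ⟨(.inl (.W false), false) :: Ls, ?_⟩
        rw [Mealy.actL, key]
        omega
      · rw [if_neg hacc] at key
        refine ⟨[(.inl (.W false), false)], ?_⟩
        rw [Mealy.actL, Mealy.actL, key]
        have h4 : isStar (.tri : Lt Q M.B) = false := rfl
        have h5 : isStar (.cross : Lt Q M.B) = false := rfl
        have h6 : (List.replicate (i + 1) .blank : List (Lt Q M.B)).countP isStar = 0 :=
          count_plain M _ fun x hx => by rw [List.eq_of_mem_replicate hx]; rfl
        have h7 : (enc M L (some q') (M.nn q n)).countP isStar = 0 :=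
          count_plain M _ (enc_plain M L _ _)
        simp only [List.countP_append, List.countP_cons, h4, h5, h6, h7, Bool.false_eq_true,
          if_false]
        omega

theorem run_U (w : List (Lt Q M.B)) (hw : w.countP isStar = 0) (b : Bool) :
    ∀ i, ((mach M q0 N K).run (.inl (.W true), b) w).1 = .inr i →
      ∃ p1 t, w = p1 ++ .tri :: t ∧ (∀ x ∈ t, plain x = true) ∧ (i : ℕ) = min K t.length := by
  induction w using List.reverseRecOn with
  | nil =>
    intro i h
    exact absurd h (by simp [Mealy.run])
  | append_singleton w x ih =>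
    intro i h
    rw [List.countP_append] at hw
    have hw1 : w.countP isStar = 0 := by omega
    rw [Mealy.run_append] at h
    change nx M K ((mach M q0 N K).run (.inl (.W true), b) w).1 x = .inr i at h
    have hx : isStar x = false := by
      by_contra hc
      simp only [Bool.not_eq_false] at hc
      rw [List.countP_cons, if_pos hc] at hw
      omega
    by_cases htri : x = .tri
    · subst htri
      have hf : flag ((mach M q0 N K).run (.inl (.W true), b) w).1 = true := by
        rw [run_flag M q0 N K _ _ hw1]; rfl
      have h1 : nx M K ((mach M q0 N K).run (.inl (.W true), b) w).1 .tri = .inr 0 := by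
        change (if flag ((mach M q0 N K).run (.inl (.W true), b) w).1 then (Sum.inr 0 : Md M K)
          else .inl .K0) = _
        rw [hf, if_pos rfl]
      rw [h1] at h
      refine ⟨w, [], rfl, by simp, ?_⟩
      rw [← Sum.inr.inj h]
      simp
    · cases hm : ((mach M q0 N K).run (.inl (.W true), b) w).1 with
      | inl m =>
        exfalso
        rw [hm] at h
        rcases m with b | _ | _ | ⟨o, q, r, c⟩ <;> rcases x with _ | _ | _ | _ | ⟨_ | q1, d⟩ <;>
          simp_all [nx, isStar]
        cases hn : M.nxt q1 d <;> simp_all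
      | inr i0 =>
        obtain ⟨p1, t, h1, h2, h3⟩ := ih hw1 i0 hm
        rw [hm] at h
        have h4 : plain x = true ∧ i = inc i0 := by
          rcases x with _ | _ | _ | _ | ⟨o, d⟩
          · exact absurd rfl htri
          · simp [isStar] at hx
          · exact absurd h (by simp [nx])
          · exact ⟨rfl, (Sum.inr.inj h).symm⟩
          · exact ⟨rfl, (Sum.inr.inj h).symm⟩
        refine ⟨p1, t ++ [x], ?_, ?_, ?_⟩
        · rw [h1, List.append_assoc, List.cons_append]
        · intro y hy
          rw [List.mem_append] at hy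
          rcases hy with hy | hy
          · exact h2 y hy
          · rw [List.mem_singleton.1 hy]; exact h4.1
        · rw [h4.2]
          change min K ((i0 : ℕ) + 1) = _
          rw [List.length_append, List.length_singleton]
          omega

theorem split_star (u : List (Lt Q M.B)) (hu : u.countP isStar ≠ 0) :
    ∃ p v, u = p ++ .star :: v ∧ p.countP isStar = 0 := by
  induction u with
  | nil => simp at hu
  | cons x u ih =>
    by_cases hx : isStar x = true
    · refine ⟨[], u, ?_, by simp⟩
      rcases x with _ | _ | _ | _ | _ <;> simp_all [isStar]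
    · rw [List.countP_cons, if_neg hx] at hu
      obtain ⟨p, v, h1, h2⟩ := ih hu
      refine ⟨x :: p, v, by rw [h1]; rfl, ?_⟩
      rw [List.countP_cons, if_neg hx, h2]

theorem kill_all (hK : N < M.B ^ K) (hK1 : 1 ≤ K) (hh : ¬ M.Halts (some q0) (ini N)) (k : ℕ) :
    ∀ u : List (Lt Q M.B), u.countP isStar ≤ k →
    ∃ Ls : List (Md M K × Bool), ((mach M q0 N K).actL Ls u).countP isStar = 0 := by
  induction k with
  | zero =>
    intro u hu
    exact ⟨[], by change u.countP isStar = 0; omega⟩
  | succ k ih =>
    intro u hu
    by_cases h0 : u.countP isStar = 0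
    · exact ⟨[], h0⟩
    obtain ⟨p, v, rfl, hp⟩ := split_star M u h0
    have hstar : isStar (.star : Lt Q M.B) = true := rfl
    rw [List.countP_append, List.countP_cons, if_pos hstar] at hu
    set s : Md M K × Bool := (.inl (.W true), false) with hs
    have hf : flag ((mach M q0 N K).run s p).1 = true := by
      rw [run_flag M q0 N K _ _ hp]; rfl
    have e1 := act_count M q0 N K s p
    have e2 := act_count M q0 N K (.inl (.W false), false) v
    have key : (mach M q0 N K).act s (p ++ .star :: v) = (mach M q0 N K).act s p ++
        (if acc ((mach M q0 N K).run s p).1 then .star else .cross) ::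
          (mach M q0 N K).act (.inl (.W false), false) v := by
      rw [Mealy.act_append, Mealy.act, next_star]
      congr 2
    by_cases hacc : acc ((mach M q0 N K).run s p).1 = true
    · rw [if_pos hacc] at key
      obtain ⟨i, hi⟩ : ∃ i, ((mach M q0 N K).run s p).1 = .inr i := by
        cases hm : ((mach M q0 N K).run s p).1 with
        | inl m =>
          exfalso
          rw [hm] at hf hacc
          rcases m with b | _ | _ | ⟨o, q, r, c⟩ <;> simp_all [flag, acc]
        | inr i => exact ⟨i, rfl⟩
      obtain ⟨p1, t, hpt, ht, -⟩ := run_U M q0 N K p hp false i hi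
      have hp1 : p1.countP isStar = 0 := by
        rw [hpt, List.countP_append] at hp
        omega
      have hf1 : flag ((mach M q0 N K).run s p1).1 = true := by
        rw [run_flag M q0 N K _ _ hp1]; rfl
      have key2 : (mach M q0 N K).act s p = (mach M q0 N K).act s p1 ++ .tri ::
          enc M t.length (some q0) (ini N) := by
        rw [hpt, Mealy.act_append, Mealy.act, out_tri, next_tri, hf1, if_pos rfl,
          (U_pass M q0 N K hK hK1 t ht 0 _).1]
        simp
      have e3 := act_count M q0 N K s p1
      obtain ⟨Ls, hLs⟩ := kill M q0 N K t.length 0 q0 (ini N) ((mach M q0 N K).act s p1)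
        ((mach M q0 N K).act (.inl (.W false), false) v) (by omega) hh
      have key3 : (mach M q0 N K).act s (p ++ .star :: v) = (mach M q0 N K).act s p1 ++ .tri ::
          (List.replicate 0 .blank ++ (enc M t.length (some q0) (ini N) ++
            .star :: (mach M q0 N K).act (.inl (.W false), false) v)) := by
        rw [key, key2]
        simp
      obtain ⟨Ls', hLs'⟩ := ih ((mach M q0 N K).actL Ls ((mach M q0 N K).act s (p ++ .star :: v)))
        (by rw [key3]; omega)
      refine ⟨s :: (Ls ++ Ls'), ?_⟩
      rw [Mealy.actL, Mealy.actL_append]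
      exact hLs'
    · rw [if_neg hacc] at key
      have hcross : isStar (.cross : Lt Q M.B) = false := rfl
      obtain ⟨Ls', hLs'⟩ := ih ((mach M q0 N K).act s (p ++ .star :: v)) (by
        rw [key, List.countP_append, List.countP_cons, hcross]
        simp only [Bool.false_eq_true, if_false]
        omega)
      exact ⟨s :: Ls', hLs'⟩

theorem weaklyReset_iff_halts (hB : 2 ≤ M.B) (hK : N < M.B ^ K) (hK1 : 1 ≤ K) :
    (mach M q0 N K).WeaklyReset ↔ M.Halts (some q0) (ini N) := by
  constructor
  · intro h
    by_contra hh
    rw [Mealy.weaklyReset_iff] at h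
    obtain ⟨u, hu⟩ := h
    obtain ⟨Ls, hLs⟩ := kill_all M q0 N K hK hK1 hh _ u le_rfl
    have := hu Ls
    rw [mem_syn] at this
    exact this hLs
  · exact weaklyReset_of_halts M q0 N K hB hK hK1

end

end Pool.Agent.Q89.MR
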