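import Pool.Agent.Q89.MR3

/-!
# Tables and undecidability
-/

namespace Pool.Agent.Q89.MR

open Pool.Agent.Helper599.Core
open Pool.Agent.Helper599.Source (ini)

theorem ofFn_add {α : Type} {m n : ℕ} (f : Fin (m + n) → α) :
    List.ofFn f = (List.ofFn fun i => f (Fin.castAdd n i)) ++
      List.ofFn fun j => f (Fin.natAdd m j) := by
  rw [← List.ofFn_fin_append]
  congr 1
  exact Fin.append_castAdd_natAdd.symm

theorem ofFn_nat {α : Type} (n : ℕ) (f : ℕ → α) :
    List.ofFn (fun i : Fin n => f i) = (List.range n).map f := by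
  apply List.ext_getElem
  · simp
  · intro i h1 h2
    simp

section fin
variable (Q : Type) [Finite Q] (B l : ℕ)

instance : Finite (Lt Q B) := by
  refine Finite.of_injective (fun x : Lt Q B => match x with
    | .tri => (Sum.inl 0 : Fin 4 ⊕ (Option Q × (Bool → Fin B)))
    | .star => .inl 1
    | .cross => .inl 2
    | .blank => .inl 3
    | .cell o d => .inr (o, d)) ?_
  intro a b h
  rcases a with _ | _ | _ | _ | ⟨o, d⟩ <;> rcases b with _ | _ | _ | _ | ⟨o', d'⟩ <;> simp_all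

instance : Finite (Fx Q B l) := by
  refine Finite.of_injective (fun x : Fx Q B l => match x with
    | .W b => (Sum.inl (if b then 0 else 1) :
        Fin 4 ⊕ (Option Q × Q × (Bool → Fin B) × (Bool → Fin (l + 1))))
    | .K0 => .inl 2
    | .H => .inl 3
    | .K1 o q r c => .inr (o, q, r, c)) ?_
  intro a b h
  rcases a with (_ | _) | _ | _ | ⟨o, q, r, c⟩ <;> rcases b with (_ | _) | _ | _ | ⟨o', q', r', c'⟩ <;>
    simp_all

end fin

section
variable {Q : Type} [Finite Q] (M : Sys Q Bool) (q0 : Q)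

/-- labels of the states -/
noncomputable def eS {m : ℕ} (e0 : Fx Q M.B M.l × Bool ≃ Fin m) (K : ℕ) :
    Md M K × Bool ≃ Fin (m + (K + 1) * 2) :=
  ((Equiv.sumProdDistrib _ _ _).trans (Equiv.sumCongr e0
    ((Equiv.prodCongr (Equiv.refl _) finTwoEquiv.symm).trans finProdFinEquiv))).trans
    finSumFinEquiv

theorem eS_inl {m : ℕ} (e0 : Fx Q M.B M.l × Bool ≃ Fin m) (K : ℕ) (x : Fx Q M.B M.l) (b : Bool) :
    ((eS M e0 K (.inl x, b) : Fin _) : ℕ) = e0 (x, b) := by
  simp [eS, Equiv.sumProdDistrib]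

theorem eS_inr {m : ℕ} (e0 : Fx Q M.B M.l × Bool ≃ Fin m) (K : ℕ) (i : Fin (K + 1)) (b : Bool) :
    ((eS M e0 K (.inr i, b) : Fin _) : ℕ) = m + ((if b then 1 else 0) + 2 * i) := by
  cases b <;> simp [eS, Equiv.sumProdDistrib, finTwoEquiv, finProdFinEquiv]

theorem eS_symm_castAdd {m : ℕ} (e0 : Fx Q M.B M.l × Bool ≃ Fin m) (K : ℕ) (s : Fin m) :
    (eS M e0 K).symm (Fin.castAdd _ s) = (.inl (e0.symm s).1, (e0.symm s).2) := by
  rw [Equiv.symm_apply_eq]
  apply Fin.ext
  rw [eS_inl]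
  simp

theorem eS_symm_natAdd {m : ℕ} (e0 : Fx Q M.B M.l × Bool ≃ Fin m) (K : ℕ) (j : Fin ((K + 1) * 2)) :
    (eS M e0 K).symm (Fin.natAdd m j) =
      (.inr ⟨(j : ℕ) / 2, by have := j.2; omega⟩, decide ((j : ℕ) % 2 = 1)) := by
  rw [Equiv.symm_apply_eq]
  apply Fin.ext
  rw [eS_inr]
  simp only [Fin.val_natAdd, decide_eq_true_eq]
  split <;> omega

/-- entries of the rows of the states `U i` -/
noncomputable def ent {m d : ℕ} (e0 : Fx Q M.B M.l × Bool ≃ Fin m) (g : Lt Q M.B ≃ Fin d) :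
    Lt Q M.B → ℕ × ℕ → ℕ × ℕ
  | .tri, p => (m + p.2 % 2, (g .tri : ℕ))
  | .star, p => ((e0 (.W false, false) : ℕ),
      if p.2 / 2 = p.1 + 1 then (g .star : ℕ) else (g .cross : ℕ))
  | .cross, p => (if p.2 % 2 = 1 then (e0 (.W true, true) : ℕ) else (e0 (.W true, false) : ℕ),
      (g .cross : ℕ))
  | .blank, p => (m + (p.2 % 2 + 2 * min (p.1 + 1) (p.2 / 2 + 1)),
      (g (ucell M q0 p.1 (p.2 / 2)) : ℕ))
  | .cell _ _, p => (m + (p.2 % 2 + 2 * min (p.1 + 1) (p.2 / 2 + 1)),
      (g (ucell M q0 p.1 (p.2 / 2)) : ℕ))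

theorem ucell_primrec {d : ℕ} (g : Lt Q M.B ≃ Fin d) :
    Primrec (fun p : ℕ × ℕ => (g (ucell M q0 p.1 p.2) : ℕ)) := by
  have h1 : Primrec (fun x : Bool × Fin M.B => (g (.cell (if x.1 then some q0 else none)
      (fun b => if b then x.2 else ⟨0, M.hB⟩)) : ℕ)) := Primrec.dom_finite _
  have hpow : Primrec (fun p : ℕ × ℕ => p.1 / M.B ^ p.2) := by
    have : Primrec (fun p : ℕ × ℕ => (fun x => x / M.B)^[p.2] p.1) :=
      Primrec.nat_iterate Primrec.snd Primrec.fst
        (Primrec.nat_div.comp Primrec.snd (Primrec.const _)).to₂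
    refine this.of_eq fun p => ?_
    obtain ⟨a, k⟩ := p
    simp only
    induction k with
    | zero => simp
    | succ k ih => rw [Function.iterate_succ_apply', ih, pow_succ, Nat.div_div_eq_div_mul]
  have h2 : Primrec (fun p : ℕ × ℕ => (⟨p.1 / M.B ^ p.2 % M.B, Nat.mod_lt _ M.hB⟩ : Fin M.B)) := by
    rw [← Primrec.fin_val_iff]
    exact Primrec.nat_mod.comp hpow (Primrec.const _)
  have h3 : Primrec (fun p : ℕ × ℕ => decide (p.2 = 0)) :=
    (Primrec.eq.comp Primrec.snd (Primrec.const 0)).decide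
  refine (h1.comp (Primrec.pair h3 h2)).of_eq fun p => ?_
  congr 2
  unfold ucell
  congr 1
  · simp
  · funext b
    apply Fin.ext
    cases b
    · simp [Sys.res, ini]
    · simp [Sys.res, ini]

theorem ent_primrec {m d : ℕ} (e0 : Fx Q M.B M.l × Bool ≃ Fin m) (g : Lt Q M.B ≃ Fin d)
    (x : Lt Q M.B) : Primrec (ent M q0 e0 g x) := by
  have hm : Primrec (fun p : ℕ × ℕ => p.2 % 2) :=
    Primrec.nat_mod.comp Primrec.snd (Primrec.const 2)
  have hd : Primrec (fun p : ℕ × ℕ => p.2 / 2) :=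
    Primrec.nat_div.comp Primrec.snd (Primrec.const 2)
  have hp : Primrec (fun p : ℕ × ℕ => (m + (p.2 % 2 + 2 * min (p.1 + 1) (p.2 / 2 + 1)),
      (g (ucell M q0 p.1 (p.2 / 2)) : ℕ))) := by
    refine Primrec.pair ?_ ?_
    · exact Primrec.nat_add.comp (Primrec.const m) (Primrec.nat_add.comp hm
        (Primrec.nat_mul.comp (Primrec.const 2) (Primrec.nat_min.comp
          (Primrec.succ.comp Primrec.fst) (Primrec.succ.comp hd))))
    · exact (ucell_primrec M q0 g).comp (Primrec.pair Primrec.fst hd)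
  rcases x with _ | _ | _ | _ | ⟨o, d⟩
  · exact Primrec.pair (Primrec.nat_add.comp (Primrec.const m) hm) (Primrec.const _)
  · exact Primrec.pair (Primrec.const _) (Primrec.ite (Primrec.eq.comp hd
      (Primrec.succ.comp Primrec.fst)) (Primrec.const _) (Primrec.const _))
  · exact Primrec.pair (Primrec.ite (Primrec.eq.comp hm (Primrec.const 1)) (Primrec.const _)
      (Primrec.const _)) (Primrec.const _)
  · exact hp
  · exact hp

/-- rows of the fixed states -/
noncomputable def fixR {m d : ℕ} (e0 : Fx Q M.B M.l × Bool ≃ Fin m) (g : Lt Q M.B ≃ Fin d) :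
    List (List (ℕ × ℕ)) :=
  List.ofFn fun s : Fin m => List.ofFn fun x : Fin d =>
    ((eS M e0 0 ((mach M q0 0 0).next (.inl (e0.symm s).1, (e0.symm s).2) (g.symm x)) : ℕ),
      (g ((mach M q0 0 0).out (.inl (e0.symm s).1, (e0.symm s).2) (g.symm x)) : ℕ))

theorem fix_next {m : ℕ} (e0 : Fx Q M.B M.l × Bool ≃ Fin m) (N K : ℕ) (f : Fx Q M.B M.l)
    (b : Bool) (x : Lt Q M.B) :
    ((eS M e0 K ((mach M q0 N K).next (.inl f, b) x) : Fin _) : ℕ) =
      (eS M e0 0 ((mach M q0 0 0).next (.inl f, b) x) : Fin _) := by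
  rcases f with (_ | _) | _ | _ | ⟨o, q, r, c⟩ <;> rcases x with _ | _ | _ | _ | ⟨_ | q1, d⟩ <;>
    simp only [mach, nx, flag, if_true, Bool.false_eq_true, if_false, eS_inl, eS_inr,
      Fin.val_zero]
  cases hn : M.nxt q1 d <;> simp only [eS_inl]

theorem fix_out (N K : ℕ) (f : Fx Q M.B M.l) (b : Bool) (x : Lt Q M.B) :
    (mach M q0 N K).out (.inl f, b) x = (mach M q0 0 0).out (.inl f, b) x := by
  rcases f with (_ | _) | _ | _ | ⟨_ | o, q, r, c⟩ <;>
    rcases x with _ | _ | _ | _ | ⟨_ | q1, d⟩ <;> rfl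

theorem table_eq {m d : ℕ} (e0 : Fx Q M.B M.l × Bool ≃ Fin m) (g : Lt Q M.B ≃ Fin d) (N : ℕ) :
    ((mach M q0 N (N + 1)).map (eS M e0 (N + 1)) g).table = fixR M q0 e0 g ++
      (List.range ((N + 1 + 1) * 2)).map fun j =>
        List.ofFn fun x : Fin d => ent M q0 e0 g (g.symm x) (N, j) := by
  rw [Mealy.table, ofFn_add]
  congr 1
  · unfold fixR
    congr 1
    funext s
    congr 1
    funext x
    simp only [Mealy.map, eS_symm_castAdd]
    rw [fix_next, fix_out]
  · rw [← ofFn_nat]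
    congr 1
    funext j
    congr 1
    funext x
    simp only [Mealy.map, eS_symm_natAdd]
    have hj := j.2
    refine Prod.ext ?_ ?_
    · change ((eS M e0 (N + 1) (nx M (N + 1) (.inr _) (g.symm x), bit M _ (g.symm x)) : Fin _) : ℕ)
        = _
      rcases hx : g.symm x with _ | _ | _ | _ | ⟨o, d⟩
      · simp only [nx, flag, if_true, eS_inr, bit, ent, decide_eq_true_eq, Fin.val_zero]
        split <;> omega
      · simp only [nx, eS_inl, bit, ent]
      · simp only [nx, flag, eS_inl, bit, ent]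
        by_cases h : (j : ℕ) % 2 = 1
        · simp [h]
        · simp [h]
      · simp only [nx, eS_inr, bit, ent, decide_eq_true_eq, inc]
        split <;> omega
      · simp only [nx, eS_inr, bit, ent, decide_eq_true_eq, inc]
        split <;> omega
    · change ((g (ou M q0 N (N + 1) (.inr _) (g.symm x)) : Fin _) : ℕ) = _
      rcases hx : g.symm x with _ | _ | _ | _ | ⟨o, d⟩
      · rfl
      · simp only [ou, acc, ent, decide_eq_true_eq]
        split <;> rfl
      · rfl
      · rfl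
      · rfl

theorem table_primrec {m d : ℕ} (e0 : Fx Q M.B M.l × Bool ≃ Fin m) (g : Lt Q M.B ≃ Fin d) :
    Primrec (fun N : ℕ => ((mach M q0 N (N + 1)).map (eS M e0 (N + 1)) g).table) := by
  have h1 : Primrec (fun N : ℕ => fixR M q0 e0 g ++
      (List.range ((N + 1 + 1) * 2)).map fun j =>
        List.ofFn fun x : Fin d => ent M q0 e0 g (g.symm x) (N, j)) := by
    refine Primrec.list_append.comp (Primrec.const _) ?_
    refine Primrec.list_map (Primrec.list_range.comp (Primrec.nat_mul.comp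
      (Primrec.succ.comp Primrec.succ) (Primrec.const 2))) ?_
    have h2 : Primrec (fun p : ℕ × ℕ => List.ofFn fun x : Fin d =>
        ent M q0 e0 g (g.symm x) (p.1, p.2)) :=
      Primrec.list_ofFn fun x => ent_primrec M q0 e0 g (g.symm x)
    exact h2
  exact h1.of_eq fun N => (table_eq M q0 e0 g N).symm

end

/-- For some fixed alphabet it is undecidable whether a Mealy automaton over this alphabet, given by
its table, is weakly reset. -/
theorem undecidable_fixed : ∃ d : ℕ, ¬ ∃ f : ℕ × List (List (ℕ × ℕ)) → Bool, Computable f ∧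
    ∀ (m : ℕ) (A : Mealy (Fin m) (Fin d)), f (m, A.table) = true ↔ A.WeaklyReset := by
  obtain ⟨Q, hQ, M, q0, N, hB, -, hN, hnc⟩ := Pool.Agent.Helper599.Source.exists_sys2
  have := Fintype.ofFinite (Fx Q M.B M.l × Bool)
  have := Fintype.ofFinite (Lt Q M.B)
  let e0 : Fx Q M.B M.l × Bool ≃ Fin (Fintype.card (Fx Q M.B M.l × Bool)) := Fintype.equivFin _
  let g : Lt Q M.B ≃ Fin (Fintype.card (Lt Q M.B)) := Fintype.equivFin _
  refine ⟨Fintype.card (Lt Q M.B), ?_⟩
  rintro ⟨f, hf, hcor⟩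
  apply hnc
  have key : ∀ n : ℕ, M.Halts (some q0) (ini (N n)) ↔
      f (Fintype.card (Fx Q M.B M.l × Bool) + (N n + 1 + 1) * 2,
        ((mach M q0 (N n) (N n + 1)).map (eS M e0 (N n + 1)) g).table) = true := by
    intro n
    rw [hcor, Mealy.weaklyReset_map, weaklyReset_iff_halts M q0 (N n) (N n + 1) hB ?_ (by omega)]
    exact lt_trans (Nat.lt_succ_self _) (Nat.lt_pow_self (by omega))
  have hc : Computable (fun n => f (Fintype.card (Fx Q M.B M.l × Bool) + (N n + 1 + 1) * 2,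
        ((mach M q0 (N n) (N n + 1)).map (eS M e0 (N n + 1)) g).table)) := by
    have h1 : Computable (fun n : ℕ => (Fintype.card (Fx Q M.B M.l × Bool) + (n + 1 + 1) * 2,
        ((mach M q0 n (n + 1)).map (eS M e0 (n + 1)) g).table)) :=
      (Primrec.pair (Primrec.nat_add.comp (Primrec.const _) (Primrec.nat_mul.comp
        (Primrec.succ.comp Primrec.succ) (Primrec.const 2)))
        (table_primrec M q0 e0 g)).to_comp
    exact hf.comp (h1.comp hN)
  refine ComputablePred.computable_iff.2 ⟨_, hc, ?_⟩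
  funext n
  rw [eq_iff_iff, key n]

/-- It is undecidable whether a Mealy automaton given by its table is weakly reset. -/
theorem undecidable : ¬ ∃ f : ℕ × ℕ × List (List (ℕ × ℕ)) → Bool, Computable f ∧
    ∀ (m d : ℕ) (A : Mealy (Fin m) (Fin d)), f (m, d, A.table) = true ↔ A.WeaklyReset := by
  rintro ⟨f, hf, hcor⟩
  obtain ⟨d, hd⟩ := undecidable_fixed
  refine hd ⟨fun p => f (p.1, d, p.2), ?_, fun m A => hcor m d A⟩
  exact hf.comp (Computable.pair Computable.fst (Computable.pair (Computable.const d)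
    Computable.snd))

end Pool.Agent.Q89.MR
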