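import Mathlib

/-!
# Characters of `Hom(M, ℂˣ) ⋊ T` and nonvanishing on elements of large order
-/

namespace Pool.Agent.Q89.OC

open scoped BigOperators

section generic

variable {T M : Type} [Group T] [AddCommGroup M] [DistribMulAction T M]

/-- the action of `T` on the characters of `M` -/
noncomputable def act (T M : Type) [Group T] [AddCommGroup M] [DistribMulAction T M] :
    T →* MulAut (AddChar M ℂ) where
  toFun t :=
    { toFun := fun ψ => ψ.compAddMonoidHom (DistribSMul.toAddMonoidHom M t⁻¹)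
      invFun := fun ψ => ψ.compAddMonoidHom (DistribSMul.toAddMonoidHom M t)
      left_inv := fun ψ => by ext m; simp
      right_inv := fun ψ => by ext m; simp
      map_mul' := fun ψ ψ' => by ext m; simp }
  map_one' := by ext ψ m; simp
  map_mul' s t := by ext ψ m; simp [mul_smul]

lemma act_apply (t : T) (ψ : AddChar M ℂ) (m : M) : act T M t ψ m = ψ (t⁻¹ • m) := rfl

/-- the monomial representation attached to `v` -/
noncomputable def mon (T : Type) {M : Type} [Group T] [AddCommGroup M] [DistribMulAction T M]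
    (v : M) : Representation ℂ (AddChar M ℂ ⋊[act T M] T) (T → ℂ) where
  toFun g :=
    { toFun := fun F t => g.left (t • v) * F (g.right⁻¹ * t)
      map_add' := fun F F' => by ext t; simp [mul_add]
      map_smul' := fun c F => by ext t; simp; ring }
  map_one' := by
    refine LinearMap.ext fun F => funext fun t => ?_
    simp
  map_mul' g h := by
    refine LinearMap.ext fun F => funext fun t => ?_
    simp [act_apply, mul_smul, mul_assoc]

lemma mon_apply (v : M) (g : AddChar M ℂ ⋊[act T M] T) (F : T → ℂ) (t : T) :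
    mon T v g F t = g.left (t • v) * F (g.right⁻¹ * t) := rfl

lemma character_inl [Fintype T] (v : M) (ψ : AddChar M ℂ) :
    (mon T v).character (SemidirectProduct.inl ψ) = ∑ t : T, ψ (t • v) := by
  classical
  rw [Representation.character, LinearMap.trace_eq_matrix_trace ℂ (Pi.basisFun ℂ T)]
  unfold Matrix.trace
  refine Finset.sum_congr rfl fun t _ => ?_
  rw [Matrix.diag_apply, LinearMap.toMatrix_apply]
  simp [mon_apply]

variable [Finite T] [Finite M]

theorem irr (v : M) (hfree : ∀ t : T, t • v = v → t = 1) : (mon T v).IsIrreducible := by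
  classical
  have := Fintype.ofFinite M
  have := Fintype.ofFinite T
  have hinj : ∀ s t : T, s • v = t • v → s = t := by
    intro s t h
    have h1 : (t⁻¹ * s) • v = v := by rw [mul_smul, h, inv_smul_smul]
    have h2 := hfree _ h1
    exact (inv_mul_eq_one.1 h2).symm
  have hne : (⊥ : Subrepresentation (mon T v)) ≠ ⊤ := by
    intro h
    have h1 : (⊥ : Submodule ℂ (T → ℂ)) = ⊤ := congrArg Subrepresentation.toSubmodule h
    have h2 : (fun _ => 1 : T → ℂ) ∈ (⊥ : Submodule ℂ (T → ℂ)) := by rw [h1]; trivial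
    rw [Submodule.mem_bot] at h2
    exact one_ne_zero (congrFun h2 1)
  refine { exists_pair_ne := ⟨⊥, ⊤, hne⟩, eq_bot_or_eq_top := fun L => ?_ }
  by_cases hL : L.toSubmodule = ⊥
  · left
    exact Subrepresentation.toSubmodule_injective hL
  right
  obtain ⟨F, hF, hF0⟩ := (Submodule.ne_bot_iff _).1 hL
  obtain ⟨t₀, ht₀⟩ := Function.ne_iff.1 hF0
  -- the delta function at `t₀`
  have h1 : (∑ ψ : AddChar M ℂ, (ψ (-(t₀ • v))) • mon T v (SemidirectProduct.inl ψ) F) ∈
      L.toSubmodule := by
    refine Submodule.sum_mem _ fun ψ _ => Submodule.smul_mem _ _ ?_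
    exact L.apply_mem_toSubmodule _ hF
  have h2 : (∑ ψ : AddChar M ℂ, (ψ (-(t₀ • v))) • mon T v (SemidirectProduct.inl ψ) F) =
      ((Fintype.card M : ℂ) * F t₀) • (Pi.single t₀ 1 : T → ℂ) := by
    funext t
    rw [Finset.sum_apply]
    have h3 : ∀ ψ : AddChar M ℂ,
        (ψ (-(t₀ • v)) • mon T v (SemidirectProduct.inl ψ) F) t = ψ (t • v - t₀ • v) * F t := by
      intro ψ
      rw [Pi.smul_apply, mon_apply, sub_eq_add_neg, AddChar.map_add_eq_mul]
      simp
      ring
    rw [Finset.sum_congr rfl fun ψ _ => h3 ψ, ← Finset.sum_mul, AddChar.sum_apply_eq_ite]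
    by_cases ht : t = t₀
    · subst ht
      simp
    · rw [if_neg, Pi.smul_apply, Pi.single_eq_of_ne ht]
      · simp
      · intro h
        exact ht (hinj _ _ (sub_eq_zero.1 h))
  rw [h2] at h1
  have h4 : (Pi.single t₀ 1 : T → ℂ) ∈ L.toSubmodule := by
    have hc : ((Fintype.card M : ℂ) * F t₀) ≠ 0 :=
      mul_ne_zero (Nat.cast_ne_zero.2 Fintype.card_ne_zero) ht₀
    exact (Submodule.smul_mem_iff _ hc).1 h1
  have h5 : ∀ s : T, (Pi.single s 1 : T → ℂ) ∈ L.toSubmodule := by
    intro s
    have h6 := L.apply_mem_toSubmodule (SemidirectProduct.inr (s * t₀⁻¹)) h4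
    convert h6 using 1
    funext t
    rw [mon_apply]
    simp only [SemidirectProduct.left_inr, SemidirectProduct.right_inr, AddChar.one_apply, one_mul]
    by_cases ht : t = s
    · subst ht
      simp
    · rw [Pi.single_eq_of_ne ht, Pi.single_eq_of_ne]
      intro h
      apply ht
      rw [inv_mul_eq_iff_eq_mul] at h
      simpa using h
  apply Subrepresentation.toSubmodule_injective
  change L.toSubmodule = ⊤
  rw [eq_top_iff]
  intro F' _
  have h7 : F' = ∑ s : T, F' s • (Pi.single s 1 : T → ℂ) := by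
    funext t
    rw [Finset.sum_apply, Finset.sum_eq_single t]
    · simp
    · intro b _ hb
      simp [Pi.single_eq_of_ne (Ne.symm hb)]
    · simp
  rw [h7]
  exact Submodule.sum_mem _ fun s _ => Submodule.smul_mem _ _ (h5 s)

omit [Finite T] in
/-- a character of `M` of order not dividing `n` on which the orbit sum does not vanish -/
lemma exists_char [Fintype T] (v y : M) (n : ℕ) (hfree : ∀ t : T, t • v = v → t = 1)
    (hy : ∀ t : T, t • v ≠ v + n • y) :
    ∃ ψ : AddChar M ℂ, ψ ^ n ≠ 1 ∧ ∑ t : T, ψ (t • v) ≠ 0 := by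
  classical
  have := Fintype.ofFinite M
  by_contra hcon
  push Not at hcon
  have h1 : ∀ ψ : AddChar M ℂ, (∑ t : T, ψ (t • v)) * ψ (-v) =
      (∑ t : T, ψ (t • v)) * ψ (-(v + n • y)) := by
    intro ψ
    by_cases hψ : ψ ^ n = 1
    · have h2 : ψ (-(v + n • y)) = ψ (-v) := by
        rw [neg_add, AddChar.map_add_eq_mul]
        have h3 : ψ (-(n • y)) = 1 := by
          rw [← smul_neg, AddChar.map_nsmul_eq_pow, ← AddChar.pow_apply, hψ, AddChar.one_apply]
        rw [h3, mul_one]
      rw [h2]
    · rw [hcon ψ hψ, zero_mul, zero_mul]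
  have h2 : ∀ m : M, ∑ ψ : AddChar M ℂ, (∑ t : T, ψ (t • v)) * ψ (-m) =
      ∑ t : T, if t • v = m then (Fintype.card M : ℂ) else 0 := by
    intro m
    simp_rw [Finset.sum_mul]
    rw [Finset.sum_comm]
    refine Finset.sum_congr rfl fun t _ => ?_
    simp_rw [← AddChar.map_add_eq_mul, ← sub_eq_add_neg]
    rw [AddChar.sum_apply_eq_ite]
    simp only [sub_eq_zero]
  have h3 := h2 v
  have h4 := h2 (v + n • y)
  rw [Finset.sum_congr rfl fun ψ _ => h1 ψ, h4] at h3
  rw [Finset.sum_eq_zero (fun t _ => if_neg (hy t)), Finset.sum_eq_single (1 : T)] at h3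
  · rw [one_smul, if_pos rfl] at h3
    exact Nat.cast_ne_zero.2 Fintype.card_ne_zero h3.symm
  · intro t _ ht
    rw [if_neg]
    exact fun h => ht (hfree t h)
  · simp

theorem generic (v y : M) (n : ℕ) (hfree : ∀ t : T, t • v = v → t = 1)
    (hy : ∀ t : T, t • v ≠ v + n • y) (hcard : Nat.card M = n * Nat.card T) :
    (mon T v).IsIrreducible ∧
    Nat.card (AddChar M ℂ ⋊[act T M] T) = n * (Module.finrank ℂ (T → ℂ)) ^ 2 ∧
    ∃ x : AddChar M ℂ ⋊[act T M] T, (mon T v).character x ≠ 0 ∧ ¬ orderOf x ∣ n ∧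
      ∀ N : ℕ, (∀ m : M, N • m = 0) → x ^ N = 1 := by
  classical
  have := Fintype.ofFinite M
  have := Fintype.ofFinite T
  refine ⟨irr v hfree, ?_, ?_⟩
  · rw [Nat.card_congr (SemidirectProduct.equivProd (φ := act T M)), Nat.card_prod,
      Nat.card_eq_fintype_card (α := AddChar M ℂ), AddChar.card_eq,
      Module.finrank_fintype_fun_eq_card, ← Nat.card_eq_fintype_card, hcard,
      Nat.card_eq_fintype_card]
    ring
  · obtain ⟨ψ, hψ, hs⟩ := exists_char v y n hfree hy
    refine ⟨SemidirectProduct.inl ψ, by rwa [character_inl], ?_, ?_⟩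
    · rw [orderOf_injective _ SemidirectProduct.inl_injective]
      intro h
      exact hψ (orderOf_dvd_iff_pow_eq_one.1 h)
    · intro N hN
      rw [← map_pow]
      have h : ψ ^ N = 1 := by
        ext m
        rw [AddChar.pow_apply, ← AddChar.map_nsmul_eq_pow, hN, AddChar.map_zero_eq_one,
          AddChar.one_apply]
      rw [h, map_one]

end generic

end Pool.Agent.Q89.OC
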