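import Mathlib

/-!
# The unit group data: the ring `ℤ/27[ω]`, the module `W` and the crossed homomorphism `g`
-/

namespace Pool.Agent.Q89.OC

/-- the index group -/
abbrev I := ZMod 3 × ZMod 3

/-- the ring `ℤ/27[ω]`, `ω² = -1 - ω` -/
abbrev R0 := QuadraticAlgebra (ZMod 27) (-1) (-1)

/-- the abstract group isomorphic with the units congruent to `1` modulo `λ = ω - 1` -/
abbrev A := ZMod 3 × ZMod 9 × ZMod 9

def om : R0 := ⟨0, 1⟩
def fo : R0 := ⟨4, 0⟩
def ka : R0 := ⟨-2, 3⟩

/-- the embedding of `A` in the unit group -/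
def e (a : A) : R0 := om ^ a.1.val * fo ^ a.2.1.val * ka ^ a.2.2.val

lemma om_pow : om ^ 3 = 1 := by decide +kernel
lemma fo_pow : fo ^ 9 = 1 := by decide +kernel
lemma ka_pow : ka ^ 9 = 1 := by decide +kernel

lemma pow_val_add {n : ℕ} [NeZero n] {x : R0} (hx : x ^ n = 1) (i j : ZMod n) :
    x ^ (i + j).val = x ^ i.val * x ^ j.val := by
  rw [ZMod.val_add, ← pow_eq_pow_mod _ hx, pow_add]

lemma e_add (a b : A) : e (a + b) = e a * e b := by
  unfold e
  rw [Prod.fst_add, Prod.snd_add, Prod.fst_add, Prod.snd_add, pow_val_add om_pow,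
    pow_val_add fo_pow, pow_val_add ka_pow]
  ring

@[simp] lemma e_zero : e 0 = 1 := by simp [e]

lemma e_eq_one : ∀ (i : ZMod 3) (j k : ZMod 9), e (i, j, k) = 1 → (i, j, k) = (0 : A) := by
  decide +kernel

lemma e_inj {a b : A} (h : e a = e b) : a = b := by
  have h1 : e (a - b) * e b = 1 * e b := by rw [← e_add, sub_add_cancel, one_mul, h]
  have h2 : e b * e (-b) = 1 := by rw [← e_add, add_neg_cancel, e_zero]
  have h3 : e (a - b) = 1 := by
    have := congrArg (· * e (-b)) h1
    simp only [mul_assoc, h2, mul_one] at this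
    exact this
  rcases hab : a - b with ⟨i, j, k⟩
  rw [hab] at h3
  have h4 := e_eq_one i j k h3
  rw [← hab] at h4
  exact sub_eq_zero.1 h4

/-- reduction modulo `λ` -/
def res : R0 →+* ZMod 3 where
  toFun x := ZMod.castHom (by norm_num : 3 ∣ 27) (ZMod 3) (x.re + x.im)
  map_one' := by
    change ZMod.castHom (by norm_num : 3 ∣ 27) (ZMod 3) (1 + 0) = 1
    rw [add_zero, map_one]
  map_zero' := by simp
  map_add' x y := by
    rw [← map_add]
    congr 1
    simp
    ring
  map_mul' x y := by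
    rw [← map_mul]
    simp only [QuadraticAlgebra.re_mul, QuadraticAlgebra.im_mul]
    have h : ZMod.castHom (by norm_num : 3 ∣ 27) (ZMod 3) (3 * (x.im * y.im)) = 0 := by
      rw [map_mul]
      have : ZMod.castHom (by norm_num : 3 ∣ 27) (ZMod 3) (3 : ZMod 27) = 0 := by decide
      rw [this, zero_mul]
    rw [← sub_eq_zero, ← map_sub]
    rw [← neg_eq_zero, ← map_neg, ← h]
    congr 1
    ring

lemma res_e (a : A) : res (e a) = 1 := by
  unfold e
  rw [map_mul, map_mul, map_pow, map_pow, map_pow]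
  have h1 : res om = 1 := by decide +kernel
  have h2 : res fo = 1 := by decide +kernel
  have h3 : res ka = 1 := by decide +kernel
  rw [h1, h2, h3]
  simp

/-- the module `W = ℤ/9[λ]/(3λ, λ² + 3)` -/
abbrev W := ZMod 9 × ZMod 3

/-- the product of `W` -/
def mulW (x y : W) : W :=
  (x.1 * y.1 - 3 * (((x.2 * y.2).val : ℕ) : ZMod 9),
    ((x.1.val : ℕ) : ZMod 3) * y.2 + x.2 * ((y.1.val : ℕ) : ZMod 3))

/-- the units `ω^i 4^j` of `W` -/
def c (s : I) : W :=
  (![![(1, 0), (4, 0), (7, 0)], ![(1, 1), (4, 1), (7, 1)], ![(7, 2), (1, 2), (4, 2)]] :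
    Fin 3 → Fin 3 → ZMod 9 × ZMod 3) s.1 s.2

/-- the crossed homomorphism -/
def g (s : I) : W :=
  (![![(0, 0), (6, 2), (3, 1)], ![(1, 0), (1, 2), (1, 1)], ![(2, 1), (5, 0), (8, 2)]] :
    Fin 3 → Fin 3 → ZMod 9 × ZMod 3) s.1 s.2

lemma c_add : ∀ s t : I, c (s + t) = mulW (c s) (c t) := by decide +kernel

lemma g_add : ∀ s t : I, g (s + t) = g s + mulW (c s) (g t) := by decide +kernel

lemma mulW_add : ∀ (s : I) (x y : W), mulW (c s) (x + y) = mulW (c s) x + mulW (c s) y := by
  decide +kernel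

lemma mulW_zero : ∀ (s : I), mulW (c s) 0 = 0 := by
  decide +kernel

lemma mulW_one : ∀ (x : W), mulW (c 0) x = x := by
  decide +kernel

lemma g_zero : g 0 = 0 := by decide +kernel

lemma g_eq_zero : ∀ s : I, g s = 0 → s = 0 := by decide +kernel

lemma g_ne : ∀ s : I, g s ≠ (3, 0) := by decide +kernel

/-- multiples of an element of `W` -/
def lin (x : ZMod 9) (w : W) : W := (x * w.1, ((x.val : ℕ) : ZMod 3) * w.2)

lemma lin_add : ∀ (x y : ZMod 9) (s : I), lin (x + y) (c s) = lin x (c s) + lin y (c s) := by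
  decide +kernel

lemma lin_zero : ∀ (s : I), lin 0 (c s) = 0 := by
  decide +kernel

lemma lin_mul : ∀ (x : ZMod 9) (s t : I), mulW (c s) (lin x (c t)) = lin x (c (t + s)) := by
  decide +kernel

lemma lin_three : lin 3 (c 0) = (3, 0) := by decide +kernel

lemma lin_surj : ∀ w : W, ∃ x y : ZMod 9, w = lin x (c 0) + lin y (c (1, 0)) := by
  decide +kernel

lemma e_three : e (0, 0, 3) = 1 + 9 • (om - 1) := by decide +kernel

lemma card_rad : Nat.card res.toAddMonoidHom.ker = Nat.card A := by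
  have h1 : Nat.card R0 = 729 := by
    rw [Nat.card_congr (QuadraticAlgebra.equivProd _ _)]
    simp
  have h2 : Function.Surjective res.toAddMonoidHom := by
    intro x
    refine ⟨⟨(x.val : ZMod 27), 0⟩, ?_⟩
    revert x
    decide +kernel
  have h3 := AddSubgroup.card_mul_index res.toAddMonoidHom.ker
  rw [AddSubgroup.index_ker, AddMonoidHom.range_eq_top.2 h2, h1] at h3
  have h4 : Nat.card (⊤ : AddSubgroup (ZMod 3)) = 3 := by
    rw [AddSubgroup.card_top]
    simp
  rw [h4] at h3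
  have h5 : Nat.card A = 243 := by simp
  omega

end Pool.Agent.Q89.OC
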