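import Pool.Agent.Q89.OC1
import Pool.Agent.Q89.OC2

/-!
# The group `T` and the module `M`
-/

namespace Pool.Agent.Q89.OC

/-- the wreath product of `A` and `I` -/
@[ext] structure Wr where
  f : I → A
  s : I

namespace Wr

instance : Mul Wr := ⟨fun x y => ⟨fun i => x.f i + y.f (i - x.s), x.s + y.s⟩⟩
instance : One Wr := ⟨⟨0, 0⟩⟩
instance : Inv Wr := ⟨fun x => ⟨fun i => -x.f (i + x.s), -x.s⟩⟩

@[simp] lemma mul_f (x y : Wr) (i : I) : (x * y).f i = x.f i + y.f (i - x.s) := rfl
@[simp] lemma mul_s (x y : Wr) : (x * y).s = x.s + y.s := rfl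
@[simp] lemma one_f (i : I) : (1 : Wr).f i = 0 := rfl
@[simp] lemma one_s : (1 : Wr).s = 0 := rfl
@[simp] lemma inv_f (x : Wr) (i : I) : (x⁻¹).f i = -x.f (i + x.s) := rfl
@[simp] lemma inv_s (x : Wr) : (x⁻¹).s = -x.s := rfl

lemma ext' {x y : Wr} (h : ∀ i, x.f i = y.f i) (hs : x.s = y.s) : x = y :=
  Wr.ext (funext h) hs

instance : Group Wr := Group.ofLeftAxioms
  (fun x y z => ext' (fun i => by simp only [mul_f, mul_s, add_assoc, sub_sub])
    (by simp only [mul_s, add_assoc]))
  (fun x => ext' (fun i => by simp only [mul_f, one_f, one_s, zero_add, sub_zero])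
    (by simp only [mul_s, one_s, zero_add]))
  (fun x => ext' (fun i => by
      simp only [mul_f, inv_f, inv_s, one_f, sub_neg_eq_add, neg_add_cancel])
    (by simp only [mul_s, inv_s, one_s, neg_add_cancel]))

/-- underlying type -/
def equivProd : Wr ≃ (I → A) × I where
  toFun x := (x.f, x.s)
  invFun x := ⟨x.1, x.2⟩

instance : Finite Wr := Finite.of_equiv _ equivProd.symm

end Wr

/-- the module `M` -/
def M : AddSubgroup (I → R0) where
  carrier := {r | ∀ i, res (r i) = res (r 0)}
  zero_mem' := fun i => rfl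
  add_mem' := by
    intro a b ha hb i
    rw [Pi.add_apply, Pi.add_apply, map_add, map_add, ha i, hb i]
  neg_mem' := by
    intro a ha i
    rw [Pi.neg_apply, Pi.neg_apply, map_neg, map_neg, ha i]

lemma mem_M {r : I → R0} : r ∈ M ↔ ∀ i, res (r i) = res (r 0) := Iff.rfl

instance : Finite R0 := Finite.of_equiv _ (QuadraticAlgebra.equivProd _ _).symm

instance : Finite M := inferInstance

instance : DistribMulAction Wr M where
  smul x r := ⟨fun i => e (x.f i) * r.1 (i - x.s), by
    intro i
    rw [map_mul, map_mul, res_e, res_e, one_mul, one_mul, r.2, r.2 (0 - x.s)]⟩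
  one_smul r := by
    refine Subtype.ext (funext fun i => ?_)
    change e ((1 : Wr).f i) * r.1 (i - (1 : Wr).s) = r.1 i
    rw [Wr.one_f, Wr.one_s, e_zero, one_mul, sub_zero]
  mul_smul x y r := by
    refine Subtype.ext (funext fun i => ?_)
    change e ((x * y).f i) * r.1 (i - (x * y).s) =
      e (x.f i) * (e (y.f (i - x.s)) * r.1 (i - x.s - y.s))
    rw [Wr.mul_f, Wr.mul_s, e_add, sub_sub, mul_assoc]
  smul_zero x := by
    refine Subtype.ext (funext fun i => ?_)
    change e (x.f i) * (0 : R0) = 0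
    rw [mul_zero]
  smul_add x r r' := by
    refine Subtype.ext (funext fun i => ?_)
    change e (x.f i) * (r.1 (i - x.s) + r'.1 (i - x.s)) =
      e (x.f i) * r.1 (i - x.s) + e (x.f i) * r'.1 (i - x.s)
    rw [mul_add]

lemma smul_coe (x : Wr) (r : M) (i : I) : (x • r).1 i = e (x.f i) * r.1 (i - x.s) := rfl

/-- the homomorphism `Π` -/
def Pim : (I → A) →+ W where
  toFun f := ∑ i : I, lin (f i).2.2 (c i)
  map_zero' := by
    refine Finset.sum_eq_zero fun i _ => ?_
    exact lin_zero i
  map_add' f f' := by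
    rw [← Finset.sum_add_distrib]
    refine Finset.sum_congr rfl fun i _ => ?_
    exact lin_add _ _ i

lemma Pim_apply (f : I → A) : Pim f = ∑ i : I, lin (f i).2.2 (c i) := rfl

/-- multiplication by `c s` as a homomorphism -/
def mulHom (s : I) : W →+ W where
  toFun x := mulW (c s) x
  map_zero' := mulW_zero s
  map_add' := mulW_add s

lemma Pim_shift (f : I → A) (s : I) : Pim (fun i => f (i - s)) = mulW (c s) (Pim f) := by
  have h1 : mulW (c s) (Pim f) = mulHom s (Pim f) := rfl
  rw [h1, Pim_apply, Pim_apply, map_sum]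
  rw [← Equiv.sum_comp (Equiv.addRight s) (fun i => lin (f (i - s)).2.2 (c i))]
  refine Finset.sum_congr rfl fun i _ => ?_
  rw [Equiv.coe_addRight, add_sub_cancel_right]
  exact (lin_mul _ s i).symm

lemma Pim_single (j : I) (x : ZMod 9) :
    Pim (Pi.single j ((0, 0, x) : A) : I → A) = lin x (c j) := by
  rw [Pim_apply, Finset.sum_eq_single j]
  · rw [Pi.single_eq_same]
  · intro i _ hi
    rw [Pi.single_eq_of_ne hi]
    exact lin_zero i
  · simp

lemma Pim_surj : Function.Surjective Pim := by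
  intro w
  obtain ⟨x, y, h⟩ := lin_surj w
  refine ⟨(Pi.single 0 ((0, 0, x) : A) : I → A) + (Pi.single (1, 0) ((0, 0, y) : A) : I → A), ?_⟩
  rw [map_add, Pim_single, Pim_single, h]

/-- the group `T` -/
def T : Subgroup Wr where
  carrier := {x | Pim x.f = g x.s}
  one_mem' := by
    change Pim 0 = g 0
    rw [map_zero, g_zero]
  mul_mem' := by
    intro x y hx hy
    change Pim (x.f + fun i => y.f (i - x.s)) = g (x.s + y.s)
    rw [map_add, Pim_shift, g_add]
    rw [show Pim x.f = g x.s from hx, show Pim y.f = g y.s from hy]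
  inv_mem' := by
    intro x hx
    have hx' : Pim x.f = g x.s := hx
    have h1 : Pim ((x⁻¹).f + fun i => x.f (i - (x⁻¹).s)) = 0 := by
      have : ((x⁻¹).f + fun i => x.f (i - (x⁻¹).s)) = 0 := by
        funext i
        simp
      rw [this, map_zero]
    have h2 := g_add (x⁻¹).s x.s
    rw [map_add, Pim_shift, hx'] at h1
    rw [Wr.inv_s, neg_add_cancel, g_zero] at h2
    change Pim (x⁻¹).f = g (x⁻¹).s
    rw [Wr.inv_s] at h1 ⊢
    exact add_right_cancel (h1.trans h2)

lemma mem_T {x : Wr} : x ∈ T ↔ Pim x.f = g x.s := Iff.rfl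

/-- the vector `v` -/
def v : M := ⟨fun _ => 1, fun _ => rfl⟩

/-- the vector `y` -/
def y : M := ⟨Pi.single 0 (om - 1), by
  have h : res (om - 1) = 0 := by decide +kernel
  intro i
  rw [Pi.single_eq_same, h]
  by_cases hi : i = 0
  · subst hi
    rw [Pi.single_eq_same, h]
  · rw [Pi.single_eq_of_ne hi, map_zero]⟩

lemma free (t : T) (h : t • v = v) : t = 1 := by
  have h1 : ∀ i, t.1.f i = 0 := by
    intro i
    have h2 : (t • v).1 i = v.1 i := by rw [h]
    have h3 : e (t.1.f i) * 1 = 1 := h2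
    rw [mul_one] at h3
    exact e_inj (h3.trans e_zero.symm)
  have h2 : t.1.f = 0 := funext h1
  have h3 : Pim t.1.f = g t.1.s := t.2
  rw [h2, map_zero] at h3
  exact Subtype.ext (Wr.ext h2 (g_eq_zero _ h3.symm))

lemma far (t : T) : t • v ≠ v + 9 • y := by
  intro h
  have h1 : ∀ i, e (t.1.f i) = 1 + 9 • (Pi.single 0 (om - 1) : I → R0) i := by
    intro i
    have h2 : (t • v).1 i = (v + 9 • y).1 i := by rw [h]
    have h3 : e (t.1.f i) * 1 = 1 + 9 • (Pi.single 0 (om - 1) : I → R0) i := h2
    rwa [mul_one] at h3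
  have h2 : t.1.f = (Pi.single 0 ((0, 0, 3) : A) : I → A) := by
    funext i
    apply e_inj
    rw [h1 i]
    by_cases hi : i = 0
    · subst hi
      rw [Pi.single_eq_same, Pi.single_eq_same, e_three]
    · rw [Pi.single_eq_of_ne hi, Pi.single_eq_of_ne hi, smul_zero, add_zero, e_zero]
  have h3 : Pim t.1.f = g t.1.s := t.2
  rw [h2, Pim_single, lin_three] at h3
  exact g_ne _ h3.symm

lemma card_Pim : Nat.card (I → A) = Nat.card Pim.ker * 27 := by
  have h3 := AddSubgroup.card_mul_index Pim.ker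
  rw [AddSubgroup.index_ker, AddMonoidHom.range_eq_top.2 Pim_surj, AddSubgroup.card_top] at h3
  rw [← h3]
  congr 1
  simp

lemma card_T : Nat.card T = 9 * Nat.card Pim.ker := by
  choose fs hfs using fun s : I => Pim_surj (g s)
  have E : T ≃ I × Pim.ker :=
    { toFun := fun t => (t.1.s, ⟨t.1.f - fs t.1.s, by
        rw [AddMonoidHom.mem_ker, map_sub, hfs, show Pim t.1.f = g t.1.s from t.2, sub_self]⟩)
      invFun := fun p => ⟨⟨fs p.1 + p.2.1, p.1⟩, by
        rw [mem_T, map_add, hfs, AddMonoidHom.mem_ker.1 p.2.2, add_zero]⟩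
      left_inv := fun t => by
        refine Subtype.ext (Wr.ext ?_ rfl)
        simp
      right_inv := fun p => by
        refine Prod.ext rfl (Subtype.ext ?_)
        simp }
  rw [Nat.card_congr E, Nat.card_prod]
  congr 1
  simp

/-- residue of an element of `M` -/
def resM : M →+ ZMod 3 where
  toFun r := res (r.1 0)
  map_zero' := by simp
  map_add' a b := by simp

lemma card_M : Nat.card M = 3 * Nat.card (I → A) := by
  have h2 : Function.Surjective resM := by
    intro x
    refine ⟨⟨fun _ => ((x.val : ℕ) : R0), fun _ => rfl⟩, ?_⟩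
    change res ((x.val : ℕ) : R0) = x
    rw [map_natCast, ZMod.natCast_val, ZMod.cast_id', id]
  have h3 := AddSubgroup.card_mul_index resM.ker
  rw [AddSubgroup.index_ker, AddMonoidHom.range_eq_top.2 h2, AddSubgroup.card_top] at h3
  have E : resM.ker ≃ (I → res.toAddMonoidHom.ker) :=
    { toFun := fun r i => ⟨r.1.1 i, by
        rw [AddMonoidHom.mem_ker]
        change res (r.1.1 i) = 0
        rw [r.1.2 i]
        exact r.2⟩
      invFun := fun r => ⟨⟨fun i => (r i).1, fun i => by
          have h1 : ∀ j, res (r j).1 = 0 := fun j => (r j).2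
          rw [h1, h1]⟩, (r 0).2⟩
      left_inv := fun r => rfl
      right_inv := fun r => rfl }
  rw [Nat.card_congr E, Nat.card_fun, card_rad] at h3
  rw [← h3, Nat.card_fun]
  have h4 : Nat.card (ZMod 3) = 3 := by simp
  rw [h4, mul_comm]

lemma card_M_T : Nat.card M = 9 * Nat.card T := by
  rw [card_M, card_Pim, card_T]
  ring

lemma card_T_eq : Nat.card T = 3 ^ 44 := by
  have h1 : Nat.card (I → A) = 3 ^ 45 := by
    rw [Nat.card_fun]
    simp
  rw [card_Pim] at h1
  rw [card_T]
  omega

lemma pow_M (m : M) : 27 • m = 0 := by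
  refine Subtype.ext (funext fun i => ?_)
  change 27 • m.1 i = 0
  have h : (27 : R0) = 0 := by decide +kernel
  rw [← Nat.cast_smul_eq_nsmul R0]
  have h' : ((27 : ℕ) : R0) = 0 := by exact_mod_cast h
  rw [h', zero_smul]

end Pool.Agent.Q89.OC
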