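import Mathlib

open scoped NumberField LinearAlgebra.Projectivization MatrixGroups
open Matrix

namespace Pool.Agent.Q89.PB

set_option linter.unusedSectionVars false

/-- The group of `R`-points of the group scheme `PGL₂ = Aut(M₂)`: the automorphisms of the
`R`-algebra of `2 × 2` matrices over `R`. -/
abbrev PGL2 (R : Type*) [CommRing R] :=
  Matrix (Fin 2) (Fin 2) R ≃ₐ[R] Matrix (Fin 2) (Fin 2) R

section
variable (K : Type*) [Field K] [NumberField K]

/-- integral matrices inside matrices over the number field -/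
abbrev toK (A : Matrix (Fin 2) (Fin 2) (𝓞 K)) : Matrix (Fin 2) (Fin 2) K :=
  A.map (algebraMap (𝓞 K) K)

/-- The invertible matrix `g` over `K` represents the image in `PGL₂(K) = GL₂(K)/Kˣ` of the
`𝓞 K`-point `φ` of `PGL₂`: the automorphism `φ` is conjugation by `g`. -/
def Represents (φ : PGL2 (𝓞 K)) (g : GL (Fin 2) K) : Prop :=
  ∀ A : Matrix (Fin 2) (Fin 2) (𝓞 K), toK K (φ A) = g.1 * toK K A * (g⁻¹).1

/-- The matrix `M` carries the line `x` of `K²` onto the line `y`. -/
def MapsLine (M : Matrix (Fin 2) (Fin 2) K) (x y : ℙ K (Fin 2 → K)) : Prop :=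
  ∃ c : K, c ≠ 0 ∧ M *ᵥ x.rep = c • y.rep

/-- Two lines (vertices of the building of `SL₂`) in the same `SL₂(𝓞 K)`-orbit. -/
def SLRel (x y : ℙ K (Fin 2 → K)) : Prop :=
  ∃ g : SL(2, 𝓞 K), MapsLine K (toK K g.1) x y

/-- Two lines (vertices of the building of `PGL₂`) in the same `PGL₂(𝓞 K)`-orbit. -/
def PGLRel (x y : ℙ K (Fin 2 → K)) : Prop :=
  ∃ (φ : PGL2 (𝓞 K)) (g : GL (Fin 2) K), Represents K φ g ∧ MapsLine K g.1 x y

/-- the quotient of the building of `SL₂(K)` by `SL₂(𝓞 K)` -/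
abbrev SLQuot := Quot (SLRel K)

/-- the quotient of the building of `PGL₂(K)` by `PGL₂(𝓞 K)` -/
abbrev PGLQuot := Quot (PGLRel K)

end

section
variable {K : Type*} [Field K] [NumberField K]

lemma toK_inj {A B : Matrix (Fin 2) (Fin 2) (𝓞 K)} (h : toK K A = toK K B) : A = B := by
  ext i j
  have := congrFun (congrFun h i) j
  simp only [toK, Matrix.map_apply] at this
  exact_mod_cast this

lemma toK_mul (A B : Matrix (Fin 2) (Fin 2) (𝓞 K)) : toK K (A * B) = toK K A * toK K B := by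
  simp [toK, Matrix.map_mul]

lemma toK_add (A B : Matrix (Fin 2) (Fin 2) (𝓞 K)) : toK K (A + B) = toK K A + toK K B := by
  ext i j; simp [toK]

lemma toK_algebraMap (r : 𝓞 K) :
    toK K (algebraMap (𝓞 K) (Matrix (Fin 2) (Fin 2) (𝓞 K)) r)
      = algebraMap K (Matrix (Fin 2) (Fin 2) K) (algebraMap (𝓞 K) K r) := by
  ext i j
  simp only [toK, Matrix.map_apply, Matrix.algebraMap_matrix_apply]
  split_ifs <;> simp

/-- an element of `GL₂(K)` normalising the integral matrices represents a point of `PGL₂` -/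
lemma exists_rep (g : GL (Fin 2) K)
    (h1 : ∀ A : Matrix (Fin 2) (Fin 2) (𝓞 K), ∃ B : Matrix (Fin 2) (Fin 2) (𝓞 K),
      toK K B = g.1 * toK K A * (g⁻¹).1)
    (h2 : ∀ A : Matrix (Fin 2) (Fin 2) (𝓞 K), ∃ B : Matrix (Fin 2) (Fin 2) (𝓞 K),
      toK K B = (g⁻¹).1 * toK K A * g.1) :
    ∃ φ : PGL2 (𝓞 K), Represents K φ g := by
  choose f hf using h1
  choose f' hf' using h2
  have hg1 : (g⁻¹).1 * g.1 = 1 := by
    rw [← Units.val_mul, inv_mul_cancel]; rfl
  have hg2 : g.1 * (g⁻¹).1 = 1 := by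
    rw [← Units.val_mul, mul_inv_cancel]; rfl
  let e : Matrix (Fin 2) (Fin 2) (𝓞 K) ≃+* Matrix (Fin 2) (Fin 2) (𝓞 K) :=
    { toFun := f
      invFun := f'
      left_inv := by
        intro A
        apply toK_inj
        rw [hf', hf]
        calc (g⁻¹).1 * (g.1 * toK K A * (g⁻¹).1) * g.1
            = ((g⁻¹).1 * g.1) * toK K A * ((g⁻¹).1 * g.1) := by simp only [mul_assoc]
          _ = toK K A := by rw [hg1]; simp
      right_inv := by
        intro A
        apply toK_inj
        rw [hf, hf']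
        calc g.1 * ((g⁻¹).1 * toK K A * g.1) * (g⁻¹).1
            = (g.1 * (g⁻¹).1) * toK K A * (g.1 * (g⁻¹).1) := by simp only [mul_assoc]
          _ = toK K A := by rw [hg2]; simp
      map_mul' := by
        intro A B
        apply toK_inj
        rw [hf, toK_mul, toK_mul, hf, hf]
        calc g.1 * (toK K A * toK K B) * (g⁻¹).1
            = g.1 * toK K A * 1 * toK K B * (g⁻¹).1 := by simp only [mul_assoc, one_mul]
          _ = g.1 * toK K A * ((g⁻¹).1 * g.1) * toK K B * (g⁻¹).1 := by rw [hg1]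
          _ = g.1 * toK K A * (g⁻¹).1 * (g.1 * toK K B * (g⁻¹).1) := by simp only [mul_assoc]
      map_add' := by
        intro A B
        apply toK_inj
        rw [hf, toK_add, toK_add, hf, hf]
        simp only [mul_add, add_mul] }
  refine ⟨AlgEquiv.ofRingEquiv (f := e) ?_, ?_⟩
  · intro r
    apply toK_inj
    change toK K (f _) = _
    rw [hf, toK_algebraMap]
    rw [← Algebra.commutes, mul_assoc, hg2, mul_one]
  · intro A
    exact hf A

lemma exists_pair {R : Type*} [CommRing R] (a b : R) (J : Ideal R) {δ : R}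
    (h : δ ∈ Ideal.span {a, b} * J) : ∃ x ∈ J, ∃ y ∈ J, a * x + b * y = δ := by
  rw [Ideal.span_insert, Ideal.sup_mul, Submodule.mem_sup] at h
  obtain ⟨u, hu, v, hv, huv⟩ := h
  rw [Ideal.mem_span_singleton_mul] at hu hv
  obtain ⟨x, hx, rfl⟩ := hu
  obtain ⟨y, hy, rfl⟩ := hv
  exact ⟨x, hx, y, hy, huv⟩

/-- two pairs generating the same non-zero ideal of a Dedekind domain differ by `SL₂` -/
lemma exists_SL {R : Type*} [CommRing R] [IsDedekindDomain R] (a b c d : R)
    (h : Ideal.span {a, b} = Ideal.span {c, d}) (hne : Ideal.span {a, b} ≠ ⊥) :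
    ∃ g : SL(2, R), g.1 *ᵥ ![a, b] = ![c, d] := by
  obtain ⟨δ, hδ, hδ0⟩ := Submodule.exists_mem_ne_zero_of_ne_bot hne
  have hdvd : Ideal.span {a, b} ∣ Ideal.span {δ} := by
    rw [Ideal.dvd_iff_le, Ideal.span_singleton_le_iff_mem]; exact hδ
  obtain ⟨J, hJ⟩ := hdvd
  have hmem : δ ∈ Ideal.span {a, b} * J := by rw [← hJ]; exact Ideal.mem_span_singleton_self δ
  have hmem' : δ ∈ Ideal.span {c, d} * J := by rw [← h]; exact hmem
  obtain ⟨x, hx, y, hy, hxy⟩ := exists_pair a b J hmem
  obtain ⟨x', hx', y', hy', hxy'⟩ := exists_pair c d J hmem'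
  have ha : a ∈ Ideal.span {a, b} := Ideal.subset_span (by simp)
  have hb : b ∈ Ideal.span {a, b} := Ideal.subset_span (by simp)
  have hc : c ∈ Ideal.span {a, b} := by rw [h]; exact Ideal.subset_span (by simp)
  have hd : d ∈ Ideal.span {a, b} := by rw [h]; exact Ideal.subset_span (by simp)
  have key : ∀ u ∈ Ideal.span {a, b}, ∀ v ∈ J, δ ∣ u * v := by
    intro u hu v hv
    rw [← Ideal.mem_span_singleton, hJ]
    exact Ideal.mul_mem_mul hu hv
  obtain ⟨g00, h00⟩ : δ ∣ c * x + b * y' := dvd_add (key c hc x hx) (key b hb y' hy')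
  obtain ⟨g01, h01⟩ : δ ∣ c * y - a * y' := dvd_sub (key c hc y hy) (key a ha y' hy')
  obtain ⟨g10, h10⟩ : δ ∣ d * x - b * x' := dvd_sub (key d hd x hx) (key b hb x' hx')
  obtain ⟨g11, h11⟩ : δ ∣ d * y + a * x' := dvd_add (key d hd y hy) (key a ha x' hx')
  have hdet : g00 * g11 - g01 * g10 = 1 := by
    have : (δ * δ) * (g00 * g11 - g01 * g10) = (δ * δ) * 1 := by
      calc (δ * δ) * (g00 * g11 - g01 * g10)
          = (δ * g00) * (δ * g11) - (δ * g01) * (δ * g10) := by ring
        _ = (c * x + b * y') * (d * y + a * x') - (c * y - a * y') * (d * x - b * x') := by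
            rw [h00, h11, h01, h10]
        _ = (a * x + b * y) * (c * x' + d * y') := by ring
        _ = (δ * δ) * 1 := by rw [hxy, hxy']; ring
    exact mul_left_cancel₀ (mul_ne_zero hδ0 hδ0) this
  refine ⟨⟨!![g00, g01; g10, g11], by rw [Matrix.det_fin_two_of]; exact hdet⟩, ?_⟩
  ext i
  fin_cases i
  · simp only [Matrix.mulVec, Matrix.of_apply, dotProduct, Fin.sum_univ_two, Fin.zero_eta,
      Matrix.cons_val_zero, Matrix.cons_val_one, Matrix.cons_val']
    apply mul_left_cancel₀ hδ0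
    calc δ * (g00 * a + g01 * b) = (δ * g00) * a + (δ * g01) * b := by ring
      _ = c * (a * x + b * y) := by rw [← h00, ← h01]; ring
      _ = δ * c := by rw [hxy]; ring
  · simp only [Matrix.mulVec, Matrix.of_apply, dotProduct, Fin.sum_univ_two, Fin.mk_one,
      Matrix.cons_val_zero, Matrix.cons_val_one, Matrix.cons_val']
    apply mul_left_cancel₀ hδ0
    calc δ * (g10 * a + g11 * b) = (δ * g10) * a + (δ * g11) * b := by ring
      _ = d * (a * x + b * y) := by rw [← h10, ← h11]; ring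
      _ = δ * d := by rw [hxy]; ring

end

end Pool.Agent.Q89.PB
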