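import Mathlib
import Pool.Agent.Q89.PB1

open scoped NumberField LinearAlgebra.Projectivization MatrixGroups
open Matrix

namespace Pool.Agent.Q89.PB

set_option linter.unusedSectionVars false

variable {K : Type*} [Field K] [NumberField K]

/-- the vector with two given integral coordinates -/
def vec (a b : 𝓞 K) : Fin 2 → K := ![(a : K), (b : K)]

lemma exists_int (x : ℙ K (Fin 2 → K)) :
    ∃ p : 𝓞 K × 𝓞 K, (p.1 ≠ 0 ∨ p.2 ≠ 0) ∧ ∃ c : K, c ≠ 0 ∧ c • x.rep = vec p.1 p.2 := by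
  obtain ⟨a0, s0, hs0, h0⟩ := IsFractionRing.div_surjective (A := 𝓞 K) (x.rep 0)
  obtain ⟨a1, s1, hs1, h1⟩ := IsFractionRing.div_surjective (A := 𝓞 K) (x.rep 1)
  have hs0' : (s0 : K) ≠ 0 := by
    have := nonZeroDivisors.ne_zero hs0
    exact_mod_cast this
  have hs1' : (s1 : K) ≠ 0 := by
    have := nonZeroDivisors.ne_zero hs1
    exact_mod_cast this
  have e0 : ((s0 : K) * s1) * x.rep 0 = ((a0 * s1 : 𝓞 K) : K) := by
    rw [← h0]; push_cast; field_simp
  have e1 : ((s0 : K) * s1) * x.rep 1 = ((a1 * s0 : 𝓞 K) : K) := by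
    rw [← h1]; push_cast; field_simp
  have hv : ((s0 : K) * s1) • x.rep = vec (a0 * s1) (a1 * s0) := by
    ext i
    fin_cases i
    · simpa [vec] using e0
    · simpa [vec] using e1
  refine ⟨(a0 * s1, a1 * s0), ?_, (s0 : K) * s1, mul_ne_zero hs0' hs1', hv⟩
  by_contra hcon
  push Not at hcon
  obtain ⟨q0, q1⟩ := hcon
  simp only at q0 q1
  have : ((s0 : K) * s1) • x.rep = 0 := by
    rw [hv, q0, q1]; ext i; fin_cases i <;> simp [vec]
  rcases smul_eq_zero.1 this with h | h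
  · exact mul_ne_zero hs0' hs1' h
  · exact x.rep_nonzero h

noncomputable def co (x : ℙ K (Fin 2 → K)) : 𝓞 K × 𝓞 K := Classical.choose (exists_int x)

lemma co_ne (x : ℙ K (Fin 2 → K)) : (co x).1 ≠ 0 ∨ (co x).2 ≠ 0 :=
  (Classical.choose_spec (exists_int x)).1

lemma co_rep (x : ℙ K (Fin 2 → K)) : ∃ c : K, c ≠ 0 ∧ c • x.rep = vec (co x).1 (co x).2 :=
  (Classical.choose_spec (exists_int x)).2

lemma span_ne (a b : 𝓞 K) (h : a ≠ 0 ∨ b ≠ 0) : Ideal.span {a, b} ≠ (⊥ : Ideal (𝓞 K)) := by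
  intro hb
  have ha : a ∈ (⊥ : Ideal (𝓞 K)) := by rw [← hb]; exact Ideal.subset_span (by simp)
  have hb' : b ∈ (⊥ : Ideal (𝓞 K)) := by rw [← hb]; exact Ideal.subset_span (by simp)
  rw [Ideal.mem_bot] at ha hb'
  rcases h with h | h
  · exact h ha
  · exact h hb'

noncomputable def cls (x : ℙ K (Fin 2 → K)) : ClassGroup (𝓞 K) :=
  ClassGroup.mk0 ⟨Ideal.span {(co x).1, (co x).2},
    mem_nonZeroDivisors_of_ne_zero (span_ne _ _ (co_ne x))⟩

lemma toK_mulVec (M : Matrix (Fin 2) (Fin 2) (𝓞 K)) (a b c d : 𝓞 K)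
    (h : M *ᵥ ![a, b] = ![c, d]) : toK K M *ᵥ vec a b = vec c d := by
  have h0 := congrFun h 0
  have h1 := congrFun h 1
  simp only [Matrix.mulVec, dotProduct, Fin.sum_univ_two, Matrix.cons_val_zero,
    Matrix.cons_val_one] at h0 h1
  ext i
  fin_cases i
  · simp only [Matrix.mulVec, dotProduct, Fin.sum_univ_two, vec, toK, Matrix.map_apply,
      Fin.zero_eta, Matrix.cons_val_zero, Matrix.cons_val_one]
    rw [← h0]; simp
  · simp only [Matrix.mulVec, dotProduct, Fin.sum_univ_two, vec, toK, Matrix.map_apply,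
      Fin.mk_one, Matrix.cons_val_zero, Matrix.cons_val_one]
    rw [← h1]; simp

lemma vec_smul (r a b : 𝓞 K) : vec (r * a) (r * b) = (r : K) • vec a b := by
  ext i; fin_cases i <;> simp [vec]

lemma SLRel_of_vec (x y : ℙ K (Fin 2 → K)) (a b c d : 𝓞 K) {p q : K} (hp : p ≠ 0) (hq : q ≠ 0)
    (hx : p • x.rep = vec a b) (hy : q • y.rep = vec c d) {g : SL(2, 𝓞 K)}
    (h : g.1 *ᵥ ![a, b] = ![c, d]) : SLRel K x y := by
  refine ⟨g, p⁻¹ * q, mul_ne_zero (inv_ne_zero hp) hq, ?_⟩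
  have h1 := toK_mulVec g.1 a b c d h
  rw [← hx, ← hy, Matrix.mulVec_smul] at h1
  rw [mul_smul, ← h1, smul_smul, inv_mul_cancel₀ hp, one_smul]

lemma SLRel_of_cls (x y : ℙ K (Fin 2 → K)) (h : cls x = cls y) : SLRel K x y := by
  unfold cls at h
  rw [ClassGroup.mk0_eq_mk0_iff] at h
  obtain ⟨α, β, hα, hβ, hI⟩ := h
  simp only at hI
  obtain ⟨p, hp, hx⟩ := co_rep x
  obtain ⟨q, hq, hy⟩ := co_rep y
  set a := (co x).1
  set b := (co x).2
  set c := (co y).1
  set d := (co y).2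
  have e1 : Ideal.span {α * a, α * b} = Ideal.span {α} * Ideal.span {a, b} := by
    rw [Ideal.span_mul_span']
    congr 1
    ext t
    simp
    constructor
    · rintro (rfl | rfl)
      · exact Or.inl rfl
      · exact Or.inr rfl
    · rintro (rfl | rfl)
      · exact Or.inl rfl
      · exact Or.inr rfl
  have e2 : Ideal.span {β * c, β * d} = Ideal.span {β} * Ideal.span {c, d} := by
    rw [Ideal.span_mul_span']
    congr 1
    ext t
    simp
    constructor
    · rintro (rfl | rfl)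
      · exact Or.inl rfl
      · exact Or.inr rfl
    · rintro (rfl | rfl)
      · exact Or.inl rfl
      · exact Or.inr rfl
  have hne : Ideal.span {α * a, α * b} ≠ ⊥ := by
    apply span_ne
    rcases co_ne x with h | h
    · exact Or.inl (mul_ne_zero hα h)
    · exact Or.inr (mul_ne_zero hα h)
  obtain ⟨g, hg⟩ := exists_SL (α * a) (α * b) (β * c) (β * d) (by rw [e1, e2, hI]) hne
  have hα' : (α : K) ≠ 0 := by exact_mod_cast hα
  have hβ' : (β : K) ≠ 0 := by exact_mod_cast hβ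
  refine SLRel_of_vec x y _ _ _ _ (p := α * p) (q := β * q) (mul_ne_zero hα' hp)
    (mul_ne_zero hβ' hq) ?_ ?_ hg
  · rw [mul_smul, hx, vec_smul]
  · rw [mul_smul, hy, vec_smul]

lemma finite_SLQuot : Finite (SLQuot K) := by
  refine Finite.of_injective (fun q : SLQuot K => cls (Quot.out q)) ?_
  intro q q' h
  have h1 := Quot.sound (SLRel_of_cls _ _ h)
  rwa [Quot.out_eq, Quot.out_eq] at h1

/-- the line has a unimodular representative -/
def Uni (x : ℙ K (Fin 2 → K)) : Prop :=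
  ∃ a b : 𝓞 K, IsCoprime a b ∧ ∃ c : K, c ≠ 0 ∧ c • x.rep = vec a b

lemma Uni_of_SLRel {x y : ℙ K (Fin 2 → K)} (h : SLRel K x y) (hx : Uni x) : Uni y := by
  obtain ⟨g, c, hc, hg⟩ := h
  obtain ⟨a, b, ⟨u, v, huv⟩, p, hp, hpx⟩ := hx
  have hdet : g.1 0 0 * g.1 1 1 - g.1 0 1 * g.1 1 0 = 1 := by
    have := g.2; rwa [Matrix.det_fin_two] at this
  refine ⟨g.1 0 0 * a + g.1 0 1 * b, g.1 1 0 * a + g.1 1 1 * b,
    ⟨u * g.1 1 1 - v * g.1 1 0, v * g.1 0 0 - u * g.1 0 1, ?_⟩, p * c, mul_ne_zero hp hc, ?_⟩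
  · calc (u * g.1 1 1 - v * g.1 1 0) * (g.1 0 0 * a + g.1 0 1 * b)
        + (v * g.1 0 0 - u * g.1 0 1) * (g.1 1 0 * a + g.1 1 1 * b)
        = (g.1 0 0 * g.1 1 1 - g.1 0 1 * g.1 1 0) * (u * a + v * b) := by ring
      _ = 1 := by rw [hdet, huv, one_mul]
  · rw [mul_smul, ← hg, ← Matrix.mulVec_smul, hpx]
    apply toK_mulVec
    ext i
    fin_cases i <;> simp [Matrix.mulVec, dotProduct, Fin.sum_univ_two]

lemma SLRel_symm {x y : ℙ K (Fin 2 → K)} (h : SLRel K x y) : SLRel K y x := by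
  obtain ⟨g, c, hc, hg⟩ := h
  refine ⟨g⁻¹, c⁻¹, inv_ne_zero hc, ?_⟩
  have h1 : toK K (g⁻¹).1 * toK K g.1 = 1 := by
    rw [← toK_mul]
    have : (g⁻¹).1 * g.1 = 1 := congrArg (fun z : SL(2, 𝓞 K) => z.1) (inv_mul_cancel g)
    rw [this]
    ext i j
    simp [toK, Matrix.one_apply]
  have h2 : y.rep = c⁻¹ • (toK K g.1 *ᵥ x.rep) := by
    rw [hg, smul_smul, inv_mul_cancel₀ hc, one_smul]
  rw [h2, Matrix.mulVec_smul, Matrix.mulVec_mulVec, h1, Matrix.one_mulVec]

lemma Uni_iff {x y : ℙ K (Fin 2 → K)} (h : SLRel K x y) : Uni x = Uni y :=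
  propext ⟨Uni_of_SLRel h, Uni_of_SLRel (SLRel_symm h)⟩

/-- the line through a vector with integral coordinates -/
lemma exists_line (a b : 𝓞 K) (h : a ≠ 0 ∨ b ≠ 0) :
    ∃ x : ℙ K (Fin 2 → K), ∃ c : K, c ≠ 0 ∧ c • x.rep = vec a b := by
  have hv : vec a b ≠ (0 : Fin 2 → K) := by
    intro h0
    have h1 := congrFun h0 0
    have h2 := congrFun h0 1
    simp [vec] at h1 h2
    rcases h with h | h
    · exact h h1
    · exact h h2
  refine ⟨Projectivization.mk K (vec a b) hv, ?_⟩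
  obtain ⟨c, hc⟩ := Projectivization.exists_smul_eq_mk_rep K (vec a b) hv
  refine ⟨(c⁻¹ : Kˣ), Units.ne_zero _, ?_⟩
  rw [← hc]
  change (c⁻¹) • (c • vec a b) = _
  rw [smul_smul, inv_mul_cancel, one_smul]

lemma PGLRel_of_SLRel {x y : ℙ K (Fin 2 → K)} (h : SLRel K x y) : PGLRel K x y := by
  obtain ⟨g, hg⟩ := h
  have h1 : toK K (g⁻¹).1 * toK K g.1 = 1 := by
    rw [← toK_mul]
    have : (g⁻¹).1 * g.1 = 1 := congrArg (fun z : SL(2, 𝓞 K) => z.1) (inv_mul_cancel g)
    rw [this]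
    ext i j
    simp [toK, Matrix.one_apply]
  have h2 : toK K g.1 * toK K (g⁻¹).1 = 1 := by
    rw [← toK_mul]
    have : g.1 * (g⁻¹).1 = 1 := congrArg (fun z : SL(2, 𝓞 K) => z.1) (mul_inv_cancel g)
    rw [this]
    ext i j
    simp [toK, Matrix.one_apply]
  let G : GL (Fin 2) K := ⟨toK K g.1, toK K (g⁻¹).1, h2, h1⟩
  have hG : (G⁻¹).1 = toK K (g⁻¹).1 := rfl
  obtain ⟨φ, hφ⟩ := exists_rep G
    (fun A => ⟨g.1 * A * (g⁻¹).1, by rw [toK_mul, toK_mul, hG]⟩)
    (fun A => ⟨(g⁻¹).1 * A * g.1, by rw [toK_mul, toK_mul, hG]⟩)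
  exact ⟨φ, G, hφ, hg⟩

/-- the extra elements of `PGL₂(𝓞 K)` coming from an ideal whose square is principal -/
lemma PGLRel_extra (a b δ : 𝓞 K) (hδ : δ ≠ 0)
    (hI : Ideal.span {a, b} * Ideal.span {a, b} = Ideal.span {δ})
    (x y : ℙ K (Fin 2 → K)) {p q : K} (hp : p ≠ 0) (hq : q ≠ 0)
    (hx : p • x.rep = vec 1 0) (hy : q • y.rep = vec a b) : PGLRel K x y := by
  have hmem : δ ∈ Ideal.span {a, b} * Ideal.span {a, b} := by
    rw [hI]; exact Ideal.mem_span_singleton_self δ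
  obtain ⟨x0, hx0, y0, hy0, hxy⟩ := exists_pair a b _ hmem
  have ha : a ∈ Ideal.span {a, b} := Ideal.subset_span (by simp)
  have hb : b ∈ Ideal.span {a, b} := Ideal.subset_span (by simp)
  have hδ' : (δ : K) ≠ 0 := by exact_mod_cast hδ
  have hxyK : (a : K) * x0 + b * y0 = δ := by
    rw [← hxy]; push_cast; ring
  let M : Matrix (Fin 2) (Fin 2) (𝓞 K) := !![a, -y0; b, x0]
  let N : Matrix (Fin 2) (Fin 2) (𝓞 K) := !![x0, y0; -b, a]
  have hMN : toK K M * ((δ : K)⁻¹ • toK K N) = 1 := by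
    rw [Matrix.mul_smul]
    ext i j
    fin_cases i <;> fin_cases j <;>
      simp [M, N, toK, Matrix.mul_apply, Fin.sum_univ_two]
    · field_simp; linear_combination hxyK
    · right; ring
    · right; ring
    · field_simp; linear_combination hxyK
  have hNM : ((δ : K)⁻¹ • toK K N) * toK K M = 1 := by
    rw [Matrix.smul_mul]
    ext i j
    fin_cases i <;> fin_cases j <;>
      simp [M, N, toK, Matrix.mul_apply, Fin.sum_univ_two]
    · field_simp; linear_combination hxyK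
    · right; ring
    · right; ring
    · field_simp; linear_combination hxyK
  let G : GL (Fin 2) K := ⟨toK K M, (δ : K)⁻¹ • toK K N, hMN, hNM⟩
  have hG : (G⁻¹).1 = (δ : K)⁻¹ • toK K N := rfl
  have hMI : ∀ i j, M i j ∈ Ideal.span {a, b} := by
    intro i j
    fin_cases i <;> fin_cases j
    · exact ha
    · exact neg_mem hy0
    · exact hb
    · exact hx0
  have hNI : ∀ i j, N i j ∈ Ideal.span {a, b} := by
    intro i j
    fin_cases i <;> fin_cases j
    · exact hx0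
    · exact hy0
    · exact neg_mem hb
    · exact ha
  have hdiv : ∀ P Q A : Matrix (Fin 2) (Fin 2) (𝓞 K), (∀ i j, P i j ∈ Ideal.span {a, b}) →
      (∀ i j, Q i j ∈ Ideal.span {a, b}) →
      ∃ B : Matrix (Fin 2) (Fin 2) (𝓞 K), (δ : K) • toK K B = toK K P * toK K A * toK K Q := by
    intro P Q A hP hQ
    have : ∀ i j, δ ∣ (P * A * Q) i j := by
      intro i j
      rw [← Ideal.mem_span_singleton, ← hI, Matrix.mul_apply]
      refine Ideal.sum_mem _ fun k _ => ?_
      refine Ideal.mul_mem_mul ?_ (hQ k j)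
      rw [Matrix.mul_apply]
      exact Ideal.sum_mem _ fun l _ => Ideal.mul_mem_right _ _ (hP i l)
    choose B hB using this
    refine ⟨Matrix.of B, ?_⟩
    rw [← toK_mul, ← toK_mul]
    ext i j
    simp only [toK, Matrix.smul_apply, Matrix.map_apply, Matrix.of_apply, smul_eq_mul]
    rw [hB i j]
    simp
  obtain ⟨φ, hφ⟩ := exists_rep G
    (fun A => by
      obtain ⟨B, hB⟩ := hdiv M N A hMI hNI
      refine ⟨B, ?_⟩
      rw [hG, Matrix.mul_smul]
      change _ = (δ : K)⁻¹ • (toK K M * toK K A * toK K N)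
      rw [← hB, smul_smul, inv_mul_cancel₀ hδ', one_smul])
    (fun A => by
      obtain ⟨B, hB⟩ := hdiv N M A hNI hMI
      refine ⟨B, ?_⟩
      rw [hG, Matrix.smul_mul, Matrix.smul_mul]
      change _ = (δ : K)⁻¹ • (toK K N * toK K A * toK K M)
      rw [← hB, smul_smul, inv_mul_cancel₀ hδ', one_smul])
  refine ⟨φ, G, hφ, p⁻¹ * q, mul_ne_zero (inv_ne_zero hp) hq, ?_⟩
  have h1 : toK K M *ᵥ vec 1 0 = vec a b := by
    apply toK_mulVec
    ext i
    fin_cases i <;> simp [M, Matrix.mulVec, dotProduct, Fin.sum_univ_two]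
  rw [← hx, ← hy, Matrix.mulVec_smul] at h1
  change toK K M *ᵥ x.rep = _
  rw [mul_smul, ← h1, smul_smul, inv_mul_cancel₀ hp, one_smul]

/-- if some non-principal ideal of `𝓞 K` has principal square then there are fewer
`PGL₂(𝓞 K)`-orbits than `SL₂(𝓞 K)`-orbits on the lines of `K²` -/
theorem card_lt (a b δ : 𝓞 K) (hδ : δ ≠ 0)
    (hI : Ideal.span {a, b} * Ideal.span {a, b} = Ideal.span {δ})
    (hnp : ¬ (Ideal.span {a, b} : Ideal (𝓞 K)).IsPrincipal) :
    Finite (SLQuot K) ∧ Finite (PGLQuot K) ∧ Nat.card (PGLQuot K) < Nat.card (SLQuot K) := by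
  have hfin : Finite (SLQuot K) := finite_SLQuot
  let π : SLQuot K → PGLQuot K :=
    Quot.lift (fun x => Quot.mk _ x) (fun x y h => Quot.sound (PGLRel_of_SLRel h))
  have hπ : Function.Surjective π := by
    intro q
    induction q using Quot.ind with
    | mk x => exact ⟨Quot.mk _ x, rfl⟩
  have hfin' : Finite (PGLQuot K) := Finite.of_surjective π hπ
  refine ⟨hfin, hfin', ?_⟩
  have hab : a ≠ 0 ∨ b ≠ 0 := by
    by_contra hcon
    push Not at hcon
    obtain ⟨rfl, rfl⟩ := hcon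
    apply hnp
    refine ⟨0, ?_⟩
    simp
  obtain ⟨x, p, hp, hx⟩ := exists_line (K := K) 1 0 (Or.inl one_ne_zero)
  obtain ⟨y, q, hq, hy⟩ := exists_line (K := K) a b hab
  have hUx : Uni x := ⟨1, 0, isCoprime_one_left, p, hp, hx⟩
  have hUy : ¬ Uni y := by
    rintro ⟨a', b', ⟨u, v, huv⟩, c, hc, hcy⟩
    apply hnp
    have h3 : (c * q⁻¹) • vec a b = vec a' b' := by
      rw [← hy, ← hcy, smul_smul, mul_assoc, inv_mul_cancel₀ hq, mul_one]
    have h30 := congrFun h3 0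
    have h31 := congrFun h3 1
    simp only [vec, Pi.smul_apply, smul_eq_mul, Matrix.cons_val_zero, Matrix.cons_val_one] at h30 h31
    set r := c * q⁻¹ with hr
    have hr0 : r ≠ 0 := mul_ne_zero hc (inv_ne_zero hq)
    have hone : r * (((u * a + v * b : 𝓞 K)) : K) = 1 := by
      have : ((u * a' + v * b' : 𝓞 K) : K) = 1 := by rw [huv]; simp
      push_cast at this ⊢
      linear_combination this + (u : K) * h30 + (v : K) * h31
    have ha1 : a = (u * a + v * b) * a' := by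
      have : (a : K) = ((u * a + v * b : 𝓞 K) : K) * a' := by
        rw [← h30]
        linear_combination (-(a : K)) * hone
      exact_mod_cast this
    have hb1 : b = (u * a + v * b) * b' := by
      have : (b : K) = ((u * a + v * b : 𝓞 K) : K) * b' := by
        rw [← h31]
        linear_combination (-(b : K)) * hone
      exact_mod_cast this
    refine ⟨u * a + v * b, ?_⟩
    apply le_antisymm
    · rw [Ideal.span_le]
      rintro t (rfl | rfl)
      · exact Ideal.mem_span_singleton.2 ⟨a', ha1⟩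
      · exact Ideal.mem_span_singleton.2 ⟨b', hb1⟩
    · rw [Submodule.span_singleton_le_iff_mem]
      exact Ideal.mem_span_pair.2 ⟨u, v, rfl⟩
  have hne : (Quot.mk _ x : SLQuot K) ≠ Quot.mk _ y := by
    intro h
    have := congrArg (Quot.lift Uni (fun _ _ h => Uni_iff h)) h
    simp only at this
    rw [this] at hUx
    exact hUy hUx
  have heq : π (Quot.mk _ x) = π (Quot.mk _ y) :=
    Quot.sound (PGLRel_extra a b δ hδ hI x y hp hq hx hy)
  by_contra hcon
  push Not at hcon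
  have hle : Nat.card (SLQuot K) ≤ Nat.card (PGLQuot K) := hcon
  have hle' : Nat.card (PGLQuot K) ≤ Nat.card (SLQuot K) := Nat.card_le_card_of_surjective π hπ
  have hbij : Function.Bijective π :=
    (Nat.bijective_iff_surjective_and_card π).2 ⟨hπ, le_antisymm hle hle'⟩
  exact hne (hbij.1 heq)

end Pool.Agent.Q89.PB
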