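import Mathlib
import Pool.Agent.Q89.PB2

open scoped NumberField LinearAlgebra.Projectivization MatrixGroups
open Matrix

namespace Pool.Agent.Q89.PB

instance fact5 : Fact (∀ r : ℚ, r ^ 2 ≠ (-5) + 0 * r) := ⟨fun r h => by nlinarith [sq_nonneg r]⟩

/-- the field `ℚ(√-5)` -/
abbrev K5 := QuadraticAlgebra ℚ (-5) 0

instance : NumberField K5 where
  to_charZero := inferInstance
  to_finiteDimensional := by
    have h : Module.Finite ℚ (QuadraticAlgebra ℚ (-5) 0) := inferInstance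
    convert h

lemma re2 : (2 : K5).re = 2 := rfl
lemma im2 : (2 : K5).im = 0 := rfl
lemma re5 : (5 : K5).re = 5 := rfl
lemma im5 : (5 : K5).im = 0 := rfl

lemma int_of_isIntegral (q : ℚ) (h : IsIntegral ℤ (q : K5)) : ∃ n : ℤ, q = n := by
  have h0 : IsIntegral ℤ (algebraMap ℚ K5 q) := by rw [eq_ratCast]; exact h
  have h1 : IsIntegral ℤ q :=
    (isIntegral_algebraMap_iff (algebraMap ℚ K5).injective).1 h0
  obtain ⟨n, hn⟩ := IsIntegrallyClosed.isIntegral_iff.1 h1
  exact ⟨n, by rw [← hn]; simp⟩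

lemma star_integral (z : K5) (hz : IsIntegral ℤ z) : IsIntegral ℤ (star z) := by
  have := map_isIntegral_int (starRingEnd K5) hz
  exact this

lemma norm_int (z : K5) (hz : IsIntegral ℤ z) : ∃ n : ℤ, QuadraticAlgebra.norm z = n := by
  apply int_of_isIntegral
  have e : ((QuadraticAlgebra.norm z : ℚ) : K5) = z * star z := by
    ext
    · simp [QuadraticAlgebra.norm_def, re5]
    · simp; try ring
  rw [e]
  exact hz.mul (star_integral z hz)

lemma trace_int (z : K5) (hz : IsIntegral ℤ z) : ∃ n : ℤ, QuadraticAlgebra.trace z = n := by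
  apply int_of_isIntegral
  have e : ((QuadraticAlgebra.trace z : ℚ) : K5) = z + star z := by
    ext
    · simp [QuadraticAlgebra.trace_def, re2]; try ring
    · simp
  rw [e]
  exact hz.add (star_integral z hz)

lemma norm_formula (z : K5) : QuadraticAlgebra.norm z = z.re ^ 2 + 5 * z.im ^ 2 := by
  rw [QuadraticAlgebra.norm_def]; ring

lemma trace_formula (z : K5) : QuadraticAlgebra.trace z = 2 * z.re := by
  rw [QuadraticAlgebra.trace_def]; ring

/-- no algebraic integer of `ℚ(√-5)` has norm two -/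
lemma norm_ne_two (z : K5) (hz : IsIntegral ℤ z) : QuadraticAlgebra.norm z ≠ 2 := by
  intro h2
  obtain ⟨m, hm⟩ := trace_int z hz
  rw [norm_formula] at h2
  rw [trace_formula] at hm
  have h3 : (10 * z.im) ^ 2 = ((40 - 5 * m ^ 2 : ℤ) : ℚ) := by
    push_cast
    rw [← hm]
    linear_combination 20 * h2
  have h4 : IsIntegral ℤ (10 * z.im) := by
    have : IsIntegral ℤ ((10 * z.im) ^ 2) := by
      rw [h3]; exact isIntegral_algebraMap (R := ℤ) (A := ℚ) (x := 40 - 5 * m ^ 2)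
    exact IsIntegral.of_pow (by norm_num) this
  obtain ⟨r, hr⟩ := IsIntegrallyClosed.isIntegral_iff.1 h4
  have h5 : r ^ 2 = 40 - 5 * m ^ 2 := by
    have : ((r ^ 2 : ℤ) : ℚ) = ((40 - 5 * m ^ 2 : ℤ) : ℚ) := by
      rw [← h3, ← hr]; simp
    exact_mod_cast this
  have hm1 : m ≤ 2 := by nlinarith [sq_nonneg r]
  have hm2 : -2 ≤ m := by nlinarith [sq_nonneg r]
  have hr1 : r ≤ 6 := by nlinarith [sq_nonneg m]
  have hr2 : -6 ≤ r := by nlinarith [sq_nonneg m]
  interval_cases m <;> interval_cases r <;> omega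

/-- the square root of `-5` -/
def s5 : 𝓞 K5 := ⟨⟨0, 1⟩, by
  refine ⟨Polynomial.X ^ 2 + 5, ?_, ?_⟩
  · monicity!
  · have h5 : (5 : K5) = ⟨5, 0⟩ := by
      have := (rfl : ((5 : ℕ) : K5) = ((5 : ℕ) : K5))
      ext
      · exact QuadraticAlgebra.re_natCast (R := ℚ) (a := -5) (b := 0) 5
      · exact QuadraticAlgebra.im_natCast (R := ℚ) (a := -5) (b := 0) 5
    simp only [Polynomial.eval₂_add, Polynomial.eval₂_pow, Polynomial.eval₂_X,
      Polynomial.eval₂_ofNat]
    rw [h5]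
    ext
    · simp [sq]
    · simp [sq]⟩

lemma s5_sq : s5 * s5 = -5 := by
  apply NumberField.RingOfIntegers.ext
  change (algebraMap (𝓞 K5) K5) (s5 * s5) = (algebraMap (𝓞 K5) K5) (-5)
  rw [map_mul, map_neg, map_ofNat]
  change ((⟨0, 1⟩ : K5) * ⟨0, 1⟩) = -5
  ext
  · simp [re5]
  · simp [im5]

lemma ideal_sq : Ideal.span {(2 : 𝓞 K5), 1 + s5} * Ideal.span {(2 : 𝓞 K5), 1 + s5}
    = Ideal.span {2} := by
  rw [Ideal.span_pair_mul_span_pair]
  apply le_antisymm
  · rw [Ideal.span_le]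
    rintro t ht
    simp only [Set.mem_insert_iff, Set.mem_singleton_iff] at ht
    rw [SetLike.mem_coe, Ideal.mem_span_singleton]
    rcases ht with rfl | rfl | rfl | rfl
    · exact ⟨2, rfl⟩
    · exact ⟨1 + s5, rfl⟩
    · exact ⟨1 + s5, by ring⟩
    · refine ⟨-2 + s5, ?_⟩
      linear_combination s5_sq
  · rw [Ideal.span_singleton_le_iff_mem]
    have e : (2 : 𝓞 K5) = (2 * (1 + s5) - (1 + s5) * (1 + s5)) - 2 * 2 := by
      linear_combination s5_sq
    have h1 : (2 * (1 + s5) : 𝓞 K5) ∈ Ideal.span {(2 : 𝓞 K5) * 2, 2 * (1 + s5), (1 + s5) * 2,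
        (1 + s5) * (1 + s5)} := Ideal.subset_span (Or.inr (Or.inl rfl))
    have h2 : ((1 + s5) * (1 + s5) : 𝓞 K5) ∈ Ideal.span {(2 : 𝓞 K5) * 2, 2 * (1 + s5),
        (1 + s5) * 2, (1 + s5) * (1 + s5)} :=
      Ideal.subset_span (Or.inr (Or.inr (Or.inr rfl)))
    have h3 : (2 * 2 : 𝓞 K5) ∈ Ideal.span {(2 : 𝓞 K5) * 2, 2 * (1 + s5), (1 + s5) * 2,
        (1 + s5) * (1 + s5)} := Ideal.subset_span (Or.inl rfl)
    have h4 := sub_mem (sub_mem h1 h2) h3
    rwa [← e] at h4

lemma not_principal : ¬ (Ideal.span {(2 : 𝓞 K5), 1 + s5}).IsPrincipal := by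
  rintro ⟨l, hl⟩
  have h1 := ideal_sq
  rw [hl, Ideal.submodule_span_eq, Ideal.span_singleton_mul_span_singleton] at h1
  rw [Ideal.span_singleton_eq_span_singleton] at h1
  obtain ⟨u, hu⟩ := h1
  set L : K5 := algebraMap (𝓞 K5) K5 l with hL
  set U : K5 := algebraMap (𝓞 K5) K5 (u : 𝓞 K5) with hU
  set U' : K5 := algebraMap (𝓞 K5) K5 ((u⁻¹ : (𝓞 K5)ˣ) : 𝓞 K5) with hU'
  have iL : IsIntegral ℤ L := NumberField.RingOfIntegers.isIntegral_coe l
  have iU : IsIntegral ℤ U := NumberField.RingOfIntegers.isIntegral_coe _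
  have iU' : IsIntegral ℤ U' := NumberField.RingOfIntegers.isIntegral_coe _
  have hK : L * L * U = 2 := by
    have := congrArg (algebraMap (𝓞 K5) K5) hu
    rw [map_mul, map_mul, map_ofNat] at this
    exact this
  have hN := congrArg QuadraticAlgebra.norm hK
  rw [map_mul, map_mul] at hN
  have h4 : QuadraticAlgebra.norm (2 : K5) = 4 := by
    rw [norm_formula, re2, im2]; norm_num
  rw [h4] at hN
  obtain ⟨n, hn⟩ := norm_int L iL
  obtain ⟨m, hm⟩ := norm_int U iU
  obtain ⟨m', hm'⟩ := norm_int U' iU'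
  have huu : U * U' = 1 := by
    have := congrArg (algebraMap (𝓞 K5) K5) (u.mul_inv)
    rw [map_mul, map_one] at this
    exact this
  have hmm := congrArg QuadraticAlgebra.norm huu
  rw [map_mul, hm, hm', map_one] at hmm
  have hmm' : m * m' = 1 := by exact_mod_cast hmm
  have hmpos : 0 ≤ (m : ℚ) := by rw [← hm, norm_formula]; positivity
  have hmpos' : 0 ≤ m := by exact_mod_cast hmpos
  have hm1 : m = 1 := by
    rcases Int.eq_one_or_neg_one_of_mul_eq_one hmm' with h | h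
    · exact h
    · omega
  have hnpos : 0 ≤ (n : ℚ) := by rw [← hn, norm_formula]; positivity
  have hnpos' : 0 ≤ n := by exact_mod_cast hnpos
  rw [hn, hm, hm1] at hN
  have hn4 : n * n = 4 := by
    have : (n : ℚ) * n = 4 := by
      have := hN
      push_cast at this
      linarith
    exact_mod_cast this
  have hn2 : n = 2 := by nlinarith
  exact norm_ne_two L iL (by rw [hn, hn2]; norm_num)

end Pool.Agent.Q89.PB
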