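import Mathlib

/-!
# Rewriting systems given by a partial binary operation on the letters
-/

namespace Pool.Agent.Q89.PC

open Relation

section defs
variable {A : Type}

/-- `Step R u v`: the word `v` arises from `u` by one application of a rule of `R`. -/
def Step (R : Set (List A × List A)) (u v : List A) : Prop :=
  ∃ a b x y : List A, (x, y) ∈ R ∧ u = a ++ x ++ b ∧ v = a ++ y ++ b

/-- every rule `(x, y)` has `y` a letter or the empty word and `|x| > |y|` -/
def Monadic (R : Set (List A × List A)) : Prop :=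
  ∀ x y : List A, (x, y) ∈ R → y.length ≤ 1 ∧ y.length < x.length

/-- confluence -/
def Confluent (R : Set (List A × List A)) : Prop :=
  ∀ u v w : List A, ReflTransGen (Step R) u v → ReflTransGen (Step R) u w →
    ∃ z, ReflTransGen (Step R) v z ∧ ReflTransGen (Step R) w z

/-- the monoid `M(Σ; R)`: the quotient of the free monoid by the smallest congruence
containing `R` -/
abbrev Mon (R : Set (List A × List A)) : Type :=
  PresentedMonoid (fun x y : FreeMonoid A => (x.toList, y.toList) ∈ R)

/-- the element of `M(Σ; R)` given by a word -/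
def word (R : Set (List A × List A)) (u : List A) : Mon R :=
  PresentedMonoid.mk _ (FreeMonoid.ofList u)

end defs

/-- `p`-conjugacy in a monoid -/
def PConj {M : Type} [Monoid M] (a b : M) : Prop := ∃ u v : M, a = u * v ∧ b = v * u

section basic
variable {A : Type} {R : Set (List A × List A)}

theorem word_append (u v : List A) : word R (u ++ v) = word R u * word R v := rfl

theorem exists_word (a : Mon R) : ∃ u, a = word R u := by
  induction a using PresentedMonoid.inductionOn with
  | _ x => exact ⟨x.toList, rfl⟩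

theorem Step.ctx {u v : List A} (h : Step R u v) (p q : List A) :
    Step R (p ++ u ++ q) (p ++ v ++ q) := by
  obtain ⟨a, b, x, y, hxy, rfl, rfl⟩ := h
  exact ⟨p ++ a, b ++ q, x, y, hxy, by simp, by simp⟩

theorem steps_ctx {u v : List A} (h : ReflTransGen (Step R) u v) (p q : List A) :
    ReflTransGen (Step R) (p ++ u ++ q) (p ++ v ++ q) := by
  induction h with
  | refl => exact .refl
  | tail _ h2 ih => exact ih.tail (h2.ctx p q)

theorem word_eq_of_step {u v : List A} (h : Step R u v) : word R u = word R v := by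
  obtain ⟨a, b, x, y, hxy, rfl, rfl⟩ := h
  simp only [word_append]
  congr 2
  exact Quotient.sound (ConGen.Rel.of _ _ hxy)

theorem word_eq_of_steps {u v : List A} (h : ReflTransGen (Step R) u v) : word R u = word R v := by
  induction h with
  | refl => rfl
  | tail _ h2 ih => exact ih.trans (word_eq_of_step h2)

theorem join_of_word_eq (hc : Confluent R) {u v : List A} (h : word R u = word R v) :
    ∃ z, ReflTransGen (Step R) u z ∧ ReflTransGen (Step R) v z := by
  have h1 : ConGen.Rel (fun x y : FreeMonoid A => (x.toList, y.toList) ∈ R)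
      (FreeMonoid.ofList u) (FreeMonoid.ofList v) := Quotient.exact h
  have key : ∀ x y : FreeMonoid A,
      ConGen.Rel (fun x y : FreeMonoid A => (x.toList, y.toList) ∈ R) x y →
      ∃ z, ReflTransGen (Step R) x.toList z ∧ ReflTransGen (Step R) y.toList z := by
    intro x y h
    induction h with
    | of x y h => exact ⟨y.toList, .single ⟨[], [], _, _, h, by simp, by simp⟩, .refl⟩
    | refl x => exact ⟨_, .refl, .refl⟩
    | symm _ ih => obtain ⟨z, h1, h2⟩ := ih; exact ⟨z, h2, h1⟩
    | trans _ _ ih1 ih2 =>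
      obtain ⟨z, h1, h2⟩ := ih1
      obtain ⟨z', h3, h4⟩ := ih2
      obtain ⟨t, h5, h6⟩ := hc _ _ _ h2 h3
      exact ⟨t, h1.trans h5, h4.trans h6⟩
    | @mul x1 x2 y1 y2 _ _ ih1 ih2 =>
      obtain ⟨z, h1, h2⟩ := ih1
      obtain ⟨z', h3, h4⟩ := ih2
      refine ⟨z ++ z', ?_, ?_⟩
      · have h5 := steps_ctx h1 [] y1.toList
        have h6 := steps_ctx h3 z []
        simp only [List.nil_append, List.append_nil] at h5 h6
        exact ReflTransGen.trans h5 h6
      · have h5 := steps_ctx h2 [] y2.toList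
        have h6 := steps_ctx h4 z []
        simp only [List.nil_append, List.append_nil] at h5 h6
        exact ReflTransGen.trans h5 h6
  exact key _ _ h1

theorem pconj_iff (hc : Confluent R) (u v : List A) : PConj (word R u) (word R v) ↔
    ∃ x y z z' : List A, ReflTransGen (Step R) u z ∧ ReflTransGen (Step R) (x ++ y) z ∧
      ReflTransGen (Step R) v z' ∧ ReflTransGen (Step R) (y ++ x) z' := by
  constructor
  · rintro ⟨a, b, h1, h2⟩
    obtain ⟨x, rfl⟩ := exists_word a
    obtain ⟨y, rfl⟩ := exists_word b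
    obtain ⟨z, h3, h4⟩ := join_of_word_eq hc (v := x ++ y) h1
    obtain ⟨z', h5, h6⟩ := join_of_word_eq hc (v := y ++ x) h2
    exact ⟨x, y, z, z', h3, h4, h5, h6⟩
  · rintro ⟨x, y, z, z', h1, h2, h3, h4⟩
    refine ⟨word R x, word R y, ?_, ?_⟩
    · rw [← word_append, word_eq_of_steps h1, word_eq_of_steps h2]
    · rw [← word_append, word_eq_of_steps h3, word_eq_of_steps h4]

end basic

section op
variable {A : Type} (r : A → A → Option A)

/-- the rules `x y → r x y` -/
def RR : Set (List A × List A) := {p | ∃ x y w, r x y = some w ∧ p = ([x, y], [w])}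

theorem step_iff {u v : List A} : Step (RR r) u v ↔
    ∃ p q x y w, r x y = some w ∧ u = p ++ x :: y :: q ∧ v = p ++ w :: q := by
  constructor
  · rintro ⟨a, b, x, y, ⟨x1, y1, w, h, h2⟩, rfl, rfl⟩
    obtain ⟨rfl, rfl⟩ := Prod.mk.inj h2
    exact ⟨a, b, x1, y1, w, h, by simp, by simp⟩
  · rintro ⟨p, q, x, y, w, h, rfl, rfl⟩
    exact ⟨p, q, [x, y], [w], ⟨x, y, w, h, rfl⟩, by simp, by simp⟩

theorem monadic_RR : Monadic (RR r) := by
  rintro x y ⟨x1, y1, w, h, h2⟩
  obtain ⟨rfl, rfl⟩ := Prod.mk.inj h2
  simp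

theorem finite_RR [Finite A] : (RR r).Finite := by
  have : RR r ⊆ Set.range (fun t : A × A × A => ([t.1, t.2.1], [t.2.2])) := by
    rintro _ ⟨x, y, w, h, rfl⟩
    exact ⟨(x, y, w), rfl⟩
  exact (Set.finite_range _).subset this

theorem local_aux (hP : ∀ x y z w w', r x y = some w → r y z = some w' →
      ∃ v, r w z = some v ∧ r x w' = some v)
    (p q x y w t q' x' y' w') (h : r x y = some w) (h' : r x' y' = some w')
    (he : x :: y :: q = t ++ x' :: y' :: q') :
    ∃ d, ReflGen (Step (RR r)) (p ++ w :: q) d ∧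
      ReflGen (Step (RR r)) (p ++ t ++ w' :: q') d := by
  rcases t with _ | ⟨t1, _ | ⟨t2, t⟩⟩
  · simp only [List.nil_append, List.cons.injEq] at he
    obtain ⟨rfl, rfl, rfl⟩ := he
    rw [h] at h'
    obtain rfl := Option.some.inj h'
    exact ⟨_, .refl, by rw [List.append_nil]⟩
  · simp only [List.cons_append, List.nil_append, List.cons.injEq] at he
    obtain ⟨rfl, rfl, rfl⟩ := he
    obtain ⟨v, hv1, hv2⟩ := hP _ _ _ _ _ h h'
    refine ⟨p ++ v :: q', .single ?_, .single ?_⟩
    · exact (step_iff r).2 ⟨p, q', _, _, v, hv1, rfl, rfl⟩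
    · exact (step_iff r).2 ⟨p, q', _, _, v, hv2, by simp, rfl⟩
  · simp only [List.cons_append, List.cons.injEq] at he
    obtain ⟨rfl, rfl, rfl⟩ := he
    refine ⟨p ++ w :: (t ++ w' :: q'), .single ?_, .single ?_⟩
    · exact (step_iff r).2 ⟨p ++ w :: t, q', _, _, _, h', by simp, by simp⟩
    · exact (step_iff r).2 ⟨p, t ++ w' :: q', _, _, _, h, by simp, by simp⟩

theorem confluent_RR (hP : ∀ x y z w w', r x y = some w → r y z = some w' →
      ∃ v, r w z = some v ∧ r x w' = some v) : Confluent (RR r) := by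
  intro u v w h1 h2
  refine church_rosser ?_ h1 h2
  intro a b c hb hc
  obtain ⟨p, q, x, y, w, h, rfl, rfl⟩ := (step_iff r).1 hb
  obtain ⟨p', q', x', y', w', h', he, rfl⟩ := (step_iff r).1 hc
  rcases List.append_eq_append_iff.1 he with ⟨t, ht, he2⟩ | ⟨t, ht, he2⟩
  · subst ht
    obtain ⟨d, h3, h4⟩ := local_aux r hP p q x y w t q' x' y' w' h h' he2
    exact ⟨d, h3, h4.to_reflTransGen⟩
  · subst ht
    obtain ⟨d, h3, h4⟩ := local_aux r hP p' q' x' y' w' t q x y w h' h he2
    exact ⟨d, h4, h3.to_reflTransGen⟩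

end op

end Pool.Agent.Q89.PC
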