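import Pool.Agent.Q89.PC1

/-!
# The rewriting system
-/

namespace Pool.Agent.Q89.PC

open Relation

/-- Data: `I` tokens, `O` special letters, `C` control states; the token `i` has the two words
`hf i · a ^ hc i` and `gf i · a ^ gc i`. -/
structure Dat where
  K : ℕ
  O : Type
  I : Type
  C : Type
  fO : Finite O
  fI : Finite I
  fC : Finite C
  dO : DecidableEq O
  hf : I → Option O
  hc : I → Fin (K + 1)
  gf : I → Option O
  gc : I → Fin (K + 1)
  nx : C → I → Option C
  c0 : C
  c1 : C

/-- letters -/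
inductive Lt (D : Dat) : Type
  | zero : Lt D
  | mA : Lt D
  | mB : Lt D
  | mC : Lt D
  | mD : Lt D
  | a : Lt D
  | l (o : D.O) : Lt D
  | tok (i : D.I) : Lt D
  | H (m : Fin (D.K + 1)) (f : Option D.O) : Lt D
  | S (f : Option D.O) (m : Fin (D.K + 1)) (c : D.C) : Lt D

section
variable {D : Dat}

/-- predecessor -/
def dec (m : Fin (D.K + 1)) : Fin (D.K + 1) := ⟨m - 1, by omega⟩

instance : DecidableEq D.O := D.dO

/-- the operation -/
def r : Lt D → Lt D → Option (Lt D)
  | .zero, _ => some .zero
  | _, .zero => some .zero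
  | .mA, .mB => some (.H 0 none)
  | .mC, .mD => some (.S none 0 D.c0)
  | .H _ _, .H _ _ => some .zero
  | .H _ _, .S _ _ _ => some .zero
  | .S _ _ _, .H _ _ => some .zero
  | .S _ _ _, .S _ _ _ => some .zero
  | .tok i, .H m f => if (m : ℕ) = 0 ∧ f = none then some (.H (D.hc i) (D.hf i)) else none
  | .H m f, .a => if (m : ℕ) = 0 then none else some (.H (dec m) f)
  | .H m f, .l o => if (m : ℕ) = 0 ∧ f = some o then some (.H 0 none) else none
  | .S f m c, .tok i => if (m : ℕ) = 0 ∧ f = none then
      (D.nx c i).map (fun c' => .S (D.gf i) (D.gc i) c') else none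
  | .l o, .S f m c => if f = some o then some (.S none m c) else none
  | .a, .S f m c => if (m : ℕ) = 0 ∨ f ≠ none then none else some (.S none (dec m) c)
  | _, _ => none

theorem hP : ∀ x y z w w' : Lt D, r x y = some w → r y z = some w' →
      ∃ v, r w z = some v ∧ r x w' = some v := by
  have hzr : ∀ x : Lt D, r x .zero = some .zero := by
    intro x; rcases x <;> rfl
  have hzl : ∀ x : Lt D, r .zero x = some .zero := by
    intro x; rfl
  intro x y z w w' h1 h2
  refine ⟨.zero, ?_, ?_⟩
  · rcases y with _ | _ | _ | _ | _ | _ | o | i | ⟨m, f⟩ | ⟨f, m, c⟩ <;>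
    rcases z with _ | _ | _ | _ | _ | _ | o' | i' | ⟨m', f'⟩ | ⟨f', m', c'⟩ <;>
    simp only [r, reduceCtorEq, Option.some.injEq] at h2 <;>
    rcases x with _ | _ | _ | _ | _ | _ | o1 | i1 | ⟨m1, f1⟩ | ⟨f1, m1, c1⟩ <;>
    simp only [r, reduceCtorEq, Option.some.injEq] at h1 <;>
    first
    | (subst h1; rfl)
    | (exact hzr _)
    | (split at h1
       all_goals first
         | (simp only [reduceCtorEq] at h1; done)
         | (simp only [Option.some.injEq] at h1; subst h1; rfl)
         | (simp only [Option.map_eq_some_iff] at h1; obtain ⟨_, _, rfl⟩ := h1; rfl)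
         | (exfalso; split at h2 <;> simp_all <;> done)
         | skip)
  · rcases x with _ | _ | _ | _ | _ | _ | o | i | ⟨m, f⟩ | ⟨f, m, c⟩ <;>
    rcases y with _ | _ | _ | _ | _ | _ | o' | i' | ⟨m', f'⟩ | ⟨f', m', c'⟩ <;>
    simp only [r, reduceCtorEq, Option.some.injEq] at h1 <;>
    rcases z with _ | _ | _ | _ | _ | _ | o1 | i1 | ⟨m1, f1⟩ | ⟨f1, m1, c1⟩ <;>
    simp only [r, reduceCtorEq, Option.some.injEq] at h2 <;>
    first
    | (subst h2; rfl)
    | (exact hzl _)
    | (split at h2
       all_goals first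
         | (simp only [reduceCtorEq] at h2; done)
         | (simp only [Option.some.injEq] at h2; subst h2; rfl)
         | (simp only [Option.map_eq_some_iff] at h2; obtain ⟨_, _, rfl⟩ := h2; rfl)
         | (exfalso; split at h1 <;> simp_all <;> done)
         | skip)

end

end Pool.Agent.Q89.PC
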