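import Pool.Agent.Q89.PC2

/-!
# Conjugacy of two words
-/

namespace Pool.Agent.Q89.PC

open Relation

section
variable {D : Dat}

/-- zero and state letters -/
def zs : Lt D → Bool
  | .zero => true
  | .H _ _ => true
  | .S _ _ _ => true
  | _ => false

/-- plain letters -/
def wl : Lt D → Bool
  | .a => true
  | .l _ => true
  | _ => false

theorem r_zs {x y w : Lt D} (h : r x y = some w) : zs w = true := by
  rcases x with _ | _ | _ | _ | _ | _ | o | i | ⟨m, f⟩ | ⟨f, m, c⟩ <;>
  rcases y with _ | _ | _ | _ | _ | _ | o' | i' | ⟨m', f'⟩ | ⟨f', m', c'⟩ <;>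
  simp only [r, reduceCtorEq, Option.some.injEq] at h <;>
  first
  | (subst h; rfl)
  | (split at h
     all_goals first
       | (simp only [reduceCtorEq] at h; done)
       | (simp only [Option.some.injEq] at h; subst h; rfl)
       | (simp only [Option.map_eq_some_iff] at h; obtain ⟨_, _, rfl⟩ := h; rfl))

theorem H_pred {x y : Lt D} {m f} (h : r x y = some (.H m f)) :
    (x = .mA ∧ y = .mB ∧ m = 0 ∧ f = none) ∨
    (∃ i, x = .tok i ∧ y = .H 0 none ∧ m = D.hc i ∧ f = D.hf i) ∨
    (∃ m1, x = .H m1 f ∧ y = .a ∧ (m1 : ℕ) = m + 1) ∨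
    (∃ o, x = .H 0 (some o) ∧ y = .l o ∧ m = 0 ∧ f = none) := by
  rcases x with _ | _ | _ | _ | _ | _ | o | i | ⟨m1, f1⟩ | ⟨f1, m1, c1⟩ <;>
  rcases y with _ | _ | _ | _ | _ | _ | o' | i' | ⟨m', f'⟩ | ⟨f', m', c'⟩ <;>
  simp only [r, reduceCtorEq, Option.some.injEq] at h
  · simp only [Lt.H.injEq] at h
    left; exact ⟨rfl, rfl, h.1.symm, h.2.symm⟩
  · split at h
    · simp at h
    · simp at h
  · split at h
    · simp at h
    · simp at h
  · split at h
    · rename_i h2
      simp only [Option.some.injEq, Lt.H.injEq] at h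
      right; left
      refine ⟨i, rfl, ?_, h.1.symm, h.2.symm⟩
      have : m' = 0 := Fin.ext h2.1
      rw [this, h2.2]
    · simp at h
  · split at h
    · simp at h
    · rename_i h2
      simp only [Option.some.injEq, Lt.H.injEq] at h
      right; right; left
      refine ⟨m1, by rw [h.2], rfl, ?_⟩
      rw [← h.1]
      simp only [dec]
      omega
  · split at h
    · rename_i h2
      simp only [Option.some.injEq, Lt.H.injEq] at h
      right; right; right
      refine ⟨o', ?_, rfl, h.1.symm, h.2.symm⟩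
      have : m1 = 0 := Fin.ext h2.1
      rw [this, h2.2]
    · simp at h
  · split at h
    · simp at h
    · simp at h

theorem S_pred {x y : Lt D} {m f c} (h : r x y = some (.S f m c)) :
    (x = .mC ∧ y = .mD ∧ f = none ∧ m = 0 ∧ c = D.c0) ∨
    (∃ c' i, x = .S none 0 c' ∧ y = .tok i ∧ D.nx c' i = some c ∧ f = D.gf i ∧ m = D.gc i) ∨
    (∃ o, x = .l o ∧ y = .S (some o) m c ∧ f = none) ∨
    (∃ m1, x = .a ∧ y = .S none m1 c ∧ (m1 : ℕ) = m + 1 ∧ f = none) := by
  rcases x with _ | _ | _ | _ | _ | _ | o | i | ⟨m1, f1⟩ | ⟨f1, m1, c1⟩ <;>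
  rcases y with _ | _ | _ | _ | _ | _ | o' | i' | ⟨m', f'⟩ | ⟨f', m', c'⟩ <;>
  simp only [r, reduceCtorEq, Option.some.injEq] at h
  · simp only [Lt.S.injEq] at h
    left; exact ⟨rfl, rfl, h.1.symm, h.2.1.symm, h.2.2.symm⟩
  · split at h
    · simp at h
    · rename_i h2
      simp only [Option.some.injEq, Lt.S.injEq] at h
      simp only [not_or, ne_eq, not_not] at h2
      right; right; right
      refine ⟨m', rfl, by rw [h2.2, h.2.2], ?_, h.1.symm⟩
      rw [← h.2.1]
      simp only [dec]
      omega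
  · split at h
    · rename_i h2
      simp only [Option.some.injEq, Lt.S.injEq] at h
      right; right; left
      refine ⟨o, rfl, by rw [h2, h.2.1, h.2.2], h.1.symm⟩
    · simp at h
  · split at h
    · simp at h
    · simp at h
  · split at h
    · simp at h
    · simp at h
  · split at h
    · simp at h
    · simp at h
  · split at h
    · rename_i h2
      simp only [Option.map_eq_some_iff, Lt.S.injEq] at h
      obtain ⟨c2, h3, h4, h5, rfl⟩ := h
      right; left
      refine ⟨c1, i', ?_, rfl, h3, h4.symm, h5.symm⟩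
      have : m1 = 0 := Fin.ext h2.1
      rw [this, h2.2]
    · simp at h

/-- blocks -/
def X (m : Fin (D.K + 1)) (f : Option D.O) : List (Lt D) :=
  List.replicate (m : ℕ) .a ++ (match f with | none => [] | some o => [.l o])

/-- the `h`-word -/
def HH (z : List D.I) : List (Lt D) := z.reverse.flatMap fun i => X (D.hc i) (D.hf i)

/-- the `g`-word -/
def GG (z : List D.I) : List (Lt D) := z.reverse.flatMap fun i => X (D.gc i) (D.gf i)

/-- legal sequences -/
def leg : D.C → List D.I → D.C → Prop
  | c, [], c' => c = c'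
  | c, i :: z, c' => ∃ c2, D.nx c i = some c2 ∧ leg c2 z c'

theorem HH_nil : HH ([] : List D.I) = [] := rfl
theorem GG_nil : GG ([] : List D.I) = [] := rfl
theorem HH_concat (z : List D.I) (i : D.I) : HH (z ++ [i]) = X (D.hc i) (D.hf i) ++ HH z := by
  simp [HH]
theorem HH_cons (z : List D.I) (i : D.I) : HH (i :: z) = HH z ++ X (D.hc i) (D.hf i) := by
  simp [HH]
theorem GG_cons (z : List D.I) (i : D.I) : GG (i :: z) = GG z ++ X (D.gc i) (D.gf i) := by
  simp [GG]

theorem X_zero : X (0 : Fin (D.K + 1)) none = [] := rfl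
theorem X_some (o : D.O) : X (0 : Fin (D.K + 1)) (some o) = [.l o] := rfl
theorem X_some' (m : Fin (D.K + 1)) (o : D.O) : X m (some o) = X m none ++ [.l o] := by simp [X]
theorem X_succ {m m1 : Fin (D.K + 1)} (h : (m1 : ℕ) = m + 1) (f : Option D.O) :
    X m1 f = .a :: X m f := by
  simp [X, h, List.replicate_succ]
theorem X_succ' {m m1 : Fin (D.K + 1)} (h : (m1 : ℕ) = m + 1) :
    X m1 none = X m none ++ [.a] := by
  simp [X, h, List.replicate_succ']

theorem X_wl (m : Fin (D.K + 1)) (f : Option D.O) : ∀ x ∈ X m f, wl x = true := by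
  intro x hx
  unfold X at hx
  rw [List.mem_append] at hx
  rcases hx with hx | hx
  · rw [List.eq_of_mem_replicate hx]; rfl
  · rcases f with _ | o
    · simp at hx
    · simp only [List.mem_singleton] at hx
      subst hx; rfl

theorem HH_wl (z : List D.I) : ∀ x ∈ HH z, wl x = true := by
  intro x hx
  simp only [HH, List.mem_flatMap] at hx
  obtain ⟨i, -, hi⟩ := hx
  exact X_wl _ _ _ hi

theorem GG_wl (z : List D.I) : ∀ x ∈ GG z, wl x = true := by
  intro x hx
  simp only [GG, List.mem_flatMap] at hx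
  obtain ⟨i, -, hi⟩ := hx
  exact X_wl _ _ _ hi

theorem uniq (P : Lt D → Prop) {p q p' q' : List (Lt D)} {b b' : Lt D}
    (h : p ++ b :: q = p' ++ b' :: q') (hb : P b) (h1 : ∀ x ∈ p', ¬ P x)
    (h2 : ∀ x ∈ q', ¬ P x) : p = p' ∧ b = b' ∧ q = q' := by
  rcases List.append_eq_append_iff.1 h with ⟨t, ht, h3⟩ | ⟨t, ht, h3⟩
  · rcases t with _ | ⟨t1, t⟩
    · simp only [List.nil_append, List.cons.injEq] at h3
      simp only [List.append_nil] at ht
      exact ⟨ht.symm, h3.1, h3.2⟩
    · simp only [List.cons_append, List.cons.injEq] at h3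
      exact absurd hb (h1 b (by rw [ht, h3.1]; simp))
  · rcases t with _ | ⟨t1, t⟩
    · simp only [List.nil_append, List.cons.injEq] at h3
      simp only [List.append_nil] at ht
      exact ⟨ht, h3.1.symm, h3.2.symm⟩
    · simp only [List.cons_append, List.cons.injEq] at h3
      exact absurd hb (h2 b (by rw [h3.2]; simp))

theorem not_zs_of_wl {x : Lt D} (h : wl x = true) : ¬ zs x = true := by
  rcases x with _ | _ | _ | _ | _ | _ | o | i | ⟨m, f⟩ | ⟨f, m, c⟩ <;> simp_all [wl, zs]

/-- first family of words -/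
def F1 (s W : List (Lt D)) : Prop :=
  (∃ (z : List D.I) (m : Fin (D.K + 1)) (f : Option D.O) (W' : List (Lt D)),
    W = (.mD :: z.map .tok) ++ .H m f :: (W' ++ [.mC]) ∧ W' = X m f ++ HH z ++ s) ∨
  (∃ z : List D.I, W = (.mD :: z.map .tok) ++ .mA :: .mB :: (HH z ++ s ++ [.mC]))

/-- second family of words -/
def F2 (W : List (Lt D)) : Prop :=
  (∃ (z : List D.I) (m : Fin (D.K + 1)) (f : Option D.O) (c : D.C) (W' : List (Lt D)),
    W = (.mB :: W') ++ .S f m c :: (z.map .tok ++ [.mA]) ∧ W' = GG z ++ X m f ∧ leg c z D.c1) ∨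
  (∃ z : List D.I, W = (.mB :: GG z) ++ .mC :: .mD :: (z.map .tok ++ [.mA]) ∧ leg D.c0 z D.c1)

theorem F1_back {s W W1 : List (Lt D)} (hs : ∀ x ∈ s, wl x = true) (h : Step (RR r) W W1)
    (h1 : F1 s W1) : F1 s W := by
  obtain ⟨p, q, x, y, w, hr, rfl, rfl⟩ := (step_iff r).1 h
  have hw := r_zs hr
  rcases h1 with ⟨z, m, f, W', h2, h3⟩ | ⟨z, h2⟩
  · have hW' : ∀ x ∈ W', wl x = true := by
      intro x hx
      rw [h3] at hx
      simp only [List.mem_append] at hx
      rcases hx with (hx | hx) | hx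
      · exact X_wl _ _ _ hx
      · exact HH_wl _ _ hx
      · exact hs _ hx
    obtain ⟨hp, hww, hq⟩ := uniq (fun x => zs x = true) h2 hw
      (by
        intro x hx
        simp only [List.mem_cons, List.mem_map] at hx
        rcases hx with rfl | ⟨i, -, rfl⟩ <;> simp [zs])
      (by
        intro x hx
        simp only [List.mem_append, List.mem_singleton] at hx
        rcases hx with hx | rfl
        · exact not_zs_of_wl (hW' x hx)
        · simp [zs])
    subst hp hww hq
    rcases H_pred hr with ⟨rfl, rfl, rfl, rfl⟩ | ⟨i, rfl, rfl, rfl, rfl⟩ | ⟨m1, rfl, rfl, hm⟩ |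
      ⟨o, rfl, rfl, rfl, rfl⟩
    · right
      refine ⟨z, ?_⟩
      rw [h3, X_zero]
      simp
    · left
      refine ⟨z ++ [i], 0, none, W', by simp, ?_⟩
      rw [h3, X_zero, HH_concat]
      simp
    · left
      refine ⟨z, m1, f, .a :: W', by simp, ?_⟩
      rw [h3, X_succ hm]
      simp
    · left
      refine ⟨z, 0, some o, .l o :: W', by simp, ?_⟩
      rw [h3, X_some, X_zero]
      simp
  · exfalso
    have : w ∈ (Lt.mD :: z.map Lt.tok) ++ Lt.mA :: Lt.mB :: (HH z ++ s ++ [Lt.mC]) := by
      rw [← h2]; simp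
    simp only [List.mem_append, List.mem_cons, List.mem_map, List.mem_singleton,
      List.not_mem_nil, or_false] at this
    rcases this with (rfl | ⟨i, -, rfl⟩) | rfl | rfl | (h4 | h4) | rfl
    · simp [zs] at hw
    · simp [zs] at hw
    · simp [zs] at hw
    · simp [zs] at hw
    · exact not_zs_of_wl (HH_wl _ _ h4) hw
    · exact not_zs_of_wl (hs _ h4) hw
    · simp [zs] at hw

theorem F2_back {W W1 : List (Lt D)} (h : Step (RR r) W W1)
    (h1 : F2 W1) : F2 W := by
  obtain ⟨p, q, x, y, w, hr, rfl, rfl⟩ := (step_iff r).1 h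
  have hw := r_zs hr
  rcases h1 with ⟨z, m, f, c, W', h2, h3, h5⟩ | ⟨z, h2, h5⟩
  · have hW' : ∀ x ∈ W', wl x = true := by
      intro x hx
      rw [h3] at hx
      simp only [List.mem_append] at hx
      rcases hx with hx | hx
      · exact GG_wl _ _ hx
      · exact X_wl _ _ _ hx
    obtain ⟨hp, hww, hq⟩ := uniq (fun x => zs x = true) h2 hw
      (by
        intro x hx
        simp only [List.mem_cons] at hx
        rcases hx with rfl | hx
        · simp [zs]
        · exact not_zs_of_wl (hW' x hx))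
      (by
        intro x hx
        simp only [List.mem_append, List.mem_singleton, List.mem_map] at hx
        rcases hx with ⟨i, -, rfl⟩ | rfl <;> simp [zs])
    subst hp hww hq
    rcases S_pred hr with ⟨rfl, rfl, rfl, rfl, rfl⟩ | ⟨c', i, rfl, rfl, hc', rfl, rfl⟩ |
      ⟨o, rfl, rfl, rfl⟩ | ⟨m1, rfl, rfl, hm, rfl⟩
    · right
      refine ⟨z, ?_, h5⟩
      rw [h3, X_zero]
      simp
    · left
      refine ⟨i :: z, 0, none, c', W', by simp, ?_, ⟨c, hc', h5⟩⟩
      rw [h3, X_zero, GG_cons]
      simp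
    · left
      refine ⟨z, m, some o, c, W' ++ [.l o], by simp, ?_, h5⟩
      rw [h3, X_some']
      simp
    · left
      refine ⟨z, m1, none, c, W' ++ [.a], by simp, ?_, h5⟩
      rw [h3, X_succ' hm]
      simp
  · exfalso
    have : w ∈ (Lt.mB :: GG z) ++ Lt.mC :: Lt.mD :: (z.map Lt.tok ++ [Lt.mA]) := by
      rw [← h2]; simp
    simp only [List.mem_append, List.mem_cons, List.mem_map, List.mem_singleton,
      List.not_mem_nil, or_false] at this
    rcases this with (rfl | h4) | rfl | rfl | ⟨i, -, rfl⟩ | rfl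
    · simp [zs] at hw
    · exact not_zs_of_wl (GG_wl _ _ h4) hw
    · simp [zs] at hw
    · simp [zs] at hw
    · simp [zs] at hw
    · simp [zs] at hw

theorem F1_steps {s W W1 : List (Lt D)} (hs : ∀ x ∈ s, wl x = true)
    (h : ReflTransGen (Step (RR r)) W W1) (h1 : F1 s W1) : F1 s W := by
  induction h using ReflTransGen.head_induction_on with
  | refl => exact h1
  | head h2 _ ih => exact F1_back hs h2 ih

theorem F2_steps {W W1 : List (Lt D)}
    (h : ReflTransGen (Step (RR r)) W W1) (h1 : F2 W1) : F2 W := by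
  induction h using ReflTransGen.head_induction_on with
  | refl => exact h1
  | head h2 _ ih => exact F2_back h2 ih

theorem rot {s x y : List (Lt D)} (hs : ∀ x ∈ s, wl x = true) (h1 : F1 s (x ++ y))
    (h2 : F2 (y ++ x)) : ∃ z : List D.I, leg D.c0 z D.c1 ∧ HH z ++ s = GG z := by
  have hmem : ∀ w, w ∈ x ++ y ↔ w ∈ y ++ x := by intro w; simp [or_comm]
  rcases h1 with ⟨z, m, f, W', h3, h4⟩ | ⟨z, h3⟩
  · exfalso
    have hB : (Lt.mB : Lt D) ∈ x ++ y := by
      rw [hmem]
      rcases h2 with ⟨_, _, _, _, _, h5, -⟩ | ⟨_, h5, -⟩ <;> rw [h5] <;> simp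
    rw [h3] at hB
    simp only [List.mem_append, List.mem_cons, List.mem_map, List.mem_singleton,
      List.not_mem_nil, or_false, reduceCtorEq, false_or, and_false, exists_false] at hB
    rw [h4] at hB
    simp only [List.mem_append] at hB
    rcases hB with (hx | hx) | hx
    · exact absurd (X_wl _ _ _ hx) (by simp [wl])
    · exact absurd (HH_wl _ _ hx) (by simp [wl])
    · exact absurd (hs _ hx) (by simp [wl])
  rcases h2 with ⟨z', m, f, c, W', h5, h6, -⟩ | ⟨z', h5, h6⟩
  · exfalso
    have hD : (Lt.mD : Lt D) ∈ y ++ x := by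
      rw [← hmem, h3]; simp
    rw [h5] at hD
    simp only [List.mem_append, List.mem_cons, List.mem_map, List.mem_singleton,
      List.not_mem_nil, or_false, reduceCtorEq, false_or, and_false, exists_false] at hD
    rw [h6] at hD
    simp only [List.mem_append] at hD
    rcases hD with hx | hx
    · exact absurd (GG_wl _ _ hx) (by simp [wl])
    · exact absurd (X_wl _ _ _ hx) (by simp [wl])
  refine ⟨z', h6, ?_⟩
  rcases y with _ | ⟨y1, y⟩
  · simp only [List.append_nil, List.nil_append] at h3 h5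
    rw [h3] at h5
    simp at h5
  have hy1 : y1 = .mB := by
    simp only [List.cons_append, List.cons.injEq] at h5
    exact h5.1
  subst hy1
  have h7 : x ++ Lt.mB :: y = (Lt.mD :: z.map Lt.tok ++ [.mA]) ++ Lt.mB :: (HH z ++ s ++ [.mC]) := by
    rw [h3]; simp
  obtain ⟨hx, -, hy⟩ := uniq (fun w => w = .mB) h7 rfl
    (by
      intro w hw
      simp only [List.mem_append, List.mem_cons, List.mem_map, List.not_mem_nil, or_false] at hw
      rcases hw with (rfl | ⟨i, -, rfl⟩) | rfl <;> simp)
    (by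
      intro w hw
      simp only [List.mem_append, List.mem_singleton] at hw
      rcases hw with (hw | hw) | rfl
      · rintro rfl; exact absurd (HH_wl _ _ hw) (by simp [wl])
      · rintro rfl; exact absurd (hs _ hw) (by simp [wl])
      · simp)
  have h8 : (Lt.mB :: (HH z ++ s)) ++ Lt.mC :: (Lt.mD :: z.map Lt.tok ++ [.mA]) =
      (.mB :: GG z') ++ .mC :: (.mD :: (z'.map .tok ++ [.mA])) := by
    rw [← h5, hx, hy]; simp
  obtain ⟨h9, -, h10⟩ := uniq (fun w => w = .mC) h8 rfl
    (by
      intro w hw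
      simp only [List.mem_cons] at hw
      rcases hw with rfl | hw
      · simp
      · rintro rfl; exact absurd (GG_wl _ _ hw) (by simp [wl]))
    (by
      intro w hw
      simp only [List.mem_append, List.mem_cons, List.mem_map, List.mem_singleton,
        List.not_mem_nil, or_false] at hw
      rcases hw with rfl | ⟨i, -, rfl⟩ | rfl <;> simp)
  simp only [List.cons.injEq, true_and] at h9
  simp only [List.cons_append, List.cons.injEq, true_and, List.append_cancel_right_eq] at h10
  have hinj : Function.Injective (Lt.tok : D.I → Lt D) := by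
    intro i j h; exact Lt.tok.inj h
  have hz : z = z' := List.map_injective_iff.2 hinj h10
  subst hz
  exact h9

end

end Pool.Agent.Q89.PC
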