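import Pool.Agent.Q89.PC3

/-!
# The two words
-/

namespace Pool.Agent.Q89.PC

open Relation

section
variable {D : Dat}

/-- the first word -/
def UU (D : Dat) (o0 : D.O) (N : ℕ) : List (Lt D) :=
  .mD :: .H 0 none :: (List.replicate N .a ++ [.l o0, .mC])

/-- the second word -/
def VV (D : Dat) : List (Lt D) := [.mB, .S none 0 D.c1, .mA]

theorem chain_aux (o0 : D.O) (N : ℕ) (x : Lt D) (h1 : r x .a = none) (h2 : r x (.l o0) = none) :
    List.IsChain (fun x y : Lt D => r x y = none) (x :: (List.replicate N .a ++ [.l o0, .mC])) := by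
  induction N generalizing x with
  | zero =>
    simp only [List.replicate_zero, List.nil_append, List.isChain_cons_cons, h2,
      List.isChain_singleton, and_true, true_and]
    rfl
  | succ N ih =>
    rw [List.replicate_succ, List.cons_append, List.isChain_cons_cons]
    exact ⟨h1, ih _ rfl rfl⟩

theorem chain_irr {u v : List (Lt D)} (h : List.IsChain (fun x y : Lt D => r x y = none) u) :
    ¬ Step (RR r) u v := by
  intro hs
  obtain ⟨p, q, x, y, w, hr, rfl, rfl⟩ := (step_iff r).1 hs
  have := List.isChain_iff_forall_rel_of_append_cons_cons.1 h rfl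
  rw [this] at hr
  exact absurd hr (by simp)

theorem irr_UU (o0 : D.O) (N : ℕ) (v : List (Lt D)) : ¬ Step (RR r) (UU D o0 N) v := by
  apply chain_irr
  unfold UU
  rw [List.isChain_cons_cons]
  refine ⟨rfl, chain_aux o0 N _ rfl ?_⟩
  simp [r]

theorem irr_VV (v : List (Lt D)) : ¬ Step (RR r) (VV D) v := by
  apply chain_irr
  unfold VV
  rw [List.isChain_cons_cons, List.isChain_cons_cons]
  exact ⟨rfl, rfl, List.isChain_singleton _⟩

theorem eq_of_steps {u v : List (Lt D)} (h : ReflTransGen (Step (RR r)) u v)
    (hi : ∀ w, ¬ Step (RR r) u w) : u = v := by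
  rcases ReflTransGen.cases_head h with h | ⟨w, h1, -⟩
  · exact h
  · exact absurd h1 (hi w)

theorem step2 {x y w : Lt D} (h : r x y = some w) (p q : List (Lt D)) :
    Step (RR r) (p ++ x :: y :: q) (p ++ w :: q) := (step_iff r).2 ⟨p, q, x, y, w, h, rfl, rfl⟩

theorem H_run (m : Fin (D.K + 1)) (f : Option D.O) (p t : List (Lt D)) :
    ReflTransGen (Step (RR r)) (p ++ .H m f :: (X m f ++ t)) (p ++ .H 0 none :: t) := by
  obtain ⟨k, hk⟩ : ∃ k : ℕ, (m : ℕ) = k := ⟨_, rfl⟩
  induction k generalizing m with
  | zero =>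
    have hm : m = 0 := Fin.ext hk
    subst hm
    rcases f with _ | o
    · rw [X_zero]; exact .refl
    · rw [X_some]
      exact .single (step2 (by simp [r]) p t)
  | succ k ih =>
    have hm2 := m.2
    rw [X_succ (m := dec m) (by simp only [dec]; omega)]
    refine ReflTransGen.head (step2 (w := .H (dec m) f) ?_ p _) (ih (dec m) ?_)
    · simp only [r]
      rw [if_neg (by omega)]
    · simp only [dec]; omega

theorem S_run0 (m : Fin (D.K + 1)) (c : D.C) (p t : List (Lt D)) :
    ReflTransGen (Step (RR r)) (p ++ (X m none ++ .S none m c :: t))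
      (p ++ .S none 0 c :: t) := by
  obtain ⟨k, hk⟩ : ∃ k : ℕ, (m : ℕ) = k := ⟨_, rfl⟩
  induction k generalizing m with
  | zero =>
    have hm : m = 0 := Fin.ext hk
    subst hm
    rw [X_zero]; exact .refl
  | succ k ih =>
    have hm2 := m.2
    rw [X_succ' (m := dec m) (by simp only [dec]; omega)]
    refine ReflTransGen.head (b := p ++ (X (dec m) none ++ .S none (dec m) c :: t)) ?_
      (ih (dec m) ?_)
    · have := step2 (x := .a) (y := .S none m c) (w := .S none (dec m) c)
        (by
          simp only [r]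
          rw [if_neg]
          rintro (h | h)
          · omega
          · exact h rfl) (p ++ X (dec m) none) t
      simpa using this
    · simp only [dec]; omega

theorem S_run (f : Option D.O) (m : Fin (D.K + 1)) (c : D.C) (p t : List (Lt D)) :
    ReflTransGen (Step (RR r)) (p ++ (X m f ++ .S f m c :: t)) (p ++ .S none 0 c :: t) := by
  rcases f with _ | o
  · exact S_run0 m c p t
  · rw [X_some']
    refine ReflTransGen.head (b := p ++ (X m none ++ .S none m c :: t)) ?_ (S_run0 m c p t)
    have := step2 (x := .l o) (y := .S (some o) m c) (w := .S none m c)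
      (by simp [r]) (p ++ X m none) t
    simpa using this

theorem H_all (z : List D.I) (p t : List (Lt D)) :
    ReflTransGen (Step (RR r)) (p ++ (z.map .tok ++ .H 0 none :: (HH z ++ t)))
      (p ++ .H 0 none :: t) := by
  induction z using List.reverseRecOn with
  | nil => exact .refl
  | append_singleton z i ih =>
    refine ReflTransGen.head (b := (p ++ z.map .tok) ++ .H (D.hc i) (D.hf i) ::
      (X (D.hc i) (D.hf i) ++ (HH z ++ t))) ?_ ?_
    · have := step2 (x := .tok i) (y := .H 0 none) (w := .H (D.hc i) (D.hf i))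
        (by simp [r]) (p ++ z.map .tok) (HH (z ++ [i]) ++ t)
      rw [HH_concat] at this ⊢
      simpa using this
    · refine (H_run _ _ _ _).trans ?_
      simpa using ih

theorem S_all (z : List D.I) (c c' : D.C) (h : leg c z c') (p t : List (Lt D)) :
    ReflTransGen (Step (RR r)) (p ++ (GG z ++ .S none 0 c :: (z.map .tok ++ t)))
      (p ++ .S none 0 c' :: t) := by
  induction z generalizing c with
  | nil =>
    obtain rfl : c = c' := h
    exact .refl
  | cons i z ih =>
    obtain ⟨c2, h1, h2⟩ := h
    refine ReflTransGen.head (b := (p ++ GG z) ++ (X (D.gc i) (D.gf i) ++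
      .S (D.gf i) (D.gc i) c2 :: (z.map .tok ++ t))) ?_ ?_
    · have := step2 (x := .S none 0 c) (y := .tok i) (w := .S (D.gf i) (D.gc i) c2)
        (by simp [r, h1]) (p ++ GG (i :: z)) (z.map .tok ++ t)
      rw [GG_cons] at this ⊢
      simpa using this
    · refine (S_run _ _ _ _ _).trans ?_
      simpa using ih c2 h2

/-- Conjugacy of the two words. -/
theorem pconj_UV (o0 : D.O) (N : ℕ) :
    PConj (word (RR r) (UU D o0 N)) (word (RR r) (VV D)) ↔
      ∃ z : List D.I, leg D.c0 z D.c1 ∧ HH z ++ (List.replicate N .a ++ [.l o0]) = GG z := by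
  have hs : ∀ x ∈ (List.replicate N .a ++ [.l o0] : List (Lt D)), wl x = true := by
    intro x hx
    simp only [List.mem_append, List.mem_singleton] at hx
    rcases hx with hx | rfl
    · rw [List.eq_of_mem_replicate hx]; rfl
    · rfl
  rw [pconj_iff (confluent_RR r hP)]
  constructor
  · rintro ⟨x, y, u, v, h1, h2, h3, h4⟩
    rw [← eq_of_steps h1 (irr_UU o0 N)] at h2
    rw [← eq_of_steps h3 irr_VV] at h4
    refine rot hs (F1_steps hs h2 ?_) (F2_steps h4 ?_)
    · left
      exact ⟨[], 0, none, List.replicate N .a ++ [.l o0], by simp [UU], by simp [X_zero, HH_nil]⟩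
    · left
      exact ⟨[], 0, none, D.c1, [], by simp [VV], by simp [X_zero, GG_nil], rfl⟩
  · rintro ⟨z, h1, h2⟩
    refine ⟨.mD :: (z.map .tok ++ [.mA]), .mB :: (GG z ++ [.mC]), UU D o0 N, VV D, .refl, ?_,
      .refl, ?_⟩
    · refine ReflTransGen.head (b := [.mD] ++ (z.map .tok ++ .H 0 none ::
        (HH z ++ (List.replicate N .a ++ [.l o0, .mC])))) ?_ (H_all z _ _)
      have := step2 (x := .mA) (y := .mB) (w := .H 0 none) rfl (.mD :: z.map .tok)
        (GG z ++ [.mC])
      rw [← h2] at this ⊢
      simpa using this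
    · refine ReflTransGen.head (b := [.mB] ++ (GG z ++ .S none 0 D.c0 ::
        (z.map .tok ++ [.mA]))) ?_ (S_all z _ _ h1 _ _)
      have := step2 (x := .mC) (y := .mD) (w := .S none 0 D.c0) rfl (.mB :: GG z)
        (z.map .tok ++ [.mA])
      simpa using this

end

end Pool.Agent.Q89.PC
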