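import Pool.Agent.Q89.PC4
import Pool.Agent.H109R3.CF.Src

/-!
# The machine
-/

namespace Pool.Agent.Q89.PC

open Relation
open Pool.Agent.H109R3.CF (Tr HaltsT)

section fin
variable (D : Dat)

instance : Finite (Lt D) := by
  have := D.fO
  have := D.fI
  have := D.fC
  refine Finite.of_injective (fun x : Lt D => match x with
    | .zero => (Sum.inl 0 : Fin 6 ⊕ D.O ⊕ D.I ⊕ (Fin (D.K + 1) × Option D.O) ⊕
        (Option D.O × Fin (D.K + 1) × D.C))
    | .mA => .inl 1
    | .mB => .inl 2
    | .mC => .inl 3
    | .mD => .inl 4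
    | .a => .inl 5
    | .l o => .inr (.inl o)
    | .tok i => .inr (.inr (.inl i))
    | .H m f => .inr (.inr (.inr (.inl (m, f))))
    | .S f m c => .inr (.inr (.inr (.inr (f, m, c))))) ?_
  intro x y h
  rcases x with _ | _ | _ | _ | _ | _ | o | i | ⟨m, f⟩ | ⟨f, m, c⟩ <;>
  rcases y with _ | _ | _ | _ | _ | _ | o' | i' | ⟨m', f'⟩ | ⟨f', m', c'⟩ <;>
  simp_all

end fin

/-- the special letters -/
def oset (T : List Tr) (p0 : ℕ) : List (Option ℕ) :=
  none :: some p0 :: (T.map (fun t => some t.1) ++ T.map fun t => t.2.2.2.2.2)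

/-- bounds -/
def Bd (T : List Tr) (K : ℕ) : Prop :=
  ∀ t ∈ T, t.2.1 ≤ K ∧ t.2.2.1 ≤ K ∧ t.2.2.2.1 ≤ K ∧ t.2.2.2.2.1 ≤ K

theorem exists_bd (T : List Tr) : ∃ K, Bd T K := by
  induction T with
  | nil => exact ⟨0, by intro t ht; simp at ht⟩
  | cons t T ih =>
    obtain ⟨K, hK⟩ := ih
    refine ⟨K + t.2.1 + t.2.2.1 + t.2.2.2.1 + t.2.2.2.2.1, ?_⟩
    intro u hu
    rcases List.mem_cons.1 hu with rfl | hu
    · refine ⟨?_, ?_, ?_, ?_⟩ <;> omega
    · obtain ⟨h1, h2, h3, h4⟩ := hK u hu
      refine ⟨?_, ?_, ?_, ?_⟩ <;> omega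

variable (T : List Tr) (p0 K : ℕ) (hK : Bd T K)

/-- transitions -/
abbrev TT : Type := {t : Tr // t ∈ T}

/-- special letters -/
abbrev OO : Type := {o : Option ℕ // o ∈ oset T p0}

/-- target -/
def lO (t : TT T) : OO T p0 := ⟨t.1.2.2.2.2.2, by
  unfold oset
  simp only [List.mem_cons, List.mem_append, List.mem_map]
  right; right; right
  exact ⟨t.1, t.2, rfl⟩⟩

/-- source -/
def lP (t : TT T) : OO T p0 := ⟨some t.1.1, by
  unfold oset
  simp only [List.mem_cons, List.mem_append, List.mem_map]
  right; right; left
  exact ⟨t.1, t.2, rfl⟩⟩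

/-- stop -/
def lN : OO T p0 := ⟨none, by simp [oset]⟩

/-- start -/
def l0 : OO T p0 := ⟨some p0, by simp [oset]⟩

open Classical in
/-- control -/
noncomputable def nxm (c : Option (Option (TT T))) (i : Option (TT T) × Bool) :
    Option (Option (Option (TT T))) :=
  match i with
    | (t, false) => some (some t)
    | (t, true) => if c = some t then some c else none

/-- the data of a machine -/
@[reducible] noncomputable def md : Dat where
  K := K + 1
  O := OO T p0
  I := Option (TT T) × Bool
  C := Option (Option (TT T))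
  fO := (List.finite_toSet (oset T p0)).to_subtype
  fI := by
    have : Finite (TT T) := (List.finite_toSet T).to_subtype
    infer_instance
  fC := by
    have : Finite (TT T) := (List.finite_toSet T).to_subtype
    infer_instance
  dO := inferInstance
  hf i := match i with
    | (some t, false) => some (lO T p0 t)
    | _ => none
  hc i := match i with
    | (some t, false) => ⟨t.1.2.2.2.2.1, by have := hK t.1 t.2; omega⟩
    | (some t, true) => ⟨t.1.2.2.2.1, by have := hK t.1 t.2; omega⟩
    | _ => 0
  gf i := match i with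
    | (some t, false) => some (lP T p0 t)
    | (none, false) => some (lN T p0)
    | _ => none
  gc i := match i with
    | (some t, false) => ⟨t.1.2.2.1, by have := hK t.1 t.2; omega⟩
    | (some t, true) => ⟨t.1.2.1, by have := hK t.1 t.2; omega⟩
    | (none, false) => 0
    | (none, true) => 1
  nx := nxm T
  c0 := none
  c1 := some none

section
variable {D : Dat}

/-- reversed blocks -/
def Xr (m : Fin (D.K + 1)) (f : Option D.O) : List (Lt D) :=
  (match f with | none => [] | some o => [.l o]) ++ List.replicate (m : ℕ) .a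

theorem X_reverse (m : Fin (D.K + 1)) (f : Option D.O) : (X m f).reverse = Xr m f := by
  rcases f with _ | o <;> simp [X, Xr]

/-- the `h`-word, reversed -/
def hw (z : List D.I) : List (Lt D) := z.flatMap fun i => Xr (D.hc i) (D.hf i)

/-- the `g`-word, reversed -/
def gw (z : List D.I) : List (Lt D) := z.flatMap fun i => Xr (D.gc i) (D.gf i)

theorem HH_reverse (z : List D.I) : (HH z).reverse = hw z := by
  induction z with
  | nil => rfl
  | cons i z ih => rw [HH_cons, List.reverse_append, ih, X_reverse]; simp [hw]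

theorem GG_reverse (z : List D.I) : (GG z).reverse = gw z := by
  induction z with
  | nil => rfl
  | cons i z ih => rw [GG_cons, List.reverse_append, ih, X_reverse]; simp [gw]

theorem hw_cons (i : D.I) (z : List D.I) : hw (i :: z) = Xr (D.hc i) (D.hf i) ++ hw z := by
  simp [hw]

theorem gw_cons (i : D.I) (z : List D.I) : gw (i :: z) = Xr (D.gc i) (D.gf i) ++ gw z := by
  simp [gw]

theorem eq_iff_rev (z : List D.I) (N : ℕ) (o0 : D.O) :
    HH z ++ (List.replicate N .a ++ [.l o0]) = GG z ↔
      .l o0 :: (List.replicate N .a ++ hw z) = gw z := by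
  rw [← List.reverse_inj, ← HH_reverse, ← GG_reverse]
  simp

theorem rep_split (y s : ℕ) (o : D.O) (u v : List (Lt D))
    (h : List.replicate y .a ++ .l o :: u = List.replicate s .a ++ v) :
    s ≤ y ∧ List.replicate (y - s) .a ++ .l o :: u = v := by
  induction s generalizing y with
  | zero => exact ⟨Nat.zero_le _, by simpa using h⟩
  | succ s ih =>
    rcases y with _ | y
    · simp [List.replicate_succ] at h
    · rw [List.replicate_succ, List.replicate_succ, List.cons_append, List.cons_append,
        List.cons.injEq] at h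
      obtain ⟨h1, h2⟩ := ih y h.2
      refine ⟨by omega, ?_⟩
      rw [Nat.add_sub_add_right]
      exact h2

theorem rep_zero (y : ℕ) (o o' : D.O) (u v : List (Lt D))
    (h : List.replicate y .a ++ .l o :: u = .l o' :: v) : y = 0 ∧ o = o' ∧ u = v := by
  rcases y with _ | y
  · simp only [List.replicate_zero, List.nil_append, List.cons.injEq, Lt.l.injEq] at h
    exact ⟨rfl, h⟩
  · simp [List.replicate_succ] at h

end

/-- coefficients -/
def sc : Option (Option (TT T)) → ℕ
  | some (some t) => t.1.2.1
  | _ => 0

/-- coefficients -/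
def rc : Option (Option (TT T)) → ℕ
  | some (some t) => t.1.2.2.2.1
  | _ => 0

theorem sound (z : List (Option (TT T) × Bool)) : ∀ (y x : ℕ) (o : OO T p0)
    (c : Option (Option (TT T))), c ≠ some none → leg (D := md T p0 K hK) c z (some none) →
    List.replicate y (Lt.a : Lt (md T p0 K hK)) ++ Lt.l (D := md T p0 K hK) o ::
      (List.replicate x .a ++ hw (D := md T p0 K hK) z) = gw (D := md T p0 K hK) z →
    ∃ t, y = sc T c * t ∧ HaltsT T o.1 (rc T c * t + x) := by
  induction z with
  | nil =>
    intro y x o c hc hl _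
    exact absurd hl hc
  | cons i z ih =>
    intro y x o c hc hl he
    obtain ⟨c2, h1, h2⟩ := hl
    rw [hw_cons, gw_cons] at he
    rcases i with ⟨_ | t, _ | _⟩
    · have he' : List.replicate y Lt.a ++ Lt.l (D := md T p0 K hK) o ::
          (List.replicate x .a ++ ([] ++ hw (D := md T p0 K hK) z)) =
          Lt.l (D := md T p0 K hK) (lN T p0) :: gw (D := md T p0 K hK) z := he
      obtain ⟨rfl, rfl, -⟩ := rep_zero _ _ _ _ _ he'
      exact ⟨0, by simp, HaltsT.stop _⟩
    · exfalso
      change nxm T c (none, true) = some c2 at h1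
      simp only [nxm] at h1
      rw [if_neg hc] at h1
      exact absurd h1 (by simp)
    · change nxm T c (some t, false) = some c2 at h1
      simp only [nxm, Option.some.injEq] at h1
      subst h1
      have he' : List.replicate y Lt.a ++ Lt.l (D := md T p0 K hK) o ::
          (List.replicate x .a ++ (Lt.l (D := md T p0 K hK) (lO T p0 t) ::
            (List.replicate t.1.2.2.2.2.1 .a ++ hw (D := md T p0 K hK) z))) =
          Lt.l (D := md T p0 K hK) (lP T p0 t) ::
            (List.replicate t.1.2.2.1 .a ++ gw (D := md T p0 K hK) z) := he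
      obtain ⟨rfl, rfl, h3⟩ := rep_zero _ _ _ _ _ he'
      obtain ⟨h4, h5⟩ := rep_split _ _ _ _ _ h3
      obtain ⟨k, h6, h7⟩ := ih _ _ _ (some (some t)) (by simp) h2 h5
      refine ⟨0, by simp, ?_⟩
      have h8 := HaltsT.step (T := T) t.1.1 t.1.2.1 t.1.2.2.1 t.1.2.2.2.1 t.1.2.2.2.2.1
        t.1.2.2.2.2.2 t.2 k h7
      have h9 : rc T c * 0 + x = t.1.2.1 * k + t.1.2.2.1 := by
        change x - t.1.2.2.1 = t.1.2.1 * k at h6
        omega
      rw [h9]
      exact h8
    · change nxm T c (some t, true) = some c2 at h1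
      simp only [nxm] at h1
      split at h1
      · rename_i hct
        simp only [Option.some.injEq] at h1
        subst h1
        subst hct
        have he' : List.replicate y Lt.a ++ Lt.l (D := md T p0 K hK) o ::
            (List.replicate x .a ++ (List.replicate t.1.2.2.2.1 .a ++
              hw (D := md T p0 K hK) z)) =
            List.replicate t.1.2.1 .a ++ gw (D := md T p0 K hK) z := he
        obtain ⟨h4, h5⟩ := rep_split _ _ _ _ _ he'
        rw [← List.append_assoc, List.replicate_append_replicate] at h5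
        obtain ⟨k, h6, h7⟩ := ih _ _ _ (some (some t)) (by simp) h2 h5
        refine ⟨k + 1, ?_, ?_⟩
        · change y - t.1.2.1 = t.1.2.1 * k at h6
          change y = t.1.2.1 * (k + 1)
          rw [mul_add]
          omega
        · change HaltsT T o.1 (t.1.2.2.2.1 * (k + 1) + x)
          change HaltsT T o.1 (t.1.2.2.2.1 * k + (x + t.1.2.2.2.1)) at h7
          have : t.1.2.2.2.1 * (k + 1) + x = t.1.2.2.2.1 * k + (x + t.1.2.2.2.1) := by ring
          rw [this]
          exact h7
      · exact absurd h1 (by simp)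

theorem hw_rep (t : TT T) (n : ℕ) (z : List (Option (TT T) × Bool)) :
    hw (D := md T p0 K hK) (List.replicate n (some t, true) ++ z) =
      List.replicate (t.1.2.2.2.1 * n) .a ++ hw (D := md T p0 K hK) z := by
  induction n with
  | zero => simp
  | succ n ih =>
    rw [List.replicate_succ, List.cons_append, hw_cons]
    have h1 : Xr ((md T p0 K hK).hc (some t, true)) ((md T p0 K hK).hf (some t, true)) =
      List.replicate t.1.2.2.2.1 .a := rfl
    refine (congrArg₂ (· ++ ·) h1 ih).trans ?_
    rw [← List.append_assoc, List.replicate_append_replicate]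
    congr 2
    ring

theorem gw_rep (t : TT T) (n : ℕ) (z : List (Option (TT T) × Bool)) :
    gw (D := md T p0 K hK) (List.replicate n (some t, true) ++ z) =
      List.replicate (t.1.2.1 * n) .a ++ gw (D := md T p0 K hK) z := by
  induction n with
  | zero => simp
  | succ n ih =>
    rw [List.replicate_succ, List.cons_append, gw_cons]
    have h1 : Xr ((md T p0 K hK).gc (some t, true)) ((md T p0 K hK).gf (some t, true)) =
      List.replicate t.1.2.1 .a := rfl
    refine (congrArg₂ (· ++ ·) h1 ih).trans ?_
    rw [← List.append_assoc, List.replicate_append_replicate]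
    congr 2
    ring

theorem leg_rep (t : Option (TT T)) (n : ℕ) (z : List (Option (TT T) × Bool))
    (h : leg (D := md T p0 K hK) (some t) z (some none)) :
    leg (D := md T p0 K hK) (some t) (List.replicate n (t, true) ++ z) (some none) := by
  induction n with
  | zero => exact h
  | succ n ih =>
    rw [List.replicate_succ, List.cons_append]
    refine ⟨some t, ?_, ih⟩
    change nxm T (some t) (t, true) = some (some t)
    simp [nxm]

theorem stop_word (x : ℕ) :
    hw (D := md T p0 K hK) (List.replicate x (none, true)) = [] ∧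
      gw (D := md T p0 K hK) (List.replicate x (none, true)) = List.replicate x .a := by
  induction x with
  | zero => exact ⟨rfl, rfl⟩
  | succ x ih =>
    rw [List.replicate_succ, hw_cons, gw_cons, ih.1, ih.2]
    exact ⟨rfl, rfl⟩

theorem complete {o : Option ℕ} {x : ℕ} (h : HaltsT T o x) : ∀ (ho : o ∈ oset T p0)
    (c : Option (Option (TT T))), ∃ z : List (Option (TT T) × Bool),
      leg (D := md T p0 K hK) c z (some none) ∧
      Lt.l (D := md T p0 K hK) (⟨o, ho⟩ : OO T p0) ::
        (List.replicate x .a ++ hw (D := md T p0 K hK) z) = gw (D := md T p0 K hK) z := by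
  induction h with
  | stop x =>
    intro ho c
    refine ⟨(none, false) :: List.replicate x (none, true), ⟨some none, rfl, ?_⟩, ?_⟩
    · have := leg_rep T p0 K hK none x [] rfl
      simpa using this
    · rw [hw_cons, gw_cons, (stop_word T p0 K hK x).1, (stop_word T p0 K hK x).2]
      change Lt.l (D := md T p0 K hK) _ :: (List.replicate x .a ++ ([] ++ [])) =
        Lt.l (D := md T p0 K hK) (lN T p0) :: (List.replicate x .a)
      simp only [List.append_nil]
      rfl
  | step p s s0 r1 r0 o hm t _ ih =>
    intro ho c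
    have ho' : o ∈ oset T p0 := (lO T p0 ⟨_, hm⟩).2
    obtain ⟨z, h1, h2⟩ := ih ho' (some (some ⟨_, hm⟩))
    refine ⟨(some ⟨_, hm⟩, false) :: (List.replicate t (some ⟨_, hm⟩, true) ++ z),
      ⟨some (some ⟨_, hm⟩), rfl, ?_⟩, ?_⟩
    · exact leg_rep T p0 K hK (some ⟨_, hm⟩) t z h1
    · rw [hw_cons, gw_cons, hw_rep, gw_rep]
      change Lt.l (D := md T p0 K hK) _ :: (List.replicate (s * t + s0) .a ++
          ((Lt.l (D := md T p0 K hK) (⟨o, ho'⟩ : OO T p0) :: List.replicate r0 .a) ++
            (List.replicate (r1 * t) .a ++ hw (D := md T p0 K hK) z))) =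
        (Lt.l (D := md T p0 K hK) _ :: List.replicate s0 .a) ++
          (List.replicate (s * t) .a ++ gw (D := md T p0 K hK) z)
      rw [← h2]
      simp only [List.cons_append, List.cons.injEq]
      refine ⟨rfl, ?_⟩
      rw [← List.append_assoc (List.replicate s0 Lt.a), List.replicate_append_replicate,
        ← List.append_assoc (List.replicate r0 Lt.a), List.replicate_append_replicate,
        add_comm (s * t) s0, add_comm r0 (r1 * t)]

theorem reduction (N : ℕ) : HaltsT T (some p0) N ↔
    PConj (word (RR r) (UU (md T p0 K hK) (l0 T p0) N)) (word (RR r) (VV (md T p0 K hK))) := by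
  rw [pconj_UV]
  constructor
  · intro h
    obtain ⟨z, h1, h2⟩ := complete T p0 K hK h (l0 T p0).2 none
    exact ⟨z, h1, (eq_iff_rev (D := md T p0 K hK) z N (l0 T p0)).2 h2⟩
  · rintro ⟨z, h1, h2⟩
    have h3 := (eq_iff_rev (D := md T p0 K hK) z N (l0 T p0)).1 h2
    obtain ⟨t, -, h4⟩ := sound T p0 K hK z 0 N (l0 T p0) none (by simp) h1 (by simpa using h3)
    have : rc T none * t + N = N := by simp [rc]
    rw [this] at h4
    exact h4

end Pool.Agent.Q89.PC
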