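import Pool.Agent.Q89.PC5

/-!
# Undecidability
-/

namespace Pool.Agent.Q89.PC

open Relation
open Pool.Agent.H109R3.CF (Tr HaltsT exists_tr)

section transport
variable {A B : Type} (r : A → A → Option A) (e : A ≃ B)

/-- transported operation -/
def tr (i j : B) : Option B := (r (e.symm i) (e.symm j)).map e

theorem tr_some {i j w : B} : tr r e i j = some w ↔ r (e.symm i) (e.symm j) = some (e.symm w) := by
  unfold tr
  rw [Option.map_eq_some_iff]
  constructor
  · rintro ⟨a, h, rfl⟩
    rw [h, e.symm_apply_apply]
  · intro h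
    exact ⟨_, h, e.apply_symm_apply w⟩

theorem tr_step {u v : List A} (h : Step (RR r) u v) :
    Step (RR (tr r e)) (u.map e) (v.map e) := by
  obtain ⟨p, q, x, y, w, h2, rfl, rfl⟩ := (step_iff r).1 h
  refine (step_iff _).2 ⟨p.map e, q.map e, e x, e y, e w, ?_, by simp, by simp⟩
  rw [tr_some]
  simpa using h2

theorem tr_step' {u v : List B} (h : Step (RR (tr r e)) u v) :
    Step (RR r) (u.map e.symm) (v.map e.symm) := by
  obtain ⟨p, q, x, y, w, h2, rfl, rfl⟩ := (step_iff _).1 h
  rw [tr_some] at h2
  exact (step_iff _).2 ⟨p.map e.symm, q.map e.symm, _, _, _, h2, by simp, by simp⟩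

theorem tr_steps {u v : List A} (h : ReflTransGen (Step (RR r)) u v) :
    ReflTransGen (Step (RR (tr r e))) (u.map e) (v.map e) := by
  induction h with
  | refl => exact .refl
  | tail _ h2 ih => exact ih.tail (tr_step r e h2)

theorem tr_steps' {u v : List B} (h : ReflTransGen (Step (RR (tr r e))) u v) :
    ReflTransGen (Step (RR r)) (u.map e.symm) (v.map e.symm) := by
  induction h with
  | refl => exact .refl
  | tail _ h2 ih => exact ih.tail (tr_step' r e h2)

theorem tr_P (hP : ∀ x y z w w', r x y = some w → r y z = some w' →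
      ∃ v, r w z = some v ∧ r x w' = some v) : ∀ x y z w w', tr r e x y = some w →
      tr r e y z = some w' → ∃ v, tr r e w z = some v ∧ tr r e x w' = some v := by
  intro x y z w w' h1 h2
  rw [tr_some] at h1 h2
  obtain ⟨v, h3, h4⟩ := hP _ _ _ _ _ h1 h2
  refine ⟨e v, ?_, ?_⟩
  · rw [tr_some, h3, e.symm_apply_apply]
  · rw [tr_some, h4, e.symm_apply_apply]

theorem tr_pconj (hP : ∀ x y z w w', r x y = some w → r y z = some w' →
      ∃ v, r w z = some v ∧ r x w' = some v) (u v : List A) :
    PConj (word (RR (tr r e)) (u.map e)) (word (RR (tr r e)) (v.map e)) ↔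
      PConj (word (RR r) u) (word (RR r) v) := by
  rw [pconj_iff (confluent_RR _ (tr_P r e hP)), pconj_iff (confluent_RR _ hP)]
  have hid : ∀ u : List A, (u.map e).map e.symm = u := by
    intro u; simp [List.map_map]
  constructor
  · rintro ⟨x, y, z, z', h1, h2, h3, h4⟩
    refine ⟨x.map e.symm, y.map e.symm, z.map e.symm, z'.map e.symm, ?_, ?_, ?_, ?_⟩
    · have := tr_steps' r e h1
      rwa [hid] at this
    · have := tr_steps' r e h2
      rwa [List.map_append] at this
    · have := tr_steps' r e h3
      rwa [hid] at this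
    · have := tr_steps' r e h4
      rwa [List.map_append] at this
  · rintro ⟨x, y, z, z', h1, h2, h3, h4⟩
    refine ⟨x.map e, y.map e, z.map e, z'.map e, tr_steps r e h1, ?_, tr_steps r e h3, ?_⟩
    · rw [← List.map_append]
      exact tr_steps r e h2
    · rw [← List.map_append]
      exact tr_steps r e h4

end transport

/-- The `p`-conjugacy problem of some finite monadic confluent system is undecidable. -/
theorem undecidable : ∃ (k : ℕ) (R : Set (List (Fin k) × List (Fin k))),
    R.Finite ∧ Monadic R ∧ Confluent R ∧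
    ¬ ComputablePred (fun p : List (Fin k) × List (Fin k) => PConj (word R p.1) (word R p.2)) := by
  obtain ⟨T, p0, N, hN, h⟩ := exists_tr
  obtain ⟨K, hK⟩ := exists_bd T
  have := Fintype.ofFinite (Lt (md T p0 K hK))
  let e : Lt (md T p0 K hK) ≃ Fin (Fintype.card (Lt (md T p0 K hK))) := Fintype.equivFin _
  refine ⟨_, RR (tr r e), finite_RR _, monadic_RR _, confluent_RR _ (tr_P r e hP), ?_⟩
  intro hc
  apply h
  have hcomp : Computable (fun n => (((UU (md T p0 K hK) (l0 T p0) (N n)).map e,
      (VV (md T p0 K hK)).map e) : List (Fin _) × List (Fin _))) := by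
    refine Computable.pair ?_ (Computable.const _)
    have h1 : Primrec (fun n : ℕ => (UU (md T p0 K hK) (l0 T p0) n).map e) := by
      have h2 : Primrec (fun n : ℕ => [e .mD, e (.H 0 none)] ++
          ((List.range n).map (fun _ => e .a) ++ [e (.l (l0 T p0)), e .mC])) := by
        refine Primrec.list_append.comp (Primrec.const _) (Primrec.list_append.comp ?_
          (Primrec.const _))
        exact Primrec.list_map Primrec.list_range (Primrec.const _).to₂
      refine h2.of_eq fun n => ?_
      simp [UU]
    exact h1.to_comp.comp hN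
  have h1 : ManyOneReducible (fun n => HaltsT T (some p0) (N n))
      (fun p : List (Fin _) × List (Fin _) =>
        PConj (word (RR (tr r e)) p.1) (word (RR (tr r e)) p.2)) := by
    refine ⟨_, hcomp, fun n => ?_⟩
    exact (reduction T p0 K hK (N n)).trans (tr_pconj r e hP _ _).symm
  exact ComputablePred.computable_of_manyOneReducible h1 hc

end Pool.Agent.Q89.PC
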