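import Mathlib

set_option autoImplicit false

/-!
# An averaging argument for groups with a self-similar abelianization

Abstract form of the argument: a twisted transfer cocycle `rho : Γ → B` satisfies the recursion
`rho g = ∏ th (g i) (rho (g_i))` up to a coboundary, which can be removed; iteration then shows that a
fixed power of the canonical homomorphism `S → B` vanishes modulo every term of the filtration `K`.
-/

namespace Pool.Agent.Q89.TA

open Finset

variable {Γ : Type} [Group Γ] {X : Type} [Fintype X] {B : Type} [CommGroup B]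

/-- the data -/
structure Data (Γ : Type) [Group Γ] (X : Type) [Fintype X] (B : Type) [CommGroup B] where
  mv : Γ → X → X
  sc : Γ → X → Γ
  mv_mul : ∀ g h i, mv (g * h) i = mv g (mv h i)
  mv_one : ∀ i, mv 1 i = i
  sc_mul : ∀ g h i, sc (g * h) i = sc g (mv h i) * sc h i
  S : Subgroup Γ
  E : Subgroup Γ
  hSn : S.Normal
  hEn : E.Normal
  hSf : Finite (Γ ⧸ S)
  hEf : Finite (Γ ⧸ E)
  hES : E ≤ S
  be : S →* B
  act : Γ → (B →* B)
  th : X → (B →* B)
  act_mul : ∀ g h x, act (g * h) x = act g (act h x)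
  act_S : ∀ s ∈ S, ∀ x, act s x = x
  act_be : ∀ (g : Γ) (s : S) (h : g * s * g⁻¹ ∈ S), act g (be s) = be ⟨g * s * g⁻¹, h⟩
  act_th : ∀ g i x, act g (th i x) = th (mv g i) (act (sc g i) x)
  E_mv : ∀ e ∈ E, ∀ i, mv e i = i
  E_sc : ∀ e ∈ E, ∀ i, sc e i ∈ S
  E_be : ∀ (e : Γ) (he : e ∈ E), be ⟨e, hES he⟩ = ∏ i, th i (be ⟨sc e i, E_sc e he i⟩)
  K : ℕ → Subgroup B
  K_zero : K 0 = ⊤
  K_succ : ∀ n, K (n + 1) ≤ K n
  K_th : ∀ n i x, x ∈ K n → th i x ∈ K (n + 1)
  K_act : ∀ n g x, x ∈ K n → act g x ∈ K n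

namespace Data

variable (D : Data Γ X B)

attribute [instance] Data.hSn Data.hEn Data.hSf Data.hEf

theorem K_anti {m n : ℕ} (h : m ≤ n) : D.K n ≤ D.K m := by
  induction h with
  | refl => exact le_refl _
  | step _ ih => exact (D.K_succ _).trans ih

/-- the permutation of `X` induced by `g` -/
def perm (g : Γ) : Equiv.Perm X where
  toFun := D.mv g
  invFun := D.mv g⁻¹
  left_inv i := by rw [← D.mv_mul, inv_mul_cancel, D.mv_one]
  right_inv i := by rw [← D.mv_mul, mul_inv_cancel, D.mv_one]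

/-- coset representatives -/
noncomputable def t (H : Subgroup Γ) (q : Γ ⧸ H) : Γ := q.out

theorem t_mk (H : Subgroup Γ) (q : Γ ⧸ H) : (QuotientGroup.mk (t H q) : Γ ⧸ H) = q :=
  Quotient.out_eq' q

theorem sig_mem (H : Subgroup Γ) (g : Γ) (q : Γ ⧸ H) : (t H (g • q))⁻¹ * (g * t H q) ∈ H := by
  rw [← QuotientGroup.eq, t_mk]
  conv_lhs => rw [← t_mk H q]
  rfl

/-- the element `t(gq)⁻¹ g t(q)` of `S` -/
noncomputable def sg (g : Γ) (q : Γ ⧸ D.S) : D.S := ⟨(t D.S (g • q))⁻¹ * (g * t D.S q), sig_mem _ g q⟩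

/-- the local term -/
noncomputable def F (g : Γ) (q : Γ ⧸ D.S) : B := D.act (t D.S (g • q)) (D.be (D.sg g q))

theorem F_mul (g h : Γ) (q : Γ ⧸ D.S) : D.F (g * h) q = D.F g (h • q) * D.act g (D.F h q) := by
  have h1 : D.sg (g * h) q = D.sg g (h • q) * D.sg h q := by
    apply Subtype.ext
    simp only [sg, Subgroup.coe_mul, mul_smul]
    group
  have h2 : D.act g (D.F h q) = D.act (t D.S ((g * h) • q)) (D.be (D.sg h q)) := by
    unfold F
    rw [← D.act_mul]
    have h3 : g * t D.S (h • q) = t D.S ((g * h) • q) * (D.sg g (h • q) : Γ) := by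
      simp only [sg, mul_smul]
      group
    rw [h3, D.act_mul, D.act_S _ (D.sg g (h • q)).2]
  rw [h2]
  unfold F
  rw [h1, map_mul, map_mul, mul_smul]

/-- the cocycle -/
noncomputable def rho (g : Γ) : B := ∏ᶠ q, D.F g q

theorem rho_eq [Fintype (Γ ⧸ D.S)] (g : Γ) : D.rho g = ∏ q, D.F g q :=
  finprod_eq_prod_of_fintype _

theorem rho_mul (g h : Γ) : D.rho (g * h) = D.rho g * D.act g (D.rho h) := by
  classical
  let _ := Fintype.ofFinite (Γ ⧸ D.S)
  rw [rho_eq, rho_eq, rho_eq]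
  simp only [F_mul, prod_mul_distrib, map_prod]
  congr 1
  exact Equiv.prod_comp (MulAction.toPerm h) (fun q => D.F g q)

theorem rho_S (s : D.S) : D.rho s = D.be s ^ (Nat.card (Γ ⧸ D.S)) := by
  classical
  let _ := Fintype.ofFinite (Γ ⧸ D.S)
  rw [rho_eq]
  have hF : ∀ q, D.F s q = D.be s := by
    intro q
    have hq : (s : Γ) • q = q := by
      rw [← t_mk D.S q]
      change (QuotientGroup.mk ((s : Γ) * t D.S q) : Γ ⧸ D.S) = _
      rw [QuotientGroup.eq]
      have := D.hSn.conj_mem _ (D.S.inv_mem s.2) (t D.S q)⁻¹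
      simpa [mul_assoc] using this
    unfold F
    have h1 : t D.S q * (D.sg (s : Γ) q : Γ) * (t D.S q)⁻¹ = s := by
      simp only [sg, hq]
      group
    rw [hq, D.act_be _ _ (by rw [h1]; exact s.2)]
    congr 1
    exact Subtype.ext h1
  simp only [hF, prod_const]
  rw [Finset.card_univ, Nat.card_eq_fintype_card]

/-- the operation `f ↦ (g ↦ ∏ th (g i) (f (g_i)))` -/
noncomputable def pr (f : Γ → B) (g : Γ) : B := ∏ i, D.th (D.mv g i) (f (D.sc g i))

/-- cocycles -/
def Coc (f : Γ → B) : Prop := ∀ g h, f (g * h) = f g * D.act g (f h)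

theorem coc_pr {f : Γ → B} (hf : D.Coc f) : D.Coc (D.pr f) := by
  intro g h
  unfold pr
  simp only [D.sc_mul, D.mv_mul, hf _ _, map_mul, prod_mul_distrib, map_prod, D.act_th]
  congr 1
  exact Equiv.prod_comp (D.perm h) (fun i => D.th (D.mv g i) (f (D.sc g i)))

theorem pr_E {e : Γ} (he : e ∈ D.E) : D.pr D.rho e = D.rho e := by
  unfold pr
  have h1 : D.rho e = D.be ⟨e, D.hES he⟩ ^ (Nat.card (Γ ⧸ D.S)) := D.rho_S ⟨e, D.hES he⟩
  rw [h1, D.E_be e he, ← prod_pow]
  apply prod_congr rfl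
  intro i _
  rw [D.E_mv e he, D.rho_S ⟨D.sc e i, D.E_sc e he i⟩, map_pow]

/-- the defect -/
noncomputable def de (g : Γ) : B := D.pr D.rho g / D.rho g

theorem de_mul (g h : Γ) : D.de (g * h) = D.de g * D.act g (D.de h) := by
  unfold de
  rw [D.coc_pr D.rho_mul, D.rho_mul, map_div]
  rw [mul_div_mul_comm]

theorem de_E {e : Γ} (he : e ∈ D.E) (g : Γ) : D.de (g * e) = D.de g := by
  rw [de_mul]
  have : D.de e = 1 := by unfold de; rw [D.pr_E he, div_self']
  rw [this, map_one, mul_one]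

/-- the order of `Γ ⧸ E` -/
noncomputable def M : ℕ := Nat.card (Γ ⧸ D.E)

theorem exists_w : ∃ w : B, ∀ g, D.de g ^ D.M = w / D.act g w := by
  classical
  have := Fintype.ofFinite (Γ ⧸ D.E)
  refine ⟨∏ q, D.de (t D.E q), ?_⟩
  intro g
  have h1 : ∀ q : Γ ⧸ D.E, D.de (t D.E (g • q)) = D.de g * D.act g (D.de (t D.E q)) := by
    intro q
    rw [← de_mul]
    have : g * t D.E q = t D.E (g • q) * ((t D.E (g • q))⁻¹ * (g * t D.E q)) := by group
    rw [this, D.de_E (sig_mem D.E g q)]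
  have h2 : ∏ q : Γ ⧸ D.E, D.de (t D.E (g • q)) = ∏ q, D.de (t D.E q) :=
    Equiv.prod_comp (MulAction.toPerm g) (fun q => D.de (t D.E q))
  simp only [h1, prod_mul_distrib, prod_const, Finset.card_univ] at h2
  rw [← map_prod] at h2
  rw [M, Nat.card_eq_fintype_card, eq_div_iff_mul_eq']
  exact h2

/-- the operator `T x = ∏ th i x` -/
noncomputable def T : B →* B where
  toFun x := ∏ i, D.th i x
  map_one' := by simp
  map_mul' x y := by simp [prod_mul_distrib]

theorem act_T (g : Γ) (x : B) : D.act g (D.T x) = ∏ i, D.th (D.mv g i) (D.act (D.sc g i) x) := by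
  change D.act g (∏ i, D.th i x) = _
  rw [map_prod]
  exact prod_congr rfl fun i _ => D.act_th g i x

theorem T_perm (g : Γ) (x : B) : ∏ i, D.th (D.mv g i) x = D.T x :=
  Equiv.prod_comp (D.perm g) (fun i => D.th i x)

theorem K_T {n : ℕ} {x : B} (hx : x ∈ D.K n) : D.T x ∈ D.K (n + 1) :=
  Subgroup.prod_mem _ fun i _ => D.K_th n i x hx

/-- the modified cocycle -/
noncomputable def phi (u : B) (g : Γ) : B := D.rho g ^ D.M * (D.act g u / u)

theorem pr_phi (w : B) (hw : ∀ g, D.de g ^ D.M = w / D.act g w) (u : B) (g : Γ) :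
    D.pr (D.phi u) g = D.phi u g * ((w * u / D.T u) / D.act g (w * u / D.T u)) := by
  have h1 : D.pr (D.phi u) g = (D.pr D.rho g) ^ D.M * (D.act g (D.T u) / D.T u) := by
    unfold pr phi
    rw [act_T, ← T_perm D g u, ← prod_pow, ← prod_div_distrib, ← prod_mul_distrib]
    exact prod_congr rfl fun i _ => by rw [map_mul, map_div, map_pow]
  have h2 : (D.pr D.rho g) ^ D.M = D.rho g ^ D.M * (w / D.act g w) := by
    rw [← hw g, de, div_pow, mul_div_cancel]
  rw [h1, h2, phi]
  simp only [map_mul, map_div]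
  generalize D.rho g ^ D.M = a
  generalize D.act g w = b
  generalize D.act g u = c
  generalize D.act g (D.T u) = e
  generalize D.T u = f
  rw [div_eq_mul_inv, div_eq_mul_inv, div_eq_mul_inv, div_eq_mul_inv, div_eq_mul_inv, div_eq_mul_inv]
  simp only [mul_inv, inv_inv]
  have : a * (w * b⁻¹) * (e * f⁻¹) = a * (w * b⁻¹) * (e * f⁻¹) * ((c * c⁻¹) * (u * u⁻¹)) := by simp
  rw [this]
  simp only [mul_comm, mul_left_comm, mul_assoc]

/-- the correcting element -/
noncomputable def uu (w : B) (n : ℕ) : B := (∏ k ∈ range n, (D.T^[k]) w)⁻¹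

theorem uu_eq (w : B) (n : ℕ) : w * D.uu w n / D.T (D.uu w n) = (D.T^[n]) w := by
  induction n with
  | zero => simp [uu]
  | succ n ih =>
    have h1 : D.uu w (n + 1) = D.uu w n * ((D.T^[n]) w)⁻¹ := by
      unfold uu
      rw [prod_range_succ, mul_inv]
    have h2 : D.T ((D.T^[n]) w) = (D.T^[n + 1]) w := (Function.iterate_succ_apply' _ _ _).symm
    rw [h1, map_mul, map_inv, h2]
    have h3 : w * (D.uu w n * ((D.T^[n]) w)⁻¹) / (D.T (D.uu w n) * ((D.T^[n + 1]) w)⁻¹) =
        (w * D.uu w n / D.T (D.uu w n)) * ((D.T^[n]) w)⁻¹ * (D.T^[n + 1]) w := by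
      simp only [div_eq_mul_inv, mul_inv, inv_inv, mul_comm, mul_left_comm, mul_assoc]
    rw [h3, ih, mul_inv_cancel, one_mul]

theorem K_iter (w : B) (n : ℕ) : (D.T^[n]) w ∈ D.K n := by
  induction n with
  | zero => rw [D.K_zero]; trivial
  | succ n ih => rw [Function.iterate_succ_apply']; exact D.K_T ih

/-- **Main theorem of the abstract part.** -/
theorem main (s : D.S) (n : ℕ) : D.be s ^ (Nat.card (Γ ⧸ D.S) * D.M) ∈ D.K n := by
  obtain ⟨w, hw⟩ := D.exists_w
  have h1 : ∀ j ≤ n, ∀ g, D.phi (D.uu w n) g ∈ D.K j := by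
    intro j
    induction j with
    | zero => intro _ g; rw [D.K_zero]; trivial
    | succ j ih =>
      intro hj g
      have h2 := D.pr_phi w hw (D.uu w n) g
      rw [D.uu_eq] at h2
      have h3 : D.phi (D.uu w n) g =
          D.pr (D.phi (D.uu w n)) g * (D.act g ((D.T^[n]) w) / (D.T^[n]) w) := by
        rw [h2, mul_assoc, div_mul_div_cancel, div_self', mul_one]
      rw [h3]
      have h4 : (D.T^[n]) w ∈ D.K (j + 1) := D.K_anti hj (D.K_iter w n)
      refine Subgroup.mul_mem _ ?_ (Subgroup.div_mem _ (D.K_act _ g _ h4) h4)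
      exact Subgroup.prod_mem _ fun i _ => D.K_th j _ _ (ih (by omega) _)
  have h2 := h1 n le_rfl s
  have h3 : D.phi (D.uu w n) s = D.be s ^ (Nat.card (Γ ⧸ D.S) * D.M) := by
    unfold phi
    rw [D.act_S _ s.2, div_self', mul_one, D.rho_S, pow_mul]
  rwa [h3] at h2

end Data

end Pool.Agent.Q89.TA
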