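import Pool.Agent.Q89.TA1

set_option autoImplicit false

/-!
# Groups of finite type acting on the `d`-regular rooted tree

Vertices are words over `Fin d`.  We define tree automorphisms, sections, the groups `G_P`, level
stabilizers, and verify the axioms of `Pool.Agent.Q89.TA.Data`.
-/

namespace Pool.Agent.Q89.TA

open Finset

theorem pai {α : Type} (a : Equiv.Perm α) (x : α) : a (a⁻¹ x) = x := a.apply_symm_apply x

theorem pia {α : Type} (a : Equiv.Perm α) (x : α) : a⁻¹ (a x) = x := a.symm_apply_apply x

/-- Words over `Fin d`: the vertices of the `d`-regular rooted tree. -/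
abbrev W (d : ℕ) : Type := List (Fin d)

/-- The automorphism group of the `d`-regular rooted tree: the permutations of the set of words which
preserve the length and the prefix relation. -/
def TreeAut (d : ℕ) : Subgroup (Equiv.Perm (W d)) where
  carrier := {g | (∀ v, (g v).length = v.length) ∧ ∀ v w, v <+: w ↔ g v <+: g w}
  one_mem' := ⟨fun _ => rfl, fun _ _ => Iff.rfl⟩
  mul_mem' := fun {a b} ha hb =>
    ⟨fun v => (ha.1 (b v)).trans (hb.1 v), fun v w => (hb.2 v w).trans (ha.2 (b v) (b w))⟩
  inv_mem' := fun {a} ha =>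
    ⟨fun v => by
      have := ha.1 (a⁻¹ v)
      rw [pai] at this
      exact this.symm,
     fun v w => by
      have := ha.2 (a⁻¹ v) (a⁻¹ w)
      rw [pai, pai] at this
      exact this.symm⟩

/-- The section `g_v` of `g` at the vertex `v`, as a map on words: `g (v w) = g(v) g_v(w)`. -/
def sec {d : ℕ} (g : Equiv.Perm (W d)) (v w : W d) : W d := (g (v ++ w)).drop v.length

/-- The vertices of the finite subtree `T^[D]`: words of length at most `D`. -/
abbrev Ball (d D : ℕ) : Type := {w : W d // w.length ≤ D}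

variable {d : ℕ}

theorem app {g : Equiv.Perm (W d)} (hg : g ∈ TreeAut d) (v w : W d) : g (v ++ w) = g v ++ sec g v w := by
  obtain ⟨t, ht⟩ := (hg.2 v (v ++ w)).1 (List.prefix_append v w)
  unfold sec
  rw [← ht, ← hg.1 v, List.drop_left]

theorem sec_len {g : Equiv.Perm (W d)} (hg : g ∈ TreeAut d) (v w : W d) :
    (sec g v w).length = w.length := by
  unfold sec
  rw [List.length_drop, hg.1, List.length_append]
  omega

/-- The group `G_P` of tree automorphisms all of whose sections act on `T^[D]` as an element of `P`. -/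
def GP {D : ℕ} (P : Subgroup (Equiv.Perm (Ball d D))) : Subgroup (Equiv.Perm (W d)) where
  carrier := {g | g ∈ TreeAut d ∧ ∀ v : W d, ∃ p ∈ P, ∀ w : Ball d D, (p w : W d) = sec g v w}
  one_mem' := ⟨one_mem _, fun v => ⟨1, one_mem _, fun w => by simp [sec]⟩⟩
  mul_mem' := fun {a b} ha hb => ⟨mul_mem ha.1 hb.1, fun v => by
    obtain ⟨p, hp, hp'⟩ := hb.2 v
    obtain ⟨q, hq, hq'⟩ := ha.2 (b v)
    refine ⟨q * p, mul_mem hq hp, fun w => ?_⟩
    rw [Equiv.Perm.mul_apply, hq', hp']
    unfold sec
    rw [Equiv.Perm.mul_apply]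
    rw [show List.drop v.length (b (v ++ w)) = sec b v w from rfl, ← app hb.1, hb.1.1]⟩
  inv_mem' := fun {a} ha => ⟨inv_mem ha.1, fun v => by
    obtain ⟨p, hp, hp'⟩ := ha.2 (a⁻¹ v)
    refine ⟨p⁻¹, inv_mem hp, fun w => ?_⟩
    have hi : a⁻¹ ∈ TreeAut d := inv_mem ha.1
    have h1 : (sec a⁻¹ v w).length ≤ D := by rw [sec_len hi]; exact w.2
    have h2 : p ⟨sec a⁻¹ v w, h1⟩ = w := by
      apply Subtype.ext
      rw [hp']
      change sec a (a⁻¹ v) (sec a⁻¹ v w) = w
      unfold sec
      rw [show List.drop v.length (a⁻¹ (v ++ w)) = sec a⁻¹ v w from rfl, ← app hi,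
        pai, hi.1, List.drop_left]
    have h3 : p⁻¹ w = ⟨sec a⁻¹ v w, h1⟩ := by
      have h4 := congrArg (fun x => p⁻¹ x) h2
      simpa only [pia] using h4.symm
    rw [h3]⟩

/-- The permutations fixing every vertex of level `n`. -/
def levelStab (d n : ℕ) : Subgroup (Equiv.Perm (W d)) where
  carrier := {g | ∀ w : W d, w.length = n → g w = w}
  one_mem' := fun _ _ => rfl
  mul_mem' := fun {a b} ha hb w hw => by
    rw [Equiv.Perm.mul_apply, hb w hw, ha w hw]
  inv_mem' := fun {a} ha w hw => by
    rw [Equiv.Perm.inv_eq_iff_eq, ha w hw]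

theorem stab_le (hd : 0 < d) {g : Equiv.Perm (W d)} (hg : g ∈ TreeAut d) {n : ℕ}
    (h : g ∈ levelStab d n) (w : W d) (hw : w.length ≤ n) : g w = w := by
  have h1 : g (w ++ List.replicate (n - w.length) (⟨0, hd⟩ : Fin d)) =
      w ++ List.replicate (n - w.length) (⟨0, hd⟩ : Fin d) := h _ (by simp; omega)
  rw [app hg] at h1
  exact (List.append_inj h1 (hg.1 w)).1

/-- the image of a letter -/
def mv (g : Equiv.Perm (W d)) (i : Fin d) : Fin d := (g [i]).head?.getD i

theorem mv_eq {g : Equiv.Perm (W d)} (hg : g ∈ TreeAut d) (i : Fin d) : g [i] = [mv g i] := by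
  have h := hg.1 [i]
  unfold mv
  match hh : g [i], h with
  | [j], _ => simp

theorem nil_eq {g : Equiv.Perm (W d)} (hg : g ∈ TreeAut d) : g [] = [] :=
  List.length_eq_zero_iff.1 (hg.1 [])

theorem cons_eq {g : Equiv.Perm (W d)} (hg : g ∈ TreeAut d) (i : Fin d) (w : W d) :
    g (i :: w) = mv g i :: sec g [i] w := by
  have := app hg [i] w
  rw [mv_eq hg] at this
  simpa using this

theorem mv_mul {g h : Equiv.Perm (W d)} (hg : g ∈ TreeAut d) (hh : h ∈ TreeAut d) (i : Fin d) :
    mv (g * h) i = mv g (mv h i) := by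
  have h1 := mv_eq (mul_mem hg hh) i
  rw [Equiv.Perm.mul_apply, mv_eq hh, mv_eq hg] at h1
  simpa using h1.symm

theorem mv_one (i : Fin d) : mv (1 : Equiv.Perm (W d)) i = i := rfl

theorem sec_mul {g h : Equiv.Perm (W d)} (hh : h ∈ TreeAut d) (v w : W d) :
    sec (g * h) v w = sec g (h v) (sec h v w) := by
  unfold sec
  rw [Equiv.Perm.mul_apply]
  rw [show List.drop v.length (h (v ++ w)) = sec h v w from rfl, ← app hh, hh.1]

theorem sec_app {g : Equiv.Perm (W d)} (u v w : W d) : sec g (u ++ v) w = (sec g u (v ++ w)).drop v.length := by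
  unfold sec
  rw [List.drop_drop, List.append_assoc, List.length_append]

/-- the section of `g` at the letter `i`, as a permutation -/
def scP (g : Equiv.Perm (W d)) (hg : g ∈ TreeAut d) (i : Fin d) : Equiv.Perm (W d) where
  toFun := sec g [i]
  invFun := sec g⁻¹ (g [i])
  left_inv w := by
    rw [← sec_mul hg, inv_mul_cancel]; simp [sec]
  right_inv w := by
    have h := sec_mul (g := g) (inv_mem hg : g⁻¹ ∈ TreeAut d) (g [i]) w
    rw [pia] at h
    rw [← h, mul_inv_cancel]; simp [sec]

theorem scP_apply (g : Equiv.Perm (W d)) (hg : g ∈ TreeAut d) (i : Fin d) (w : W d) :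
    scP g hg i w = sec g [i] w := rfl

theorem scP_mem (g : Equiv.Perm (W d)) (hg : g ∈ TreeAut d) (i : Fin d) : scP g hg i ∈ TreeAut d := by
  refine ⟨fun v => sec_len hg _ _, fun v w => ?_⟩
  have h := hg.2 (i :: v) (i :: w)
  rw [cons_eq hg, cons_eq hg, List.cons_prefix_cons, List.cons_prefix_cons] at h
  simpa [scP_apply] using h

theorem scP_GP {D : ℕ} {P : Subgroup (Equiv.Perm (Ball d D))} (g : Equiv.Perm (W d)) (hg : g ∈ GP P)
    (i : Fin d) : scP g hg.1 i ∈ GP P := by
  refine ⟨scP_mem _ _ _, fun v => ?_⟩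
  obtain ⟨p, hp, hp'⟩ := hg.2 (i :: v)
  refine ⟨p, hp, fun w => ?_⟩
  rw [hp']
  have := sec_app (g := g) [i] v w
  exact this

/-- the automorphism acting as `s` on the subtree below the letter `i` and trivially elsewhere -/
def plant (i : Fin d) (s : Equiv.Perm (W d)) : Equiv.Perm (W d) where
  toFun
    | [] => []
    | j :: w => j :: (if j = i then s w else w)
  invFun
    | [] => []
    | j :: w => j :: (if j = i then s⁻¹ w else w)
  left_inv
    | [] => rfl
    | j :: w => by by_cases h : j = i <;> simp [h]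
  right_inv
    | [] => rfl
    | j :: w => by by_cases h : j = i <;> simp [h]

theorem plant_nil (i : Fin d) (s : Equiv.Perm (W d)) : plant i s [] = [] := rfl

theorem plant_cons (i : Fin d) (s : Equiv.Perm (W d)) (j : Fin d) (w : W d) :
    plant i s (j :: w) = j :: (if j = i then s w else w) := rfl

theorem plant_mul (i : Fin d) (s t : Equiv.Perm (W d)) : plant i (s * t) = plant i s * plant i t := by
  ext1 w
  cases w with
  | nil => rfl
  | cons j w => by_cases h : j = i <;> simp [plant_cons, h]

theorem plant_one (i : Fin d) : plant i (1 : Equiv.Perm (W d)) = 1 := by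
  ext1 w
  cases w with
  | nil => rfl
  | cons j w => by_cases h : j = i <;> simp [plant_cons, h]

theorem plant_mem (i : Fin d) {s : Equiv.Perm (W d)} (hs : s ∈ TreeAut d) : plant i s ∈ TreeAut d := by
  refine ⟨fun v => ?_, fun v w => ?_⟩
  · cases v with
    | nil => rfl
    | cons j v => by_cases h : j = i <;> simp [plant_cons, h, hs.1]
  · cases v with
    | nil => simp [plant_nil]
    | cons j v =>
      cases w with
      | nil => simp [plant_nil, plant_cons]
      | cons k w =>
        rw [plant_cons, plant_cons, List.cons_prefix_cons, List.cons_prefix_cons]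
        refine and_congr_right fun h => ?_
        subst h
        by_cases h : j = i
        · simp only [h, if_true]; exact hs.2 v w
        · simp only [h, if_false]

theorem plant_GP {D' : ℕ} (hd : 0 < d) {P : Subgroup (Equiv.Perm (Ball d (D' + 1)))} (i : Fin d)
    {s : Equiv.Perm (W d)} (hs : s ∈ GP P) (hs' : s ∈ levelStab d D') : plant i s ∈ GP P := by
  refine ⟨plant_mem i hs.1, fun v => ?_⟩
  cases v with
  | nil =>
    refine ⟨1, one_mem _, fun w => ?_⟩
    obtain ⟨w, hw⟩ := w
    change w = (plant i s ([] ++ w)).drop 0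
    rw [List.drop_zero, List.nil_append]
    cases w with
    | nil => rfl
    | cons j w =>
      rw [plant_cons]
      by_cases h : j = i
      · rw [if_pos h, stab_le hd hs.1 hs' w (by simpa using hw)]
      · rw [if_neg h]
  | cons j v =>
    by_cases h : j = i
    · obtain ⟨p, hp, hp'⟩ := hs.2 v
      refine ⟨p, hp, fun w => ?_⟩
      rw [hp']
      unfold sec
      rw [List.cons_append, plant_cons, if_pos h]
      rfl
    · refine ⟨1, one_mem _, fun w => ?_⟩
      unfold sec
      rw [List.cons_append, plant_cons, if_neg h]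
      simp

theorem plant_stab (hd : 0 < d) (i : Fin d) {n : ℕ} {s : Equiv.Perm (W d)} (hs : s ∈ TreeAut d)
    (hs' : s ∈ levelStab d n) : plant i s ∈ levelStab d (n + 1) := by
  intro w hw
  cases w with
  | nil => rfl
  | cons j w =>
    rw [plant_cons]
    by_cases h : j = i
    · rw [if_pos h, stab_le hd hs hs' w (by simp at hw; omega)]
    · rw [if_neg h]

theorem plant_conj (g : Equiv.Perm (W d)) (hg : g ∈ TreeAut d) (i : Fin d) (s : Equiv.Perm (W d)) :
    g * plant i s * g⁻¹ = plant (mv g i) (scP g hg i * s * (scP g hg i)⁻¹) := by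
  rw [mul_inv_eq_iff_eq_mul]
  ext1 w
  cases w with
  | nil => simp [plant_nil, nil_eq hg]
  | cons j w =>
    rw [Equiv.Perm.mul_apply, Equiv.Perm.mul_apply, plant_cons, cons_eq hg, cons_eq hg, plant_cons]
    by_cases h : j = i
    · subst h
      rw [if_pos rfl, if_pos rfl, Equiv.Perm.mul_apply, Equiv.Perm.mul_apply, ← scP_apply g hg,
        ← scP_apply g hg, pia]
    · rw [if_neg h, if_neg]
      intro h'
      have h2 := mv_eq hg j
      have h3 := mv_eq hg i
      rw [h', ← h3] at h2
      exact h (by simpa using g.injective h2)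

theorem list_plant (f : Fin d → Equiv.Perm (W d)) (L : List (Fin d)) (hL : L.Nodup) (j : Fin d) (w : W d) :
    (L.map fun i => plant i (f i)).prod (j :: w) = j :: (if j ∈ L then f j w else w) := by
  induction L with
  | nil => simp
  | cons i L ih =>
    rw [List.map_cons, List.prod_cons, Equiv.Perm.mul_apply, ih hL.of_cons, plant_cons]
    have hi : i ∉ L := (List.nodup_cons.1 hL).1
    by_cases h : j = i
    · subst h
      simp [hi]
    · simp [h]

theorem list_plant_nil (f : Fin d → Equiv.Perm (W d)) (L : List (Fin d)) :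
    (L.map fun i => plant i (f i)).prod [] = [] := by
  induction L with
  | nil => simp
  | cons i L ih =>
    rw [List.map_cons, List.prod_cons, Equiv.Perm.mul_apply, ih, plant_nil]

end Pool.Agent.Q89.TA
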