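import Pool.Agent.Q89.TA2

set_option autoImplicit false

namespace Pool.Agent.Q89.TA

open Finset

variable {d D' : ℕ} (hd : 0 < d) (P : Subgroup (Equiv.Perm (Ball d (D' + 1))))

/-- level stabilizer inside `G_P` -/
def St (n : ℕ) : Subgroup (GP P) := (levelStab d n).subgroupOf (GP P)

theorem mem_St {n : ℕ} (g : GP P) : g ∈ St P n ↔ (g : Equiv.Perm (W d)) ∈ levelStab d n := Iff.rfl

/-- the action on a level -/
def onLevel (n : ℕ) : GP P →* Equiv.Perm {w : W d // w.length = n} where
  toFun g :=
    { toFun := fun w => ⟨(g : Equiv.Perm (W d)) w, by rw [g.2.1.1]; exact w.2⟩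
      invFun := fun w => ⟨(g : Equiv.Perm (W d))⁻¹ w, by rw [(inv_mem g.2.1 : _ ∈ TreeAut d).1]; exact w.2⟩
      left_inv := fun w => Subtype.ext (pia _ _)
      right_inv := fun w => Subtype.ext (pai _ _) }
  map_one' := by ext1 w; rfl
  map_mul' g h := by ext1 w; rfl

theorem ker_onLevel (n : ℕ) : (onLevel P n).ker = St P n := by
  ext g
  rw [MonoidHom.mem_ker, mem_St]
  constructor
  · intro h w hw
    have := congrArg (fun p : Equiv.Perm {w : W d // w.length = n} => ((p ⟨w, hw⟩ : {w : W d // w.length = n}) : W d)) h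
    exact this
  · intro h
    ext1 w
    exact Subtype.ext (h w.1 w.2)

instance St_normal (n : ℕ) : (St P n).Normal := by
  rw [← ker_onLevel]
  infer_instance

instance St_index (n : ℕ) : (St P n).FiniteIndex := by
  have : Finite {w : W d // w.length = n} := (inferInstance : Finite (List.Vector (Fin d) n))
  rw [← ker_onLevel]
  infer_instance

instance St_fin (n : ℕ) : Finite (GP P ⧸ St P n) := Subgroup.finite_quotient_of_finiteIndex

include hd in
theorem St_succ (n : ℕ) : St P (n + 1) ≤ St P n := by
  intro g hg w hw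
  exact stab_le hd g.2.1 hg w (by omega)

/-- the embedding of `St(D-1)` into itself on the `i`-th subtree -/
def theta (i : Fin d) : St P D' →* St P D' where
  toFun s := ⟨⟨plant i ((s : GP P) : Equiv.Perm (W d)), plant_GP hd i s.1.2 s.2⟩,
    fun w hw => stab_le hd (plant_mem i s.1.2.1) (plant_stab hd i s.1.2.1 s.2) w (by omega)⟩
  map_one' := by
    apply Subtype.ext
    apply Subtype.ext
    exact plant_one i
  map_mul' s t := by
    apply Subtype.ext
    apply Subtype.ext
    exact plant_mul i _ _

theorem theta_coe (i : Fin d) (s : St P D') :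
    ((theta hd P i s : GP P) : Equiv.Perm (W d)) = plant i ((s : GP P) : Equiv.Perm (W d)) := rfl

/-- elements of `St(D-1)` which lie in the level stabilizer `St(D-1+n)` -/
def LS (n : ℕ) : Subgroup (St P D') := (St P (D' + n)).subgroupOf (St P D')

theorem St_mv {e : GP P} (hd : 0 < d) (he : e ∈ St P (D' + 1)) (i : Fin d) :
    mv (e : Equiv.Perm (W d)) i = i := by
  have h := mv_eq e.2.1 i
  rw [stab_le hd e.2.1 he [i] (by simp)] at h
  simpa using h.symm

/-- the section of an element of `St(D)` at a letter, as an element of `St(D-1)` -/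
def scE (e : GP P) (he : e ∈ St P (D' + 1)) (i : Fin d) : St P D' :=
  ⟨⟨scP e e.2.1 i, scP_GP e e.2 i⟩, fun w hw => by
    have h := cons_eq e.2.1 i w
    have h1 : (e : Equiv.Perm (W d)) (i :: w) = i :: w := he (i :: w) (by simp [hw])
    rw [h1] at h
    have h2 : w = sec (e : Equiv.Perm (W d)) [i] w := by simpa using (List.cons.inj h).2
    exact h2.symm⟩

theorem decomp (hd : 0 < d) (e : GP P) (he : e ∈ St P (D' + 1)) :
    (⟨e, St_succ hd P D' he⟩ : St P D') =
      ((List.finRange d).map fun i => theta hd P i (scE P e he i)).prod := by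
  let f : St P D' →* Equiv.Perm (W d) := (GP P).subtype.comp (St P D').subtype
  have hf : Function.Injective f := fun a b h => Subtype.ext (Subtype.ext h)
  apply hf
  rw [map_list_prod, List.map_map]
  change (e : Equiv.Perm (W d)) =
    ((List.finRange d).map (fun i => plant i (scP (e : Equiv.Perm (W d)) e.2.1 i))).prod
  ext1 w
  cases w with
  | nil => rw [list_plant_nil, nil_eq e.2.1]
  | cons j w =>
    rw [list_plant _ _ (List.nodup_finRange d), if_pos (List.mem_finRange j), cons_eq e.2.1,
      St_mv P hd he]
    rfl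

/-- The data for the averaging argument. -/
noncomputable def data : Data (GP P) (Fin d) (Abelianization (St P D')) where
  mv g i := mv (g : Equiv.Perm (W d)) i
  sc g i := ⟨scP g g.2.1 i, scP_GP g g.2 i⟩
  mv_mul g h i := mv_mul g.2.1 h.2.1 i
  mv_one i := rfl
  sc_mul g h i := by
    apply Subtype.ext
    ext1 w
    change sec _ _ _ = sec _ _ (sec _ _ _)
    rw [Subgroup.coe_mul, sec_mul h.2.1, mv_eq h.2.1]
  S := St P D'
  E := St P (D' + 1)
  hSn := inferInstance
  hEn := inferInstance
  hSf := inferInstance
  hEf := inferInstance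
  hES := St_succ hd P D'
  be := Abelianization.of
  act g := Abelianization.map (MulAut.conjNormal g : MulAut (St P D')).toMonoidHom
  th i := Abelianization.map (theta hd P i)
  act_mul g h x := by
    obtain ⟨y, rfl⟩ := QuotientGroup.mk_surjective x
    change Abelianization.map _ (Abelianization.of y) = Abelianization.map _ (Abelianization.map _ (Abelianization.of y))
    rw [Abelianization.map_of, Abelianization.map_of, Abelianization.map_of]
    simp
  act_S s hs x := by
    obtain ⟨y, rfl⟩ := QuotientGroup.mk_surjective x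
    change Abelianization.map _ (Abelianization.of y) = Abelianization.of y
    rw [Abelianization.map_of]
    have : (MulAut.conjNormal s : MulAut (St P D')).toMonoidHom y = ⟨s, hs⟩ * y * (⟨s, hs⟩)⁻¹ := by
      apply Subtype.ext
      simp
    rw [this, map_mul, map_mul, map_inv, mul_comm, inv_mul_cancel_left]
  act_be g s h := by
    rw [Abelianization.map_of]
    congr 1
  act_th g i x := by
    obtain ⟨y, rfl⟩ := QuotientGroup.mk_surjective x
    change Abelianization.map _ (Abelianization.map _ (Abelianization.of y)) =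
      Abelianization.map _ (Abelianization.map _ (Abelianization.of y))
    rw [Abelianization.map_of, Abelianization.map_of, Abelianization.map_of, Abelianization.map_of]
    congr 1
    apply Subtype.ext
    apply Subtype.ext
    simp only [MulEquiv.coe_toMonoidHom, MulAut.conjNormal_apply, theta_coe, Subgroup.coe_mul,
      Subgroup.coe_inv]
    exact plant_conj _ g.2.1 i _
  E_mv e he i := St_mv P hd he i
  E_sc e he i := (scE P e he i).2
  E_be e he := by
    rw [decomp P hd e he, map_list_prod, List.map_map, Fin.prod_univ_def]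
    congr 1
  K n := (LS P n).map Abelianization.of
  K_zero := by
    have : LS P (D' := D') 0 = ⊤ := by
      rw [eq_top_iff]
      intro s _
      exact s.2
    rw [this]
    exact Subgroup.map_top_of_surjective _ QuotientGroup.mk_surjective
  K_succ n := Subgroup.map_mono fun s hs => St_succ hd P _ hs
  K_th n i x hx := by
    obtain ⟨s, hs, rfl⟩ := hx
    refine ⟨theta hd P i s, ?_, (Abelianization.map_of _ _).symm⟩
    exact plant_stab hd i s.1.2.1 hs
  K_act n g x hx := by
    obtain ⟨s, hs, rfl⟩ := hx
    refine ⟨(MulAut.conjNormal g : MulAut (St P D')) s, ?_, by rw [Abelianization.map_of]; rfl⟩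
    have := (St_normal P (D' + n)).conj_mem _ hs g
    change ((MulAut.conjNormal g s : St P D') : GP P) ∈ St P (D' + n)
    rw [MulAut.conjNormal_apply]
    exact this

/-- The closure of a subgroup in the topology given by the level stabilizers. -/
def treeClosure {d : ℕ} (H : Subgroup (Equiv.Perm (W d))) : Set (Equiv.Perm (W d)) :=
  {g | ∀ n : ℕ, ∃ h ∈ H, ∀ w : W d, w.length ≤ n → g w = h w}

include hd in
theorem final (g : Equiv.Perm (W d)) (hg : g ∈ levelStab d D' ⊓ GP P) :
    g ^ ((levelStab d D').relIndex (GP P) * (levelStab d (D' + 1)).relIndex (GP P)) ∈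
      treeClosure ⁅levelStab d D' ⊓ GP P, levelStab d D' ⊓ GP P⁆ := by
  intro n
  let s : St P D' := ⟨⟨g, hg.2⟩, hg.1⟩
  have h := (data hd P).main s n
  have hM : Nat.card (GP P ⧸ (data hd P).S) * (data hd P).M =
      (levelStab d D').relIndex (GP P) * (levelStab d (D' + 1)).relIndex (GP P) := rfl
  rw [hM] at h
  set N := (levelStab d D').relIndex (GP P) * (levelStab d (D' + 1)).relIndex (GP P) with hN
  obtain ⟨k, hk, hk'⟩ := h
  have h1 : Abelianization.of k = Abelianization.of (s ^ N) := by
    rw [map_pow]; exact hk'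
  have h2 : s ^ N * k⁻¹ ∈ commutator (St P D') := by
    rw [← Abelianization.ker_of, MonoidHom.mem_ker, map_mul, map_inv, h1, mul_inv_cancel]
  let f : St P D' →* Equiv.Perm (W d) := (GP P).subtype.comp (St P D').subtype
  have hr : (⊤ : Subgroup (St P D')).map f = levelStab d D' ⊓ GP P := by
    ext x
    constructor
    · rintro ⟨y, _, rfl⟩
      exact ⟨y.2, y.1.2⟩
    · intro hx
      exact ⟨⟨⟨x, hx.2⟩, hx.1⟩, trivial, rfl⟩
  have h3 : f (s ^ N * k⁻¹) ∈ ⁅levelStab d D' ⊓ GP P, levelStab d D' ⊓ GP P⁆ := by
    rw [← hr, ← Subgroup.map_commutator]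
    exact ⟨_, h2, rfl⟩
  refine ⟨_, h3, fun w hw => ?_⟩
  have h4 : f k w = w := by
    have : ((k : GP P) : Equiv.Perm (W d)) ∈ levelStab d (D' + n) := hk
    exact stab_le hd k.1.2.1 this w (by omega)
  have h5 : (f k)⁻¹ w = w := by
    rw [Equiv.Perm.inv_eq_iff_eq]; exact h4.symm
  rw [map_mul, map_inv, Equiv.Perm.mul_apply, h5, map_pow]
  rfl

theorem final_ne : (levelStab d D').relIndex (GP P) * (levelStab d (D' + 1)).relIndex (GP P) ≠ 0 :=
  mul_ne_zero (St_index P D').index_ne_zero (St_index P (D' + 1)).index_ne_zero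

end Pool.Agent.Q89.TA
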