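import Mathlib

set_option autoImplicit false

/-!
A finitely generated group of automorphisms of the 5-regular rooted tree of subexponential growth:
generators, contraction and growth.
-/

namespace Pool.Agent.Q89.WA5

/-- the vertices of the tree -/
abbrev L : Type := List (Fin 5)
/-- permutations of the vertices -/
abbrev P : Type := Equiv.Perm (List (Fin 5))

/-- the map with root permutation `σ` and sections `h` -/
def mkF (σ : Equiv.Perm (Fin 5)) (h : Fin 5 → P) : L → L
  | [] => []
  | x :: w => σ x :: h x w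

/-- the automorphism with root permutation `σ` and sections `h` -/
def mk (σ : Equiv.Perm (Fin 5)) (h : Fin 5 → P) : P where
  toFun := mkF σ h
  invFun := mkF σ⁻¹ (fun x => (h (σ⁻¹ x))⁻¹)
  left_inv := by
    intro l
    cases l with
    | nil => rfl
    | cons x w => simp [mkF]
  right_inv := by
    intro l
    cases l with
    | nil => rfl
    | cons x w => simp [mkF]

lemma mk_nil (σ : Equiv.Perm (Fin 5)) (h : Fin 5 → P) : mk σ h [] = [] := rfl
lemma mk_cons (σ : Equiv.Perm (Fin 5)) (h : Fin 5 → P) (x : Fin 5) (w : L) :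
    mk σ h (x :: w) = σ x :: h x w := rfl

lemma ext_mk {g : P} {σ : Equiv.Perm (Fin 5)} {h : Fin 5 → P} (h0 : g [] = [])
    (h1 : ∀ x w, g (x :: w) = σ x :: h x w) : g = mk σ h := by
  apply Equiv.ext
  intro l
  cases l with
  | nil => rw [h0, mk_nil]
  | cons x w => rw [h1, mk_cons]

lemma mk_mul (σ σ' : Equiv.Perm (Fin 5)) (h h' : Fin 5 → P) :
    mk σ h * mk σ' h' = mk (σ * σ') (fun x => h (σ' x) * h' x) := by
  apply ext_mk
  · rfl
  · intro x w; rfl

lemma mk_one : mk 1 1 = 1 := by
  symm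
  apply ext_mk
  · rfl
  · intro x w; rfl

lemma mk_inv (σ : Equiv.Perm (Fin 5)) (h : Fin 5 → P) :
    (mk σ h)⁻¹ = mk σ⁻¹ (fun x => (h (σ⁻¹ x))⁻¹) := by
  rw [inv_eq_iff_mul_eq_one, mk_mul]
  rw [← mk_one]
  congr 1
  · simp
  · funext x; simp

lemma mk_inj {σ σ' : Equiv.Perm (Fin 5)} {h h' : Fin 5 → P} (e : mk σ h = mk σ' h') :
    σ = σ' ∧ h = h' := by
  constructor
  · apply Equiv.ext
    intro x
    have := congrArg (fun g : P => g [x]) e
    simp only [mk_cons, List.cons.injEq] at this
    exact this.1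
  · funext x
    apply Equiv.ext
    intro w
    have := congrArg (fun g : P => g (x :: w)) e
    simp only [mk_cons, List.cons.injEq] at this
    exact this.2

/-- the root permutation of order two -/
def al : Equiv.Perm (Fin 5) := Equiv.swap 0 2 * Equiv.swap 1 3
/-- the root permutation of order three -/
def ta : Equiv.Perm (Fin 5) := Equiv.swap 2 3 * Equiv.swap 3 4
/-- powers of `ta` -/
def taE (j : ZMod 3) : Equiv.Perm (Fin 5) := ta ^ j.val

lemma taE_add : ∀ i j : ZMod 3, taE (i + j) = taE i * taE j := by decide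
lemma taE_zero : taE 0 = 1 := by decide
lemma taE_fix0 : ∀ j : ZMod 3, taE j 0 = 0 := by decide
lemma taE_fix1 : ∀ j : ZMod 3, taE j 1 = 1 := by decide
lemma taE_ne0 : ∀ (j : ZMod 3) (x : Fin 5), taE j x = 0 ↔ x = 0 := by decide
lemma taE_ne1 : ∀ (j : ZMod 3) (x : Fin 5), taE j x = 1 ↔ x = 1 := by decide
lemma al_al : al * al = 1 := by decide

/-- the rooted automorphism -/
def pa : P := mk al 1

lemma pa_pa : pa * pa = 1 := by
  rw [pa, mk_mul, al_al, ← mk_one]
  congr 1

/-- powers of `pa` -/
def paE (e : ZMod 2) : P := if e = 0 then 1 else pa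

lemma zmod2_cases (e : ZMod 2) : e = 0 ∨ e = 1 := by
  revert e; decide

lemma paE_add (e f : ZMod 2) : paE (e + f) = paE e * paE f := by
  have h1 : paE 0 = 1 := rfl
  have h2 : paE 1 = pa := rfl
  rcases zmod2_cases e with rfl | rfl <;> rcases zmod2_cases f with rfl | rfl
  · rw [add_zero, h1, mul_one]
  · rw [zero_add, h1, one_mul]
  · rw [add_zero, h1, mul_one]
  · have : (1 : ZMod 2) + 1 = 0 := by decide
    rw [this, h1, h2, pa_pa]

/-- the group `B = C₂² × C₃`, written additively -/
abbrev Bt : Type := ZMod 2 × ZMod 2 × ZMod 3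

/-- the section at the letter `0` -/
def nx (β : Bt) : Bt := (β.2.1, β.1 + β.2.1, β.2.2)
/-- the section at the letter `1` -/
def th (β : Bt) : ZMod 2 := β.1 + β.2.1

lemma nx_add (β γ : Bt) : nx (β + γ) = nx β + nx γ := by
  revert β γ; decide
lemma th_add (β γ : Bt) : th (β + γ) = th β + th γ := by
  revert β γ; decide
lemma nx_zero : nx 0 = 0 := by decide
lemma th_zero : th 0 = 0 := by decide

/-- the directed automorphisms -/
def rbF : L → Bt → L
  | [], _ => []
  | x :: w, β => taE β.2.2 x ::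
      (if x = 0 then rbF w (nx β) else if x = 1 then paE (th β) w else w)

lemma rbF_add (w : L) : ∀ β γ : Bt, rbF (rbF w γ) β = rbF w (β + γ) := by
  induction w with
  | nil => intro β γ; rfl
  | cons x w ih =>
    intro β γ
    simp only [rbF, taE_ne0, taE_ne1]
    have h1 : (β + γ).2.2 = β.2.2 + γ.2.2 := rfl
    rw [h1, taE_add, nx_add, th_add, paE_add]
    congr 1
    by_cases h0 : x = 0
    · simp only [h0, if_true]
      exact ih _ _
    · by_cases h1 : x = 1
      · simp only [h1, if_true]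
        rfl
      · simp only [h0, h1, if_false]

lemma rbF_zero (w : L) : rbF w 0 = w := by
  induction w with
  | nil => rfl
  | cons x w ih =>
    simp only [rbF]
    rw [nx_zero, ih, th_zero]
    have h1 : (0 : Bt).2.2 = 0 := rfl
    rw [h1, taE_zero]
    have h2 : paE 0 = 1 := rfl
    rw [h2]
    simp

/-- the directed automorphisms -/
def rb (β : Bt) : P where
  toFun w := rbF w β
  invFun w := rbF w (-β)
  left_inv w := by
    show rbF (rbF w β) (-β) = w
    rw [rbF_add, neg_add_cancel, rbF_zero]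
  right_inv w := by
    show rbF (rbF w (-β)) β = w
    rw [rbF_add, add_neg_cancel, rbF_zero]

lemma rb_add (β γ : Bt) : rb (β + γ) = rb β * rb γ := by
  apply Equiv.ext
  intro w
  exact (rbF_add w β γ).symm

lemma rb_zero : rb 0 = 1 := by
  apply Equiv.ext
  intro w
  exact rbF_zero w

lemma rb_neg (β : Bt) : rb (-β) = (rb β)⁻¹ := by
  rw [eq_inv_iff_mul_eq_one, ← rb_add, neg_add_cancel, rb_zero]

/-- sections of `rb β` -/
def secB (β : Bt) (x : Fin 5) : P :=
  if x = 0 then rb (nx β) else if x = 1 then paE (th β) else 1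

lemma rb_mk (β : Bt) : rb β = mk (taE β.2.2) (secB β) := by
  apply ext_mk
  · rfl
  · intro x w
    show taE β.2.2 x :: _ = taE β.2.2 x :: _
    congr 1
    unfold secB
    by_cases h0 : x = 0
    · simp only [h0, if_true]; rfl
    · by_cases h1 : x = 1
      · simp only [h1]
        rfl
      · simp only [h0, h1, if_false]; rfl

/-- the weights -/
def wt (β : Bt) : ℕ :=
  if β.1 = 1 ∧ β.2.1 = 0 then 5 else if β.1 = 0 ∧ β.2.1 = 1 then 3
  else if β.1 = 1 ∧ β.2.1 = 1 then 2 else if β.2.2 = 0 then 0 else 2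

lemma wt_add : ∀ β γ : Bt, wt (β + γ) ≤ wt β + wt γ := by decide
lemma wt_contr : ∀ β : Bt, 8 * (wt (nx β) + 5 * (th β).val) ≤ 7 * (wt β + 5) := by decide
lemma wt_zero : wt 0 = 0 := by decide
lemma wt_le : ∀ β : Bt, wt β ≤ 5 := by decide

/-- the value of the word `β α β₁ α ⋯ α βₖ` -/
def val : Bt → List Bt → P
  | β, [] => rb β
  | β, γ :: l => rb β * pa * val γ l

/-- its weight -/
def cost : Bt → List Bt → ℕ
  | β, [] => wt β
  | β, γ :: l => wt β + 5 + cost γ l

/-- `g` is given by a word of weight at most `m` -/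
def C (g : P) (m : ℕ) : Prop := ∃ (β : Bt) (l : List Bt), val β l = g ∧ cost β l ≤ m

lemma word_mul (l : List Bt) : ∀ (β β' : Bt) (l' : List Bt), ∃ (β₂ : Bt) (l₂ : List Bt),
    val β₂ l₂ = val β l * val β' l' ∧ cost β₂ l₂ ≤ cost β l + cost β' l' := by
  induction l with
  | nil =>
    intro β β' l'
    cases l' with
    | nil => exact ⟨β + β', [], rb_add β β', wt_add β β'⟩
    | cons γ l' =>
      refine ⟨β + β', γ :: l', ?_, ?_⟩
      · simp only [val, rb_add, mul_assoc]
      · simp only [cost]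
        have := wt_add β β'
        omega
  | cons γ l ih =>
    intro β β' l'
    obtain ⟨β₂, l₂, h1, h2⟩ := ih γ β' l'
    refine ⟨β, β₂ :: l₂, ?_, ?_⟩
    · simp only [val, h1, mul_assoc]
    · simp only [cost]
      omega

lemma C_mul {g h : P} {m n : ℕ} (hg : C g m) (hh : C h n) : C (g * h) (m + n) := by
  obtain ⟨β, l, rfl, h1⟩ := hg
  obtain ⟨β', l', rfl, h2⟩ := hh
  obtain ⟨β₂, l₂, h3, h4⟩ := word_mul l β β' l'
  exact ⟨β₂, l₂, h3, by omega⟩

lemma C_mono {g : P} {m n : ℕ} (hg : C g m) (h : m ≤ n) : C g n := by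
  obtain ⟨β, l, h1, h2⟩ := hg
  exact ⟨β, l, h1, h2.trans h⟩

lemma C_rb (β : Bt) : C (rb β) (wt β) := ⟨β, [], rfl, le_rfl⟩

lemma C_one : C 1 0 := ⟨0, [], rb_zero, le_of_eq wt_zero⟩

lemma C_pa : C pa 5 := by
  refine ⟨0, [0], ?_, ?_⟩
  · simp only [val, rb_zero, one_mul, mul_one]
  · simp only [cost, wt_zero]; omega

lemma C_paE (e : ZMod 2) : C (paE e) (5 * e.val) := by
  rcases zmod2_cases e with rfl | rfl
  · exact C_one
  · exact C_pa

/-- the weights of the sections of `rb β` -/
def fB (β : Bt) (x : Fin 5) : ℕ :=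
  if x = 0 then wt (nx β) else if x = 1 then 5 * (th β).val else 0

lemma C_secB (β : Bt) (x : Fin 5) : C (secB β x) (fB β x) := by
  unfold secB fB
  by_cases h0 : x = 0
  · simp only [h0, if_true]; exact C_rb _
  · by_cases h1 : x = 1
    · simp only [h1]
      exact C_paE _
    · simp only [h0, h1, if_false]; exact C_one

lemma sum_fB (β : Bt) : ∑ x, fB β x = wt (nx β) + 5 * (th β).val := by
  simp [Fin.sum_univ_five, fB]

lemma contraction_aux (l : List Bt) : ∀ β : Bt, ∃ (σ : Equiv.Perm (Fin 5)) (h : Fin 5 → P)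
    (f : Fin 5 → ℕ), val β l = mk σ h ∧ (∀ x, C (h x) (f x)) ∧
      8 * ∑ x, f x ≤ 7 * (cost β l + 5) := by
  induction l with
  | nil =>
    intro β
    refine ⟨taE β.2.2, secB β, fB β, rb_mk β, C_secB β, ?_⟩
    rw [sum_fB]
    exact wt_contr β
  | cons γ l ih =>
    intro β
    obtain ⟨σ, h, f, h1, h2, h3⟩ := ih γ
    refine ⟨taE β.2.2 * (al * σ), fun x => secB β ((al * σ) x) * h x,
      fun x => fB β ((al * σ) x) + f x, ?_, ?_, ?_⟩
    · show rb β * pa * val γ l = _
      rw [h1, rb_mk, pa, mul_assoc, mk_mul, mk_mul]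
      congr 1
    · intro x
      exact C_mul (C_secB _ _) (h2 x)
    · rw [Finset.sum_add_distrib, Equiv.sum_comp (al * σ) (fB β), sum_fB]
      have := wt_contr β
      simp only [cost]
      omega

/-- The contraction property. -/
theorem contraction {g : P} {m : ℕ} (hg : C g m) : ∃ (σ : Equiv.Perm (Fin 5)) (h : Fin 5 → P)
    (f : Fin 5 → ℕ), g = mk σ h ∧ (∀ x, C (h x) (f x)) ∧ 8 * ∑ x, f x ≤ 7 * (m + 5) := by
  obtain ⟨β, l, rfl, h⟩ := hg
  obtain ⟨σ, k, f, h1, h2, h3⟩ := contraction_aux l β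
  exact ⟨σ, k, f, h1, h2, by omega⟩

lemma length_le_cost (l : List Bt) : ∀ β : Bt, l.length ≤ cost β l := by
  induction l with
  | nil => intro β; exact Nat.zero_le _
  | cons γ l ih =>
    intro β
    have := ih γ
    simp only [cost, List.length_cons]
    omega

open Classical in
/-- all elements given by words with at most `m` letters after the first -/
noncomputable def ballF (m : ℕ) : Finset P :=
  (Finset.univ : Finset (Bt × (Fin m → Option Bt))).image
    (fun q => val q.1 ((List.ofFn q.2).reduceOption))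

lemma exists_ofFn {m : ℕ} (l : List Bt) (h : l.length ≤ m) :
    ∃ f : Fin m → Option Bt, (List.ofFn f).reduceOption = l := by
  have h1 : ((l.map some) ++ List.replicate (m - l.length) none).length = m := by
    simp; omega
  refine ⟨fun i => ((l.map some) ++ List.replicate (m - l.length) none).get (i.cast h1.symm), ?_⟩
  have h2 : List.ofFn (fun i : Fin m =>
      ((l.map some) ++ List.replicate (m - l.length) none).get (i.cast h1.symm)) =
      (l.map some) ++ List.replicate (m - l.length) none := by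
    apply List.ext_getElem
    · rw [List.length_ofFn, h1]
    · intro i h3 h4
      simp
  rw [h2]
  simp [List.reduceOption]

lemma mem_ballF {g : P} {m : ℕ} (hg : C g m) : g ∈ ballF m := by
  classical
  obtain ⟨β, l, rfl, h⟩ := hg
  obtain ⟨f, hf⟩ := exists_ofFn (m := m) l ((length_le_cost l β).trans h)
  rw [ballF, Finset.mem_image]
  exact ⟨(β, f), Finset.mem_univ _, by rw [hf]⟩

open Classical in
/-- the elements of weight at most `m` -/
noncomputable def Cs (m : ℕ) : Finset P := (ballF m).filter (fun g => C g m)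

lemma mem_Cs {g : P} {m : ℕ} : g ∈ Cs m ↔ C g m := by
  classical
  rw [Cs, Finset.mem_filter]
  exact ⟨fun h => h.2, fun h => ⟨mem_ballF h, h⟩⟩

lemma card_Cs_le (m : ℕ) : (Cs m).card ≤ 12 * 13 ^ m := by
  classical
  calc (Cs m).card ≤ (ballF m).card := Finset.card_filter_le _ _
    _ ≤ (Finset.univ : Finset (Bt × (Fin m → Option Bt))).card := Finset.card_image_le
    _ = 12 * 13 ^ m := by
      rw [Finset.card_univ, Fintype.card_prod, Fintype.card_fun, Fintype.card_option,
        Fintype.card_fin]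
      have : Fintype.card Bt = 12 := by
        simp [ZMod.card]
      rw [this]

/-- the admissible tuples -/
def T (m : ℕ) : Finset (Fin 5 → ℕ) :=
  (Fintype.piFinset (fun _ : Fin 5 => Finset.range (m + 6))).filter
    (fun f => 8 * ∑ x, f x ≤ 7 * (m + 5))

lemma card_T (m : ℕ) : (T m).card ≤ (m + 6) ^ 5 := by
  calc (T m).card ≤ (Fintype.piFinset (fun _ : Fin 5 => Finset.range (m + 6))).card :=
        Finset.card_filter_le _ _
    _ = (m + 6) ^ 5 := by simp

lemma card_rec (m : ℕ) : (Cs m).card ≤ ∑ f ∈ T m, 120 * ∏ x, (Cs (f x)).card := by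
  classical
  have h1 : Cs m ⊆ (T m).biUnion (fun f =>
      ((Finset.univ : Finset (Equiv.Perm (Fin 5))) ×ˢ
        Fintype.piFinset (fun x => Cs (f x))).image (fun q => mk q.1 q.2)) := by
    intro g hg
    obtain ⟨σ, h, f, e1, e2, e3⟩ := contraction (mem_Cs.1 hg)
    rw [Finset.mem_biUnion]
    refine ⟨f, ?_, ?_⟩
    · rw [T, Finset.mem_filter, Fintype.mem_piFinset]
      refine ⟨fun x => ?_, e3⟩
      rw [Finset.mem_range]
      have := Finset.single_le_sum (f := f) (fun i _ => Nat.zero_le _) (Finset.mem_univ x)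
      omega
    · rw [Finset.mem_image]
      refine ⟨(σ, h), ?_, e1.symm⟩
      rw [Finset.mem_product, Fintype.mem_piFinset]
      exact ⟨Finset.mem_univ _, fun x => mem_Cs.2 (e2 x)⟩
  calc (Cs m).card ≤ _ := Finset.card_le_card h1
    _ ≤ ∑ f ∈ T m, (((Finset.univ : Finset (Equiv.Perm (Fin 5))) ×ˢ
        Fintype.piFinset (fun x => Cs (f x))).image (fun q => mk q.1 q.2)).card :=
        Finset.card_biUnion_le
    _ ≤ ∑ f ∈ T m, 120 * ∏ x, (Cs (f x)).card := by
      apply Finset.sum_le_sum
      intro f _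
      refine Finset.card_image_le.trans ?_
      rw [Finset.card_product, Fintype.card_piFinset, Finset.card_univ, Fintype.card_perm,
        Fintype.card_fin]
      exact le_of_eq rfl

end Pool.Agent.Q89.WA5
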