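import Pool.Agent.Q89.WA5a

set_option autoImplicit false

/-!
Subexponential growth from the contraction property.
-/

namespace Pool.Agent.Q89.WA5

open Filter Real

/-- the growth exponent `s` is admissible -/
def Adm (s : ℝ) : Prop := ∃ K : ℝ, 1 ≤ K ∧ ∀ m : ℕ, ((Cs m).card : ℝ) ≤ K * exp (s * m)

lemma adm0 : Adm (Real.log 13) := by
  refine ⟨12, by norm_num, fun m => ?_⟩
  have h1 : ((Cs m).card : ℝ) ≤ 12 * 13 ^ m := by exact_mod_cast card_Cs_le m
  have h2 : exp (Real.log 13 * m) = 13 ^ m := by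
    rw [mul_comm, exp_nat_mul, exp_log (by norm_num)]
  rw [h2]
  exact h1

lemma poly_bound (δ : ℝ) (hδ : 0 < δ) : ∃ K : ℝ, 1 ≤ K ∧ ∀ m : ℕ,
    ((m : ℝ) + 6) ^ 5 ≤ K * exp (δ * m) := by
  have h1 : |exp (-δ)| < 1 := by
    rw [abs_of_pos (exp_pos _)]
    rw [← exp_zero]
    exact exp_lt_exp.2 (by linarith)
  have h2 := tendsto_pow_const_mul_const_pow_of_abs_lt_one 5 h1
  obtain ⟨B, hB⟩ := h2.bddAbove_range
  refine ⟨max 1 (B * exp (6 * δ)), le_max_left _ _, fun m => ?_⟩
  have h3 := hB ⟨m + 6, rfl⟩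
  simp only at h3
  push_cast at h3
  have h4 : exp (-δ) ^ (m + 6) = exp (-(δ * (m + 6))) := by
    rw [← exp_nat_mul]
    congr 1
    push_cast
    ring
  rw [h4] at h3
  have h5 : ((m : ℝ) + 6) ^ 5 ≤ B * exp (δ * (m + 6)) := by
    have h6 : exp (-(δ * ((m : ℝ) + 6))) * exp (δ * (m + 6)) = 1 := by
      rw [← exp_add]; simp
    calc ((m : ℝ) + 6) ^ 5 = ((m : ℝ) + 6) ^ 5 * (exp (-(δ * ((m : ℝ) + 6))) * exp (δ * (m + 6))) := by
          rw [h6, mul_one]
      _ = (((m : ℝ) + 6) ^ 5 * exp (-(δ * ((m : ℝ) + 6)))) * exp (δ * (m + 6)) := by ring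
      _ ≤ B * exp (δ * (m + 6)) := by
          apply mul_le_mul_of_nonneg_right h3 (exp_pos _).le
  calc ((m : ℝ) + 6) ^ 5 ≤ B * exp (δ * (m + 6)) := h5
    _ = (B * exp (6 * δ)) * exp (δ * m) := by
        rw [mul_assoc, ← exp_add]
        congr 2
        ring
    _ ≤ _ := by
        apply mul_le_mul_of_nonneg_right (le_max_right _ _) (exp_pos _).le

lemma adm_step {s s' : ℝ} (hs : 0 < s) (h : Adm s) (hs' : 7 / 8 * s < s') : Adm s' := by
  obtain ⟨K, hK, hN⟩ := h
  obtain ⟨B, hB1, hB⟩ := poly_bound (s' - 7 / 8 * s) (by linarith)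
  refine ⟨B * (120 * K ^ 5 * exp (s * 35 / 8)), ?_, fun m => ?_⟩
  · have h1 : (1 : ℝ) ≤ K ^ 5 := one_le_pow₀ hK
    have h2 : (1 : ℝ) ≤ exp (s * 35 / 8) := one_le_exp (by positivity)
    nlinarith [mul_le_mul h1 h2 (by norm_num) (by linarith)]
  · have h1 : ((Cs m).card : ℝ) ≤ ∑ f ∈ T m, 120 * ∏ x, ((Cs (f x)).card : ℝ) := by
      exact_mod_cast card_rec m
    have h2 : ∀ f ∈ T m, 120 * ∏ x, ((Cs (f x)).card : ℝ) ≤
        120 * (K ^ 5 * exp (s * (7 * (m + 5) / 8))) := by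
      intro f hf
      have h3 : ∏ x, ((Cs (f x)).card : ℝ) ≤ ∏ x : Fin 5, (K * exp (s * (f x : ℝ))) := by
        apply Finset.prod_le_prod
        · intro x _; positivity
        · intro x _; exact hN (f x)
      have h4 : ∏ x : Fin 5, (K * exp (s * (f x : ℝ))) = K ^ 5 * exp (s * ∑ x, (f x : ℝ)) := by
        rw [Finset.prod_mul_distrib, ← exp_sum, Finset.mul_sum]
        simp
      have h5 : (∑ x, (f x : ℝ)) ≤ 7 * (m + 5) / 8 := by
        rw [T, Finset.mem_filter] at hf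
        have h6 : (8 * ∑ x, (f x : ℝ)) ≤ 7 * (m + 5) := by exact_mod_cast hf.2
        linarith
      have h7 : exp (s * ∑ x, (f x : ℝ)) ≤ exp (s * (7 * (m + 5) / 8)) := by
        apply exp_le_exp.2
        exact mul_le_mul_of_nonneg_left h5 hs.le
      calc 120 * ∏ x, ((Cs (f x)).card : ℝ) ≤ 120 * (K ^ 5 * exp (s * ∑ x, (f x : ℝ))) := by
            rw [← h4]; linarith
        _ ≤ _ := by
            have : (0 : ℝ) ≤ K ^ 5 := by positivity
            nlinarith [mul_le_mul_of_nonneg_left h7 this]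
    have h3 : ((T m).card : ℝ) ≤ ((m : ℝ) + 6) ^ 5 := by exact_mod_cast card_T m
    have h4 : (0 : ℝ) < 120 * (K ^ 5 * exp (s * (7 * (m + 5) / 8))) := by positivity
    calc ((Cs m).card : ℝ) ≤ ∑ f ∈ T m, 120 * ∏ x, ((Cs (f x)).card : ℝ) := h1
      _ ≤ ∑ f ∈ T m, 120 * (K ^ 5 * exp (s * (7 * (m + 5) / 8))) := Finset.sum_le_sum h2
      _ = (T m).card * (120 * (K ^ 5 * exp (s * (7 * (m + 5) / 8)))) := by
          rw [Finset.sum_const, nsmul_eq_mul]
      _ ≤ (B * exp ((s' - 7 / 8 * s) * m)) * (120 * (K ^ 5 * exp (s * (7 * (m + 5) / 8)))) := by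
          apply mul_le_mul_of_nonneg_right (h3.trans (hB m)) h4.le
      _ = B * (120 * K ^ 5 * exp (s * 35 / 8)) * exp (s' * m) := by
          have e1 : exp ((s' - 7 / 8 * s) * m) * exp (s * (7 * (m + 5) / 8)) =
              exp (s * 35 / 8) * exp (s' * m) := by
            rw [← exp_add, ← exp_add]
            congr 1
            ring
          calc (B * exp ((s' - 7 / 8 * s) * m)) * (120 * (K ^ 5 * exp (s * (7 * (m + 5) / 8))))
              = B * 120 * K ^ 5 * (exp ((s' - 7 / 8 * s) * m) * exp (s * (7 * (m + 5) / 8))) := by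
                ring
            _ = _ := by rw [e1]; ring

lemma adm_all (s : ℝ) (hs : 0 < s) : Adm s := by
  have hlog : 0 < Real.log 13 := Real.log_pos (by norm_num)
  have h1 : ∀ k : ℕ, Adm (Real.log 13 * (15 / 16) ^ k) := by
    intro k
    induction k with
    | zero => simpa using adm0
    | succ k ih =>
      apply adm_step _ ih
      · have : 0 < Real.log 13 * (15 / 16) ^ k := by positivity
        rw [pow_succ]
        nlinarith
      · positivity
  have h2 : Tendsto (fun k : ℕ => Real.log 13 * (15 / 16 : ℝ) ^ k) atTop (nhds (Real.log 13 * 0)) :=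
    (tendsto_pow_atTop_nhds_zero_of_lt_one (by norm_num) (by norm_num)).const_mul _
  rw [mul_zero] at h2
  obtain ⟨k, hk⟩ := (h2.eventually (gt_mem_nhds hs)).exists
  obtain ⟨K, hK, hN⟩ := h1 k
  refine ⟨K, hK, fun m => (hN m).trans ?_⟩
  have h3 : exp (Real.log 13 * (15 / 16) ^ k * m) ≤ exp (s * m) := by
    apply exp_le_exp.2
    exact mul_le_mul_of_nonneg_right hk.le (Nat.cast_nonneg m)
  apply mul_le_mul_of_nonneg_left h3 (by linarith)

/-- The number of elements of word length at most `r` with respect to `S ∪ S⁻¹`. -/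
noncomputable def growth {G : Type} [Group G] (S : Set G) (r : ℕ) : ℕ :=
  {g : G | ∃ l : List G, l.length ≤ r ∧ (∀ s ∈ l, s ∈ S ∨ s⁻¹ ∈ S) ∧ l.prod = g}.ncard

/-- the generating set -/
def S0 : Set P := insert pa (Set.range rb)

lemma S0_fin : S0.Finite := (Set.finite_range rb).insert pa

lemma C_S0 {s : P} (h : s ∈ S0 ∨ s⁻¹ ∈ S0) : C s 5 := by
  rcases h with h | h
  · rcases h with rfl | ⟨β, rfl⟩
    · exact C_pa
    · exact C_mono (C_rb β) (wt_le β)
  · rcases h with h | ⟨β, h⟩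
    · have : s = pa := by
        rw [inv_eq_iff_eq_inv] at h
        rw [h, inv_eq_iff_mul_eq_one, pa_pa]
      rw [this]
      exact C_pa
    · have : s = rb (-β) := by rw [rb_neg, h, inv_inv]
      rw [this]
      exact C_mono (C_rb _) (wt_le _)

lemma C_prod (l : List P) (h : ∀ s ∈ l, s ∈ S0 ∨ s⁻¹ ∈ S0) : C l.prod (5 * l.length) := by
  induction l with
  | nil => simpa using C_one
  | cons s l ih =>
    rw [List.prod_cons, List.length_cons]
    have h1 := C_S0 (h s (by simp))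
    have h2 := ih (fun t ht => h t (by simp [ht]))
    have := C_mul h1 h2
    exact C_mono this (by omega)

lemma growth_le (r : ℕ) : growth S0 r ≤ (Cs (5 * r)).card := by
  have h : {g : P | ∃ l : List P, l.length ≤ r ∧ (∀ s ∈ l, s ∈ S0 ∨ s⁻¹ ∈ S0) ∧ l.prod = g} ⊆
      (Cs (5 * r) : Set P) := by
    rintro g ⟨l, h1, h2, rfl⟩
    rw [Finset.mem_coe, mem_Cs]
    exact C_mono (C_prod l h2) (by omega)
  unfold growth
  have := Set.ncard_le_ncard h (Finset.finite_toSet _)
  rwa [Set.ncard_coe_finset] at this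

lemma growth_pos (r : ℕ) : 1 ≤ growth S0 r := by
  have h : {g : P | ∃ l : List P, l.length ≤ r ∧ (∀ s ∈ l, s ∈ S0 ∨ s⁻¹ ∈ S0) ∧ l.prod = g} ⊆
      (Cs (5 * r) : Set P) := by
    rintro g ⟨l, h1, h2, rfl⟩
    rw [Finset.mem_coe, mem_Cs]
    exact C_mono (C_prod l h2) (by omega)
  unfold growth
  rw [Nat.one_le_iff_ne_zero, ← Nat.pos_iff_ne_zero,
    Set.ncard_pos ((Finset.finite_toSet _).subset h)]
  exact ⟨1, [], by simp, by simp, rfl⟩

lemma log_growth : Tendsto (fun r : ℕ => Real.log (growth S0 r) / r) atTop (nhds 0) := by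
  rw [Metric.tendsto_atTop]
  intro ε hε
  obtain ⟨K, hK, hN⟩ := adm_all (ε / 10) (by positivity)
  obtain ⟨N, hN'⟩ := exists_nat_gt (Real.log K * 2 / ε)
  refine ⟨max N 1, fun r hr => ?_⟩
  have hr1 : 1 ≤ r := le_trans (le_max_right _ _) hr
  have hrN : N ≤ r := le_trans (le_max_left _ _) hr
  have hr0 : (0 : ℝ) < r := by exact_mod_cast hr1
  have h1 : (1 : ℝ) ≤ growth S0 r := by exact_mod_cast growth_pos r
  have h2 : (growth S0 r : ℝ) ≤ K * exp (ε / 10 * (5 * r : ℕ)) := by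
    calc (growth S0 r : ℝ) ≤ ((Cs (5 * r)).card : ℝ) := by exact_mod_cast growth_le r
      _ ≤ _ := hN _
  have h3 : Real.log (growth S0 r) ≤ Real.log K + ε / 2 * r := by
    calc Real.log (growth S0 r) ≤ Real.log (K * exp (ε / 10 * (5 * r : ℕ))) :=
          Real.log_le_log (by linarith) h2
      _ = Real.log K + ε / 10 * (5 * r : ℕ) := by
          rw [Real.log_mul (by linarith) (exp_pos _).ne', Real.log_exp]
      _ = _ := by push_cast; ring
  have h4 : 0 ≤ Real.log (growth S0 r) := Real.log_nonneg h1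
  rw [Real.dist_eq, sub_zero, abs_of_nonneg (by positivity), div_lt_iff₀ hr0]
  have h5 : Real.log K < ε / 2 * r := by
    have h6 : Real.log K * 2 / ε < r := lt_of_lt_of_le hN' (by exact_mod_cast hrN)
    rw [div_lt_iff₀ hε] at h6
    linarith
  linarith

/-- the group has subexponential growth -/
theorem growth_tendsto :
    Tendsto (fun r : ℕ => (growth S0 r : ℝ) ^ (1 / (r : ℝ))) atTop (nhds 1) := by
  have h1 := (Real.continuous_exp.tendsto 0).comp log_growth
  rw [Real.exp_zero] at h1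
  refine h1.congr (fun r => ?_)
  have h2 : (0 : ℝ) < growth S0 r := by
    have : (1 : ℝ) ≤ growth S0 r := by exact_mod_cast growth_pos r
    linarith
  rw [Real.rpow_def_of_pos h2]
  simp only [Function.comp]
  congr 1
  ring

end Pool.Agent.Q89.WA5
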