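import Pool.Agent.Q89.WA5b

set_option autoImplicit false

/-!
Density of the group in the iterated wreath product of `A₅`.
-/

namespace Pool.Agent.Q89.WA5

open scoped commutatorElement

/-- The infinite iterated wreath product `W` of `A₅`, as a group of permutations of the vertices of
the tree of finite words over `{0, ..., 4}`: the root is fixed, and the children of every vertex `v`
are mapped to the children of `g v` by an even permutation of the letters. -/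
def W : Subgroup (Equiv.Perm (List (Fin 5))) where
  carrier := {g | g [] = [] ∧ ∀ v : List (Fin 5), ∃ σ ∈ alternatingGroup (Fin 5),
    ∀ x : Fin 5, g (v ++ [x]) = g v ++ [σ x]}
  one_mem' := ⟨rfl, fun v => ⟨1, Subgroup.one_mem _, fun x => rfl⟩⟩
  mul_mem' := by
    rintro g h ⟨hg0, hg⟩ ⟨hh0, hh⟩
    refine ⟨by rw [Equiv.Perm.mul_apply, hh0, hg0], fun v => ?_⟩
    obtain ⟨σ, hσ, h1⟩ := hh v
    obtain ⟨τ, hτ, h2⟩ := hg (h v)
    refine ⟨τ * σ, Subgroup.mul_mem _ hτ hσ, fun x => ?_⟩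
    rw [Equiv.Perm.mul_apply, h1, h2]
    rfl
  inv_mem' := by
    rintro g ⟨hg0, hg⟩
    refine ⟨by rw [Equiv.Perm.inv_eq_iff_eq, hg0], fun v => ?_⟩
    obtain ⟨σ, hσ, h1⟩ := hg (g⁻¹ v)
    refine ⟨σ⁻¹, Subgroup.inv_mem _ hσ, fun x => ?_⟩
    rw [Equiv.Perm.inv_eq_iff_eq, h1]
    simp

lemma mem_W {g : P} : g ∈ W ↔ g [] = [] ∧ ∀ v : List (Fin 5), ∃ σ ∈ alternatingGroup (Fin 5),
    ∀ x : Fin 5, g (v ++ [x]) = g v ++ [σ x] := Iff.rfl

lemma W_head {g : P} (hg : g ∈ W) : ∃ σ ∈ alternatingGroup (Fin 5),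
    ∀ x w, g (x :: w) = σ x :: (g (x :: w)).tail := by
  obtain ⟨σ, hσ, h1⟩ := hg.2 []
  rw [hg.1] at h1
  refine ⟨σ, hσ, fun x w => ?_⟩
  induction w using List.reverseRecOn with
  | nil =>
    have := h1 x
    simp only [List.nil_append] at this
    rw [this]
    rfl
  | append_singleton w y ih =>
    obtain ⟨ρ, _, h2⟩ := hg.2 (x :: w)
    have h3 := h2 y
    rw [ih] at h3
    rw [List.cons_append] at h3
    rw [h3]
    rfl

lemma W_decomp {g : P} (hg : g ∈ W) : ∃ σ ∈ alternatingGroup (Fin 5), ∃ h : Fin 5 → P,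
    (∀ x, h x ∈ W) ∧ g = mk σ h := by
  obtain ⟨σ, hσ, h1⟩ := W_head hg
  obtain ⟨τ, _, h2⟩ := W_head (W.inv_mem hg)
  have hτ : ∀ x, τ (σ x) = x := by
    intro x
    have h3 := h1 x []
    have h4 : g⁻¹ (g [x]) = [x] := by simp
    rw [h3] at h4
    rw [h2] at h4
    simp only [List.cons.injEq] at h4
    exact h4.1
  have hinv : ∀ x w, g⁻¹ (σ x :: w) = x :: (g⁻¹ (σ x :: w)).tail := by
    intro x w
    have := h2 (σ x) w
    rw [hτ] at this
    exact this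
  let h : Fin 5 → P := fun x =>
    { toFun := fun w => (g (x :: w)).tail
      invFun := fun w => (g⁻¹ (σ x :: w)).tail
      left_inv := by
        intro w
        show (g⁻¹ (σ x :: (g (x :: w)).tail)).tail = w
        rw [← h1]
        simp
      right_inv := by
        intro w
        show (g (x :: (g⁻¹ (σ x :: w)).tail)).tail = w
        rw [← hinv]
        simp }
  refine ⟨σ, hσ, h, ?_, ?_⟩
  · intro x
    refine ⟨?_, fun v => ?_⟩
    · show (g [x]).tail = []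
      obtain ⟨ρ, _, h3⟩ := hg.2 []
      rw [hg.1] at h3
      have := h3 x
      simp only [List.nil_append] at this
      rw [this]
      rfl
    · obtain ⟨ρ, hρ, h3⟩ := hg.2 (x :: v)
      refine ⟨ρ, hρ, fun y => ?_⟩
      show (g (x :: (v ++ [y]))).tail = (g (x :: v)).tail ++ [ρ y]
      have h4 := h3 y
      rw [List.cons_append] at h4
      rw [h4, h1 x v]
      rfl
  · apply ext_mk
    · exact hg.1
    · intro x w
      exact h1 x w

lemma mk_mem_W {σ : Equiv.Perm (Fin 5)} {h : Fin 5 → P} (hσ : σ ∈ alternatingGroup (Fin 5))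
    (hh : ∀ x, h x ∈ W) : mk σ h ∈ W := by
  refine ⟨rfl, fun v => ?_⟩
  cases v with
  | nil =>
    refine ⟨σ, hσ, fun x => ?_⟩
    show mk σ h [x] = [] ++ [σ x]
    rw [mk_cons, (hh x).1]
    rfl
  | cons y v =>
    obtain ⟨ρ, hρ, h1⟩ := (hh y).2 v
    refine ⟨ρ, hρ, fun x => ?_⟩
    show σ y :: h y (v ++ [x]) = σ y :: h y v ++ [ρ x]
    rw [h1]
    rfl

lemma al_even : al ∈ alternatingGroup (Fin 5) := by
  rw [Equiv.Perm.mem_alternatingGroup]; decide
lemma taE_even (j : ZMod 3) : taE j ∈ alternatingGroup (Fin 5) := by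
  rw [Equiv.Perm.mem_alternatingGroup]; revert j; decide

lemma pa_mem_W : pa ∈ W := mk_mem_W al_even (fun _ => W.one_mem)

lemma paE_mem_W (e : ZMod 2) : paE e ∈ W := by
  rcases zmod2_cases e with rfl | rfl
  · exact W.one_mem
  · exact pa_mem_W

lemma rb_mem_W (β : Bt) : rb β ∈ W := by
  refine ⟨rfl, fun v => ?_⟩
  induction v generalizing β with
  | nil =>
    refine ⟨taE β.2.2, taE_even _, fun x => ?_⟩
    rw [rb_mk]
    show taE β.2.2 x :: secB β x [] = [taE β.2.2 x]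
    have h1 : secB β x [] = [] := by
      unfold secB
      by_cases h0 : x = 0
      · simp only [h0, if_true]; rfl
      · by_cases h1 : x = 1
        · simp only [h1]; exact (paE_mem_W _).1
        · simp only [h0, h1, if_false]; rfl
    rw [h1]
  | cons y v ih =>
    have h1 : ∃ σ ∈ alternatingGroup (Fin 5), ∀ x : Fin 5,
        secB β y (v ++ [x]) = secB β y v ++ [σ x] := by
      unfold secB
      by_cases h0 : y = 0
      · simp only [h0, if_true]; exact ih _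
      · by_cases h1 : y = 1
        · simp only [h1]; exact (paE_mem_W _).2 v
        · simp only [h0, h1, if_false]; exact (W.one_mem).2 v
    obtain ⟨σ, hσ, h2⟩ := h1
    refine ⟨σ, hσ, fun x => ?_⟩
    rw [rb_mk]
    show taE β.2.2 y :: secB β y (v ++ [x]) = taE β.2.2 y :: secB β y v ++ [σ x]
    rw [h2]
    rfl

/-- the group -/
def Ga : Subgroup P := Subgroup.closure S0

lemma pa_mem : pa ∈ Ga := Subgroup.subset_closure (Set.mem_insert _ _)
lemma rb_mem (β : Bt) : rb β ∈ Ga := Subgroup.subset_closure (Set.mem_insert_of_mem _ ⟨β, rfl⟩)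

lemma Ga_le_W : Ga ≤ W := by
  rw [Ga, Subgroup.closure_le]
  rintro g (rfl | ⟨β, rfl⟩)
  · exact pa_mem_W
  · exact rb_mem_W β

lemma paE_mem (e : ZMod 2) : paE e ∈ Ga := by
  rcases zmod2_cases e with rfl | rfl
  · exact Ga.one_mem
  · exact pa_mem

lemma secB_mem (β : Bt) (x : Fin 5) : secB β x ∈ Ga := by
  unfold secB
  by_cases h0 : x = 0
  · simp only [h0, if_true]; exact rb_mem _
  · by_cases h1 : x = 1
    · simp only [h1]; exact paE_mem _
    · simp only [h0, h1, if_false]; exact Ga.one_mem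

/-- sections of elements of the group are in the group -/
lemma Ga_sec {g : P} (hg : g ∈ Ga) : ∃ (σ : Equiv.Perm (Fin 5)) (k : Fin 5 → P),
    g = mk σ k ∧ ∀ x, k x ∈ Ga := by
  rw [Ga] at hg
  induction hg using Subgroup.closure_induction with
  | mem g hg =>
    rcases hg with rfl | ⟨β, rfl⟩
    · exact ⟨al, 1, rfl, fun _ => Ga.one_mem⟩
    · exact ⟨_, _, rb_mk β, secB_mem β⟩
  | one => exact ⟨1, 1, mk_one.symm, fun _ => Ga.one_mem⟩
  | mul g h _ _ ig ih =>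
    obtain ⟨σ, k, rfl, hk⟩ := ig
    obtain ⟨σ', k', rfl, hk'⟩ := ih
    exact ⟨_, _, mk_mul _ _ _ _, fun x => Ga.mul_mem (hk _) (hk' _)⟩
  | inv g _ ig =>
    obtain ⟨σ, k, rfl, hk⟩ := ig
    exact ⟨_, _, mk_inv _ _, fun x => Ga.inv_mem (hk _)⟩

lemma sec_mem {σ : Equiv.Perm (Fin 5)} {k : Fin 5 → P} (h : mk σ k ∈ Ga) (x : Fin 5) :
    k x ∈ Ga := by
  obtain ⟨σ', k', h1, h2⟩ := Ga_sec h
  obtain ⟨-, rfl⟩ := mk_inj h1
  exact h2 x

/-- `h ↦ (h_0, ..., h_4)` -/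
def mk1 : (Fin 5 → P) →* P where
  toFun h := mk 1 h
  map_one' := mk_one
  map_mul' h h' := by
    rw [mk_mul]
    congr 1

lemma mk1_apply (h : Fin 5 → P) : mk1 h = mk 1 h := rfl

/-- the embedding at the letter `i` -/
def io (i : Fin 5) : P →* P := mk1.comp (MonoidHom.mulSingle (fun _ => P) i)

lemma io_apply (i : Fin 5) (g : P) : io i g = mk 1 (Pi.mulSingle i g) := rfl

lemma conj_mk1 (s : Equiv.Perm (Fin 5)) (k f : Fin 5 → P) :
    mk s k * mk 1 f * (mk s k)⁻¹ = mk 1 (fun x => k (s⁻¹ x) * f (s⁻¹ x) * (k (s⁻¹ x))⁻¹) := by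
  rw [mk_inv, mk_mul, mk_mul]
  congr 1
  simp

lemma conj_io (s : Equiv.Perm (Fin 5)) (k : Fin 5 → P) (i : Fin 5) (r : P) :
    mk s k * io i r * (mk s k)⁻¹ = io (s i) (k i * r * (k i)⁻¹) := by
  rw [io_apply, io_apply, conj_mk1]
  congr 1
  funext x
  by_cases h : s⁻¹ x = i
  · have hx : x = s i := by rw [← h]; simp
    subst hx
    simp
  · have hx : x ≠ s i := by
      rintro rfl
      exact h (by simp)
    rw [Pi.mulSingle_eq_of_ne h, Pi.mulSingle_eq_of_ne hx]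
    simp

/-- the element `g` conjugating -/
def g0 : P := pa * rb (0, 0, 2) * pa
/-- the conjugate of `b` -/
def bE : P := g0 * rb (1, 0, 0) * g0⁻¹

lemma g0_eq : g0 = mk (al * taE 2 * al) ![1, 1, rb (0, 0, 2), 1, 1] := by
  have hrb : pa * rb (0, 0, 2) * pa = pa * mk (taE 2) (secB (0, 0, 2)) * pa := by
    rw [rb_mk (0, 0, 2)]
  rw [g0, hrb, pa, mk_mul, mk_mul]
  refine congrArg (mk _) (funext fun x => ?_)
  have e3 : nx (0, 0, 2) = (0, 0, 2) := by decide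
  have e4 : th (0, 0, 2) = 0 := by decide
  have s0 : paE 0 = 1 := rfl
  fin_cases x
  · exact rfl
  · exact rfl
  · show (1 : P) * rb (nx (0, 0, 2)) * 1 = rb (0, 0, 2)
    rw [e3, one_mul, mul_one]
  · show (1 : P) * paE (th (0, 0, 2)) * 1 = 1
    rw [e4, s0, one_mul, mul_one]
  · exact rfl

lemma conj_fun {s : Equiv.Perm (Fin 5)} {k f : Fin 5 → P} {x y : Fin 5} (h : s⁻¹ x = y) :
    k (s⁻¹ x) * f (s⁻¹ x) * (k (s⁻¹ x))⁻¹ = k y * f y * (k y)⁻¹ := by
  subst h; rfl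

lemma bE_eq : bE = mk 1 ![pa, 1, 1, 1, rb (0, 1, 0)] := by
  have h1 : rb (1, 0, 0) = mk 1 (secB (1, 0, 0)) := by
    rw [rb_mk]
    congr 1
  rw [bE, g0_eq, h1, conj_mk1]
  refine congrArg (mk 1) (funext fun x => ?_)
  have e1 : nx (1, 0, 0) = (0, 1, 0) := by decide
  have e2 : th (1, 0, 0) = 1 := by decide
  have p0 : (al * taE 2 * al)⁻¹ 0 = 1 := by decide
  have p1 : (al * taE 2 * al)⁻¹ 1 = 4 := by decide
  have p2 : (al * taE 2 * al)⁻¹ 2 = 2 := by decide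
  have p3 : (al * taE 2 * al)⁻¹ 3 = 3 := by decide
  have p4 : (al * taE 2 * al)⁻¹ 4 = 0 := by decide
  have s1 : paE 1 = pa := rfl
  fin_cases x
  · refine (conj_fun p0).trans ?_
    show (1 : P) * paE (th (1, 0, 0)) * 1⁻¹ = pa
    rw [e2, s1]; simp
  · refine (conj_fun p1).trans ?_
    show (1 : P) * 1 * 1⁻¹ = 1
    simp
  · refine (conj_fun p2).trans ?_
    show rb (0, 0, 2) * 1 * (rb (0, 0, 2))⁻¹ = 1
    simp
  · refine (conj_fun p3).trans ?_
    show (1 : P) * 1 * 1⁻¹ = 1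
    simp
  · refine (conj_fun p4).trans ?_
    show (1 : P) * rb (nx (1, 0, 0)) * 1⁻¹ = rb (0, 1, 0)
    rw [e1]; simp

lemma g0_mem : g0 ∈ Ga := Ga.mul_mem (Ga.mul_mem pa_mem (rb_mem _)) pa_mem
lemma bE_mem : bE ∈ Ga := Ga.mul_mem (Ga.mul_mem g0_mem (rb_mem _)) (Ga.inv_mem g0_mem)

/-- every element of the group is a section at `0` of an element fixing `0` -/
lemma self_rep {h : P} (hh : h ∈ Ga) : ∃ (s : Equiv.Perm (Fin 5)) (k : Fin 5 → P),
    mk s k ∈ Ga ∧ s 0 = 0 ∧ k 0 = h := by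
  rw [Ga] at hh
  induction hh using Subgroup.closure_induction with
  | mem g hg =>
    rcases hg with rfl | ⟨β, rfl⟩
    · refine ⟨1, ![pa, 1, 1, 1, rb (0, 1, 0)], ?_, rfl, rfl⟩
      rw [← bE_eq]
      exact bE_mem
    · refine ⟨taE (β.1 + β.2.1, β.1, β.2.2).2.2, secB (β.1 + β.2.1, β.1, β.2.2), ?_, taE_fix0 _, ?_⟩
      · rw [← rb_mk]
        exact rb_mem _
      · unfold secB
        rw [if_pos rfl]
        congr 1
        revert β
        decide
  | one => exact ⟨1, 1, by rw [mk_one]; exact Ga.one_mem, rfl, rfl⟩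
  | mul g h _ _ ig ih =>
    obtain ⟨s, k, h1, h2, rfl⟩ := ig
    obtain ⟨s', k', h1', h2', rfl⟩ := ih
    refine ⟨s * s', fun x => k (s' x) * k' x, ?_, ?_, ?_⟩
    · rw [← mk_mul]
      exact Ga.mul_mem h1 h1'
    · rw [Equiv.Perm.mul_apply, h2', h2]
    · show k (s' 0) * k' 0 = _
      rw [h2']
  | inv g _ ig =>
    obtain ⟨s, k, h1, h2, rfl⟩ := ig
    have h3 : s⁻¹ 0 = 0 := by rw [Equiv.Perm.inv_eq_iff_eq, h2]
    refine ⟨s⁻¹, fun x => (k (s⁻¹ x))⁻¹, ?_, h3, ?_⟩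
    · rw [← mk_inv]
      exact Ga.inv_mem h1
    · show (k (s⁻¹ 0))⁻¹ = _
      rw [h3]

/-- the elements `r` with `(r, 1, 1, 1, 1)` in the group -/
def R : Subgroup P := Ga ⊓ Ga.comap (io 0)

lemma mem_R {r : P} : r ∈ R ↔ r ∈ Ga ∧ io 0 r ∈ Ga := Iff.rfl

lemma R_conj {g r : P} (hg : g ∈ Ga) (hr : r ∈ R) : g * r * g⁻¹ ∈ R := by
  rw [mem_R] at hr ⊢
  refine ⟨Ga.mul_mem (Ga.mul_mem hg hr.1) (Ga.inv_mem hg), ?_⟩
  obtain ⟨s, k, h1, h2, rfl⟩ := self_rep hg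
  have h3 := conj_io s k 0 r
  rw [h2] at h3
  rw [← h3]
  exact Ga.mul_mem (Ga.mul_mem h1 hr.2) (Ga.inv_mem h1)

/-- the first element of `R` -/
def r0 : P := ⁅⁅rb (0, 0, 1), pa⁆, pa⁆

lemma r0_mem : r0 ∈ R := by
  rw [mem_R]
  have hc : ∀ {g h : P}, g ∈ Ga → h ∈ Ga → ⁅g, h⁆ ∈ Ga := fun hg hh =>
    Ga.mul_mem (Ga.mul_mem (Ga.mul_mem hg hh) (Ga.inv_mem hg)) (Ga.inv_mem hh)
  refine ⟨hc (hc (rb_mem _) pa_mem) pa_mem, ?_⟩
  have h1 : io 0 r0 = ⁅⁅rb (0, 0, 1), bE⁆, bE⁆ := by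
    have h2 : rb (0, 0, 1) * bE * (rb (0, 0, 1))⁻¹ =
        mk 1 ![rb (0, 0, 1) * pa * (rb (0, 0, 1))⁻¹, 1, rb (0, 1, 0), 1, 1] := by
      have h0 : rb (0, 0, 1) * bE * (rb (0, 0, 1))⁻¹ =
        mk (taE 1) (secB (0, 0, 1)) * bE * (mk (taE 1) (secB (0, 0, 1)))⁻¹ := by
        rw [rb_mk (0, 0, 1)]
      rw [h0, bE_eq, conj_mk1]
      refine congrArg (mk 1) (funext fun x => ?_)
      have p0 : (taE 1)⁻¹ 0 = 0 := by decide
      have p1 : (taE 1)⁻¹ 1 = 1 := by decide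
      have p2 : (taE 1)⁻¹ 2 = 4 := by decide
      have p3 : (taE 1)⁻¹ 3 = 2 := by decide
      have p4 : (taE 1)⁻¹ 4 = 3 := by decide
      have e3 : nx (0, 0, 1) = (0, 0, 1) := by decide
      fin_cases x
      · refine (conj_fun p0).trans ?_
        show rb (nx (0, 0, 1)) * pa * (rb (nx (0, 0, 1)))⁻¹ = rb (0, 0, 1) * pa * (rb (0, 0, 1))⁻¹
        rw [e3]
      · refine (conj_fun p1).trans ?_
        show paE (th (0, 0, 1)) * 1 * (paE (th (0, 0, 1)))⁻¹ = 1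
        simp
      · refine (conj_fun p2).trans ?_
        show (1 : P) * rb (0, 1, 0) * 1⁻¹ = rb (0, 1, 0)
        simp
      · refine (conj_fun p3).trans ?_
        show (1 : P) * 1 * 1⁻¹ = 1
        simp
      · refine (conj_fun p4).trans ?_
        show (1 : P) * 1 * 1⁻¹ = 1
        simp
    rw [commutatorElement_def ⁅rb (0, 0, 1), bE⁆ bE, commutatorElement_def (rb (0, 0, 1)) bE, h2,
      bE_eq, ← mk1_apply, ← mk1_apply, ← map_inv, ← map_mul, ← map_mul, ← map_inv, ← map_mul,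
      ← map_mul, io, MonoidHom.comp_apply]
    refine congrArg mk1 (funext fun x => ?_)
    fin_cases x
    · simp [r0, commutatorElement_def]
    · simp
    · simp
    · simp
    · simp
  rw [h1]
  exact hc (hc (rb_mem _) bE_mem) bE_mem

/-- the root permutations of the elements of a subgroup -/
def rootSub (H : Subgroup P) : Subgroup (Equiv.Perm (Fin 5)) where
  carrier := {σ | ∃ k, mk σ k ∈ H}
  one_mem' := ⟨1, by rw [mk_one]; exact H.one_mem⟩
  mul_mem' := by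
    rintro σ τ ⟨k, hk⟩ ⟨l, hl⟩
    exact ⟨_, by rw [← mk_mul]; exact H.mul_mem hk hl⟩
  inv_mem' := by
    rintro σ ⟨k, hk⟩
    exact ⟨_, by rw [← mk_inv]; exact H.inv_mem hk⟩

lemma mem_rootSub {H : Subgroup P} {σ : Equiv.Perm (Fin 5)} :
    σ ∈ rootSub H ↔ ∃ k, mk σ k ∈ H := Iff.rfl

lemma gen_A5 (Q : Subgroup (Equiv.Perm (Fin 5))) (h1 : ta ∈ Q) (h2 : al ∈ Q) :
    alternatingGroup (Fin 5) ≤ Q := by
  have h3 : ta.IsThreeCycle := by
    rw [← card_support_eq_three_iff]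
    decide
  have key : ∀ x : Fin 5, ∃ g : Q, g • (0 : Fin 5) = x := by
    intro x
    fin_cases x
    · exact ⟨1, rfl⟩
    · refine ⟨⟨al * ta * al, Q.mul_mem (Q.mul_mem h2 h1) h2⟩, ?_⟩
      show (al * ta * al) 0 = 1
      decide
    · refine ⟨⟨al, h2⟩, ?_⟩
      show al 0 = 2
      decide
    · refine ⟨⟨ta * al, Q.mul_mem h1 h2⟩, ?_⟩
      show (ta * al) 0 = 3
      decide
    · refine ⟨⟨ta * ta * al, Q.mul_mem (Q.mul_mem h1 h1) h2⟩, ?_⟩
      show (ta * ta * al) 0 = 4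
      decide
  have h4 : MulAction.IsPretransitive Q (Fin 5) := by
    constructor
    intro x y
    obtain ⟨g, rfl⟩ := key x
    obtain ⟨h, rfl⟩ := key y
    exact ⟨h * g⁻¹, by rw [smul_smul, mul_assoc, inv_mul_cancel, mul_one]⟩
  have h5 : MulAction.IsPreprimitive Q (Fin 5) := by
    apply MulAction.IsPreprimitive.of_prime_card
    rw [Nat.card_eq_fintype_card, Fintype.card_fin]
    norm_num
  exact Equiv.Perm.alternatingGroup_le_of_isPreprimitive_of_isThreeCycle_mem h5 h3 h1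

lemma root_Ga : alternatingGroup (Fin 5) ≤ rootSub Ga := by
  apply gen_A5
  · refine ⟨secB (0, 0, 1), ?_⟩
    have : mk ta (secB (0, 0, 1)) = rb (0, 0, 1) := by
      rw [rb_mk]
      congr 1
    rw [this]
    exact rb_mem _
  · exact ⟨1, pa_mem⟩

lemma root_conj {σ ρ : Equiv.Perm (Fin 5)} (hσ : σ ∈ rootSub Ga) (hρ : ρ ∈ rootSub R) :
    σ * ρ * σ⁻¹ ∈ rootSub R := by
  obtain ⟨k, hk⟩ := hσ
  obtain ⟨l, hl⟩ := hρ
  have := R_conj hk hl
  rw [mk_inv, mk_mul, mk_mul] at this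
  exact ⟨_, this⟩

lemma root_comm {H : Subgroup P} {σ ρ : Equiv.Perm (Fin 5)} (hσ : σ ∈ rootSub H)
    (hρ : ρ ∈ rootSub H) : ∃ k, mk ⁅σ, ρ⁆ k ∈ ⁅H, H⁆ := by
  obtain ⟨k, hk⟩ := hσ
  obtain ⟨l, hl⟩ := hρ
  have h := Subgroup.commutator_mem_commutator hk hl
  rw [commutatorElement_def, mk_inv, mk_inv, mk_mul, mk_mul, mk_mul] at h
  exact ⟨_, h⟩

lemma r0_root : ∃ k, r0 = mk ⁅⁅ta, al⁆, al⁆ k := by
  have h1 : rb (0, 0, 1) = mk ta (secB (0, 0, 1)) := by
    rw [rb_mk]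
    congr 1
  refine ⟨?_, ?_⟩
  rotate_left
  · rw [r0, h1, pa]
    simp only [commutatorElement_def, mk_inv, mk_mul]
    rfl

end Pool.Agent.Q89.WA5
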