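import Pool.Agent.Q89.WA5c

set_option autoImplicit false

/-!
Density of the group in the iterated wreath product of `A₅`, second part.
-/

namespace Pool.Agent.Q89.WA5

open scoped commutatorElement

lemma alt_mem (σ : Equiv.Perm (Fin 5)) (h : Equiv.Perm.sign σ = 1) :
    σ ∈ alternatingGroup (Fin 5) := by
  rw [Equiv.Perm.mem_alternatingGroup]; exact h

/-- auxiliary permutation -/
def pg : Equiv.Perm (Fin 5) := Equiv.swap 1 4 * Equiv.swap 4 2
/-- auxiliary permutation -/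
def ph : Equiv.Perm (Fin 5) := Equiv.swap 0 4 * Equiv.swap 4 2
/-- auxiliary permutation -/
def x1 : Equiv.Perm (Fin 5) := Equiv.swap 2 4 * Equiv.swap 4 3
/-- auxiliary permutation -/
def y1 : Equiv.Perm (Fin 5) := Equiv.swap 0 1 * Equiv.swap 3 4
/-- auxiliary permutation -/
def x2 : Equiv.Perm (Fin 5) := Equiv.swap 1 2 * Equiv.swap 2 3
/-- auxiliary permutation -/
def y2 : Equiv.Perm (Fin 5) := Equiv.swap 0 3 * Equiv.swap 3 1

set_option maxRecDepth 20000 in
lemma root_R : alternatingGroup (Fin 5) ≤ rootSub R := by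
  obtain ⟨k, hk⟩ := r0_root
  have h0 : ⁅⁅ta, al⁆, al⁆ ∈ rootSub R := ⟨k, by rw [← hk]; exact r0_mem⟩
  have hta : ta ∈ rootSub Ga := root_Ga (alt_mem _ (by decide))
  have h1 : ta ∈ rootSub R := by
    have h2 := root_conj hta h0
    have h3 := (rootSub R).mul_mem h0 h2
    have h4 : ⁅⁅ta, al⁆, al⁆ * (ta * ⁅⁅ta, al⁆, al⁆ * ta⁻¹) = ta := by decide
    rw [h4] at h3
    exact h3
  have h2 : al ∈ rootSub R := by
    have h3 := (rootSub R).mul_mem (root_conj (root_Ga (alt_mem pg (by decide))) h1)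
      (root_conj (root_Ga (alt_mem ph (by decide))) h1)
    have h4 : (pg * ta * pg⁻¹) * (ph * ta * ph⁻¹) = al := by decide
    rw [h4] at h3
    exact h3
  exact gen_A5 _ h1 h2

/-- the derived subgroup of `R` -/
def D : Subgroup P := ⁅R, R⁆

lemma D_le_R : D ≤ R := by
  rw [D, Subgroup.commutator_le]
  intro x hx y hy
  exact R.mul_mem (R.mul_mem (R.mul_mem hx hy) (R.inv_mem hx)) (R.inv_mem hy)

lemma R_le_Ga : R ≤ Ga := fun _ h => h.1

lemma root_D : alternatingGroup (Fin 5) ≤ rootSub D := by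
  apply gen_A5
  · have h := root_comm (root_R (alt_mem x1 (by decide))) (root_R (alt_mem y1 (by decide)))
    have h4 : ⁅x1, y1⁆ = ta := by decide
    rw [h4] at h
    exact h
  · have h := root_comm (root_R (alt_mem x2 (by decide))) (root_R (alt_mem y2 (by decide)))
    have h4 : ⁅x2, y2⁆ = al := by decide
    rw [h4] at h
    exact h

lemma D_conj {g d : P} (hg : g ∈ Ga) (hd : d ∈ D) : g * d * g⁻¹ ∈ D := by
  have h : D ≤ D.comap (MulAut.conj g).toMonoidHom := by
    rw [D, Subgroup.commutator_le]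
    intro x hx y hy
    show g * ⁅x, y⁆ * g⁻¹ ∈ ⁅R, R⁆
    have h1 : g * ⁅x, y⁆ * g⁻¹ = ⁅g * x * g⁻¹, g * y * g⁻¹⁆ := by
      simp only [commutatorElement_def]; group
    rw [h1]
    exact Subgroup.commutator_mem_commutator (R_conj hg hx) (R_conj hg hy)
  exact h hd

lemma comm_io (x y a b : P) : ⁅io 0 x * io 1 a, io 0 y * io 2 b⁆ = io 0 ⁅x, y⁆ := by
  simp only [io, MonoidHom.comp_apply]
  rw [← map_mul, ← map_mul, ← map_commutatorElement]
  refine congrArg mk1 (funext fun i => ?_)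
  fin_cases i <;> simp [commutatorElement_def]

lemma u_mem {σ : Equiv.Perm (Fin 5)} {k : Fin 5 → P} (hr : mk σ k ∈ R) {x : P} (hx : x ∈ R) :
    io 0 x * io (σ 0) (k 0 * x⁻¹ * (k 0)⁻¹) ∈ R := by
  have h1 : io 0 x * (mk σ k) * (io 0 x)⁻¹ * (mk σ k)⁻¹ ∈ R :=
    R.mul_mem (R_conj hx.2 hr) (R.inv_mem hr)
  have h3 : io 0 x * (mk σ k) * (io 0 x)⁻¹ * (mk σ k)⁻¹ =
      io 0 x * (mk σ k * io 0 x⁻¹ * (mk σ k)⁻¹) := by
    rw [map_inv]; group
  rw [h3, conj_io] at h1
  exact h1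

lemma io0_D {d : P} (hd : d ∈ D) : io 0 d ∈ D := by
  have h : D ≤ D.comap (io 0) := by
    rw [D, Subgroup.commutator_le]
    intro x hx y hy
    rw [Subgroup.mem_comap]
    obtain ⟨k, hk⟩ := root_R (alt_mem y1 (by decide))
    obtain ⟨l, hl⟩ := root_R (alt_mem al (by decide))
    have hu := u_mem hk hx
    have hv := u_mem hl hy
    have e1 : y1 0 = 1 := by decide
    have e2 : al 0 = 2 := by decide
    rw [e1] at hu
    rw [e2] at hv
    rw [← comm_io x y _ _]
    exact Subgroup.commutator_mem_commutator hu hv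
  exact h hd

lemma io_D (i : Fin 5) {d : P} (hd : d ∈ D) : io i d ∈ D := by
  obtain ⟨σ, hσ, h0⟩ : ∃ σ ∈ alternatingGroup (Fin 5), σ 0 = i := by
    fin_cases i
    · exact ⟨1, alt_mem _ (by decide), by decide⟩
    · exact ⟨y1, alt_mem _ (by decide), by decide⟩
    · exact ⟨al, alt_mem _ (by decide), by decide⟩
    · exact ⟨y2, alt_mem _ (by decide), by decide⟩
    · exact ⟨ph, alt_mem _ (by decide), by decide⟩
  obtain ⟨k, hk⟩ := root_Ga hσ
  have h1 := D_conj (Ga.inv_mem (sec_mem hk 0)) hd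
  have h2 := D_conj hk (io0_D h1)
  rw [conj_io, h0] at h2
  have h3 : k 0 * ((k 0)⁻¹ * d * (k 0)⁻¹⁻¹) * (k 0)⁻¹ = d := by group
  rw [h3] at h2
  exact h2

lemma mk1_D {e : Fin 5 → P} (he : ∀ x, e x ∈ D) : mk 1 e ∈ D := by
  have h : mk 1 e = io 0 (e 0) * io 1 (e 1) * io 2 (e 2) * io 3 (e 3) * io 4 (e 4) := by
    simp only [io, MonoidHom.comp_apply]
    rw [← map_mul, ← map_mul, ← map_mul, ← map_mul, ← mk1_apply]
    refine congrArg mk1 (funext fun i => ?_)
    fin_cases i <;> simp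
  rw [h]
  exact D.mul_mem (D.mul_mem (D.mul_mem (D.mul_mem (io_D _ (he _)) (io_D _ (he _)))
    (io_D _ (he _))) (io_D _ (he _))) (io_D _ (he _))

theorem dense (n : ℕ) : ∀ w ∈ W, ∃ d ∈ D, ∀ v : List (Fin 5), v.length ≤ n → d v = w v := by
  induction n with
  | zero =>
    intro w hw
    refine ⟨1, D.one_mem, fun v hv => ?_⟩
    have h0 : v = [] := List.length_eq_zero_iff.mp (by omega)
    subst h0
    rw [hw.1]
    rfl
  | succ n ih =>
    intro w hw
    obtain ⟨σ, hσ, h, hh, rfl⟩ := W_decomp hw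
    obtain ⟨k, hk⟩ := root_D hσ
    have hkG : ∀ x, k x ∈ Ga := fun x => sec_mem (R_le_Ga (D_le_R hk)) x
    have h1 : ∀ x, ∃ d ∈ D, ∀ v : List (Fin 5), v.length ≤ n → d v = ((k x)⁻¹ * h x) v :=
      fun x => ih _ (W.mul_mem (W.inv_mem (Ga_le_W (hkG x))) (hh x))
    choose e he1 he2 using h1
    refine ⟨mk σ k * mk 1 e, D.mul_mem hk (mk1_D he1), fun v hv => ?_⟩
    cases v with
    | nil => rfl
    | cons x v =>
      rw [mk_mul]
      show σ x :: k x (e x v) = σ x :: h x v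
      rw [he2 x v (by simpa using hv)]
      simp

end Pool.Agent.Q89.WA5
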