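import Mathlib

/-!
Wreath recursions given by finite data, their sections and actions on words, and the notion of a
contracting recursion.
-/

set_option linter.unusedSimpArgs false
set_option linter.unusedVariables false
set_option linter.unusedSectionVars false

namespace Pool.Agent.Q89.WR

open Equiv

theorem app_inv {α : Type*} (f : Perm α) (x : α) : f (f⁻¹ x) = x := f.apply_symm_apply x

theorem inv_app {α : Type*} (f : Perm α) (x : α) : f⁻¹ (f x) = x := f.symm_apply_apply x

/-- The data of a wreath recursion: for each generator `s` a permutation `perm s` of the alphabet and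
for each letter `x` the section `word s x`, a word in the generators and their inverses (the pair
`(s, true)` stands for `s` and `(s, false)` for the inverse of `s`). -/
structure Rec (S X : Type) where
  perm : S → Perm X
  word : S → X → List (S × Bool)

/-- The formal inverse of a group word. -/
def invWord {S : Type} (L : List (S × Bool)) : List (S × Bool) :=
  (L.map fun p => (p.1, !p.2)).reverse

namespace Rec

variable {S X : Type} (R : Rec S X)

/-- The permutation of the alphabet of a generator or the inverse of a generator. -/
def lPerm (l : S × Bool) : Perm X := if l.2 then R.perm l.1 else (R.perm l.1)⁻¹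

/-- The section at the letter `x` of a generator or the inverse of a generator. -/
def lSec (l : S × Bool) (x : X) : List (S × Bool) :=
  if l.2 then R.word l.1 x else invWord (R.word l.1 ((R.perm l.1)⁻¹ x))

/-- The permutation of the alphabet of a group word. -/
def wPerm : List (S × Bool) → Perm X
  | [] => 1
  | l :: L => R.lPerm l * wPerm L

/-- The section of a group word at a letter. -/
def wSec : List (S × Bool) → X → List (S × Bool)
  | [], _ => []
  | l :: L, x => R.lSec l (R.wPerm L x) ++ wSec L x

/-- The section of a group word at a word over the alphabet. -/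
def sec : List (S × Bool) → List X → List (S × Bool)
  | L, [] => L
  | L, x :: v => sec (R.wSec L x) v

/-- The action of a group word on the words over the alphabet. -/
def act : List (S × Bool) → List X → List X
  | _, [] => []
  | L, x :: v => R.wPerm L x :: act (R.wSec L x) v

/-- The group defined by the recursion is contracting: for some finite set of group words, the
section of every group word at all long enough words over the alphabet acts on all words over the
alphabet as a member of the finite set. -/
def Contracting : Prop :=
  ∃ N : Finset (List (S × Bool)), ∀ L : List (S × Bool), ∃ n : ℕ, ∀ v : List X, n ≤ v.length →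
    ∃ K ∈ N, R.act (R.sec L v) = R.act K

end Rec

/-! ### Realisation by permutations of the set of words -/

section real

variable {S X : Type}

/-- the value of a group word -/
def val {G : Type*} [Group G] (γ : S → G) : List (S × Bool) → G
  | [] => 1
  | l :: L => (if l.2 then γ l.1 else (γ l.1)⁻¹) * val γ L

theorem val_append {G : Type*} [Group G] (γ : S → G) (L K : List (S × Bool)) :
    val γ (L ++ K) = val γ L * val γ K := by
  induction L with
  | nil => simp [val]
  | cons l L ih => simp [val, ih, mul_assoc]

theorem val_inv {G : Type*} [Group G] (γ : S → G) (L : List (S × Bool)) :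
    val γ (invWord L) = (val γ L)⁻¹ := by
  induction L with
  | nil => simp [val, invWord]
  | cons l L ih =>
    have h : invWord (l :: L) = invWord L ++ [(l.1, !l.2)] := by simp [invWord]
    rw [h, val_append, ih]
    obtain ⟨s, b⟩ := l
    cases b <;> simp [val]

theorem val_replicate {G : Type*} [Group G] (γ : S → G) (s : S) (n : ℕ) :
    val γ (List.replicate n (s, true)) = γ s ^ n := by
  induction n with
  | zero => simp [val]
  | succ n ih => rw [List.replicate_succ, val, ih, pow_succ']; simp

theorem val_replicate_false {G : Type*} [Group G] (γ : S → G) (s : S) (n : ℕ) :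
    val γ (List.replicate n (s, false)) = (γ s)⁻¹ ^ n := by
  induction n with
  | zero => simp [val]
  | succ n ih => rw [List.replicate_succ, val, ih, pow_succ']; simp

/-- `f` maps words beginning with `x` to words beginning with `y` and acts as `g` on the rest -/
def Sec1 (f : Perm (List X)) (x y : X) (g : Perm (List X)) : Prop := ∀ u, f (x :: u) = y :: g u

theorem Sec1.mul {f g : Perm (List X)} {x y z : X} {f' g' : Perm (List X)}
    (hf : Sec1 f y z f') (hg : Sec1 g x y g') : Sec1 (f * g) x z (f' * g') := by
  intro u
  rw [Perm.mul_apply, hg u, hf (g' u)]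
  rfl

theorem Sec1.inv {f : Perm (List X)} {x y : X} {g : Perm (List X)} (h : Sec1 f x y g) :
    Sec1 f⁻¹ y x g⁻¹ := by
  intro u
  rw [Perm.inv_eq_iff_eq, h (g⁻¹ u), app_inv]

theorem Sec1.one (x : X) : Sec1 (1 : Perm (List X)) x x 1 := fun _ => rfl

theorem Sec1.unique {f : Perm (List X)} {x y y' : X} {g g' : Perm (List X)} (h : Sec1 f x y g)
    (h' : Sec1 f x y' g') : y = y' ∧ g = g' := by
  have e : ∀ u, y = y' ∧ g u = g' u := by
    intro u
    have := (h u).symm.trans (h' u)
    exact ⟨(List.cons.inj this).1, (List.cons.inj this).2⟩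
  exact ⟨(e []).1, Equiv.ext fun u => (e u).2⟩

/-- Permutations of the set of words satisfying the recursion. -/
structure Real (R : Rec S X) (γ : S → Perm (List X)) : Prop where
  nil : ∀ s, γ s [] = []
  cons : ∀ s x, Sec1 (γ s) x (R.perm s x) (val γ (R.word s x))

variable {R : Rec S X} {γ : S → Perm (List X)} (h : Real R γ)

include h in
theorem Real.val_nil (L : List (S × Bool)) : val γ L [] = [] := by
  induction L with
  | nil => rfl
  | cons l L ih =>
    obtain ⟨s, b⟩ := l
    cases b
    · simp only [val, Bool.false_eq_true, if_false, Perm.mul_apply, ih]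
      rw [Perm.inv_eq_iff_eq, h.nil]
    · simp only [val, if_true, Perm.mul_apply, ih]
      exact h.nil s

include h in
theorem Real.sec1 (L : List (S × Bool)) (x : X) :
    Sec1 (val γ L) x (R.wPerm L x) (val γ (R.wSec L x)) := by
  induction L with
  | nil => exact Sec1.one x
  | cons l L ih =>
    obtain ⟨s, b⟩ := l
    cases b
    · have h1 := (h.cons s ((R.perm s)⁻¹ (R.wPerm L x))).inv
      rw [app_inv] at h1
      have h2 := h1.mul ih
      simp only [val, Rec.wPerm, Rec.wSec, Rec.lPerm, Rec.lSec, Bool.false_eq_true, if_false,
        val_append, val_inv, Perm.mul_apply]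
      exact h2
    · have h1 := h.cons s (R.wPerm L x)
      have h2 := h1.mul ih
      simp only [val, Rec.wPerm, Rec.wSec, Rec.lPerm, Rec.lSec, if_true, val_append,
        Perm.mul_apply]
      exact h2

include h in
theorem Real.act_eq (L : List (S × Bool)) : R.act L = val γ L := by
  funext v
  induction v generalizing L with
  | nil => rw [h.val_nil]; rfl
  | cons x v ih =>
    rw [h.sec1 L x v, ← ih]
    rfl

/-- All sections at level `n` satisfy `P`. -/
def Lv (P : Perm (List X) → Prop) : ℕ → Perm (List X) → Prop
  | 0, f => P f
  | n + 1, f => ∀ x, ∃ y g, Sec1 f x y g ∧ Lv P n g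

/-- `P` is closed under sections. -/
def Closed (P : Perm (List X) → Prop) : Prop := ∀ f, P f → ∀ x, ∃ y g, Sec1 f x y g ∧ P g

theorem Lv.mono {P Q : Perm (List X) → Prop} (h : ∀ f, P f → Q f) {n : ℕ} {f : Perm (List X)}
    (hf : Lv P n f) : Lv Q n f := by
  induction n generalizing f with
  | zero => exact h f hf
  | succ n ih =>
    intro x
    obtain ⟨y, g, h1, h2⟩ := hf x
    exact ⟨y, g, h1, ih h2⟩

theorem Lv.succ {P : Perm (List X) → Prop} (hP : Closed P) {n : ℕ} {f : Perm (List X)}
    (hf : Lv P n f) : Lv P (n + 1) f := by
  induction n generalizing f with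
  | zero =>
    intro x
    exact hP f hf x
  | succ n ih =>
    intro x
    obtain ⟨y, g, h1, h2⟩ := hf x
    exact ⟨y, g, h1, ih h2⟩

theorem Lv.le {P : Perm (List X) → Prop} (hP : Closed P) {n m : ℕ} (hnm : n ≤ m)
    {f : Perm (List X)} (hf : Lv P n f) : Lv P m f := by
  induction m with
  | zero =>
    have : n = 0 := by omega
    subst this
    exact hf
  | succ m ih =>
    rcases Nat.lt_or_ge m n with h | h
    · have : n = m + 1 := by omega
      subst this
      exact hf
    · exact (ih h).succ hP

theorem Lv.add {P Q : Perm (List X) → Prop} {n m : ℕ} {f : Perm (List X)} (hf : Lv P n f)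
    (h : ∀ g, P g → Lv Q m g) : Lv Q (n + m) f := by
  induction n generalizing f with
  | zero => rw [Nat.zero_add]; exact h f hf
  | succ n ih =>
    rw [Nat.add_right_comm]
    intro x
    obtain ⟨y, g, h1, h2⟩ := hf x
    exact ⟨y, g, h1, ih h2⟩

/-- If each permutation satisfying `P` has its deep sections in `Q`, then so has `f`. -/
theorem Lv.exists_add [Finite X] {P Q : Perm (List X) → Prop} (hQ : Closed Q) {n : ℕ}
    {f : Perm (List X)} (hf : Lv P n f) (h : ∀ g, P g → ∃ m, Lv Q m g) : ∃ m, Lv Q m f := by
  induction n generalizing f with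
  | zero => exact h f hf
  | succ n ih =>
    have key : ∀ x, ∃ y g m, Sec1 f x y g ∧ Lv Q m g := by
      intro x
      obtain ⟨y, g, h1, h2⟩ := hf x
      obtain ⟨m, hm⟩ := ih h2
      exact ⟨y, g, m, h1, hm⟩
    choose y g m h1 h2 using key
    have := Fintype.ofFinite X
    refine ⟨(Finset.univ.sup m) + 1, ?_⟩
    intro x
    exact ⟨y x, g x, h1 x, (h2 x).le hQ (Finset.le_sup (Finset.mem_univ x))⟩

theorem Lv.one_of [Finite X] {Q : Perm (List X) → Prop} (hQ : Closed Q)
    {f : Perm (List X)} (h : ∀ x, ∃ y g, Sec1 f x y g ∧ ∃ m, Lv Q m g) : ∃ m, Lv Q m f := by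
  choose y g h1 m h2 using h
  have := Fintype.ofFinite X
  refine ⟨(Finset.univ.sup m) + 1, ?_⟩
  intro x
  exact ⟨y x, g x, h1 x, (h2 x).le hQ (Finset.le_sup (Finset.mem_univ x))⟩

/-- `g` is a section of `f` -/
inductive IsSec : Perm (List X) → Perm (List X) → Prop
  | refl (f : Perm (List X)) : IsSec f f
  | step {f g h : Perm (List X)} {x y : X} : Sec1 f x y g → IsSec g h → IsSec f h

theorem IsSec.of_closed {P : Perm (List X) → Prop} (hP : Closed P) {f g : Perm (List X)}
    (h : IsSec f g) (hf : P f) : P g := by
  induction h with
  | refl f => exact hf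
  | step h1 h2 ih =>
    rename_i f g h x y
    obtain ⟨y', g', h3, h4⟩ := hP _ hf x
    obtain ⟨_, e⟩ := h1.unique h3
    rw [e] at ih
    subst e
    exact ih h4

theorem finite_sections [Finite X] {Q : Perm (List X) → Prop} (hQ : Closed Q)
    (hfin : {g | Q g}.Finite) (n : ℕ) (f : Perm (List X)) (hf : Lv Q n f) :
    {g | IsSec f g}.Finite := by
  induction n generalizing f with
  | zero =>
    refine hfin.subset ?_
    intro g hg
    exact hg.of_closed hQ hf
  | succ n ih =>
    choose y g h1 h2 using hf
    have h3 : ∀ x, {k | IsSec (g x) k}.Finite := fun x => ih (g x) (h2 x)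
    refine ((Set.finite_iUnion h3).insert f).subset ?_
    intro k hk
    cases hk with
    | refl => exact Set.mem_insert _ _
    | step h4 h5 =>
      rename_i g' x y'
      obtain ⟨_, e⟩ := h4.unique (h1 x)
      subst e
      exact Set.mem_insert_of_mem _ (Set.mem_iUnion.2 ⟨x, h5⟩)

include h in
theorem Real.lv_sec {P : Perm (List X) → Prop} (n : ℕ) (L : List (S × Bool))
    (hL : Lv P n (val γ L)) (v : List X) (hv : v.length = n) : P (val γ (R.sec L v)) := by
  induction n generalizing L v with
  | zero =>
    have : v = [] := List.length_eq_zero_iff.1 hv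
    subst this
    exact hL
  | succ n ih =>
    cases v with
    | nil => simp at hv
    | cons x v =>
      obtain ⟨y, g, h1, h2⟩ := hL x
      obtain ⟨_, e⟩ := h1.unique (h.sec1 L x)
      subst e
      exact ih _ h2 v (by simpa using hv)

include h in
/-- A criterion for the recursion to be contracting. -/
theorem Real.contracting {P : Perm (List X) → Prop} (hP : Closed P) (hfin : {g | P g}.Finite)
    (hall : ∀ L, ∃ n, Lv P n (val γ L)) : R.Contracting := by
  classical
  have hfin2 : ({f | P f} ∩ Set.range (val γ)).Finite := hfin.subset Set.inter_subset_left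
  choose! c hc using fun (f : Perm (List X)) (hf : f ∈ {f | P f} ∩ Set.range (val γ)) => hf.2
  refine ⟨(hfin2.toFinset).image c, ?_⟩
  intro L
  obtain ⟨n, hn⟩ := hall L
  refine ⟨n, fun v hv => ?_⟩
  have h1 : P (val γ (R.sec L v)) := h.lv_sec v.length L (hn.le hP hv) v rfl
  have h2 : val γ (R.sec L v) ∈ {f | P f} ∩ Set.range (val γ) := ⟨h1, ⟨_, rfl⟩⟩
  refine ⟨c (val γ (R.sec L v)), Finset.mem_image_of_mem _ (hfin2.mem_toFinset.2 h2), ?_⟩
  rw [h.act_eq, h.act_eq, hc _ h2]

end real

end Pool.Agent.Q89.WR
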