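import Pool.Agent.Q89.WR1
import Pool.Agent.Helper599.Core

/-!
Contraction of the group generated by the odometers and the involutions of `Helper599.Core`.
-/

set_option linter.unusedSimpArgs false
set_option linter.unusedVariables false
set_option linter.unusedSectionVars false

namespace Pool.Agent.Q89.WR

open Equiv Pool.Agent.Helper599.Core

/-! ### Extending the alphabet -/

section ext

variable {A B : Type}

/-- the longest prefix of letters of `A` -/
def pre : List (A ⊕ B) → List A
  | [] => []
  | .inl a :: w => a :: pre w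
  | .inr _ :: _ => []

/-- the rest -/
def post : List (A ⊕ B) → List (A ⊕ B)
  | [] => []
  | .inl _ :: w => post w
  | .inr b :: w => .inr b :: w

theorem pre_post (w : List (A ⊕ B)) : (pre w).map Sum.inl ++ post w = w := by
  induction w with
  | nil => rfl
  | cons x w ih => cases x with
    | inl a => simp only [pre, post, List.map_cons, List.cons_append, ih]
    | inr b => simp [pre, post]

theorem pre_post' (w : List (A ⊕ B)) : pre (post w) = [] := by
  induction w with
  | nil => rfl
  | cons x w ih => cases x with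
    | inl a => exact ih
    | inr b => rfl

theorem post_post (w : List (A ⊕ B)) : post (post w) = post w := by
  induction w with
  | nil => rfl
  | cons x w ih => cases x with
    | inl a => exact ih
    | inr b => rfl

theorem pre_append (u : List A) (w : List (A ⊕ B)) : pre (u.map Sum.inl ++ post w) = u := by
  induction u with
  | nil => exact pre_post' w
  | cons a u ih => simp only [List.map_cons, List.cons_append, pre, ih]

theorem post_append (u : List A) (w : List (A ⊕ B)) :
    post (u.map Sum.inl ++ post w) = post w := by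
  induction u with
  | nil => exact post_post w
  | cons a u ih => simp only [List.map_cons, List.cons_append, post, ih]

/-- the extension -/
def extF (f : Perm (List A)) (w : List (A ⊕ B)) : List (A ⊕ B) :=
  (f (pre w)).map Sum.inl ++ post w

theorem extF_mul (f g : Perm (List A)) (w : List (A ⊕ B)) :
    extF (f * g) w = extF f (extF g w) := by
  unfold extF
  rw [pre_append, post_append, Perm.mul_apply]

theorem extF_one (w : List (A ⊕ B)) : extF (1 : Perm (List A)) w = w := by
  unfold extF
  rw [Perm.one_apply, pre_post]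

/-- Extension of permutations of words to the larger alphabet. -/
def ext : Perm (List A) →* Perm (List (A ⊕ B)) where
  toFun f :=
    { toFun := extF f
      invFun := extF f⁻¹
      left_inv := fun w => by rw [← extF_mul, inv_mul_cancel, extF_one]
      right_inv := fun w => by rw [← extF_mul, mul_inv_cancel, extF_one] }
  map_one' := Equiv.ext fun w => extF_one w
  map_mul' f g := Equiv.ext fun w => extF_mul f g w

theorem ext_apply (f : Perm (List A)) (w : List (A ⊕ B)) :
    (ext f : Perm (List (A ⊕ B))) w = (f (pre w)).map Sum.inl ++ post w := rfl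

theorem ext_inj (f : Perm (List A)) (h : (ext f : Perm (List (A ⊕ B))) = 1) : f = 1 := by
  apply Equiv.ext
  intro u
  have h1 := congrArg (fun g : Perm (List (A ⊕ B)) => pre (g (u.map Sum.inl ++ post []))) h
  simp only [ext_apply, Perm.one_apply, pre_append, post_append] at h1
  rw [h1, Perm.one_apply]

theorem ext_sec1 {f g : Perm (List A)} {x y : A} (h : Sec1 f x y g) :
    Sec1 (ext f : Perm (List (A ⊕ B))) (.inl x) (.inl y) (ext g) := by
  intro u
  rw [ext_apply, ext_apply]
  simp only [pre, post]
  rw [h (pre u)]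
  rfl

theorem ext_sec1_inr {f : Perm (List A)} (h : f [] = []) (b : B) :
    Sec1 (ext f : Perm (List (A ⊕ B))) (.inr b) (.inr b) 1 := by
  intro u
  rw [ext_apply]
  simp only [pre, post, h]
  rfl

end ext

section zz

variable {A : Type}

/-- The recursion of the new generator. -/
def zF (g : Perm (List (A ⊕ Bool))) : List (A ⊕ Bool) → List (A ⊕ Bool)
  | [] => []
  | .inl a :: w => .inl a :: w
  | .inr true :: w => .inr true :: zF g w
  | .inr false :: w => .inr false :: g w

theorem zF_mul (f g : Perm (List (A ⊕ Bool))) (w : List (A ⊕ Bool)) :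
    zF (f * g) w = zF f (zF g w) := by
  induction w with
  | nil => rfl
  | cons x w ih =>
    rcases x with a | b
    · rfl
    · cases b
      · rfl
      · simp only [zF, ih]

theorem zF_one (w : List (A ⊕ Bool)) : zF 1 w = w := by
  induction w with
  | nil => rfl
  | cons x w ih =>
    rcases x with a | b
    · rfl
    · cases b
      · rfl
      · simp only [zF, ih]

/-- The new generator. -/
def Z : Perm (List (A ⊕ Bool)) →* Perm (List (A ⊕ Bool)) where
  toFun f :=
    { toFun := zF f
      invFun := zF f⁻¹
      left_inv := fun w => by rw [← zF_mul, inv_mul_cancel, zF_one]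
      right_inv := fun w => by rw [← zF_mul, mul_inv_cancel, zF_one] }
  map_one' := Equiv.ext fun w => zF_one w
  map_mul' f g := Equiv.ext fun w => zF_mul f g w

theorem Z_sec_inl (g : Perm (List (A ⊕ Bool))) (a : A) : Sec1 (Z g) (.inl a) (.inl a) 1 :=
  fun _ => rfl

theorem Z_sec_true (g : Perm (List (A ⊕ Bool))) :
    Sec1 (Z g) (.inr true) (.inr true) (Z g) := fun _ => rfl

theorem Z_sec_false (g : Perm (List (A ⊕ Bool))) :
    Sec1 (Z g) (.inr false) (.inr false) g := fun _ => rfl

theorem Z_nil (g : Perm (List (A ⊕ Bool))) : Z g [] = [] := rfl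

theorem Z_inj (g : Perm (List (A ⊕ Bool))) (h : Z g = 1) : g = 1 :=
  ((Z_sec_false g).unique (by rw [h]; exact Sec1.one _)).2

end zz

/-! ### The group generated by the odometers and the involutions -/

section contr

variable {Q : Type} (M : Sys Q Bool)

/-- the alphabet -/
abbrev XX : Type := M.X ⊕ Bool

/-- the odometers on the larger alphabet -/
def tau (a : Bool → ℤ) : Perm (List (XX M)) := ext (M.TP a)

/-- the involutions on the larger alphabet -/
noncomputable def kap : Option Q → Perm (List (XX M))
  | none => ext M.VP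
  | some q => ext (M.UP (some q))

theorem tau_add (a b : Bool → ℤ) : tau M (a + b) = tau M a * tau M b := by
  rw [tau, M.TP_add, map_mul]; rfl

theorem tau_zero : tau M 0 = 1 := by rw [tau, M.TP_zero, map_one]

theorem tau_neg (a : Bool → ℤ) : tau M (-a) = (tau M a)⁻¹ := by
  rw [tau, M.TP_neg, map_inv]; rfl

theorem kap_sq (k : Option Q) : kap M k * kap M k = 1 := by
  cases k with
  | none => rw [kap, ← map_mul, M.VP_sq, map_one]
  | some q => rw [kap, ← map_mul, M.UP_sq, map_one]

theorem sec_tau_inl (a : Bool → ℤ) (q : Q) (r : Bool → Fin M.B) (c : Fin (2 * M.l + 1))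
    (i : Bool → Fin M.B) :
    Sec1 (tau M a) (.inl (q, r, c, i)) (.inl (q, r, c, fun j => M.red ((i j : ℕ) + a j)))
      (tau M (fun j => M.rho q r c j * (((i j : ℕ) + a j) / M.B))) :=
  ext_sec1 (fun _ => rfl)

theorem sec_tau_inr (a : Bool → ℤ) (b : Bool) : Sec1 (tau M a) (.inr b) (.inr b) 1 :=
  ext_sec1_inr rfl b

theorem sec_V_pos (q : Q) (r : Bool → Fin M.B) (c : Fin (2 * M.l + 1))
    (i : Bool → Fin M.B) (hi : ∀ j, (i j : ℕ) = 0) :
    Sec1 (kap M none) (.inl (q, r, c, i)) (.inl (q, r, M.neg c, i))
      (if (c : ℕ) = 0 then kap M none else tau M (M.sig q r c)) := by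
  have h : Sec1 M.VP (q, r, c, i) (q, r, M.neg c, i)
      (if (c : ℕ) = 0 then M.VP else M.TP (M.sig q r c)) := by
    intro u
    rw [M.VP_apply]
    simp only [Sys.V, if_pos hi]
    split_ifs <;> rfl
  have h2 := ext_sec1 (B := Bool) h
  rw [apply_ite ext] at h2
  exact h2

theorem sec_V_neg (q : Q) (r : Bool → Fin M.B) (c : Fin (2 * M.l + 1))
    (i : Bool → Fin M.B) (hi : ¬ ∀ j, (i j : ℕ) = 0) :
    Sec1 (kap M none) (.inl (q, r, c, i)) (.inl (q, r, c, i)) 1 := by
  have h : Sec1 M.VP (q, r, c, i) (q, r, c, i) 1 := by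
    intro u
    rw [M.VP_apply]
    simp only [Sys.V, if_neg hi]
    rfl
  have h2 := ext_sec1 (B := Bool) h
  rw [map_one] at h2
  exact h2

theorem sec_U_pos (q : Q) (r : Bool → Fin M.B) (c : Fin (2 * M.l + 1)) :
    Sec1 (kap M (some q)) (.inl (q, r, c, r)) (.inl (q, r, c.rev, r))
      (if (c : ℕ) = M.l then ext (M.UP (M.nxt q r)) else 1) := by
  have h : Sec1 (M.UP (some q)) (q, r, c, r) (q, r, c.rev, r)
      (if (c : ℕ) = M.l then M.UP (M.nxt q r) else 1) := by
    intro u
    rw [M.UP_apply]
    simp only [Sys.U, and_self, if_true]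
    split_ifs <;> rfl
  have h2 := ext_sec1 (B := Bool) h
  rw [apply_ite ext, map_one] at h2
  exact h2

theorem sec_U_neg (q' q : Q) (r : Bool → Fin M.B) (c : Fin (2 * M.l + 1))
    (i : Bool → Fin M.B) (hi : ¬ (q = q' ∧ i = r)) :
    Sec1 (kap M (some q')) (.inl (q, r, c, i)) (.inl (q, r, c, i)) 1 := by
  have h : Sec1 (M.UP (some q')) (q, r, c, i) (q, r, c, i) 1 := by
    intro u
    rw [M.UP_apply]
    simp only [Sys.U, if_neg hi]
    rfl
  have h2 := ext_sec1 (B := Bool) h
  rw [map_one] at h2
  exact h2

theorem sec_kap_inr (k : Option Q) (b : Bool) : Sec1 (kap M k) (.inr b) (.inr b) 1 := by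
  cases k with
  | none => exact ext_sec1_inr rfl b
  | some q => exact ext_sec1_inr rfl b

theorem ext_U_cases (o : Option Q) : (ext (M.UP o) : Perm (List (XX M))) = tau M 0 ∨
    ∃ k, (ext (M.UP o) : Perm (List (XX M))) = kap M k := by
  cases o with
  | none => left; rw [M.UP_none, map_one, tau_zero]
  | some q => right; exact ⟨some q, rfl⟩

/-- Small vectors. -/
def Sm (s : ℕ) (a : Bool → ℤ) : Prop := ∀ j, |a j| ≤ s

theorem sig_small (q : Q) (r : Bool → Fin M.B) (c : Fin (2 * M.l + 1)) : Sm 1 (M.sig q r c) := by
  intro j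
  simp only [Sys.sig, Sys.s]
  split_ifs <;> simp

theorem rho_div_small (hB : 2 ≤ M.B) {s : ℕ} {a : Bool → ℤ} (ha : Sm s a) (q : Q)
    (r : Bool → Fin M.B) (c : Fin (2 * M.l + 1)) (i : Bool → Fin M.B) :
    Sm (s / 2 + 1) (fun j => M.rho q r c j * (((i j : ℕ) + a j) / M.B)) := by
  intro j
  have h1 := ha j
  have h2 := (i j).2
  have hB' : (2 : ℤ) ≤ M.B := by exact_mod_cast hB
  have h3 : ((i j : ℕ) : ℤ) < M.B := by exact_mod_cast h2
  have h4 : (0 : ℤ) ≤ ((i j : ℕ) : ℤ) := by positivity
  have h0 : |((i j : ℕ) + a j) / (M.B : ℤ)| ≤ (s / 2 + 1 : ℕ) := by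
    rw [abs_le] at h1 ⊢
    have hs : (s : ℤ) ≤ 2 * ((s / 2 : ℕ) : ℤ) + 1 := by
      have : s ≤ 2 * (s / 2) + 1 := by omega
      exact_mod_cast this
    have hs0 : (0 : ℤ) ≤ ((s / 2 : ℕ) : ℤ) := by positivity
    push_cast
    push_cast at hs hs0
    constructor
    · rw [Int.le_ediv_iff_mul_le (by omega)]
      nlinarith
    · have : ((i j : ℕ) + a j) / (M.B : ℤ) < (s : ℤ) / 2 + 1 + 1 := by
        rw [Int.ediv_lt_iff_lt_mul (by omega)]
        nlinarith
      omega
  have h5 : M.rho q r c j = 0 ∨ M.rho q r c j = 1 := by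
    unfold Sys.rho; split_ifs <;> simp
  rcases h5 with h5 | h5
  · simp only [h5, zero_mul, abs_zero]; positivity
  · simp only [h5, one_mul]; exact h0

/-- Every section of an involution is an involution of the list or a small translation. -/
theorem sec_kap (k : Option Q) (x : XX M) : ∃ y g, Sec1 (kap M k) x y g ∧
    ((∃ k', g = kap M k') ∨ ∃ a, Sm 1 a ∧ g = tau M a) := by
  have h0 : Sm 1 (0 : Bool → ℤ) := fun j => by simp
  rcases x with ⟨q, r, c, i⟩ | b
  · cases k with
    | none =>
      by_cases hi : ∀ j, (i j : ℕ) = 0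
      · refine ⟨_, _, sec_V_pos M q r c i hi, ?_⟩
        split_ifs
        · exact Or.inl ⟨none, rfl⟩
        · exact Or.inr ⟨_, sig_small M q r c, rfl⟩
      · exact ⟨_, _, sec_V_neg M q r c i hi, Or.inr ⟨0, h0, (tau_zero M).symm⟩⟩
    | some q' =>
      by_cases hi : q = q' ∧ i = r
      · obtain ⟨rfl, rfl⟩ := hi
        refine ⟨_, _, sec_U_pos M q i c, ?_⟩
        split_ifs
        · rcases ext_U_cases M (M.nxt q i) with h | ⟨k, h⟩
          · exact Or.inr ⟨0, h0, h⟩
          · exact Or.inl ⟨k, h⟩
        · exact Or.inr ⟨0, h0, (tau_zero M).symm⟩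
      · exact ⟨_, _, sec_U_neg M q' q r c i hi, Or.inr ⟨0, h0, (tau_zero M).symm⟩⟩
  · exact ⟨_, _, sec_kap_inr M k b, Or.inr ⟨0, h0, (tau_zero M).symm⟩⟩

theorem sec_tau (hB : 2 ≤ M.B) {s : ℕ} {a : Bool → ℤ} (ha : Sm s a) (x : XX M) :
    ∃ y b, Sec1 (tau M a) x y (tau M b) ∧ Sm (s / 2 + 1) b := by
  rcases x with ⟨q, r, c, i⟩ | b
  · exact ⟨_, _, sec_tau_inl M a q r c i, rho_div_small M hB ha q r c i⟩
  · refine ⟨.inr b, 0, ?_, fun j => by simp; positivity⟩
    rw [tau_zero]; exact sec_tau_inr M a b

/-- products with at most `r` involutions -/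
def Fm : ℕ → Perm (List (XX M)) → Prop
  | 0, f => ∃ a, f = tau M a
  | r + 1, f => Fm r f ∨ ∃ a k g, Fm r g ∧ f = tau M a * kap M k * g

theorem Fm.succ {r : ℕ} {f : Perm (List (XX M))} (h : Fm M r f) : Fm M (r + 1) f := Or.inl h

theorem Fm.mono {r s : ℕ} (hrs : r ≤ s) {f : Perm (List (XX M))} (h : Fm M r f) : Fm M s f := by
  induction s with
  | zero =>
    have : r = 0 := by omega
    subst this; exact h
  | succ s ih =>
    rcases Nat.lt_or_ge s r with h1 | h1
    · have : r = s + 1 := by omega
      subst this; exact h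
    · exact Or.inl (ih h1)

theorem Fm.tau_mul {r : ℕ} (a : Bool → ℤ) {f : Perm (List (XX M))} (h : Fm M r f) :
    Fm M r (tau M a * f) := by
  induction r generalizing f with
  | zero =>
    obtain ⟨b, rfl⟩ := h
    exact ⟨a + b, (tau_add M a b).symm⟩
  | succ r ih =>
    rcases h with h | ⟨b, k, g, hg, rfl⟩
    · exact Or.inl (ih h)
    · refine Or.inr ⟨a + b, k, g, hg, ?_⟩
      rw [tau_add]; group

theorem Fm.mul {r s : ℕ} {f g : Perm (List (XX M))} (hf : Fm M r f) (hg : Fm M s g) :
    Fm M (r + s) (f * g) := by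
  induction r generalizing f with
  | zero =>
    obtain ⟨a, rfl⟩ := hf
    rw [Nat.zero_add]
    exact Fm.tau_mul M a hg
  | succ r ih =>
    rw [Nat.add_right_comm]
    rcases hf with h | ⟨a, k, f', hf', rfl⟩
    · exact Or.inl (ih h)
    · refine Or.inr ⟨a, k, f' * g, ih hf', ?_⟩
      group

theorem Fm_tau (a : Bool → ℤ) : Fm M 0 (tau M a) := ⟨a, rfl⟩

theorem Fm_kap (k : Option Q) : Fm M 1 (kap M k) := by
  refine Or.inr ⟨0, k, 1, ⟨0, (tau_zero M).symm⟩, ?_⟩
  rw [tau_zero]; group

theorem Fm.inv {r : ℕ} {f : Perm (List (XX M))} (h : Fm M r f) : Fm M r f⁻¹ := by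
  induction r generalizing f with
  | zero =>
    obtain ⟨a, rfl⟩ := h
    exact ⟨-a, (tau_neg M a).symm⟩
  | succ r ih =>
    rcases h with h | ⟨a, k, g, hg, rfl⟩
    · exact Or.inl (ih h)
    · have h1 : (tau M a * kap M k * g)⁻¹ = g⁻¹ * (kap M k * tau M (-a)) := by
        rw [tau_neg, mul_inv_rev, mul_inv_rev, inv_eq_of_mul_eq_one_left (kap_sq M k)]
      rw [h1]
      exact (ih hg).mul M ((Fm_kap M k).mul M (Fm_tau M (-a)))

theorem Fm.closed (hB : 2 ≤ M.B) (r : ℕ) : Closed (Fm M r) := by
  have h0 : ∀ (a : Bool → ℤ) (x : XX M), ∃ y b, Sec1 (tau M a) x y (tau M b) := by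
    intro a x
    have ha : Sm (Int.natAbs (a true) + Int.natAbs (a false)) a := by
      intro j
      cases j <;> (push_cast; have := abs_nonneg (a true); have := abs_nonneg (a false); omega)
    obtain ⟨y, b, h, _⟩ := sec_tau M hB ha x
    exact ⟨y, b, h⟩
  induction r with
  | zero =>
    rintro f ⟨a, rfl⟩ x
    obtain ⟨y, b, h⟩ := h0 a x
    exact ⟨y, _, h, b, rfl⟩
  | succ r ih =>
    intro f hf x
    rcases hf with h | ⟨a, k, g, hg, rfl⟩
    · obtain ⟨y, g, h1, h2⟩ := ih f h x
      exact ⟨y, g, h1, Or.inl h2⟩
    · obtain ⟨y, g', h1, h2⟩ := ih g hg x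
      obtain ⟨y', k', h3, h4⟩ := sec_kap M k y
      obtain ⟨y'', b, h5⟩ := h0 a y'
      refine ⟨y'', _, (h5.mul h3).mul h1, ?_⟩
      rcases h4 with ⟨k'', rfl⟩ | ⟨c, _, rfl⟩
      · exact Or.inr ⟨b, k'', g', h2, rfl⟩
      · rw [← tau_add]
        exact Or.inl (Fm.tau_mul M _ h2)

/-- measure -/
def mu (a : Bool → ℤ) : ℕ := (a true).natAbs + (a false).natAbs

theorem red_eq_zero {z : ℤ} (h : (M.red z : ℕ) = 0) : (M.B : ℤ) ∣ z := by
  have := M.red_val z
  rw [h] at this
  exact Int.dvd_of_emod_eq_zero (by simpa using this.symm)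

theorem natAbs_div (B : ℕ) (hB : 2 ≤ B) (z : ℤ) (h : (B : ℤ) ∣ z) :
    (z / B).natAbs ≤ z.natAbs ∧ (z ≠ 0 → (z / B).natAbs < z.natAbs) := by
  obtain ⟨w, rfl⟩ := h
  have hB0 : (B : ℤ) ≠ 0 := by positivity
  rw [Int.mul_ediv_cancel_left _ hB0, Int.natAbs_mul, Int.natAbs_natCast]
  constructor
  · nlinarith [Nat.zero_le w.natAbs]
  · intro h
    have : w ≠ 0 := by
      rintro rfl; simp at h
    have : 0 < w.natAbs := Int.natAbs_pos.2 this
    nlinarith

/-- sections of a pair of involutions -/
theorem pair_step (hB : 2 ≤ M.B) (hl : 0 < M.l) (k k' : Option Q) (a : Bool → ℤ) (x : XX M) :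
    ∃ y g, Sec1 (kap M k * tau M a * kap M k') x y g ∧
      (Fm M 1 g ∨ ∃ b, mu b < mu a ∧ g = kap M none * tau M b * kap M none) := by
  have key : ∀ (y : XX M) (y' : XX M) (g : Perm (List (XX M))), Sec1 (kap M k') x y g →
      Fm M 0 g → ∃ y g, Sec1 (kap M k * tau M a * kap M k') x y g ∧
      (Fm M 1 g ∨ ∃ b, mu b < mu a ∧ g = kap M none * tau M b * kap M none) := by
    intro y y' g h1 h2
    obtain ⟨z, g2, h3, h4⟩ := Fm.closed M hB 0 (tau M a) (Fm_tau M a) y
    obtain ⟨z', g3, h5, h6⟩ := Fm.closed M hB 1 (kap M k) (Fm_kap M k) z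
    exact ⟨z', _, (h5.mul h3).mul h1, Or.inl ((h6.mul M h4).mul M h2)⟩
  have key2 : ∀ (y z w : XX M) (g1 g2 g3 : Perm (List (XX M))), Sec1 (kap M k') x y g1 →
      Sec1 (tau M a) y z g2 → Sec1 (kap M k) z w g3 → Fm M 1 g1 → Fm M 0 g2 → Fm M 0 g3 →
      ∃ y g, Sec1 (kap M k * tau M a * kap M k') x y g ∧
      (Fm M 1 g ∨ ∃ b, mu b < mu a ∧ g = kap M none * tau M b * kap M none) := by
    intro y z w g1 g2 g3 h1 h2 h3 f1 f2 f3
    refine ⟨w, _, (h3.mul h2).mul h1, Or.inl ?_⟩
    have := (f3.mul M f2).mul M f1
    exact this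
  have one0 : Fm M 0 (1 : Perm (List (XX M))) := ⟨0, (tau_zero M).symm⟩
  rcases x with ⟨q, r, c, i⟩ | b
  · cases k' with
    | none =>
      by_cases hi : ∀ j, (i j : ℕ) = 0
      · have h1 := sec_V_pos M q r c i hi
        by_cases hc : (c : ℕ) = 0
        · rw [if_pos hc] at h1
          have hnc : M.neg c = c := by unfold Sys.neg; rw [dif_pos hc]
          rw [hnc] at h1
          have h2 := sec_tau_inl M a q r c i
          cases k with
          | none =>
            by_cases hi2 : ∀ j, (M.red ((i j : ℕ) + a j) : ℕ) = 0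
            · have h3 := sec_V_pos M q r c (fun j => M.red ((i j : ℕ) + a j)) hi2
              rw [if_pos hc] at h3
              refine ⟨_, _, (h3.mul h2).mul h1, ?_⟩
              by_cases ha : a = 0
              · left
                have e : (fun j => M.rho q r c j * (((i j : ℕ) + a j) / (M.B : ℤ))) = 0 := by
                  funext j
                  rw [hi j, ha]
                  simp
                rw [e, tau_zero, mul_one, kap_sq]
                exact Or.inl one0
              · right
                refine ⟨_, ?_, rfl⟩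
                have hd : ∀ j, (M.B : ℤ) ∣ a j := by
                  intro j
                  have := red_eq_zero M (hi2 j)
                  rw [hi j] at this
                  simpa using this
                have hle : ∀ j, (M.rho q r c j * (((i j : ℕ) + a j) / (M.B : ℤ))).natAbs ≤
                    (a j).natAbs ∧ (a j ≠ 0 → (M.rho q r c j *
                      (((i j : ℕ) + a j) / (M.B : ℤ))).natAbs < (a j).natAbs) := by
                  intro j
                  have h5 := natAbs_div M.B hB (a j) (hd j)
                  rw [hi j]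
                  simp only [Nat.cast_zero, zero_add]
                  unfold Sys.rho
                  split_ifs
                  · rw [one_mul]; exact h5
                  · rw [zero_mul]
                    refine ⟨by simp, fun h => ?_⟩
                    simpa using Int.natAbs_pos.2 h
                unfold mu
                dsimp only
                have ht := hle true
                have hf := hle false
                have hne : a true ≠ 0 ∨ a false ≠ 0 := by
                  by_contra hcon
                  push Not at hcon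
                  apply ha
                  funext j
                  cases j
                  · exact hcon.2
                  · exact hcon.1
                rcases hne with h | h
                · have := ht.2 h
                  have := hf.1
                  omega
                · have := hf.2 h
                  have := ht.1
                  omega
            · have h3 := sec_V_neg M q r c (fun j => M.red ((i j : ℕ) + a j)) hi2
              exact key2 _ _ _ _ _ _ h1 h2 h3 (Fm_kap M none) (Fm_tau M _) one0
          | some q' =>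
            by_cases hi2 : q = q' ∧ (fun j => M.red ((i j : ℕ) + a j)) = r
            · obtain ⟨hq, hr⟩ := hi2
              subst hq
              rw [hr] at h2
              have h3 := sec_U_pos M q r c
              rw [if_neg (by omega)] at h3
              exact key2 _ _ _ _ _ _ h1 h2 h3 (Fm_kap M none) (Fm_tau M _) one0
            · have h3 := sec_U_neg M q' q r c _ hi2
              exact key2 _ _ _ _ _ _ h1 h2 h3 (Fm_kap M none) (Fm_tau M _) one0
        · rw [if_neg hc] at h1
          exact key _ (.inr true) _ h1 (Fm_tau M _)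
      · exact key _ (.inr true) _ (sec_V_neg M q r c i hi) one0
    | some q' =>
      by_cases hi : q = q' ∧ i = r
      · obtain ⟨hq, hr⟩ := hi
        subst hq
        subst hr
        have h1 := sec_U_pos M q i c
        by_cases hc : (c : ℕ) = M.l
        · rw [if_pos hc] at h1
          have hrev : c.rev = c := by
            apply Fin.ext
            rw [Fin.val_rev]
            omega
          rw [hrev] at h1
          have h2 := sec_tau_inl M a q i c i
          have e : (fun j => M.rho q i c j * (((i j : ℕ) + a j) / (M.B : ℤ))) = 0 :=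
            M.rho_big q i c hc.ge _
          rw [e] at h2
          have hU : Fm M 1 (ext (M.UP (M.nxt q i)) : Perm (List (XX M))) := by
            rcases ext_U_cases M (M.nxt q i) with h | ⟨k, h⟩
            · rw [h]; exact Or.inl (Fm_tau M 0)
            · rw [h]; exact Fm_kap M k
          cases k with
          | none =>
            by_cases hi2 : ∀ j, (M.red ((i j : ℕ) + a j) : ℕ) = 0
            · have h3 := sec_V_pos M q i c (fun j => M.red ((i j : ℕ) + a j)) hi2
              rw [if_neg (by omega)] at h3
              exact key2 _ _ _ _ _ _ h1 h2 h3 hU (Fm_tau M _) (Fm_tau M _)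
            · have h3 := sec_V_neg M q i c (fun j => M.red ((i j : ℕ) + a j)) hi2
              exact key2 _ _ _ _ _ _ h1 h2 h3 hU (Fm_tau M _) one0
          | some q' =>
            by_cases hi2 : q = q' ∧ (fun j => M.red ((i j : ℕ) + a j)) = i
            · obtain ⟨hq, hr⟩ := hi2
              subst hq
              rw [hr] at h2
              have h3 := sec_U_pos M q i c
              rw [if_pos hc] at h3
              refine ⟨_, _, (h3.mul h2).mul h1, Or.inl ?_⟩
              rw [tau_zero, mul_one, ← map_mul, M.UP_sq, map_one]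
              exact Or.inl one0
            · have h3 := sec_U_neg M q' q i c _ hi2
              exact key2 _ _ _ _ _ _ h1 h2 h3 hU (Fm_tau M _) one0
        · rw [if_neg hc] at h1
          exact key _ (.inr true) _ h1 one0
      · exact key _ (.inr true) _ (sec_U_neg M q' q r c i hi) one0
  · exact key _ (.inr true) _ (sec_kap_inr M k' b) one0

end contr

end Pool.Agent.Q89.WR
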