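import Pool.Agent.Q89.WR2

/-!
The group generated by the odometers, the involutions and the new generator: sections and
contraction.
-/

set_option linter.unusedSimpArgs false
set_option linter.unusedVariables false
set_option linter.unusedSectionVars false

namespace Pool.Agent.Q89.WR

open Equiv Pool.Agent.Helper599.Core

/-- Sections of products. -/
theorem Lv.mul {X : Type} {P Q R : Perm (List X) → Prop} (hPQ : ∀ f g, P f → Q g → R (f * g))
    {n : ℕ} {f g : Perm (List X)} (hf : Lv P n f) (hg : Lv Q n g) : Lv R n (f * g) := by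
  induction n generalizing f g with
  | zero => exact hPQ f g hf hg
  | succ n ih =>
    intro x
    obtain ⟨y, g', h1, h2⟩ := hg x
    obtain ⟨z, f', h3, h4⟩ := hf y
    exact ⟨z, _, h3.mul h1, ih h4 h2⟩

theorem Lv.of_closed {X : Type} {P : Perm (List X) → Prop} (hP : Closed P) (n : ℕ)
    {f : Perm (List X)} (hf : P f) : Lv P n f :=
  Lv.le (n := 0) hP (Nat.zero_le n) hf

section contr

variable {Q : Type} (M : Sys Q Bool)

theorem pair_ev [Finite Q] (hB : 2 ≤ M.B) (hl : 0 < M.l) (m : ℕ) :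
    ∀ (k k' : Option Q) (a : Bool → ℤ), mu a ≤ m →
      ∃ n, Lv (Fm M 1) n (kap M k * tau M a * kap M k') := by
  induction m with
  | zero =>
    intro k k' a ha
    apply Lv.one_of (Fm.closed M hB 1)
    intro x
    obtain ⟨y, g, h1, h2⟩ := pair_step M hB hl k k' a x
    refine ⟨y, g, h1, ?_⟩
    rcases h2 with h2 | ⟨b, hb, rfl⟩
    · exact ⟨0, h2⟩
    · omega
  | succ m ih =>
    intro k k' a ha
    apply Lv.one_of (Fm.closed M hB 1)
    intro x
    obtain ⟨y, g, h1, h2⟩ := pair_step M hB hl k k' a x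
    refine ⟨y, g, h1, ?_⟩
    rcases h2 with h2 | ⟨b, hb, rfl⟩
    · exact ⟨0, h2⟩
    · exact ih none none b (by omega)

theorem Fm_ev [Finite Q] (hB : 2 ≤ M.B) (hl : 0 < M.l) (r : ℕ) :
    ∀ f, Fm M r f → ∃ n, Lv (Fm M 1) n f := by
  induction r using Nat.strong_induction_on with
  | _ r ih =>
    intro f hf
    match r, ih, hf with
    | 0, ih, hf => exact ⟨0, Or.inl hf⟩
    | 1, ih, hf => exact ⟨0, hf⟩
    | r + 2, ih, hf =>
      rcases hf with h | ⟨a, k, g, hg, rfl⟩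
      · exact ih (r + 1) (by omega) f h
      · rcases hg with h | ⟨b, k', g', hg', rfl⟩
        · refine ih (r + 1) (by omega) _ (Or.inr ⟨a, k, g, h, rfl⟩)
        · obtain ⟨n, hn⟩ := pair_ev M hB hl (mu b) k k' b le_rfl
          have h1 : Lv (Fm M (r + 1)) n (tau M a * (kap M k * tau M b * kap M k') * g') := by
            refine Lv.mul (P := Fm M 1) (Q := Fm M r) ?_ ?_
              (Lv.of_closed (Fm.closed M hB r) n hg')
            · intro f g hf hg
              have := hf.mul M hg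
              rwa [Nat.add_comm] at this
            · refine Lv.mul (P := Fm M 0) (Q := Fm M 1) ?_
                (Lv.of_closed (Fm.closed M hB 0) n (Fm_tau M a)) hn
              intro f g hf hg
              have := hf.mul M hg
              rwa [Nat.zero_add] at this
          have e : tau M a * kap M k * (tau M b * kap M k' * g') =
              tau M a * (kap M k * tau M b * kap M k') * g' := by group
          rw [e]
          exact h1.exists_add (Fm.closed M hB 1) (ih (r + 1) (by omega))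

/-- bounded elements -/
def N0 (s : ℕ) (f : Perm (List (XX M))) : Prop :=
  ∃ a b, Sm s a ∧ Sm s b ∧ (f = tau M a * tau M b ∨ ∃ k, f = tau M a * kap M k * tau M b)

theorem Sm.mono {s t : ℕ} (h : s ≤ t) {a : Bool → ℤ} (ha : Sm s a) : Sm t a :=
  fun j => (ha j).trans (by exact_mod_cast h)

theorem Sm.add {s t : ℕ} {a b : Bool → ℤ} (ha : Sm s a) (hb : Sm t b) : Sm (s + t) (a + b) := by
  intro j
  have h1 := ha j
  have h2 := hb j
  have h3 := abs_add_le (a j) (b j)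
  push_cast
  simp only [Pi.add_apply]
  linarith

theorem N0_step (hB : 2 ≤ M.B) (s : ℕ) (f : Perm (List (XX M))) (hf : N0 M s f) (x : XX M) :
    ∃ y g, Sec1 f x y g ∧ N0 M (s / 2 + 2) g := by
  obtain ⟨a, b, ha, hb, h⟩ := hf
  obtain ⟨y1, b', h1, h2⟩ := sec_tau M hB hb x
  rcases h with rfl | ⟨k, rfl⟩
  · obtain ⟨y2, a', h3, h4⟩ := sec_tau M hB ha y1
    exact ⟨y2, _, h3.mul h1, a', b', h4.mono (by omega), h2.mono (by omega), Or.inl rfl⟩
  · obtain ⟨y2, g2, h3, h4⟩ := sec_kap M k y1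
    obtain ⟨y3, a', h5, h6⟩ := sec_tau M hB ha y2
    refine ⟨y3, _, (h5.mul h3).mul h1, ?_⟩
    rcases h4 with ⟨k', rfl⟩ | ⟨c, hc, rfl⟩
    · exact ⟨a', b', h6.mono (by omega), h2.mono (by omega), Or.inr ⟨k', rfl⟩⟩
    · refine ⟨a' + c, b', ?_, h2.mono (by omega), Or.inl ?_⟩
      · exact h6.add hc
      · rw [tau_add]

theorem N0.mono {s t : ℕ} (h : s ≤ t) {f : Perm (List (XX M))} (hf : N0 M s f) : N0 M t f := by
  obtain ⟨a, b, ha, hb, h'⟩ := hf
  exact ⟨a, b, ha.mono h, hb.mono h, h'⟩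

theorem N0_closed (hB : 2 ≤ M.B) : Closed (N0 M 4) := by
  intro f hf x
  exact N0_step M hB 4 f hf x

theorem N0_ev [Finite Q] (hB : 2 ≤ M.B) (s : ℕ) : ∀ f, N0 M s f → ∃ n, Lv (N0 M 4) n f := by
  induction s using Nat.strong_induction_on with
  | _ s ih =>
    intro f hf
    by_cases hs : s ≤ 4
    · exact ⟨0, hf.mono M hs⟩
    · apply Lv.one_of (N0_closed M hB)
      intro x
      obtain ⟨y, g, h1, h2⟩ := N0_step M hB s f hf x
      exact ⟨y, g, h1, ih (s / 2 + 2) (by omega) g h2⟩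

theorem exists_Sm (a : Bool → ℤ) : ∃ s, Sm s a := by
  refine ⟨(a true).natAbs + (a false).natAbs, ?_⟩
  intro j
  cases j <;> (push_cast; have := abs_nonneg (a true); have := abs_nonneg (a false); omega)

theorem Fm1_ev [Finite Q] (hB : 2 ≤ M.B) (f : Perm (List (XX M))) (hf : Fm M 1 f) :
    ∃ n, Lv (N0 M 4) n f := by
  rcases hf with ⟨a, rfl⟩ | ⟨a, k, g, ⟨b, rfl⟩, rfl⟩
  · obtain ⟨s, hs⟩ := exists_Sm a
    refine N0_ev M hB s _ ⟨a, 0, hs, fun j => by simp, Or.inl ?_⟩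
    rw [tau_zero, mul_one]
  · obtain ⟨s, hs⟩ := exists_Sm a
    obtain ⟨t, ht⟩ := exists_Sm b
    exact N0_ev M hB (s + t) _ ⟨a, b, hs.mono (by omega), ht.mono (by omega), Or.inr ⟨k, rfl⟩⟩

theorem G0_ev [Finite Q] (hB : 2 ≤ M.B) (hl : 0 < M.l) (r : ℕ) (f : Perm (List (XX M)))
    (hf : Fm M r f) : ∃ n, Lv (N0 M 4) n f := by
  obtain ⟨n, hn⟩ := Fm_ev M hB hl r f hf
  exact hn.exists_add (N0_closed M hB) (Fm1_ev M hB)

theorem Sm_finite (s : ℕ) : {a : Bool → ℤ | Sm s a}.Finite := by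
  have h : {a : Bool → ℤ | ∀ j, a j ∈ Set.Icc (-(s : ℤ)) s}.Finite :=
    Set.Finite.pi' (fun _ => Set.finite_Icc _ _)
  refine h.subset ?_
  intro a ha j
  exact abs_le.1 (ha j)

theorem N0_finite [Finite Q] (s : ℕ) : {f | N0 M s f}.Finite := by
  have h1 := Sm_finite s
  have h2 : (Set.image2 (fun a b => tau M a * tau M b) {a | Sm s a} {a | Sm s a}).Finite :=
    h1.image2 _ h1
  have h3 : ∀ k, (Set.image2 (fun a b => tau M a * kap M k * tau M b) {a | Sm s a}
      {a | Sm s a}).Finite := fun k => h1.image2 _ h1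
  refine (h2.union (Set.finite_iUnion h3)).subset ?_
  rintro f ⟨a, b, ha, hb, rfl | ⟨k, rfl⟩⟩
  · exact Or.inl ⟨a, ha, b, hb, rfl⟩
  · exact Or.inr (Set.mem_iUnion.2 ⟨k, a, ha, b, hb, rfl⟩)

/-! ### The new generator -/

variable (w : Perm (List (XX M)))

/-- the finite set of sections -/
def PP (f : Perm (List (XX M))) : Prop :=
  N0 M 4 f ∨ (∃ e : ℤ, IsSec (w ^ e) f) ∨ ∃ e : ℤ, f = Z (w ^ e)

theorem IsSec.trans1 {X : Type} {f g h : Perm (List X)} {x y : X} (h1 : IsSec f g)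
    (h2 : Sec1 g x y h) : IsSec f h := by
  induction h1 with
  | refl f => exact IsSec.step h2 (IsSec.refl h)
  | step h3 _ ih => exact IsSec.step h3 (ih h2)

theorem PP_closed (hB : 2 ≤ M.B) (hw : ∀ e : ℤ, ∃ r, Fm M r (w ^ e)) :
    Closed (PP M w) := by
  intro f hf x
  rcases hf with h | ⟨e, h⟩ | ⟨e, rfl⟩
  · obtain ⟨y, g, h1, h2⟩ := N0_closed M hB f h x
    exact ⟨y, g, h1, Or.inl h2⟩
  · obtain ⟨r, hr⟩ := hw e
    have h1 : Fm M r f := h.of_closed (Fm.closed M hB r) hr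
    obtain ⟨y, g, h2, _⟩ := Fm.closed M hB r f h1 x
    exact ⟨y, g, h2, Or.inr (Or.inl ⟨e, h.trans1 h2⟩)⟩
  · rcases x with a | b
    · refine ⟨_, _, Z_sec_inl (w ^ e) a, Or.inl ⟨0, 0, fun j => by simp, fun j => by simp, Or.inl ?_⟩⟩
      rw [tau_zero, mul_one]
    · cases b
      · exact ⟨_, _, Z_sec_false (w ^ e), Or.inr (Or.inl ⟨e, IsSec.refl _⟩)⟩
      · exact ⟨_, _, Z_sec_true (w ^ e), Or.inr (Or.inr ⟨e, rfl⟩)⟩

theorem PP_finite [Finite Q] (hB : 2 ≤ M.B) (hl : 0 < M.l)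
    (hw : ∀ e : ℤ, ∃ r, Fm M r (w ^ e)) (m : ℕ) (hm : 0 < m) (hwm : w ^ m = 1) :
    {f | PP M w f}.Finite := by
  have hmod : ∀ e : ℤ, ∃ i : Fin m, w ^ e = w ^ (i : ℕ) := by
    intro e
    have hm' : (m : ℤ) ≠ 0 := by omega
    have h1 := Int.emod_nonneg e hm'
    have h2 := Int.emod_lt_of_pos e (b := (m : ℤ)) (by omega)
    refine ⟨⟨(e % m).toNat, by omega⟩, ?_⟩
    have h3 : e = ((e % m).toNat : ℤ) + m * (e / m) := by
      rw [Int.toNat_of_nonneg h1]
      exact (Int.emod_add_mul_ediv e m).symm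
    conv_lhs => rw [h3, zpow_add, zpow_mul, zpow_natCast, zpow_natCast, hwm, one_zpow, mul_one]
  have h1 : ∀ i : Fin m, {f | IsSec (w ^ (i : ℕ)) f}.Finite := by
    intro i
    obtain ⟨r, hr⟩ := hw (i : ℕ)
    rw [zpow_natCast] at hr
    obtain ⟨n, hn⟩ := G0_ev M hB hl r _ hr
    exact finite_sections (N0_closed M hB) (N0_finite M 4) n _ hn
  have h2 : (⋃ i : Fin m, {f | IsSec (w ^ (i : ℕ)) f}).Finite := Set.finite_iUnion h1
  have h3 : (Set.range (fun i : Fin m => Z (w ^ (i : ℕ)))).Finite := Set.finite_range _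
  refine ((N0_finite M 4).union (h2.union h3)).subset ?_
  rintro f (h | ⟨e, h⟩ | ⟨e, rfl⟩)
  · exact Or.inl h
  · obtain ⟨i, hi⟩ := hmod e
    rw [hi] at h
    exact Or.inr (Or.inl (Set.mem_iUnion.2 ⟨i, h⟩))
  · obtain ⟨i, hi⟩ := hmod e
    rw [hi]
    exact Or.inr (Or.inr ⟨i, rfl⟩)

end contr

end Pool.Agent.Q89.WR
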